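import Pool.Agent.W_MP_6663ab_lc.Count

/-!
# Long words: collisions and self-avoiding paths
-/

namespace Pool.Agent.SC

open Finset

universe u v w

section upd
variable {A : Type u} {Q : Type v}

open Classical in
/-- change the target of the edge `(p, a)` to `c` -/
noncomputable def upd (δ : Q → A → Q) (p : Q) (a : A) (c : Q) : Q → A → Q :=
  fun q b => if q = p ∧ b = a then c else δ q b

lemma upd_same (δ : Q → A → Q) (p : Q) (a : A) (c : Q) : upd δ p a c p a = c := by
  simp [upd]

lemma upd_ne {δ : Q → A → Q} {p : Q} {a : A} {c : Q} {q : Q} {b : A}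
    (h : q = p → b ≠ a) : upd δ p a c q b = δ q b := by
  unfold upd
  rw [if_neg]
  rintro ⟨h1, h2⟩
  exact h h1 h2

lemma upd_upd (δ : Q → A → Q) (p : Q) (a : A) (c : Q) :
    upd (upd δ p a c) p a (δ p a) = δ := by
  funext q b
  by_cases h : q = p ∧ b = a
  · obtain ⟨rfl, rfl⟩ := h
    rw [upd_same]
  · have h' : q = p → b ≠ a := fun h1 h2 => h ⟨h1, h2⟩
    rw [upd_ne h', upd_ne h']

/-- runs only depend on the transitions used -/
lemma run_congr {δ δ' : Q → A → Q} {q : Q} {x : List A}
    (h : ∀ s a t, x = s ++ a :: t → δ' (run δ q s) a = δ (run δ q s) a) :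
    run δ' q x = run δ q x := by
  induction x generalizing q with
  | nil => rfl
  | cons a x ih =>
    have h0 : δ' q a = δ q a := h [] a x rfl
    rw [run_cons, run_cons, h0]
    apply ih
    intro s b t hx
    have := h (a :: s) b t (by rw [hx]; rfl)
    simpa using this

/-- the path of `u` starting at `q` is self-avoiding -/
def SA (δ : Q → A → Q) (q : Q) (u : List A) : Prop :=
  ∀ s t w, u = s ++ t ++ w → t ≠ [] → run δ q s ≠ run δ q (s ++ t)

lemma SA.left {δ : Q → A → Q} {q : Q} {u v : List A} (h : SA δ q (u ++ v)) : SA δ q u := by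
  intro s t w hu ht
  exact h s t (w ++ v) (by rw [hu]; simp) ht

/-- two different words of the same length leading to the same state -/
lemma exists_merge {δ : Q → A → Q} {q : Q} {u v : List A} (hl : u.length = v.length)
    (hne : u ≠ v) (hr : run δ q u = run δ q v) :
    ∃ x a y b z, u = x ++ a :: z ∧ v = y ++ b :: z ∧ run δ q (x ++ [a]) = run δ q (y ++ [b]) ∧
      (run δ q x, a) ≠ (run δ q y, b) := by
  induction u using List.reverseRecOn generalizing v with
  | nil => 
    rw [List.length_nil, eq_comm, List.length_eq_zero_iff] at hl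
    exact absurd hl.symm hne
  | append_singleton u' c ih =>
    have hv : v ≠ [] := by
      rintro rfl
      simp at hl
    obtain ⟨v', d, rfl⟩ : ∃ v' d, v = v' ++ [d] := ⟨_, _, (List.dropLast_append_getLast hv).symm⟩
    by_cases he : (run δ q u', c) = (run δ q v', d)
    · have h1 := Prod.ext_iff.1 he
      simp only at h1
      have hl' : u'.length = v'.length := by simpa using hl
      have hne' : u' ≠ v' := by
        rintro rfl
        exact hne (by rw [h1.2])
      obtain ⟨x, a, y, b, z, hu, hv', h3, h4⟩ := ih hl' hne' h1.1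
      exact ⟨x, a, y, b, z ++ [c], by rw [hu]; simp, by rw [hv', ← h1.2]; simp, h3, h4⟩
    · exact ⟨u', c, v', d, [], rfl, rfl, hr, he⟩

/-- if a word is not self-avoiding there is a first return -/
lemma exists_loop {δ : Q → A → Q} {q : Q} {u : List A} (h : ¬ SA δ q u) :
    ∃ s t b w, u = s ++ t ++ b :: w ∧ SA δ q (s ++ t) ∧ run δ q (s ++ t ++ [b]) = run δ q s := by
  induction u using List.reverseRecOn with
  | nil =>
    exfalso
    apply h
    intro s t w hu ht
    have := congrArg List.length hu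
    simp only [List.length_nil, List.length_append] at this
    have h2 : t.length = 0 := by omega
    exact absurd (List.length_eq_zero_iff.1 h2) ht
  | append_singleton u' c ih =>
    by_cases h' : SA δ q u'
    · simp only [SA, not_forall, not_not] at h
      obtain ⟨s, t, w, hu, ht, hr⟩ := h
      rcases List.eq_nil_or_concat w with rfl | ⟨w', d, rfl⟩
      · -- the return is at the very end
        obtain ⟨t', b, rfl⟩ : ∃ t' b, t = t' ++ [b] := ⟨_, _, (List.dropLast_append_getLast ht).symm⟩
        rw [List.append_nil, ← List.append_assoc] at hu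
        obtain ⟨h1, h2⟩ := List.append_inj' hu rfl
        obtain rfl : c = b := by simpa using h2
        refine ⟨s, t', c, [], by rw [h1], by rw [← h1]; exact h', ?_⟩
        rw [hr]; simp
      · exfalso
        have hu' : u' ++ [c] = (s ++ t ++ w') ++ [d] := by rw [hu]; simp
        obtain ⟨h1, h2⟩ := List.append_inj' hu' rfl
        exact h' s t w' h1 ht hr
    · obtain ⟨s, t, b, w, hu, h1, h2⟩ := ih h'
      exact ⟨s, t, b, w ++ [c], by rw [hu]; simp, h1, h2⟩

end upd

variable {A : Type u} {Q : Type v} [Fintype A] [Nonempty A] [Fintype Q] [LinearOrder Q]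

/-- the edge `(p,a)` is not a tree edge -/
def NonTree (q₀ : Q) (δ : Q → A → Q) (p : Q) (a : A) : Prop :=
  δ p a = q₀ ∨ tre q₀ δ (δ p a) ≠ (p, a)

lemma acc_upd {q₀ : Q} {δ : Q → A → Q} (h : Acc q₀ δ) {p : Q} {a : A} (hn : NonTree q₀ δ p a)
    (c : Q) : Acc q₀ (upd δ p a c) := by
  refine acc_modify h ?_
  intro s hs
  apply upd_ne
  intro h1 h2
  have h3 : tre q₀ δ s = (p, a) := Prod.ext h1 h2
  have h4 := tre_spec h hs
  rw [h3] at h4
  simp only at h4
  rcases hn with h5 | h5
  · exact hs (by rw [← h4, h5])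
  · exact h5 (by rw [h4, h3])

lemma nonTree_or {q₀ : Q} {δ : Q → A → Q} {p p' : Q} {a a' : A} (h : δ p a = δ p' a')
    (hne : (p, a) ≠ (p', a')) : NonTree q₀ δ p a ∨ NonTree q₀ δ p' a' := by
  by_contra hcon
  simp only [NonTree, not_or, not_not] at hcon
  apply hne
  rw [← hcon.1.2, ← hcon.2.2, h]

open Classical in
/-- structures in which the two given words merge at their last letter -/
noncomputable def Mrg (q₀ : Q) (x : List A) (a : A) (y : List A) (b : A) : Finset (Q → A → Q) :=
  (AccF A q₀).filter fun δ => SA δ q₀ (x ++ [a]) ∧ SA δ q₀ (y ++ [b]) ∧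
    run δ q₀ (x ++ [a]) = run δ q₀ (y ++ [b]) ∧ (run δ q₀ x, a) ≠ (run δ q₀ y, b)

open Classical in
lemma card_Mrg_half (q₀ : Q) (x : List A) (a : A) (y : List A) (b : A) :
    ((Mrg q₀ x a y b).filter fun δ => NonTree q₀ δ (run δ q₀ x) a).card * Fintype.card Q ≤
      (AccF A q₀).card := by
  rw [← card_univ (α := Q), ← card_product]
  apply card_le_card_of_injOn fun y => upd y.1 (run y.1 q₀ x) a y.2
  · rintro ⟨δ, c⟩ h
    rw [mem_coe, mem_product, mem_filter, Mrg, mem_filter, mem_AccF] at h
    rw [mem_coe, mem_AccF]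
    exact acc_upd h.1.1.1 h.1.2 c
  · have key : ∀ δ : Q → A → Q, ∀ c : Q, δ ∈ (Mrg q₀ x a y b).filter
        (fun δ => NonTree q₀ δ (run δ q₀ x) a) →
        run (upd δ (run δ q₀ x) a c) q₀ x = run δ q₀ x ∧
        run (upd δ (run δ q₀ x) a c) q₀ (y ++ [b]) = δ (run δ q₀ x) a := by
      intro δ c h
      rw [mem_filter, Mrg, mem_filter, mem_AccF] at h
      obtain ⟨⟨hacc, hx, hy, hr, hne⟩, hn⟩ := h
      constructor
      · apply run_congr
        intro s a' t hs
        apply upd_ne
        intro h1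
        exfalso
        refine hx s (a' :: t) [a] (by rw [hs]) (by simp) ?_
        rw [h1, hs]
      · rw [← run_concat δ q₀ x a, hr]
        apply run_congr
        intro s b' t hs
        apply upd_ne
        intro h1 h2
        subst h2
        have h3 : run δ q₀ (s ++ [b']) = run δ q₀ (y ++ [b]) := by
          rw [run_concat, h1, ← run_concat δ q₀ x, hr]
        rcases List.eq_nil_or_concat t with rfl | ⟨t', d, rfl⟩
        · have h4 : y ++ [b] = s ++ [b'] := hs
          obtain ⟨h5, h6⟩ := List.append_inj' h4 rfl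
          apply hne
          rw [h5, h1]
          simp only [List.cons.injEq, and_true] at h6
          rw [h6]
        · refine hy (s ++ [b']) (t' ++ [d]) [] ?_ (by simp) ?_
          · rw [hs]; simp
          · rw [h3, hs]; simp
    rintro ⟨δ1, c1⟩ h1 ⟨δ2, c2⟩ h2 h12
    rw [mem_coe, mem_product] at h1 h2
    obtain ⟨k1, k1'⟩ := key δ1 c1 h1.1
    obtain ⟨k2, k2'⟩ := key δ2 c2 h2.1
    simp only at h12
    have hp : run δ1 q₀ x = run δ2 q₀ x := by rw [← k1, ← k2, h12]
    have hz : δ1 (run δ1 q₀ x) a = δ2 (run δ2 q₀ x) a := by rw [← k1', ← k2', h12]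
    have hc : c1 = c2 := by
      calc c1 = upd δ1 (run δ1 q₀ x) a c1 (run δ1 q₀ x) a := (upd_same _ _ _ _).symm
        _ = upd δ2 (run δ2 q₀ x) a c2 (run δ2 q₀ x) a := by rw [h12, hp]
        _ = c2 := upd_same _ _ _ _
    have hδ : δ1 = δ2 := by
      rw [← upd_upd δ1 (run δ1 q₀ x) a c1, ← upd_upd δ2 (run δ2 q₀ x) a c2, h12, hz, hp]
    rw [hδ, hc]

lemma card_Mrg (q₀ : Q) (x : List A) (a : A) (y : List A) (b : A) :
    (Mrg q₀ x a y b).card * Fintype.card Q ≤ 2 * (AccF A q₀).card := by
  classical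
  have h1 := card_Mrg_half q₀ x a y b
  have h2 := card_Mrg_half q₀ y b x a
  have h3 : Mrg q₀ x a y b ⊆ ((Mrg q₀ x a y b).filter fun δ => NonTree q₀ δ (run δ q₀ x) a) ∪
      ((Mrg q₀ y b x a).filter fun δ => NonTree q₀ δ (run δ q₀ y) b) := by
    intro δ hδ
    have hδ' := hδ
    rw [Mrg, mem_filter] at hδ'
    obtain ⟨hacc, hx, hy, hr, hne⟩ := hδ'
    rw [mem_union, mem_filter, mem_filter]
    have hr' : δ (run δ q₀ x) a = δ (run δ q₀ y) b := by
      rw [← run_concat δ q₀ x, ← run_concat δ q₀ y, hr]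
    rcases nonTree_or (q₀ := q₀) hr' hne with h | h
    · exact Or.inl ⟨hδ, h⟩
    · refine Or.inr ⟨?_, h⟩
      rw [Mrg, mem_filter]
      exact ⟨hacc, hy, hx, hr.symm, hne.symm⟩
  calc (Mrg q₀ x a y b).card * Fintype.card Q
      ≤ ((((Mrg q₀ x a y b).filter fun δ => NonTree q₀ δ (run δ q₀ x) a) ∪
        ((Mrg q₀ y b x a).filter fun δ => NonTree q₀ δ (run δ q₀ y) b)).card) *
          Fintype.card Q := Nat.mul_le_mul_right _ (card_le_card h3)
    _ ≤ (((Mrg q₀ x a y b).filter fun δ => NonTree q₀ δ (run δ q₀ x) a).card +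
        ((Mrg q₀ y b x a).filter fun δ => NonTree q₀ δ (run δ q₀ y) b).card) *
          Fintype.card Q := Nat.mul_le_mul_right _ (card_union_le _ _)
    _ ≤ 2 * (AccF A q₀).card := by
        rw [add_mul]; omega

/-! ### cycles -/

open Classical in
/-- structures with a marked state `y` on a simple cycle labelled `t ++ [b]` -/
noncomputable def Cyc (q₀ : Q) (t : List A) (b : A) : Finset ((Q → A → Q) × Q) :=
  ((AccF A q₀) ×ˢ (univ : Finset Q)).filter fun x =>
    SA x.1 x.2 t ∧ run x.1 x.2 (t ++ [b]) = x.2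

open Classical in
lemma card_Cyc_part (q₀ : Q) (t : List A) (b : A) (r : List A) (d : A) (w : List A)
    (hrw : t ++ [b] = r ++ d :: w) :
    ((Cyc q₀ t b).filter fun x => NonTree q₀ x.1 (run x.1 x.2 r) d).card ≤ (AccF A q₀).card := by
  have hn : 0 < Fintype.card Q := Fintype.card_pos_iff.2 ⟨q₀⟩
  refine Nat.le_of_mul_le_mul_right ?_ hn
  rw [← card_univ (α := Q), ← card_product, ← card_product]
  -- facts
  have key : ∀ δ : Q → A → Q, ∀ y c : Q, (δ, y) ∈ (Cyc q₀ t b).filter
      (fun x => NonTree q₀ x.1 (run x.1 x.2 r) d) →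
      run (upd δ (run δ y r) d c) (δ (run δ y r) d) w = y ∧
      run (upd δ (run δ y r) d c) y r = run δ y r := by
    intro δ y c h
    rw [mem_filter, Cyc, mem_filter, mem_product, mem_AccF] at h
    obtain ⟨⟨⟨hacc, -⟩, hsa, hcyc⟩, hn⟩ := h
    simp only at hacc hsa hcyc hn
    constructor
    · have e1 : run (upd δ (run δ y r) d c) (δ (run δ y r) d) w =
          run δ (δ (run δ y r) d) w := by
        apply run_congr
        intro s a' t' hs
        apply upd_ne
        intro h1
        exfalso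
        have h2 : run δ y (r ++ (d :: s)) = run δ y r := by
          rw [run_append, run_cons, h1]
        rcases List.eq_nil_or_concat t' with rfl | ⟨t'', e, rfl⟩
        · have h3 : t ++ [b] = (r ++ (d :: s)) ++ [a'] := by rw [hrw, hs]; simp
          obtain ⟨h4, h5⟩ := List.append_inj' h3 rfl
          exact hsa r (d :: s) [] (by rw [h4]; simp) (by simp) h2.symm
        · have h3 : t ++ [b] = (r ++ (d :: s) ++ (a' :: t'')) ++ [e] := by rw [hrw, hs]; simp
          obtain ⟨h4, h5⟩ := List.append_inj' h3 rfl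
          exact hsa r (d :: s) (a' :: t'') h4 (by simp) h2.symm
      rw [e1, ← run_cons, ← run_append, ← hrw, hcyc]
    · apply run_congr
      intro s a' t' hs
      apply upd_ne
      intro h1
      exfalso
      -- r = s ++ a' :: t', run δ y s = run δ y r
      rcases List.eq_nil_or_concat w with rfl | ⟨w', e, rfl⟩
      · have h3 : t ++ [b] = r ++ [d] := hrw
        obtain ⟨h4, h5⟩ := List.append_inj' h3 rfl
        refine hsa s (a' :: t') [] (by rw [h4, hs]; simp) (by simp) ?_
        rw [h1, hs]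
      · have h3 : t ++ [b] = (r ++ (d :: w')) ++ [e] := by rw [hrw]; simp
        obtain ⟨h4, h5⟩ := List.append_inj' h3 rfl
        refine hsa s (a' :: t') (d :: w') (by rw [h4, hs]) (by simp) ?_
        rw [h1, hs]
  apply card_le_card_of_injOn fun x => (upd x.1.1 (run x.1.1 x.1.2 r) d x.2,
    x.1.1 (run x.1.1 x.1.2 r) d)
  · rintro ⟨⟨δ, y⟩, c⟩ h
    rw [mem_coe, mem_product, mem_filter, Cyc, mem_filter, mem_product, mem_AccF] at h
    rw [mem_coe, mem_product, mem_AccF]
    exact ⟨acc_upd h.1.1.1.1 h.1.2 c, mem_univ _⟩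
  · rintro ⟨⟨δ1, y1⟩, c1⟩ h1 ⟨⟨δ2, y2⟩, c2⟩ h2 h12
    rw [mem_coe, mem_product] at h1 h2
    obtain ⟨k1, k1'⟩ := key δ1 y1 c1 h1.1
    obtain ⟨k2, k2'⟩ := key δ2 y2 c2 h2.1
    have h3 := Prod.ext_iff.1 h12
    simp only at h3
    obtain ⟨h3, h4⟩ := h3
    have hy : y1 = y2 := by rw [← k1, ← k2, h3, h4]
    subst hy
    have hp : run δ1 y1 r = run δ2 y1 r := by rw [← k1', ← k2', h3]
    have hc : c1 = c2 := by
      calc c1 = upd δ1 (run δ1 y1 r) d c1 (run δ1 y1 r) d := (upd_same _ _ _ _).symm
        _ = upd δ2 (run δ2 y1 r) d c2 (run δ2 y1 r) d := by rw [h3, hp]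
        _ = c2 := upd_same _ _ _ _
    have hδ : δ1 = δ2 := by
      rw [← upd_upd δ1 (run δ1 y1 r) d c1, ← upd_upd δ2 (run δ2 y1 r) d c2, h3, h4, hp]
    rw [hδ, hc]

/-- a nonempty closed path contains a non-tree edge -/
lemma exists_nonTree_of_cycle {q₀ : Q} {δ : Q → A → Q} (h : Acc q₀ δ) {y : Q} {x : List A}
    (hx : x ≠ []) (hc : run δ y x = y) :
    ∃ r d w, x = r ++ d :: w ∧ NonTree q₀ δ (run δ y r) d := by
  by_contra hcon
  push Not at hcon
  have hlt : ∀ (x' w : List A), x = x' ++ w → x' ≠ [] → dst q₀ δ y < dst q₀ δ (run δ y x') := by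
    intro x'
    induction x' using List.reverseRecOn with
    | nil => intro w _ h; exact absurd rfl h
    | append_singleton r d ih =>
      intro w hw _
      have h1 := hcon r d w (by rw [hw]; simp)
      simp only [NonTree, not_or, not_not] at h1
      have h2 := dst_lt h h1.1
      rw [h1.2] at h2
      rw [run_concat]
      rcases eq_or_ne r [] with rfl | hr
      · simpa using h2
      · exact lt_trans (ih (d :: w) (by rw [hw]; simp) hr) h2
  have := hlt x [] (by simp) hx
  rw [hc] at this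
  exact lt_irrefl _ this

lemma card_Cyc (q₀ : Q) (t : List A) (b : A) :
    (Cyc q₀ t b).card ≤ (t.length + 1) * (AccF A q₀).card := by
  classical
  -- decompose according to the position of a non-tree edge
  let P : ℕ → Finset ((Q → A → Q) × Q) := fun i =>
    (Cyc q₀ t b).filter fun x => ∃ r d w, t ++ [b] = r ++ d :: w ∧ r.length = i ∧
      NonTree q₀ x.1 (run x.1 x.2 r) d
  have hsub : Cyc q₀ t b ⊆ (range (t.length + 1)).biUnion P := by
    intro x hx
    have hx' := hx
    rw [Cyc, mem_filter, mem_product, mem_AccF] at hx'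
    obtain ⟨r, d, w, h1, h2⟩ := exists_nonTree_of_cycle hx'.1.1 (by simp) hx'.2.2
    rw [mem_biUnion]
    refine ⟨r.length, ?_, ?_⟩
    · rw [mem_range]
      have := congrArg List.length h1
      simp at this
      omega
    · rw [mem_filter]
      exact ⟨hx, r, d, w, h1, rfl, h2⟩
  have hP : ∀ i, (P i).card ≤ (AccF A q₀).card := by
    intro i
    by_cases hi : ∃ r d w, t ++ [b] = r ++ d :: w ∧ r.length = i
    · obtain ⟨r, d, w, h1, h2⟩ := hi
      refine le_trans (card_le_card ?_) (card_Cyc_part q₀ t b r d w h1)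
      intro x hx
      rw [mem_filter] at hx ⊢
      obtain ⟨hx1, r', d', w', h1', h2', h3'⟩ := hx
      refine ⟨hx1, ?_⟩
      rw [h1] at h1'
      obtain ⟨e1, e2⟩ := List.append_inj h1' (by rw [h2, h2'])
      simp only [List.cons.injEq] at e2
      rw [e1, e2.1]
      exact h3'
    · have : P i = ∅ := by
        apply filter_false_of_mem
        rintro x _ ⟨r, d, w, h1, h2, _⟩
        exact hi ⟨r, d, w, h1, h2⟩
      rw [this]; simp
  calc (Cyc q₀ t b).card ≤ ((range (t.length + 1)).biUnion P).card := card_le_card hsub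
    _ ≤ ∑ i ∈ range (t.length + 1), (P i).card := card_biUnion_le
    _ ≤ ∑ i ∈ range (t.length + 1), (AccF A q₀).card := sum_le_sum fun i _ => hP i
    _ = (t.length + 1) * (AccF A q₀).card := by rw [sum_const, card_range, smul_eq_mul]

/-! ### loops -/

open Classical in
/-- structures in which the path of `s ++ t ++ [b]` from `q₀` has its first return at the end -/
noncomputable def Lop (q₀ : Q) (s t : List A) (b : A) : Finset (Q → A → Q) :=
  (AccF A q₀).filter fun δ => SA δ q₀ (s ++ t) ∧ run δ q₀ (s ++ t ++ [b]) = run δ q₀ s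

open Classical in
lemma card_Lop_one (q₀ : Q) (s t : List A) (b : A) :
    ((Lop q₀ s t b).filter fun δ => NonTree q₀ δ (run δ q₀ (s ++ t)) b).card *
      Fintype.card Q ≤ (AccF A q₀).card := by
  rw [← card_univ (α := Q), ← card_product]
  apply card_le_card_of_injOn fun y => upd y.1 (run y.1 q₀ (s ++ t)) b y.2
  · rintro ⟨δ, c⟩ h
    rw [mem_coe, mem_product, mem_filter, Lop, mem_filter, mem_AccF] at h
    rw [mem_coe, mem_AccF]
    exact acc_upd h.1.1.1 h.1.2 c
  · have key : ∀ δ : Q → A → Q, ∀ c : Q, δ ∈ (Lop q₀ s t b).filter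
        (fun δ => NonTree q₀ δ (run δ q₀ (s ++ t)) b) →
        run (upd δ (run δ q₀ (s ++ t)) b c) q₀ (s ++ t) = run δ q₀ (s ++ t) ∧
        run (upd δ (run δ q₀ (s ++ t)) b c) q₀ s = δ (run δ q₀ (s ++ t)) b := by
      intro δ c h
      rw [mem_filter, Lop, mem_filter, mem_AccF] at h
      obtain ⟨⟨hacc, hsa, hr⟩, hn⟩ := h
      constructor
      · apply run_congr
        intro s' a' t' hs
        apply upd_ne
        intro h1
        exfalso
        refine hsa s' (a' :: t') [] (by rw [hs]; simp) (by simp) ?_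
        rw [h1, hs]
      · rw [← run_concat δ q₀ (s ++ t), hr]
        apply run_congr
        intro s' a' t' hs
        apply upd_ne
        intro h1
        exfalso
        refine hsa s' (a' :: t' ++ t) [] (by rw [hs]; simp) (by simp) ?_
        rw [h1, hs]
        simp
    rintro ⟨δ1, c1⟩ h1 ⟨δ2, c2⟩ h2 h12
    rw [mem_coe, mem_product] at h1 h2
    obtain ⟨k1, k1'⟩ := key δ1 c1 h1.1
    obtain ⟨k2, k2'⟩ := key δ2 c2 h2.1
    simp only at h12
    set x := s ++ t
    have hp : run δ1 q₀ x = run δ2 q₀ x := by rw [← k1, ← k2, h12]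
    have hz : δ1 (run δ1 q₀ x) b = δ2 (run δ2 q₀ x) b := by rw [← k1', ← k2', h12]
    have hc : c1 = c2 := by
      calc c1 = upd δ1 (run δ1 q₀ x) b c1 (run δ1 q₀ x) b := (upd_same _ _ _ _).symm
        _ = upd δ2 (run δ2 q₀ x) b c2 (run δ2 q₀ x) b := by rw [h12, hp]
        _ = c2 := upd_same _ _ _ _
    have hδ : δ1 = δ2 := by
      rw [← upd_upd δ1 (run δ1 q₀ x) b c1, ← upd_upd δ2 (run δ2 q₀ x) b c2, h12, hz, hp]
    rw [hδ, hc]

open Classical in
lemma card_Lop_two (q₀ : Q) (s' : List A) (a : A) (t : List A) (b : A) :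
    ((Lop q₀ (s' ++ [a]) t b).filter fun δ => NonTree q₀ δ (run δ q₀ s') a).card *
      Fintype.card Q ≤ (Cyc q₀ t b).card := by
  rw [← card_univ (α := Q), ← card_product]
  have key : ∀ δ : Q → A → Q, ∀ c : Q, δ ∈ (Lop q₀ (s' ++ [a]) t b).filter
      (fun δ => NonTree q₀ δ (run δ q₀ s') a) →
      run (upd δ (run δ q₀ s') a c) q₀ s' = run δ q₀ s' ∧
      (∀ r w, t ++ [b] = r ++ w → run (upd δ (run δ q₀ s') a c) (run δ q₀ (s' ++ [a])) r =
        run δ (run δ q₀ (s' ++ [a])) r) := by
    intro δ c h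
    rw [mem_filter, Lop, mem_filter, mem_AccF] at h
    obtain ⟨⟨hacc, hsa, hr⟩, hn⟩ := h
    constructor
    · apply run_congr
      intro s1 a' t' hs
      apply upd_ne
      intro h1
      exfalso
      refine hsa s1 (a' :: t') (a :: t) (by rw [hs]; simp) (by simp) ?_
      rw [h1, hs]
    · intro r w hrw
      apply run_congr
      intro s1 a' t' hs
      apply upd_ne
      intro h1
      exfalso
      rw [← run_append] at h1
      -- s1 is a proper prefix of t ++ [b], hence a prefix of t
      have h2 : ∃ v, t = s1 ++ v := by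
        rcases List.eq_nil_or_concat (t' ++ w) with h0 | ⟨w', e, he⟩
        · have h3 : t ++ [b] = s1 ++ [a'] := by
            rw [hrw, hs, List.append_assoc, List.cons_append, h0]
          obtain ⟨h4, h5⟩ := List.append_inj' h3 rfl
          exact ⟨[], by rw [h4]; simp⟩
        · have h3 : t ++ [b] = (s1 ++ (a' :: w')) ++ [e] := by
            rw [hrw, hs, List.append_assoc, List.cons_append, he]
            simp
          obtain ⟨h4, h5⟩ := List.append_inj' h3 rfl
          exact ⟨_, h4⟩
      obtain ⟨v, hv⟩ := h2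
      refine hsa s' ([a] ++ s1) v (by rw [hv]; simp) (by simp) ?_
      rw [← h1]
      simp
  apply card_le_card_of_injOn fun y => (upd y.1 (run y.1 q₀ s') a y.2, run y.1 q₀ (s' ++ [a]))
  · rintro ⟨δ, c⟩ h
    rw [mem_coe, mem_product] at h
    have hk := key δ c h.1
    rw [mem_filter, Lop, mem_filter, mem_AccF] at h
    obtain ⟨⟨⟨hacc, hsa, hr⟩, hn⟩, -⟩ := h
    rw [mem_coe, Cyc, mem_filter, mem_product, mem_AccF]
    refine ⟨⟨acc_upd hacc hn c, mem_univ _⟩, ?_, ?_⟩
    · intro s1 t1 w1 ht ht1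
      simp only
      rw [hk.2 s1 (t1 ++ w1 ++ [b]) (by rw [ht]; simp), hk.2 (s1 ++ t1) (w1 ++ [b]) (by rw [ht]; simp),
        ← run_append, ← run_append]
      exact fun h1 => hsa (s' ++ [a] ++ s1) t1 w1 (by rw [ht]; simp) ht1
        (by rw [h1]; simp)
    · simp only
      rw [hk.2 (t ++ [b]) [] (by simp), ← run_append, ← List.append_assoc, hr]
  · rintro ⟨δ1, c1⟩ h1 ⟨δ2, c2⟩ h2 h12
    rw [mem_coe, mem_product] at h1 h2
    obtain ⟨k1, -⟩ := key δ1 c1 h1.1
    obtain ⟨k2, -⟩ := key δ2 c2 h2.1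
    have h3 := Prod.ext_iff.1 h12
    simp only at h3
    obtain ⟨h3, h4⟩ := h3
    rw [run_concat, run_concat] at h4
    have hp : run δ1 q₀ s' = run δ2 q₀ s' := by rw [← k1, ← k2, h3]
    have hc : c1 = c2 := by
      calc c1 = upd δ1 (run δ1 q₀ s') a c1 (run δ1 q₀ s') a := (upd_same _ _ _ _).symm
        _ = upd δ2 (run δ2 q₀ s') a c2 (run δ2 q₀ s') a := by rw [h3, hp]
        _ = c2 := upd_same _ _ _ _
    have hδ : δ1 = δ2 := by
      rw [← upd_upd δ1 (run δ1 q₀ s') a c1, ← upd_upd δ2 (run δ2 q₀ s') a c2, h3, h4, hp]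
    rw [hδ, hc]

lemma card_Lop (q₀ : Q) (s t : List A) (b : A) :
    (Lop q₀ s t b).card * Fintype.card Q ≤ (t.length + 2) * (AccF A q₀).card := by
  classical
  have h1 := card_Lop_one q₀ s t b
  rcases List.eq_nil_or_concat s with rfl | ⟨s', a, rfl⟩
  · -- the closing edge enters `q₀`, hence is not a tree edge
    have h2 : Lop q₀ [] t b ⊆
        (Lop q₀ [] t b).filter fun δ => NonTree q₀ δ (run δ q₀ ([] ++ t)) b := by
      intro δ hδ
      rw [mem_filter]
      refine ⟨hδ, Or.inl ?_⟩
      rw [Lop, mem_filter] at hδ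
      rw [← run_concat δ q₀, hδ.2.2]; rfl
    calc (Lop q₀ [] t b).card * Fintype.card Q ≤ _ := Nat.mul_le_mul_right _ (card_le_card h2)
      _ ≤ (AccF A q₀).card := h1
      _ ≤ (t.length + 2) * (AccF A q₀).card := Nat.le_mul_of_pos_left _ (by omega)
  · rw [List.concat_eq_append] at *
    have h2 := card_Lop_two q₀ s' a t b
    have h3 := card_Cyc q₀ t b
    have h4 : Lop q₀ (s' ++ [a]) t b ⊆
        ((Lop q₀ (s' ++ [a]) t b).filter fun δ => NonTree q₀ δ (run δ q₀ (s' ++ [a] ++ t)) b) ∪
        ((Lop q₀ (s' ++ [a]) t b).filter fun δ => NonTree q₀ δ (run δ q₀ s') a) := by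
      intro δ hδ
      have hδ' := hδ
      rw [Lop, mem_filter] at hδ'
      obtain ⟨hacc, hsa, hr⟩ := hδ'
      rw [mem_union, mem_filter, mem_filter]
      have h5 : δ (run δ q₀ (s' ++ [a] ++ t)) b = δ (run δ q₀ s') a := by
        rw [← run_concat δ q₀ (s' ++ [a] ++ t), ← run_concat δ q₀ s', hr]
      have h6 : (run δ q₀ (s' ++ [a] ++ t), b) ≠ (run δ q₀ s', a) := by
        intro h
        have h7 := (Prod.ext_iff.1 h).1
        simp only at h7
        refine hsa s' ([a] ++ t) [] (by simp) (by simp) ?_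
        rw [← h7]; simp
      rcases nonTree_or (q₀ := q₀) h5 h6 with h | h
      · exact Or.inl ⟨hδ, h⟩
      · exact Or.inr ⟨hδ, h⟩
    calc (Lop q₀ (s' ++ [a]) t b).card * Fintype.card Q
        ≤ ((((Lop q₀ (s' ++ [a]) t b).filter fun δ =>
            NonTree q₀ δ (run δ q₀ (s' ++ [a] ++ t)) b) ∪
          ((Lop q₀ (s' ++ [a]) t b).filter fun δ => NonTree q₀ δ (run δ q₀ s') a)).card) *
            Fintype.card Q := Nat.mul_le_mul_right _ (card_le_card h4)
      _ ≤ (((Lop q₀ (s' ++ [a]) t b).filter fun δ =>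
            NonTree q₀ δ (run δ q₀ (s' ++ [a] ++ t)) b).card +
          ((Lop q₀ (s' ++ [a]) t b).filter fun δ => NonTree q₀ δ (run δ q₀ s') a).card) *
            Fintype.card Q := Nat.mul_le_mul_right _ (card_union_le _ _)
      _ ≤ (AccF A q₀).card + (t.length + 1) * (AccF A q₀).card := by
          rw [add_mul]; exact add_le_add h1 (le_trans h2 h3)
      _ = (t.length + 2) * (AccF A q₀).card := by ring

open Classical in
/-- few accessible structures have a self-intersecting path for a given word -/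
theorem card_not_SA (q₀ : Q) (u : List A) :
    ((AccF A q₀).filter fun δ => ¬ SA δ q₀ u).card * Fintype.card Q ≤
      (u.length + 2) ^ 3 * (AccF A q₀).card := by
  set N := (AccF A q₀).card with hN
  let P : ℕ × ℕ → Finset (Q → A → Q) := fun ij =>
    (AccF A q₀).filter fun δ => ∃ s t b w, u = s ++ t ++ b :: w ∧ s.length = ij.1 ∧
      t.length = ij.2 ∧ δ ∈ Lop q₀ s t b
  have hsub : ((AccF A q₀).filter fun δ => ¬ SA δ q₀ u) ⊆
      (range (u.length + 1) ×ˢ range (u.length + 1)).biUnion P := by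
    intro δ hδ
    rw [mem_filter] at hδ
    obtain ⟨s, t, b, w, h1, h2, h3⟩ := exists_loop hδ.2
    have hlen := congrArg List.length h1
    simp only [List.length_append, List.length_cons] at hlen
    rw [mem_biUnion]
    refine ⟨(s.length, t.length), ?_, ?_⟩
    · rw [mem_product, mem_range, mem_range]
      constructor <;> simp only <;> omega
    · rw [mem_filter]
      refine ⟨hδ.1, s, t, b, w, h1, rfl, rfl, ?_⟩
      rw [Lop, mem_filter]
      exact ⟨hδ.1, h2, h3⟩
  have hP : ∀ ij, (P ij).card * Fintype.card Q ≤ (u.length + 2) * N := by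
    rintro ⟨i, j⟩
    by_cases hi : ∃ s t b w, u = s ++ t ++ b :: w ∧ s.length = i ∧ t.length = j
    · obtain ⟨s, t, b, w, h1, h2, h3⟩ := hi
      have h4 : P (i, j) ⊆ Lop q₀ s t b := by
        intro δ hδ
        rw [mem_filter] at hδ
        obtain ⟨_, s', t', b', w', h1', h2', h3', h5⟩ := hδ
        simp only at h2' h3'
        rw [h1, List.append_assoc, List.append_assoc] at h1'
        obtain ⟨e1, e2⟩ := List.append_inj h1' (by rw [h2, h2'])
        obtain ⟨e3, e4⟩ := List.append_inj e2 (by rw [h3, h3'])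
        simp only [List.cons.injEq] at e4
        rw [e1, e3, e4.1]
        exact h5
      have hlen := congrArg List.length h1
      simp only [List.length_append, List.length_cons] at hlen
      calc (P (i, j)).card * Fintype.card Q ≤ (Lop q₀ s t b).card * Fintype.card Q :=
            Nat.mul_le_mul_right _ (card_le_card h4)
        _ ≤ (t.length + 2) * N := card_Lop q₀ s t b
        _ ≤ (u.length + 2) * N := Nat.mul_le_mul_right _ (by omega)
    · have : P (i, j) = ∅ := by
        apply filter_false_of_mem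
        rintro x _ ⟨s, t, b, w, h1, h2, h3, _⟩
        exact hi ⟨s, t, b, w, h1, h2, h3⟩
      rw [this]; simp
  calc ((AccF A q₀).filter fun δ => ¬ SA δ q₀ u).card * Fintype.card Q
      ≤ ((range (u.length + 1) ×ˢ range (u.length + 1)).biUnion P).card * Fintype.card Q :=
        Nat.mul_le_mul_right _ (card_le_card hsub)
    _ ≤ (∑ ij ∈ range (u.length + 1) ×ˢ range (u.length + 1), (P ij).card) * Fintype.card Q :=
        Nat.mul_le_mul_right _ card_biUnion_le
    _ = ∑ ij ∈ range (u.length + 1) ×ˢ range (u.length + 1), (P ij).card * Fintype.card Q := by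
        rw [sum_mul]
    _ ≤ ∑ ij ∈ range (u.length + 1) ×ˢ range (u.length + 1), (u.length + 2) * N :=
        sum_le_sum fun ij _ => hP ij
    _ = (u.length + 1) * (u.length + 1) * ((u.length + 2) * N) := by
        rw [sum_const, card_product, card_range, smul_eq_mul]
    _ ≤ (u.length + 2) * (u.length + 2) * ((u.length + 2) * N) :=
        Nat.mul_le_mul_right _ (Nat.mul_le_mul (by omega) (by omega))
    _ = (u.length + 2) ^ 3 * N := by ring

end Pool.Agent.SC
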