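import Mathlib
import Pool.Agent.W_MP_6663ab_lc.Words

/-!
# Definitions for the sharp asymptotics

* `Sur A q₀`: transition structures in which every state other than the root has an in-edge;
* `lev δ D p`: multiset of backward label words of the walks of length `D` ending in `p`;
* `nu`, `off`, `mu`: the limiting labelled Galton-Watson tree (law of the multiset of label
  words of its vertices at level `D`);
* `ex`: expectation of an `ℝ≥0∞`-valued function under a `PMF`.
-/

namespace Pool.Agent.SC

open Finset
open scoped ENNReal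

universe u v

section model

variable {A : Type u} {Q : Type v}

/-- every state other than the root has an in-edge -/
def IsSur (q₀ : Q) (δ : Q → A → Q) : Prop := ∀ p, p ≠ q₀ → ∃ s a, δ s a = p

open Classical in
/-- the surjection model -/
noncomputable def Sur (A : Type u) {Q : Type v} [Fintype A] [Fintype Q] (q₀ : Q) :
    Finset (Q → A → Q) :=
  univ.filter fun δ => IsSur q₀ δ

open Classical in
/-- `lev δ D p` is the multiset of the label words of all walks of length `D` ending in `p`;
the words are read backwards from `p` -/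
noncomputable def lev [Fintype A] [Fintype Q] (δ : Q → A → Q) : ℕ → Q → Multiset (List A)
  | 0, _ => {[]}
  | D + 1, p => ∑ e : Q × A, if δ e.1 e.2 = p then (lev δ D e.1).map (e.2 :: ·) else 0

end model

/-- expectation over the surjection model with state set `Fin (n+1)` and root `0` -/
noncomputable def ES (A : Type u) [Fintype A] (n : ℕ) (f : (Fin (n + 1) → A → Fin (n + 1)) → ℝ) :
    ℝ :=
  (∑ δ ∈ Sur A (0 : Fin (n + 1)), f δ) / ((Sur A (0 : Fin (n + 1))).card : ℝ)

/-- length of the words used for the random walk -/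
def MM (n : ℕ) : ℕ := 3 * (Nat.log 2 (n + 1) + 1)

/-! ### the limiting tree -/

/-- expectation of an `ℝ≥0∞`-valued function -/
noncomputable def ex {α : Type*} (p : PMF α) (f : α → ℝ≥0∞) : ℝ≥0∞ := ∑' a, p a * f a

/-- list of `j` independent samples -/
noncomputable def iid {α : Type*} (p : PMF α) : ℕ → PMF (List α)
  | 0 => PMF.pure []
  | j + 1 => p.bind fun x => (iid p j).map (x :: ·)

lemma nu_exists (k : ℕ) (hk : 2 ≤ k) : ∃ x : ℝ, 0 < x ∧ x < 1 ∧ 1 - x = Real.exp (-(k * x)) := by
  have hk' : (2 : ℝ) ≤ k := by exact_mod_cast hk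
  -- `f x = 1 - x - exp (-k x)` is positive at `1/4` and negative at `1`
  let f : ℝ → ℝ := fun x => 1 - x - Real.exp (-(k * x))
  have hf : ContinuousOn f (Set.Icc (1 / 4) 1) := by fun_prop
  have h1 : 0 ≤ f (1 / 4) := by
    have h2 : Real.exp (-(k * (1 / 4))) ≤ Real.exp (-(1 / 2)) := by
      apply Real.exp_le_exp.2
      nlinarith
    have h3 : Real.exp (-(1 / 2)) ≤ 3 / 4 := by
      have h4 : (4 / 3 : ℝ) ≤ Real.exp (1 / 2) := by
        have := Real.add_one_le_exp (1 / 2 : ℝ)
        linarith
      rw [Real.exp_neg]
      calc (Real.exp (1 / 2))⁻¹ ≤ (4 / 3 : ℝ)⁻¹ := by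
            apply inv_anti₀ (by norm_num) h4
        _ = 3 / 4 := by norm_num
    simp only [f]
    linarith
  have h5 : f 1 ≤ 0 := by
    simp only [f]
    have := Real.exp_pos (-((k : ℝ) * 1))
    linarith
  obtain ⟨x, hx, hx0⟩ := intermediate_value_Icc' (by norm_num : (1 / 4 : ℝ) ≤ 1) hf ⟨h5, h1⟩
  refine ⟨x, by linarith [hx.1], ?_, ?_⟩
  · rcases hx.2.lt_or_eq with h | h
    · exact h
    · exfalso
      rw [h] at hx0
      simp only [f] at hx0
      have := Real.exp_pos (-((k : ℝ) * 1))
      linarith
  · simp only [f] at hx0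
    linarith

open Classical in
/-- the positive root of `1 - x = exp (-k x)` (for `k ≥ 2`) -/
noncomputable def nu (k : ℕ) : ℝ := if h : 2 ≤ k then (nu_exists k h).choose else 0

lemma nu_spec {k : ℕ} (hk : 2 ≤ k) :
    0 < nu k ∧ nu k < 1 ∧ 1 - nu k = Real.exp (-(k * nu k)) := by
  rw [nu, dif_pos hk]
  exact (nu_exists k hk).choose_spec

/-- weights of the offspring distribution: a Poisson variable with parameter `k ν` conditioned
to be positive -/
noncomputable def offW (k : ℕ) (j : ℕ) : ℝ :=
  if j = 0 then 0 else (1 - nu k) / nu k * ((k * nu k) ^ j / j.factorial)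

lemma offW_nonneg {k : ℕ} (hk : 2 ≤ k) (j : ℕ) : 0 ≤ offW k j := by
  obtain ⟨h1, h2, h3⟩ := nu_spec hk
  unfold offW
  split_ifs
  · exact le_rfl
  · have : 0 ≤ 1 - nu k := by linarith
    positivity

lemma offW_hasSum {k : ℕ} (hk : 2 ≤ k) : HasSum (offW k) 1 := by
  obtain ⟨h1, h2, h3⟩ := nu_spec hk
  have h4 : HasSum (fun j : ℕ => (k * nu k) ^ j / (j.factorial : ℝ)) (Real.exp (k * nu k)) := by
    rw [Real.exp_eq_exp_ℝ]
    exact NormedSpace.expSeries_div_hasSum_exp (k * nu k)
  have h5 : HasSum (fun j : ℕ => (1 - nu k) / nu k * ((k * nu k) ^ j / (j.factorial : ℝ)))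
      ((1 - nu k) / nu k * Real.exp (k * nu k)) := h4.mul_left _
  have h6 := h5.update 0 0
  have h7 : Function.update (fun j : ℕ => (1 - nu k) / nu k * ((k * nu k) ^ j / (j.factorial : ℝ)))
      0 0 = offW k := by
    funext j
    by_cases hj : j = 0
    · subst hj; simp [offW]
    · rw [Function.update_of_ne hj]
      simp [offW, hj]
  rw [h7] at h6
  have h8 : Real.exp (k * nu k) = (1 - nu k)⁻¹ := by
    rw [h3, Real.exp_neg, inv_inv]
  have h9 : 1 - nu k ≠ 0 := by linarith
  rw [h8] at h6
  have h10 : (0 : ℝ) - (1 - nu k) / nu k * ((k * nu k) ^ 0 / ((Nat.factorial 0 : ℕ) : ℝ)) +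
      (1 - nu k) / nu k * (1 - nu k)⁻¹ = 1 := by
    simp only [pow_zero, Nat.factorial_zero, Nat.cast_one]
    field_simp
    ring
  rw [h10] at h6
  exact h6

/-- offspring distribution -/
noncomputable def off (k : ℕ) : PMF ℕ :=
  if h : 2 ≤ k then
    ⟨fun j => ENNReal.ofReal (offW k j), by
      have h1 := offW_hasSum h
      rw [show (1 : ℝ≥0∞) = ENNReal.ofReal 1 by simp]
      have h2 := ENNReal.hasSum_coe.2
        (NNReal.hasSum_coe.1 (show HasSum (fun j => ((⟨offW k j, offW_nonneg h j⟩ : NNReal) : ℝ))
          ((1 : NNReal) : ℝ) by simpa using h1))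
      convert h2 using 1
      · funext j
        exact ENNReal.ofReal_eq_coe_nnreal (offW_nonneg h j)
      · simp⟩
  else PMF.pure 1

lemma off_apply {k : ℕ} (hk : 2 ≤ k) (j : ℕ) : off k j = ENNReal.ofReal (offW k j) := by
  rw [off, dif_pos hk]
  rfl

section tree

variable (A : Type u) [Fintype A] [Nonempty A]

/-- a uniform letter together with an independent sample of `μ` -/
noncomputable def mark {A : Type u} [Fintype A] [Nonempty A] (μ : PMF (Multiset (List A))) :
    PMF (A × Multiset (List A)) :=
  (PMF.uniformOfFintype A).bind fun a => μ.map fun m => (a, m)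

/-- put the trees hanging at the children together -/
def comb {A : Type u} (l : List (A × Multiset (List A))) : Multiset (List A) :=
  (l.map fun x => x.2.map (x.1 :: ·)).sum

/-- law of the multiset of the label words of the vertices at level `D` of the limiting tree:
the number of children of every vertex is `off k`, the labels of the edges are uniform and
independent, `k` the number of letters -/
noncomputable def mu : ℕ → PMF (Multiset (List A))
  | 0 => PMF.pure {[]}
  | D + 1 => ((off (Fintype.card A)).bind fun j => iid (mark (mu D)) j).map comb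

open Classical in
/-- number of pairs of vertices with equal label words -/
noncomputable def ZZ {A : Type u} (m m' : Multiset (List A)) : ℕ :=
  (m.map fun w => m'.count w).sum

open Classical in
/-- probability that two independent trees have a common label word of length `D` -/
noncomputable def cD (D : ℕ) : ℝ≥0∞ :=
  ex (mu A D) fun m => ex (mu A D) fun m' => if 1 ≤ ZZ m m' then 1 else 0

/-- the limiting constant -/
noncomputable def cInf : ℝ≥0∞ := ⨅ D, cD A D

open Classical in
/-- truncated density at level `D` -/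
noncomputable def fK (D K : ℕ) (m m' : Multiset (List A)) : ℝ :=
  (∑ w ∈ m.toFinset, ((min (m.count w) K : ℕ) : ℝ) * ((min (m'.count w) K : ℕ) : ℝ)) /
    (Fintype.card A : ℝ) ^ D

end tree

section freq

variable {A : Type u} [Fintype A] {n : ℕ}

open Classical in
/-- fraction of the states with a given level `D` multiset -/
noncomputable def fr (δ : Fin (n + 1) → A → Fin (n + 1)) (D : ℕ) (τ : Multiset (List A)) : ℝ :=
  ((univ.filter fun p => lev δ D p = τ).card : ℝ) / (n + 1)

open Classical in
/-- number of pairs (state `p`, enumeration of all in-edges of `p`) with prescribed letters and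
prescribed level `D` multisets of the sources -/
noncomputable def Yn (δ : Fin (n + 1) → A → Fin (n + 1)) (D : ℕ) {j : ℕ}
    (ℓ : Fin j → A × Multiset (List A)) : ℕ :=
  (univ.filter fun x : Fin (n + 1) × (Fin j → Fin (n + 1) × A) =>
    Function.Injective x.2 ∧ (∀ y, δ y.1 y.2 = x.1 ↔ ∃ i, x.2 i = y) ∧
      ∀ i, ((x.2 i).2, lev δ D (x.2 i).1) = ℓ i).card

open Classical in
/-- number of pairs of different edges with letters `a`, `b` into the same state -/
noncomputable def xx (δ : Fin (n + 1) → A → Fin (n + 1)) (a b : A) : ℕ :=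
  (univ.filter fun x : Fin (n + 1) × Fin (n + 1) => (x.1, a) ≠ (x.2, b) ∧ δ x.1 a = δ x.2 b).card

open Classical in
/-- density of the end point of the random walk with `MM n` steps in the product automaton
(only label words which are self-avoiding in both automata) -/
noncomputable def gS (δ δ' : Fin (n + 1) → A → Fin (n + 1)) (p q : Fin (n + 1)) : ℝ :=
  ((n : ℝ) + 1) ^ 2 / (Fintype.card A : ℝ) ^ MM n *
    ((univ.filter fun v : Fin (MM n) → A => SA δ 0 (List.ofFn v) ∧ SA δ' 0 (List.ofFn v) ∧
      run δ 0 (List.ofFn v) = p ∧ run δ' 0 (List.ofFn v) = q).card : ℝ)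

end freq

end Pool.Agent.SC
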