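import Pool.Agent.W_MP_6663ab_lc.AccSur3
import Pool.Agent.W_MP_6663ab_lc.SDefs

/-!
# A positive proportion of the covering structures is accessible
-/

namespace Pool.Agent.SC

open Finset

universe u

section aux

variable {A : Type u} [Fintype A] {m : ℕ}

open AS

omit [Fintype A] in
lemma mem_Sur_iff {A : Type u} [Fintype A] {δ : Fin (m + 1) → A → Fin (m + 1)} :
    δ ∈ Sur A (0 : Fin (m + 1)) ↔ IsSur 0 δ := by
  simp [Sur]

lemma card_SurU_eq (A : Type u) [Fintype A] (m : ℕ) :
    (SurU A m).card = (Sur A (0 : Fin (m + 1))).card := by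
  classical
  apply card_bij fun f _ => fun s a => f (s, a)
  · intro f hf
    rw [mem_SurU] at hf
    rw [mem_Sur_iff]
    intro p hp
    obtain ⟨x, hx⟩ := hf p hp
    exact ⟨x.1, x.2, hx⟩
  · intro f _ g _ h
    funext x
    have := congrFun (congrFun h x.1) x.2
    exact this
  · intro δ hδ
    rw [mem_Sur_iff] at hδ
    refine ⟨fun x => δ x.1 x.2, ?_, rfl⟩
    rw [mem_SurU]
    intro p hp
    obtain ⟨s, a, h⟩ := hδ p hp
    exact ⟨(s, a), h⟩

open Classical in
/-- typical words which satisfy the ballot condition up to time `T` -/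
noncomputable def GT (A : Type u) [Fintype A] (m T : ℕ) :
    Finset (Fin (m + 1) × A → Fin (m + 1)) :=
  (SurU A m).filter fun f => ∀ i ≤ T, i + 1 ≤ Nf f i

lemma Nf_le (f : Fin (m + 1) × A → Fin (m + 1)) (i : ℕ) : Nf f i ≤ m + 1 := by
  classical
  have := card_le_univ ((univ : Finset (Fin (m + 1))).filter fun v => Bd f i v)
  rwa [Fintype.card_fin] at this

lemma card_GT_le {T s₀ : ℕ} (hT : T + s₀ = m + 1)
    (hbig : 2 * (Fintype.card A * s₀) ≤ (2 * Fintype.card A - 3) * (m + 1))
    (hk : 2 ≤ Fintype.card A) :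
    (GT A m T).card ≤ (s₀ * (2 * Fintype.card A ^ 2 * s₀) ^ s₀) * (AccF A (0 : Fin (m + 1))).card := by
  classical
  have hA : Nonempty A := Fintype.card_pos_iff.1 (by omega)
  set k := Fintype.card A with hk'
  set K := 2 * k ^ 2 * s₀ with hK
  rcases Nat.eq_zero_or_pos s₀ with hs | hs
  · -- `T = m + 1` is impossible
    have : GT A m T = ∅ := by
      rw [eq_empty_iff_forall_notMem]
      intro f hf
      rw [GT, mem_filter] at hf
      have h1 := hf.2 T le_rfl
      have h2 := Nf_le f T
      omega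
    rw [this]; simp
  have hKpos : 0 < K := by rw [hK]; positivity
  have hpow : ∀ v, (GG A m T v).card ≤ K ^ v * (GG A m T 0).card := by
    intro v
    induction v with
    | zero => simp
    | succ v ih =>
      calc (GG A m T (v + 1)).card ≤ K * (GG A m T v).card := card_GG_succ hT hbig hk
        _ ≤ K * (K ^ v * (GG A m T 0).card) := Nat.mul_le_mul_left _ ih
        _ = _ := by ring
  have hG0 : (GG A m T 0).card ≤ (AccF A (0 : Fin (m + 1))).card := by
    refine le_trans (card_le_card ?_) (card_Dy_le (A := A) (m := m))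
    intro f hf
    rw [GG, mem_filter] at hf
    rw [mem_filter]
    refine ⟨mem_univ _, ?_⟩
    intro i hi
    by_cases hiT : i ≤ T
    · exact hf.2.1 i hiT
    · have h1 : Nf f T ≤ Nf f i := Nf_mono fun v hv => hv.mono (by omega)
      omega
  have hsub : GT A m T ⊆ (range s₀).biUnion fun v => GG A m T v := by
    intro f hf
    rw [GT, mem_filter] at hf
    rw [mem_biUnion]
    have h1 := hf.2 T le_rfl
    have h2 := Nf_le f T
    refine ⟨m + 1 - Nf f T, ?_, ?_⟩
    · rw [mem_range]
      omega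
    · rw [GG, mem_filter]
      exact ⟨hf.1, hf.2, by omega⟩
  calc (GT A m T).card ≤ ∑ v ∈ range s₀, (GG A m T v).card :=
        (card_le_card hsub).trans card_biUnion_le
    _ ≤ ∑ v ∈ range s₀, K ^ s₀ * (AccF A (0 : Fin (m + 1))).card := by
        apply sum_le_sum
        intro v hv
        rw [mem_range] at hv
        exact (hpow v).trans (Nat.mul_le_mul (Nat.pow_le_pow_right hKpos hv.le) hG0)
    _ = _ := by rw [sum_const, card_range, smul_eq_mul]; ring

lemma sum_half (n : ℕ) : ∑ t ∈ range n, (t : ℝ) / 2 ^ t ≤ 2 := by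
  have key : ∀ n : ℕ, ∑ t ∈ range n, (t : ℝ) / 2 ^ t = 2 - ((n : ℝ) + 1) * 2 / 2 ^ n := by
    intro n
    induction n with
    | zero => simp
    | succ n ih =>
      rw [sum_range_succ, ih, pow_succ]
      push_cast
      field_simp
      ring
  rw [key]
  have : (0 : ℝ) ≤ ((n : ℝ) + 1) * 2 / 2 ^ n := by positivity
  linarith

end aux

open AS

/-- a positive proportion of the structures in which every non-root state has an in-edge is
accessible -/
theorem acc_ge (A : Type u) [Fintype A] (hk : 2 ≤ Fintype.card A) :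
    ∃ c : ℝ, 0 < c ∧ ∃ n0 : ℕ, ∀ n ≥ n0, c * ((Sur A (0 : Fin (n + 1))).card : ℝ) ≤
      ((AccF A (0 : Fin (n + 1))).card : ℝ) := by
  classical
  set k := Fintype.card A with hk'
  have hkR : (0 : ℝ) < k := by
    have : 0 < k := by omega
    exact_mod_cast this
  set θ : ℝ := 1 / (64 * (k : ℝ) ^ 2) with hθ
  have hθ0 : 0 < θ := by rw [hθ]; positivity
  have hθ1 : θ < 1 := by
    rw [hθ, div_lt_one (by positivity)]
    have : (2 : ℝ) ≤ k := by exact_mod_cast hk
    nlinarith
  set ρ : ℝ := Real.exp (θ * (1 - θ)) / (1 + θ) with hρ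
  have hρ0 : 0 < ρ := by rw [hρ]; positivity
  have hρ1 : ρ < 1 := rho_lt_one hθ0 hθ1
  -- choice of `s₀`
  obtain ⟨s₀, hs₀⟩ : ∃ s₀ : ℕ, ρ ^ s₀ / (1 - ρ) ≤ 1 / 4 := by
    obtain ⟨N, hN⟩ := exists_pow_lt_of_lt_one (show (0 : ℝ) < (1 - ρ) / 4 by linarith) hρ1
    refine ⟨N, ?_⟩
    rw [div_le_iff₀ (by linarith)]
    linarith
  set C : ℕ := (s₀ + 1) * (2 * k ^ 2 * (s₀ + 1)) ^ (s₀ + 1) with hC
  have hCpos : 0 < C := by rw [hC]; positivity
  refine ⟨5 / (16 * C), by positivity, max (max (8 * k ^ 2) (8 * (s₀ + 1))) (4 * k * (s₀ + 1)), ?_⟩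
  intro m hm
  have hm1 : 8 * k ^ 2 ≤ m + 1 := by
    have := le_trans (le_trans (le_max_left _ _) (le_max_left _ _)) hm
    omega
  have hm2 : 8 * (s₀ + 1) ≤ m + 1 := by
    have := le_trans (le_trans (le_max_right _ _) (le_max_left _ _)) hm
    omega
  have hm3 : 2 * (k * (s₀ + 1)) ≤ (2 * k - 3) * (m + 1) := by
    have h1 : 4 * k * (s₀ + 1) ≤ m := le_trans (le_max_right _ _) hm
    obtain ⟨j, hj⟩ : ∃ j, k = j + 2 := ⟨k - 2, by omega⟩
    have h2 : 2 * k - 3 = 2 * j + 1 := by omega
    rw [h2]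
    nlinarith
  set S : ℝ := ((SurU A m).card : ℝ) with hS
  set Y : ℝ := ((STy A m).card : ℝ) with hY
  have hYS : Y ≤ S := by
    rw [hY, hS]
    exact_mod_cast card_le_card (filter_subset _ _)
  have hatyp : 3 * S ≤ 4 * Y := by
    rw [hY, hS]
    exact_mod_cast card_atyp (A := A) (m := m) hk
  obtain ⟨T, hT⟩ : ∃ T, T + (s₀ + 1) = m + 1 := ⟨m - s₀, by omega⟩
  -- the cover
  let P0 : ℕ → Finset (Fin (m + 1) × A) := fun s => univ.filter fun x => m + 1 - s ≤ x.1.val
  have hP0 : ∀ s, s ≤ m + 1 → (P0 s).card = s * k := by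
    intro s hs
    have h1 : P0 s = ((univ : Finset (Fin (m + 1))).filter fun j => m + 1 - s ≤ j.val) ×ˢ
        (univ : Finset A) := by
      ext x
      simp [P0, mem_product]
    have h2 : ((univ : Finset (Fin (m + 1))).filter fun j => m + 1 - s ≤ j.val).card = s := by
      have h3 := card_filter_add_card_filter_not (s := (univ : Finset (Fin (m + 1))))
        (fun j => j.val < m + 1 - s)
      have h4 : ((univ : Finset (Fin (m + 1))).filter fun j => j.val < m + 1 - s).card =
          m + 1 - s := by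
        rw [Fin.card_filter_val_lt]
        omega
      have h5 : ((univ : Finset (Fin (m + 1))).filter fun j => ¬ j.val < m + 1 - s) =
          (univ.filter fun j => m + 1 - s ≤ j.val) := by
        apply filter_congr
        intro j _
        rw [not_lt]
      rw [h5, h4, card_univ, Fintype.card_fin] at h3
      omega
    rw [h1, card_product, h2, card_univ]
  have hcover : STy A m ⊆ ((range (m + 1)).filter fun t => 1 ≤ t ∧ 8 * t ≤ m + 1).biUnion
        (fun t => B2 A m t) ∪
      (((range (m + 2)).filter fun s => s₀ ≤ s ∧ m + 1 ≤ 8 * (m + 1 - s)).biUnion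
        fun s => (STy A m).filter fun f => s ≤ (ZP f (P0 s)).card) ∪ GT A m T := by
    intro f hf
    have hf' := hf
    rw [STy, mem_filter] at hf'
    rw [mem_union, mem_union]
    by_cases hG : ∀ i ≤ T, i + 1 ≤ Nf f i
    · right
      rw [GT, mem_filter]
      exact ⟨hf'.1, hG⟩
    · left
      push Not at hG
      obtain ⟨i, hiT, hi⟩ := hG
      have hi1 : 1 ≤ i := by
        rcases Nat.eq_zero_or_pos i with h0 | h0
        · exfalso
          subst h0
          have : 0 < Nf f 0 := card_pos.2 ⟨0, mem_filter.2 ⟨mem_univ _, Or.inl rfl⟩⟩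
          omega
        · exact h0
      by_cases h8 : 8 * i ≤ m + 1
      · left
        rw [mem_biUnion]
        refine ⟨i, ?_, ?_⟩
        · rw [mem_filter, mem_range]
          exact ⟨by omega, hi1, h8⟩
        · rw [B2, mem_filter]
          exact ⟨hf'.1, by omega⟩
      · right
        rw [mem_biUnion]
        refine ⟨m + 1 - i, ?_, ?_⟩
        · rw [mem_filter, mem_range]
          exact ⟨by omega, by omega, by omega⟩
        · rw [mem_filter]
          refine ⟨hf, ?_⟩
          have h1 : ZP f (P0 (m + 1 - i)) = univ \ (univ.filter fun v => Bd f i v) := by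
            ext v
            rw [mem_ZP, mem_sdiff, mem_filter]
            have e1 : m + 1 - (m + 1 - i) = i := by omega
            simp only [P0, mem_filter, mem_univ, true_and, e1, Bd]
            push Not
            constructor
            · rintro ⟨h1, h2⟩
              refine ⟨h1, ?_⟩
              intro x hx hfx
              have := h2 x hfx
              omega
            · rintro ⟨h1, h2⟩
              refine ⟨h1, ?_⟩
              intro x hfx
              by_contra hlt
              exact h2 x (by omega) hfx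
          rw [h1, card_sdiff_of_subset (subset_univ _), card_univ, Fintype.card_fin]
          have h2 : (univ.filter fun v => Bd f i v).card = Nf f i := rfl
          rw [h2]
          omega
  have hcard : Y ≤ (∑ t ∈ (range (m + 1)).filter (fun t => 1 ≤ t ∧ 8 * t ≤ m + 1),
      ((B2 A m t).card : ℝ)) +
      (∑ s ∈ (range (m + 2)).filter (fun s => s₀ ≤ s ∧ m + 1 ≤ 8 * (m + 1 - s)),
        (((STy A m).filter fun f => s ≤ (ZP f (P0 s)).card).card : ℝ)) +
      ((GT A m T).card : ℝ) := by
    rw [hY]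
    have h1 := (card_le_card hcover).trans (card_union_le _ _)
    have h2 := h1.trans (Nat.add_le_add_right (card_union_le _ _) _)
    have h3 := h2.trans (Nat.add_le_add_right (Nat.add_le_add card_biUnion_le card_biUnion_le) _)
    exact_mod_cast h3
  -- bounds
  have hn0 : (0 : ℝ) < (m : ℝ) + 1 := by positivity
  have hB2 : ∑ t ∈ (range (m + 1)).filter (fun t => 1 ≤ t ∧ 8 * t ≤ m + 1),
      ((B2 A m t).card : ℝ) ≤ S / 4 := by
    have h1 : ∀ t ∈ (range (m + 1)).filter (fun t => 1 ≤ t ∧ 8 * t ≤ m + 1),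
        ((B2 A m t).card : ℝ) ≤ (t : ℝ) / 2 ^ t * (S / ((m : ℝ) + 1)) := by
      intro t ht
      rw [mem_filter] at ht
      have h2 := card_B2 (A := A) ht.2.1 ht.2.2 hk
      have h3 : ((B2 A m t).card : ℝ) * (((m : ℝ) + 1) * 2 ^ t) ≤ t * S := by
        rw [hS]; exact_mod_cast h2
      rw [div_mul_div_comm, le_div_iff₀ (by positivity)]
      calc ((B2 A m t).card : ℝ) * (2 ^ t * ((m : ℝ) + 1))
          = ((B2 A m t).card : ℝ) * (((m : ℝ) + 1) * 2 ^ t) := by ring
        _ ≤ _ := h3
    refine (sum_le_sum h1).trans ?_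
    rw [← sum_mul]
    have h2 : ∑ t ∈ (range (m + 1)).filter (fun t => 1 ≤ t ∧ 8 * t ≤ m + 1), (t : ℝ) / 2 ^ t ≤ 2 :=
      (sum_le_sum_of_subset_of_nonneg (filter_subset _ _) fun _ _ _ => by positivity).trans
        (sum_half (m + 1))
    have h3 : (8 : ℝ) ≤ (m : ℝ) + 1 := by
      have : 8 ≤ m + 1 := by omega
      exact_mod_cast this
    have hS0 : 0 ≤ S := by rw [hS]; positivity
    calc (∑ t ∈ (range (m + 1)).filter (fun t => 1 ≤ t ∧ 8 * t ≤ m + 1), (t : ℝ) / 2 ^ t) *
          (S / ((m : ℝ) + 1)) ≤ 2 * (S / ((m : ℝ) + 1)) :=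
          mul_le_mul_of_nonneg_right h2 (by positivity)
      _ ≤ 2 * (S / 8) := by
          apply mul_le_mul_of_nonneg_left _ (by norm_num)
          exact div_le_div_of_nonneg_left hS0 (by norm_num) h3
      _ = S / 4 := by ring
  have hB1 : ∑ s ∈ (range (m + 2)).filter (fun s => s₀ ≤ s ∧ m + 1 ≤ 8 * (m + 1 - s)),
      (((STy A m).filter fun f => s ≤ (ZP f (P0 s)).card).card : ℝ) ≤ Y / 4 := by
    have h1 : ∀ s ∈ (range (m + 2)).filter (fun s => s₀ ≤ s ∧ m + 1 ≤ 8 * (m + 1 - s)),
        (((STy A m).filter fun f => s ≤ (ZP f (P0 s)).card).card : ℝ) ≤ ρ ^ s * Y := by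
      intro s hs
      rw [mem_filter, mem_range] at hs
      have hs1 : s ≤ m + 1 := by omega
      exact card_B1 (A := A) hk hm1 hs1 hs.2.2 (hP0 s hs1) hθ
    refine (sum_le_sum h1).trans ?_
    rw [← sum_mul]
    have h2 : ∑ s ∈ (range (m + 2)).filter (fun s => s₀ ≤ s ∧ m + 1 ≤ 8 * (m + 1 - s)), ρ ^ s ≤
        ρ ^ s₀ / (1 - ρ) := by
      calc _ ≤ ∑ s ∈ Ico s₀ (m + 2), ρ ^ s := by
            apply sum_le_sum_of_subset_of_nonneg
            · intro s hs
              rw [mem_filter, mem_range] at hs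
              rw [mem_Ico]
              exact ⟨hs.2.1, hs.1⟩
            · intro s _ _; positivity
        _ = (ρ ^ s₀ - ρ ^ (m + 2)) / (1 - ρ) := by
            rw [geom_sum_Ico' hρ1.ne (by omega)]
        _ ≤ _ := by
            apply div_le_div_of_nonneg_right _ (by linarith)
            have : 0 < ρ ^ (m + 2) := by positivity
            linarith
    have hY0 : 0 ≤ Y := by rw [hY]; positivity
    calc _ ≤ (ρ ^ s₀ / (1 - ρ)) * Y := mul_le_mul_of_nonneg_right h2 hY0
      _ ≤ (1 / 4) * Y := mul_le_mul_of_nonneg_right hs₀ hY0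
      _ = Y / 4 := by ring
  have hG : ((GT A m T).card : ℝ) ≤ (C : ℝ) * ((AccF A (0 : Fin (m + 1))).card : ℝ) := by
    have := card_GT_le (A := A) hT hm3 hk
    rw [← hk', ← hC] at this
    exact_mod_cast this
  have hSe : ((Sur A (0 : Fin (m + 1))).card : ℝ) = S := by
    rw [hS]; exact_mod_cast (card_SurU_eq A m).symm
  rw [hSe]
  have hfin : 5 * S ≤ 16 * ((C : ℝ) * ((AccF A (0 : Fin (m + 1))).card : ℝ)) := by
    linarith
  have hCR : (0 : ℝ) < C := by exact_mod_cast hCpos
  rw [div_mul_eq_mul_div, div_le_iff₀ (by positivity)]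
  linarith

end Pool.Agent.SC
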