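import Pool.Agent.W_MP_6663ab_lc.Count

/-!
# Words with a ballot condition and accessible structures

A word `f : Fin (m+1) × A → Fin (m+1)` consists of `m+1` blocks. `Nf f i` is the number of
states which are the root `0` or occur in the first `i` blocks. If `i + 1 ≤ Nf f i` for all
`i ≤ m` (`Dy f`) then the states can be explored in the order of their first occurrence and the
word is the list of the transitions of an accessible structure.
-/

namespace Pool.Agent.SC.AS

open Finset

universe u

variable {A : Type u} [Fintype A] {m : ℕ}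

/-- `v` is the root or occurs in the first `i` blocks -/
def Bd (f : Fin (m + 1) × A → Fin (m + 1)) (i : ℕ) (v : Fin (m + 1)) : Prop :=
  v = 0 ∨ ∃ x : Fin (m + 1) × A, x.1.val < i ∧ f x = v

open Classical in
/-- number of states discovered in the first `i` blocks -/
noncomputable def Nf (f : Fin (m + 1) × A → Fin (m + 1)) (i : ℕ) : ℕ :=
  ((univ : Finset (Fin (m + 1))).filter fun v => Bd f i v).card

/-- the ballot condition -/
def Dy (f : Fin (m + 1) × A → Fin (m + 1)) : Prop := ∀ i ≤ m, i + 1 ≤ Nf f i

omit [Fintype A] in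
lemma Bd.mono {f : Fin (m + 1) × A → Fin (m + 1)} {i j : ℕ} {v : Fin (m + 1)} (h : Bd f i v)
    (hij : i ≤ j) : Bd f j v := by
  rcases h with h | ⟨x, h1, h2⟩
  · exact Or.inl h
  · exact Or.inr ⟨x, by omega, h2⟩

omit [Fintype A] in
lemma Bd_zero {f : Fin (m + 1) × A → Fin (m + 1)} {v : Fin (m + 1)} : Bd f 0 v ↔ v = 0 := by
  constructor
  · rintro (h | ⟨x, h1, -⟩)
    · exact h
    · omega
  · exact Or.inl

omit [Fintype A] in
lemma Bd_of_Dy {f : Fin (m + 1) × A → Fin (m + 1)} (h : Dy f) (v : Fin (m + 1)) : Bd f m v := by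
  classical
  have h1 := h m le_rfl
  have h2 : (univ : Finset (Fin (m + 1))).filter (fun v => Bd f m v) = univ := by
    apply eq_univ_of_card
    have h3 := card_le_univ ((univ : Finset (Fin (m + 1))).filter (fun v => Bd f m v))
    rw [Fintype.card_fin] at h3 ⊢
    rw [Nf] at h1
    exact le_antisymm h3 h1
  have h3 : v ∈ (univ : Finset (Fin (m + 1))).filter (fun v => Bd f m v) := by
    rw [h2]; exact mem_univ _
  exact (mem_filter.1 h3).2

/-- time of discovery -/
noncomputable def bt (f : Fin (m + 1) × A → Fin (m + 1)) (v : Fin (m + 1)) : ℕ :=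
  sInf {i | Bd f i v}

omit [Fintype A] in
lemma bt_le {f : Fin (m + 1) × A → Fin (m + 1)} {v : Fin (m + 1)} {i : ℕ} (h : Bd f i v) :
    bt f v ≤ i := Nat.sInf_le h

omit [Fintype A] in
lemma Bd_bt {f : Fin (m + 1) × A → Fin (m + 1)} (hf : Dy f) (v : Fin (m + 1)) :
    Bd f (bt f v) v := Nat.sInf_mem (s := {i | Bd f i v}) ⟨m, Bd_of_Dy hf v⟩

open Classical in
/-- rank in the order of discovery -/
noncomputable def rkk (f : Fin (m + 1) × A → Fin (m + 1)) (v : Fin (m + 1)) : ℕ :=
  ((univ : Finset (Fin (m + 1))).filter fun u => toLex (bt f u, u) < toLex (bt f v, v)).card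

omit [Fintype A] in
lemma rkk_lt (f : Fin (m + 1) × A → Fin (m + 1)) (v : Fin (m + 1)) : rkk f v < m + 1 := by
  classical
  have h1 : ((univ : Finset (Fin (m + 1))).filter
      fun u => toLex (bt f u, u) < toLex (bt f v, v)) ⊂ univ := by
    rw [ssubset_univ_iff]
    intro h
    have : v ∈ (univ : Finset (Fin (m + 1))).filter
        fun u => toLex (bt f u, u) < toLex (bt f v, v) := by
      rw [h]; exact mem_univ _
    exact lt_irrefl _ (mem_filter.1 this).2
  have h2 := card_lt_card h1
  rwa [card_univ, Fintype.card_fin] at h2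

omit [Fintype A] in
lemma rkk_lt_rkk {f : Fin (m + 1) × A → Fin (m + 1)} {u v : Fin (m + 1)}
    (h : toLex (bt f u, u) < toLex (bt f v, v)) : rkk f u < rkk f v := by
  classical
  apply card_lt_card
  rw [ssubset_iff_of_subset]
  · refine ⟨u, mem_filter.2 ⟨mem_univ _, h⟩, ?_⟩
    intro h'
    exact lt_irrefl _ (mem_filter.1 h').2
  · intro w hw
    rw [mem_filter] at hw ⊢
    exact ⟨mem_univ _, hw.2.trans h⟩

/-- rank as an element of `Fin` -/
noncomputable def rkF (f : Fin (m + 1) × A → Fin (m + 1)) (v : Fin (m + 1)) : Fin (m + 1) :=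
  ⟨rkk f v, rkk_lt f v⟩

omit [Fintype A] in
lemma rkF_bij (f : Fin (m + 1) × A → Fin (m + 1)) : Function.Bijective (rkF f) := by
  rw [← Finite.injective_iff_bijective]
  intro u v h
  have h' : rkk f u = rkk f v := congrArg Fin.val h
  rcases lt_trichotomy (toLex (bt f u, u)) (toLex (bt f v, v)) with h1 | h1 | h1
  · have := rkk_lt_rkk h1
    omega
  · exact (Prod.ext_iff.1 (toLex.injective h1)).2
  · have := rkk_lt_rkk h1
    omega

omit [Fintype A] in
lemma bt_le_rkk {f : Fin (m + 1) × A → Fin (m + 1)} (hf : Dy f) (v : Fin (m + 1)) :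
    bt f v ≤ rkk f v := by
  classical
  by_contra hlt
  rw [not_le] at hlt
  have h1 : bt f v ≤ m := bt_le (Bd_of_Dy hf v)
  have h2 := hf (rkk f v) (by omega)
  have h3 : Nf f (rkk f v) ≤ rkk f v := by
    conv_rhs => rw [rkk]
    rw [Nf]
    apply card_le_card
    intro u hu
    rw [mem_filter] at hu ⊢
    refine ⟨mem_univ _, ?_⟩
    have h4 := bt_le hu.2
    rw [Prod.Lex.lt_iff]
    left
    show bt f u < bt f v
    omega
  omega

/-- the structure read off a word -/
noncomputable def dl (f : Fin (m + 1) × A → Fin (m + 1)) : Fin (m + 1) → A → Fin (m + 1) :=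
  fun v a => f (rkF f v, a)

omit [Fintype A] in
lemma acc_dl {f : Fin (m + 1) × A → Fin (m + 1)} (hf : Dy f) : Acc 0 (dl f) := by
  have key : ∀ s : Fin (m + 1), s ≠ 0 → ∃ e : Fin (m + 1) × A, dl f e.1 e.2 = s ∧
      rkk f e.1 < rkk f s := by
    intro s hs
    rcases Bd_bt hf s with h | ⟨x, h1, h2⟩
    · exact absurd h hs
    · obtain ⟨u, hu⟩ := (rkF_bij f).2 x.1
      refine ⟨(u, x.2), ?_, ?_⟩
      · simp only [dl]
        rw [hu]
        exact h2
      · have h3 : rkk f u = x.1.val := congrArg Fin.val hu
        have h4 := bt_le_rkk hf s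
        simp only
        omega
  intro q
  induction h : rkk f q using Nat.strong_induction_on generalizing q with
  | _ n ih =>
    by_cases hq : q = 0
    · exact ⟨[], by simp [hq]⟩
    · obtain ⟨e, he, hlt⟩ := key q hq
      obtain ⟨w, hw⟩ := ih (rkk f e.1) (h ▸ hlt) e.1 rfl
      refine ⟨w ++ [e.2], ?_⟩
      rw [run_concat, hw, he]

omit [Fintype A] in
lemma dl_inj {f g : Fin (m + 1) × A → Fin (m + 1)} (hf : Dy f) (hg : Dy g)
    (h : dl f = dl g) : f = g := by
  classical
  have key : ∀ j : ℕ, ∀ x : Fin (m + 1) × A, x.1.val = j → f x = g x := by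
    intro j
    induction j using Nat.strong_induction_on with
    | _ j ih =>
      intro x hx
      -- discovered sets agree up to time `j`
      have hB : ∀ i ≤ j, ∀ v, Bd f i v ↔ Bd g i v := by
        intro i hi v
        constructor
        · rintro (h | ⟨y, h1, h2⟩)
          · exact Or.inl h
          · exact Or.inr ⟨y, h1, by rw [← ih y.1.val (by omega) y rfl, h2]⟩
        · rintro (h | ⟨y, h1, h2⟩)
          · exact Or.inl h
          · exact Or.inr ⟨y, h1, by rw [ih y.1.val (by omega) y rfl, h2]⟩
      have hle : ∀ u, bt f u ≤ j ↔ bt g u ≤ j := by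
        intro u
        constructor
        · intro h1
          exact (bt_le ((hB _ h1 u).1 (Bd_bt hf u))).trans h1
        · intro h1
          exact (bt_le ((hB _ h1 u).2 (Bd_bt hg u))).trans h1
      have heq : ∀ u, bt f u ≤ j → bt f u = bt g u := by
        intro u h1
        apply le_antisymm
        · exact bt_le ((hB _ ((hle u).1 h1) u).2 (Bd_bt hg u))
        · exact bt_le ((hB _ h1 u).1 (Bd_bt hf u))
      obtain ⟨v, hv⟩ := (rkF_bij f).2 x.1
      have hvj : rkk f v = j := (congrArg Fin.val hv).trans hx
      have hbv : bt f v ≤ j := hvj ▸ bt_le_rkk hf v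
      have hrk : rkk g v = rkk f v := by
        unfold rkk
        congr 1
        ext u
        simp only [mem_filter, mem_univ, true_and]
        rw [Prod.Lex.lt_iff, Prod.Lex.lt_iff]
        simp only [ofLex_toLex]
        rw [← heq v hbv]
        by_cases hu : bt f u ≤ j
        · rw [← heq u hu]
        · have hu' : ¬ bt g u ≤ j := fun h' => hu ((hle u).2 h')
          constructor
          · rintro (h1 | ⟨h1, -⟩) <;> omega
          · rintro (h1 | ⟨h1, -⟩) <;> omega
      have hrF : rkF g v = x.1 := by
        rw [← hv]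
        exact Fin.ext hrk
      have h1 : dl f v x.2 = dl g v x.2 := by rw [h]
      simp only [dl] at h1
      rw [hv, hrF] at h1
      exact h1
  funext x
  exact key x.1.val x rfl

open Classical in
lemma card_Dy_le [Nonempty A] : ((univ : Finset (Fin (m + 1) × A → Fin (m + 1))).filter Dy).card ≤
    (AccF A (0 : Fin (m + 1))).card := by
  apply card_le_card_of_injOn dl
  · intro f hf
    rw [mem_coe, mem_filter] at hf
    rw [mem_coe, mem_AccF]
    exact acc_dl hf.2
  · intro f hf g hg h
    rw [mem_coe, mem_filter] at hf hg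
    exact dl_inj hf.2 hg.2 h

/-! ### finite modification -/

open Classical in
/-- words covering all states other than the root -/
noncomputable def SurU (A : Type u) [Fintype A] (m : ℕ) :
    Finset (Fin (m + 1) × A → Fin (m + 1)) :=
  univ.filter fun f => ∀ p, p ≠ 0 → ∃ x, f x = p

lemma mem_SurU {f : Fin (m + 1) × A → Fin (m + 1)} :
    f ∈ SurU A m ↔ ∀ p, p ≠ 0 → ∃ x, f x = p := by
  classical
  simp [SurU]

open Classical in
/-- covering words with the ballot condition up to time `T` and with `v` missing states at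
time `T` -/
noncomputable def GG (A : Type u) [Fintype A] (m T v : ℕ) :
    Finset (Fin (m + 1) × A → Fin (m + 1)) :=
  (SurU A m).filter fun f => (∀ i ≤ T, i + 1 ≤ Nf f i) ∧ Nf f T + v = m + 1

omit [Fintype A] in
lemma Nf_mono {f g : Fin (m + 1) × A → Fin (m + 1)} {i j : ℕ}
    (h : ∀ v, Bd f i v → Bd g j v) : Nf f i ≤ Nf g j := by
  classical
  apply card_le_card
  intro v hv
  rw [mem_filter] at hv ⊢
  exact ⟨hv.1, h v hv.2⟩

omit [Fintype A] in
/-- a representative position of minimal block index -/
lemma exists_rep (f : Fin (m + 1) × A → Fin (m + 1)) (T : ℕ) (v : Fin (m + 1)) (hv : v ≠ 0)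
    (hB : Bd f T v) : ∃ x : Fin (m + 1) × A, x.1.val < T ∧ f x = v ∧
      ∀ i, Bd f i v → x.1.val < i := by
  have h1 : Bd f (bt f v) v := Nat.sInf_mem (s := {i | Bd f i v}) ⟨T, hB⟩
  rcases h1 with h1 | ⟨x, h1, h2⟩
  · exact absurd h1 hv
  · refine ⟨x, lt_of_lt_of_le h1 (bt_le hB), h2, ?_⟩
    intro i hi
    exact lt_of_lt_of_le h1 (bt_le hi)

open Classical in
lemma card_GG_succ {T v s₀ : ℕ} (hT : T + s₀ = m + 1)
    (hbig : 2 * (Fintype.card A * s₀) ≤ (2 * Fintype.card A - 3) * (m + 1))
    (hk : 2 ≤ Fintype.card A) :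
    (GG A m T (v + 1)).card ≤
      (2 * Fintype.card A ^ 2 * s₀) * (GG A m T v).card := by
  set k := Fintype.card A with hk'
  -- representatives
  have hrep : ∀ f : Fin (m + 1) × A → Fin (m + 1), ∃ ρ : Fin (m + 1) → Fin (m + 1) × A,
      ∀ v, v ≠ 0 → Bd f T v → (ρ v).1.val < T ∧ f (ρ v) = v ∧ ∀ i, Bd f i v → (ρ v).1.val < i := by
    intro f
    have hne : Nonempty (Fin (m + 1) × A) := by
      have : Nonempty A := Fintype.card_pos_iff.1 (by omega)
      exact inferInstance
    have h1 : ∀ v : Fin (m + 1), ∃ x : Fin (m + 1) × A, v ≠ 0 → Bd f T v →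
        x.1.val < T ∧ f x = v ∧ ∀ i, Bd f i v → x.1.val < i := by
      intro v
      by_cases h2 : v ≠ 0 ∧ Bd f T v
      · obtain ⟨x, hx⟩ := exists_rep f T v h2.1 h2.2
        exact ⟨x, fun _ _ => hx⟩
      · exact ⟨Classical.arbitrary _, fun h3 h4 => absurd ⟨h3, h4⟩ h2⟩
    choose ρ hρ using h1
    exact ⟨ρ, hρ⟩
  choose ρ hρ using hrep
  -- redundant positions
  let P1 : Finset (Fin (m + 1) × A) := univ.filter fun x => x.1.val < T
  let P2 : Finset (Fin (m + 1) × A) := univ.filter fun x => T ≤ x.1.val
  let R : (Fin (m + 1) × A → Fin (m + 1)) → Finset (Fin (m + 1) × A) := fun f =>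
    P1 \ univ.image (ρ f)
  have hTm : T ≤ m + 1 := by omega
  have hP12 : P1.card + P2.card = (m + 1) * k := by
    have h1 : P2 = univ.filter fun x => ¬ (x : Fin (m + 1) × A).1.val < T := by
      apply filter_congr
      intro x _
      rw [not_lt]
    rw [h1]
    have h2 := card_filter_add_card_filter_not (s := (univ : Finset (Fin (m + 1) × A)))
      (fun x => x.1.val < T)
    rw [card_univ, Fintype.card_prod, Fintype.card_fin] at h2
    exact h2
  have hP2 : P2.card = s₀ * k := by
    have h1 : P2 = ((univ : Finset (Fin (m + 1))).filter fun j => T ≤ j.val) ×ˢ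
        (univ : Finset A) := by
      ext x
      simp [P2, mem_product]
    have h2 : ((univ : Finset (Fin (m + 1))).filter fun j => T ≤ j.val).card = s₀ := by
      have h3 := card_filter_add_card_filter_not (s := (univ : Finset (Fin (m + 1))))
        (fun j => j.val < T)
      have h4 : ((univ : Finset (Fin (m + 1))).filter fun j => j.val < T).card = T := by
        rw [Fin.card_filter_val_lt]
        omega
      have h5 : ((univ : Finset (Fin (m + 1))).filter fun j => ¬ j.val < T) =
          (univ.filter fun j => T ≤ j.val) := by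
        apply filter_congr
        intro j _
        rw [not_lt]
      rw [h5, h4, card_univ, Fintype.card_fin] at h3
      omega
    rw [h1, card_product, h2, card_univ]
  have hR : ∀ f, m + 1 ≤ 2 * (R f).card := by
    intro f
    have h1 : P1.card ≤ (R f).card + (m + 1) := by
      have h2 : P1 ⊆ R f ∪ univ.image (ρ f) := by
        intro x hx
        rw [mem_union]
        by_cases h3 : x ∈ univ.image (ρ f)
        · exact Or.inr h3
        · exact Or.inl (mem_sdiff.2 ⟨hx, h3⟩)
      refine (card_le_card h2).trans ((card_union_le _ _).trans ?_)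
      apply Nat.add_le_add_left
      refine card_image_le.trans ?_
      rw [card_univ, Fintype.card_fin]
    have h4 : 2 * ((m + 1) * k) = (2 * k - 3) * (m + 1) + 3 * (m + 1) := by
      obtain ⟨j, hj⟩ : ∃ j, k = j + 2 := ⟨k - 2, by omega⟩
      rw [hj]
      have : 2 * (j + 2) - 3 = 2 * j + 1 := by omega
      rw [this]
      ring
    have h5 : s₀ * k = k * s₀ := mul_comm _ _
    omega
  -- the missing state
  have hmiss : ∀ f ∈ GG A m T (v + 1), ∃ w : Fin (m + 1), ¬ Bd f T w := by
    intro f hf
    rw [GG, mem_filter] at hf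
    by_contra hcon
    push Not at hcon
    have h1 : Nf f T = m + 1 := by
      rw [Nf, filter_true_of_mem fun w _ => hcon w, card_univ, Fintype.card_fin]
    omega
  choose! μ hμ using hmiss
  have hpos : ∀ f ∈ GG A m T (v + 1), ∃ x : Fin (m + 1) × A, f x = μ f ∧ T ≤ x.1.val := by
    intro f hf
    have h1 := hμ f hf
    rw [GG, mem_filter, mem_SurU] at hf
    have h0 : μ f ≠ 0 := fun h => h1 (Or.inl h)
    obtain ⟨x, hx⟩ := hf.1 (μ f) h0
    refine ⟨x, hx, ?_⟩
    by_contra hlt
    rw [not_le] at hlt
    exact h1 (Or.inr ⟨x, hlt, hx⟩)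
  have hne : Nonempty (Fin (m + 1) × A) := by
    have : Nonempty A := Fintype.card_pos_iff.1 (by omega)
    exact inferInstance
  choose! η hη using hpos
  -- the set of pairs
  let S := (GG A m T (v + 1)).sigma fun f => R f
  have hScard : (GG A m T (v + 1)).card * (m + 1) ≤ 2 * S.card := by
    rw [card_sigma, mul_sum, ← smul_eq_mul, ← sum_const]
    exact sum_le_sum fun f _ => hR f
  have hSle : S.card ≤ (GG A m T v ×ˢ ((univ : Finset (Fin (m + 1) × A)) ×ˢ P2)).card := by
    apply card_le_card_of_injOn fun y => (y.1 ∘ Equiv.swap y.2 (η y.1), (y.2, η y.1))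
    · rintro ⟨f, e⟩ hy
      rw [mem_coe, mem_sigma] at hy
      obtain ⟨hf, he⟩ := hy
      simp only at hf he
      obtain ⟨hη1, hη2⟩ := hη f hf
      have hμf := hμ f hf
      have hf' := hf
      rw [GG, mem_filter, mem_SurU] at hf'
      obtain ⟨hsur, hbal, hN⟩ := hf'
      rw [mem_sdiff] at he
      obtain ⟨he1, he2⟩ := he
      have heT : e.1.val < T := (mem_filter.1 he1).2
      have hne : e ≠ η f := by
        intro h
        rw [h] at heT
        omega
      rw [mem_coe, mem_product, mem_product]
      refine ⟨?_, mem_univ _, mem_filter.2 ⟨mem_univ _, hη2⟩⟩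
      simp only
      set g := f ∘ Equiv.swap e (η f) with hg
      have hge : g e = μ f := by
        rw [hg, Function.comp_apply, Equiv.swap_apply_left, hη1]
      have hgη : g (η f) = f e := by
        rw [hg, Function.comp_apply, Equiv.swap_apply_right]
      have hgo : ∀ x, x ≠ e → x ≠ η f → g x = f x := by
        intro x h1 h2
        rw [hg, Function.comp_apply, Equiv.swap_apply_of_ne_of_ne h1 h2]
      -- discovered states remain discovered
      have hB1 : ∀ i ≤ T, ∀ w, Bd f i w → Bd g i w := by
        intro i hi w hw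
        by_cases hw0 : w = 0
        · exact Or.inl hw0
        · have hwT := hw.mono hi
          obtain ⟨h1, h2, h3⟩ := hρ f w hw0 hwT
          right
          refine ⟨ρ f w, h3 i hw, ?_⟩
          rw [hgo, h2]
          · intro h
            exact he2 (mem_image.2 ⟨w, mem_univ _, h⟩)
          · intro h
            rw [h] at h1
            omega
      have hB2 : ∀ w, Bd g T w ↔ (Bd f T w ∨ w = μ f) := by
        intro w
        constructor
        · rintro (h | ⟨x, h1, h2⟩)
          · exact Or.inl (Or.inl h)
          · by_cases hx : x = e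
            · right
              rw [← h2, hx, hge]
            · left
              right
              refine ⟨x, h1, ?_⟩
              rw [← h2, hgo x hx]
              intro h
              rw [h] at h1
              omega
        · rintro (h | h)
          · exact hB1 T le_rfl w h
          · right
            exact ⟨e, heT, by rw [hge, h]⟩
      rw [GG, mem_filter, mem_SurU]
      refine ⟨?_, ?_, ?_⟩
      · intro p hp
        obtain ⟨x, hx⟩ := hsur p hp
        refine ⟨Equiv.swap e (η f) x, ?_⟩
        rw [hg, Function.comp_apply, Equiv.swap_apply_self, hx]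
      · intro i hi
        exact (hbal i hi).trans (Nf_mono (hB1 i hi))
      · have h1 : Nf g T = Nf f T + 1 := by
          rw [Nf, Nf]
          have h2 : (univ : Finset (Fin (m + 1))).filter (fun w => Bd g T w) =
              insert (μ f) ((univ : Finset (Fin (m + 1))).filter fun w => Bd f T w) := by
            ext w
            rw [mem_insert, mem_filter, mem_filter, hB2 w]
            simp only [mem_univ, true_and]
            tauto
          rw [h2, card_insert_of_notMem]
          rw [mem_filter]
          exact fun h => hμf h.2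
        omega
    · rintro ⟨f, e⟩ hy ⟨f', e'⟩ hy' h
      simp only [Prod.mk.injEq] at h
      obtain ⟨h1, rfl, h3⟩ := h
      rw [← h3] at h1
      have h4 : f = f' := by
        funext x
        have := congrFun h1 (Equiv.swap e (η f) x)
        simpa using this
      subst h4
      rfl
  rw [card_product, card_product, card_univ, Fintype.card_prod, Fintype.card_fin, hP2,
    ← hk'] at hSle
  have hfin : (GG A m T (v + 1)).card * (m + 1) ≤
      ((2 * k ^ 2 * s₀) * (GG A m T v).card) * (m + 1) := by
    calc (GG A m T (v + 1)).card * (m + 1) ≤ 2 * S.card := hScard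
      _ ≤ 2 * ((GG A m T v).card * ((m + 1) * k * (s₀ * k))) := Nat.mul_le_mul_left _ hSle
      _ = _ := by ring
  exact Nat.le_of_mul_le_mul_right hfin (Nat.succ_pos m)

end Pool.Agent.SC.AS
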