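import Pool.Agent.W_MP_6663ab_lc.AccSur1

/-!
# Few distinct states in the first blocks; number of states of in-degree at least two
-/

namespace Pool.Agent.SC.AS

open Finset

universe u

variable {A : Type u} [Fintype A] {m : ℕ}

open Classical in
/-- covering words with at most `t` discovered states at time `t` -/
noncomputable def B2 (A : Type u) [Fintype A] (m t : ℕ) : Finset (Fin (m + 1) × A → Fin (m + 1)) :=
  (SurU A m).filter fun f => Nf f t ≤ t

open Classical in
lemma card_repeat (J B : Finset (Fin (m + 1) × A)) (hJ : J ⊆ B) :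
    ((SurU A m).filter fun f => ∀ x ∈ J, f x = 0 ∨ ∃ y ∈ B \ J, f y = f x).card *
      (m + 1) ^ J.card ≤ (SurU A m).card * (B.card - J.card + 1) ^ J.card := by
  set S := (SurU A m).filter fun f => ∀ x ∈ J, f x = 0 ∨ ∃ y ∈ B \ J, f y = f x with hS
  have h1 : ∀ f : Fin (m + 1) × A → Fin (m + 1), ∃ h : ↥J → Option ↥(B \ J), f ∈ S →
      ∀ x : ↥J, (h x = none → f x.1 = 0) ∧ ∀ y, h x = some y → f y.1 = f x.1 := by
    intro f
    by_cases hf : f ∈ S
    · rw [hS, mem_filter] at hf
      have h2 : ∀ x : ↥J, ∃ o : Option ↥(B \ J), (o = none → f x.1 = 0) ∧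
          ∀ y, o = some y → f y.1 = f x.1 := by
        intro x
        rcases hf.2 x.1 x.2 with h | ⟨y, hy, hyx⟩
        · exact ⟨none, fun _ => h, fun y hy => by simp at hy⟩
        · refine ⟨some ⟨y, hy⟩, fun h => by simp at h, ?_⟩
          intro z hz
          rw [Option.some.injEq] at hz
          rw [← hz]
          exact hyx
      choose h hh using h2
      exact ⟨h, fun _ => hh⟩
    · exact ⟨fun _ => none, fun h => absurd h hf⟩
  choose hh hhh using h1
  have hcard : (S ×ˢ (univ : Finset (↥J → Fin (m + 1)))).card ≤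
      ((SurU A m) ×ˢ (univ : Finset (↥J → Option ↥(B \ J)))).card := by
    apply card_le_card_of_injOn fun y =>
      ((fun x => if hx : x ∈ J then y.2 ⟨x, hx⟩ else y.1 x), hh y.1)
    · rintro ⟨f, g⟩ hy
      rw [mem_coe, mem_product] at hy
      have hf := hy.1
      simp only at hf
      have hf' := hf
      rw [hS, mem_filter, mem_SurU] at hf'
      rw [mem_coe, mem_product]
      refine ⟨?_, mem_univ _⟩
      rw [mem_SurU]
      intro p hp
      obtain ⟨z, hz⟩ := hf'.1 p hp
      by_cases hzJ : z ∈ J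
      · rcases hf'.2 z hzJ with h | ⟨y, hy, hyz⟩
        · exact absurd (hz.symm.trans h) hp
        · refine ⟨y, ?_⟩
          rw [mem_sdiff] at hy
          simp only
          rw [dif_neg hy.2, hyz, hz]
      · refine ⟨z, ?_⟩
        simp only
        rw [dif_neg hzJ, hz]
    · rintro ⟨f, g⟩ hy ⟨f', g'⟩ hy' h
      rw [mem_coe, mem_product] at hy hy'
      have hf := hy.1
      have hf' := hy'.1
      simp only [Prod.mk.injEq] at hf hf' h
      obtain ⟨h2, h3⟩ := h
      have hg : g = g' := by
        funext x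
        have := congrFun h2 x.1
        rwa [dif_pos x.2, dif_pos x.2] at this
      have hoff : ∀ x, x ∉ J → f x = f' x := by
        intro x hx
        have := congrFun h2 x
        rwa [dif_neg hx, dif_neg hx] at this
      have hff : f = f' := by
        funext x
        by_cases hx : x ∈ J
        · have e1 := hhh f hf ⟨x, hx⟩
          have e2 := hhh f' hf' ⟨x, hx⟩
          rw [← h3] at e2
          cases ho : hh f ⟨x, hx⟩ with
          | none => 
            rw [e1.1 ho, e2.1 ho]
          | some y =>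
            rw [← e1.2 y ho, ← e2.2 y ho]
            exact hoff y.1 (mem_sdiff.1 y.2).2
        · exact hoff x hx
      rw [hff, hg]
  rw [card_product, card_product, card_univ, card_univ, Fintype.card_fun, Fintype.card_fun,
    Fintype.card_coe, Fintype.card_option, Fintype.card_coe, Fintype.card_fin,
    card_sdiff_of_subset hJ] at hcard
  exact hcard

/-- number of words with at most `t` discovered states at time `t` -/
lemma card_B2 {t : ℕ} (ht : 1 ≤ t) (h8 : 8 * t ≤ m + 1) (hk : 2 ≤ Fintype.card A) :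
    (B2 A m t).card * ((m + 1) * 2 ^ t) ≤ t * (SurU A m).card := by
  classical
  set k := Fintype.card A with hk'
  let B : Finset (Fin (m + 1) × A) := univ.filter fun x => x.1.val < t
  have hB : B.card = t * k := by
    have h1 : B = ((univ : Finset (Fin (m + 1))).filter fun j => j.val < t) ×ˢ
        (univ : Finset A) := by
      ext x
      simp [B, mem_product]
    have h4 : ((univ : Finset (Fin (m + 1))).filter fun j => j.val < t).card = t := by
      rw [Fin.card_filter_val_lt]
      omega
    rw [h1, card_product, h4, card_univ]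
  set c := (k - 1) * t + 1 with hc
  have hcB : c + (t - 1) = t * k := by
    obtain ⟨j, hj⟩ : ∃ j, k = j + 1 := ⟨k - 1, by omega⟩
    rw [hc, hj, Nat.add_sub_cancel]
    have : t * (j + 1) = j * t + t := by ring
    rw [this]
    omega
  have hsub : B2 A m t ⊆ (B.powersetCard c).biUnion fun J =>
      (SurU A m).filter fun f => ∀ x ∈ J, f x = 0 ∨ ∃ y ∈ B \ J, f y = f x := by
    intro f hf
    rw [B2, mem_filter] at hf
    obtain ⟨hsur, hN⟩ := hf
    let D : Finset (Fin (m + 1)) := (univ.filter fun v => Bd f t v).erase 0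
    have hD : D.card + 1 ≤ t := by
      have h0 : (0 : Fin (m + 1)) ∈ (univ.filter fun v => Bd f t v) :=
        mem_filter.2 ⟨mem_univ _, Or.inl rfl⟩
      have h1 : D.card = (univ.filter fun v => Bd f t v).card - 1 := card_erase_of_mem h0
      have h2 : 0 < (univ.filter fun v => Bd f t v).card := card_pos.2 ⟨_, h0⟩
      rw [Nf] at hN
      omega
    have hne : Nonempty (Fin (m + 1) × A) := by
      have : Nonempty A := Fintype.card_pos_iff.1 (by omega)
      exact inferInstance
    have hrep : ∀ v ∈ D, ∃ x : Fin (m + 1) × A, x.1.val < t ∧ f x = v := by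
      intro v hv
      rw [mem_erase, mem_filter] at hv
      rcases hv.2.2 with h | ⟨x, h1, h2⟩
      · exact absurd h hv.1
      · exact ⟨x, h1, h2⟩
    choose! ρ hρ using hrep
    have hJ0 : c ≤ (B \ D.image ρ).card := by
      have h1 : B.card ≤ (B \ D.image ρ).card + D.card := by
        have h2 : B ⊆ (B \ D.image ρ) ∪ D.image ρ := by
          intro x hx
          rw [mem_union]
          by_cases h3 : x ∈ D.image ρ
          · exact Or.inr h3
          · exact Or.inl (mem_sdiff.2 ⟨hx, h3⟩)
        exact (card_le_card h2).trans ((card_union_le _ _).trans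
          (Nat.add_le_add_left card_image_le _))
      omega
    obtain ⟨J, hJ, hJc⟩ := exists_subset_card_eq hJ0
    rw [mem_biUnion]
    refine ⟨J, ?_, ?_⟩
    · rw [mem_powersetCard]
      exact ⟨hJ.trans sdiff_subset, hJc⟩
    · rw [mem_filter]
      refine ⟨hsur, ?_⟩
      intro x hx
      by_cases h0 : f x = 0
      · exact Or.inl h0
      · right
        have hxB : x ∈ B := (mem_sdiff.1 (hJ hx)).1
        have hxD : f x ∈ D := by
          rw [mem_erase, mem_filter]
          exact ⟨h0, mem_univ _, Or.inr ⟨x, (mem_filter.1 hxB).2, rfl⟩⟩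
        obtain ⟨h1, h2⟩ := hρ (f x) hxD
        refine ⟨ρ (f x), ?_, h2⟩
        rw [mem_sdiff]
        refine ⟨mem_filter.2 ⟨mem_univ _, h1⟩, ?_⟩
        intro h3
        exact (mem_sdiff.1 (hJ h3)).2 (mem_image_of_mem _ hxD)
  have h1 : (B2 A m t).card * (m + 1) ^ c ≤ 2 ^ (t * k) * ((SurU A m).card * t ^ c) := by
    calc (B2 A m t).card * (m + 1) ^ c
        ≤ (∑ J ∈ B.powersetCard c, ((SurU A m).filter fun f =>
            ∀ x ∈ J, f x = 0 ∨ ∃ y ∈ B \ J, f y = f x).card) * (m + 1) ^ c :=
          Nat.mul_le_mul_right _ ((card_le_card hsub).trans card_biUnion_le)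
      _ = ∑ J ∈ B.powersetCard c, ((SurU A m).filter fun f =>
            ∀ x ∈ J, f x = 0 ∨ ∃ y ∈ B \ J, f y = f x).card * (m + 1) ^ c := sum_mul _ _ _
      _ ≤ ∑ J ∈ B.powersetCard c, (SurU A m).card * t ^ c := by
          apply sum_le_sum
          intro J hJ
          rw [mem_powersetCard] at hJ
          have h2 := card_repeat (A := A) J B hJ.1
          rw [hJ.2, hB] at h2
          have h3 : t * k - c + 1 = t := by omega
          rw [h3] at h2
          exact h2
      _ = (B.card.choose c) * ((SurU A m).card * t ^ c) := by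
          rw [sum_const, card_powersetCard, smul_eq_mul]
      _ ≤ 2 ^ (t * k) * ((SurU A m).card * t ^ c) := by
          apply Nat.mul_le_mul_right
          rw [hB]
          exact Nat.choose_le_two_pow _ _
  -- simplify
  have ht0 : 0 < t ^ ((k - 1) * t) := by positivity
  have h2 : (B2 A m t).card * ((m + 1) * 8 ^ ((k - 1) * t)) ≤
      2 ^ (t * k) * ((SurU A m).card * t) := by
    have h3 : ((B2 A m t).card * ((m + 1) * 8 ^ ((k - 1) * t))) * t ^ ((k - 1) * t) ≤
        (2 ^ (t * k) * ((SurU A m).card * t)) * t ^ ((k - 1) * t) := by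
      calc ((B2 A m t).card * ((m + 1) * 8 ^ ((k - 1) * t))) * t ^ ((k - 1) * t)
          = (B2 A m t).card * ((m + 1) * (8 * t) ^ ((k - 1) * t)) := by
            rw [mul_pow]; ring
        _ ≤ (B2 A m t).card * ((m + 1) * (m + 1) ^ ((k - 1) * t)) := by
            apply Nat.mul_le_mul_left
            apply Nat.mul_le_mul_left
            exact Nat.pow_le_pow_left h8 _
        _ = (B2 A m t).card * (m + 1) ^ c := by rw [hc, pow_succ']
        _ ≤ 2 ^ (t * k) * ((SurU A m).card * t ^ c) := h1
        _ = _ := by rw [hc, pow_succ]; ring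
    exact Nat.le_of_mul_le_mul_right h3 ht0
  have h4 : 2 ^ (t * k) * 2 ^ t ≤ 8 ^ ((k - 1) * t) := by
    have : (8 : ℕ) ^ ((k - 1) * t) = 2 ^ (3 * ((k - 1) * t)) := by
      rw [pow_mul 2 3]; norm_num
    rw [this, ← pow_add]
    apply Nat.pow_le_pow_right (by norm_num)
    obtain ⟨j, hj⟩ : ∃ j, k = j + 2 := ⟨k - 2, by omega⟩
    rw [hj]
    have e1 : j + 2 - 1 = j + 1 := by omega
    rw [e1]
    nlinarith
  have h5 : ((B2 A m t).card * ((m + 1) * 2 ^ t)) * 2 ^ (t * k) ≤
      (t * (SurU A m).card) * 2 ^ (t * k) := by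
    calc ((B2 A m t).card * ((m + 1) * 2 ^ t)) * 2 ^ (t * k)
        = (B2 A m t).card * ((m + 1) * (2 ^ (t * k) * 2 ^ t)) := by ring
      _ ≤ (B2 A m t).card * ((m + 1) * 8 ^ ((k - 1) * t)) :=
          Nat.mul_le_mul_left _ (Nat.mul_le_mul_left _ h4)
      _ ≤ 2 ^ (t * k) * ((SurU A m).card * t) := h2
      _ = _ := by ring
  exact Nat.le_of_mul_le_mul_right h5 (by positivity)

/-! ### states of in-degree at least two -/

open Classical in
/-- number of occurrences -/
noncomputable def dg (f : Fin (m + 1) × A → Fin (m + 1)) (v : Fin (m + 1)) : ℕ :=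
  ((univ : Finset (Fin (m + 1) × A)).filter fun x => f x = v).card

open Classical in
/-- pairs of positions with the same value -/
noncomputable def PR (f : Fin (m + 1) × A → Fin (m + 1)) :
    Finset ((Fin (m + 1) × A) × (Fin (m + 1) × A)) :=
  univ.filter fun z => z.1 ≠ z.2 ∧ f z.1 = f z.2

open Classical in
/-- states other than the root with at least two occurrences -/
noncomputable def M2 (f : Fin (m + 1) × A → Fin (m + 1)) : Finset (Fin (m + 1)) :=
  univ.filter fun v => v ≠ 0 ∧ 2 ≤ dg f v

lemma sum_PR (A : Type u) [Fintype A] (m : ℕ) : ∑ f ∈ SurU A m, (PR f).card ≤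
    (m + 1) * Fintype.card A ^ 2 * (SurU A m).card := by
  classical
  have h1 : (∑ f ∈ SurU A m, (PR f).card) * (m + 1) ≤
      (SurU A m).card * (((m + 1) * Fintype.card A) * ((m + 1) * Fintype.card A)) := by
    have h2 : ((((SurU A m).sigma fun f => PR f)) ×ˢ (univ : Finset (Fin (m + 1)))).card ≤
        ((SurU A m) ×ˢ (univ : Finset ((Fin (m + 1) × A) × (Fin (m + 1) × A)))).card := by
      apply card_le_card_of_injOn fun y => (Function.update y.1.1 y.1.2.2 y.2, y.1.2)
      · rintro ⟨⟨f, z⟩, r⟩ hy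
        rw [mem_coe, mem_product, mem_sigma, PR, mem_filter, mem_SurU] at hy
        obtain ⟨⟨hsur, -, hne, heq⟩, -⟩ := hy
        simp only at hsur hne heq
        rw [mem_coe, mem_product]
        refine ⟨?_, mem_univ _⟩
        rw [mem_SurU]
        intro p hp
        obtain ⟨x, hx⟩ := hsur p hp
        by_cases hxz : x = z.2
        · refine ⟨z.1, ?_⟩
          simp only
          rw [Function.update_of_ne hne, heq, ← hxz, hx]
        · refine ⟨x, ?_⟩
          simp only
          rw [Function.update_of_ne hxz, hx]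
      · rintro ⟨⟨f, z⟩, r⟩ hy ⟨⟨f', z'⟩, r'⟩ hy' h
        rw [mem_coe, mem_product, mem_sigma, PR, mem_filter] at hy hy'
        obtain ⟨⟨-, -, hne, heq⟩, -⟩ := hy
        obtain ⟨⟨-, -, hne', heq'⟩, -⟩ := hy'
        simp only [Prod.mk.injEq] at hne heq hne' heq' h
        obtain ⟨h3, rfl⟩ := h
        have hr : r = r' := by
          have := congrFun h3 z.2
          simpa using this
        subst hr
        have hoff : ∀ x, x ≠ z.2 → f x = f' x := by
          intro x hx
          have := congrFun h3 x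
          rwa [Function.update_of_ne hx, Function.update_of_ne hx] at this
        have hff : f = f' := by
          funext x
          by_cases hx : x = z.2
          · rw [hx, ← heq, ← heq', hoff z.1 hne]
          · exact hoff x hx
        subst hff
        rfl
    rw [card_product, card_sigma, card_product, card_univ, card_univ, Fintype.card_prod,
      Fintype.card_prod, Fintype.card_fin] at h2
    exact h2
  have h3 : (∑ f ∈ SurU A m, (PR f).card) * (m + 1) ≤
      ((m + 1) * Fintype.card A ^ 2 * (SurU A m).card) * (m + 1) := by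
    refine h1.trans (le_of_eq ?_)
    ring
  exact Nat.le_of_mul_le_mul_right h3 (Nat.succ_pos m)

lemma sum_dg (f : Fin (m + 1) × A → Fin (m + 1)) :
    ∑ v, dg f v = (m + 1) * Fintype.card A := by
  classical
  have h1 := card_eq_sum_card_fiberwise (s := (univ : Finset (Fin (m + 1) × A)))
    (t := (univ : Finset (Fin (m + 1)))) (f := f) fun x _ => mem_univ _
  rw [card_univ, Fintype.card_prod, Fintype.card_fin] at h1
  rw [h1]
  rfl

lemma card_PR (f : Fin (m + 1) × A → Fin (m + 1)) :
    (PR f).card = ∑ v, (dg f v * dg f v - dg f v) := by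
  classical
  have h1 := card_eq_sum_card_fiberwise (s := PR f)
    (t := (univ : Finset (Fin (m + 1)))) (f := fun z => f z.1) fun x _ => mem_univ _
  rw [h1]
  apply sum_congr rfl
  intro v _
  rw [dg, ← offDiag_card]
  congr 1
  ext z
  simp only [PR, mem_filter, mem_univ, true_and, mem_offDiag]
  constructor
  · rintro ⟨⟨h1, h2⟩, h3⟩
    exact ⟨h3, h2 ▸ h3, h1⟩
  · rintro ⟨h1, h2, h3⟩
    exact ⟨⟨h3, h1.trans h2.symm⟩, h1⟩

lemma M2_large (hk : 2 ≤ Fintype.card A) (f : Fin (m + 1) × A → Fin (m + 1))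
    (hbig : 8 * Fintype.card A ^ 2 ≤ m + 1)
    (hPR : (PR f).card ≤ 4 * Fintype.card A ^ 2 * (m + 1)) :
    m + 1 ≤ 8 * Fintype.card A ^ 2 * (M2 f).card := by
  classical
  set k := Fintype.card A with hk'
  let S : Finset (Fin (m + 1)) := univ.filter fun v => 2 ≤ dg f v
  have h1 : ((m : ℝ) + 1) ≤ ∑ v ∈ S, ((dg f v : ℝ) - 1) := by
    have h2 : ∑ v, ((dg f v : ℝ) - 1) = ((m : ℝ) + 1) * k - ((m : ℝ) + 1) := by
      rw [sum_sub_distrib, ← Nat.cast_sum, sum_dg, ← hk']
      simp
    have h3 : ∑ v, ((dg f v : ℝ) - 1) ≤ ∑ v ∈ S, ((dg f v : ℝ) - 1) := by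
      have h4 := sum_filter_add_sum_filter_not (univ : Finset (Fin (m + 1)))
        (fun v => 2 ≤ dg f v) fun v => ((dg f v : ℝ) - 1)
      have h5 : ∑ v ∈ (univ : Finset (Fin (m + 1))).filter (fun v => ¬ 2 ≤ dg f v),
          ((dg f v : ℝ) - 1) ≤ 0 := by
        apply sum_nonpos
        intro v hv
        rw [mem_filter] at hv
        have : dg f v ≤ 1 := by omega
        have : (dg f v : ℝ) ≤ 1 := by exact_mod_cast this
        linarith
      linarith
    rw [h2] at h3
    refine le_trans ?_ h3
    have hk2 : (2 : ℝ) ≤ k := by exact_mod_cast hk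
    nlinarith
  have h2 : (∑ v ∈ S, ((dg f v : ℝ) - 1)) ^ 2 ≤ (S.card : ℝ) * ∑ v ∈ S, ((dg f v : ℝ) - 1) ^ 2 :=
    sq_sum_le_card_mul_sum_sq
  have h3 : ∑ v ∈ S, ((dg f v : ℝ) - 1) ^ 2 ≤ ((PR f).card : ℝ) := by
    rw [card_PR]
    push_cast
    calc ∑ v ∈ S, ((dg f v : ℝ) - 1) ^ 2 ≤ ∑ v ∈ S, ((dg f v * dg f v - dg f v : ℕ) : ℝ) := by
          apply sum_le_sum
          intro v hv
          have hv2 : 2 ≤ dg f v := (mem_filter.1 hv).2
          have hle : dg f v ≤ dg f v * dg f v := Nat.le_mul_self _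
          rw [Nat.cast_sub hle]
          push_cast
          have : (2 : ℝ) ≤ dg f v := by exact_mod_cast hv2
          nlinarith
      _ ≤ ∑ v, ((dg f v * dg f v - dg f v : ℕ) : ℝ) :=
          sum_le_sum_of_subset_of_nonneg (subset_univ _) fun _ _ _ => by positivity
  have h4 : ((m : ℝ) + 1) ^ 2 ≤ (S.card : ℝ) * (4 * (k : ℝ) ^ 2 * ((m : ℝ) + 1)) := by
    have h5 : ((PR f).card : ℝ) ≤ 4 * (k : ℝ) ^ 2 * ((m : ℝ) + 1) := by exact_mod_cast hPR
    have h6 := pow_le_pow_left₀ (by positivity) h1 2
    refine h6.trans (h2.trans ?_)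
    exact mul_le_mul_of_nonneg_left (h3.trans h5) (by positivity)
  have h5 : ((m : ℝ) + 1) ≤ (S.card : ℝ) * (4 * (k : ℝ) ^ 2) := by
    have hpos : (0 : ℝ) < (m : ℝ) + 1 := by positivity
    have h6 : ((m : ℝ) + 1) * ((m : ℝ) + 1) ≤ ((S.card : ℝ) * (4 * (k : ℝ) ^ 2)) * ((m : ℝ) + 1) := by
      nlinarith
    exact le_of_mul_le_mul_right h6 hpos
  have h6 : m + 1 ≤ S.card * (4 * k ^ 2) := by exact_mod_cast h5
  have h7 : S.card ≤ (M2 f).card + 1 := by
    have h8 : S ⊆ M2 f ∪ {0} := by
      intro v hv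
      rw [mem_union, mem_singleton, M2, mem_filter]
      by_cases h0 : v = 0
      · exact Or.inr h0
      · exact Or.inl ⟨mem_univ _, h0, (mem_filter.1 hv).2⟩
    exact (card_le_card h8).trans (card_union_le _ _)
  have h8 : S.card * (4 * k ^ 2) ≤ ((M2 f).card + 1) * (4 * k ^ 2) := Nat.mul_le_mul_right _ h7
  have e1 : ((M2 f).card + 1) * (4 * k ^ 2) = 4 * (k ^ 2 * (M2 f).card) + 4 * k ^ 2 := by ring
  have e2 : 8 * k ^ 2 * (M2 f).card = 8 * (k ^ 2 * (M2 f).card) := by ring
  rw [e1] at h8
  rw [e2]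
  omega

open Classical in
/-- typical covering words -/
noncomputable def STy (A : Type u) [Fintype A] (m : ℕ) :
    Finset (Fin (m + 1) × A → Fin (m + 1)) :=
  (SurU A m).filter fun f => (PR f).card ≤ 4 * Fintype.card A ^ 2 * (m + 1)

lemma card_atyp (hk : 2 ≤ Fintype.card A) :
    3 * (SurU A m).card ≤ 4 * (STy A m).card := by
  classical
  set k := Fintype.card A with hk'
  have h1 := sum_PR A m
  rw [← hk'] at h1
  have h2 : ((SurU A m).filter fun f => ¬ (PR f).card ≤ 4 * k ^ 2 * (m + 1)).card *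
      (4 * k ^ 2 * (m + 1)) ≤ ∑ f ∈ SurU A m, (PR f).card := by
    rw [← smul_eq_mul, ← sum_const]
    calc _ ≤ ∑ f ∈ (SurU A m).filter (fun f => ¬ (PR f).card ≤ 4 * k ^ 2 * (m + 1)),
          (PR f).card := by
          apply sum_le_sum
          intro f hf
          rw [mem_filter] at hf
          omega
      _ ≤ _ := sum_le_sum_of_subset (filter_subset _ _)
  have h3 := card_filter_add_card_filter_not (s := SurU A m)
    (fun f => (PR f).card ≤ 4 * k ^ 2 * (m + 1))
  have h4 : (4 * ((SurU A m).filter fun f => ¬ (PR f).card ≤ 4 * k ^ 2 * (m + 1)).card) *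
      (k ^ 2 * (m + 1)) ≤ (SurU A m).card * (k ^ 2 * (m + 1)) := by
    calc _ = ((SurU A m).filter fun f => ¬ (PR f).card ≤ 4 * k ^ 2 * (m + 1)).card *
          (4 * k ^ 2 * (m + 1)) := by ring
      _ ≤ (m + 1) * k ^ 2 * (SurU A m).card := h2.trans h1
      _ = _ := by ring
  have h5 := Nat.le_of_mul_le_mul_right h4 (by positivity)
  have h6 : (STy A m).card =
      ((SurU A m).filter fun f => (PR f).card ≤ 4 * k ^ 2 * (m + 1)).card := rfl
  rw [h6]
  omega

end Pool.Agent.SC.AS
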