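import Pool.Agent.W_MP_6663ab_lc.AccSur2

/-!
# Exchangeability and an exponential bound
-/

namespace Pool.Agent.SC.AS

open Finset

universe u

section count

variable {α : Type*} [Fintype α] [DecidableEq α]

lemma choose_sub_bound {N r : ℕ} (hr : r ≤ N) (D : ℕ) (hD : D ≤ r) :
    (((N - D).choose (r - D) : ℕ) : ℝ) * (N : ℝ) ^ D ≤ (r : ℝ) ^ D * ((N.choose r : ℕ) : ℝ) := by
  induction D with
  | zero => simp
  | succ D ih =>
    have ih' := ih (by omega)
    have h1 : (N - D) = (N - (D + 1)) + 1 := by omega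
    have h2 : (r - D) = (r - (D + 1)) + 1 := by omega
    have h3 := Nat.add_one_mul_choose_eq (N - (D + 1)) (r - (D + 1))
    rw [← h1, ← h2] at h3
    have h4 : ((N - D : ℕ) : ℝ) * (((N - (D + 1)).choose (r - (D + 1)) : ℕ) : ℝ) =
        (((N - D).choose (r - D) : ℕ) : ℝ) * ((r - D : ℕ) : ℝ) := by exact_mod_cast h3
    have hND : ((N - D : ℕ) : ℝ) = (N : ℝ) - D := by
      rw [Nat.cast_sub (by omega)]
    have hrD : ((r - D : ℕ) : ℝ) = (r : ℝ) - D := by
      rw [Nat.cast_sub (by omega)]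
    rw [hND, hrD] at h4
    have hpos : (0 : ℝ) < (N : ℝ) - D := by
      have : (D : ℝ) < N := by exact_mod_cast (by omega : D < N)
      linarith
    have hDr : (D : ℝ) < r := by exact_mod_cast (by omega : D < r)
    have hrN : (r : ℝ) ≤ N := by exact_mod_cast hr
    set X := (((N - (D + 1)).choose (r - (D + 1)) : ℕ) : ℝ) with hX
    set Y := (((N - D).choose (r - D) : ℕ) : ℝ) with hY
    set C := ((N.choose r : ℕ) : ℝ) with hC
    have hY0 : 0 ≤ Y := by positivity
    have h5 : ((r : ℝ) - D) * N ≤ r * ((N : ℝ) - D) := by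
      have : (0 : ℝ) ≤ D := by positivity
      nlinarith
    have h6 : (X * (N : ℝ) ^ (D + 1)) * ((N : ℝ) - D) ≤
        ((r : ℝ) ^ (D + 1) * C) * ((N : ℝ) - D) := by
      calc (X * (N : ℝ) ^ (D + 1)) * ((N : ℝ) - D)
          = (((N : ℝ) - D) * X) * (N : ℝ) ^ (D + 1) := by ring
        _ = (Y * ((r : ℝ) - D)) * (N : ℝ) ^ (D + 1) := by rw [h4]
        _ = (((r : ℝ) - D) * N) * (Y * (N : ℝ) ^ D) := by ring
        _ ≤ (r * ((N : ℝ) - D)) * (Y * (N : ℝ) ^ D) :=
            mul_le_mul_of_nonneg_right h5 (by positivity)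
        _ ≤ (r * ((N : ℝ) - D)) * ((r : ℝ) ^ D * C) :=
            mul_le_mul_of_nonneg_left ih' (by positivity)
        _ = _ := by ring
    exact le_of_mul_le_mul_right h6 hpos

lemma card_superset (F : Finset α) {r : ℕ} (hr : r ≤ Fintype.card α) :
    ((((univ : Finset α).powersetCard r).filter fun P => F ⊆ P).card : ℝ) *
      (Fintype.card α : ℝ) ^ F.card ≤ (r : ℝ) ^ F.card * (((Fintype.card α).choose r : ℕ) : ℝ) := by
  by_cases hF : F.card ≤ r
  · refine le_trans ?_ (choose_sub_bound hr F.card hF)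
    apply mul_le_mul_of_nonneg_right _ (by positivity)
    have h1 : (((univ : Finset α).powersetCard r).filter fun P => F ⊆ P).card ≤
        ((univ \ F).powersetCard (r - F.card)).card := by
      apply card_le_card_of_injOn fun P => P \ F
      · intro P hP
        rw [mem_coe, mem_filter, mem_powersetCard] at hP
        rw [mem_coe, mem_powersetCard]
        refine ⟨sdiff_subset_sdiff (subset_univ _) le_rfl, ?_⟩
        rw [card_sdiff_of_subset hP.2, hP.1.2]
      · intro P hP P' hP' h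
        rw [mem_coe, mem_filter] at hP hP'
        simp only at h
        rw [← sdiff_union_of_subset hP.2, ← sdiff_union_of_subset hP'.2, h]
    rw [card_powersetCard, card_sdiff_of_subset (subset_univ _), card_univ] at h1
    exact_mod_cast h1
  · have h1 : (((univ : Finset α).powersetCard r).filter fun P => F ⊆ P) = ∅ := by
      rw [eq_empty_iff_forall_notMem]
      intro P hP
      rw [mem_filter, mem_powersetCard] at hP
      have := card_le_card hP.2
      omega
    rw [h1, card_empty]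
    simp only [Nat.cast_zero, zero_mul]
    positivity

end count

variable {A : Type u} [Fintype A] {m : ℕ}

open Classical in
/-- non-root states all of whose occurrences lie in `P` -/
noncomputable def ZP (f : Fin (m + 1) × A → Fin (m + 1)) (P : Finset (Fin (m + 1) × A)) :
    Finset (Fin (m + 1)) :=
  univ.filter fun v => v ≠ 0 ∧ ∀ x, f x = v → x ∈ P

lemma mem_ZP {f : Fin (m + 1) × A → Fin (m + 1)} {P : Finset (Fin (m + 1) × A)}
    {v : Fin (m + 1)} : v ∈ ZP f P ↔ v ≠ 0 ∧ ∀ x, f x = v → x ∈ P := by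
  classical
  simp [ZP]

open Classical in
lemma card_fib (f : Fin (m + 1) × A → Fin (m + 1)) (V : Finset (Fin (m + 1))) :
    ((univ : Finset (Fin (m + 1) × A)).filter fun x => f x ∈ V).card = ∑ v ∈ V, dg f v := by
  rw [card_eq_sum_card_fiberwise (t := V) (f := f)
    (s := (univ : Finset (Fin (m + 1) × A)).filter fun x => f x ∈ V)]
  · apply sum_congr rfl
    intro v hv
    rw [dg]
    congr 1
    ext x
    simp only [mem_filter, mem_univ, true_and]
    constructor
    · exact fun h => h.2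
    · intro h
      exact ⟨h ▸ hv, h⟩
  · intro x hx
    exact (mem_filter.1 hx).2

/-- exponential moment of the number of states contained in a random set of positions -/
lemma sum_exp_le (f : Fin (m + 1) × A → Fin (m + 1)) {θ : ℝ} (hθ : 0 ≤ θ) {r : ℕ}
    (hr : r ≤ (m + 1) * Fintype.card A) (hA : 0 < Fintype.card A) :
    ∑ P ∈ (univ : Finset (Fin (m + 1) × A)).powersetCard r, (1 + θ) ^ (ZP f P).card ≤
      ((((m + 1) * Fintype.card A).choose r : ℕ) : ℝ) *
        ∏ v ∈ (univ : Finset (Fin (m + 1))).erase 0,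
          (1 + θ * ((r : ℝ) / (((m + 1) * Fintype.card A : ℕ) : ℝ)) ^ dg f v) := by
  classical
  set N := (m + 1) * Fintype.card A with hN
  have hNpos : 0 < N := by positivity
  have hN' : Fintype.card (Fin (m + 1) × A) = N := by
    rw [Fintype.card_prod, Fintype.card_fin]
  set x : ℝ := (r : ℝ) / (N : ℝ) with hx
  have h1 : ∀ P : Finset (Fin (m + 1) × A), (1 + θ) ^ (ZP f P).card =
      ∑ V ∈ ((univ : Finset (Fin (m + 1))).erase 0).powerset,
        (if (univ.filter fun x => f x ∈ V) ⊆ P then θ ^ V.card else 0) := by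
    intro P
    have h2 := sum_pow_mul_eq_add_pow θ 1 (ZP f P)
    simp only [one_pow, mul_one] at h2
    rw [add_comm, ← h2, ← sum_filter]
    apply sum_congr _ fun _ _ => rfl
    ext V
    rw [mem_powerset, mem_filter, mem_powerset]
    constructor
    · intro h
      refine ⟨?_, ?_⟩
      · intro v hv
        rw [mem_erase]
        exact ⟨(mem_ZP.1 (h hv)).1, mem_univ _⟩
      · intro y hy
        rw [mem_filter] at hy
        exact (mem_ZP.1 (h hy.2)).2 y rfl
    · rintro ⟨h3, h4⟩ v hv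
      rw [mem_ZP]
      refine ⟨(mem_erase.1 (h3 hv)).1, ?_⟩
      intro y hy
      apply h4
      rw [mem_filter]
      exact ⟨mem_univ _, by rw [hy]; exact hv⟩
  rw [sum_congr rfl fun P _ => h1 P, sum_comm, prod_one_add, mul_sum]
  apply sum_le_sum
  intro V _
  rw [← sum_filter, sum_const, nsmul_eq_mul]
  have h2 := card_superset (univ.filter fun x => f x ∈ V) (r := r) (by rw [hN']; exact hr)
  rw [hN', card_fib] at h2
  have h3 : ∏ v ∈ V, θ * x ^ dg f v = θ ^ V.card * x ^ (∑ v ∈ V, dg f v) := by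
    rw [prod_mul_distrib, prod_const, prod_pow_eq_pow_sum]
  rw [h3]
  have hNR : (0 : ℝ) < (N : ℝ) ^ (∑ v ∈ V, dg f v) := by positivity
  have h4 : ((((univ : Finset (Fin (m + 1) × A)).powersetCard r).filter fun P =>
      (univ.filter fun x => f x ∈ V) ⊆ P).card : ℝ) ≤
      x ^ (∑ v ∈ V, dg f v) * ((N.choose r : ℕ) : ℝ) := by
    rw [hx, div_pow, div_mul_eq_mul_div, le_div_iff₀ hNR]
    exact h2
  calc _ ≤ (x ^ (∑ v ∈ V, dg f v) * ((N.choose r : ℕ) : ℝ)) * θ ^ V.card :=
        mul_le_mul_of_nonneg_right h4 (by positivity)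
    _ = _ := by ring

/-- the sum of the `x ^ dg` -/
lemma sum_pow_dg {f : Fin (m + 1) × A → Fin (m + 1)} (hf : f ∈ SurU A m) {x : ℝ} (hx0 : 0 ≤ x)
    (hx1 : x ≤ 1) :
    ∑ v ∈ (univ : Finset (Fin (m + 1))).erase 0, x ^ dg f v ≤
      ((m : ℝ) + 1) * x - ((M2 f).card : ℝ) * (x * (1 - x)) := by
  classical
  rw [mem_SurU] at hf
  have h1 : ∀ v ∈ (univ : Finset (Fin (m + 1))).erase 0, x ^ dg f v ≤
      x - (if v ∈ M2 f then x * (1 - x) else 0) := by
    intro v hv
    rw [mem_erase] at hv
    obtain ⟨y, hy⟩ := hf v hv.1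
    have hpos : 0 < dg f v := card_pos.2 ⟨y, mem_filter.2 ⟨mem_univ _, hy⟩⟩
    by_cases h2 : v ∈ M2 f
    · rw [if_pos h2]
      have h3 : 2 ≤ dg f v := by
        rw [M2, mem_filter] at h2
        exact h2.2.2
      calc x ^ dg f v ≤ x ^ 2 := pow_le_pow_of_le_one hx0 hx1 h3
        _ = _ := by ring
    · rw [if_neg h2, sub_zero]
      calc x ^ dg f v ≤ x ^ 1 := pow_le_pow_of_le_one hx0 hx1 hpos
        _ = x := pow_one x
  refine (sum_le_sum h1).trans ?_
  rw [sum_sub_distrib, sum_const, card_erase_of_mem (mem_univ _), card_univ, Fintype.card_fin,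
    Nat.add_sub_cancel, nsmul_eq_mul, ← sum_filter, sum_const, nsmul_eq_mul]
  have h2 : ((univ : Finset (Fin (m + 1))).erase 0).filter (fun v => v ∈ M2 f) = M2 f := by
    ext v
    rw [mem_filter, mem_erase]
    constructor
    · exact fun h => h.2
    · intro h
      refine ⟨⟨?_, mem_univ _⟩, h⟩
      rw [M2, mem_filter] at h
      exact h.2.1
  rw [h2]
  nlinarith

/-- symmetry -/
lemma card_ZP_symm {P P' : Finset (Fin (m + 1) × A)} (h : P.card = P'.card) (s : ℕ) :
    ((STy A m).filter fun f => s ≤ (ZP f P').card).card ≤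
      ((STy A m).filter fun f => s ≤ (ZP f P).card).card := by
  classical
  have hc : Fintype.card {x // x ∈ P} = Fintype.card {x // x ∈ P'} := by
    rw [Fintype.card_coe, Fintype.card_coe, h]
  let e : {x // x ∈ P} ≃ {x // x ∈ P'} := Fintype.equivOfCardEq hc
  let σ : Equiv.Perm (Fin (m + 1) × A) := e.extendSubtype
  have hσ : ∀ x, σ x ∈ P' ↔ x ∈ P := by
    intro x
    constructor
    · intro hx
      by_contra hxP
      exact e.extendSubtype_not_mem x hxP hx
    · exact fun hx => e.extendSubtype_mem x hx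
  apply card_le_card_of_injOn fun f => f ∘ σ
  · intro f hf
    rw [mem_coe, mem_filter, STy, mem_filter, mem_SurU] at hf
    obtain ⟨⟨hsur, hPR⟩, hs⟩ := hf
    rw [mem_coe, mem_filter, STy, mem_filter, mem_SurU]
    refine ⟨⟨?_, ?_⟩, ?_⟩
    · intro p hp
      obtain ⟨x, hx⟩ := hsur p hp
      exact ⟨σ.symm x, by simp [hx]⟩
    · refine le_trans ?_ hPR
      apply card_le_card_of_injOn fun z => (σ z.1, σ z.2)
      · intro z hz
        rw [mem_coe, PR, mem_filter] at hz ⊢
        exact ⟨mem_univ _, fun h => hz.2.1 (σ.injective h), hz.2.2⟩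
      · intro z _ z' _ hzz
        simp only [Prod.mk.injEq] at hzz
        exact Prod.ext (σ.injective hzz.1) (σ.injective hzz.2)
    · refine hs.trans (card_le_card ?_)
      intro v hv
      rw [mem_ZP] at hv ⊢
      refine ⟨hv.1, ?_⟩
      intro x hx
      exact (hσ x).1 (hv.2 (σ x) hx)
  · intro f _ g _ hfg
    funext x
    have := congrFun hfg (σ.symm x)
    simpa using this

lemma rho_lt_one {θ : ℝ} (h0 : 0 < θ) (h1 : θ < 1) : Real.exp (θ * (1 - θ)) / (1 + θ) < 1 := by
  rw [div_lt_one (by linarith)]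
  have h2 : 1 - θ * (1 - θ) ≤ Real.exp (-(θ * (1 - θ))) := by
    have := Real.add_one_le_exp (-(θ * (1 - θ)))
    linarith
  have h3 : 0 < 1 - θ * (1 - θ) := by nlinarith
  have h4 : Real.exp (θ * (1 - θ)) ≤ 1 / (1 - θ * (1 - θ)) := by
    rw [le_div_iff₀ h3]
    calc Real.exp (θ * (1 - θ)) * (1 - θ * (1 - θ))
        ≤ Real.exp (θ * (1 - θ)) * Real.exp (-(θ * (1 - θ))) :=
          mul_le_mul_of_nonneg_left h2 (Real.exp_pos _).le
      _ = 1 := by rw [← Real.exp_add]; simp
  refine lt_of_le_of_lt h4 ?_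
  rw [div_lt_iff₀ h3]
  have : 0 < θ ^ 3 := by positivity
  nlinarith

/-- **exponential bound**: few typical words have at least `s` non-root states contained in the
last `s` blocks -/
lemma card_B1 (hk : 2 ≤ Fintype.card A) (hbig : 8 * Fintype.card A ^ 2 ≤ m + 1) {s : ℕ}
    (hs : s ≤ m + 1) (hs8 : m + 1 ≤ 8 * (m + 1 - s)) {P₀ : Finset (Fin (m + 1) × A)}
    (hP₀ : P₀.card = s * Fintype.card A) {θ : ℝ}
    (hθ : θ = 1 / (64 * (Fintype.card A : ℝ) ^ 2)) :
    (((STy A m).filter fun f => s ≤ (ZP f P₀).card).card : ℝ) ≤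
      (Real.exp (θ * (1 - θ)) / (1 + θ)) ^ s * ((STy A m).card : ℝ) := by
  classical
  set k := Fintype.card A with hk'
  have hk0 : 0 < k := by omega
  have hkR : (0 : ℝ) < k := by exact_mod_cast hk0
  have hθ0 : 0 < θ := by rw [hθ]; positivity
  have hr : s * k ≤ (m + 1) * k := Nat.mul_le_mul_right _ hs
  set C : ℝ := ((((m + 1) * k).choose (s * k) : ℕ) : ℝ) with hC
  have hCpos : 0 < C := by
    rw [hC]
    exact_mod_cast Nat.choose_pos hr
  set PC := (univ : Finset (Fin (m + 1) × A)).powersetCard (s * k) with hPC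
  have hPCcard : (PC.card : ℝ) = C := by
    rw [hPC, card_powersetCard, card_univ, Fintype.card_prod, Fintype.card_fin]
  -- double counting
  have h1 : C * (((STy A m).filter fun f => s ≤ (ZP f P₀).card).card : ℝ) ≤
      ∑ f ∈ STy A m, ((PC.filter fun P => s ≤ (ZP f P).card).card : ℝ) := by
    have h2 : ∑ f ∈ STy A m, ((PC.filter fun P => s ≤ (ZP f P).card).card : ℝ) =
        ∑ P ∈ PC, (((STy A m).filter fun f => s ≤ (ZP f P).card).card : ℝ) := by
      simp_rw [card_filter]
      push_cast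
      rw [sum_comm]
    rw [h2, ← hPCcard, ← nsmul_eq_mul, ← sum_const]
    apply sum_le_sum
    intro P hP
    rw [hPC, mem_powersetCard] at hP
    exact_mod_cast card_ZP_symm (hP.2.trans hP₀.symm) s
  have h2 : ∀ f ∈ STy A m, ((PC.filter fun P => s ≤ (ZP f P).card).card : ℝ) ≤
      (Real.exp (θ * (1 - θ)) / (1 + θ)) ^ s * C := by
    intro f hf
    rw [STy, mem_filter] at hf
    have hM := M2_large hk f hbig hf.2
    rw [← hk'] at hM
    have h3 : ((PC.filter fun P => s ≤ (ZP f P).card).card : ℝ) * (1 + θ) ^ s ≤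
        ∑ P ∈ PC, (1 + θ) ^ (ZP f P).card := by
      rw [← nsmul_eq_mul, ← sum_const]
      calc _ ≤ ∑ P ∈ PC.filter (fun P => s ≤ (ZP f P).card), (1 + θ) ^ (ZP f P).card := by
            apply sum_le_sum
            intro P hP
            exact pow_le_pow_right₀ (by linarith) (mem_filter.1 hP).2
        _ ≤ _ := sum_le_sum_of_subset_of_nonneg (filter_subset _ _) fun _ _ _ => by positivity
    have h4 := sum_exp_le f hθ0.le hr hk0
    rw [← hPC, ← hC] at h4
    set x : ℝ := ((s * k : ℕ) : ℝ) / (((m + 1) * k : ℕ) : ℝ) with hx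
    have hxs : x = (s : ℝ) / ((m : ℝ) + 1) := by
      rw [hx]
      push_cast
      rw [mul_div_mul_right _ _ hkR.ne']
    have hm0 : (0 : ℝ) < (m : ℝ) + 1 := by positivity
    have hsR : (s : ℝ) ≤ (m : ℝ) + 1 := by exact_mod_cast hs
    have hx0 : 0 ≤ x := by rw [hxs]; positivity
    have hx1 : x ≤ 1 := by rw [hxs, div_le_one hm0]; exact hsR
    have h5 := sum_pow_dg hf.1 hx0 hx1
    have h6 : ∑ v ∈ (univ : Finset (Fin (m + 1))).erase 0, x ^ dg f v ≤ (s : ℝ) * (1 - θ) := by
      refine h5.trans ?_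
      have e1 : ((m : ℝ) + 1) * x = s := by
        rw [hxs]; field_simp
      rw [e1]
      have e2 : (s : ℝ) * (1 - θ) = s - s * θ := by ring
      rw [e2]
      have h7 : (s : ℝ) * θ ≤ ((M2 f).card : ℝ) * (x * (1 - x)) := by
        have h8 : (1 : ℝ) / 8 ≤ 1 - x := by
          rw [hxs]
          have h9 : ((m : ℝ) + 1) ≤ 8 * (((m : ℝ) + 1) - s) := by
            have : ((m + 1 - s : ℕ) : ℝ) = ((m : ℝ) + 1) - s := by
              rw [Nat.cast_sub hs]; push_cast; ring
            rw [← this]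
            exact_mod_cast hs8
          rw [div_le_iff₀ (by norm_num), sub_mul, one_mul, div_mul_eq_mul_div]
          rw [le_sub_iff_add_le, ← le_sub_iff_add_le', div_le_iff₀ hm0]
          linarith
        have h9 : ((m : ℝ) + 1) ≤ 8 * (k : ℝ) ^ 2 * ((M2 f).card : ℝ) := by exact_mod_cast hM
        have h10 : (s : ℝ) * (1 / (8 * (k : ℝ) ^ 2)) ≤ ((M2 f).card : ℝ) * x := by
          rw [hxs, mul_one_div, ← mul_div_assoc, div_le_div_iff₀ (by positivity) hm0]
          have hs0 : (0 : ℝ) ≤ s := by positivity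
          nlinarith
        calc (s : ℝ) * θ = ((s : ℝ) * (1 / (8 * (k : ℝ) ^ 2))) * (1 / 8) := by
              rw [hθ]; field_simp; norm_num
          _ ≤ (((M2 f).card : ℝ) * x) * (1 - x) :=
              mul_le_mul h10 h8 (by norm_num) (by positivity)
          _ = _ := by ring
      linarith
    have h7 : ∏ v ∈ (univ : Finset (Fin (m + 1))).erase 0, (1 + θ * x ^ dg f v) ≤
        Real.exp (θ * (1 - θ)) ^ s := by
      calc ∏ v ∈ (univ : Finset (Fin (m + 1))).erase 0, (1 + θ * x ^ dg f v)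
          ≤ ∏ v ∈ (univ : Finset (Fin (m + 1))).erase 0, Real.exp (θ * x ^ dg f v) := by
            apply prod_le_prod
            · intro v _; positivity
            · intro v _
              have := Real.add_one_le_exp (θ * x ^ dg f v)
              linarith
        _ = Real.exp (∑ v ∈ (univ : Finset (Fin (m + 1))).erase 0, θ * x ^ dg f v) :=
            (Real.exp_sum _ _).symm
        _ ≤ Real.exp (s * (θ * (1 - θ))) := by
            apply Real.exp_le_exp.2
            rw [← mul_sum]
            calc θ * ∑ v ∈ (univ : Finset (Fin (m + 1))).erase 0, x ^ dg f v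
                ≤ θ * ((s : ℝ) * (1 - θ)) := mul_le_mul_of_nonneg_left h6 hθ0.le
              _ = _ := by ring
        _ = _ := by rw [Real.exp_nat_mul]
    have h8 : ((PC.filter fun P => s ≤ (ZP f P).card).card : ℝ) * (1 + θ) ^ s ≤
        C * Real.exp (θ * (1 - θ)) ^ s :=
      h3.trans (h4.trans (mul_le_mul_of_nonneg_left h7 hCpos.le))
    rw [div_pow, div_mul_eq_mul_div, le_div_iff₀ (by positivity)]
    calc _ ≤ C * Real.exp (θ * (1 - θ)) ^ s := h8
      _ = _ := by ring
  have h3 : C * (((STy A m).filter fun f => s ≤ (ZP f P₀).card).card : ℝ) ≤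
      C * ((Real.exp (θ * (1 - θ)) / (1 + θ)) ^ s * ((STy A m).card : ℝ)) := by
    calc _ ≤ _ := h1
      _ ≤ ∑ f ∈ STy A m, (Real.exp (θ * (1 - θ)) / (1 + θ)) ^ s * C := sum_le_sum h2
      _ = _ := by rw [sum_const, nsmul_eq_mul]; ring
  exact le_of_mul_le_mul_left h3 hCpos

end Pool.Agent.SC.AS
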