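import Pool.Agent.W_MP_6663ab_lc.Rank

/-!
# A positive proportion of accessible automata is reduced
-/

namespace Pool.Agent.SC

open Finset Filter

universe u v w

section asymp

lemma sum_biUnion_le' {ι α : Type*} [DecidableEq α] (s : Finset ι) (t : ι → Finset α)
    (f : α → ℕ) : ∑ x ∈ s.biUnion t, f x ≤ ∑ i ∈ s, ∑ x ∈ t i, f x := by
  classical
  induction s using Finset.induction_on with
  | empty => simp
  | insert i s hi ih =>
    rw [biUnion_insert, sum_insert hi]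
    have h := sum_union_inter (s₁ := t i) (s₂ := s.biUnion t) (f := f)
    have : ∑ x ∈ t i ∪ s.biUnion t, f x ≤ ∑ x ∈ t i, f x + ∑ x ∈ s.biUnion t, f x := by
      rw [← h]; exact Nat.le_add_right _ _
    exact this.trans (Nat.add_le_add_left ih _)

/-- polylog is eventually at most `2^L` -/
lemma exists_polylog (c d : ℕ) : ∃ L0 : ℕ, ∀ L, L0 ≤ L → (c * (2 * L + 8)) ^ d ≤ 2 ^ L := by
  have h1 : Tendsto (fun n : ℕ => ((n : ℝ) ^ d) / (2 : ℝ) ^ n) atTop (nhds 0) :=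
    tendsto_pow_const_div_const_pow_of_one_lt d (by norm_num)
  have hpos : (0 : ℝ) < 1 / ((10 * c + 1 : ℝ)) ^ d := by positivity
  have h2 := h1.eventually (gt_mem_nhds hpos)
  obtain ⟨L0, hL0⟩ := eventually_atTop.1 h2
  refine ⟨max L0 1, fun L hL => ?_⟩
  have hL1 : 1 ≤ L := le_trans (le_max_right _ _) hL
  have h3 := hL0 L (le_trans (le_max_left _ _) hL)
  have h4 : (L : ℝ) ^ d * (10 * c + 1 : ℝ) ^ d < 2 ^ L := by
    rw [div_lt_div_iff₀ (by positivity) (by positivity), one_mul] at h3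
    exact h3
  have h5 : ((c * (2 * L + 8) : ℕ) : ℝ) ^ d ≤ (2 : ℝ) ^ L := by
    refine le_trans ?_ h4.le
    rw [← mul_pow]
    apply pow_le_pow_left₀ (by positivity)
    push_cast
    have hL' : (1 : ℝ) ≤ L := by exact_mod_cast hL1
    have hc : (0 : ℝ) ≤ c := by positivity
    nlinarith
  exact_mod_cast h5

end asymp

variable {A : Type u} [Fintype A] [Nonempty A]

open Classical in
/-- non-reduced accessible automata -/
noncomputable def NR (A : Type u) [Fintype A] {Q : Type v} [Fintype Q] [LinearOrder Q] (q₀ : Q) :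
    Finset ((Q → A → Q) × (Q → Bool)) :=
  univ.filter fun x => Acc q₀ x.1 ∧ ∃ p q, p ≠ q ∧ Eqv x.1 x.2 p q

omit [Nonempty A] in
lemma mem_NR {Q : Type v} [Fintype Q] [LinearOrder Q] {q₀ : Q}
    {x : (Q → A → Q) × (Q → Bool)} :
    x ∈ NR A q₀ ↔ Acc q₀ x.1 ∧ ∃ p q, p ≠ q ∧ Eqv x.1 x.2 p q := by
  classical
  simp only [NR, mem_filter, mem_univ, true_and]

open Classical in
/-- all non-twin triples -/
noncomputable def T0 (A : Type u) [Fintype A] {Q : Type v} [Fintype Q] [LinearOrder Q] (q₀ : Q) :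
    Finset ((Q → A → Q) × (Q × Q)) :=
  univ.filter fun x => Acc q₀ x.1 ∧ x.2.1 ≠ x.2.2 ∧ ¬ Twin x.1 x.2.1 x.2.2

omit [Nonempty A] in
lemma mem_T0 {Q : Type v} [Fintype Q] [LinearOrder Q] {q₀ : Q} {x : (Q → A → Q) × (Q × Q)} :
    x ∈ T0 A q₀ ↔ Acc q₀ x.1 ∧ x.2.1 ≠ x.2.2 ∧ ¬ Twin x.1 x.2.1 x.2.2 := by
  classical
  simp only [T0, mem_filter, mem_univ, true_and]

lemma card_NR_le {Q : Type v} [Fintype Q] [LinearOrder Q] (q₀ : Q) :
    2 * (NR A q₀).card ≤ 2 ^ Fintype.card Q * (TW A q₀).card +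
      2 * ∑ x ∈ T0 A q₀, 2 ^ ncl x.1 x.2.1 x.2.2 := by
  classical
  let N1 := (TW A q₀).biUnion fun x =>
    (((univ : Finset (Q → Bool)).filter fun F => F x.2.1 = F x.2.2).image fun F => (x.1, F))
  let N2 := (T0 A q₀).biUnion fun x =>
    (((univ : Finset (Q → Bool)).filter fun F => Eqv x.1 F x.2.1 x.2.2).image fun F => (x.1, F))
  have hsub : NR A q₀ ⊆ N1 ∪ N2 := by
    rintro ⟨δ, F⟩ hx
    obtain ⟨hacc, p, q, hpq, heq⟩ := mem_NR.1 hx
    simp only at hacc heq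
    rw [mem_union]
    by_cases htw : Twin δ p q
    · left
      rw [mem_biUnion]
      have hF : F p = F q := heq []
      rcases lt_trichotomy (toLex (dst q₀ δ p, p)) (toLex (dst q₀ δ q, q)) with h | h | h
      · refine ⟨(δ, (p, q)), mem_TW.2 ⟨hacc, hpq, htw, h⟩, ?_⟩
        exact mem_image.2 ⟨F, mem_filter.2 ⟨mem_univ _, hF⟩, rfl⟩
      · have := Prod.ext_iff.1 (toLex.injective h)
        exact absurd this.2 hpq
      · refine ⟨(δ, (q, p)), mem_TW.2 ⟨hacc, hpq.symm, fun a => (htw a).symm, h⟩, ?_⟩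
        exact mem_image.2 ⟨F, mem_filter.2 ⟨mem_univ _, hF.symm⟩, rfl⟩
    · right
      rw [mem_biUnion]
      refine ⟨(δ, (p, q)), mem_T0.2 ⟨hacc, hpq, htw⟩, ?_⟩
      exact mem_image.2 ⟨F, mem_filter.2 ⟨mem_univ _, heq⟩, rfl⟩
  have h1 : 2 * N1.card ≤ 2 ^ Fintype.card Q * (TW A q₀).card := by
    calc 2 * N1.card ≤ 2 * ∑ x ∈ TW A q₀,
          ((univ : Finset (Q → Bool)).filter fun F => F x.2.1 = F x.2.2).card := by
          apply Nat.mul_le_mul_left
          refine card_biUnion_le.trans (sum_le_sum fun x _ => card_image_le)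
      _ = ∑ x ∈ TW A q₀,
          2 * ((univ : Finset (Q → Bool)).filter fun F => F x.2.1 = F x.2.2).card := mul_sum _ _ _
      _ ≤ ∑ x ∈ TW A q₀, 2 ^ Fintype.card Q :=
          sum_le_sum fun x hx => card_eq_at (mem_TW.1 hx).2.1
      _ = _ := by rw [sum_const, smul_eq_mul, mul_comm]
  have h2 : N2.card ≤ ∑ x ∈ T0 A q₀, 2 ^ ncl x.1 x.2.1 x.2.2 := by
    refine card_biUnion_le.trans (sum_le_sum fun x _ => ?_)
    exact card_image_le.trans (card_Eqv_le _ _ _)
  have h3 := (card_le_card hsub).trans (card_union_le _ _)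
  omega

/-- **(I)** a positive proportion of the accessible automata is reduced -/
theorem card_NR (hk : 2 ≤ Fintype.card A) : ∃ n0 : ℕ, ∀ (Q : Type v) [Fintype Q] [LinearOrder Q]
    (q₀ : Q), n0 ≤ Fintype.card Q →
      4 * (NR A q₀).card ≤ 3 * (2 ^ Fintype.card Q * (AccF A q₀).card) := by
  classical
  set k := Fintype.card A with hk'
  obtain ⟨L0, hL0⟩ := exists_polylog (64 * (4 * (k + 1))) (2 * (2 * k + 5))
  refine ⟨2 ^ L0, ?_⟩
  intro Q _ _ q₀ hn
  set n := Fintype.card Q with hn'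
  have hnpos : 0 < n := Fintype.card_pos_iff.2 ⟨q₀⟩
  set L := Nat.log 2 n with hL
  set R0 := 2 * L + 8 with hR0
  set B := 4 * (k + 1) * R0 with hB
  set X := B ^ (2 * k + 5) with hX
  have hLL : L0 ≤ L := by
    rw [hL]
    exact Nat.le_log_of_pow_le (by norm_num) hn
  have hLn : 2 ^ L ≤ n := Nat.pow_log_le_self 2 hnpos.ne'
  have hnL : n < 2 ^ (L + 1) := Nat.lt_pow_succ_log_self (by norm_num) n
  have hBpos : 0 < B := by
    rw [hB, hR0]; positivity
  have hXn : (64 * X) ^ 2 ≤ n := by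
    refine le_trans ?_ (le_trans (hL0 L hLL) hLn)
    rw [← hR0]
    calc (64 * X) ^ 2 = 64 ^ 2 * B ^ (2 * (2 * k + 5)) := by
          rw [hX, mul_pow, ← pow_mul, mul_comm 2 (2 * k + 5)]
      _ ≤ 64 ^ (2 * (2 * k + 5)) * B ^ (2 * (2 * k + 5)) := by
          apply Nat.mul_le_mul_right
          exact Nat.pow_le_pow_right (by norm_num) (by omega)
      _ = (64 * (4 * (k + 1)) * R0) ^ (2 * (2 * k + 5)) := by
          rw [← mul_pow, hB]; ring
  have hX64 : 1 ≤ 64 * X := by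
    have : 0 < X := by rw [hX]; positivity
    omega
  set a := (AccF A q₀).card with ha
  clear_value a X B R0 L n k
  have hBR : 4 * R0 ≤ B := by
    calc 4 * R0 = 4 * 1 * R0 := by ring
      _ ≤ 4 * (k + 1) * R0 :=
        Nat.mul_le_mul_right _ (Nat.mul_le_mul_left _ (Nat.le_add_left 1 k))
      _ = B := hB.symm
  -- low rank
  have hlow : ∀ r, 1 ≤ r → r < R0 → ∀ s, s ≤ 2 * r → (TT A q₀ s r).card * (64 ^ r * B) ≤ a := by
    intro r hr1 hrR s hs
    have h1 := card_TT (A := A) q₀ s r (hk' ▸ hk)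
    rw [← hk', ← ha, ← hn'] at h1
    have h2 : s ^ 2 * ((2 * (s + s * k)) ^ (s + s * k) * a) * B ≤ X ^ r * a := by
      have hsB : s ≤ B := by omega
      have hsB2 : 2 * (s + s * k) ≤ B := by
        calc 2 * (s + s * k) = 2 * (s * (k + 1)) := by ring
          _ ≤ 2 * (2 * R0 * (k + 1)) :=
            Nat.mul_le_mul_left _ (Nat.mul_le_mul_right _ (by omega))
          _ = B := by rw [hB]; ring
      have hexp : s + s * k ≤ 2 * r * (k + 1) := by
        calc s + s * k = s * (k + 1) := by ring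
          _ ≤ 2 * r * (k + 1) := Nat.mul_le_mul_right _ hs
      calc s ^ 2 * ((2 * (s + s * k)) ^ (s + s * k) * a) * B
          ≤ B ^ 2 * (B ^ (2 * r * (k + 1)) * a) * B := by
            apply Nat.mul_le_mul_right
            apply Nat.mul_le_mul (Nat.pow_le_pow_left hsB 2)
            apply Nat.mul_le_mul_right
            exact (Nat.pow_le_pow_left hsB2 _).trans (Nat.pow_le_pow_right hBpos hexp)
        _ = B ^ (3 + 2 * r * (k + 1)) * a := by ring
        _ ≤ B ^ ((2 * k + 5) * r) * a := by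
            apply Nat.mul_le_mul_right
            apply Nat.pow_le_pow_right hBpos
            calc 3 + 2 * r * (k + 1) ≤ 3 * r + 2 * r * (k + 1) :=
                  Nat.add_le_add_right (by omega) _
              _ = (2 * k + 5) * r := by ring
        _ = X ^ r * a := by rw [hX, ← pow_mul]
    have h3 : (64 * X) ^ r ≤ n ^ tex r := by
      unfold tex
      rcases Nat.lt_or_ge r 2 with hr2 | hr2
      · have : r = 1 := by omega
        subst this
        simp only [pow_one, Nat.sub_self, zero_le, sup_of_le_left]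
        calc 64 * X ≤ (64 * X) ^ 2 := Nat.le_self_pow two_ne_zero _
          _ ≤ n := hXn
      · have h4 : max 1 (r - 1) = r - 1 := by omega
        rw [h4]
        calc (64 * X) ^ r ≤ (64 * X) ^ (2 * (r - 1)) := Nat.pow_le_pow_right hX64 (by omega)
          _ = ((64 * X) ^ 2) ^ (r - 1) := by rw [pow_mul]
          _ ≤ n ^ (r - 1) := Nat.pow_le_pow_left hXn _
    have hXr : 0 < X ^ r := by rw [hX]; positivity
    have h5 : ((TT A q₀ s r).card * (64 ^ r * B)) * X ^ r ≤ a * X ^ r := by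
      calc ((TT A q₀ s r).card * (64 ^ r * B)) * X ^ r
          = (TT A q₀ s r).card * (64 * X) ^ r * B := by rw [mul_pow]; ring
        _ ≤ (TT A q₀ s r).card * n ^ tex r * B :=
            Nat.mul_le_mul_right _ (Nat.mul_le_mul_left _ h3)
        _ ≤ s ^ 2 * ((2 * (s + s * k)) ^ (s + s * k) * a) * B := Nat.mul_le_mul_right _ h1
        _ ≤ X ^ r * a := h2
        _ = a * X ^ r := mul_comm _ _
    exact Nat.le_of_mul_le_mul_right h5 hXr
  -- split T0
  set Tl := (T0 A q₀).filter fun x => rk x.1 x.2.1 x.2.2 < R0 with hTl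
  set Th := (T0 A q₀).filter fun x => ¬ rk x.1 x.2.1 x.2.2 < R0 with hTh
  have hsplit : ∑ x ∈ T0 A q₀, 2 ^ ncl x.1 x.2.1 x.2.2 =
      ∑ x ∈ Tl, 2 ^ ncl x.1 x.2.1 x.2.2 + ∑ x ∈ Th, 2 ^ ncl x.1 x.2.1 x.2.2 :=
    (sum_filter_add_sum_filter_not _ _ _).symm
  -- high rank
  have hT0card : (T0 A q₀).card ≤ a * n ^ 2 := by
    have : T0 A q₀ ⊆ AccF A q₀ ×ˢ (univ : Finset (Q × Q)) := by
      intro x hx
      rw [mem_product]
      exact ⟨mem_AccF.2 (mem_T0.1 hx).1, mem_univ _⟩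
    have h1 := card_le_card this
    rw [card_product, card_univ, Fintype.card_prod, ← ha, ← hn'] at h1
    rw [pow_two]; exact h1
  have hhigh : 64 * ∑ x ∈ Th, 2 ^ ncl x.1 x.2.1 x.2.2 ≤ 2 ^ n * a := by
    have h1 : ∀ x ∈ Th, 2 ^ ncl x.1 x.2.1 x.2.2 * 2 ^ R0 ≤ 2 ^ n := by
      intro x hx
      rw [hTh, mem_filter, not_lt] at hx
      have h2 := ncl_add_rk x.1 x.2.1 x.2.2
      rw [← pow_add]
      apply Nat.pow_le_pow_right (by norm_num)
      rw [hn', ← h2]
      omega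
    have h2 : (∑ x ∈ Th, 2 ^ ncl x.1 x.2.1 x.2.2) * 2 ^ R0 ≤ (a * n ^ 2) * 2 ^ n := by
      rw [sum_mul]
      calc _ ≤ ∑ x ∈ Th, 2 ^ n := sum_le_sum h1
        _ = Th.card * 2 ^ n := by rw [sum_const, smul_eq_mul]
        _ ≤ _ := Nat.mul_le_mul_right _ ((card_le_card (filter_subset _ _)).trans hT0card)
    have h3 : 64 * n ^ 2 ≤ 2 ^ R0 := by
      have : 2 ^ R0 = 64 * (2 ^ (L + 1)) ^ 2 := by rw [hR0]; ring
      rw [this]
      apply Nat.mul_le_mul_left
      exact Nat.pow_le_pow_left hnL.le 2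
    have h4 : (64 * ∑ x ∈ Th, 2 ^ ncl x.1 x.2.1 x.2.2) * n ^ 2 ≤ (2 ^ n * a) * n ^ 2 := by
      calc _ = (∑ x ∈ Th, 2 ^ ncl x.1 x.2.1 x.2.2) * (64 * n ^ 2) := by ring
        _ ≤ (∑ x ∈ Th, 2 ^ ncl x.1 x.2.1 x.2.2) * 2 ^ R0 := Nat.mul_le_mul_left _ h3
        _ ≤ (a * n ^ 2) * 2 ^ n := h2
        _ = _ := by ring
    exact Nat.le_of_mul_le_mul_right h4 (by positivity)
  -- low rank sum
  have hlowsum : ((∑ x ∈ Tl, 2 ^ ncl x.1 x.2.1 x.2.2 : ℕ) : ℝ) ≤ 2 ^ n * a * (1 / 63) := by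
    have h1 : ∑ x ∈ Tl, 2 ^ ncl x.1 x.2.1 x.2.2 ≤
        ∑ r ∈ Ico 1 R0, ∑ s ∈ range (2 * r + 1), (TT A q₀ s r).card * 2 ^ (n - r) := by
      have h2 : Tl ⊆ (Ico 1 R0).biUnion fun r => (range (2 * r + 1)).biUnion fun s =>
          TT A q₀ s r := by
        intro x hx
        rw [hTl, mem_filter] at hx
        obtain ⟨hacc, hpq, htw⟩ := mem_T0.1 hx.1
        rw [mem_biUnion]
        refine ⟨rk x.1 x.2.1 x.2.2, mem_Ico.2 ⟨rk_pos hpq, hx.2⟩, ?_⟩
        rw [mem_biUnion]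
        refine ⟨(sup x.1 x.2.1 x.2.2).card, ?_, mem_TT.2 ⟨hacc, hpq, htw, rfl, rfl⟩⟩
        rw [mem_range]
        have := sup_le_two_rk x.1 x.2.1 x.2.2
        omega
      calc ∑ x ∈ Tl, 2 ^ ncl x.1 x.2.1 x.2.2
          ≤ ∑ x ∈ (Ico 1 R0).biUnion fun r => (range (2 * r + 1)).biUnion fun s =>
            TT A q₀ s r, 2 ^ ncl x.1 x.2.1 x.2.2 :=
            sum_le_sum_of_subset h2
        _ ≤ ∑ r ∈ Ico 1 R0, ∑ x ∈ (range (2 * r + 1)).biUnion fun s =>
            TT A q₀ s r, 2 ^ ncl x.1 x.2.1 x.2.2 := sum_biUnion_le' _ _ _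
        _ ≤ ∑ r ∈ Ico 1 R0, ∑ s ∈ range (2 * r + 1), ∑ x ∈
            TT A q₀ s r, 2 ^ ncl x.1 x.2.1 x.2.2 :=
            sum_le_sum fun r _ => sum_biUnion_le' _ _ _
        _ = _ := by
            apply sum_congr rfl
            intro r _
            apply sum_congr rfl
            intro s _
            rw [← smul_eq_mul, ← sum_const]
            apply sum_congr rfl
            intro x hx
            have h3 := ncl_add_rk x.1 x.2.1 x.2.2
            rw [(mem_TT.1 hx).2.2.2.2, ← hn'] at h3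
            congr 1
            omega
    have h2 : ∀ r ∈ Ico 1 R0, ((∑ s ∈ range (2 * r + 1),
        (TT A q₀ s r).card * 2 ^ (n - r) : ℕ) : ℝ) ≤ 2 ^ n * a * (1 / 64) ^ r := by
      intro r hr
      rw [mem_Ico] at hr
      push_cast
      have h3 : ∀ s ∈ range (2 * r + 1), ((TT A q₀ s r).card : ℝ) * 2 ^ (n - r) ≤
          (a / (64 ^ r * B)) * 2 ^ n := by
        intro s hs
        rw [mem_range] at hs
        have h4 := hlow r hr.1 hr.2 s (by omega)
        have h5 : ((TT A q₀ s r).card : ℝ) * (64 ^ r * B) ≤ a := by exact_mod_cast h4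
        apply mul_le_mul _ _ (by positivity) (by positivity)
        · rw [le_div_iff₀ (by positivity)]; exact h5
        · exact pow_le_pow_right₀ (by norm_num) (Nat.sub_le _ _)
      refine (sum_le_sum h3).trans ?_
      rw [sum_const, card_range, nsmul_eq_mul]
      have h6 : ((2 * r + 1 : ℕ) : ℝ) ≤ B := by
        have : 2 * r + 1 ≤ B := by omega
        exact_mod_cast this
      have hB' : (0 : ℝ) < B := by exact_mod_cast hBpos
      have h7 : (a : ℝ) / (64 ^ r * B) * 2 ^ n = (2 ^ n * a * (1 / 64) ^ r) / B := by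
        rw [one_div, inv_pow]
        field_simp
      rw [h7, mul_div_assoc', div_le_iff₀ hB', mul_comm]
      exact mul_le_mul_of_nonneg_left h6 (by positivity)
    have h1' : ((∑ x ∈ Tl, 2 ^ ncl x.1 x.2.1 x.2.2 : ℕ) : ℝ) ≤
        ∑ r ∈ Ico 1 R0, ((∑ s ∈ range (2 * r + 1), (TT A q₀ s r).card * 2 ^ (n - r) : ℕ) : ℝ) := by
      exact_mod_cast h1
    refine h1'.trans ((sum_le_sum h2).trans ?_)
    rw [← mul_sum]
    apply mul_le_mul_of_nonneg_left _ (by positivity)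
    have h8 : ∑ r ∈ Ico 1 R0, ((1 : ℝ) / 64) ^ r ≤ 1 / 63 := by
      rw [geom_sum_Ico (by norm_num) (by omega)]
      have : (0 : ℝ) ≤ (1 / 64) ^ R0 := by positivity
      rw [div_le_iff_of_neg (by norm_num)]
      norm_num at this ⊢
    exact h8
  -- conclude
  have hmain := card_NR_le (A := A) q₀
  have htw := card_TW (A := A) q₀ (hk' ▸ hk)
  rw [hsplit, ← hn'] at hmain
  rw [← ha] at htw
  have hmain' : (2 : ℝ) * (NR A q₀).card ≤ 2 ^ n * (TW A q₀).card +
      2 * (((∑ x ∈ Tl, 2 ^ ncl x.1 x.2.1 x.2.2 : ℕ) : ℝ) +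
        ((∑ x ∈ Th, 2 ^ ncl x.1 x.2.1 x.2.2 : ℕ) : ℝ)) := by
    exact_mod_cast hmain
  have htw' : (2 : ℝ) ^ n * (TW A q₀).card ≤ 2 ^ n * a := by
    apply mul_le_mul_of_nonneg_left _ (by positivity)
    exact_mod_cast htw
  have hhigh' : (64 : ℝ) * ((∑ x ∈ Th, 2 ^ ncl x.1 x.2.1 x.2.2 : ℕ) : ℝ) ≤ 2 ^ n * a := by
    exact_mod_cast hhigh
  have hpos : (0 : ℝ) ≤ 2 ^ n * a := by positivity
  have hfin : (4 : ℝ) * (NR A q₀).card ≤ 3 * (2 ^ n * a) := by
    linarith only [hmain', htw', hhigh', hlowsum, hpos]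
  exact_mod_cast hfin

end Pool.Agent.SC
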