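import Pool.Agent.W_MP_6663ab_lc.Tests

/-!
# Summing over all configurations
-/

namespace Pool.Agent.SC

open Finset Filter Topology

universe u v w

section analysis

/-- weights -/
noncomputable def gg (k : ℕ) : ℕ → ℝ
  | 0 => 1
  | d + 1 => (7 / 8 : ℝ) ^ (k ^ d)

lemma gg_nonneg (k d : ℕ) : 0 ≤ gg k d := by
  cases d with
  | zero => simp [gg]
  | succ d => simp only [gg]; positivity

lemma natCast_le_exp (y : ℕ) : (y : ℝ) ≤ Real.exp y := by
  have := Real.add_one_le_exp (y : ℝ)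
  linarith

lemma KK_le (k m x : ℕ) : ∃ C : ℝ, 0 ≤ C ∧ ∀ D : ℕ,
    (KK k m x D : ℝ) ≤ Real.exp (C * ((D : ℝ) + 1) ^ 2) := by
  refine ⟨2 * x * (m + 1 + k) + 2 * (m + 2 * x) ^ 2, by positivity, fun D => ?_⟩
  have h1 : ((m * ((D + 1) * k ^ D) : ℕ) : ℝ) ≤ Real.exp (((m : ℝ) + 1 + k) * (D + 1)) := by
    push_cast
    have hm := natCast_le_exp m
    have hD := natCast_le_exp (D + 1)
    have hk := natCast_le_exp k
    push_cast at hD
    calc (m : ℝ) * (((D : ℝ) + 1) * (k : ℝ) ^ D)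
        ≤ Real.exp m * (Real.exp (D + 1) * (Real.exp k) ^ D) := by gcongr
      _ = Real.exp (m + ((D + 1) + D * k)) := by
          rw [← Real.exp_nat_mul, ← Real.exp_add, ← Real.exp_add]
      _ ≤ Real.exp (((m : ℝ) + 1 + k) * (D + 1)) := by
          apply Real.exp_le_exp.2
          have h5 : 0 ≤ (m : ℝ) * D := by positivity
          have h6 : 0 ≤ (k : ℝ) := by positivity
          linarith only [h5, h6]
  have h2 : ((2 * (m + x * (2 * (D + 1))) : ℕ) : ℝ) ≤
      Real.exp (2 * (((m : ℝ) + 2 * x) * (D + 1))) := by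
    refine le_trans (natCast_le_exp _) (Real.exp_le_exp.2 ?_)
    push_cast
    have h5 : 0 ≤ (m : ℝ) * D := by positivity
    linarith only [h5]
  have h3 : ((m + x * (2 * (D + 1)) : ℕ) : ℝ) ≤ ((m : ℝ) + 2 * x) * (D + 1) := by
    push_cast
    have h5 : 0 ≤ (m : ℝ) * D := by positivity
    linarith only [h5]
  have hD1 : (1 : ℝ) ≤ (D : ℝ) + 1 := by
    have : (0 : ℝ) ≤ D := by positivity
    linarith
  unfold KK
  rw [Nat.cast_mul, Nat.cast_pow, Nat.cast_pow]
  calc ((m * ((D + 1) * k ^ D) : ℕ) : ℝ) ^ (2 * x) *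
        ((2 * (m + x * (2 * (D + 1))) : ℕ) : ℝ) ^ (m + x * (2 * (D + 1)))
      ≤ (Real.exp (((m : ℝ) + 1 + k) * (D + 1))) ^ (2 * x) *
        (Real.exp (2 * (((m : ℝ) + 2 * x) * (D + 1)))) ^ (m + x * (2 * (D + 1))) := by
        gcongr
    _ = Real.exp (((2 * x : ℕ) : ℝ) * (((m : ℝ) + 1 + k) * (D + 1)) +
        ((m + x * (2 * (D + 1)) : ℕ) : ℝ) * (2 * (((m : ℝ) + 2 * x) * (D + 1)))) := by
        rw [← Real.exp_nat_mul, ← Real.exp_nat_mul, ← Real.exp_add]
    _ ≤ Real.exp ((2 * x * (m + 1 + k) + 2 * (m + 2 * x) ^ 2) * ((D : ℝ) + 1) ^ 2) := by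
        apply Real.exp_le_exp.2
        have e1 : ((m + x * (2 * (D + 1)) : ℕ) : ℝ) * (2 * (((m : ℝ) + 2 * x) * (D + 1))) ≤
            (((m : ℝ) + 2 * x) * (D + 1)) * (2 * (((m : ℝ) + 2 * x) * (D + 1))) := by
          gcongr
        have e2 : ((2 * x : ℕ) : ℝ) * (((m : ℝ) + 1 + k) * (D + 1)) ≤
            2 * x * (m + 1 + k) * ((D : ℝ) + 1) ^ 2 := by
          push_cast
          have h4 : 0 ≤ 2 * (x : ℝ) * (m + 1 + k) := by positivity
          have h5 := mul_le_mul_of_nonneg_left hD1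
            (mul_nonneg h4 (by linarith only [hD1] : (0 : ℝ) ≤ (D : ℝ) + 1))
          linarith only [h5]
        linarith only [e1, e2]

/-- the total constant -/
noncomputable def KT (k D : ℕ) : ℕ := KK k 1 2 D + KK k 2 2 D + KK k 1 1 D * KK k 2 1 D

lemma KT_le (k : ℕ) : ∃ C : ℝ, 0 ≤ C ∧ ∀ D : ℕ,
    (KT k D : ℝ) ≤ 3 * Real.exp (C * ((D : ℝ) + 1) ^ 2) := by
  obtain ⟨C1, h1, H1⟩ := KK_le k 1 2
  obtain ⟨C2, h2, H2⟩ := KK_le k 2 2
  obtain ⟨C3, h3, H3⟩ := KK_le k 1 1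
  obtain ⟨C4, h4, H4⟩ := KK_le k 2 1
  refine ⟨C1 + C2 + (C3 + C4), by positivity, fun D => ?_⟩
  have hs : 0 ≤ ((D : ℝ) + 1) ^ 2 := by positivity
  unfold KT
  push_cast
  have e1 : (KK k 1 2 D : ℝ) ≤ Real.exp ((C1 + C2 + (C3 + C4)) * ((D : ℝ) + 1) ^ 2) :=
    le_trans (H1 D) (Real.exp_le_exp.2 (mul_le_mul_of_nonneg_right (by linarith) hs))
  have e2 : (KK k 2 2 D : ℝ) ≤ Real.exp ((C1 + C2 + (C3 + C4)) * ((D : ℝ) + 1) ^ 2) :=
    le_trans (H2 D) (Real.exp_le_exp.2 (mul_le_mul_of_nonneg_right (by linarith) hs))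
  have e3 : (KK k 1 1 D : ℝ) * (KK k 2 1 D : ℝ) ≤
      Real.exp ((C1 + C2 + (C3 + C4)) * ((D : ℝ) + 1) ^ 2) := by
    calc (KK k 1 1 D : ℝ) * (KK k 2 1 D : ℝ)
        ≤ Real.exp (C3 * ((D : ℝ) + 1) ^ 2) * Real.exp (C4 * ((D : ℝ) + 1) ^ 2) := by
          gcongr
          · exact H3 D
          · exact H4 D
      _ = Real.exp ((C3 + C4) * ((D : ℝ) + 1) ^ 2) := by rw [← Real.exp_add, ← add_mul]
      _ ≤ _ := Real.exp_le_exp.2 (mul_le_mul_of_nonneg_right (by linarith) hs)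
  linarith

lemma summable_KT (k : ℕ) (hk : 2 ≤ k) :
    Summable fun d : ℕ => (KT k (d + 1) : ℝ) * gg k d := by
  obtain ⟨C, hC, H⟩ := KT_le k
  set c0 : ℝ := Real.log (8 / 7) with hc0
  have hc0pos : 0 < c0 := Real.log_pos (by norm_num)
  -- eventually `C (d+3)^2 + d ≤ c0 2^d`
  have hev : ∀ᶠ d : ℕ in atTop, C * ((d : ℝ) + 3) ^ 2 + (d + 1) ≤ c0 * 2 ^ d := by
    have ht := tendsto_pow_const_div_const_pow_of_one_lt 2 (r := (2 : ℝ)) (by norm_num)
    have hε : 0 < c0 / (16 * C + 2) := by positivity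
    have h1 := ht.eventually (gt_mem_nhds hε)
    filter_upwards [h1, eventually_ge_atTop 1] with d hd hd1
    have hd1' : (1 : ℝ) ≤ d := by exact_mod_cast hd1
    have h2 : (d : ℝ) ^ 2 < c0 / (16 * C + 2) * 2 ^ d := by
      rwa [div_lt_iff₀ (by positivity)] at hd
    have h3 : (16 * C + 2) * (d : ℝ) ^ 2 < c0 * 2 ^ d := by
      have h4 := mul_lt_mul_of_pos_left h2 (show (0 : ℝ) < 16 * C + 2 by positivity)
      have h5 : (16 * C + 2) * (c0 / (16 * C + 2) * 2 ^ d) = c0 * 2 ^ d := by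
        field_simp
      linarith
    have h6 : C * ((d : ℝ) + 3) ^ 2 ≤ 16 * C * (d : ℝ) ^ 2 := by
      have h7 : ((d : ℝ) + 3) ^ 2 ≤ 16 * (d : ℝ) ^ 2 := by nlinarith only [hd1']
      have h8 := mul_le_mul_of_nonneg_left h7 hC
      linarith only [h8]
    have h9 : (d : ℝ) ≤ (d : ℝ) ^ 2 := by nlinarith only [hd1']
    linarith only [h3, h6, h9, hd1']
  obtain ⟨d0, hd0⟩ := eventually_atTop.1 hev
  rw [← summable_nat_add_iff (d0 + 1)]
  have hgeo : Summable fun n : ℕ => 3 * Real.exp (-(n : ℝ)) :=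
    Real.summable_exp_neg_nat.mul_left 3
  refine Summable.of_nonneg_of_le (fun n => ?_) (fun n => ?_) hgeo
  · exact mul_nonneg (Nat.cast_nonneg _) (gg_nonneg _ _)
  · have h1 := hd0 (n + d0) (by omega)
    have e1 : n + (d0 + 1) = (n + d0) + 1 := by ring
    rw [e1]
    set d := n + d0 with hd
    have hnd : (n : ℝ) ≤ d := by rw [hd]; push_cast; linarith [(Nat.cast_nonneg d0 : (0 : ℝ) ≤ d0)]
    have h2 := H (d + 1 + 1)
    have h3 : gg k (d + 1) ≤ Real.exp (-(c0 * 2 ^ d)) := by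
      simp only [gg]
      have h4 : (7 / 8 : ℝ) = Real.exp (-c0) := by
        rw [hc0, Real.exp_neg, Real.exp_log (by norm_num)]; norm_num
      calc (7 / 8 : ℝ) ^ (k ^ d) ≤ (7 / 8 : ℝ) ^ (2 ^ d) :=
            pow_le_pow_of_le_one (by norm_num) (by norm_num) (Nat.pow_le_pow_left hk d)
        _ = Real.exp (-(c0 * 2 ^ d)) := by
            rw [h4, ← Real.exp_nat_mul]
            congr 1
            push_cast
            ring
    calc (KT k (d + 1 + 1) : ℝ) * gg k (d + 1)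
        ≤ (3 * Real.exp (C * (((d + 1 + 1 : ℕ) : ℝ) + 1) ^ 2)) * Real.exp (-(c0 * 2 ^ d)) := by
          apply mul_le_mul h2 h3 (gg_nonneg _ _) (by positivity)
      _ = 3 * Real.exp (C * ((d : ℝ) + 3) ^ 2 - c0 * 2 ^ d) := by
          rw [mul_assoc, ← Real.exp_add]
          congr 3
          push_cast
          ring
      _ ≤ 3 * Real.exp (-(n : ℝ)) := by
          gcongr
          linarith

lemma tendsto_gg (k : ℕ) (hk : 2 ≤ k) : Tendsto (gg k) atTop (𝓝 0) := by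
  rw [← tendsto_add_atTop_iff_nat 1]
  have h1 : Tendsto (fun d : ℕ => k ^ d) atTop atTop :=
    tendsto_pow_atTop_atTop_of_one_lt (by omega)
  have h2 : Tendsto (fun n : ℕ => (7 / 8 : ℝ) ^ n) atTop (𝓝 0) :=
    tendsto_pow_atTop_nhds_zero_of_lt_one (by norm_num) (by norm_num)
  exact h2.comp h1

end analysis

variable {A : Type u} {Q : Type v} [Fintype A] [Nonempty A] [Fintype Q] [LinearOrder Q]

omit [Nonempty A] in
lemma tcount_triv (δ δ' : Q → A → Q) (p q q' : Q) :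
    (tcount δ δ' p q q' : ℝ) ≤ 4 ^ Fintype.card Q := by
  classical
  have h : tcount δ δ' p q q' ≤ 4 ^ Fintype.card Q := by
    unfold tcount
    refine le_trans (card_filter_le _ _) ?_
    rw [card_univ, Fintype.card_prod, Fintype.card_fun, Fintype.card_bool, ← mul_pow]
    norm_num
  exact_mod_cast h

open Classical in
/-- the bound for fixed transition structures -/
theorem tcount_sum (hk : 2 ≤ Fintype.card A) (δ δ' : Q → A → Q) {p q q' : Q} (hq : q ≠ q')
    (D : ℕ) :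
    (tcount δ δ' p q q' : ℝ) ≤ 4 ^ Fintype.card Q *
      (∑ d ∈ range D, (if Bad δ δ' ![p] ![q, q'] (d + 1) then gg (Fintype.card A) d else 0) +
        gg (Fintype.card A) D) := by
  induction D with
  | zero =>
    rw [range_zero, sum_empty, zero_add]
    simp only [gg, mul_one]
    exact tcount_triv δ δ' p q q'
  | succ D ih =>
    have h4 : (0 : ℝ) ≤ 4 ^ Fintype.card Q := by positivity
    by_cases hb : Bad δ δ' ![p] ![q, q'] (D + 1)
    · refine le_trans ih (mul_le_mul_of_nonneg_left ?_ h4)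
      rw [sum_range_succ, if_pos hb]
      have := gg_nonneg (Fintype.card A) (D + 1)
      linarith
    · have h1 := tcount_le (p := p) hk hq (d := D) hb
      have h2 : (tcount δ δ' p q q' : ℝ) * 8 ^ (Fintype.card A ^ D) ≤
          7 ^ (Fintype.card A ^ D) * 4 ^ Fintype.card Q := by exact_mod_cast h1
      have h3 : (tcount δ δ' p q q' : ℝ) ≤
          4 ^ Fintype.card Q * gg (Fintype.card A) (D + 1) := by
        simp only [gg]
        rw [div_pow, mul_div_assoc', le_div_iff₀ (by positivity)]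
        linarith
      refine le_trans h3 (mul_le_mul_of_nonneg_left ?_ h4)
      have : 0 ≤ ∑ d ∈ range (D + 1),
          (if Bad δ δ' ![p] ![q, q'] (d + 1) then gg (Fintype.card A) d else 0) := by
        apply sum_nonneg
        intro d _
        split_ifs
        · exact gg_nonneg _ _
        · exact le_rfl
      linarith

/-- configurations -/
noncomputable def Cfg (A : Type u) [Fintype A] (q₀ : Q) :
    Finset (((Q → A → Q) × Q) × ((Q → A → Q) × (Q × Q))) :=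
  ((AccF A q₀) ×ˢ univ) ×ˢ ((AccF A q₀) ×ˢ (univ : Finset Q).offDiag)

open Classical in
lemma card_one (q₀ : Q) (x D : ℕ) :
    (((AccF A q₀) ×ˢ (univ : Finset Q)).filter fun y => ExD y.1 ![y.2] x D).card *
      Fintype.card Q ^ x ≤ KK (Fintype.card A) 1 x D *
        (Fintype.card Q * (AccF A q₀).card) := by
  have h := card_ExD (A := A) q₀ (m := 1) one_pos x D
  rw [pow_one] at h
  refine le_trans (Nat.mul_le_mul_right _ ?_) h
  apply card_le_card_of_injOn fun y : (Q → A → Q) × Q => (y.1, (![y.2] : Fin 1 → Q))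
  · rintro ⟨δ, p⟩ h
    rw [mem_coe, mem_filter, mem_product] at h
    rw [mem_coe, mem_filter, mem_product]
    exact ⟨⟨h.1.1, mem_univ _⟩, h.2⟩
  · rintro ⟨δ, p⟩ _ ⟨δ', p'⟩ _ h
    simp only [Prod.mk.injEq] at h
    have := congrFun h.2 0
    simp only [Matrix.cons_val_zero] at this
    rw [h.1, this]

open Classical in
lemma card_two (q₀ : Q) (x D : ℕ) :
    (((AccF A q₀) ×ˢ (univ : Finset Q).offDiag).filter fun y => ExD y.1 ![y.2.1, y.2.2] x D).card *
      Fintype.card Q ^ x ≤ KK (Fintype.card A) 2 x D *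
        (Fintype.card Q ^ 2 * (AccF A q₀).card) := by
  have h := card_ExD (A := A) q₀ (m := 2) two_pos x D
  refine le_trans (Nat.mul_le_mul_right _ ?_) h
  apply card_le_card_of_injOn fun y : (Q → A → Q) × (Q × Q) => (y.1, (![y.2.1, y.2.2] : Fin 2 → Q))
  · rintro ⟨δ, p⟩ h
    rw [mem_coe, mem_filter, mem_product] at h
    rw [mem_coe, mem_filter, mem_product]
    exact ⟨⟨h.1.1, mem_univ _⟩, h.2⟩
  · rintro ⟨δ, p, p'⟩ _ ⟨δ', r, r'⟩ _ h
    simp only [Prod.mk.injEq] at h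
    have h0 := congrFun h.2 0
    have h1 := congrFun h.2 1
    simp only [Matrix.cons_val_zero, Matrix.cons_val_one] at h0 h1
    rw [h.1, h0, h1]

open Classical in
lemma card_Bad (q₀ : Q) (D : ℕ) :
    ((Cfg A q₀).filter fun c => Bad c.1.1 c.2.1 ![c.1.2] ![c.2.2.1, c.2.2.2] D).card ≤
      KT (Fintype.card A) D * (Fintype.card Q * (AccF A q₀).card ^ 2) := by
  set n := Fintype.card Q with hn
  have hnpos : 0 < n := Fintype.card_pos_iff.2 ⟨q₀⟩
  set N := (AccF A q₀).card with hN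
  set k := Fintype.card A
  set X1 := (AccF A q₀) ×ˢ (univ : Finset Q) with hX1
  set X2 := (AccF A q₀) ×ˢ (univ : Finset Q).offDiag with hX2
  have hcX1 : X1.card = N * n := by rw [hX1, card_product, card_univ]
  have hcX2 : X2.card ≤ N * n ^ 2 := by
    rw [hX2, card_product]
    refine Nat.mul_le_mul_left _ ?_
    rw [offDiag_card, card_univ, ← hn, sq]
    exact Nat.sub_le _ _
  set a1 := (X1.filter fun y => ExD y.1 ![y.2] 1 D).card with ha1
  set a2 := (X1.filter fun y => ExD y.1 ![y.2] 2 D).card with ha2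
  set b1 := (X2.filter fun y => ExD y.1 ![y.2.1, y.2.2] 1 D).card with hb1
  set b2 := (X2.filter fun y => ExD y.1 ![y.2.1, y.2.2] 2 D).card with hb2
  have Ha1 : a1 * n ^ 1 ≤ KK k 1 1 D * (n * N) := card_one q₀ 1 D
  have Ha2 : a2 * n ^ 2 ≤ KK k 1 2 D * (n * N) := card_one q₀ 2 D
  have Hb1 : b1 * n ^ 1 ≤ KK k 2 1 D * (n ^ 2 * N) := card_two q₀ 1 D
  have Hb2 : b2 * n ^ 2 ≤ KK k 2 2 D * (n ^ 2 * N) := card_two q₀ 2 D
  have hsub : ((Cfg A q₀).filter fun c => Bad c.1.1 c.2.1 ![c.1.2] ![c.2.2.1, c.2.2.2] D) ⊆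
      ((X1.filter fun y => ExD y.1 ![y.2] 2 D) ×ˢ X2) ∪
      ((X1 ×ˢ (X2.filter fun y => ExD y.1 ![y.2.1, y.2.2] 2 D)) ∪
      ((X1.filter fun y => ExD y.1 ![y.2] 1 D) ×ˢ
        (X2.filter fun y => ExD y.1 ![y.2.1, y.2.2] 1 D))) := by
    intro c hc
    rw [mem_filter, Cfg, mem_product] at hc
    obtain ⟨⟨h1, h2⟩, h3⟩ := hc
    rcases h3 with h3 | h3 | h3
    · exact mem_union_left _ (mem_product.2 ⟨mem_filter.2 ⟨h1, h3⟩, h2⟩)
    · exact mem_union_right _ (mem_union_left _ (mem_product.2 ⟨h1, mem_filter.2 ⟨h2, h3⟩⟩))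
    · exact mem_union_right _ (mem_union_right _
        (mem_product.2 ⟨mem_filter.2 ⟨h1, h3.1⟩, mem_filter.2 ⟨h2, h3.2⟩⟩))
  have hcard := card_le_card hsub
  refine Nat.le_of_mul_le_mul_right ?_ (Nat.pow_pos (n := 2) hnpos)
  calc ((Cfg A q₀).filter fun c => Bad c.1.1 c.2.1 ![c.1.2] ![c.2.2.1, c.2.2.2] D).card * n ^ 2
      ≤ (a2 * (N * n ^ 2) + (N * n * b2 + a1 * b1)) * n ^ 2 := by
        refine Nat.mul_le_mul_right _ (le_trans hcard ?_)
        refine le_trans (card_union_le _ _) (Nat.add_le_add ?_ ?_)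
        · rw [card_product]; exact Nat.mul_le_mul_left _ hcX2
        · refine le_trans (card_union_le _ _) (Nat.add_le_add ?_ ?_)
          · rw [card_product, hcX1]
          · rw [card_product]
    _ = (a2 * n ^ 2) * (N * n ^ 2) + ((b2 * n ^ 2) * (N * n) + (a1 * n ^ 1) * (b1 * n ^ 1)) := by
        ring
    _ ≤ (KK k 1 2 D * (n * N)) * (N * n ^ 2) + ((KK k 2 2 D * (n ^ 2 * N)) * (N * n) +
        (KK k 1 1 D * (n * N)) * (KK k 2 1 D * (n ^ 2 * N))) :=
        Nat.add_le_add (Nat.mul_le_mul_right _ Ha2)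
          (Nat.add_le_add (Nat.mul_le_mul_right _ Hb2) (Nat.mul_le_mul Ha1 Hb1))
    _ = KT k D * (n * N ^ 2) * n ^ 2 := by
        unfold KT; ring

/-- **(IV')** -/
theorem sum_tcount (A : Type u) [Fintype A] (hk : 2 ≤ Fintype.card A) :
    ∃ C : ℝ, 0 ≤ C ∧ ∀ (Q : Type v) [Fintype Q] [LinearOrder Q] (q₀ : Q),
      ∑ c ∈ Cfg A q₀, (tcount c.1.1 c.2.1 c.1.2 c.2.2.1 c.2.2.2 : ℝ) ≤
        C * (4 ^ Fintype.card Q * (Fintype.card Q * (AccF A q₀).card ^ 2)) := by
  classical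
  have hA : Nonempty A := Fintype.card_pos_iff.1 (by omega)
  refine ⟨∑' d, (KT (Fintype.card A) (d + 1) : ℝ) * gg (Fintype.card A) d,
    tsum_nonneg fun d => mul_nonneg (Nat.cast_nonneg _) (gg_nonneg _ _), ?_⟩
  intro Q _ _ q₀
  set k := Fintype.card A with hkk
  set n := Fintype.card Q with hn
  set N := (AccF A q₀).card with hN
  have hsum := summable_KT k hk
  -- the bound for every `D`
  have key : ∀ D : ℕ, ∑ c ∈ Cfg A q₀, (tcount c.1.1 c.2.1 c.1.2 c.2.2.1 c.2.2.2 : ℝ) ≤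
      (∑' d, (KT k (d + 1) : ℝ) * gg k d) * (4 ^ n * (n * N ^ 2)) +
        (Cfg A q₀).card * 4 ^ n * gg k D := by
    intro D
    calc ∑ c ∈ Cfg A q₀, (tcount c.1.1 c.2.1 c.1.2 c.2.2.1 c.2.2.2 : ℝ)
        ≤ ∑ c ∈ Cfg A q₀, 4 ^ n * (∑ d ∈ range D,
            (if Bad c.1.1 c.2.1 ![c.1.2] ![c.2.2.1, c.2.2.2] (d + 1) then gg k d else 0) +
            gg k D) := by
          apply sum_le_sum
          intro c hc
          rw [Cfg, mem_product, mem_product, mem_product, mem_offDiag] at hc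
          exact tcount_sum hk c.1.1 c.2.1 hc.2.2.2.2 D
      _ = 4 ^ n * (∑ d ∈ range D, ((Cfg A q₀).filter fun c =>
            Bad c.1.1 c.2.1 ![c.1.2] ![c.2.2.1, c.2.2.2] (d + 1)).card * gg k d) +
            (Cfg A q₀).card * 4 ^ n * gg k D := by
          rw [← mul_sum, sum_add_distrib, sum_comm, sum_const, nsmul_eq_mul]
          have : ∀ d, ∑ c ∈ Cfg A q₀,
              (if Bad c.1.1 c.2.1 ![c.1.2] ![c.2.2.1, c.2.2.2] (d + 1) then gg k d else 0) =
              ((Cfg A q₀).filter fun c =>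
                Bad c.1.1 c.2.1 ![c.1.2] ![c.2.2.1, c.2.2.2] (d + 1)).card * gg k d := by
            intro d
            rw [← sum_filter, sum_const, nsmul_eq_mul]
          simp only [this]
          ring
      _ ≤ 4 ^ n * (∑ d ∈ range D, (KT k (d + 1) * (n * N ^ 2)) * gg k d) +
            (Cfg A q₀).card * 4 ^ n * gg k D := by
          refine add_le_add (mul_le_mul_of_nonneg_left (sum_le_sum fun d _ =>
            mul_le_mul_of_nonneg_right ?_ (gg_nonneg _ _)) (pow_nonneg (by norm_num) _)) le_rfl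
          have := card_Bad (A := A) q₀ (d + 1)
          exact_mod_cast this
      _ = (∑ d ∈ range D, (KT k (d + 1) : ℝ) * gg k d) * (4 ^ n * (n * N ^ 2)) +
            (Cfg A q₀).card * 4 ^ n * gg k D := by
          rw [mul_sum, sum_mul]
          congr 1
          apply sum_congr rfl
          intro d _
          ring
      _ ≤ (∑' d, (KT k (d + 1) : ℝ) * gg k d) * (4 ^ n * (n * N ^ 2)) +
            (Cfg A q₀).card * 4 ^ n * gg k D := by
          refine add_le_add (mul_le_mul_of_nonneg_right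
            (hsum.sum_le_tsum _ fun d _ => mul_nonneg (Nat.cast_nonneg _) (gg_nonneg _ _))
            (mul_nonneg (pow_nonneg (by norm_num) _)
              (mul_nonneg (Nat.cast_nonneg _) (sq_nonneg _)))) le_rfl
  have hlim : Tendsto (fun D : ℕ => (∑' d, (KT k (d + 1) : ℝ) * gg k d) * (4 ^ n * (n * N ^ 2)) +
        (Cfg A q₀).card * 4 ^ n * gg k D) atTop
        (𝓝 ((∑' d, (KT k (d + 1) : ℝ) * gg k d) * (4 ^ n * (n * N ^ 2)) +
        (Cfg A q₀).card * 4 ^ n * 0)) :=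
    tendsto_const_nhds.add ((tendsto_gg k hk).const_mul _)
  rw [mul_zero, add_zero] at hlim
  exact ge_of_tendsto' hlim key

end Pool.Agent.SC
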