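import Pool.Agent.W_MP_6663ab_lc.Collide
import Pool.Agent.W_MP_6663ab_lc.MinProb
import Pool.Agent.W_MP_6663ab_lc.TestSum

/-!
# Assembly: the quadratic lower bound for pairs of labelled minimal automata
-/

namespace Pool.Agent.SC

open Finset

universe u v w

section general

lemma card_sq_le_image {α : Type*} {β : Type*} [DecidableEq β] (s : Finset α) (f : α → β) :
    (s.card : ℝ) ^ 2 ≤
      ((s.image f).card : ℝ) * (((s ×ˢ s).filter fun x => f x.1 = f x.2).card : ℝ) := by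
  classical
  have h1 : (s.card : ℝ) = ∑ c ∈ s.image f, ((s.filter fun x => f x = c).card : ℝ) := by
    exact_mod_cast card_eq_sum_card_image f s
  have h2 : (((s ×ˢ s).filter fun x => f x.1 = f x.2).card : ℝ) =
      ∑ c ∈ s.image f, ((s.filter fun x => f x = c).card : ℝ) ^ 2 := by
    have h3 : ((s ×ˢ s).filter fun x => f x.1 = f x.2).card =
        ∑ c ∈ s.image f, (((s ×ˢ s).filter fun x => f x.1 = f x.2).filter
          fun x => f x.1 = c).card := by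
      apply card_eq_sum_card_fiberwise
      intro x hx
      rw [mem_coe, mem_filter, mem_product] at hx
      exact mem_coe.2 (mem_image_of_mem _ hx.1.1)
    rw [h3]
    push_cast
    apply sum_congr rfl
    intro c _
    rw [pow_two, ← Nat.cast_mul, ← card_product]
    congr 2
    ext x
    simp only [mem_filter, mem_product]
    constructor
    · rintro ⟨⟨⟨h1, h2⟩, h3⟩, h4⟩
      exact ⟨⟨h1, h4⟩, h2, h3 ▸ h4⟩
    · rintro ⟨⟨h1, h4⟩, h2, h3⟩
      exact ⟨⟨⟨h1, h2⟩, h4.trans h3.symm⟩, h4⟩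
  rw [h1, h2]
  exact sq_sum_le_card_mul_sum_sq

end general

variable {A : Type u} {Q : Type v}

/-- language accepted by the product automaton from a pair of states -/
def lgI (M M' : (Q → A → Q) × (Q → Bool)) (x : Q × Q) : List A → Bool :=
  fun w => M.2 (run M.1 x.1 w) && M'.2 (run M'.1 x.2 w)

variable [Fintype A] [Fintype Q] [LinearOrder Q]

open Classical in
/-- labelled minimal (accessible and reduced) automata -/
noncomputable def MinF (A : Type u) [Fintype A] (q₀ : Q) : Finset ((Q → A → Q) × (Q → Bool)) :=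
  univ.filter fun x => Acc q₀ x.1 ∧ ∀ p q, Eqv x.1 x.2 p q → p = q

lemma mem_MinF {q₀ : Q} {x : (Q → A → Q) × (Q → Bool)} :
    x ∈ MinF A q₀ ↔ Acc q₀ x.1 ∧ ∀ p q, Eqv x.1 x.2 p q → p = q := by
  classical
  simp only [MinF, mem_filter, mem_univ, true_and]

/-- accessible automata -/
noncomputable def AM (A : Type u) [Fintype A] (q₀ : Q) : Finset ((Q → A → Q) × (Q → Bool)) :=
  (AccF A q₀) ×ˢ univ

lemma MinF_sub [Nonempty A] (q₀ : Q) : MinF A q₀ ⊆ AM A q₀ := by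
  intro x hx
  rw [AM, mem_product]
  exact ⟨mem_AccF.2 (mem_MinF.1 hx).1, mem_univ _⟩

lemma card_AM (q₀ : Q) : (AM A q₀).card = 2 ^ Fintype.card Q * (AccF A q₀).card := by
  rw [AM, card_product, card_univ, Fintype.card_fun, Fintype.card_bool, mul_comm]

lemma card_MinF_NR [Nonempty A] (q₀ : Q) : (MinF A q₀).card + (NR A q₀).card = (AM A q₀).card := by
  classical
  have h1 : MinF A q₀ = (AM A q₀).filter fun x => ¬ ∃ p q, p ≠ q ∧ Eqv x.1 x.2 p q := by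
    ext x
    rw [mem_MinF, mem_filter, AM, mem_product, mem_AccF]
    constructor
    · rintro ⟨h1, h2⟩
      exact ⟨⟨h1, mem_univ _⟩, fun ⟨p, q, h3, h4⟩ => h3 (h2 p q h4)⟩
    · rintro ⟨⟨h1, -⟩, h2⟩
      refine ⟨h1, fun p q h3 => ?_⟩
      by_contra h4
      exact h2 ⟨p, q, h4, h3⟩
  have h2 : NR A q₀ = (AM A q₀).filter fun x => ∃ p q, p ≠ q ∧ Eqv x.1 x.2 p q := by
    ext x
    rw [mem_NR, mem_filter, AM, mem_product, mem_AccF]
    constructor
    · rintro ⟨h1, h2⟩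
      exact ⟨⟨h1, mem_univ _⟩, h2⟩
    · rintro ⟨⟨h1, -⟩, h2⟩
      exact ⟨h1, h2⟩
  rw [h1, h2, add_comm]
  exact card_filter_add_card_filter_not _

open Classical in
/-- reachable pairs of states -/
noncomputable def reachI (q₀ : Q) (δ δ' : Q → A → Q) : Finset (Q × Q) :=
  univ.filter fun x => ∃ w : List A, (run δ q₀ w, run δ' q₀ w) = x

open Classical in
/-- number of pairwise inequivalent reachable states of the product automaton -/
noncomputable def scI (q₀ : Q) (M M' : (Q → A → Q) × (Q → Bool)) : ℕ :=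
  ((reachI q₀ M.1 M'.1).image (lgI M M')).card

open Classical in
/-- states of the product reached by good words -/
noncomputable def RR (q₀ : Q) (l : ℕ) (δ δ' : Q → A → Q) : Finset (Q × Q) :=
  (goodW q₀ l δ δ').image fun w => (run δ q₀ w, run δ' q₀ w)

open Classical in
/-- pairs of distinct equivalent states of the product -/
noncomputable def eqPairs (M M' : (Q → A → Q) × (Q → Bool)) : Finset ((Q × Q) × (Q × Q)) :=
  univ.filter fun x => x.1 ≠ x.2 ∧ lgI M M' x.1 = lgI M M' x.2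

open Classical in
/-- undistinguished triples -/
noncomputable def T1 (M M' : (Q → A → Q) × (Q → Bool)) : Finset (Q × (Q × Q)) :=
  ((univ : Finset Q) ×ˢ (univ : Finset Q).offDiag).filter fun x =>
    NoWit M.1 M.2 M'.1 M'.2 x.1 x.2.1 x.2.2

lemma card_goodW_sq (q₀ : Q) (l : ℕ) (δ δ' : Q → A → Q) :
    ((goodW q₀ l δ δ').card : ℝ) ^ 2 ≤ ((RR q₀ l δ δ').card : ℝ) * ((coll q₀ l δ δ').card : ℝ) := by
  classical
  have := card_sq_le_image (goodW q₀ l δ δ') fun w => (run δ q₀ w, run δ' q₀ w)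
  exact this

lemma card_RR_le (q₀ : Q) (l : ℕ) (δ δ' : Q → A → Q) :
    (RR q₀ l δ δ').card ≤ Fintype.card Q ^ 2 := by
  have := card_le_univ (RR q₀ l δ δ')
  rwa [Fintype.card_prod, ← pow_two] at this

lemma card_RR_sq (q₀ : Q) (l : ℕ) (M M' : (Q → A → Q) × (Q → Bool)) :
    ((RR q₀ l M.1 M'.1).card : ℝ) ^ 2 ≤ (scI q₀ M M' : ℝ) *
      ((Fintype.card Q : ℝ) ^ 2 + ((eqPairs M M').card : ℝ)) := by
  classical
  have h1 := card_sq_le_image (RR q₀ l M.1 M'.1) (lgI M M')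
  refine h1.trans (mul_le_mul ?_ ?_ (by positivity) (by positivity))
  · rw [scI]
    norm_cast
    apply card_le_card
    apply image_subset_image
    intro x hx
    obtain ⟨w, -, rfl⟩ := mem_image.1 hx
    rw [reachI, mem_filter]
    exact ⟨mem_univ _, w, rfl⟩
  · have h2 : ((RR q₀ l M.1 M'.1 ×ˢ RR q₀ l M.1 M'.1).filter
        fun x => lgI M M' x.1 = lgI M M' x.2) ⊆
        ((univ : Finset (Q × Q)).image fun x => (x, x)) ∪ eqPairs M M' := by
      intro x hx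
      rw [mem_filter] at hx
      rw [mem_union]
      by_cases h : x.1 = x.2
      · left
        exact mem_image.2 ⟨x.1, mem_univ _, Prod.ext rfl h⟩
      · right
        rw [eqPairs, mem_filter]
        exact ⟨mem_univ _, h, hx.2⟩
    have h3 := (card_le_card h2).trans (card_union_le _ _)
    have h4 : ((univ : Finset (Q × Q)).image fun x => (x, x)).card ≤ Fintype.card Q ^ 2 := by
      refine card_image_le.trans ?_
      rw [card_univ, Fintype.card_prod, ← pow_two]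
    have h5 := h3.trans (Nat.add_le_add_right h4 _)
    exact_mod_cast h5

lemma card_eqPairs_le (M M' : (Q → A → Q) × (Q → Bool)) :
    (eqPairs M M').card ≤ Fintype.card Q * ((T1 M M').card + (T1 M' M).card) := by
  classical
  have hsub : eqPairs M M' ⊆
      ((univ : Finset Q) ×ˢ (T1 M M')).image (fun y => ((y.2.1, y.2.2.1), (y.1, y.2.2.2))) ∪
      ((univ : Finset Q) ×ˢ (T1 M' M)).image (fun y => ((y.2.2.1, y.2.1), (y.2.2.2, y.1))) := by
    rintro ⟨⟨p, q⟩, ⟨p', q'⟩⟩ hx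
    rw [eqPairs, mem_filter] at hx
    obtain ⟨-, hne, heq⟩ := hx
    simp only at hne heq
    have heq' : ∀ w, (M.2 (run M.1 p w) && M'.2 (run M'.1 q w)) =
        (M.2 (run M.1 p' w) && M'.2 (run M'.1 q' w)) := fun w => congrFun heq w
    rw [mem_union]
    by_cases hq : q = q'
    · right
      have hp : p ≠ p' := by
        rintro rfl
        exact hne (by rw [hq])
      refine mem_image.2 ⟨(q', (q, (p, p'))), ?_, rfl⟩
      rw [mem_product]
      refine ⟨mem_univ _, ?_⟩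
      rw [T1, mem_filter, mem_product, mem_offDiag]
      refine ⟨⟨mem_univ _, mem_univ _, mem_univ _, hp⟩, ?_⟩
      rintro w ⟨h1, h2, h3⟩
      simp only at h1 h2 h3
      have := heq' w
      rw [h1, h2, h3] at this
      simp at this
    · left
      refine mem_image.2 ⟨(p', (p, (q, q'))), ?_, rfl⟩
      rw [mem_product]
      refine ⟨mem_univ _, ?_⟩
      rw [T1, mem_filter, mem_product, mem_offDiag]
      refine ⟨⟨mem_univ _, mem_univ _, mem_univ _, hq⟩, ?_⟩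
      rintro w ⟨h1, h2, h3⟩
      simp only at h1 h2 h3
      have := heq' w
      rw [h1, h2, h3] at this
      simp at this
  refine (card_le_card hsub).trans ((card_union_le _ _).trans ?_)
  refine (Nat.add_le_add card_image_le card_image_le).trans ?_
  rw [card_product, card_product, card_univ]
  apply le_of_eq
  ring

lemma sum_T1 (q₀ : Q) : ∑ M ∈ AM A q₀, ∑ M' ∈ AM A q₀, ((T1 M M').card : ℝ) =
    ∑ c ∈ Cfg A q₀, (tcount c.1.1 c.2.1 c.1.2 c.2.2.1 c.2.2.2 : ℝ) := by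
  classical
  rw [AM, Cfg]
  simp only [sum_product]
  apply sum_congr rfl
  intro δ _
  have h1 : ∀ F : Q → Bool, ∀ δ' : Q → A → Q, ∀ F' : Q → Bool,
      ((T1 (δ, F) (δ', F')).card : ℝ) = ∑ p : Q, ∑ x ∈ (univ : Finset Q).offDiag,
        (if NoWit δ F δ' F' p x.1 x.2 then (1 : ℝ) else 0) := by
    intro F δ' F'
    rw [T1, card_filter, sum_product]
    push_cast
    rfl
  have h2 : ∀ p : Q, ∀ δ' : Q → A → Q, ∀ x : Q × Q,
      (tcount δ δ' p x.1 x.2 : ℝ) = ∑ F : Q → Bool, ∑ F' : Q → Bool,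
        (if NoWit δ F δ' F' p x.1 x.2 then (1 : ℝ) else 0) := by
    intro p δ' x
    rw [tcount, card_filter, ← univ_product_univ, sum_product]
    push_cast
    rfl
  simp_rw [h1, h2]
  -- reorder
  have e1 : ∀ F : Q → Bool, ∑ δ' ∈ AccF A q₀, ∑ F' : Q → Bool, ∑ p : Q,
      ∑ x ∈ (univ : Finset Q).offDiag, (if NoWit δ F δ' F' p x.1 x.2 then (1 : ℝ) else 0) =
      ∑ p : Q, ∑ δ' ∈ AccF A q₀, ∑ x ∈ (univ : Finset Q).offDiag, ∑ F' : Q → Bool,
        (if NoWit δ F δ' F' p x.1 x.2 then (1 : ℝ) else 0) := by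
    intro F
    calc _ = ∑ δ' ∈ AccF A q₀, ∑ p : Q, ∑ F' : Q → Bool,
          ∑ x ∈ (univ : Finset Q).offDiag,
            (if NoWit δ F δ' F' p x.1 x.2 then (1 : ℝ) else 0) :=
          sum_congr rfl fun δ' _ => sum_comm
      _ = ∑ p : Q, ∑ δ' ∈ AccF A q₀, ∑ F' : Q → Bool,
          ∑ x ∈ (univ : Finset Q).offDiag,
            (if NoWit δ F δ' F' p x.1 x.2 then (1 : ℝ) else 0) := sum_comm
      _ = _ := sum_congr rfl fun p _ => sum_congr rfl fun δ' _ => sum_comm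
  rw [sum_congr rfl fun F _ => e1 F, sum_comm]
  apply sum_congr rfl
  intro p _
  rw [sum_comm]
  apply sum_congr rfl
  intro δ' _
  rw [sum_comm]

open Fin.CommRing in
lemma run_cyc {n : ℕ} [NeZero n] (e : Q ≃ Fin n) (q₀ : Q) (a : A) (i : ℕ) :
    run (fun q (_ : A) => e.symm (e q + 1)) q₀ (List.replicate i a) =
      e.symm (e q₀ + (i : Fin n)) := by
  induction i with
  | zero => simp
  | succ i ih =>
    rw [List.replicate_succ', run_concat, ih]
    simp [add_assoc]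

open Fin.CommRing in
lemma card_AccF_pos [Nonempty A] (q₀ : Q) : 0 < (AccF A q₀).card := by
  classical
  have hnpos : 0 < Fintype.card Q := Fintype.card_pos_iff.2 ⟨q₀⟩
  have : NeZero (Fintype.card Q) := ⟨hnpos.ne'⟩
  rw [card_pos]
  set e := Fintype.equivFin Q
  refine ⟨fun q _ => e.symm (e q + 1), mem_AccF.2 ?_⟩
  intro q
  refine ⟨List.replicate (e q - e q₀ : Fin (Fintype.card Q)).1 (Classical.arbitrary A), ?_⟩
  rw [run_cyc e q₀]
  rw [Fin.cast_val_eq_self]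
  simp

/-- **(V)** quadratic lower bound for pairs of labelled minimal automata -/
theorem quad_lower (A : Type u) [Fintype A] (hk : 2 ≤ Fintype.card A) :
    ∃ c : ℝ, 0 < c ∧ ∃ n0 : ℕ, ∀ (Q : Type v) [Fintype Q] [LinearOrder Q] (q₀ : Q),
      n0 ≤ Fintype.card Q →
      0 < (MinF A q₀).card ∧
      c * ((Fintype.card Q : ℝ) ^ 2 * ((MinF A q₀).card : ℝ) ^ 2) ≤
        ∑ M ∈ MinF A q₀, ∑ M' ∈ MinF A q₀, (scI q₀ M M' : ℝ) := by
  classical
  have hA : Nonempty A := Fintype.card_pos_iff.1 (by omega)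
  obtain ⟨C, hC, hT⟩ := sum_tcount.{u, v} A hk
  obtain ⟨n1, hn1⟩ := card_NR.{u, v} (A := A) hk
  obtain ⟨L0, hL0⟩ := exists_polylog 16 3
  set c1 : ℝ := 1 / 4160 with hc1
  refine ⟨c1 ^ 2 / (1 + 32 * C), by positivity, max (max n1 (2 ^ L0)) 1, ?_⟩
  intro Q _ _ q₀ hn
  set k := Fintype.card A with hk'
  set n := Fintype.card Q with hn'
  have hnn1 : n1 ≤ n := le_trans (le_trans (le_max_left _ _) (le_max_left _ _)) hn
  have hnL0 : 2 ^ L0 ≤ n := le_trans (le_trans (le_max_right _ _) (le_max_left _ _)) hn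
  have hnpos : 0 < n := Fintype.card_pos_iff.2 ⟨q₀⟩
  set L := Nat.log 2 n with hL
  have hLL : L0 ≤ L := by
    rw [hL]
    exact Nat.le_log_of_pow_le (by norm_num) hnL0
  have hLn : 2 ^ L ≤ n := Nat.pow_log_le_self 2 hnpos.ne'
  have hnL : n < 2 ^ (L + 1) := Nat.lt_pow_succ_log_self (by norm_num) n
  set l := 2 * (L + 1) with hl
  have hpoly : (16 * (2 * L + 8)) ^ 3 ≤ n := (hL0 L hLL).trans hLn
  have hln : 16 * (l + 2) ^ 3 ≤ n := by
    refine le_trans ?_ hpoly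
    calc 16 * (l + 2) ^ 3 ≤ 16 ^ 3 * (2 * L + 8) ^ 3 := by
          apply Nat.mul_le_mul (by norm_num)
          apply Nat.pow_le_pow_left
          omega
      _ = _ := by rw [← mul_pow]
  have hkl : n ^ 2 ≤ k ^ l := by
    calc n ^ 2 ≤ (2 ^ (L + 1)) ^ 2 := Nat.pow_le_pow_left hnL.le 2
      _ = 2 ^ l := by rw [hl, ← pow_mul]; ring_nf
      _ ≤ k ^ l := Nat.pow_le_pow_left hk l
  -- the number of minimal automata
  set a := (AccF A q₀).card with ha
  set m := (MinF A q₀).card with hm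
  have hNR := hn1 Q q₀ hnn1
  rw [← ha, ← hn'] at hNR
  have hMN := card_MinF_NR (A := A) q₀
  rw [card_AM, ← hm, ← ha, ← hn'] at hMN
  have hm4 : 2 ^ n * a ≤ 4 * m := by omega
  have hapos : 0 < a := card_AccF_pos q₀
  have hmpos : 0 < m := by
    have : 0 < 2 ^ n * a := Nat.mul_pos (Nat.pow_pos two_pos) hapos
    omega
  refine ⟨hmpos, ?_⟩
  set K : ℝ := (k : ℝ) ^ l with hK
  have hK2 : (n : ℝ) ^ 2 ≤ K := by rw [hK]; exact_mod_cast hkl
  clear_value K a m l L n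
  have hn0 : (0 : ℝ) < n := by exact_mod_cast hnpos
  have hm0 : (0 : ℝ) < m := by exact_mod_cast hmpos
  have hKpos : (0 : ℝ) < K := lt_of_lt_of_le (by positivity) hK2
  have hm4' : (2 : ℝ) ^ n * a ≤ 4 * m := by exact_mod_cast hm4
  have hm16 : (4 : ℝ) ^ n * (a : ℝ) ^ 2 ≤ 16 * (m : ℝ) ^ 2 := by
    have h1 := pow_le_pow_left₀ (by positivity) hm4' 2
    have h2 : ((2 : ℝ) ^ n) ^ 2 = 4 ^ n := by
      rw [← pow_mul, mul_comm, pow_mul]; norm_num
    calc (4 : ℝ) ^ n * (a : ℝ) ^ 2 = ((2 : ℝ) ^ n * a) ^ 2 := by rw [mul_pow, h2]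
      _ ≤ _ := h1
      _ = _ := by ring
  -- sums over pairs
  set P := MinF A q₀ ×ˢ MinF A q₀ with hP
  have hPsum : ∀ f : ((Q → A → Q) × (Q → Bool)) → ((Q → A → Q) × (Q → Bool)) → ℝ,
      ∑ M ∈ MinF A q₀, ∑ M' ∈ MinF A q₀, f M M' = ∑ x ∈ P, f x.1 x.2 := by
    intro f
    rw [hP, sum_product]
  have hAMsum : ∀ f : (Q → A → Q) → ℝ, ∑ M ∈ AM A q₀, f M.1 = 2 ^ n * ∑ δ ∈ AccF A q₀, f δ := by
    intro f
    rw [AM, sum_product]
    simp only [sum_const, card_univ, Fintype.card_fun, Fintype.card_bool, nsmul_eq_mul]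
    rw [← mul_sum, ← hn']
    push_cast
    rfl
  -- (1) good words
  have hG : (m : ℝ) ^ 2 * K / 2 ≤ ∑ x ∈ P, ((goodW q₀ l x.1.1 x.2.1).card : ℝ) := by
    have hbad : ∑ M ∈ MinF A q₀, ((badW q₀ l M.1).card : ℝ) ≤ m * K / 4 := by
      have h1 : ∑ M ∈ MinF A q₀, ((badW q₀ l M.1).card : ℝ) ≤
          ∑ M ∈ AM A q₀, ((badW q₀ l M.1).card : ℝ) :=
        sum_le_sum_of_subset_of_nonneg (MinF_sub q₀) fun _ _ _ => Nat.cast_nonneg _
      rw [hAMsum fun δ => ((badW q₀ l δ).card : ℝ)] at h1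
      have h2 := sum_badW (A := A) q₀ l
      rw [← hk', ← hn', ← ha] at h2
      have h3 : (∑ δ ∈ AccF A q₀, ((badW q₀ l δ).card : ℝ)) * n ≤ K * (((l : ℝ) + 2) ^ 3 * a) := by
        rw [hK]; exact_mod_cast h2
      have h4 : (16 : ℝ) * ((l : ℝ) + 2) ^ 3 ≤ n := by exact_mod_cast hln
      have h5 : (2 ^ n * ∑ δ ∈ AccF A q₀, ((badW q₀ l δ).card : ℝ)) * n ≤ (m * K / 4) * n := by
        calc (2 ^ n * ∑ δ ∈ AccF A q₀, ((badW q₀ l δ).card : ℝ)) * n
            = 2 ^ n * ((∑ δ ∈ AccF A q₀, ((badW q₀ l δ).card : ℝ)) * n) := by ring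
          _ ≤ 2 ^ n * (K * (((l : ℝ) + 2) ^ 3 * a)) := mul_le_mul_of_nonneg_left h3 (by positivity)
          _ = (2 ^ n * a) * (K * ((l : ℝ) + 2) ^ 3) := by ring
          _ ≤ (4 * m) * (K * ((l : ℝ) + 2) ^ 3) := mul_le_mul_of_nonneg_right hm4' (by positivity)
          _ = (m * K / 4) * (16 * ((l : ℝ) + 2) ^ 3) := by ring
          _ ≤ (m * K / 4) * n := mul_le_mul_of_nonneg_left h4 (by positivity)
      exact h1.trans (le_of_mul_le_mul_right h5 hn0)
    have h1 : ∑ x ∈ P, (K - ((badW q₀ l x.1.1).card : ℝ) - ((badW q₀ l x.2.1).card : ℝ)) ≤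
        ∑ x ∈ P, ((goodW q₀ l x.1.1 x.2.1).card : ℝ) := by
      apply sum_le_sum
      intro x _
      have h2 := card_goodW (A := A) q₀ l x.1.1 x.2.1
      rw [← hk'] at h2
      have h3 : K ≤ ((goodW q₀ l x.1.1 x.2.1).card : ℝ) + ((badW q₀ l x.1.1).card : ℝ) +
          ((badW q₀ l x.2.1).card : ℝ) := by
        rw [hK]; exact_mod_cast h2
      linarith only [h3]
    rw [sum_sub_distrib, sum_sub_distrib] at h1
    have e1 : ∑ x ∈ P, K = (m : ℝ) ^ 2 * K := by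
      rw [sum_const, hP, card_product, ← hm, nsmul_eq_mul]
      push_cast
      ring
    have e2 : ∑ x ∈ P, ((badW q₀ l x.1.1).card : ℝ) =
        m * ∑ M ∈ MinF A q₀, ((badW q₀ l M.1).card : ℝ) := by
      rw [hP, sum_product]
      simp only [sum_const, nsmul_eq_mul]
      rw [← mul_sum, ← hm]
    have e3 : ∑ x ∈ P, ((badW q₀ l x.2.1).card : ℝ) =
        m * ∑ M ∈ MinF A q₀, ((badW q₀ l M.1).card : ℝ) := by
      rw [hP, sum_product]
      simp only [sum_const, nsmul_eq_mul]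
      rw [← hm]
    rw [e1, e2, e3] at h1
    have h2 := mul_le_mul_of_nonneg_left hbad hm0.le
    linarith only [h1, h2]
  -- (2) collisions
  have hX : ∑ x ∈ P, ((coll q₀ l x.1.1 x.2.1).card : ℝ) ≤ 1040 * (m : ℝ) ^ 2 * K ^ 2 / (n : ℝ) ^ 2 := by
    have h1 : ∑ x ∈ P, ((coll q₀ l x.1.1 x.2.1).card : ℝ) ≤
        ∑ x ∈ AM A q₀ ×ˢ AM A q₀, ((coll q₀ l x.1.1 x.2.1).card : ℝ) :=
      sum_le_sum_of_subset_of_nonneg (product_subset_product (MinF_sub q₀) (MinF_sub q₀))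
        fun _ _ _ => Nat.cast_nonneg _
    have h2 : ∑ x ∈ AM A q₀ ×ˢ AM A q₀, ((coll q₀ l x.1.1 x.2.1).card : ℝ) =
        4 ^ n * ∑ δ ∈ AccF A q₀, ∑ δ' ∈ AccF A q₀, ((coll q₀ l δ δ').card : ℝ) := by
      rw [sum_product]
      have h3 : ∀ M : (Q → A → Q) × (Q → Bool), ∑ M' ∈ AM A q₀, ((coll q₀ l M.1 M'.1).card : ℝ) =
          2 ^ n * ∑ δ' ∈ AccF A q₀, ((coll q₀ l M.1 δ').card : ℝ) := fun M =>
        hAMsum fun δ' => ((coll q₀ l M.1 δ').card : ℝ)
      simp only [h3]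
      rw [← mul_sum, hAMsum fun δ => ∑ δ' ∈ AccF A q₀, ((coll q₀ l δ δ').card : ℝ), ← mul_assoc,
        ← mul_pow]
      norm_num
    rw [h2] at h1
    have h3 := sum_coll (A := A) q₀ hk l
    rw [← hk', ← hn', ← ha, ← hK] at h3
    rw [le_div_iff₀ (by positivity)]
    calc (∑ x ∈ P, ((coll q₀ l x.1.1 x.2.1).card : ℝ)) * (n : ℝ) ^ 2
        ≤ (4 ^ n * ∑ δ ∈ AccF A q₀, ∑ δ' ∈ AccF A q₀, ((coll q₀ l δ δ').card : ℝ)) *
          (n : ℝ) ^ 2 := mul_le_mul_of_nonneg_right h1 (by positivity)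
      _ = 4 ^ n * ((∑ δ ∈ AccF A q₀, ∑ δ' ∈ AccF A q₀, ((coll q₀ l δ δ').card : ℝ)) *
          (n : ℝ) ^ 2) := by ring
      _ ≤ 4 ^ n * ((K * (n : ℝ) ^ 2 + 64 * K ^ 2) * (a : ℝ) ^ 2) :=
          mul_le_mul_of_nonneg_left h3 (by positivity)
      _ = (4 ^ n * (a : ℝ) ^ 2) * (K * (n : ℝ) ^ 2 + 64 * K ^ 2) := by ring
      _ ≤ (16 * (m : ℝ) ^ 2) * (K * (n : ℝ) ^ 2 + 64 * K ^ 2) :=
          mul_le_mul_of_nonneg_right hm16 (by positivity)
      _ ≤ (16 * (m : ℝ) ^ 2) * (K * K + 64 * K ^ 2) := by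
          apply mul_le_mul_of_nonneg_left _ (by positivity)
          apply add_le_add_left
          exact mul_le_mul_of_nonneg_left hK2 hKpos.le
      _ = _ := by ring
  -- (3) reached pairs
  have hR : c1 * ((n : ℝ) ^ 2 * (m : ℝ) ^ 2) ≤ ∑ x ∈ P, ((RR q₀ l x.1.1 x.2.1).card : ℝ) := by
    have h1 := sum_sq_le_sum_mul_sum_of_sq_le_mul P
      (r := fun x => ((goodW q₀ l x.1.1 x.2.1).card : ℝ))
      (f := fun x => ((RR q₀ l x.1.1 x.2.1).card : ℝ))
      (g := fun x => ((coll q₀ l x.1.1 x.2.1).card : ℝ))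
      (fun _ _ => Nat.cast_nonneg _) (fun _ _ => Nat.cast_nonneg _)
      (fun x _ => card_goodW_sq q₀ l x.1.1 x.2.1)
    have h2 := pow_le_pow_left₀ (by positivity) hG 2
    set SR := ∑ x ∈ P, ((RR q₀ l x.1.1 x.2.1).card : ℝ) with hSR
    have hSR0 : 0 ≤ SR := sum_nonneg fun _ _ => Nat.cast_nonneg _
    have h3 : ((m : ℝ) ^ 2 * K / 2) ^ 2 ≤ SR * (1040 * (m : ℝ) ^ 2 * K ^ 2 / (n : ℝ) ^ 2) :=
      h2.trans (h1.trans (mul_le_mul_of_nonneg_left hX hSR0))
    have h4 : c1 * ((n : ℝ) ^ 2 * (m : ℝ) ^ 2) * (1040 * (m : ℝ) ^ 2 * K ^ 2 / (n : ℝ) ^ 2) =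
        ((m : ℝ) ^ 2 * K / 2) ^ 2 := by
      rw [hc1]
      field_simp
      ring
    rw [← h4] at h3
    exact le_of_mul_le_mul_right h3 (by positivity)
  -- (4) equivalent pairs
  have hZ : ∑ x ∈ P, ((eqPairs x.1 x.2).card : ℝ) ≤ 32 * C * ((n : ℝ) ^ 2 * (m : ℝ) ^ 2) := by
    have h1 : ∑ x ∈ P, ((eqPairs x.1 x.2).card : ℝ) ≤
        ∑ x ∈ AM A q₀ ×ˢ AM A q₀, (n * (((T1 x.1 x.2).card : ℝ) + ((T1 x.2 x.1).card : ℝ))) := by
      calc _ ≤ ∑ x ∈ P, ((n : ℝ) * (((T1 x.1 x.2).card : ℝ) + ((T1 x.2 x.1).card : ℝ))) := by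
            apply sum_le_sum
            intro x _
            have he := card_eqPairs_le x.1 x.2
            rw [← hn'] at he
            exact_mod_cast he
        _ ≤ _ := sum_le_sum_of_subset_of_nonneg
            (product_subset_product (MinF_sub q₀) (MinF_sub q₀)) fun _ _ _ =>
              mul_nonneg (Nat.cast_nonneg _) (add_nonneg (Nat.cast_nonneg _) (Nat.cast_nonneg _))
    have h2 := sum_T1 (A := A) q₀
    have h3 := hT Q q₀
    rw [← h2, ← hn', ← ha] at h3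
    have h4 : ∑ x ∈ AM A q₀ ×ˢ AM A q₀,
        ((n : ℝ) * (((T1 x.1 x.2).card : ℝ) + ((T1 x.2 x.1).card : ℝ))) =
        2 * n * ∑ M ∈ AM A q₀, ∑ M' ∈ AM A q₀, ((T1 M M').card : ℝ) := by
      rw [← mul_sum, sum_add_distrib]
      have e1 : ∑ x ∈ AM A q₀ ×ˢ AM A q₀, ((T1 x.1 x.2).card : ℝ) =
          ∑ M ∈ AM A q₀, ∑ M' ∈ AM A q₀, ((T1 M M').card : ℝ) := sum_product _ _ _
      have e2 : ∑ x ∈ AM A q₀ ×ˢ AM A q₀, ((T1 x.2 x.1).card : ℝ) =
          ∑ M ∈ AM A q₀, ∑ M' ∈ AM A q₀, ((T1 M M').card : ℝ) := by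
        rw [sum_product, sum_comm]
      rw [e1, e2]
      ring
    rw [h4] at h1
    calc _ ≤ 2 * (n : ℝ) * ∑ M ∈ AM A q₀, ∑ M' ∈ AM A q₀, ((T1 M M').card : ℝ) := h1
      _ ≤ 2 * (n : ℝ) * (C * (4 ^ n * (n * (a : ℝ) ^ 2))) :=
          mul_le_mul_of_nonneg_left h3 (by positivity)
      _ = 2 * C * (n : ℝ) ^ 2 * (4 ^ n * (a : ℝ) ^ 2) := by ring
      _ ≤ 2 * C * (n : ℝ) ^ 2 * (16 * (m : ℝ) ^ 2) :=
          mul_le_mul_of_nonneg_left hm16 (by positivity)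
      _ = _ := by ring
  -- (5) conclusion
  rw [hPsum fun M M' => (scI q₀ M M' : ℝ)]
  have h1 := sum_sq_le_sum_mul_sum_of_sq_le_mul P
    (r := fun x => ((RR q₀ l x.1.1 x.2.1).card : ℝ))
    (f := fun x => (scI q₀ x.1 x.2 : ℝ))
    (g := fun x => ((n : ℝ) ^ 2 + ((eqPairs x.1 x.2).card : ℝ)))
    (fun _ _ => Nat.cast_nonneg _) (fun _ _ => add_nonneg (sq_nonneg _) (Nat.cast_nonneg _))
    (fun x _ => by have he := card_RR_sq q₀ l x.1 x.2; rwa [← hn'] at he)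
  have h2 := pow_le_pow_left₀ (by positivity) hR 2
  set S := ∑ x ∈ P, (scI q₀ x.1 x.2 : ℝ) with hS
  have hS0 : 0 ≤ S := sum_nonneg fun _ _ => Nat.cast_nonneg _
  have h3 : ∑ x ∈ P, ((n : ℝ) ^ 2 + ((eqPairs x.1 x.2).card : ℝ)) ≤
      (1 + 32 * C) * ((n : ℝ) ^ 2 * (m : ℝ) ^ 2) := by
    rw [sum_add_distrib]
    have e1 : ∑ x ∈ P, (n : ℝ) ^ 2 = (n : ℝ) ^ 2 * (m : ℝ) ^ 2 := by
      rw [sum_const, hP, card_product, ← hm, nsmul_eq_mul]
      push_cast
      ring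
    rw [e1]
    linarith only [hZ]
  have h4 : (c1 * ((n : ℝ) ^ 2 * (m : ℝ) ^ 2)) ^ 2 ≤
      S * ((1 + 32 * C) * ((n : ℝ) ^ 2 * (m : ℝ) ^ 2)) :=
    h2.trans (h1.trans (mul_le_mul_of_nonneg_left h3 hS0))
  have h5 : c1 ^ 2 / (1 + 32 * C) * ((n : ℝ) ^ 2 * (m : ℝ) ^ 2) *
      ((1 + 32 * C) * ((n : ℝ) ^ 2 * (m : ℝ) ^ 2)) = (c1 * ((n : ℝ) ^ 2 * (m : ℝ) ^ 2)) ^ 2 := by
    have : (1 + 32 * C) ≠ 0 := by positivity
    field_simp
  rw [← h5] at h4
  exact le_of_mul_le_mul_right h4 (by positivity)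

end Pool.Agent.SC
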