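import Mathlib

/-!
# Accessible transition structures and the spanning-tree switching injection

`run δ q w` is the state reached from `q` by reading the word `w`.
`Acc q₀ δ` says that every state is reachable from `q₀`.
For accessible `δ` we fix a spanning tree (`tre`) whose edges go from smaller to larger
distance; re-targeting any set of non-tree edges keeps `δ` accessible.
-/

namespace Pool.Agent.SC

open Finset

universe u v w

variable {A : Type u} {Q : Type v}

/-- state reached from `q` by reading `w` -/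
def run (δ : Q → A → Q) (q : Q) (w : List A) : Q := w.foldl δ q

@[simp] lemma run_nil (δ : Q → A → Q) (q : Q) : run δ q [] = q := rfl

@[simp] lemma run_cons (δ : Q → A → Q) (q : Q) (a : A) (w : List A) :
    run δ q (a :: w) = run δ (δ q a) w := rfl

lemma run_append (δ : Q → A → Q) (q : Q) (u v : List A) :
    run δ q (u ++ v) = run δ (run δ q u) v := by
  simp [run, List.foldl_append]

lemma run_concat (δ : Q → A → Q) (q : Q) (u : List A) (a : A) :
    run δ q (u ++ [a]) = δ (run δ q u) a := by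
  rw [run_append]; rfl

/-- every state is reachable from `q₀` -/
def Acc (q₀ : Q) (δ : Q → A → Q) : Prop := ∀ q, ∃ w, run δ q₀ w = q

/-- if every state other than `q₀` has a chosen in-edge from a state of smaller rank, then
`δ` is accessible -/
lemma acc_of_tree {q₀ : Q} {δ : Q → A → Q} (d : Q → ℕ) (t : Q → Q × A)
    (ht : ∀ s, s ≠ q₀ → δ (t s).1 (t s).2 = s) (hd : ∀ s, s ≠ q₀ → d (t s).1 < d s) :
    Acc q₀ δ := by
  intro q
  induction h : d q using Nat.strong_induction_on generalizing q with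
  | _ n ih =>
    by_cases hq : q = q₀
    · exact ⟨[], by simp [hq]⟩
    · obtain ⟨w, hw⟩ := ih (d (t q).1) (h ▸ hd q hq) (t q).1 rfl
      refine ⟨w ++ [(t q).2], ?_⟩
      rw [run_concat, hw, ht q hq]

lemma exists_tree [Finite A] [Nonempty A] [Fintype Q] [LinearOrder Q] {q₀ : Q} {δ : Q → A → Q}
    (h : Acc q₀ δ) :
    ∃ (d : Q → ℕ) (t : Q → Q × A), (∀ s, s ≠ q₀ → δ (t s).1 (t s).2 = s) ∧
      (∀ s, s ≠ q₀ → d (t s).1 < d s) ∧
      (∀ s, s ≠ q₀ → ∀ q a, δ q a = s → toLex (d (t s).1, (t s).1) ≤ toLex (d q, q)) := by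
  classical
  have hex : ∀ q, ∃ l, ∃ w : List A, w.length = l ∧ run δ q₀ w = q := fun q => by
    obtain ⟨w, hw⟩ := h q
    exact ⟨w.length, w, rfl, hw⟩
  let d : Q → ℕ := fun q => Nat.find (hex q)
  have hd1 : ∀ q, ∃ w : List A, w.length = d q ∧ run δ q₀ w = q := fun q => Nat.find_spec (hex q)
  have hd2 : ∀ q (w : List A), run δ q₀ w = q → d q ≤ w.length := fun q w hw =>
    Nat.find_min' (hex q) ⟨w, rfl, hw⟩
  have key : ∀ s, s ≠ q₀ → ∃ e : Q × A, δ e.1 e.2 = s ∧
      (∀ q a, δ q a = s → toLex (d e.1, e.1) ≤ toLex (d q, q)) ∧ d e.1 < d s := by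
    intro s hs
    obtain ⟨w, hw1, hw2⟩ := hd1 s
    have hne : w ≠ [] := by
      rintro rfl
      exact hs (by simpa using hw2.symm)
    obtain ⟨w', a, rfl⟩ : ∃ w' a, w = w' ++ [a] := ⟨_, _, (List.dropLast_append_getLast hne).symm⟩
    rw [run_concat] at hw2
    -- choose the minimal in-edge
    have hS : (Set.Nonempty {e : Q × A | δ e.1 e.2 = s}) := ⟨(run δ q₀ w', a), hw2⟩
    obtain ⟨e, he, hmin⟩ := Set.exists_min_image {e : Q × A | δ e.1 e.2 = s}
      (fun e => toLex (d e.1, e.1)) (Set.toFinite _) hS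
    refine ⟨e, he, fun q b hq => hmin (q, b) hq, ?_⟩
    have h1 := hmin (run δ q₀ w', a) hw2
    have h2 : d e.1 ≤ d (run δ q₀ w') := by
      rcases (Prod.Lex.le_iff).1 h1 with h | h
      · exact le_of_lt h
      · exact le_of_eq h.1
    have h3 : d (run δ q₀ w') ≤ w'.length := hd2 _ w' rfl
    have h4 : (w' ++ [a]).length = w'.length + 1 := by simp
    omega
  have : Nonempty (Q × A) := ⟨(q₀, Classical.arbitrary A)⟩
  choose! t ht using key
  exact ⟨d, t, fun s hs => (ht s hs).1, fun s hs => (ht s hs).2.2, fun s hs => (ht s hs).2.1⟩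

open Classical in
/-- rank function of the spanning tree of an accessible `δ` -/
noncomputable def dst [Finite A] [Nonempty A] [Fintype Q] [LinearOrder Q] (q₀ : Q) (δ : Q → A → Q) : Q → ℕ :=
  if h : Acc q₀ δ then (exists_tree h).choose else fun _ => 0

open Classical in
/-- tree in-edge of the spanning tree of an accessible `δ` -/
noncomputable def tre [Finite A] [Nonempty A] [Fintype Q] [LinearOrder Q] (q₀ : Q)
    (δ : Q → A → Q) : Q → Q × A :=
  if h : Acc q₀ δ then (exists_tree h).choose_spec.choose else fun q => (q, Classical.arbitrary A)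

section tree
variable [Finite A] [Nonempty A] [Fintype Q] [LinearOrder Q] {q₀ : Q} {δ : Q → A → Q}

lemma tre_spec (h : Acc q₀ δ) {s : Q} (hs : s ≠ q₀) :
    δ (tre q₀ δ s).1 (tre q₀ δ s).2 = s := by
  have := (exists_tree h).choose_spec.choose_spec.1 s hs
  simpa [tre, h] using this

lemma dst_lt (h : Acc q₀ δ) {s : Q} (hs : s ≠ q₀) :
    dst q₀ δ (tre q₀ δ s).1 < dst q₀ δ s := by
  have := (exists_tree h).choose_spec.choose_spec.2.1 s hs
  simpa [tre, dst, h] using this

lemma tre_min (h : Acc q₀ δ) {s : Q} (hs : s ≠ q₀) {q : Q} {a : A} (hq : δ q a = s) :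
    toLex (dst q₀ δ (tre q₀ δ s).1, (tre q₀ δ s).1) ≤ toLex (dst q₀ δ q, q) := by
  have := (exists_tree h).choose_spec.choose_spec.2.2 s hs q a hq
  simpa [tre, dst, h] using this

/-- modifying `δ` outside its tree edges keeps it accessible -/
lemma acc_modify (h : Acc q₀ δ) {δ' : Q → A → Q}
    (h' : ∀ s, s ≠ q₀ → δ' (tre q₀ δ s).1 (tre q₀ δ s).2 = δ (tre q₀ δ s).1 (tre q₀ δ s).2) :
    Acc q₀ δ' :=
  acc_of_tree (dst q₀ δ) (tre q₀ δ) (fun s hs => by rw [h' s hs, tre_spec h hs])
    (fun s hs => dst_lt h hs)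

end tree

end Pool.Agent.SC
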