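import Mathlib

/-!
# State complexity and its average over intersections
-/

namespace Pool.Agent.SC

universe u

/-- State complexity of a language: the least number of states of a complete deterministic finite
automaton accepting it. -/
noncomputable def sc {A : Type u} (L : Language A) : ℕ :=
  sInf {n : ℕ | ∃ M : DFA A (Fin n), M.accepts = L}

/-- The set of regular languages with state complexity `n`. -/
def Rn (A : Type u) (n : ℕ) : Set (Language A) := {L | L.IsRegular ∧ sc L = n}

/-- The average of `sc (L ∩ L')` over all pairs `(L, L')` of regular languages with state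
complexity `n`. -/
noncomputable def En (A : Type u) (n : ℕ) : ℝ :=
  (∑ᶠ p ∈ Rn A n ×ˢ Rn A n, (sc (p.1 ⊓ p.2) : ℝ)) / ((Rn A n).ncard : ℝ) ^ 2

end Pool.Agent.SC
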