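import Pool.Agent.W_MP_6663ab_lc.Assemble
import Pool.Agent.W_MP_6663ab_lc.ScDefs

/-!
# Bridge: regular languages of state complexity `n` and labelled minimal automata
-/

namespace Pool.Agent.SC

open Finset

universe u v w

section lang

variable {A : Type u} {Q : Type v}

lemma exists_dfa_of_regular {L : Language A} (h : L.IsRegular) :
    ∃ M : DFA A (Fin (Set.range L.leftQuotient).ncard), M.accepts = L := by
  have hfin := h.finite_range_leftQuotient
  have := hfin.to_subtype
  have e : Set.range L.leftQuotient ≃ Fin (Set.range L.leftQuotient).ncard :=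
    Finite.equivFinOfCardEq rfl
  exact ⟨DFA.reindex e L.toDFA, by rw [DFA.accepts_reindex, Language.accepts_toDFA]⟩

lemma sc_eq {L : Language A} (h : L.IsRegular) : sc L = (Set.range L.leftQuotient).ncard := by
  apply le_antisymm
  · exact Nat.sInf_le (exists_dfa_of_regular h)
  · have key : ∀ m : ℕ, (∃ M : DFA A (Fin m), M.accepts = L) →
        (Set.range L.leftQuotient).ncard ≤ m := by
      rintro m ⟨M, hM⟩
      have h1 : Set.range L.leftQuotient ⊆ Set.range M.acceptsFrom := by
        rintro _ ⟨x, rfl⟩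
        rw [← hM, Language.leftQuotient_accepts_apply]
        exact ⟨_, rfl⟩
      have h2 : (Set.range M.acceptsFrom).ncard ≤ m := by
        have h3 := Set.ncard_image_le (f := M.acceptsFrom) (Set.toFinite (Set.univ : Set (Fin m)))
        rw [Set.image_univ, Set.ncard_univ, Nat.card_fin] at h3
        exact h3
      exact (Set.ncard_le_ncard h1 (Set.toFinite _)).trans h2
    have hne : {n : ℕ | ∃ M : DFA A (Fin n), M.accepts = L}.Nonempty :=
      ⟨_, exists_dfa_of_regular h⟩
    exact key _ (Nat.sInf_mem hne)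

/-- language accepted from the state `q` -/
def lang (M : (Q → A → Q) × (Q → Bool)) (q : Q) : Language A :=
  {w : List A | M.2 (run M.1 q w) = true}

lemma mem_lang {M : (Q → A → Q) × (Q → Bool)} {q : Q} {w : List A} :
    w ∈ lang M q ↔ M.2 (run M.1 q w) = true := Iff.rfl

lemma leftQuotient_lang (M : (Q → A → Q) × (Q → Bool)) (q : Q) (w : List A) :
    (lang M q).leftQuotient w = lang M (run M.1 q w) := by
  ext x
  rw [Language.mem_leftQuotient, mem_lang, mem_lang, run_append]

lemma lang_eq_iff {M : (Q → A → Q) × (Q → Bool)} {p q : Q} :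
    lang M p = lang M q ↔ Eqv M.1 M.2 p q := by
  constructor
  · intro h w
    have h1 : w ∈ lang M p ↔ w ∈ lang M q := by rw [h]
    rw [mem_lang, mem_lang] at h1
    cases hb : M.2 (run M.1 p w) <;> cases hc : M.2 (run M.1 q w) <;> simp_all
  · intro h
    ext w
    rw [mem_lang, mem_lang, h w]

/-- the automaton as a Mathlib `DFA` -/
def toD (M : (Q → A → Q) × (Q → Bool)) (q : Q) : DFA A Q := ⟨M.1, q, {x | M.2 x = true}⟩

lemma accepts_toD (M : (Q → A → Q) × (Q → Bool)) (q : Q) : (toD M q).accepts = lang M q := by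
  ext w
  rfl

lemma regular_lang [Fintype Q] (M : (Q → A → Q) × (Q → Bool)) (q : Q) :
    (lang M q).IsRegular := by
  rw [Language.isRegular_iff]
  exact ⟨Q, inferInstance, toD M q, accepts_toD M q⟩

lemma range_leftQuotient_lang {M : (Q → A → Q) × (Q → Bool)} {q₀ : Q} (h : Acc q₀ M.1) :
    Set.range (lang M q₀).leftQuotient = Set.range (lang M) := by
  ext L
  constructor
  · rintro ⟨w, rfl⟩
    exact ⟨_, (leftQuotient_lang M q₀ w).symm⟩
  · rintro ⟨q, rfl⟩
    obtain ⟨w, hw⟩ := h q
    exact ⟨w, by rw [leftQuotient_lang, hw]⟩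

variable [Fintype A]

lemma sc_lang [Fintype Q] [LinearOrder Q] {q₀ : Q} {M : (Q → A → Q) × (Q → Bool)}
    (hM : M ∈ MinF A q₀) : sc (lang M q₀) = Fintype.card Q := by
  obtain ⟨hacc, hred⟩ := mem_MinF.1 hM
  rw [sc_eq (regular_lang M q₀), range_leftQuotient_lang hacc]
  have hinj : Function.Injective (lang M) := fun p q h => hred p q (lang_eq_iff.1 h)
  rw [← Set.image_univ, Set.ncard_image_of_injective _ hinj, Set.ncard_univ,
    Nat.card_eq_fintype_card]

lemma lang_mem_Rn {n : ℕ} {M : (Fin (n + 1) → A → Fin (n + 1)) × (Fin (n + 1) → Bool)}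
    (hM : M ∈ MinF A 0) : lang M 0 ∈ Rn A (n + 1) :=
  ⟨regular_lang M 0, by rw [sc_lang hM, Fintype.card_fin]⟩

lemma exists_min {n : ℕ} {L : Language A} (hL : L ∈ Rn A (n + 1)) :
    ∃ M ∈ MinF A (0 : Fin (n + 1)), lang M 0 = L := by
  obtain ⟨hreg, hsc⟩ := hL
  rw [sc_eq hreg] at hsc
  have hfin := hreg.finite_range_leftQuotient
  have := hfin.to_subtype
  let e0 : Set.range L.leftQuotient ≃ Fin (n + 1) := Finite.equivFinOfCardEq hsc
  let s0 : Set.range L.leftQuotient := ⟨L, [], rfl⟩
  let e : Set.range L.leftQuotient ≃ Fin (n + 1) := e0.trans (Equiv.swap (e0 s0) 0)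
  have he0 : e s0 = 0 := by simp [e]
  have he0' : e.symm 0 = s0 := by rw [← he0, Equiv.symm_apply_apply]
  classical
  let δ : Fin (n + 1) → A → Fin (n + 1) := fun q a => e (L.toDFA.step (e.symm q) a)
  let F : Fin (n + 1) → Bool := fun q => decide ([] ∈ (e.symm q).val)
  have hrun : ∀ (w : List A) (q : Fin (n + 1)),
      (e.symm (run δ q w)).val = (e.symm q).val.leftQuotient w := by
    intro w
    induction w using List.reverseRecOn with
    | nil => intro q; simp
    | append_singleton w a ih =>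
      intro q
      rw [run_concat, Language.leftQuotient_append, ← ih q]
      show (e.symm (e (L.toDFA.step (e.symm (run δ q w)) a))).val = _
      rw [Equiv.symm_apply_apply, Language.step_toDFA]
  have hlang : ∀ q, lang (δ, F) q = (e.symm q).val := by
    intro q
    ext w
    rw [mem_lang]
    show decide ([] ∈ (e.symm (run δ q w)).val) = true ↔ _
    rw [decide_eq_true_iff, hrun, Language.mem_leftQuotient, List.append_nil]
  refine ⟨(δ, F), ?_, ?_⟩
  · rw [mem_MinF]
    refine ⟨?_, ?_⟩
    · intro q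
      obtain ⟨w, hw⟩ := (e.symm q).2
      refine ⟨w, ?_⟩
      apply e.symm.injective
      apply Subtype.ext
      show (e.symm (run δ 0 w)).val = _
      rw [hrun, he0', ← hw]
    · intro p q h
      have h1 := lang_eq_iff.2 h
      rw [hlang, hlang] at h1
      exact e.symm.injective (Subtype.ext h1)
  · rw [hlang, he0']

/-- relabelling -/
def relab {Q : Type v} (π : Equiv.Perm Q) (M : (Q → A → Q) × (Q → Bool)) :
    (Q → A → Q) × (Q → Bool) :=
  (fun q a => π (M.1 (π.symm q) a), fun q => M.2 (π.symm q))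

omit [Fintype A] in
lemma run_relab (π : Equiv.Perm Q) (M : (Q → A → Q) × (Q → Bool)) (q : Q) (w : List A) :
    run (relab π M).1 (π q) w = π (run M.1 q w) := by
  induction w generalizing q with
  | nil => rfl
  | cons a w ih =>
    rw [run_cons, run_cons, ← ih]
    congr 1
    simp [relab]

omit [Fintype A] in
lemma lang_relab (π : Equiv.Perm Q) (M : (Q → A → Q) × (Q → Bool)) (q : Q) :
    lang (relab π M) (π q) = lang M q := by
  ext w
  rw [mem_lang, mem_lang, run_relab]
  simp [relab]

open Classical in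
/-- permutations fixing the root -/
noncomputable def PF (n : ℕ) : Finset (Equiv.Perm (Fin (n + 1))) :=
  univ.filter fun π => π 0 = 0

lemma card_PF_pos (n : ℕ) : 0 < (PF n).card := by
  classical
  rw [card_pos]
  exact ⟨1, by simp [PF]⟩

open Classical in
lemma card_fiber {n : ℕ} {L : Language A} (hL : L ∈ Rn A (n + 1)) :
    ((MinF A (0 : Fin (n + 1))).filter fun M => lang M 0 = L).card = (PF n).card := by
  obtain ⟨M0, hM0, hL0⟩ := exists_min hL
  obtain ⟨hacc0, hred0⟩ := mem_MinF.1 hM0
  symm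
  apply card_bij fun π _ => relab π M0
  · intro π hπ
    rw [PF, mem_filter] at hπ
    rw [mem_filter, mem_MinF]
    refine ⟨⟨?_, ?_⟩, ?_⟩
    · intro q
      obtain ⟨w, hw⟩ := hacc0 (π.symm q)
      refine ⟨w, ?_⟩
      have h1 := run_relab π M0 0 w
      rw [hπ.2, hw] at h1
      rw [h1]; simp
    · intro p q h
      have h1 := lang_eq_iff.2 h
      rw [← π.apply_symm_apply p, ← π.apply_symm_apply q, lang_relab, lang_relab] at h1
      have h2 := hred0 _ _ (lang_eq_iff.1 h1)
      exact π.symm.injective h2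
    · have h1 := lang_relab π M0 0
      rw [hπ.2] at h1
      rw [h1, hL0]
  · intro π hπ π' hπ' h
    rw [PF, mem_filter] at hπ hπ'
    ext q
    obtain ⟨w, rfl⟩ := hacc0 q
    have h1 := run_relab π M0 0 w
    have h2 := run_relab π' M0 0 w
    rw [hπ.2] at h1
    rw [hπ'.2] at h2
    rw [← h1, ← h2, h]
  · intro M hM
    rw [mem_filter] at hM
    obtain ⟨hM, hML⟩ := hM
    obtain ⟨hacc, hred⟩ := mem_MinF.1 hM
    have key : ∀ w w' : List A, run M0.1 0 w = run M0.1 0 w' ↔ run M.1 0 w = run M.1 0 w' := by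
      intro w w'
      have e1 : ∀ v, lang M0 (run M0.1 0 v) = lang M (run M.1 0 v) := by
        intro v
        rw [← leftQuotient_lang, ← leftQuotient_lang, hL0, hML]
      constructor
      · intro h
        apply hred
        rw [← lang_eq_iff, ← e1, ← e1, h]
      · intro h
        apply hred0
        rw [← lang_eq_iff, e1, e1, h]
    choose wd hwd using hacc0
    choose wd' hwd' using hacc
    let π : Equiv.Perm (Fin (n + 1)) :=
      { toFun := fun q => run M.1 0 (wd q)
        invFun := fun q => run M0.1 0 (wd' q)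
        left_inv := by
          intro q
          show run M0.1 0 (wd' (run M.1 0 (wd q))) = q
          conv_rhs => rw [← hwd q]
          rw [key, hwd']
        right_inv := by
          intro q
          show run M.1 0 (wd (run M0.1 0 (wd' q))) = q
          conv_rhs => rw [← hwd' q]
          rw [← key, hwd] }
    have hπ : ∀ w, π (run M0.1 0 w) = run M.1 0 w := by
      intro w
      show run M.1 0 (wd (run M0.1 0 w)) = _
      rw [← key, hwd]
    have hπ0 : π 0 = 0 := hπ []
    refine ⟨π, by simp [PF, hπ0], ?_⟩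
    refine Prod.ext ?_ ?_
    · funext q a
      show π (M0.1 (π.symm q) a) = M.1 q a
      obtain ⟨w, hw⟩ : ∃ w, run M.1 0 w = q := ⟨wd' q, hwd' q⟩
      have h1 : π.symm q = run M0.1 0 w := by
        rw [← hw, ← hπ, Equiv.symm_apply_apply]
      rw [h1, ← run_concat M0.1 0 w a, hπ, run_concat, hw]
    · funext q
      show M0.2 (π.symm q) = M.2 q
      obtain ⟨w, hw⟩ : ∃ w, run M.1 0 w = q := ⟨wd' q, hwd' q⟩
      have h1 : π.symm q = run M0.1 0 w := by
        rw [← hw, ← hπ, Equiv.symm_apply_apply]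
      have h2 : w ∈ lang M0 0 ↔ w ∈ lang M 0 := by rw [hL0, hML]
      rw [mem_lang, mem_lang, hw, ← h1] at h2
      cases hb : M0.2 (π.symm q) <;> cases hc : M.2 q <;> simp_all

open Classical in
/-- the finset of languages -/
noncomputable def RF (A : Type u) [Fintype A] (n : ℕ) : Finset (Language A) :=
  (MinF A (0 : Fin (n + 1))).image fun M => lang M 0

lemma coe_RF (n : ℕ) : ((RF A n : Finset (Language A)) : Set (Language A)) = Rn A (n + 1) := by
  classical
  ext L
  rw [RF, coe_image, Set.mem_image]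
  constructor
  · rintro ⟨M, hM, rfl⟩
    exact lang_mem_Rn hM
  · intro hL
    obtain ⟨M, hM, h⟩ := exists_min hL
    exact ⟨M, hM, h⟩

lemma sum_MinF {n : ℕ} (f : Language A → ℝ) :
    ∑ M ∈ MinF A (0 : Fin (n + 1)), f (lang M 0) = (PF n).card * ∑ L ∈ RF A n, f L := by
  classical
  rw [sum_comp f fun M : (Fin (n + 1) → A → Fin (n + 1)) × (Fin (n + 1) → Bool) => lang M 0,
    mul_sum]
  apply sum_congr rfl
  intro L hL
  have hL' : L ∈ Rn A (n + 1) := by
    rw [← coe_RF]; exact hL
  rw [card_fiber hL', nsmul_eq_mul]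

lemma card_MinF_eq (n : ℕ) :
    ((MinF A (0 : Fin (n + 1))).card : ℝ) = (PF n).card * ((RF A n).card : ℝ) := by
  have := sum_MinF (A := A) (n := n) fun _ => 1
  simpa using this

variable [Fintype Q] [LinearOrder Q]

/-- the language with a given characteristic function -/
def ofB {A : Type u} (f : List A → Bool) : Language A := {x : List A | f x = true}

omit [Fintype A] in
lemma mem_ofB {f : List A → Bool} {x : List A} : x ∈ ofB f ↔ f x = true := Iff.rfl

omit [Fintype A] in
lemma ofB_inj : Function.Injective (ofB (A := A)) := by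
  intro f g h
  funext x
  have h2 : x ∈ ofB f ↔ x ∈ ofB g := by rw [h]
  rw [mem_ofB, mem_ofB] at h2
  cases hb : f x <;> cases hc : g x <;> simp_all

omit [Fintype A] [Fintype Q] [LinearOrder Q] in
lemma leftQuotient_inf (M M' : (Q → A → Q) × (Q → Bool)) (q q' : Q) (w : List A) :
    (lang M q ⊓ lang M' q').leftQuotient w = ofB (lgI M M' (run M.1 q w, run M'.1 q' w)) := by
  ext x
  rw [Language.mem_leftQuotient, mem_ofB]
  show (w ++ x ∈ lang M q ∧ w ++ x ∈ lang M' q') ↔
    lgI M M' (run M.1 q w, run M'.1 q' w) x = true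
  rw [mem_lang, mem_lang, run_append, run_append, lgI, Bool.and_eq_true]

lemma sc_inf (q₀ : Q) (M M' : (Q → A → Q) × (Q → Bool)) :
    sc (lang M q₀ ⊓ lang M' q₀) = scI q₀ M M' := by
  classical
  rw [sc_eq ((regular_lang M q₀).inf (regular_lang M' q₀))]
  have h1 : Set.range (lang M q₀ ⊓ lang M' q₀).leftQuotient =
      ofB '' (((reachI q₀ M.1 M'.1).image (lgI M M') : Finset (List A → Bool)) : Set (List A → Bool)) := by
    ext L
    rw [Set.mem_range, Set.mem_image]
    constructor
    · rintro ⟨w, rfl⟩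
      refine ⟨lgI M M' (run M.1 q₀ w, run M'.1 q₀ w), ?_, (leftQuotient_inf M M' q₀ q₀ w).symm⟩
      rw [coe_image]
      refine ⟨_, ?_, rfl⟩
      rw [mem_coe, reachI, mem_filter]
      exact ⟨mem_univ _, w, rfl⟩
    · rintro ⟨f, hf, rfl⟩
      rw [coe_image] at hf
      obtain ⟨x, hx, rfl⟩ := hf
      rw [mem_coe, reachI, mem_filter] at hx
      obtain ⟨-, w, rfl⟩ := hx
      exact ⟨w, leftQuotient_inf M M' q₀ q₀ w⟩
  rw [h1, Set.ncard_image_of_injective _ ofB_inj, Set.ncard_coe_finset, scI]

omit [Fintype Q] [LinearOrder Q] in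
/-- **(VI)** the average over languages is the average over labelled minimal automata -/
theorem En_eq (A : Type u) [Fintype A] (n : ℕ) :
    En A (n + 1) = (∑ M ∈ MinF A (0 : Fin (n + 1)), ∑ M' ∈ MinF A (0 : Fin (n + 1)),
      (scI 0 M M' : ℝ)) / ((MinF A (0 : Fin (n + 1))).card : ℝ) ^ 2 := by
  classical
  have h1 : (∑ᶠ p ∈ Rn A (n + 1) ×ˢ Rn A (n + 1), (sc (p.1 ⊓ p.2) : ℝ)) =
      ∑ L ∈ RF A n, ∑ L' ∈ RF A n, (sc (L ⊓ L') : ℝ) := by
    rw [← coe_RF, ← coe_product, finsum_mem_coe_finset, sum_product]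
  have h2 : (Rn A (n + 1)).ncard = (RF A n).card := by
    rw [← coe_RF, Set.ncard_coe_finset]
  have h3 : ∑ M ∈ MinF A (0 : Fin (n + 1)), ∑ M' ∈ MinF A (0 : Fin (n + 1)),
      (scI 0 M M' : ℝ) = ((PF n).card : ℝ) ^ 2 *
        ∑ L ∈ RF A n, ∑ L' ∈ RF A n, (sc (L ⊓ L') : ℝ) := by
    have h4 : ∀ M : (Fin (n + 1) → A → Fin (n + 1)) × (Fin (n + 1) → Bool),
        ∑ M' ∈ MinF A (0 : Fin (n + 1)), (scI 0 M M' : ℝ) =
          (PF n).card * ∑ L' ∈ RF A n, (sc (lang M 0 ⊓ L') : ℝ) := by
      intro M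
      rw [← sum_MinF fun L' => (sc (lang M 0 ⊓ L') : ℝ)]
      apply sum_congr rfl
      intro M' _
      rw [sc_inf]
    simp_rw [h4]
    rw [← mul_sum, sum_MinF fun L => ∑ L' ∈ RF A n, (sc (L ⊓ L') : ℝ)]
    ring
  have hpos : (0 : ℝ) < (PF n).card := by exact_mod_cast card_PF_pos n
  rw [En, h1, h2, h3, card_MinF_eq, mul_pow, mul_div_mul_left _ _ (by positivity)]

end lang

end Pool.Agent.SC
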