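import Pool.Agent.W_MP_6663ab_lc.Words

/-!
# Collisions of words of a given length
-/

namespace Pool.Agent.SC

open Finset

universe u v w

variable {A : Type u} {Q : Type v} [Fintype A] [Fintype Q] [LinearOrder Q]

open Classical in
/-- words of length `l` -/
noncomputable def WW (A : Type u) [Fintype A] (l : ℕ) : Finset (List A) :=
  (univ : Finset (Fin l → A)).image List.ofFn

lemma mem_WW {l : ℕ} {u : List A} : u ∈ WW A l ↔ u.length = l := by
  classical
  rw [WW, mem_image]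
  constructor
  · rintro ⟨f, -, rfl⟩
    simp
  · rintro rfl
    exact ⟨u.get, mem_univ _, by simp⟩

lemma card_WW (l : ℕ) : (WW A l).card = Fintype.card A ^ l := by
  classical
  rw [WW, card_image_of_injective _ List.ofFn_injective, card_univ, Fintype.card_fun,
    Fintype.card_fin]

open Classical in
/-- pairs of words of length `l` with a common suffix of length `j` -/
noncomputable def agr (A : Type u) [Fintype A] (l j : ℕ) : Finset (List A × List A) :=
  ((WW A l) ×ˢ (WW A l)).filter fun x => x.1.drop (l - j) = x.2.drop (l - j)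

lemma mem_agr {l j : ℕ} {x : List A × List A} : x ∈ agr A l j ↔
    x.1.length = l ∧ x.2.length = l ∧ x.1.drop (l - j) = x.2.drop (l - j) := by
  classical
  rw [agr, mem_filter, mem_product, mem_WW, mem_WW, and_assoc]

lemma card_agr {l j : ℕ} (hj : j ≤ l) :
    (agr A l j).card * Fintype.card A ^ j ≤ (Fintype.card A ^ l) ^ 2 := by
  classical
  rw [← card_WW (A := A) j, ← card_WW (A := A) l, ← card_product, pow_two, ← card_product]
  apply card_le_card_of_injOn fun y : (List A × List A) × List A =>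
    (y.1.1, y.1.2.take (l - j) ++ y.2)
  · rintro ⟨⟨u, v⟩, z⟩ hy
    rw [mem_coe, mem_product, mem_agr, mem_WW] at hy
    obtain ⟨⟨h1, h2, h3⟩, h4⟩ := hy
    rw [mem_coe, mem_product, mem_WW, mem_WW]
    simp only at h1 h2 h3 h4 ⊢
    refine ⟨h1, ?_⟩
    rw [List.length_append, List.length_take, h2, h4]
    omega
  · rintro ⟨⟨u, v⟩, z⟩ hy ⟨⟨u', v'⟩, z'⟩ hy' h
    rw [mem_coe, mem_product, mem_agr, mem_WW] at hy hy'
    obtain ⟨⟨h1, h2, h3⟩, h4⟩ := hy
    obtain ⟨⟨h1', h2', h3'⟩, h4'⟩ := hy'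
    simp only [Prod.mk.injEq] at h1 h2 h3 h4 h1' h2' h3' h4' h ⊢
    obtain ⟨rfl, h⟩ := h
    have h5 := List.append_inj h (by rw [List.length_take, List.length_take, h2, h2'])
    refine ⟨⟨rfl, ?_⟩, h5.2⟩
    rw [← List.take_append_drop (l - j) v, ← List.take_append_drop (l - j) v', h5.1, ← h3, ← h3']

open Classical in
/-- number of common suffixes (proper) -/
noncomputable def ncs (l : ℕ) (x : List A × List A) : ℕ :=
  ((range l).filter fun j => x ∈ agr A l j).card

lemma sum_ncs_sq (hk : 2 ≤ Fintype.card A) (l : ℕ) :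
    ∑ x ∈ (WW A l) ×ˢ (WW A l), (ncs l x : ℝ) ^ 2 ≤ 16 * ((Fintype.card A : ℝ) ^ l) ^ 2 := by
  classical
  set k := Fintype.card A with hk'
  have hk0 : (0 : ℝ) < k := by
    have : 0 < k := by omega
    exact_mod_cast this
  have h1 : ∀ x : List A × List A, (ncs l x : ℝ) ^ 2 =
      ∑ i ∈ range l, ∑ j ∈ range l, (if x ∈ agr A l i ∧ x ∈ agr A l j then (1 : ℝ) else 0) := by
    intro x
    have : (ncs l x : ℝ) = ∑ i ∈ range l, (if x ∈ agr A l i then (1 : ℝ) else 0) := by
      rw [ncs, card_filter]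
      push_cast
      rfl
    rw [this, pow_two, sum_mul_sum]
    apply sum_congr rfl
    intro i _
    apply sum_congr rfl
    intro j _
    by_cases h1 : x ∈ agr A l i <;> by_cases h2 : x ∈ agr A l j <;> simp [h1, h2]
  simp_rw [h1]
  rw [sum_comm]
  have h2 : ∀ i ∈ range l, ∑ x ∈ (WW A l) ×ˢ (WW A l), ∑ j ∈ range l,
      (if x ∈ agr A l i ∧ x ∈ agr A l j then (1 : ℝ) else 0) ≤
      ∑ j ∈ range l, ((3 / 4 : ℝ) ^ i * (3 / 4) ^ j) * ((k : ℝ) ^ l) ^ 2 := by
    intro i hi
    rw [sum_comm]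
    apply sum_le_sum
    intro j hj
    rw [mem_range] at hi hj
    have h3 : ∑ x ∈ (WW A l) ×ˢ (WW A l),
        (if x ∈ agr A l i ∧ x ∈ agr A l j then (1 : ℝ) else 0) ≤ (agr A l (max i j)).card := by
      rw [← sum_filter, sum_const, nsmul_eq_mul, mul_one]
      norm_cast
      apply card_le_card
      intro x hx
      rw [mem_filter] at hx
      rcases max_choice i j with h | h <;> rw [h]
      · exact hx.2.1
      · exact hx.2.2
    refine h3.trans ?_
    have h4 := card_agr (A := A) (l := l) (j := max i j) (max_le hi.le hj.le)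
    rw [← hk'] at h4
    have h5 : ((agr A l (max i j)).card : ℝ) * (k : ℝ) ^ (max i j) ≤ ((k : ℝ) ^ l) ^ 2 := by
      exact_mod_cast h4
    have h6 : (1 : ℝ) ≤ ((3 / 4 : ℝ) ^ i * (3 / 4) ^ j) * (k : ℝ) ^ (max i j) := by
      have h7 : (2 : ℝ) ^ (max i j) ≤ (k : ℝ) ^ (max i j) := by
        apply pow_le_pow_left₀ (by norm_num)
        exact_mod_cast hk
      have h8 : (3 / 4 : ℝ) ^ (2 * max i j) ≤ (3 / 4 : ℝ) ^ i * (3 / 4) ^ j := by
        rw [← pow_add]
        apply pow_le_pow_of_le_one (by norm_num) (by norm_num)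
        have := le_max_left i j
        have := le_max_right i j
        omega
      have h9 : (1 : ℝ) ≤ (3 / 4 : ℝ) ^ (2 * max i j) * 2 ^ (max i j) := by
        rw [pow_mul, ← mul_pow]
        apply one_le_pow₀
        norm_num
      calc (1 : ℝ) ≤ (3 / 4 : ℝ) ^ (2 * max i j) * 2 ^ (max i j) := h9
        _ ≤ ((3 / 4 : ℝ) ^ i * (3 / 4) ^ j) * (k : ℝ) ^ (max i j) :=
            mul_le_mul h8 h7 (by positivity) (by positivity)
    calc ((agr A l (max i j)).card : ℝ)
        ≤ (agr A l (max i j)).card * (((3 / 4 : ℝ) ^ i * (3 / 4) ^ j) * (k : ℝ) ^ (max i j)) :=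
          le_mul_of_one_le_right (by positivity) h6
      _ = ((3 / 4 : ℝ) ^ i * (3 / 4) ^ j) *
          (((agr A l (max i j)).card : ℝ) * (k : ℝ) ^ (max i j)) := by ring
      _ ≤ _ := mul_le_mul_of_nonneg_left h5 (by positivity)
  refine (sum_le_sum h2).trans ?_
  have h3 : ∀ i ∈ range l, ∑ j ∈ range l, ((3 / 4 : ℝ) ^ i * (3 / 4) ^ j) * ((k : ℝ) ^ l) ^ 2 =
      (3 / 4 : ℝ) ^ i * ((∑ j ∈ range l, (3 / 4 : ℝ) ^ j) * ((k : ℝ) ^ l) ^ 2) := by
    intro i _
    rw [sum_mul, mul_sum]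
    apply sum_congr rfl
    intro j _
    ring
  rw [sum_congr rfl h3, ← sum_mul, ← mul_assoc]
  apply mul_le_mul_of_nonneg_right _ (by positivity)
  have h4 : ∑ j ∈ range l, (3 / 4 : ℝ) ^ j ≤ 4 := by
    rw [geom_sum_eq (by norm_num)]
    have : (0 : ℝ) ≤ (3 / 4) ^ l := by positivity
    rw [div_le_iff_of_neg (by norm_num)]
    linarith
  have h5 : (0 : ℝ) ≤ ∑ j ∈ range l, (3 / 4 : ℝ) ^ j := sum_nonneg fun _ _ => by positivity
  nlinarith

open Classical in
/-- structures in which `u` and `v` are self-avoiding and lead to the same state -/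
noncomputable def CC (q₀ : Q) (u v : List A) : Finset (Q → A → Q) :=
  (AccF A q₀).filter fun δ => SA δ q₀ u ∧ SA δ q₀ v ∧ run δ q₀ u = run δ q₀ v

lemma card_CC [Nonempty A] (q₀ : Q) {l : ℕ} {u v : List A} (hu : u.length = l) (hv : v.length = l)
    (hne : u ≠ v) : (CC q₀ u v).card * Fintype.card Q ≤ 2 * ncs l (u, v) * (AccF A q₀).card := by
  classical
  let P : ℕ → Finset (Q → A → Q) := fun j =>
    (AccF A q₀).filter fun δ => ∃ x a y b z, u = x ++ a :: z ∧ v = y ++ b :: z ∧ z.length = j ∧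
      δ ∈ Mrg q₀ x a y b
  have hsub : CC q₀ u v ⊆ ((range l).filter fun j => (u, v) ∈ agr A l j).biUnion P := by
    intro δ hδ
    rw [CC, mem_filter] at hδ
    obtain ⟨hacc, h1, h2, h3⟩ := hδ
    obtain ⟨x, a, y, b, z, hux, hvy, hr, hd⟩ := exists_merge (hu.trans hv.symm) hne h3
    rw [mem_biUnion]
    have hlx : x.length + (z.length + 1) = l := by
      rw [← hu, hux, List.length_append, List.length_cons]
    have hly : y.length + (z.length + 1) = l := by
      rw [← hv, hvy, List.length_append, List.length_cons]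
    refine ⟨z.length, ?_, ?_⟩
    · rw [mem_filter, mem_range, mem_agr]
      refine ⟨by omega, hu, hv, ?_⟩
      have e1 : u.drop (l - z.length) = z := by
        rw [hux, show x ++ a :: z = (x ++ [a]) ++ z by simp]
        rw [List.drop_append_of_le_length (by simp; omega)]
        have : (x ++ [a]).length = l - z.length := by simp; omega
        rw [← this, List.drop_length, List.nil_append]
      have e2 : v.drop (l - z.length) = z := by
        rw [hvy, show y ++ b :: z = (y ++ [b]) ++ z by simp]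
        rw [List.drop_append_of_le_length (by simp; omega)]
        have : (y ++ [b]).length = l - z.length := by simp; omega
        rw [← this, List.drop_length, List.nil_append]
      rw [e1, e2]
    · rw [mem_filter]
      refine ⟨hacc, x, a, y, b, z, hux, hvy, rfl, ?_⟩
      rw [Mrg, mem_filter]
      refine ⟨hacc, ?_, ?_, hr, hd⟩
      · apply SA.left (v := z)
        rw [hux] at h1
        simpa using h1
      · apply SA.left (v := z)
        rw [hvy] at h2
        simpa using h2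
  have hP : ∀ j, (P j).card * Fintype.card Q ≤ 2 * (AccF A q₀).card := by
    intro j
    by_cases h : ∃ x a y b z, u = x ++ a :: z ∧ v = y ++ b :: z ∧ z.length = j
    · obtain ⟨x, a, y, b, z, hux, hvy, hz⟩ := h
      refine le_trans (Nat.mul_le_mul_right _ (card_le_card ?_)) (card_Mrg q₀ x a y b)
      intro δ hδ
      rw [mem_filter] at hδ
      obtain ⟨-, x', a', y', b', z', hux', hvy', hz', hm⟩ := hδ
      have h1 : x ++ a :: z = x' ++ a' :: z' := by rw [← hux, ← hux']
      have h2 : y ++ b :: z = y' ++ b' :: z' := by rw [← hvy, ← hvy']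
      have h3 := List.append_inj' h1 (by simp [hz, hz'])
      have h4 := List.append_inj' h2 (by simp [hz, hz'])
      obtain ⟨rfl, h5⟩ := h3
      obtain ⟨rfl, h6⟩ := h4
      rw [List.cons.injEq] at h5 h6
      rw [h5.1, h6.1]
      exact hm
    · have : P j = ∅ := by
        rw [eq_empty_iff_forall_notMem]
        intro δ hδ
        rw [mem_filter] at hδ
        obtain ⟨-, x', a', y', b', z', hux', hvy', hz', hm⟩ := hδ
        exact h ⟨x', a', y', b', z', hux', hvy', hz'⟩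
      rw [this]; simp
  calc (CC q₀ u v).card * Fintype.card Q
      ≤ (∑ j ∈ (range l).filter fun j => (u, v) ∈ agr A l j, (P j).card) * Fintype.card Q :=
        Nat.mul_le_mul_right _ ((card_le_card hsub).trans card_biUnion_le)
    _ = ∑ j ∈ (range l).filter fun j => (u, v) ∈ agr A l j, (P j).card * Fintype.card Q :=
        sum_mul _ _ _
    _ ≤ ∑ j ∈ (range l).filter fun j => (u, v) ∈ agr A l j, 2 * (AccF A q₀).card :=
        sum_le_sum fun j _ => hP j
    _ = _ := by rw [sum_const, smul_eq_mul, ncs]; ring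

open Classical in
/-- words that are self-avoiding in both structures -/
noncomputable def goodW (q₀ : Q) (l : ℕ) (δ δ' : Q → A → Q) : Finset (List A) :=
  (WW A l).filter fun u => SA δ q₀ u ∧ SA δ' q₀ u

open Classical in
/-- words that are not self-avoiding -/
noncomputable def badW (q₀ : Q) (l : ℕ) (δ : Q → A → Q) : Finset (List A) :=
  (WW A l).filter fun u => ¬ SA δ q₀ u

open Classical in
/-- collisions of good words -/
noncomputable def coll (q₀ : Q) (l : ℕ) (δ δ' : Q → A → Q) : Finset (List A × List A) :=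
  ((goodW q₀ l δ δ') ×ˢ (goodW q₀ l δ δ')).filter fun x =>
    (run δ q₀ x.1, run δ' q₀ x.1) = (run δ q₀ x.2, run δ' q₀ x.2)

lemma card_goodW (q₀ : Q) (l : ℕ) (δ δ' : Q → A → Q) :
    Fintype.card A ^ l ≤ (goodW q₀ l δ δ').card + (badW q₀ l δ).card + (badW q₀ l δ').card := by
  classical
  rw [← card_WW (A := A) l]
  have : WW A l ⊆ goodW q₀ l δ δ' ∪ badW q₀ l δ ∪ badW q₀ l δ' := by
    intro u hu
    rw [mem_union, mem_union, goodW, badW, badW, mem_filter, mem_filter, mem_filter]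
    by_cases h1 : SA δ q₀ u
    · by_cases h2 : SA δ' q₀ u
      · exact Or.inl (Or.inl ⟨hu, h1, h2⟩)
      · exact Or.inr ⟨hu, h2⟩
    · exact Or.inl (Or.inr ⟨hu, h1⟩)
  refine (card_le_card this).trans ((card_union_le _ _).trans ?_)
  exact Nat.add_le_add_right (card_union_le _ _) _

lemma sum_badW [Nonempty A] (q₀ : Q) (l : ℕ) :
    (∑ δ ∈ AccF A q₀, (badW q₀ l δ).card) * Fintype.card Q ≤
      Fintype.card A ^ l * ((l + 2) ^ 3 * (AccF A q₀).card) := by
  classical
  have h1 : ∑ δ ∈ AccF A q₀, (badW q₀ l δ).card =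
      ∑ u ∈ WW A l, ((AccF A q₀).filter fun δ => ¬ SA δ q₀ u).card := by
    simp_rw [badW, card_filter]
    rw [sum_comm]
  rw [h1, sum_mul]
  calc ∑ u ∈ WW A l, ((AccF A q₀).filter fun δ => ¬ SA δ q₀ u).card * Fintype.card Q
      ≤ ∑ u ∈ WW A l, (l + 2) ^ 3 * (AccF A q₀).card := by
        apply sum_le_sum
        intro u hu
        have := card_not_SA q₀ u
        rwa [mem_WW.1 hu] at this
    _ = _ := by rw [sum_const, smul_eq_mul, card_WW]

theorem sum_coll [Nonempty A] (q₀ : Q) (hk : 2 ≤ Fintype.card A) (l : ℕ) :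
    (∑ δ ∈ AccF A q₀, ∑ δ' ∈ AccF A q₀, ((coll q₀ l δ δ').card : ℝ)) * (Fintype.card Q : ℝ) ^ 2 ≤
      ((Fintype.card A : ℝ) ^ l * (Fintype.card Q : ℝ) ^ 2 +
        64 * ((Fintype.card A : ℝ) ^ l) ^ 2) * ((AccF A q₀).card : ℝ) ^ 2 := by
  classical
  set k := Fintype.card A with hk'
  set n := Fintype.card Q with hn
  set N := (AccF A q₀).card with hN
  -- rewrite as a sum over pairs of words
  have h1 : ∀ δ ∈ AccF A q₀, ∀ δ' ∈ AccF A q₀, ((coll q₀ l δ δ').card : ℝ) =
      ∑ x ∈ (WW A l) ×ˢ (WW A l),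
        (if δ ∈ CC q₀ x.1 x.2 then (1 : ℝ) else 0) * (if δ' ∈ CC q₀ x.1 x.2 then 1 else 0) := by
    intro δ hδ δ' hδ'
    have : coll q₀ l δ δ' = ((WW A l) ×ˢ (WW A l)).filter fun x =>
        δ ∈ CC q₀ x.1 x.2 ∧ δ' ∈ CC q₀ x.1 x.2 := by
      ext x
      simp only [coll, goodW, CC, mem_filter, mem_product, Prod.mk.injEq]
      tauto
    rw [this, card_filter]
    push_cast
    apply sum_congr rfl
    intro x _
    by_cases h1 : δ ∈ CC q₀ x.1 x.2 <;> by_cases h2 : δ' ∈ CC q₀ x.1 x.2 <;> simp [h1, h2]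
  have h2 : ∑ δ ∈ AccF A q₀, ∑ δ' ∈ AccF A q₀, ((coll q₀ l δ δ').card : ℝ) =
      ∑ x ∈ (WW A l) ×ˢ (WW A l), ((CC q₀ x.1 x.2).card : ℝ) ^ 2 := by
    rw [sum_congr rfl fun δ hδ => sum_congr rfl fun δ' hδ' => h1 δ hδ δ' hδ']
    rw [sum_congr rfl fun δ hδ => sum_comm, sum_comm]
    apply sum_congr rfl
    intro x _
    have h3 : ∑ δ ∈ AccF A q₀, (if δ ∈ CC q₀ x.1 x.2 then (1 : ℝ) else 0) =
        (CC q₀ x.1 x.2).card := by
      rw [← sum_filter, sum_const, nsmul_eq_mul, mul_one]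
      congr 2
      ext δ
      rw [mem_filter, and_iff_right_iff_imp]
      intro h
      rw [CC, mem_filter] at h
      exact h.1
    simp_rw [← mul_sum]
    rw [← sum_mul, h3, pow_two]
  rw [h2, sum_mul]
  have h3 : ∀ x ∈ (WW A l) ×ˢ (WW A l), ((CC q₀ x.1 x.2).card : ℝ) ^ 2 * (n : ℝ) ^ 2 ≤
      (if x.1 = x.2 then (N : ℝ) ^ 2 * (n : ℝ) ^ 2 else 0) +
        4 * (ncs l x : ℝ) ^ 2 * (N : ℝ) ^ 2 := by
    rintro ⟨u, v⟩ hx
    rw [mem_product, mem_WW, mem_WW] at hx
    simp only at hx ⊢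
    by_cases huv : u = v
    · rw [if_pos huv]
      have h4 : ((CC q₀ u v).card : ℝ) ≤ N := by
        exact_mod_cast card_le_card (filter_subset _ _)
      have h5 : ((CC q₀ u v).card : ℝ) ^ 2 ≤ (N : ℝ) ^ 2 := pow_le_pow_left₀ (by positivity) h4 2
      have h6 := mul_le_mul_of_nonneg_right h5 (sq_nonneg (n : ℝ))
      have h7 : (0 : ℝ) ≤ 4 * (ncs l (u, v) : ℝ) ^ 2 * (N : ℝ) ^ 2 := by positivity
      linarith
    · rw [if_neg huv, zero_add]
      have h4 := card_CC q₀ hx.1 hx.2 huv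
      rw [← hn, ← hN] at h4
      have h5 : ((CC q₀ u v).card : ℝ) * (n : ℝ) ≤ 2 * (ncs l (u, v) : ℝ) * (N : ℝ) := by
        exact_mod_cast h4
      have h6 := pow_le_pow_left₀ (by positivity) h5 2
      calc ((CC q₀ u v).card : ℝ) ^ 2 * (n : ℝ) ^ 2 = (((CC q₀ u v).card : ℝ) * (n : ℝ)) ^ 2 := by
            ring
        _ ≤ (2 * (ncs l (u, v) : ℝ) * (N : ℝ)) ^ 2 := h6
        _ = _ := by ring
  refine (sum_le_sum h3).trans ?_
  rw [sum_add_distrib]
  have h4 : ∑ x ∈ (WW A l) ×ˢ (WW A l), (if x.1 = x.2 then (N : ℝ) ^ 2 * (n : ℝ) ^ 2 else 0) =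
      (k : ℝ) ^ l * ((N : ℝ) ^ 2 * (n : ℝ) ^ 2) := by
    rw [sum_product]
    have : ∀ u ∈ WW A l, ∑ v ∈ WW A l, (if u = v then (N : ℝ) ^ 2 * (n : ℝ) ^ 2 else 0) =
        (N : ℝ) ^ 2 * (n : ℝ) ^ 2 := by
      intro u hu
      rw [sum_ite_eq, if_pos hu]
    rw [sum_congr rfl this, sum_const, card_WW, nsmul_eq_mul]
    push_cast
    rfl
  rw [h4]
  have h5 : ∑ x ∈ (WW A l) ×ˢ (WW A l), 4 * (ncs l x : ℝ) ^ 2 * (N : ℝ) ^ 2 ≤
      64 * ((k : ℝ) ^ l) ^ 2 * (N : ℝ) ^ 2 := by
    rw [← sum_mul, ← mul_sum]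
    apply mul_le_mul_of_nonneg_right _ (by positivity)
    have := sum_ncs_sq (A := A) hk l
    rw [← hk'] at this
    linarith
  calc _ ≤ (k : ℝ) ^ l * ((N : ℝ) ^ 2 * (n : ℝ) ^ 2) + 64 * ((k : ℝ) ^ l) ^ 2 * (N : ℝ) ^ 2 :=
        add_le_add_right h5 _
    _ = _ := by ring

end Pool.Agent.SC
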