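import Pool.Agent.W_MP_6663ab_lc.Nodes

/-!
# Principal congruences of a transition structure
-/

namespace Pool.Agent.SC

open Finset

universe u v w

section cong
variable {A : Type u} {Q : Type v}

/-- the congruence generated by the pair `(p, q)` -/
def cg (δ : Q → A → Q) (p q : Q) : Setoid Q :=
  Relation.EqvGen.setoid fun x y => ∃ w : List A, x = run δ p w ∧ y = run δ q w

lemma cg_gen (δ : Q → A → Q) (p q : Q) (w : List A) : cg δ p q (run δ p w) (run δ q w) :=
  Relation.EqvGen.rel _ _ ⟨w, rfl, rfl⟩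

lemma cg_pq (δ : Q → A → Q) (p q : Q) : cg δ p q p q := cg_gen δ p q []

lemma cg_le {δ : Q → A → Q} {p q : Q} (s : Setoid Q)
    (h : ∀ w : List A, s (run δ p w) (run δ q w)) {x y : Q} (hxy : cg δ p q x y) : s x y := by
  induction hxy with
  | rel x y h' =>
    obtain ⟨w, rfl, rfl⟩ := h'
    exact h w
  | refl x => exact s.refl x
  | symm x y _ ih => exact s.symm ih
  | trans x y z _ _ ih1 ih2 => exact s.trans ih1 ih2

lemma cg_congr {δ : Q → A → Q} {p q : Q} {x y : Q} (hxy : cg δ p q x y) (a : A) :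
    cg δ p q (δ x a) (δ y a) := by
  refine cg_le (s := (cg δ p q).comap fun x => δ x a) ?_ hxy
  intro w
  show cg δ p q (δ (run δ p w) a) (δ (run δ q w) a)
  rw [← run_concat δ p, ← run_concat δ q]
  exact cg_gen δ p q _

/-- Nerode equivalence of states -/
def Eqv (δ : Q → A → Q) (F : Q → Bool) (p q : Q) : Prop :=
  ∀ w : List A, F (run δ p w) = F (run δ q w)

lemma cg_inv {δ : Q → A → Q} {F : Q → Bool} {p q : Q} (h : Eqv δ F p q) {x y : Q}
    (hxy : cg δ p q x y) : F x = F y :=
  cg_le (s := Setoid.ker F) (fun w => h w) hxy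

end cong

variable {A : Type u} {Q : Type v} [Fintype A] [Fintype Q] [LinearOrder Q]

open Classical in
/-- number of classes -/
noncomputable def ncl (δ : Q → A → Q) (p q : Q) : ℕ := Fintype.card (Quotient (cg δ p q))

open Classical in
lemma card_Eqv_le (δ : Q → A → Q) (p q : Q) :
    ((univ : Finset (Q → Bool)).filter fun F => Eqv δ F p q).card ≤ 2 ^ ncl δ p q := by
  rw [ncl, ← Fintype.card_bool, ← Fintype.card_fun, ← card_univ]
  apply card_le_card_of_injOn fun F => fun c => F (Quotient.out c)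
  · intro F _
    exact mem_univ _
  · intro F hF G hG h
    rw [mem_coe, mem_filter] at hF hG
    funext x
    have h1 := congrFun h (Quotient.mk (cg δ p q) x)
    simp only at h1
    have h2 : cg δ p q (Quotient.out (Quotient.mk (cg δ p q) x)) x := Quotient.mk_out x
    rw [← cg_inv hF.2 h2, ← cg_inv hG.2 h2, h1]

open Classical in
/-- states in nontrivial classes -/
noncomputable def sup (δ : Q → A → Q) (p q : Q) : Finset Q :=
  univ.filter fun x => ∃ y, y ≠ x ∧ cg δ p q x y

lemma mem_sup {δ : Q → A → Q} {p q x : Q} : x ∈ sup δ p q ↔ ∃ y, y ≠ x ∧ cg δ p q x y := by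
  classical
  simp [sup]

open Classical in
/-- nontrivial classes -/
noncomputable def ntc (δ : Q → A → Q) (p q : Q) : Finset (Quotient (cg δ p q)) :=
  (sup δ p q).image (Quotient.mk _)

lemma mk_eq {δ : Q → A → Q} {p q x y : Q} :
    (Quotient.mk (cg δ p q) x = Quotient.mk (cg δ p q) y) ↔ cg δ p q x y := Quotient.eq

lemma sup_of_cg {δ : Q → A → Q} {p q x y : Q} (h : cg δ p q x y) (hne : x ≠ y) :
    x ∈ sup δ p q ∧ y ∈ sup δ p q :=
  ⟨mem_sup.2 ⟨y, hne.symm, h⟩, mem_sup.2 ⟨x, hne, (cg δ p q).symm h⟩⟩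

/-- classes and support -/
lemma ncl_add (δ : Q → A → Q) (p q : Q) :
    ncl δ p q + (sup δ p q).card = Fintype.card Q + (ntc δ p q).card := by
  classical
  set S := sup δ p q with hS
  have h1 : ncl δ p q = (Sᶜ).card + (ntc δ p q).card := by
    rw [ncl, ← card_univ]
    have h2 : (univ : Finset (Quotient (cg δ p q))) =
        (Sᶜ).image (Quotient.mk _) ∪ ntc δ p q := by
      ext c
      simp only [mem_univ, true_iff, mem_union]
      induction c using Quotient.inductionOn with
      | _ x =>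
        by_cases hx : x ∈ S
        · exact Or.inr (mem_image_of_mem _ hx)
        · exact Or.inl (mem_image_of_mem _ (mem_compl.2 hx))
    have hdisj : Disjoint ((Sᶜ).image (Quotient.mk (cg δ p q))) (ntc δ p q) := by
      rw [disjoint_left]
      intro c hc1 hc2
      obtain ⟨x, hx, rfl⟩ := mem_image.1 hc1
      obtain ⟨y, hy, hxy⟩ := mem_image.1 hc2
      rw [mem_compl] at hx
      have h3 : cg δ p q y x := mk_eq.1 hxy
      by_cases hne : y = x
      · exact hx (hne ▸ hy)
      · exact hx (sup_of_cg h3 hne).2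
    rw [h2, card_union_of_disjoint hdisj, card_image_of_injOn]
    intro x hx y _ hxy
    by_contra hne
    have h3 : cg δ p q x y := mk_eq.1 hxy
    rw [mem_coe, mem_compl] at hx
    exact hx (sup_of_cg h3 hne).1
  have h4 : S.card ≤ Fintype.card Q := card_le_univ _
  rw [h1, card_compl]
  omega

lemma two_mul_ntc_le (δ : Q → A → Q) (p q : Q) :
    2 * (ntc δ p q).card ≤ (sup δ p q).card := by
  classical
  have h1 : (sup δ p q).card = ∑ c ∈ ntc δ p q,
      ((sup δ p q).filter fun x => Quotient.mk (cg δ p q) x = c).card :=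
    card_eq_sum_card_fiberwise fun x hx => mem_image_of_mem _ hx
  rw [h1, mul_comm, ← smul_eq_mul, ← sum_const]
  apply sum_le_sum
  intro c hc
  obtain ⟨x, hx, rfl⟩ := mem_image.1 hc
  obtain ⟨y, hne, hxy⟩ := mem_sup.1 hx
  have h2 : ({x, y} : Finset Q) ⊆
      ((sup δ p q).filter fun z => Quotient.mk (cg δ p q) z = Quotient.mk (cg δ p q) x) := by
    intro z hz
    rw [mem_filter]
    rcases mem_insert.1 hz with rfl | hz
    · exact ⟨hx, rfl⟩
    · rw [mem_singleton] at hz
      subst hz
      exact ⟨(sup_of_cg hxy hne.symm).2, mk_eq.2 ((cg δ p q).symm hxy)⟩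
  calc 2 = ({x, y} : Finset Q).card := (card_pair hne.symm).symm
    _ ≤ _ := card_le_card h2

lemma p_mem_sup {δ : Q → A → Q} {p q : Q} (h : p ≠ q) : p ∈ sup δ p q ∧ q ∈ sup δ p q :=
  sup_of_cg (cg_pq δ p q) h

lemma ntc_pos {δ : Q → A → Q} {p q : Q} (h : p ≠ q) : 0 < (ntc δ p q).card := by
  classical
  rw [card_pos]
  exact ⟨_, mem_image_of_mem _ (p_mem_sup h).1⟩

/-- every nontrivial class other than that of `p` is entered from a nontrivial class -/
lemma exists_hit {δ : Q → A → Q} {p q : Q} {x : Q} (hx : x ∈ sup δ p q)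
    (hne : ¬ cg δ p q p x) : ∃ y ∈ sup δ p q, ∃ a, cg δ p q (δ y a) x := by
  obtain ⟨x', hx', hxx'⟩ := mem_sup.1 hx
  have h1 : ∃ w : List A, run δ p w ≠ run δ q w ∧ cg δ p q (run δ p w) x := by
    by_contra hcon
    push Not at hcon
    -- the modified equivalence
    let s : Setoid Q :=
      { r := fun y z => y = z ∨ (cg δ p q y z ∧ ¬ cg δ p q y x)
        iseqv :=
          { refl := fun y => Or.inl rfl
            symm := by
              rintro y z (rfl | ⟨h, h'⟩)
              · exact Or.inl rfl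
              · exact Or.inr ⟨(cg δ p q).symm h, fun h2 => h' ((cg δ p q).trans h h2)⟩
            trans := by
              rintro y z t (rfl | ⟨h, h'⟩) (rfl | ⟨h2, h2'⟩)
              · exact Or.inl rfl
              · exact Or.inr ⟨h2, h2'⟩
              · exact Or.inr ⟨h, h'⟩
              · exact Or.inr ⟨(cg δ p q).trans h h2, h'⟩ } }
    have h2 : s x x' := by
      refine cg_le s ?_ hxx'
      intro w
      by_cases hw : run δ p w = run δ q w
      · exact Or.inl hw
      · exact Or.inr ⟨cg_gen δ p q w, hcon w hw⟩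
    rcases h2 with h2 | ⟨-, h2⟩
    · exact hx' h2.symm
    · exact h2 ((cg δ p q).refl x)
  obtain ⟨w, hw, hwx⟩ := h1
  rcases List.eq_nil_or_concat w with rfl | ⟨w', a, rfl⟩
  · exact absurd hwx hne
  · rw [List.concat_eq_append] at hw hwx
    rw [run_concat] at hw hwx
    rw [run_concat] at hw
    have hne' : run δ p w' ≠ run δ q w' := fun h => hw (by rw [h])
    exact ⟨run δ p w', (sup_of_cg (cg_gen δ p q w') hne').1, a, hwx⟩

open Classical in
/-- targets outside the support -/
noncomputable def outS (δ : Q → A → Q) (p q : Q) : Finset Q :=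
  univ.filter fun z => z ∉ sup δ p q ∧ ∃ x ∈ sup δ p q, ∃ a, δ x a = z

lemma mem_outS {δ : Q → A → Q} {p q z : Q} :
    z ∈ outS δ p q ↔ z ∉ sup δ p q ∧ ∃ x ∈ sup δ p q, ∃ a, δ x a = z := by
  classical
  simp [outS]

lemma card_outS (δ : Q → A → Q) {p q : Q} (hpq : p ≠ q) :
    (outS δ p q).card + (ntc δ p q).card ≤ Fintype.card A * (ntc δ p q).card + 1 := by
  classical
  set C := ntc δ p q with hC
  set c0 := Quotient.mk (cg δ p q) p with hc0
  have hc0C : c0 ∈ C := mem_image_of_mem _ (p_mem_sup hpq).1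
  -- choice functions
  have h1 : ∀ z ∈ outS δ p q, ∃ e : Quotient (cg δ p q) × A, ∃ x ∈ sup δ p q,
      e.1 = Quotient.mk _ x ∧ δ x e.2 = z := by
    intro z hz
    obtain ⟨-, x, hx, a, ha⟩ := mem_outS.1 hz
    exact ⟨(Quotient.mk _ x, a), x, hx, rfl, ha⟩
  have h2 : ∀ c ∈ C.erase c0, ∃ e : Quotient (cg δ p q) × A, ∃ x ∈ sup δ p q,
      e.1 = Quotient.mk _ x ∧ Quotient.mk (cg δ p q) (δ x e.2) = c := by
    intro c hc
    rw [mem_erase] at hc
    obtain ⟨x, hx, rfl⟩ := mem_image.1 hc.2
    have hne : ¬ cg δ p q p x := fun h => hc.1 (mk_eq.2 ((cg δ p q).symm h))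
    obtain ⟨y, hy, a, hya⟩ := exists_hit hx hne
    exact ⟨(Quotient.mk _ y, a), y, hy, rfl, mk_eq.2 hya⟩
  have hA : Nonempty (Quotient (cg δ p q) × A) ∨ outS δ p q = ∅ ∧ C.erase c0 = ∅ := by
    by_cases hA : Nonempty A
    · obtain ⟨a⟩ := hA
      exact Or.inl ⟨(c0, a)⟩
    · right
      constructor
      · rw [eq_empty_iff_forall_notMem]
        intro z hz
        obtain ⟨e, -⟩ := h1 z hz
        exact hA ⟨e.2⟩
      · rw [eq_empty_iff_forall_notMem]
        intro z hz
        obtain ⟨e, -⟩ := h2 z hz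
        exact hA ⟨e.2⟩
  have hcard : (outS δ p q).card + (C.erase c0).card ≤ C.card * Fintype.card A := by
    rcases hA with hA | ⟨e1, e2⟩
    · choose! f1 hf1 using h1
      choose! f2 hf2 using h2
      rw [← card_univ (α := A), ← card_product, ← card_disjSum]
      apply card_le_card_of_injOn (Sum.elim f1 f2)
      · intro z hz
        rw [mem_coe, mem_disjSum] at hz
        rcases hz with ⟨z, hz, rfl⟩ | ⟨c, hc, rfl⟩
        · obtain ⟨x, hx, h3, -⟩ := hf1 z hz
          rw [mem_coe, mem_product]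
          refine ⟨?_, mem_univ _⟩
          simp only [Sum.elim_inl]
          rw [h3]
          exact mem_image_of_mem _ hx
        · obtain ⟨x, hx, h3, -⟩ := hf2 c hc
          rw [mem_coe, mem_product]
          refine ⟨?_, mem_univ _⟩
          simp only [Sum.elim_inr]
          rw [h3]
          exact mem_image_of_mem _ hx
      · -- injectivity
        have k11 : ∀ z ∈ outS δ p q, ∀ z' ∈ outS δ p q, f1 z = f1 z' → z = z' := by
          intro z hz z' hz' h
          obtain ⟨x, hx, h3, h4⟩ := hf1 z hz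
          obtain ⟨x', hx', h3', h4'⟩ := hf1 z' hz'
          have h5 : cg δ p q x x' := mk_eq.1 (by rw [← h3, ← h3', h])
          have h6 := cg_congr h5 (f1 z).2
          rw [h4, h, h4'] at h6
          by_contra hne
          exact (mem_outS.1 hz).1 (sup_of_cg h6 hne).1
        have k12 : ∀ z ∈ outS δ p q, ∀ c ∈ C.erase c0, f1 z ≠ f2 c := by
          intro z hz c hc h
          obtain ⟨x, hx, h3, h4⟩ := hf1 z hz
          obtain ⟨x', hx', h3', h4'⟩ := hf2 c hc
          have h5 : cg δ p q x x' := mk_eq.1 (by rw [← h3, ← h3', h])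
          have h6 := cg_congr h5 (f1 z).2
          rw [h4, h] at h6
          obtain ⟨y, hy, rfl⟩ := mem_image.1 (mem_erase.1 hc).2
          have h7 : cg δ p q (δ x' (f2 (Quotient.mk _ y)).2) y := mk_eq.1 h4'
          have h8 := (cg δ p q).trans h6 h7
          apply (mem_outS.1 hz).1
          by_cases hne : z = y
          · rw [hne]; exact hy
          · exact (sup_of_cg h8 hne).1
        have k22 : ∀ c ∈ C.erase c0, ∀ c' ∈ C.erase c0, f2 c = f2 c' → c = c' := by
          intro c hc c' hc' h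
          obtain ⟨x, hx, h3, h4⟩ := hf2 c hc
          obtain ⟨x', hx', h3', h4'⟩ := hf2 c' hc'
          have h5 : cg δ p q x x' := mk_eq.1 (by rw [← h3, ← h3', h])
          have h6 := cg_congr h5 (f2 c).2
          rw [← h4, ← h4', ← h]
          exact mk_eq.2 h6
        intro z hz z' hz' h
        rw [mem_coe, mem_disjSum] at hz hz'
        rcases hz with ⟨z, hz, rfl⟩ | ⟨c, hc, rfl⟩ <;>
          rcases hz' with ⟨z', hz', rfl⟩ | ⟨c', hc', rfl⟩ <;>
          simp only [Sum.elim_inl, Sum.elim_inr] at h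
        · rw [k11 z hz z' hz' h]
        · exact absurd h (k12 z hz c' hc')
        · exact absurd h.symm (k12 z' hz' c hc)
        · rw [k22 c hc c' hc' h]
    · rw [e1, e2]; simp
  rw [card_erase_of_mem hc0C] at hcard
  have hpos := card_pos.2 ⟨c0, hc0C⟩
  rw [mul_comm] at hcard
  omega

/-- twin states -/
def Twin (δ : Q → A → Q) (p q : Q) : Prop := ∀ a, δ p a = δ q a

/-- in rank one and for non-twins there is one more internal transition -/
lemma card_outS_one (δ : Q → A → Q) {p q : Q} (hpq : p ≠ q)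
    (h1 : (sup δ p q).card = (ntc δ p q).card + 1) (ht : ¬ Twin δ p q) :
    (outS δ p q).card + 1 ≤ Fintype.card A ∧ (sup δ p q).card = 2 := by
  classical
  have h2 := two_mul_ntc_le δ p q
  have h3 := ntc_pos (δ := δ) hpq
  have h4 : (ntc δ p q).card = 1 := by omega
  have h5 : (sup δ p q).card = 2 := by omega
  refine ⟨?_, h5⟩
  obtain ⟨c, hc⟩ := card_eq_one.1 h4
  have hall : ∀ x ∈ sup δ p q, ∀ y ∈ sup δ p q, cg δ p q x y := by
    intro x hx y hy
    have hx' : Quotient.mk (cg δ p q) x ∈ ntc δ p q := mem_image_of_mem _ hx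
    have hy' : Quotient.mk (cg δ p q) y ∈ ntc δ p q := mem_image_of_mem _ hy
    rw [hc, mem_singleton] at hx' hy'
    exact mk_eq.1 (hx'.trans hy'.symm)
  simp only [Twin, not_forall] at ht
  obtain ⟨a, ha⟩ := ht
  have hpS := (p_mem_sup (δ := δ) hpq).1
  have haS : δ p a ∈ sup δ p q := (sup_of_cg (cg_congr (cg_pq δ p q) a) ha).1
  have h6 : ∀ z ∈ outS δ p q, ∃ b, δ p b = z ∧ b ≠ a := by
    intro z hz
    obtain ⟨hzS, x, hx, b, hb⟩ := mem_outS.1 hz
    have h7 := cg_congr (hall p hpS x hx) b
    rw [hb] at h7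
    have h8 : δ p b = z := by
      by_contra hne
      exact hzS (sup_of_cg h7 hne).2
    refine ⟨b, h8, ?_⟩
    rintro rfl
    exact hzS (h8 ▸ haS)
  have hA : Nonempty A := ⟨a⟩
  choose! f hf using h6
  have h9 : (outS δ p q).card ≤ ((univ : Finset A).erase a).card := by
    apply card_le_card_of_injOn f
    · intro z hz
      rw [mem_coe, mem_erase]
      exact ⟨(hf z hz).2, mem_univ _⟩
    · intro z hz z' hz' h
      rw [← (hf z hz).1, ← (hf z' hz').1, h]
  rw [card_erase_of_mem (mem_univ _), card_univ] at h9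
  have hpos : 0 < Fintype.card A := Fintype.card_pos
  omega

end Pool.Agent.SC
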