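import Pool.Agent.W_MP_6663ab_lc.Basic

/-!
# Counting embeddings of a finite shape into accessible transition structures
-/

namespace Pool.Agent.SC

open Finset

universe u v w

variable {A : Type u} {Q : Type v} [Fintype A] [Nonempty A] [Fintype Q] [LinearOrder Q]

open Classical in
/-- the finset of accessible transition structures -/
noncomputable def AccF (A : Type u) [Fintype A] (q₀ : Q) : Finset (Q → A → Q) :=
  univ.filter (Acc q₀)

lemma mem_AccF {q₀ : Q} {δ : Q → A → Q} : δ ∈ AccF A q₀ ↔ Acc q₀ δ := by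
  classical
  simp [AccF]

section modify

variable {Λ : Type w}

open Classical in
/-- re-target the edges in the image of `G` under `val` -/
noncomputable def retarget (G : Finset (Λ × A)) (δ : Q → A → Q) (val : Λ → Q) (g : ↥G → Q) :
    Q → A → Q := fun q a =>
  if h : ∃ e : ↥G, val e.1.1 = q ∧ e.1.2 = a then g h.choose else δ q a

lemma retarget_mem {G : Finset (Λ × A)} {δ : Q → A → Q} {val : Λ → Q} {g : ↥G → Q}
    (hv : Function.Injective val) (e : ↥G) : retarget G δ val g (val e.1.1) e.1.2 = g e := by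
  have h : ∃ e' : ↥G, val e'.1.1 = val e.1.1 ∧ e'.1.2 = e.1.2 := ⟨e, rfl, rfl⟩
  rw [retarget, dif_pos h]
  congr 1
  have := h.choose_spec
  exact Subtype.ext (Prod.ext (hv this.1) this.2)

lemma retarget_not_mem {G : Finset (Λ × A)} {δ : Q → A → Q} {val : Λ → Q} {g : ↥G → Q}
    {q : Q} {a : A} (h : ∀ e ∈ G, val e.1 = q → e.2 ≠ a) : retarget G δ val g q a = δ q a := by
  rw [retarget, dif_neg]
  rintro ⟨e, h1, h2⟩
  exact h e.1 e.2 h1 h2

end modify

variable {Λ : Type w} [Fintype Λ]

open Classical in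
/-- accessible structures together with an embedding of the shape `(Λ, E, t)` -/
noncomputable def Emb (q₀ : Q) (E : Finset (Λ × A)) (t : Λ × A → Λ) :
    Finset ((Q → A → Q) × (Λ → Q)) :=
  univ.filter fun x => Acc q₀ x.1 ∧ Function.Injective x.2 ∧
    ∀ e ∈ E, x.1 (x.2 e.1) e.2 = x.2 (t e)

lemma mem_Emb {q₀ : Q} {E : Finset (Λ × A)} {t : Λ × A → Λ} {x : (Q → A → Q) × (Λ → Q)} :
    x ∈ Emb q₀ E t ↔ Acc q₀ x.1 ∧ Function.Injective x.2 ∧
      ∀ e ∈ E, x.1 (x.2 e.1) e.2 = x.2 (t e) := by
  classical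
  simp [Emb]

open Classical in
/-- the set of shape edges that are embedded as tree edges -/
noncomputable def treeEdges (q₀ : Q) (E : Finset (Λ × A)) (t : Λ × A → Λ)
    (x : (Q → A → Q) × (Λ → Q)) : Finset (Λ × A) :=
  E.filter fun e => x.2 (t e) ≠ q₀ ∧ tre q₀ x.1 (x.2 (t e)) = (x.2 e.1, e.2)

open Classical in
theorem card_emb_fiber (q₀ : Q) (E : Finset (Λ × A)) (t : Λ × A → Λ) (J : Finset (Λ × A))
    (hJ : J ⊆ E) :
    ((Emb q₀ E t).filter fun x => treeEdges q₀ E t x = J).card * Fintype.card Q ^ E.card ≤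
      Fintype.card Q ^ Fintype.card Λ * (AccF A q₀).card := by
  set n := Fintype.card Q with hn
  have hnpos : 0 < n := Fintype.card_pos_iff.2 ⟨q₀⟩
  set X := (Emb q₀ E t).filter fun x => treeEdges q₀ E t x = J with hX
  have hXm : ∀ x ∈ X, Acc q₀ x.1 ∧ Function.Injective x.2 ∧
      (∀ e ∈ E, x.1 (x.2 e.1) e.2 = x.2 (t e)) ∧ treeEdges q₀ E t x = J := by
    intro x hx
    rw [hX, mem_filter, Emb, mem_filter] at hx
    exact ⟨hx.1.2.1, hx.1.2.2.1, hx.1.2.2.2, hx.2⟩
  rcases X.eq_empty_or_nonempty with hemp | ⟨x0, hx0⟩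
  · rw [hemp]; simp
  -- `t` is injective on `J`
  have hJmem : ∀ x ∈ X, ∀ e ∈ J, e ∈ E ∧ x.2 (t e) ≠ q₀ ∧
      tre q₀ x.1 (x.2 (t e)) = (x.2 e.1, e.2) := by
    intro x hx e he
    have := (hXm x hx).2.2.2
    rw [← this, treeEdges, mem_filter] at he
    exact he
  have htinj : Set.InjOn t (J : Set (Λ × A)) := by
    intro e he e' he' hee
    have h1 := (hJmem x0 hx0 e he).2.2
    have h2 := (hJmem x0 hx0 e' he').2.2
    rw [hee, h2] at h1
    have h3 := Prod.ext_iff.1 h1
    exact Prod.ext ((hXm x0 hx0).2.1 h3.1.symm) h3.2.symm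
  set G := E \ J with hG
  set C0 := (univ : Finset Λ) \ J.image t with hC0
  have hcG : G.card = E.card - J.card := card_sdiff_of_subset hJ
  have hcJ : (J.image t).card = J.card := card_image_of_injOn htinj
  have hcC : C0.card = Fintype.card Λ - J.card := by
    rw [hC0, card_sdiff_of_subset (subset_univ _), card_univ, hcJ]
  have hJle : J.card ≤ Fintype.card Λ := by
    rw [← hcJ]; exact card_le_univ _
  have hJE : J.card ≤ E.card := card_le_card hJ
  -- the injection
  let Φ : ((Q → A → Q) × (Λ → Q)) × (↥G → Q) → (Q → A → Q) × (↥C0 → Q) :=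
    fun y => (retarget G y.1.1 y.1.2 y.2, fun c => y.1.2 c.1)
  have hmaps : ∀ y ∈ X ×ˢ (univ : Finset (↥G → Q)), Φ y ∈ AccF A q₀ ×ˢ (univ : Finset (↥C0 → Q)) := by
    intro y hy
    rw [mem_product] at hy ⊢
    refine ⟨?_, mem_univ _⟩
    obtain ⟨hacc, hinj, hE, htr⟩ := hXm y.1 hy.1
    rw [mem_AccF]
    refine acc_modify hacc ?_
    intro s hs
    refine retarget_not_mem ?_
    intro e he h1 h2
    rw [hG, mem_sdiff] at he
    have h3 := hE e he.1
    have h4 : y.1.2 (t e) = s := by
      rw [← h3, h1, h2, tre_spec hacc hs]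
    apply he.2
    rw [← htr, treeEdges, mem_filter]
    refine ⟨he.1, by rw [h4]; exact hs, ?_⟩
    rw [h4, h1, h2]
  have hinjΦ : Set.InjOn Φ (X ×ˢ (univ : Finset (↥G → Q)) : Finset _) := by
    rintro ⟨⟨δ1, v1⟩, g1⟩ hy1 ⟨⟨δ2, v2⟩, g2⟩ hy2 h12
    rw [mem_coe, mem_product] at hy1 hy2
    obtain ⟨hacc1, hinj1, hE1, htr1⟩ := hXm _ hy1.1
    obtain ⟨hacc2, hinj2, hE2, htr2⟩ := hXm _ hy2.1
    have hJ1 := hJmem _ hy1.1
    have hJ2 := hJmem _ hy2.1
    simp only at hacc1 hinj1 hE1 htr1 hacc2 hinj2 hE2 htr2 hJ1 hJ2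
    have hδ : retarget G δ1 v1 g1 = retarget G δ2 v2 g2 := (Prod.ext_iff.1 h12).1
    have hv : ∀ c ∈ C0, v1 c = v2 c := fun c hc => congrFun (Prod.ext_iff.1 h12).2 ⟨c, hc⟩
    have hvv : ∀ c, v1 c = v2 c := by
      intro c
      induction hd : dst q₀ δ1 (v1 c) using Nat.strong_induction_on generalizing c with
      | _ m ih =>
        by_cases hc : c ∈ C0
        · exact hv c hc
        · rw [hC0, mem_sdiff, not_and, not_not] at hc
          obtain ⟨e, heJ, rfl⟩ := mem_image.1 (hc (mem_univ _))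
          obtain ⟨heE, hne, htre⟩ := hJ1 e heJ
          have hlt := dst_lt hacc1 hne
          rw [htre] at hlt
          have ih' := ih _ (hd ▸ hlt) e.1 rfl
          have heG : ∀ v : Λ → Q, Function.Injective v → ∀ e' ∈ G, v e'.1 = v e.1 → e'.2 ≠ e.2 := by
            intro v hvinj e' he' h1 h2
            have : e' = e := Prod.ext (hvinj h1) h2
            rw [this, hG, mem_sdiff] at he'
            exact he'.2 heJ
          have e1 : retarget G δ1 v1 g1 (v1 e.1) e.2 = v1 (t e) := by
            rw [retarget_not_mem (heG v1 hinj1)]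
            exact hE1 e heE
          have e2 : retarget G δ2 v2 g2 (v2 e.1) e.2 = v2 (t e) := by
            rw [retarget_not_mem (heG v2 hinj2)]
            exact hE2 e heE
          rw [← e1, ← e2, hδ, ih']
    have hvv' : v1 = v2 := funext hvv
    subst hvv'
    have hg : g1 = g2 := by
      funext e
      rw [← retarget_mem (δ := δ1) (g := g1) hinj1 e, ← retarget_mem (δ := δ2) (g := g2) hinj1 e, hδ]
    subst hg
    have hδδ : δ1 = δ2 := by
      funext q a
      by_cases h : ∃ e ∈ G, v1 e.1 = q ∧ e.2 = a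
      · obtain ⟨e, he, rfl, rfl⟩ := h
        have heE : e ∈ E := by
          rw [hG, mem_sdiff] at he; exact he.1
        rw [hE1 e heE, hE2 e heE]
      · push Not at h
        have := congrFun (congrFun hδ q) a
        rwa [retarget_not_mem h, retarget_not_mem h] at this
    subst hδδ
    rfl
  have hcard := card_le_card_of_injOn Φ hmaps hinjΦ
  rw [card_product, card_product, card_univ, card_univ, Fintype.card_fun, Fintype.card_fun,
    Fintype.card_coe, Fintype.card_coe, hcG, hcC, ← hn] at hcard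
  calc X.card * n ^ E.card = (X.card * n ^ (E.card - J.card)) * n ^ J.card := by
        rw [mul_assoc, ← pow_add, Nat.sub_add_cancel hJE]
    _ ≤ ((AccF A q₀).card * n ^ (Fintype.card Λ - J.card)) * n ^ J.card :=
        Nat.mul_le_mul_right _ hcard
    _ = n ^ Fintype.card Λ * (AccF A q₀).card := by
        rw [mul_assoc, ← pow_add, Nat.sub_add_cancel hJle, mul_comm]

open Classical in
/-- **Lemma A1**: the number of pairs (accessible structure, embedding of a shape with vertex set
`Λ` and edge set `E`) is at most `2^|E| n^(|Λ|-|E|)` times the number of accessible structures. -/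
theorem card_emb (q₀ : Q) (E : Finset (Λ × A)) (t : Λ × A → Λ) :
    (Emb q₀ E t).card * Fintype.card Q ^ E.card ≤
      2 ^ E.card * (Fintype.card Q ^ Fintype.card Λ * (AccF A q₀).card) := by
  have h1 : (Emb q₀ E t).card =
      ∑ J ∈ E.powerset, ((Emb q₀ E t).filter fun x => treeEdges q₀ E t x = J).card := by
    apply card_eq_sum_card_fiberwise
    intro x _
    rw [mem_coe, mem_powerset]
    exact filter_subset _ _
  rw [h1, sum_mul]
  calc ∑ J ∈ E.powerset, ((Emb q₀ E t).filter fun x => treeEdges q₀ E t x = J).card *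
        Fintype.card Q ^ E.card
      ≤ ∑ J ∈ E.powerset, Fintype.card Q ^ Fintype.card Λ * (AccF A q₀).card :=
        sum_le_sum fun J hJ => card_emb_fiber q₀ E t J (mem_powerset.1 hJ)
    _ = 2 ^ E.card * (Fintype.card Q ^ Fintype.card Λ * (AccF A q₀).card) := by
        rw [sum_const, card_powerset, smul_eq_mul]

end Pool.Agent.SC
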