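import Pool.Agent.W_MP_6663ab_lc.Nodes

/-!
# Exploring an accessible structure from one or two roots
-/

namespace Pool.Agent.SC

open Finset

universe u v w

section key
variable {A : Type u} [Fintype A] {m : ℕ}

/-- index of a letter -/
noncomputable def idx (a : A) : ℕ := (Fintype.equivFin A a).val

lemma idx_lt (a : A) : idx a < Fintype.card A := (Fintype.equivFin A a).isLt

lemma idx_inj {a b : A} (h : idx a = idx b) : a = b :=
  (Fintype.equivFin A).injective (Fin.ext h)

/-- breadth-first number of a word -/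
noncomputable def num (w : List A) : ℕ := run (fun x a => Fintype.card A * x + 1 + idx a) 0 w

lemma num_concat (w : List A) (a : A) : num (w ++ [a]) = Fintype.card A * num w + 1 + idx a := by
  unfold num
  rw [run_concat]

lemma num_inj {u v : List A} (h : num u = num v) : u = v := by
  induction u using List.reverseRecOn generalizing v with
  | nil =>
    rcases List.eq_nil_or_concat v with rfl | ⟨v', b, rfl⟩
    · rfl
    · rw [List.concat_eq_append] at h ⊢
      rw [num_concat] at h
      simp [num] at h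
      omega
  | append_singleton u' a ih =>
    rcases List.eq_nil_or_concat v with rfl | ⟨v', b, rfl⟩
    · rw [num_concat] at h
      simp [num] at h
    · rw [List.concat_eq_append] at h ⊢
      rw [num_concat, num_concat] at h
      have ha := idx_lt a
      have hb := idx_lt b
      have h1 : num u' = num v' := by
        by_contra hne
        rcases Nat.lt_or_gt_of_ne hne with hlt | hlt
        · have : Fintype.card A * num u' + Fintype.card A ≤ Fintype.card A * num v' := by
            rw [← Nat.mul_succ]; exact Nat.mul_le_mul_left _ hlt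
          omega
        · have : Fintype.card A * num v' + Fintype.card A ≤ Fintype.card A * num u' := by
            rw [← Nat.mul_succ]; exact Nat.mul_le_mul_left _ hlt
          omega
      rw [h1] at h
      rw [ih h1, idx_inj (a := a) (b := b) (by omega)]

/-- the exploration order on nodes -/
noncomputable def key (ν : Fin m × List A) : ℕ ×ₗ (ℕ ×ₗ Fin m) :=
  toLex (ν.2.length, toLex (num ν.2, ν.1))

lemma key_inj {ν μ : Fin m × List A} (h : key ν = key μ) : ν = μ := by
  unfold key at h
  have h1 := Prod.ext_iff.1 (toLex.injective h)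
  have h2 := Prod.ext_iff.1 (toLex.injective h1.2)
  exact Prod.ext h2.2 (num_inj h2.1)

lemma key_lt_iff {ν μ : Fin m × List A} : key ν < key μ ↔
    ν.2.length < μ.2.length ∨ (ν.2.length = μ.2.length ∧
      (num ν.2 < num μ.2 ∨ (num ν.2 = num μ.2 ∧ ν.1 < μ.1))) := by
  unfold key
  rw [Prod.Lex.lt_iff]
  simp only [ofLex_toLex]
  rw [Prod.Lex.lt_iff]
  simp only [ofLex_toLex]

lemma key_mono {i j : Fin m} {s t : List A} (a : A) (h : key (i, s) < key (j, t)) :
    key (i, s ++ [a]) < key (j, t ++ [a]) := by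
  rw [key_lt_iff] at h ⊢
  simp only [List.length_append, List.length_singleton, num_concat] at h ⊢
  have hk : 0 < Fintype.card A := Fintype.card_pos_iff.2 ⟨a⟩
  rcases h with h | ⟨h1, h | ⟨h2, h3⟩⟩
  · left; omega
  · right
    refine ⟨by omega, Or.inl ?_⟩
    have := Nat.mul_lt_mul_of_pos_left h hk
    omega
  · right
    exact ⟨by omega, Or.inr ⟨by rw [h2], h3⟩⟩

lemma key_root {μ : Fin m × List A} {i : Fin m} (h : key μ < key ((i, []) : Fin m × List A)) :
    μ.2 = [] ∧ μ.1 < i := by
  rw [key_lt_iff] at h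
  simp only [List.length_nil] at h
  rcases h with h | ⟨h1, h2⟩
  · omega
  · have h3 := List.length_eq_zero_iff.1 h1
    refine ⟨h3, ?_⟩
    rw [h3] at h2
    rcases h2 with h2 | h2
    · exact absurd h2 (lt_irrefl _)
    · exact h2.2

lemma key_length {ν μ : Fin m × List A} (h : key ν < key μ) : ν.2.length ≤ μ.2.length := by
  rw [key_lt_iff] at h
  omega

end key

section explore
variable {A : Type u} [Fintype A] {Q : Type v} {m : ℕ}

/-- value of a node -/
def nval (δ : Q → A → Q) (ρ : Fin m → Q) (ν : Fin m × List A) : Q := run δ (ρ ν.1) ν.2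

/-- the node is the first one with its value -/
def Prim (δ : Q → A → Q) (ρ : Fin m → Q) (ν : Fin m × List A) : Prop :=
  ∀ μ, key μ < key ν → nval δ ρ μ ≠ nval δ ρ ν

/-- excess node: not primary, but its parent is -/
def Exn (δ : Q → A → Q) (ρ : Fin m → Q) (ν : Fin m × List A) : Prop :=
  ∃ s a, ν.2 = s ++ [a] ∧ Prim δ ρ (ν.1, s) ∧ ¬ Prim δ ρ ν

lemma exists_exn {δ : Q → A → Q} {ρ : Fin m → Q} (hρ : Function.Injective ρ) {i : Fin m}
    {w : List A} (h : ¬ Prim δ ρ (i, w)) : ∃ s t, w = s ++ t ∧ Exn δ ρ (i, s) := by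
  induction w using List.reverseRecOn with
  | nil =>
    exfalso
    apply h
    intro μ hμ
    obtain ⟨h1, h2⟩ := key_root hμ
    unfold nval
    rw [h1]
    exact fun h3 => absurd (hρ h3) (ne_of_lt h2)
  | append_singleton w' a ih =>
    by_cases h' : Prim δ ρ (i, w')
    · exact ⟨w' ++ [a], [], by simp, w', a, rfl, h', h⟩
    · obtain ⟨s, t, h1, h2⟩ := ih h'
      exact ⟨s, t ++ [a], by rw [h1]; simp, h2⟩

lemma prim_inj {δ : Q → A → Q} {ρ : Fin m → Q} {ν μ : Fin m × List A} (hν : Prim δ ρ ν)
    (hμ : Prim δ ρ μ) (h : nval δ ρ ν = nval δ ρ μ) : ν = μ := by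
  rcases lt_trichotomy (key ν) (key μ) with h1 | h1 | h1
  · exact absurd h (hμ ν h1)
  · exact key_inj h1
  · exact absurd h.symm (hν μ h1)

/-- the edge into a node -/
def eo (δ : Q → A → Q) (ρ : Fin m → Q) (ν : Fin m × List A) : Q × Option A :=
  (nval δ ρ (ν.1, ν.2.dropLast), ν.2.getLast?)

open Classical in
/-- the main inequality between numbers of values and of edges -/
theorem values_edges (δ : Q → A → Q) (ρ : Fin m → Q) (N : Finset (Fin m × List A)) {x : ℕ}
    (e c : Fin x → Fin m × List A) (he : Function.Injective e) (heN : ∀ j, e j ∈ N)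
    (hcN : ∀ j, c j ∈ N) (hex : ∀ j, Exn δ ρ (e j)) (hkey : ∀ j, key (c j) < key (e j))
    (hval : ∀ j, nval δ ρ (c j) = nval δ ρ (e j)) :
    (N.image (nval δ ρ)).card + x ≤ ((N.filter fun ν => ν.2 ≠ []).image (eo δ ρ)).card + m := by
  -- first node with a given value
  have hf : ∀ v ∈ N.image (nval δ ρ), ∃ ν, ν ∈ N ∧ nval δ ρ ν = v ∧
      ∀ μ ∈ N, nval δ ρ μ = v → key ν ≤ key μ := by
    intro v hv
    obtain ⟨ν0, h0, h1⟩ := mem_image.1 hv
    obtain ⟨ν, hν, hmin⟩ := exists_min_image (N.filter fun ν => nval δ ρ ν = v) key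
      ⟨ν0, by rw [mem_filter]; exact ⟨h0, h1⟩⟩
    rw [mem_filter] at hν
    exact ⟨ν, hν.1, hν.2, fun μ hμ hμv => hmin μ (by rw [mem_filter]; exact ⟨hμ, hμv⟩)⟩
  rcases Nat.eq_zero_or_pos m with hm | hm
  · -- no roots: `N` is empty
    subst hm
    have hN : N = ∅ := by
      rw [eq_empty_iff_forall_notMem]
      rintro ⟨i, -⟩ _
      exact i.elim0
    have hx : x = 0 := by
      by_contra hx
      exact ((e ⟨0, Nat.pos_of_ne_zero hx⟩).1).elim0
    subst hN hx
    simp
  have : Nonempty (Fin m × List A) := ⟨(⟨0, hm⟩, [])⟩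
  choose! f hf1 hf2 hf3 using hf
  set P1 := (N.image (nval δ ρ)).image f with hP1
  set P2 := (univ : Finset (Fin x)).image e with hP2
  have hP1N : ∀ ν ∈ P1, ν ∈ N := by
    intro ν hν
    obtain ⟨v, hv, rfl⟩ := mem_image.1 hν
    exact hf1 v hv
  have hP1min : ∀ ν ∈ P1, ∀ μ ∈ N, nval δ ρ μ = nval δ ρ ν → key ν ≤ key μ := by
    intro ν hν μ hμ h
    obtain ⟨v, hv, rfl⟩ := mem_image.1 hν
    rw [hf2 v hv] at h
    exact hf3 v hv μ hμ h
  have hcP1 : P1.card = (N.image (nval δ ρ)).card := by
    apply card_image_of_injOn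
    intro v hv v' hv' h
    rw [← hf2 v hv, ← hf2 v' hv', h]
  have hcP2 : P2.card = x := by
    rw [hP2, card_image_of_injective _ he, card_univ, Fintype.card_fin]
  have hdisj : Disjoint P1 P2 := by
    rw [disjoint_left]
    intro ν hν1 hν2
    obtain ⟨j, -, rfl⟩ := mem_image.1 hν2
    have := hP1min _ hν1 (c j) (hcN j) (hval j)
    exact absurd (hkey j) (not_lt_of_ge this)
  -- the map into edges and roots
  let φ : Fin m × List A → (Q × Option A) ⊕ Fin m := fun ν =>
    if ν.2 = [] then Sum.inr ν.1 else Sum.inl (eo δ ρ ν)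
  have hsame : ∀ ν μ : Fin m × List A, ν.2 ≠ [] → μ.2 ≠ [] → eo δ ρ ν = eo δ ρ μ →
      ∃ s t a, ν.2 = s ++ [a] ∧ μ.2 = t ++ [a] ∧ nval δ ρ (ν.1, s) = nval δ ρ (μ.1, t) ∧
        nval δ ρ ν = nval δ ρ μ := by
    rintro ⟨i, ws⟩ ⟨j, wt⟩ hν hμ h
    simp only at hν hμ
    obtain ⟨s, a, rfl⟩ : ∃ s a, ws = s ++ [a] := ⟨_, _, (List.dropLast_append_getLast hν).symm⟩
    obtain ⟨t, b, rfl⟩ : ∃ t b, wt = t ++ [b] := ⟨_, _, (List.dropLast_append_getLast hμ).symm⟩
    simp only [eo, List.dropLast_concat, List.getLast?_append, List.getLast?_singleton,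
      Option.some_or, Prod.mk.injEq, Option.some.injEq] at h
    obtain ⟨h1, rfl⟩ := h
    refine ⟨s, t, a, rfl, rfl, h1, ?_⟩
    simp only [nval, run_concat] at h1 ⊢
    rw [h1]
  have hφ : Set.InjOn φ (P1 ∪ P2 : Finset _) := by
    have key1 : ∀ ν ∈ P2, ∀ μ ∈ P1 ∪ P2, φ ν = φ μ → ν = μ := by
      intro ν hν μ hμ h
      obtain ⟨j, -, rfl⟩ := mem_image.1 hν
      have hν2 : (e j).2 ≠ [] := by
        obtain ⟨s, a, h1, -, -⟩ := hex j
        rw [h1]; simp
      have hμ2 : μ.2 ≠ [] := by
        intro h1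
        simp only [φ] at h
        rw [if_neg hν2, if_pos h1] at h
        cases h
      simp only [φ] at h
      rw [if_neg hν2, if_neg hμ2] at h
      obtain ⟨s, t, a, h1, h2, h3, h4⟩ := hsame _ _ hν2 hμ2 (Sum.inl.inj h)
      obtain ⟨s', a', h1', hprim, hnp⟩ := hex j
      have hs : s = s' := by
        rw [h1] at h1'
        exact (List.append_inj' h1' rfl).1
      subst hs
      rcases lt_trichotomy (key ((e j).1, s)) (key (μ.1, t)) with hk | hk | hk
      · have hk' := key_mono a hk
        have e1 : ((e j).1, s ++ [a]) = e j := Prod.ext rfl h1.symm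
        have e2 : (μ.1, t ++ [a]) = μ := Prod.ext rfl h2.symm
        rw [e1, e2] at hk'
        rcases mem_union.1 hμ with hμ1 | hμ1
        · exact absurd hk' (not_lt_of_ge (hP1min μ hμ1 (e j) (heN j) h4))
        · obtain ⟨j', -, rfl⟩ := mem_image.1 hμ1
          obtain ⟨s'', a'', h1'', hprim', -⟩ := hex j'
          have hs : t = s'' := by
            rw [h2] at h1''
            exact (List.append_inj' h1'' rfl).1
          subst hs
          exact absurd h3 (hprim' _ hk)
      · have := key_inj hk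
        have h5 := Prod.ext_iff.1 this
        simp only at h5
        exact Prod.ext h5.1 (by rw [h1, h2, h5.2])
      · exact absurd h3.symm (hprim _ hk)
    intro ν hν μ hμ h
    rw [mem_coe] at hν hμ
    rcases mem_union.1 hν with hν1 | hν1
    · rcases mem_union.1 hμ with hμ1 | hμ1
      · by_cases hν2 : ν.2 = []
        · by_cases hμ2 : μ.2 = []
          · simp only [φ] at h
            rw [if_pos hν2, if_pos hμ2] at h
            exact Prod.ext (Sum.inr.inj h) (by rw [hν2, hμ2])
          · simp only [φ] at h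
            rw [if_pos hν2, if_neg hμ2] at h
            cases h
        · by_cases hμ2 : μ.2 = []
          · simp only [φ] at h
            rw [if_neg hν2, if_pos hμ2] at h
            cases h
          · simp only [φ] at h
            rw [if_neg hν2, if_neg hμ2] at h
            obtain ⟨s, t, a, h1, h2, h3, h4⟩ := hsame _ _ hν2 hμ2 (Sum.inl.inj h)
            apply key_inj
            exact le_antisymm (hP1min ν hν1 μ (hP1N μ hμ1) h4.symm)
              (hP1min μ hμ1 ν (hP1N ν hν1) h4)
      · exact (key1 μ hμ1 ν hν h.symm).symm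
    · exact key1 ν hν1 μ hμ h
  have hmaps : ∀ ν ∈ P1 ∪ P2, φ ν ∈
      (((N.filter fun ν => ν.2 ≠ []).image (eo δ ρ)).disjSum (univ : Finset (Fin m))) := by
    intro ν hν
    have hνN : ν ∈ N := by
      rcases mem_union.1 hν with h | h
      · exact hP1N ν h
      · obtain ⟨j, -, rfl⟩ := mem_image.1 h
        exact heN j
    rw [mem_disjSum]
    by_cases hν2 : ν.2 = []
    · right
      exact ⟨ν.1, mem_univ _, by simp only [φ]; rw [if_pos hν2]⟩
    · left
      refine ⟨eo δ ρ ν, ?_, by simp only [φ]; rw [if_neg hν2]⟩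
      exact mem_image_of_mem _ (by rw [mem_filter]; exact ⟨hνN, hν2⟩)
  have hfin := card_le_card_of_injOn φ hmaps hφ
  rw [card_union_of_disjoint hdisj, hcP1, hcP2, card_disjSum, card_univ, Fintype.card_fin] at hfin
  exact hfin

end explore

end Pool.Agent.SC
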