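import Pool.Agent.W_MP_6663ab_lc.Explore

/-!
# Counting accessible structures with several excess nodes near given roots
-/

namespace Pool.Agent.SC

open Finset

universe u v w

section words
variable {A : Type u} [Fintype A]

open Classical in
/-- words of length at most `D` -/
noncomputable def wordsLe (A : Type u) [Fintype A] (D : ℕ) : Finset (List A) :=
  (range (D + 1)).biUnion fun l => (univ : Finset (Fin l → A)).image List.ofFn

lemma mem_wordsLe {D : ℕ} {w : List A} : w ∈ wordsLe A D ↔ w.length ≤ D := by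
  classical
  rw [wordsLe, mem_biUnion]
  constructor
  · rintro ⟨l, hl, hw⟩
    obtain ⟨f, -, rfl⟩ := mem_image.1 hw
    rw [List.length_ofFn]
    rw [mem_range] at hl
    omega
  · intro h
    refine ⟨w.length, by rw [mem_range]; omega, ?_⟩
    rw [mem_image]
    exact ⟨w.get, mem_univ _, List.ofFn_get w⟩

lemma card_wordsLe [Nonempty A] (D : ℕ) :
    (wordsLe A D).card ≤ (D + 1) * Fintype.card A ^ D := by
  classical
  calc (wordsLe A D).card ≤ ∑ l ∈ range (D + 1), ((univ : Finset (Fin l → A)).image List.ofFn).card :=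
        card_biUnion_le
    _ ≤ ∑ l ∈ range (D + 1), Fintype.card A ^ D := by
        apply sum_le_sum
        intro l hl
        rw [mem_range] at hl
        refine le_trans card_image_le ?_
        rw [card_univ, Fintype.card_fun, Fintype.card_fin]
        exact Nat.pow_le_pow_right Fintype.card_pos (by omega)
    _ = (D + 1) * Fintype.card A ^ D := by rw [sum_const, card_range, smul_eq_mul]

end words

variable {A : Type u} {Q : Type v} [Fintype A] [Nonempty A] [Fintype Q] [LinearOrder Q]
variable {m : ℕ}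

open Classical in
/-- all prefixes of a node, as nodes -/
noncomputable def pfx (ν : Fin m × List A) : Finset (Fin m × List A) :=
  ν.2.inits.toFinset.image fun s => (ν.1, s)

omit [Nonempty A] in
lemma mem_pfx {ν μ : Fin m × List A} : μ ∈ pfx ν ↔ μ.1 = ν.1 ∧ μ.2 <+: ν.2 := by
  classical
  rw [pfx, mem_image]
  constructor
  · rintro ⟨s, hs, rfl⟩
    rw [List.mem_toFinset, List.mem_inits] at hs
    exact ⟨rfl, hs⟩
  · rintro ⟨h1, h2⟩
    exact ⟨μ.2, by rw [List.mem_toFinset, List.mem_inits]; exact h2, Prod.ext h1.symm rfl⟩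

omit [Nonempty A] in
lemma card_pfx (ν : Fin m × List A) : (pfx ν).card ≤ ν.2.length + 1 := by
  classical
  refine le_trans card_image_le (le_trans (List.toFinset_card_le _) ?_)
  rw [List.length_inits]

open Classical in
/-- node set generated by a family of pairs of nodes -/
noncomputable def nodes {x : ℕ} (ec : Fin x → (Fin m × List A) × (Fin m × List A)) :
    Finset (Fin m × List A) :=
  (univ.image fun i : Fin m => ((i, []) : Fin m × List A)) ∪
    univ.biUnion fun j : Fin x => pfx (ec j).1 ∪ pfx (ec j).2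

omit [Nonempty A] in
lemma root_mem_nodes {x : ℕ} (ec : Fin x → (Fin m × List A) × (Fin m × List A)) (i : Fin m) :
    ((i, []) : Fin m × List A) ∈ nodes ec := by
  classical
  rw [nodes, mem_union]
  exact Or.inl (mem_image_of_mem _ (mem_univ i))

omit [Nonempty A] in
lemma mem_nodes_of_left {x : ℕ} (ec : Fin x → (Fin m × List A) × (Fin m × List A)) (j : Fin x) :
    (ec j).1 ∈ nodes ec := by
  classical
  rw [nodes, mem_union, mem_biUnion]
  exact Or.inr ⟨j, mem_univ _, mem_union.2 (Or.inl (mem_pfx.2 ⟨rfl, List.prefix_rfl⟩))⟩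

omit [Nonempty A] in
lemma mem_nodes_of_right {x : ℕ} (ec : Fin x → (Fin m × List A) × (Fin m × List A)) (j : Fin x) :
    (ec j).2 ∈ nodes ec := by
  classical
  rw [nodes, mem_union, mem_biUnion]
  exact Or.inr ⟨j, mem_univ _, mem_union.2 (Or.inr (mem_pfx.2 ⟨rfl, List.prefix_rfl⟩))⟩

omit [Nonempty A] in
lemma nodes_closed {x : ℕ} (ec : Fin x → (Fin m × List A) × (Fin m × List A))
    {ν : Fin m × List A} (h : ν ∈ nodes ec) : (ν.1, ν.2.dropLast) ∈ nodes ec := by
  classical
  have hd : ∀ μ : Fin m × List A, ν ∈ pfx μ → (ν.1, ν.2.dropLast) ∈ pfx μ := by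
    intro μ hμ
    rw [mem_pfx] at hμ ⊢
    exact ⟨hμ.1, (List.dropLast_prefix _).trans hμ.2⟩
  rw [nodes, mem_union, mem_biUnion] at h ⊢
  rcases h with h | ⟨j, hj, h⟩
  · obtain ⟨i, -, rfl⟩ := mem_image.1 h
    left
    exact mem_image_of_mem _ (mem_univ i)
  · right
    refine ⟨j, hj, ?_⟩
    rw [mem_union] at h ⊢
    rcases h with h | h
    · exact Or.inl (hd _ h)
    · exact Or.inr (hd _ h)

omit [Nonempty A] in
lemma card_nodes {x D : ℕ} (ec : Fin x → (Fin m × List A) × (Fin m × List A))
    (h : ∀ j, (ec j).1.2.length ≤ D ∧ (ec j).2.2.length ≤ D) :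
    (nodes ec).card ≤ m + x * (2 * (D + 1)) := by
  classical
  refine le_trans (card_union_le _ _) (Nat.add_le_add ?_ ?_)
  · refine le_trans card_image_le ?_
    rw [card_univ, Fintype.card_fin]
  · refine le_trans card_biUnion_le ?_
    calc ∑ j : Fin x, (pfx (ec j).1 ∪ pfx (ec j).2).card ≤ ∑ j : Fin x, 2 * (D + 1) := by
          apply sum_le_sum
          intro j _
          refine le_trans (card_union_le _ _) ?_
          have h1 := card_pfx (ec j).1
          have h2 := card_pfx (ec j).2
          have h3 := h j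
          omega
      _ = x * (2 * (D + 1)) := by rw [sum_const, card_univ, Fintype.card_fin, smul_eq_mul]

/-- parent structure on a node set -/
noncomputable def parN (N : Finset (Fin m × List A))
    (hN : ∀ ν ∈ N, (ν.1, ν.2.dropLast) ∈ N) : ↥N → Option (↥N × A) := fun ν =>
  if h : ν.1.2 ≠ [] then some (⟨(ν.1.1, ν.1.2.dropLast), hN ν.1 ν.2⟩, ν.1.2.getLast h) else none

/-- the condition on `(δ, ρ)` relative to a family of pairs of nodes -/
def Cond (δ : Q → A → Q) (ρ : Fin m → Q) {x : ℕ}
    (ec : Fin x → (Fin m × List A) × (Fin m × List A)) : Prop :=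
  (Function.Injective fun j => (ec j).1) ∧ ∀ j, Exn δ ρ (ec j).1 ∧
    key (ec j).2 < key (ec j).1 ∧ nval δ ρ (ec j).2 = nval δ ρ (ec j).1

open Classical in
theorem card_Cond (q₀ : Q) {x : ℕ} (ec : Fin x → (Fin m × List A) × (Fin m × List A))
    (hm : 0 < m) :
    (((AccF A q₀) ×ˢ (univ : Finset (Fin m → Q))).filter fun y => Cond y.1 y.2 ec).card *
      Fintype.card Q ^ x ≤ (2 * (nodes ec).card) ^ (nodes ec).card *
        (Fintype.card Q ^ m * (AccF A q₀).card) := by
  set N := nodes ec with hN
  have hcl : ∀ ν ∈ N, (ν.1, ν.2.dropLast) ∈ N := fun ν hν => nodes_closed ec hν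
  have hne : Nonempty ↥N := ⟨⟨(⟨0, hm⟩, []), root_mem_nodes ec _⟩⟩
  have hmain := card_Exc (S := ↥N) q₀ (parN N hcl) x m
  rw [Fintype.card_coe] at hmain
  refine le_trans (Nat.mul_le_mul_right _ ?_) hmain
  apply card_le_card_of_injOn fun y => (y.1, fun ν : ↥N => nval y.1 y.2 ν.1)
  · rintro ⟨δ, ρ⟩ h
    rw [mem_coe, mem_filter, mem_product, mem_AccF] at h
    obtain ⟨⟨hacc, -⟩, hinj, hc⟩ := h
    simp only at hacc hinj hc
    rw [mem_coe, mem_Exc]
    refine ⟨hacc, ?_, ?_⟩
    · rintro ⟨⟨i, w⟩, hw⟩ ⟨⟨j, s⟩, hs⟩ a h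
      unfold parN at h
      simp only at h
      split_ifs at h with h1
      rw [Option.some.injEq, Prod.mk.injEq, Subtype.mk.injEq, Prod.mk.injEq] at h
      obtain ⟨⟨rfl, rfl⟩, rfl⟩ := h
      simp only [nval]
      conv_lhs => rw [← List.dropLast_append_getLast h1]
      rw [run_concat]
    · have hve := values_edges δ ρ N (fun j => (ec j).1) (fun j => (ec j).2) hinj
        (fun j => mem_nodes_of_left ec j) (fun j => mem_nodes_of_right ec j)
        (fun j => (hc j).1) (fun j => (hc j).2.1) (fun j => (hc j).2.2)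
      have hve' : (N.image (nval δ ρ)).card + x ≤
          ((N.filter fun ν => ν.2 ≠ []).image (eo δ ρ)).card + m := by
        refine le_of_eq_of_le ?_ (hve.trans (le_of_eq ?_))
        · congr
          exact Subsingleton.elim _ _
        · congr
          exact Subsingleton.elim _ _
      have e1 : (univ.image fun ν : ↥N => nval δ ρ ν.1) = N.image (nval δ ρ) := by
        ext q
        simp only [mem_image, mem_univ, true_and, Subtype.exists]
        constructor
        · rintro ⟨ν, h1, h2⟩; exact ⟨ν, h1, h2⟩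
        · rintro ⟨ν, h1, h2⟩; exact ⟨ν, h1, h2⟩
      have e2 : ((N.filter fun ν => ν.2 ≠ []).image (eo δ ρ)).card ≤
          (edg (parN N hcl) fun ν : ↥N => nval δ ρ ν.1).card := by
        rw [← card_image_of_injective (edg (parN N hcl) fun ν : ↥N => nval δ ρ ν.1)
          (f := fun e : Q × A => (e.1, some e.2))]
        · apply card_le_card
          intro z hz
          obtain ⟨ν, hν, rfl⟩ := mem_image.1 hz
          rw [mem_filter] at hν
          rw [mem_image]
          refine ⟨(nval δ ρ (ν.1, ν.2.dropLast), ν.2.getLast hν.2), ?_, ?_⟩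
          · simp only [edg, mem_filter, mem_univ, true_and]
            refine ⟨⟨ν, hν.1⟩, ⟨(ν.1, ν.2.dropLast), hcl ν hν.1⟩, ?_, rfl⟩
            unfold parN
            rw [dif_pos hν.2]
          · simp only [eo]
            rw [List.getLast?_eq_getLast_of_ne_nil hν.2]
        · intro e e' h
          simp only [Prod.mk.injEq, Option.some.injEq] at h
          exact Prod.ext h.1 h.2
      simp only
      rw [e1]
      omega
  · rintro ⟨δ, ρ⟩ h1 ⟨δ', ρ'⟩ h2 h
    have h3 := Prod.ext_iff.1 h
    simp only at h3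
    obtain ⟨rfl, h4⟩ := h3
    refine Prod.ext rfl ?_
    funext i
    have := congrFun h4 ⟨(i, []), root_mem_nodes ec i⟩
    simpa [nval] using this

/-- at least `x` excess nodes of depth at most `D` -/
def ExD (δ : Q → A → Q) (ρ : Fin m → Q) (x D : ℕ) : Prop :=
  ∃ e : Fin x → Fin m × List A, Function.Injective e ∧ ∀ j, (e j).2.length ≤ D ∧ Exn δ ρ (e j)

/-- the constant in the counting bound -/
noncomputable def KK (k m x D : ℕ) : ℕ :=
  (m * ((D + 1) * k ^ D)) ^ (2 * x) *
    (2 * (m + x * (2 * (D + 1)))) ^ (m + x * (2 * (D + 1)))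

open Classical in
/-- **Lemma B** -/
theorem card_ExD (q₀ : Q) (hm : 0 < m) (x D : ℕ) :
    (((AccF A q₀) ×ˢ (univ : Finset (Fin m → Q))).filter fun y => ExD y.1 y.2 x D).card *
      Fintype.card Q ^ x ≤ KK (Fintype.card A) m x D *
        (Fintype.card Q ^ m * (AccF A q₀).card) := by
  set ND : Finset (Fin m × List A) := univ ×ˢ wordsLe A D with hND
  have hcND : ND.card ≤ m * ((D + 1) * Fintype.card A ^ D) := by
    rw [hND, card_product, card_univ, Fintype.card_fin]
    exact Nat.mul_le_mul_left _ (card_wordsLe D)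
  set T : Finset (Fin x → (Fin m × List A) × (Fin m × List A)) :=
    Fintype.piFinset fun _ => ND ×ˢ ND with hT
  have hcT : T.card ≤ (m * ((D + 1) * Fintype.card A ^ D)) ^ (2 * x) := by
    rw [hT, Fintype.card_piFinset, prod_const, card_product, card_univ, Fintype.card_fin,
      ← pow_two, ← pow_mul]
    exact Nat.pow_le_pow_left hcND _
  set R := (((AccF A q₀) ×ˢ (univ : Finset (Fin m → Q))).filter fun y => ExD y.1 y.2 x D) with hR
  have hsub : R ⊆ T.biUnion fun ec =>
      (((AccF A q₀) ×ˢ (univ : Finset (Fin m → Q))).filter fun y => Cond y.1 y.2 ec) := by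
    rintro ⟨δ, ρ⟩ h
    rw [hR, mem_filter] at h
    obtain ⟨h1, e, he, hex⟩ := h
    simp only at hex
    have hc : ∀ j, ∃ c, key c < key (e j) ∧ nval δ ρ c = nval δ ρ (e j) := by
      intro j
      obtain ⟨s, a, -, -, hnp⟩ := (hex j).2
      simp only [Prim, not_forall, not_not] at hnp
      obtain ⟨c, h1, h2⟩ := hnp
      exact ⟨c, h1, h2⟩
    choose c hc1 hc2 using hc
    rw [mem_biUnion]
    refine ⟨fun j => (e j, c j), ?_, ?_⟩
    · rw [hT, Fintype.mem_piFinset]
      intro j
      rw [hND, mem_product, mem_product, mem_product, mem_wordsLe, mem_wordsLe]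
      exact ⟨⟨mem_univ _, (hex j).1⟩, mem_univ _, le_trans (key_length (hc1 j)) (hex j).1⟩
    · rw [mem_filter]
      exact ⟨h1, he, fun j => ⟨(hex j).2, hc1 j, hc2 j⟩⟩
  calc R.card * Fintype.card Q ^ x
      ≤ (T.biUnion fun ec => (((AccF A q₀) ×ˢ (univ : Finset (Fin m → Q))).filter
          fun y => Cond y.1 y.2 ec)).card * Fintype.card Q ^ x :=
        Nat.mul_le_mul_right _ (card_le_card hsub)
    _ ≤ (∑ ec ∈ T, (((AccF A q₀) ×ˢ (univ : Finset (Fin m → Q))).filter
          fun y => Cond y.1 y.2 ec).card) * Fintype.card Q ^ x :=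
        Nat.mul_le_mul_right _ card_biUnion_le
    _ = ∑ ec ∈ T, (((AccF A q₀) ×ˢ (univ : Finset (Fin m → Q))).filter
          fun y => Cond y.1 y.2 ec).card * Fintype.card Q ^ x := by rw [sum_mul]
    _ ≤ ∑ ec ∈ T, (2 * (m + x * (2 * (D + 1)))) ^ (m + x * (2 * (D + 1))) *
          (Fintype.card Q ^ m * (AccF A q₀).card) := by
        apply sum_le_sum
        intro ec hec
        rw [hT, Fintype.mem_piFinset] at hec
        have hlen : ∀ j, (ec j).1.2.length ≤ D ∧ (ec j).2.2.length ≤ D := by
          intro j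
          have := hec j
          rw [hND, mem_product, mem_product, mem_product, mem_wordsLe, mem_wordsLe] at this
          exact ⟨this.1.2, this.2.2⟩
        have hcn := card_nodes ec hlen
        refine le_trans (card_Cond q₀ ec hm) (Nat.mul_le_mul_right _ ?_)
        calc (2 * (nodes ec).card) ^ (nodes ec).card
            ≤ (2 * (m + x * (2 * (D + 1)))) ^ (nodes ec).card :=
              Nat.pow_le_pow_left (by omega) _
          _ ≤ (2 * (m + x * (2 * (D + 1)))) ^ (m + x * (2 * (D + 1))) :=
              Nat.pow_le_pow_right (by omega) hcn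
    _ = T.card * ((2 * (m + x * (2 * (D + 1)))) ^ (m + x * (2 * (D + 1))) *
          (Fintype.card Q ^ m * (AccF A q₀).card)) := by rw [sum_const, smul_eq_mul]
    _ ≤ (m * ((D + 1) * Fintype.card A ^ D)) ^ (2 * x) *
          ((2 * (m + x * (2 * (D + 1)))) ^ (m + x * (2 * (D + 1))) *
          (Fintype.card Q ^ m * (AccF A q₀).card)) := Nat.mul_le_mul_right _ hcT
    _ = KK (Fintype.card A) m x D * (Fintype.card Q ^ m * (AccF A q₀).card) := by
        rw [KK]; ring

end Pool.Agent.SC
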