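import Mathlib
import Pool.Agent.W_MP_6663ab_lc.SDefs

/-!
# Expectations under a `PMF`, and the first two moments of the limiting tree

First part: a small API for `ex` and `iid` (also used in other files of this folder).
Second part: the moments of the offspring distribution, the first and the (mixed) second moments
of the number of vertices of the limiting tree with a given label word.
-/

namespace Pool.Agent.SC

open Finset Filter
open scoped ENNReal Topology

universe u v

section exAPI

variable {α β : Type*}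

lemma ex_pure (a : α) (f : α → ℝ≥0∞) : ex (PMF.pure a) f = f a := by
  unfold ex
  rw [tsum_eq_single a]
  · simp
  · intro b hb
    simp [PMF.pure_apply, hb]

lemma ex_bind (p : PMF α) (g : α → PMF β) (f : β → ℝ≥0∞) :
    ex (p.bind g) f = ex p fun a => ex (g a) f := by
  unfold ex
  simp only [PMF.bind_apply]
  calc ∑' b, (∑' a, p a * g a b) * f b = ∑' b, ∑' a, p a * g a b * f b := by
        congr 1; funext b; rw [ENNReal.tsum_mul_right]
    _ = ∑' a, ∑' b, p a * g a b * f b := ENNReal.tsum_comm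
    _ = ∑' a, p a * ∑' b, g a b * f b := by
        congr 1; funext a; rw [← ENNReal.tsum_mul_left]; congr 1; funext b; ring

lemma ex_map (p : PMF α) (g : α → β) (f : β → ℝ≥0∞) :
    ex (p.map g) f = ex p fun a => f (g a) := by
  rw [PMF.map, ex_bind]
  congr 1
  funext a
  rw [Function.comp_apply, ex_pure]

lemma ex_const (p : PMF α) (c : ℝ≥0∞) : (ex p fun _ => c) = c := by
  unfold ex
  rw [ENNReal.tsum_mul_right, p.tsum_coe, one_mul]

lemma ex_zero (p : PMF α) : (ex p fun _ => 0) = 0 := ex_const p 0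

lemma ex_one (p : PMF α) : (ex p fun _ => 1) = 1 := ex_const p 1

lemma ex_add (p : PMF α) (f g : α → ℝ≥0∞) : (ex p fun a => f a + g a) = ex p f + ex p g := by
  unfold ex
  rw [← ENNReal.tsum_add]
  congr 1
  funext a
  ring

lemma ex_mul_left (p : PMF α) (c : ℝ≥0∞) (f : α → ℝ≥0∞) : (ex p fun a => c * f a) = c * ex p f := by
  unfold ex
  rw [← ENNReal.tsum_mul_left]
  congr 1
  funext a
  ring

lemma ex_mul_right (p : PMF α) (c : ℝ≥0∞) (f : α → ℝ≥0∞) :
    (ex p fun a => f a * c) = ex p f * c := by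
  unfold ex
  rw [← ENNReal.tsum_mul_right]
  congr 1
  funext a
  ring

lemma ex_finset_sum {ι : Type*} (p : PMF α) (s : Finset ι) (f : ι → α → ℝ≥0∞) :
    (ex p fun a => ∑ i ∈ s, f i a) = ∑ i ∈ s, ex p (f i) := by
  classical
  induction s using Finset.induction_on with
  | empty => simp [ex_zero]
  | insert i s hi ih =>
    simp only [Finset.sum_insert hi]
    rw [ex_add, ih]

/-- only the values on the support matter -/
lemma ex_congr {p : PMF α} {f g : α → ℝ≥0∞} (h : ∀ a, p a ≠ 0 → f a = g a) : ex p f = ex p g := by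
  unfold ex
  congr 1
  funext a
  by_cases ha : p a = 0
  · simp [ha]
  · rw [h a ha]

lemma ex_le_ex {p : PMF α} {f g : α → ℝ≥0∞} (h : ∀ a, p a ≠ 0 → f a ≤ g a) : ex p f ≤ ex p g := by
  unfold ex
  refine ENNReal.tsum_le_tsum fun a => ?_
  by_cases ha : p a = 0
  · simp [ha]
  · exact mul_le_mul_right (h a ha) _

lemma ex_mono (p : PMF α) {f g : α → ℝ≥0∞} (h : ∀ a, f a ≤ g a) : ex p f ≤ ex p g :=
  ex_le_ex fun a _ => h a

lemma ex_comm (p : PMF α) (q : PMF β) (f : α → β → ℝ≥0∞) :
    (ex p fun a => ex q fun b => f a b) = ex q fun b => ex p fun a => f a b := by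
  unfold ex
  calc ∑' a, p a * ∑' b, q b * f a b = ∑' a, ∑' b, p a * (q b * f a b) := by
        congr 1; funext a; rw [ENNReal.tsum_mul_left]
    _ = ∑' b, ∑' a, p a * (q b * f a b) := ENNReal.tsum_comm
    _ = ∑' b, q b * ∑' a, p a * f a b := by
        congr 1; funext b; rw [← ENNReal.tsum_mul_left]; congr 1; funext a; ring

/-- a single value contributes `p a * f a` -/
lemma le_ex (p : PMF α) (f : α → ℝ≥0∞) (a : α) : p a * f a ≤ ex p f := ENNReal.le_tsum a

lemma ex_eq_zero_iff {p : PMF α} {f : α → ℝ≥0∞} : ex p f = 0 ↔ ∀ a, p a ≠ 0 → f a = 0 := by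
  unfold ex
  rw [ENNReal.tsum_eq_zero]
  constructor
  · intro h a ha
    rcases mul_eq_zero.1 (h a) with h1 | h1
    · exact absurd h1 ha
    · exact h1
  · intro h a
    by_cases ha : p a = 0
    · simp [ha]
    · simp [h a ha]

/-- Markov's inequality -/
lemma ex_indicator_le (p : PMF α) (f : α → ℝ≥0∞) (P : α → Prop) [DecidablePred P]
    (h : ∀ a, P a → 1 ≤ f a) : (ex p fun a => if P a then 1 else 0) ≤ ex p f := by
  refine ex_mono p fun a => ?_
  split_ifs with h1
  · exact h a h1
  · exact zero_le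

/-! ### independent samples -/

lemma ex_iid_zero (p : PMF α) (f : List α → ℝ≥0∞) : ex (iid p 0) f = f [] := by
  rw [iid, ex_pure]

lemma ex_iid_succ (p : PMF α) (j : ℕ) (f : List α → ℝ≥0∞) :
    ex (iid p (j + 1)) f = ex p fun x => ex (iid p j) fun l => f (x :: l) := by
  rw [iid, ex_bind]
  congr 1
  funext x
  rw [ex_map]

lemma ex_iid_sum (p : PMF α) (f : α → ℝ≥0∞) (j : ℕ) :
    (ex (iid p j) fun l => (l.map f).sum) = j * ex p f := by
  induction j with
  | zero => rw [ex_iid_zero]; simp
  | succ j ih =>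
    rw [ex_iid_succ]
    simp only [List.map_cons, List.sum_cons]
    simp only [ex_add, ex_const]
    rw [ih]
    push_cast
    ring

lemma ex_iid_sum_mul_sum (p : PMF α) (f g : α → ℝ≥0∞) (j : ℕ) :
    (ex (iid p j) fun l => (l.map f).sum * (l.map g).sum) =
      j * (ex p fun x => f x * g x) + (j * (j - 1) : ℕ) * (ex p f * ex p g) := by
  induction j with
  | zero => rw [ex_iid_zero]; simp
  | succ j ih =>
    rw [ex_iid_succ]
    simp only [List.map_cons, List.sum_cons]
    have h1 : ∀ x, (ex (iid p j) fun l => (f x + (l.map f).sum) * (g x + (l.map g).sum)) =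
        f x * g x + f x * (j * ex p g) + g x * (j * ex p f) +
          (j * (ex p fun x => f x * g x) + (j * (j - 1) : ℕ) * (ex p f * ex p g)) := by
      intro x
      rw [← ih, ← ex_iid_sum, ← ex_iid_sum, ← ex_mul_left, ← ex_mul_left, ← ex_const (iid p j) (f x * g x),
        ← ex_add, ← ex_add, ← ex_add]
      congr 1
      funext l
      ring
    simp only [h1]
    simp only [ex_add, ex_const, ex_mul_right]
    have h2 : ((j + 1) * (j + 1 - 1) : ℕ) = j * (j - 1) + 2 * j := by
      rcases j with _ | j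
      · rfl
      · simp only [Nat.add_sub_cancel]; ring
    rw [h2]
    push_cast
    ring

lemma ex_iid_prod (p : PMF α) (f : α → ℝ≥0∞) (j : ℕ) :
    (ex (iid p j) fun l => (l.map f).prod) = ex p f ^ j := by
  induction j with
  | zero => rw [ex_iid_zero]; simp
  | succ j ih =>
    rw [ex_iid_succ]
    simp only [List.map_cons, List.prod_cons, ex_mul_left, ih]
    rw [ex_mul_right, pow_succ']

lemma mem_of_iid_ne_zero (p : PMF α) (j : ℕ) (l : List α) (hl : iid p j l ≠ 0) :
    l.length = j ∧ ∀ x ∈ l, p x ≠ 0 := by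
  induction j generalizing l with
  | zero =>
    rw [iid, PMF.pure_apply] at hl
    have : l = [] := by
      by_contra h
      exact hl (if_neg h)
    subst this
    simp
  | succ j ih =>
    rw [← PMF.mem_support_iff, iid, PMF.mem_support_bind_iff] at hl
    obtain ⟨x, hx, hl⟩ := hl
    rw [PMF.mem_support_map_iff] at hl
    obtain ⟨l', hl', rfl⟩ := hl
    obtain ⟨h1, h2⟩ := ih l' ((PMF.mem_support_iff _ _).1 hl')
    refine ⟨by simp [h1], ?_⟩
    intro y hy
    rcases List.mem_cons.1 hy with rfl | hy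
    · exact (PMF.mem_support_iff _ _).1 hx
    · exact h2 y hy

end exAPI

/-! ### moments of the offspring distribution -/

private lemma hasSum_congr_fun {f g : ℕ → ℝ} {s : ℝ} (h : HasSum f s) (hfg : ∀ j, g j = f j) :
    HasSum g s := by
  have : g = f := funext hfg
  rw [this]
  exact h

lemma offW_mul_hasSum {k : ℕ} (hk : 2 ≤ k) : HasSum (fun j : ℕ => offW k j * j) k := by
  obtain ⟨h1, h2, h3⟩ := nu_spec hk
  have h4 : HasSum (fun j : ℕ => (k * nu k) ^ j / (j.factorial : ℝ)) (Real.exp (k * nu k)) := by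
    rw [Real.exp_eq_exp_ℝ]
    exact NormedSpace.expSeries_div_hasSum_exp (k * nu k)
  have h8 : Real.exp (k * nu k) = (1 - nu k)⁻¹ := by
    rw [h3, Real.exp_neg, inv_inv]
  have h9 : 1 - nu k ≠ 0 := by linarith
  rw [h8] at h4
  have h5 := h4.mul_left ((1 - nu k) / nu k * (k * nu k))
  have h6 : (1 - nu k) / nu k * (k * nu k) * (1 - nu k)⁻¹ = k := by
    field_simp
  rw [h6] at h5
  rw [← hasSum_nat_add_iff' 1]
  simp only [Finset.range_one, Finset.sum_singleton, Nat.cast_zero, mul_zero, sub_zero]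
  refine hasSum_congr_fun h5 fun j => ?_
  have h10 : ((j.factorial : ℕ) : ℝ) ≠ 0 := by positivity
  have h11 : ((j : ℝ) + 1) ≠ 0 := by positivity
  simp only [offW, Nat.succ_ne_zero, if_false, Nat.factorial_succ]
  push_cast
  field_simp
  ring

lemma offW_mul_mul_hasSum {k : ℕ} (hk : 2 ≤ k) :
    HasSum (fun j : ℕ => offW k j * ((j * (j - 1) : ℕ) : ℝ)) (k ^ 2 * nu k) := by
  obtain ⟨h1, h2, h3⟩ := nu_spec hk
  have h4 : HasSum (fun j : ℕ => (k * nu k) ^ j / (j.factorial : ℝ)) (Real.exp (k * nu k)) := by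
    rw [Real.exp_eq_exp_ℝ]
    exact NormedSpace.expSeries_div_hasSum_exp (k * nu k)
  have h8 : Real.exp (k * nu k) = (1 - nu k)⁻¹ := by
    rw [h3, Real.exp_neg, inv_inv]
  have h9 : 1 - nu k ≠ 0 := by linarith
  rw [h8] at h4
  have h5 := h4.mul_left ((1 - nu k) / nu k * (k * nu k) ^ 2)
  have h6 : (1 - nu k) / nu k * (k * nu k) ^ 2 * (1 - nu k)⁻¹ = k ^ 2 * nu k := by
    field_simp
  rw [h6] at h5
  rw [← hasSum_nat_add_iff' 2]
  have h12 : ∑ i ∈ range 2, offW k i * ((i * (i - 1) : ℕ) : ℝ) = 0 := by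
    simp [Finset.sum_range_succ]
  rw [h12, sub_zero]
  refine hasSum_congr_fun h5 fun j => ?_
  have h10 : ((j.factorial : ℕ) : ℝ) ≠ 0 := by positivity
  have h11 : ((j : ℝ) + 1) ≠ 0 := by positivity
  have h13 : ((j : ℝ) + 1 + 1) ≠ 0 := by positivity
  have h14 : j + 2 ≠ 0 := by omega
  have h15 : (j + 2) * (j + 2 - 1) = (j + 2) * (j + 1) := by
    rw [show j + 2 - 1 = j + 1 by omega]
  have h16 : (j + 2).factorial = (j + 1 + 1) * ((j + 1) * j.factorial) := by
    rw [Nat.factorial_succ, Nat.factorial_succ]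
  rw [h15, offW, if_neg h14, h16]
  push_cast
  field_simp
  ring

lemma ex_off_nat {k : ℕ} (hk : 2 ≤ k) (g : ℕ → ℕ) {s : ℝ}
    (h : HasSum (fun j : ℕ => offW k j * (g j : ℝ)) s) :
    (ex (off k) fun j => (g j : ℝ≥0∞)) = ENNReal.ofReal s := by
  unfold ex
  have h1 : ∀ j : ℕ, off k j * (g j : ℝ≥0∞) = ENNReal.ofReal (offW k j * g j) := by
    intro j
    rw [off_apply hk, ENNReal.ofReal_mul (offW_nonneg hk j), ENNReal.ofReal_natCast]
  simp only [h1]
  rw [← h.tsum_eq, ENNReal.ofReal_tsum_of_nonneg _ h.summable]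
  intro j
  exact mul_nonneg (offW_nonneg hk j) (Nat.cast_nonneg _)

lemma ex_off_id {k : ℕ} (hk : 2 ≤ k) : (ex (off k) fun j => (j : ℝ≥0∞)) = k := by
  rw [ex_off_nat hk (fun j => j) (offW_mul_hasSum hk), ENNReal.ofReal_natCast]

lemma ex_off_mul {k : ℕ} (hk : 2 ≤ k) :
    (ex (off k) fun j => ((j * (j - 1) : ℕ) : ℝ≥0∞)) = (k : ℝ≥0∞) ^ 2 * ENNReal.ofReal (nu k) := by
  rw [ex_off_nat hk (fun j => j * (j - 1)) (offW_mul_mul_hasSum hk),
    ENNReal.ofReal_mul (by positivity), ENNReal.ofReal_pow (by positivity), ENNReal.ofReal_natCast]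

lemma off_zero {k : ℕ} (hk : 2 ≤ k) : off k 0 = 0 := by
  rw [off_apply hk]
  simp [offW]

/-! ### expectations at the root of the limiting tree -/

section tree

variable (A : Type u) [Fintype A] [Nonempty A]

lemma ex_mark {A : Type u} [Fintype A] [Nonempty A] (μ : PMF (Multiset (List A)))
    (f : A × Multiset (List A) → ℝ≥0∞) :
    ex (mark μ) f = ((Fintype.card A : ℝ≥0∞))⁻¹ * ∑ a, ex μ fun m => f (a, m) := by
  rw [mark, ex_bind]
  simp only [ex_map]
  unfold ex
  rw [tsum_fintype, Finset.mul_sum]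
  refine Finset.sum_congr rfl fun a _ => ?_
  rw [PMF.uniformOfFintype_apply]

lemma ex_mu_succ (D : ℕ) (f : Multiset (List A) → ℝ≥0∞) :
    ex (mu A (D + 1)) f =
      ex (off (Fintype.card A)) fun j => ex (iid (mark (mu A D)) j) fun l => f (comb l) := by
  rw [mu, ex_map, ex_bind]

lemma ex_mu_zero (f : Multiset (List A) → ℝ≥0∞) : ex (mu A 0) f = f {[]} := by
  rw [mu, ex_pure]

open Classical in
lemma count_map_cons {A : Type u} (m : Multiset (List A)) (a b : A) (w : List A) :
    (m.map (a :: ·)).count (b :: w) = if a = b then m.count w else 0 := by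
  split_ifs with h
  · subst h
    exact Multiset.count_map_eq_count' _ _ (List.cons_injective) _
  · rw [Multiset.count_eq_zero]
    intro h1
    obtain ⟨v, -, hv⟩ := Multiset.mem_map.1 h1
    exact h (List.cons.inj hv).1

open Classical in
lemma count_comb_cons {A : Type u} (l : List (A × Multiset (List A))) (a : A) (w : List A) :
    (((comb l).count (a :: w) : ℕ) : ℝ≥0∞) =
      (l.map fun x => if x.1 = a then (x.2.count w : ℝ≥0∞) else 0).sum := by
  induction l with
  | nil => simp [comb]
  | cons x l ih =>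
    have h1 : comb (x :: l) = x.2.map (x.1 :: ·) + comb l := by simp [comb]
    rw [h1, Multiset.count_add, Nat.cast_add, ih, count_map_cons]
    simp

lemma ex_mark_ite {A : Type u} [Fintype A] [Nonempty A] (μ : PMF (Multiset (List A))) (a : A)
    (f : Multiset (List A) → ℝ≥0∞) [DecidableEq A] :
    (ex (mark μ) fun x => if x.1 = a then f x.2 else 0) = ((Fintype.card A : ℝ≥0∞))⁻¹ * ex μ f := by
  rw [ex_mark]
  congr 1
  rw [Finset.sum_eq_single a]
  · simp
  · intro b _ hb
    simp [hb, ex_zero]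
  · simp

lemma mul_inv_card (A : Type u) [Fintype A] [Nonempty A] :
    (Fintype.card A : ℝ≥0∞) * (Fintype.card A : ℝ≥0∞)⁻¹ = 1 := by
  apply ENNReal.mul_inv_cancel
  · have := Fintype.card_ne_zero (α := A)
    exact_mod_cast this
  · exact ENNReal.natCast_ne_top _

lemma mul_inv_card_pow (A : Type u) [Fintype A] [Nonempty A] :
    (Fintype.card A : ℝ≥0∞) ^ 2 * ((Fintype.card A : ℝ≥0∞)⁻¹ * (Fintype.card A : ℝ≥0∞)⁻¹) = 1 := by
  have h := mul_inv_card A
  calc (Fintype.card A : ℝ≥0∞) ^ 2 * ((Fintype.card A : ℝ≥0∞)⁻¹ * (Fintype.card A : ℝ≥0∞)⁻¹)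
      = ((Fintype.card A : ℝ≥0∞) * (Fintype.card A : ℝ≥0∞)⁻¹) *
        ((Fintype.card A : ℝ≥0∞) * (Fintype.card A : ℝ≥0∞)⁻¹) := by ring
    _ = 1 := by rw [h, one_mul]

open Classical in
theorem ex_mu_count (hk : 2 ≤ Fintype.card A) (D : ℕ) (w : List A) (hw : w.length = D) :
    ex (mu A D) (fun m => (m.count w : ℝ≥0∞)) = 1 := by
  induction D generalizing w with
  | zero =>
    rw [List.length_eq_zero_iff] at hw
    subst hw
    rw [ex_mu_zero]
    simp
  | succ D ih =>
    obtain ⟨a, w', rfl⟩ := List.exists_cons_of_length_eq_add_one hw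
    have hw' : w'.length = D := by simpa using hw
    rw [ex_mu_succ]
    simp only [count_comb_cons, ex_iid_sum]
    rw [ex_mul_right, ex_off_id hk, ex_mark_ite (mu A D) a fun m => (m.count w' : ℝ≥0∞), ih w' hw',
      mul_one, mul_inv_card]

open Classical in
theorem ex_mu_count_mul (hk : 2 ≤ Fintype.card A) (D : ℕ) (u w : List A) (hu : u.length = D)
    (hw : w.length = D) :
    ex (mu A D) (fun m => (m.count u : ℝ≥0∞) * m.count w) =
      (if u = w then 1 else 0) + ENNReal.ofReal (nu (Fintype.card A)) *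
        ((range D).filter fun i => u.take i = w.take i).card := by
  induction D generalizing u w with
  | zero =>
    rw [List.length_eq_zero_iff] at hu hw
    subst hu hw
    rw [ex_mu_zero]
    simp
  | succ D ih =>
    obtain ⟨a, u', rfl⟩ := List.exists_cons_of_length_eq_add_one hu
    obtain ⟨b, w', rfl⟩ := List.exists_cons_of_length_eq_add_one hw
    have hu' : u'.length = D := by simpa using hu
    have hw' : w'.length = D := by simpa using hw
    rw [ex_mu_succ]
    simp only [count_comb_cons, ex_iid_sum_mul_sum]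
    rw [ex_add, ex_mul_right, ex_mul_right, ex_off_id hk, ex_off_mul hk,
      ex_mark_ite (mu A D) a fun m => (m.count u' : ℝ≥0∞),
      ex_mark_ite (mu A D) b fun m => (m.count w' : ℝ≥0∞), ex_mu_count A hk D u' hu',
      ex_mu_count A hk D w' hw', mul_one]
    have h1 : (Fintype.card A : ℝ≥0∞) ^ 2 * ENNReal.ofReal (nu (Fintype.card A)) *
        ((Fintype.card A : ℝ≥0∞)⁻¹ * (Fintype.card A : ℝ≥0∞)⁻¹) =
        ENNReal.ofReal (nu (Fintype.card A)) := by
      calc (Fintype.card A : ℝ≥0∞) ^ 2 * ENNReal.ofReal (nu (Fintype.card A)) *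
        ((Fintype.card A : ℝ≥0∞)⁻¹ * (Fintype.card A : ℝ≥0∞)⁻¹)
          = (Fintype.card A : ℝ≥0∞) ^ 2 * ((Fintype.card A : ℝ≥0∞)⁻¹ * (Fintype.card A : ℝ≥0∞)⁻¹) *
            ENNReal.ofReal (nu (Fintype.card A)) := by ring
        _ = _ := by rw [mul_inv_card_pow, one_mul]
    rw [h1]
    have h2 : ((range (D + 1)).filter fun i => (a :: u').take i = (b :: w').take i).card =
        1 + if a = b then ((range D).filter fun i => u'.take i = w'.take i).card else 0 := by
      rw [Finset.card_filter, Finset.sum_range_succ']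
      simp only [List.take_succ_cons, List.take_zero, if_true, List.cons.injEq]
      rw [add_comm]
      congr 1
      split_ifs with h
      · rw [Finset.card_filter]
        simp [h]
      · simp [h]
    rw [h2]
    by_cases h : a = b
    · subst h
      have h3 : (fun x : A × Multiset (List A) => (if x.1 = a then (x.2.count u' : ℝ≥0∞) else 0) *
          (if x.1 = a then (x.2.count w' : ℝ≥0∞) else 0)) = fun x =>
          if x.1 = a then (x.2.count u' : ℝ≥0∞) * x.2.count w' else 0 := by
        funext x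
        split_ifs <;> simp
      rw [h3, ex_mark_ite (mu A D) a fun m => (m.count u' : ℝ≥0∞) * m.count w', ih u' w' hu' hw',
        ← mul_assoc, mul_inv_card, one_mul]
      simp only [List.cons.injEq, true_and, if_true]
      push_cast
      ring
    · have h3 : (fun x : A × Multiset (List A) => (if x.1 = a then (x.2.count u' : ℝ≥0∞) else 0) *
          (if x.1 = b then (x.2.count w' : ℝ≥0∞) else 0)) = fun x => 0 := by
        funext x
        split_ifs with h4 h5
        · exact absurd (h4.symm.trans h5) h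
        · simp
        · simp
        · simp
      rw [h3, ex_zero]
      simp [h]

theorem mu_length (D : ℕ) (m : Multiset (List A)) (hm : mu A D m ≠ 0) (w : List A) (hw : w ∈ m) :
    w.length = D := by
  induction D generalizing m w with
  | zero =>
    rw [mu, PMF.pure_apply] at hm
    have : m = {[]} := by
      by_contra h
      exact hm (if_neg h)
    subst this
    simp at hw
    simp [hw]
  | succ D ih =>
    rw [← PMF.mem_support_iff, mu, PMF.mem_support_map_iff] at hm
    obtain ⟨l, hl, rfl⟩ := hm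
    rw [PMF.mem_support_bind_iff] at hl
    obtain ⟨j, -, hl⟩ := hl
    obtain ⟨-, h2⟩ := mem_of_iid_ne_zero _ _ _ ((PMF.mem_support_iff _ _).1 hl)
    unfold comb at hw
    have h3 : ∀ (s : List (Multiset (List A))), w ∈ s.sum → ∃ t ∈ s, w ∈ t := by
      intro s
      induction s with
      | nil => simp
      | cons t s ihs =>
        intro h
        rw [List.sum_cons, Multiset.mem_add] at h
        rcases h with h | h
        · exact ⟨t, by simp, h⟩
        · obtain ⟨t', h1, h2⟩ := ihs h
          exact ⟨t', by simp [h1], h2⟩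
    obtain ⟨t, ht, hwt⟩ := h3 _ hw
    obtain ⟨x, hx, rfl⟩ := List.mem_map.1 ht
    obtain ⟨v, hv, rfl⟩ := Multiset.mem_map.1 hwt
    have h4 := h2 x hx
    rw [← PMF.mem_support_iff, mark, PMF.mem_support_bind_iff] at h4
    obtain ⟨a, -, h5⟩ := h4
    rw [PMF.mem_support_map_iff] at h5
    obtain ⟨m', hm', rfl⟩ := h5
    have := ih m' ((PMF.mem_support_iff _ _).1 hm') v hv
    simp [this]

end tree

end Pool.Agent.SC
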