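import Mathlib
import Pool.Agent.W_MP_6663ab_lc.SGw1

/-!
# Level decomposition of the limiting tree

* convolution of `PMF`s on an additive commutative monoid (`conv`, a commutative monoid);
* `ext h m`: law of the multiset of label words obtained from `m` by hanging an independent tree of
  height `h` below every word of `m`;
* `mu_add : mu A (D + h) = (mu A D).bind (ext A h)`.
-/

set_option autoImplicit false

namespace Pool.Agent.SC.GW

open Finset Filter
open Pool.Agent.SC
open scoped ENNReal Topology

universe u

section exAPI

variable {α : Type*}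

lemma ex_tsum {ι : Type*} (p : PMF α) (f : ι → α → ℝ≥0∞) :
    ex p (fun a => ∑' i, f i a) = ∑' i, ex p (f i) := by
  unfold ex
  rw [ENNReal.tsum_comm]
  simp only [ENNReal.tsum_mul_left]

lemma ex_le_const (p : PMF α) {f : α → ℝ≥0∞} {c : ℝ≥0∞} (h : ∀ a, f a ≤ c) : ex p f ≤ c :=
  (ex_mono p h).trans (ex_const p c).le

end exAPI

section convolution

variable {M N : Type*} [AddCommMonoid M] [AddCommMonoid N]

/-- convolution -/
noncomputable def conv (p q : PMF M) : PMF M := p.bind fun x => q.bind fun y => PMF.pure (x + y)

/-- the commutative monoid of `PMF`s on an additive commutative monoid under convolution -/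
noncomputable scoped instance convMonoid : CommMonoid (PMF M) where
  mul := conv
  one := PMF.pure 0
  mul_assoc p q r := by
    change conv (conv p q) r = conv p (conv q r)
    simp only [conv, PMF.bind_bind, PMF.pure_bind, add_assoc]
  one_mul p := by
    change conv (PMF.pure 0) p = p
    simp only [conv, PMF.pure_bind, zero_add, PMF.bind_pure]
  mul_one p := by
    change conv p (PMF.pure 0) = p
    simp only [conv, PMF.pure_bind, add_zero, PMF.bind_pure]
  mul_comm p q := by
    change conv p q = conv q p
    simp only [conv]
    rw [PMF.bind_comm]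
    simp only [add_comm]

lemma mul_def (p q : PMF M) : p * q = p.bind fun x => q.bind fun y => PMF.pure (x + y) := rfl

lemma one_def : (1 : PMF M) = PMF.pure 0 := rfl

lemma ex_conv_mul (p q : PMF M) (f : M → ℝ≥0∞) :
    ex (p * q) f = ex p fun x => ex q fun y => f (x + y) := by
  rw [mul_def, ex_bind]
  simp only [ex_bind, ex_pure]

lemma ex_conv_one (f : M → ℝ≥0∞) : ex (1 : PMF M) f = f 0 := ex_pure _ _

lemma bind_mul (E : M → PMF N) (hE : ∀ x y, E (x + y) = E x * E y) (p q : PMF M) :
    (p * q).bind E = p.bind E * q.bind E := by
  simp only [mul_def, PMF.bind_bind, PMF.pure_bind, hE]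
  congr 1
  funext x
  rw [PMF.bind_comm]

lemma bind_pow (E : M → PMF N) (h0 : E 0 = 1) (hE : ∀ x y, E (x + y) = E x * E y) (p : PMF M)
    (j : ℕ) : (p ^ j).bind E = (p.bind E) ^ j := by
  induction j with
  | zero => rw [pow_zero, pow_zero, one_def, PMF.pure_bind, h0]
  | succ j ih => rw [pow_succ, pow_succ, bind_mul E hE, ih]

lemma map_mul' (f : M →+ N) (p q : PMF M) : (p * q).map f = p.map f * q.map f := by
  rw [← PMF.bind_pure_comp, ← PMF.bind_pure_comp, ← PMF.bind_pure_comp]
  apply bind_mul
  intro x y
  simp only [Function.comp, map_add, mul_def, PMF.pure_bind]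

lemma map_one' (f : M →+ N) : (1 : PMF M).map f = 1 := by
  rw [one_def, PMF.pure_map, map_zero, one_def]

end convolution

section tree

variable (A : Type u) [Fintype A] [Nonempty A]

/-- law of the multiset of the words of a child (one letter, then an independent tree) -/
noncomputable def child {A : Type u} [Fintype A] [Nonempty A] (μ : PMF (Multiset (List A))) :
    PMF (Multiset (List A)) :=
  (PMF.uniformOfFintype A).bind fun a => μ.map (Multiset.map (a :: ·))

lemma comb_cons {A : Type u} (x : A × Multiset (List A)) (l : List (A × Multiset (List A))) :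
    comb (x :: l) = x.2.map (x.1 :: ·) + comb l := by
  simp [comb]

lemma mark_map {A : Type u} [Fintype A] [Nonempty A] (μ : PMF (Multiset (List A))) :
    (mark μ).map (fun x => x.2.map (x.1 :: ·)) = child μ := by
  unfold mark child
  rw [PMF.map_bind]
  congr 1
  funext a
  rw [PMF.map_comp]
  rfl

lemma iid_map_comb {A : Type u} [Fintype A] [Nonempty A] (μ : PMF (Multiset (List A))) (j : ℕ) :
    (iid (mark μ) j).map comb = child μ ^ j := by
  induction j with
  | zero =>
    rw [pow_zero, iid, PMF.pure_map, one_def]
    simp [comb]
  | succ j ih =>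
    rw [pow_succ', iid, PMF.map_bind, ← ih, ← mark_map]
    rw [mul_def, PMF.bind_map]
    congr 1
    funext x
    rw [PMF.map_comp]
    simp only [Function.comp_apply]
    rw [PMF.bind_map, ← PMF.bind_pure_comp]
    congr 1

lemma mu_succ (D : ℕ) :
    mu A (D + 1) = (off (Fintype.card A)).bind fun j => child (mu A D) ^ j := by
  rw [mu, PMF.map_bind]
  congr 1
  funext j
  exact iid_map_comb _ _

/-- law of the multiset of words obtained by hanging independent trees of height `h` below all
words of `m` -/
noncomputable def ext (h : ℕ) (m : Multiset (List A)) : PMF (Multiset (List A)) :=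
  (m.map fun w => (mu A h).map (Multiset.map (w ++ ·))).prod

lemma ext_zero (h : ℕ) : ext A h 0 = 1 := by
  simp [ext]

lemma ext_add (h : ℕ) (m m' : Multiset (List A)) : ext A h (m + m') = ext A h m * ext A h m' := by
  simp [ext]

lemma ext_cons (h : ℕ) (w : List A) (m : Multiset (List A)) :
    ext A h (w ::ₘ m) = (mu A h).map (Multiset.map (w ++ ·)) * ext A h m := by
  simp [ext]

lemma ext_singleton (h : ℕ) (w : List A) :
    ext A h {w} = (mu A h).map (Multiset.map (w ++ ·)) := by
  simp [ext]

lemma ext_map_cons (h : ℕ) (a : A) (m : Multiset (List A)) :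
    (ext A h m).map (Multiset.map (a :: ·)) = ext A h (m.map (a :: ·)) := by
  induction m using Multiset.induction_on with
  | empty =>
    rw [Multiset.map_zero, ext_zero]
    exact map_one' (Multiset.mapAddMonoidHom (a :: ·))
  | cons w m ih =>
    rw [Multiset.map_cons, ext_cons, ext_cons, ← ih]
    have h1 := map_mul' (Multiset.mapAddMonoidHom (a :: ·))
      ((mu A h).map (Multiset.map (w ++ ·))) (ext A h m)
    rw [Multiset.coe_mapAddMonoidHom] at h1
    rw [h1, PMF.map_comp]
    congr 2
    funext n
    simp [Function.comp]

lemma child_ext (h : ℕ) (μ : PMF (Multiset (List A))) :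
    child (μ.bind (ext A h)) = (child μ).bind (ext A h) := by
  unfold child
  rw [PMF.bind_bind]
  congr 1
  funext a
  rw [PMF.map_bind, PMF.bind_map]
  congr 1
  funext m
  exact ext_map_cons A h a m

/-- **level decomposition** -/
theorem mu_add (D h : ℕ) : mu A (D + h) = (mu A D).bind (ext A h) := by
  induction D with
  | zero =>
    rw [Nat.zero_add, mu, PMF.pure_bind, ext_singleton]
    have : Multiset.map (fun w : List A => [] ++ w) = id := by
      funext m
      simp
    rw [this, PMF.map_id]
  | succ D ih =>
    rw [show D + 1 + h = (D + h) + 1 by ring, mu_succ, mu_succ, PMF.bind_bind, ih]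
    congr 1
    funext j
    rw [child_ext, bind_pow (ext A h) (ext_zero A h) (ext_add A h)]

/-- expectation of an additive functional after hanging the trees -/
lemma ex_ext_additive (h : ℕ) (m : Multiset (List A)) (f : Multiset (List A) → ℝ≥0∞)
    (h0 : f 0 = 0) (hf : ∀ x y, f (x + y) = f x + f y) :
    ex (ext A h m) f = (m.map fun w => ex (mu A h) fun n => f (n.map (w ++ ·))).sum := by
  induction m using Multiset.induction_on with
  | empty => rw [ext_zero, ex_conv_one, h0]; rfl
  | cons w m ih =>
    rw [ext_cons, ex_conv_mul, Multiset.map_cons, Multiset.sum_cons, ← ih]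
    simp only [hf]
    rw [show (fun x => ex (ext A h m) fun y => f x + f y) =
      fun x => f x + ex (ext A h m) f from funext fun x => by rw [ex_add, ex_const]]
    rw [ex_add, ex_const, ex_map]

end tree

end Pool.Agent.SC.GW
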