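import Mathlib
import Pool.Agent.W_MP_6663ab_lc.GWLevel

/-!
# Survival probability and small ball estimate for the pair of limiting trees
-/

set_option autoImplicit false

namespace Pool.Agent.SC

open Finset Filter
open scoped ENNReal Topology

universe u

variable (A : Type u) [Fintype A] [Nonempty A]

namespace GW

section ZZ

variable {A : Type u}

lemma ZZ_zero_left (m : Multiset (List A)) : ZZ 0 m = 0 := by simp [ZZ]

lemma ZZ_zero_right (m : Multiset (List A)) : ZZ m 0 = 0 := by simp [ZZ]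

lemma ZZ_add_left (m n m' : Multiset (List A)) : ZZ (m + n) m' = ZZ m m' + ZZ n m' := by
  simp [ZZ]

lemma ZZ_add_right (m m' n' : Multiset (List A)) : ZZ m (m' + n') = ZZ m m' + ZZ m n' := by
  simp [ZZ, Multiset.sum_map_add]

open Classical in
lemma ZZ_eq_sum (m m' : Multiset (List A)) : ZZ m m' = ∑ w ∈ m.toFinset, m.count w * m'.count w := by
  rw [ZZ, Finset.sum_multiset_map_count]
  simp

open Classical in
lemma ZZ_eq_tsum (m m' : Multiset (List A)) :
    (ZZ m m' : ℝ≥0∞) = ∑' w, (m.count w : ℝ≥0∞) * m'.count w := by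
  rw [ZZ_eq_sum, tsum_eq_sum (s := m.toFinset)]
  · push_cast
    rfl
  · intro w hw
    rw [Multiset.mem_toFinset, ← Multiset.count_eq_zero] at hw
    simp [hw]

lemma ZZ_map_append (w : List A) (m m' : Multiset (List A)) :
    ZZ (m.map (w ++ ·)) (m'.map (w ++ ·)) = ZZ m m' := by
  classical
  unfold ZZ
  rw [Multiset.map_map]
  congr 1
  apply Multiset.map_congr rfl
  intro u _
  simp only [Function.comp]
  exact Multiset.count_map_eq_count' _ _ (List.append_right_injective w) u

lemma ZZ_eq_zero {m m' : Multiset (List A)} (h : ∀ w ∈ m, w ∉ m') : ZZ m m' = 0 := by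
  classical
  unfold ZZ
  apply Multiset.sum_eq_zero
  intro x hx
  rw [Multiset.mem_map] at hx
  obtain ⟨w, hw, rfl⟩ := hx
  exact Multiset.count_eq_zero.2 (h w hw)

lemma ZZ_map_append_ne {w w' : List A} (hl : w.length = w'.length) (hne : w ≠ w')
    (m m' : Multiset (List A)) :
    ZZ (m.map (w ++ ·)) (m'.map (w' ++ ·)) = 0 := by
  apply ZZ_eq_zero
  intro v hv hv'
  rw [Multiset.mem_map] at hv hv'
  obtain ⟨u, -, rfl⟩ := hv
  obtain ⟨u', -, h⟩ := hv'
  exact hne (List.append_inj_left h hl.symm).symm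

lemma exists_of_ZZ_pos {m m' : Multiset (List A)} (h : 1 ≤ ZZ m m') : ∃ w, w ∈ m ∧ w ∈ m' := by
  by_contra hc
  push Not at hc
  rw [ZZ_eq_zero hc] at h
  omega

end ZZ

/-- expected number of common words -/
noncomputable def EZ (D : ℕ) : ℝ≥0∞ := ex (mu A D) fun m => ex (mu A D) fun m' => (ZZ m m' : ℝ≥0∞)

open Classical in
lemma ex_count (hk : 2 ≤ Fintype.card A) (D : ℕ) (w : List A) :
    ex (mu A D) (fun m => (m.count w : ℝ≥0∞)) = if w.length = D then 1 else 0 := by
  split_ifs with h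
  · exact ex_mu_count A hk D w h
  · rw [← ex_zero (mu A D)]
    apply ex_congr
    intro m hm
    rw [Nat.cast_eq_zero, Multiset.count_eq_zero]
    intro hw
    exact h (mu_length A D m hm w hw)

/-- number of words of length `D` -/
lemma tsum_length (D : ℕ) :
    (∑' w : List A, if w.length = D then (1 : ℝ≥0∞) else 0) = (Fintype.card A : ℝ≥0∞) ^ D := by
  have h1 : (∑' w : List A, if w.length = D then (1 : ℝ≥0∞) else 0) =
      ∑' w : {w : List A // w.length = D}, (1 : ℝ≥0∞) := by
    refine Eq.trans ?_ (tsum_subtype {w : List A | w.length = D} (fun _ => (1 : ℝ≥0∞))).symm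
    refine tsum_congr fun w => ?_
    simp [Set.indicator]
  rw [h1]
  change (∑' w : List.Vector A D, (1 : ℝ≥0∞)) = _
  rw [tsum_fintype]
  simp

open Classical in
lemma tsum_take_le (D i : ℕ) (x : List A) :
    (∑' w : List A, if w.length = D ∧ x = w.take i then (1 : ℝ≥0∞) else 0) ≤
      (Fintype.card A : ℝ≥0∞) ^ (D - i) := by
  rw [← tsum_length A (D - i)]
  have h1 : ∀ P : List A → Prop, (∑' w : List A, if P w then (1 : ℝ≥0∞) else 0) =
      ∑' w : {w : List A // P w}, (1 : ℝ≥0∞) := by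
    intro P
    refine Eq.trans ?_ (tsum_subtype {w : List A | P w} (fun _ => (1 : ℝ≥0∞))).symm
    refine tsum_congr fun w => ?_
    simp [Set.indicator]
  have h0 : (∑' w : List A, if w.length = D ∧ x = w.take i then (1 : ℝ≥0∞) else 0) =
      ∑' w : {w : List A // w.length = D ∧ x = w.take i}, (1 : ℝ≥0∞) := by
    rw [← h1 fun w => w.length = D ∧ x = w.take i]
    refine tsum_congr fun w => ?_
    congr 1
  rw [h0]
  have h2 : (∑' w : List A, if w.length = D - i then (1 : ℝ≥0∞) else 0) =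
      ∑' w : {w : List A // w.length = D - i}, (1 : ℝ≥0∞) := by
    rw [← h1 fun w => w.length = D - i]
    refine tsum_congr fun w => ?_
    congr 1
  rw [h2]
  let F : {w : List A // w.length = D ∧ x = w.take i} → {w : List A // w.length = D - i} :=
    fun w => ⟨w.1.drop i, by rw [List.length_drop, w.2.1]⟩
  have hF : Function.Injective F := by
    intro w w' h
    apply Subtype.ext
    have h3 : w.1.drop i = w'.1.drop i := congrArg Subtype.val h
    rw [← List.take_append_drop i w.1, ← List.take_append_drop i w'.1, h3, ← w.2.2, ← w'.2.2]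
  exact ENNReal.tsum_comp_le_tsum_of_injective hF fun _ => (1 : ℝ≥0∞)

lemma EZ_eq (hk : 2 ≤ Fintype.card A) (D : ℕ) : EZ A D = (Fintype.card A : ℝ≥0∞) ^ D := by
  classical
  unfold EZ
  simp only [ZZ_eq_tsum]
  simp only [ex_tsum, ex_mul_left, ex_mul_right, ex_count A hk]
  rw [← tsum_length A D]
  refine tsum_congr fun w => ?_
  split_ifs <;> simp

open Classical in
lemma card_filter_sq_le (P : ℕ → Prop) (n : ℕ) :
    ((range n).filter P).card ^ 2 ≤ ∑ i ∈ range n, (2 * i + 1) * (if P i then 1 else 0) := by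
  induction n with
  | zero => simp
  | succ n ih =>
    rw [Finset.sum_range_succ, Finset.range_add_one, Finset.filter_insert]
    by_cases h : P n
    · rw [if_pos h, if_pos h, Finset.card_insert_of_notMem (by simp)]
      have h1 : ((range n).filter P).card ≤ n := by
        refine (Finset.card_filter_le _ _).trans ?_
        simp
      nlinarith
    · rw [if_neg h, if_neg h]
      simpa using ih

open Classical in
lemma ex_count_mul_le (hk : 2 ≤ Fintype.card A) (D : ℕ) (u w : List A) :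
    ex (mu A D) (fun m => (m.count u : ℝ≥0∞) * m.count w) ≤
      (if u.length = D ∧ w.length = D then 1 else 0) *
        (((range (D + 1)).filter fun i => u.take i = w.take i).card : ℝ≥0∞) := by
  split_ifs with h
  · rw [one_mul, ex_mu_count_mul A hk D u w h.1 h.2]
    have hnu := nu_spec hk
    have h1 : ENNReal.ofReal (nu (Fintype.card A)) ≤ 1 := by
      rw [← ENNReal.ofReal_one]
      exact ENNReal.ofReal_le_ofReal hnu.2.1.le
    have h2 : ((range (D + 1)).filter fun i => u.take i = w.take i).card =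
        (if u = w then 1 else 0) + ((range D).filter fun i => u.take i = w.take i).card := by
      rw [Finset.range_add_one, Finset.filter_insert]
      have h3 : u.take D = w.take D ↔ u = w := by
        rw [← h.1, List.take_length, h.1, ← h.2, List.take_length]
      by_cases h4 : u = w
      · rw [if_pos (h3.2 h4), if_pos h4, Finset.card_insert_of_notMem (by simp), add_comm]
      · rw [if_neg (fun h5 => h4 (h3.1 h5)), if_neg h4, zero_add]
    rw [h2]
    push_cast
    gcongr
    calc ENNReal.ofReal (nu (Fintype.card A)) *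
          (((range D).filter fun i => u.take i = w.take i).card : ℝ≥0∞) ≤
          1 * (((range D).filter fun i => u.take i = w.take i).card : ℝ≥0∞) := by gcongr
      _ = _ := one_mul _
  · rw [zero_mul, ← ex_zero (mu A D)]
    apply ex_le_ex
    intro m hm
    rw [nonpos_iff_eq_zero, mul_eq_zero, Nat.cast_eq_zero, Nat.cast_eq_zero,
      Multiset.count_eq_zero, Multiset.count_eq_zero]
    by_contra hc
    push Not at hc
    exact h ⟨mu_length A D m hm u hc.1, mu_length A D m hm w hc.2⟩

lemma geom_aux (k : ℕ) (hk : 2 ≤ k) (D : ℕ) :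
    ∑ i ∈ range (D + 1), (2 * i + 1) * k ^ (D - i) + (2 * D + 5) ≤ 6 * k ^ D := by
  induction D with
  | zero => simp
  | succ D ih =>
    rw [Finset.sum_range_succ]
    have h1 : ∑ i ∈ range (D + 1), (2 * i + 1) * k ^ (D + 1 - i) =
        k * ∑ i ∈ range (D + 1), (2 * i + 1) * k ^ (D - i) := by
      rw [Finset.mul_sum]
      apply Finset.sum_congr rfl
      intro i hi
      rw [Finset.mem_range] at hi
      rw [show D + 1 - i = (D - i) + 1 by omega, pow_succ]
      ring
    rw [h1, pow_succ, Nat.sub_self, pow_zero]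
    nlinarith

/-- second moment -/
noncomputable def EZ2 (D : ℕ) : ℝ≥0∞ :=
  ex (mu A D) fun m => ex (mu A D) fun m' => (ZZ m m' : ℝ≥0∞) ^ 2

lemma EZ2_le (hk : 2 ≤ Fintype.card A) (D : ℕ) :
    EZ2 A D ≤ 6 * ((Fintype.card A : ℝ≥0∞) ^ D) ^ 2 := by
  classical
  have h1 : EZ2 A D = ∑' u : List A, ∑' w : List A,
      (ex (mu A D) (fun m => (m.count u : ℝ≥0∞) * m.count w)) ^ 2 := by
    unfold EZ2
    have h2 : ∀ m m' : Multiset (List A), (ZZ m m' : ℝ≥0∞) ^ 2 =
        ∑' u : List A, ∑' w : List A, ((m.count u : ℝ≥0∞) * m.count w) *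
          ((m'.count u : ℝ≥0∞) * m'.count w) := by
      intro m m'
      rw [sq, ZZ_eq_tsum, ← ENNReal.tsum_mul_right]
      refine tsum_congr fun u => ?_
      rw [← ENNReal.tsum_mul_left]
      refine tsum_congr fun w => ?_
      ring
    simp only [h2, ex_tsum, ex_mul_left, ex_mul_right, sq]
  rw [h1]
  have h3 : ∀ u w : List A, (ex (mu A D) (fun m => (m.count u : ℝ≥0∞) * m.count w)) ^ 2 ≤
      ∑ i ∈ range (D + 1), (2 * (i : ℝ≥0∞) + 1) * ((if u.length = D then 1 else 0) *
        (if w.length = D ∧ u.take i = w.take i then 1 else 0)) := by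
    intro u w
    refine (pow_le_pow_left₀ zero_le (ex_count_mul_le A hk D u w) 2).trans ?_
    have h4 := card_filter_sq_le (fun i => u.take i = w.take i) (D + 1)
    have h5 : ((((range (D + 1)).filter fun i => u.take i = w.take i).card : ℝ≥0∞)) ^ 2 ≤
        ∑ i ∈ range (D + 1), (2 * (i : ℝ≥0∞) + 1) * (if u.take i = w.take i then 1 else 0) := by
      have : (((((range (D + 1)).filter fun i => u.take i = w.take i).card ^ 2 : ℕ)) : ℝ≥0∞) ≤
        ((∑ i ∈ range (D + 1), (2 * i + 1) * (if u.take i = w.take i then 1 else 0) : ℕ) :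
          ℝ≥0∞) := by
        rw [Nat.cast_le]
        convert h4
      push_cast at this
      exact this
    by_cases hu : u.length = D
    · by_cases hw : w.length = D
      · simpa [hu, hw] using h5
      · simp [hu, hw]
    · simp [hu]
  refine (ENNReal.tsum_le_tsum fun u => ENNReal.tsum_le_tsum fun w => h3 u w).trans ?_
  have h6 : (∑' u : List A, ∑' w : List A, ∑ i ∈ range (D + 1), (2 * (i : ℝ≥0∞) + 1) *
      ((if u.length = D then 1 else 0) *
        (if w.length = D ∧ u.take i = w.take i then (1 : ℝ≥0∞) else 0))) ≤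
      ∑ i ∈ range (D + 1), (2 * (i : ℝ≥0∞) + 1) *
        ((Fintype.card A : ℝ≥0∞) ^ D * (Fintype.card A : ℝ≥0∞) ^ (D - i)) := by
    calc (∑' u : List A, ∑' w : List A, ∑ i ∈ range (D + 1), (2 * (i : ℝ≥0∞) + 1) *
      ((if u.length = D then 1 else 0) *
        (if w.length = D ∧ u.take i = w.take i then (1 : ℝ≥0∞) else 0)))
        = ∑ i ∈ range (D + 1), (2 * (i : ℝ≥0∞) + 1) * ∑' u : List A,
          ((if u.length = D then 1 else 0) *
          ∑' w : List A, (if w.length = D ∧ u.take i = w.take i then (1 : ℝ≥0∞) else 0)) := by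
          have e1 : ∀ u : List A, (∑' w : List A, ∑ i ∈ range (D + 1), (2 * (i : ℝ≥0∞) + 1) *
            ((if u.length = D then 1 else 0) *
              (if w.length = D ∧ u.take i = w.take i then (1 : ℝ≥0∞) else 0))) =
            ∑ i ∈ range (D + 1), (2 * (i : ℝ≥0∞) + 1) * ((if u.length = D then 1 else 0) *
              ∑' w : List A, (if w.length = D ∧ u.take i = w.take i then (1 : ℝ≥0∞) else 0)) := by
            intro u
            rw [Summable.tsum_finsetSum (fun _ _ => ENNReal.summable)]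
            refine Finset.sum_congr rfl fun i _ => ?_
            rw [ENNReal.tsum_mul_left, ENNReal.tsum_mul_left]
          simp only [e1]
          rw [Summable.tsum_finsetSum (fun _ _ => ENNReal.summable)]
          refine Finset.sum_congr rfl fun i _ => ?_
          rw [ENNReal.tsum_mul_left]
      _ ≤ ∑ i ∈ range (D + 1), (2 * (i : ℝ≥0∞) + 1) * ∑' u : List A,
          ((if u.length = D then 1 else 0) * (Fintype.card A : ℝ≥0∞) ^ (D - i)) := by
          gcongr with i _ u
          exact tsum_take_le A D i _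
      _ = _ := by
          refine Finset.sum_congr rfl fun i _ => ?_
          rw [ENNReal.tsum_mul_right, tsum_length]
  refine h6.trans ?_
  have h7 := geom_aux (Fintype.card A) hk D
  have h8 : ∑ i ∈ range (D + 1), (2 * i + 1) * (Fintype.card A) ^ (D - i) ≤
      6 * (Fintype.card A) ^ D := by omega
  have h9 : (∑ i ∈ range (D + 1), (2 * (i : ℝ≥0∞) + 1) * (Fintype.card A : ℝ≥0∞) ^ (D - i)) ≤
      6 * (Fintype.card A : ℝ≥0∞) ^ D := by exact_mod_cast h8
  calc ∑ i ∈ range (D + 1), (2 * (i : ℝ≥0∞) + 1) *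
        ((Fintype.card A : ℝ≥0∞) ^ D * (Fintype.card A : ℝ≥0∞) ^ (D - i))
      = (Fintype.card A : ℝ≥0∞) ^ D *
        ∑ i ∈ range (D + 1), (2 * (i : ℝ≥0∞) + 1) * (Fintype.card A : ℝ≥0∞) ^ (D - i) := by
        rw [Finset.mul_sum]
        refine Finset.sum_congr rfl fun i _ => ?_
        ring
    _ ≤ (Fintype.card A : ℝ≥0∞) ^ D * (6 * (Fintype.card A : ℝ≥0∞) ^ D) := by gcongr
    _ = _ := by ring

/-- probability that the number of common words is at least half of its mean -/
noncomputable def PZ (D : ℕ) : ℝ≥0∞ :=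
  ex (mu A D) fun m => ex (mu A D) fun m' => if (Fintype.card A) ^ D ≤ 2 * ZZ m m' then 1 else 0

/-- Paley-Zygmund -/
lemma PZ_ge (hk : 2 ≤ Fintype.card A) (D : ℕ) : 1 / 24 ≤ PZ A D := by
  set M : ℕ := (Fintype.card A) ^ D with hM
  have hMpos : 0 < M := by positivity
  have h1 : ∀ z : ℕ, 24 * M * z ≤ 12 * M ^ 2 + z ^ 2 + 144 * M ^ 2 * (if M ≤ 2 * z then 1 else 0) := by
    intro z
    split_ifs with h
    · zify
      nlinarith [sq_nonneg ((z : ℤ) - 12 * M)]
    · push Not at h
      nlinarith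
  have h2 : (24 * M : ℝ≥0∞) * EZ A D ≤ 12 * M ^ 2 + EZ2 A D + 144 * M ^ 2 * PZ A D := by
    unfold EZ EZ2 PZ
    rw [← ex_mul_left]
    simp only [← ex_mul_left]
    have h3 : ∀ c : ℝ≥0∞, c = ex (mu A D) fun _ => ex (mu A D) fun _ => c := by
      intro c
      rw [ex_const, ex_const]
    rw [h3 (12 * (M : ℝ≥0∞) ^ 2)]
    rw [← ex_add, ← ex_add]
    refine ex_mono _ fun m => ?_
    rw [← ex_add, ← ex_add]
    refine ex_mono _ fun m' => ?_
    have h4 := h1 (ZZ m m')
    have h5 : ((24 * M * ZZ m m' : ℕ) : ℝ≥0∞) ≤ ((12 * M ^ 2 + ZZ m m' ^ 2 +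
      144 * M ^ 2 * (if M ≤ 2 * ZZ m m' then 1 else 0) : ℕ) : ℝ≥0∞) := by exact_mod_cast h4
    push_cast at h5
    exact h5
  have h6 : EZ2 A D ≤ 6 * (M : ℝ≥0∞) ^ 2 := by
    have := EZ2_le A hk D
    rw [hM]
    push_cast
    exact this
  have h7 : EZ A D = M := by
    rw [EZ_eq A hk, hM]
    push_cast
    rfl
  rw [h7] at h2
  have h8 : (24 : ℝ≥0∞) * M ^ 2 ≤ (18 + 144 * PZ A D) * M ^ 2 := by
    calc (24 : ℝ≥0∞) * M ^ 2 = 24 * M * M := by ring
      _ ≤ 12 * M ^ 2 + EZ2 A D + 144 * M ^ 2 * PZ A D := h2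
      _ ≤ 12 * M ^ 2 + 6 * (M : ℝ≥0∞) ^ 2 + 144 * M ^ 2 * PZ A D := by gcongr
      _ = _ := by ring
  have h9 : (24 : ℝ≥0∞) ≤ 18 + 144 * PZ A D := by
    rwa [ENNReal.mul_le_mul_iff_left (by positivity) (by simp)] at h8
  have h10 : (6 : ℝ≥0∞) ≤ 144 * PZ A D := by
    have : (18 : ℝ≥0∞) + 6 ≤ 18 + 144 * PZ A D := by
      calc (18 : ℝ≥0∞) + 6 = 24 := by norm_num
        _ ≤ _ := h9
    rwa [ENNReal.add_le_add_iff_left (by simp)] at this
  rw [ENNReal.div_le_iff (by simp) (by simp)]
  have h11 : (6 : ℝ≥0∞) * 1 ≤ 6 * (PZ A D * 24) := by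
    calc (6 : ℝ≥0∞) * 1 = 6 := mul_one _
      _ ≤ 144 * PZ A D := h10
      _ = 6 * (PZ A D * 24) := by ring
  rwa [ENNReal.mul_le_mul_iff_right (by simp) (by simp)] at h11

/-! ### conditioning on the first levels -/

lemma ex_mu_add (D h : ℕ) (F : Multiset (List A) → Multiset (List A) → ℝ≥0∞) :
    (ex (mu A (D + h)) fun n => ex (mu A (D + h)) fun n' => F n n') =
      ex (mu A D) fun m => ex (mu A D) fun m' => ex (ext A h m) fun n => ex (ext A h m') fun n' =>
        F n n' := by
  rw [mu_add, ex_bind]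
  simp only [ex_bind]
  congr 1
  funext m
  rw [ex_comm]

open Classical in
lemma sum_map_ite {A : Type u} (w : List A) (c : ℝ≥0∞) (m : Multiset (List A)) :
    (m.map fun w' => if w = w' then c else 0).sum = c * (m.count w : ℝ≥0∞) := by
  induction m using Multiset.induction_on with
  | empty => simp
  | cons a m ih =>
    rw [Multiset.map_cons, Multiset.sum_cons, ih, Multiset.count_cons]
    split_ifs <;> push_cast <;> ring

/-- first moment given level `D` -/
lemma first_moment (hk : 2 ≤ Fintype.card A) (D h : ℕ) (m m' : Multiset (List A))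
    (hm : ∀ w ∈ m, w.length = D) (hm' : ∀ w ∈ m', w.length = D) :
    (ex (ext A h m) fun n => ex (ext A h m') fun n' => (ZZ n n' : ℝ≥0∞)) =
      (Fintype.card A : ℝ≥0∞) ^ h * ZZ m m' := by
  classical
  rw [ex_ext_additive A h m]
  rotate_left
  · simp [ZZ_zero_left, ex_zero]
  · intro x y
    rw [← ex_add]
    simp [ZZ_add_left]
  have h1 : ∀ w ∈ m, (ex (mu A h) fun n => ex (ext A h m') fun n' =>
      (ZZ (n.map (w ++ ·)) n' : ℝ≥0∞)) = (Fintype.card A : ℝ≥0∞) ^ h * (m'.count w : ℝ≥0∞) := by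
    intro w hw
    rw [ex_comm, ex_ext_additive A h m']
    rotate_left
    · simp [ZZ_zero_right, ex_zero]
    · intro x y
      rw [← ex_add]
      simp [ZZ_add_right]
    rw [← sum_map_ite]
    congr 1
    apply Multiset.map_congr rfl
    intro w' hw'
    split_ifs with h2
    · subst h2
      simp only [ZZ_map_append]
      rw [← EZ_eq A hk, EZ, ex_comm]
    · have h3 : w.length = w'.length := by rw [hm w hw, hm' w' hw']
      simp only [ZZ_map_append_ne h3 h2, Nat.cast_zero, ex_zero]
  rw [Multiset.map_congr rfl h1, Multiset.sum_map_mul_left, ZZ]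
  congr 1
  push_cast
  rw [Multiset.map_map]
  rfl

/-- a pair of vertices with equal words gives a pair of independent trees -/
lemma survive (h : ℕ) (m m' : Multiset (List A)) (w : List A) (hw : w ∈ m) (hw' : w ∈ m') :
    PZ A h ≤ ex (ext A h m) fun n => ex (ext A h m') fun n' =>
      if (Fintype.card A) ^ h ≤ 2 * ZZ n n' then 1 else 0 := by
  obtain ⟨m₁, rfl⟩ := Multiset.exists_cons_of_mem hw
  obtain ⟨m₁', rfl⟩ := Multiset.exists_cons_of_mem hw'
  rw [ext_cons, ext_cons]
  simp only [ex_conv_mul, ex_map]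
  unfold PZ
  refine ex_mono _ fun x => ?_
  have h1 : (ex (mu A h) fun x' => if (Fintype.card A) ^ h ≤ 2 * ZZ x x' then (1 : ℝ≥0∞) else 0) =
      ex (ext A h m₁) fun _ => ex (mu A h) fun x' => ex (ext A h m₁') fun _ =>
        if (Fintype.card A) ^ h ≤ 2 * ZZ x x' then (1 : ℝ≥0∞) else 0 := by
    rw [ex_const]
    simp only [ex_const]
  rw [h1]
  refine ex_mono _ fun y => ex_mono _ fun x' => ex_mono _ fun y' => ?_
  by_cases h2 : (Fintype.card A) ^ h ≤ 2 * ZZ x x'
  · rw [if_pos h2, if_pos]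
    refine h2.trans ?_
    rw [ZZ_add_left, ZZ_add_right, ZZ_map_append]
    omega
  · rw [if_neg h2]
    exact zero_le

end GW

open GW

/-! ### the survival probability -/

theorem cD_antitone (hk : 2 ≤ Fintype.card A) : Antitone (cD A) := by
  apply antitone_nat_of_succ_le
  intro D
  unfold cD
  rw [ex_mu_add A D 1]
  apply ex_le_ex
  intro m hm
  apply ex_le_ex
  intro m' hm'
  split_ifs with h1
  · exact ex_le_const _ fun n => ex_le_const _ fun n' => by split_ifs <;> simp
  · have h2 : ZZ m m' = 0 := by omega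
    have h3 := first_moment A hk D 1 m m' (fun w hw => mu_length A D m hm w hw)
      (fun w hw => mu_length A D m' hm' w hw)
    rw [h2, Nat.cast_zero, mul_zero] at h3
    refine le_trans ?_ h3.le
    refine ex_mono _ fun n => ex_mono _ fun n' => ?_
    split_ifs with h4
    · exact_mod_cast h4
    · exact zero_le

lemma GW.cD_ge (hk : 2 ≤ Fintype.card A) (D : ℕ) : 1 / 24 ≤ cD A D := by
  refine (PZ_ge A hk D).trans ?_
  unfold PZ cD
  refine ex_mono _ fun n => ex_mono _ fun n' => ?_
  have h1 : 0 < (Fintype.card A) ^ D := by positivity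
  split_ifs with h2 h3
  · exact le_rfl
  · omega
  · exact zero_le
  · exact zero_le

theorem cInf_pos (hk : 2 ≤ Fintype.card A) : 0 < cInf A := by
  refine lt_of_lt_of_le ?_ (le_iInf fun D => cD_ge A hk D)
  rw [ENNReal.div_pos_iff]
  simp

/-- a single child with a given letter has positive probability -/
lemma GW.mu_one_singleton (hk : 2 ≤ Fintype.card A) (a : A) : mu A 1 {[a]} ≠ 0 := by
  rw [← PMF.mem_support_iff, show (1 : ℕ) = 0 + 1 from rfl, mu_succ, PMF.mem_support_bind_iff]
  refine ⟨1, ?_, ?_⟩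
  · rw [PMF.mem_support_iff, off_apply hk]
    obtain ⟨h1, h2, -⟩ := nu_spec hk
    have : 0 < offW (Fintype.card A) 1 := by
      unfold offW
      rw [if_neg one_ne_zero]
      have h3 : 0 < 1 - nu (Fintype.card A) := by linarith
      have h4 : (0 : ℝ) < Fintype.card A := by positivity
      positivity
    simpa using this
  · rw [pow_one, child, PMF.mem_support_bind_iff]
    refine ⟨a, by simp, ?_⟩
    rw [PMF.mem_support_map_iff]
    exact ⟨{[]}, by simp [mu], by simp⟩

theorem cInf_lt_one (hk : 2 ≤ Fintype.card A) : cInf A < 1 := by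
  classical
  refine lt_of_le_of_lt (iInf_le _ 1) ?_
  have h1 : cD A 1 + (ex (mu A 1) fun m => ex (mu A 1) fun m' => if ZZ m m' = 0 then 1 else 0) =
      1 := by
    unfold cD
    rw [← ex_add]
    simp only [← ex_add]
    have : ∀ m m' : Multiset (List A), ((if 1 ≤ ZZ m m' then (1 : ℝ≥0∞) else 0) +
        if ZZ m m' = 0 then 1 else 0) = 1 := by
      intro m m'
      by_cases h : ZZ m m' = 0
      · simp [h]
      · have : 1 ≤ ZZ m m' := by omega
        simp [h, this]
    simp only [this, ex_const]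
  have h2 : (0 : ℝ≥0∞) < ex (mu A 1) fun m => ex (mu A 1) fun m' =>
      if ZZ m m' = 0 then 1 else 0 := by
    obtain ⟨a, b, hab⟩ := Fintype.exists_pair_of_one_lt_card (show 1 < Fintype.card A by omega)
    refine lt_of_lt_of_le ?_ (le_ex _ _ {[a]})
    refine ENNReal.mul_pos (mu_one_singleton A hk a) ?_
    refine (lt_of_lt_of_le ?_ (le_ex _ _ {[b]})).ne'
    refine ENNReal.mul_pos (mu_one_singleton A hk b) ?_
    rw [if_pos]
    · exact one_ne_zero
    · apply ZZ_eq_zero
      intro w hw hw'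
      rw [Multiset.mem_singleton] at hw hw'
      rw [hw] at hw'
      exact hab (by simpa using hw')
  have h3 : cD A 1 ≠ ⊤ := by
    intro h
    rw [h, top_add] at h1
    exact ENNReal.top_ne_one h1
  calc cD A 1 < cD A 1 + ex (mu A 1) fun m => ex (mu A 1) fun m' =>
      if ZZ m m' = 0 then 1 else 0 := ENNReal.lt_add_right h3 h2.ne'
    _ = 1 := h1

/-! ### small ball -/

namespace GW

open Classical in
/-- distribution function of the normalized number of common words -/
noncomputable def bN (N : ℕ) (t : ℝ) : ℝ≥0∞ :=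
  ex (mu A N) fun m => ex (mu A N) fun m' =>
    if (ZZ m m' : ℝ) < t * (Fintype.card A : ℝ) ^ N then 1 else 0

open Classical in
/-- probability of an interval -/
noncomputable def qN (N : ℕ) (s t : ℝ) : ℝ≥0∞ :=
  ex (mu A N) fun m => ex (mu A N) fun m' =>
    if s * (Fintype.card A : ℝ) ^ N ≤ ZZ m m' ∧ (ZZ m m' : ℝ) < t * (Fintype.card A : ℝ) ^ N then 1
    else 0

lemma bN_le_one (N : ℕ) (t : ℝ) : bN A N t ≤ 1 := by
  classical
  exact ex_le_const _ fun n => ex_le_const _ fun n' => by split_ifs <;> simp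

lemma bN_ge (N : ℕ) (s t : ℝ) (hst : s ≤ t) : bN A N s + qN A N s t ≤ bN A N t := by
  classical
  unfold bN qN
  rw [← ex_add]
  simp only [← ex_add]
  refine ex_mono _ fun n => ex_mono _ fun n' => ?_
  have h1 : s * (Fintype.card A : ℝ) ^ N ≤ t * (Fintype.card A : ℝ) ^ N := by gcongr
  by_cases h2 : (ZZ n n' : ℝ) < s * (Fintype.card A : ℝ) ^ N
  · rw [if_pos h2, if_neg (fun h => absurd h.1 (not_le.2 h2)), if_pos (h2.trans_le h1), add_zero]
  · rw [if_neg h2, zero_add]
    split_ifs with h3 h4 <;> simp_all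

/-- there is a scale below which no interval keeps a positive probability -/
lemma exists_scale (ε : ℝ≥0∞) (hε : ε ≠ 0) :
    ∃ t : ℝ, 0 < t ∧ ∀ s : ℝ, 0 < s → s ≤ t → ∀ D : ℕ, ∃ N, D ≤ N ∧ qN A N s t ≤ ε := by
  by_contra hc
  push Not at hc
  have h1 : ∀ j : ℕ, ∀ t : ℝ, 0 < t → ∃ D : ℕ, ∀ N, D ≤ N → (j : ℝ≥0∞) * ε ≤ bN A N t := by
    intro j
    induction j with
    | zero =>
      intro t _
      exact ⟨0, fun N _ => by simp⟩
    | succ j ih =>
      intro t ht
      obtain ⟨s, hs, hst, D, hD⟩ := hc t ht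
      obtain ⟨D', hD'⟩ := ih s hs
      refine ⟨max D D', fun N hN => ?_⟩
      calc ((j + 1 : ℕ) : ℝ≥0∞) * ε = (j : ℝ≥0∞) * ε + ε := by push_cast; ring
        _ ≤ bN A N s + qN A N s t :=
          add_le_add (hD' N (le_trans (le_max_right _ _) hN))
            (hD N (le_trans (le_max_left _ _) hN)).le
        _ ≤ bN A N t := bN_ge A N s t hst
  obtain ⟨j, hj⟩ := ENNReal.exists_nat_mul_gt hε ENNReal.one_ne_top
  obtain ⟨D, hD⟩ := h1 j 1 one_pos
  exact absurd ((hD D le_rfl).trans (bN_le_one A D 1)) (not_le.2 hj)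

end GW

open Classical in
theorem small_ball (hk : 2 ≤ Fintype.card A) (ε : ℝ≥0∞) (hε : ε ≠ 0) :
    ∃ δ : ℝ, 0 < δ ∧ ∃ D₀ : ℕ, ∀ D ≥ D₀,
      ex (mu A D) (fun m => ex (mu A D) fun m' =>
        if 1 ≤ ZZ m m' ∧ (ZZ m m' : ℝ) < δ * (Fintype.card A : ℝ) ^ D then 1 else 0) ≤ ε := by
  set k : ℕ := Fintype.card A with hkdef
  have hk0 : (0 : ℝ) < k := by
    have : 0 < k := by omega
    exact_mod_cast this
  obtain ⟨t, ht, hscale⟩ := exists_scale A (ε / 48) (by
    rw [Ne, ENNReal.div_eq_zero_iff]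
    simp [hε])
  refine ⟨t / 48, by positivity, 0, fun D _ => ?_⟩
  obtain ⟨N, hDN, hN⟩ := hscale (min t (1 / (2 * (k : ℝ) ^ D))) (by positivity) (min_le_left _ _) D
  obtain ⟨h, rfl⟩ := Nat.exists_eq_add_of_le hDN
  set s : ℝ := min t (1 / (2 * (k : ℝ) ^ D)) with hs
  have h0 : (1 / 48 : ℝ≥0∞) * (ex (mu A D) (fun m => ex (mu A D) fun m' =>
        if 1 ≤ ZZ m m' ∧ (ZZ m m' : ℝ) < t / 48 * (k : ℝ) ^ D then 1 else 0)) ≤
      qN A (D + h) s t := by
    unfold qN
    rw [ex_mu_add, ← ex_mul_left]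
    apply ex_le_ex
    intro m hm
    rw [← ex_mul_left]
    apply ex_le_ex
    intro m' hm'
    by_cases hB : 1 ≤ ZZ m m' ∧ (ZZ m m' : ℝ) < t / 48 * (k : ℝ) ^ D
    swap
    · rw [if_neg hB, mul_zero]
      exact zero_le
    rw [if_pos hB, mul_one]
    obtain ⟨w, hw, hw'⟩ := exists_of_ZZ_pos hB.1
    -- lower bound
    have h1 := (PZ_ge A hk h).trans (survive A h m m' w hw hw')
    -- upper bound by Markov
    have h2 := first_moment A hk D h m m' (fun w hw => mu_length A D m hm w hw)
      (fun w hw => mu_length A D m' hm' w hw)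
    have hT : 0 < t * (k : ℝ) ^ (D + h) := by positivity
    have h3 : (ex (ext A h m) fun n => ex (ext A h m') fun n' =>
        if t * (k : ℝ) ^ (D + h) ≤ (ZZ n n' : ℝ) then (1 : ℝ≥0∞) else 0) ≤ 1 / 48 := by
      have h4 : ENNReal.ofReal (t * (k : ℝ) ^ (D + h)) *
          (ex (ext A h m) fun n => ex (ext A h m') fun n' =>
            if t * (k : ℝ) ^ (D + h) ≤ (ZZ n n' : ℝ) then (1 : ℝ≥0∞) else 0) ≤
          (k : ℝ≥0∞) ^ h * ZZ m m' := by
        rw [← h2, ← ex_mul_left]
        simp only [← ex_mul_left]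
        refine ex_mono _ fun n => ex_mono _ fun n' => ?_
        split_ifs with h5
        · rw [mul_one, ← ENNReal.ofReal_natCast]
          exact ENNReal.ofReal_le_ofReal h5
        · rw [mul_zero]
          exact zero_le
      have h5 : (k : ℝ≥0∞) ^ h * ZZ m m' ≤ ENNReal.ofReal (t * (k : ℝ) ^ (D + h)) * (1 / 48) := by
        have h6 : (k : ℝ≥0∞) ^ h * ZZ m m' = ENNReal.ofReal ((k : ℝ) ^ h * ZZ m m') := by
          rw [ENNReal.ofReal_mul (by positivity), ENNReal.ofReal_pow (by positivity),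
            ENNReal.ofReal_natCast, ENNReal.ofReal_natCast]
        have h7 : (1 / 48 : ℝ≥0∞) = ENNReal.ofReal (1 / 48) := by
          rw [ENNReal.ofReal_div_of_pos (by norm_num)]
          simp
        rw [h6, h7, ← ENNReal.ofReal_mul (by positivity)]
        apply ENNReal.ofReal_le_ofReal
        have h8 : (k : ℝ) ^ h * ZZ m m' ≤ (k : ℝ) ^ h * (t / 48 * (k : ℝ) ^ D) :=
          mul_le_mul_of_nonneg_left hB.2.le (by positivity)
        refine h8.trans (le_of_eq ?_)
        rw [pow_add]
        ring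
      have h9 := h4.trans h5
      rwa [ENNReal.mul_le_mul_iff_right (by simpa using hT) ENNReal.ofReal_ne_top] at h9
    -- combine
    have h10 : (ex (ext A h m) fun n => ex (ext A h m') fun n' =>
        if k ^ h ≤ 2 * ZZ n n' then (1 : ℝ≥0∞) else 0) ≤
        (ex (ext A h m) fun n => ex (ext A h m') fun n' =>
          if s * (k : ℝ) ^ (D + h) ≤ ZZ n n' ∧ (ZZ n n' : ℝ) < t * (k : ℝ) ^ (D + h) then 1
            else 0) +
        (ex (ext A h m) fun n => ex (ext A h m') fun n' =>
          if t * (k : ℝ) ^ (D + h) ≤ (ZZ n n' : ℝ) then (1 : ℝ≥0∞) else 0) := by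
      rw [← ex_add]
      simp only [← ex_add]
      refine ex_mono _ fun n => ex_mono _ fun n' => ?_
      by_cases h11 : k ^ h ≤ 2 * ZZ n n'
      · rw [if_pos h11]
        have h12 : s * (k : ℝ) ^ (D + h) ≤ ZZ n n' := by
          have h13 : s ≤ 1 / (2 * (k : ℝ) ^ D) := min_le_right _ _
          have h14 : ((k : ℝ) ^ h) ≤ 2 * (ZZ n n' : ℝ) := by exact_mod_cast h11
          calc s * (k : ℝ) ^ (D + h) ≤ 1 / (2 * (k : ℝ) ^ D) * (k : ℝ) ^ (D + h) := by gcongr
            _ = (k : ℝ) ^ h / 2 := by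
              rw [pow_add]
              field_simp
            _ ≤ ZZ n n' := by linarith
        by_cases h15 : (ZZ n n' : ℝ) < t * (k : ℝ) ^ (D + h)
        · rw [if_pos ⟨h12, h15⟩]
          exact le_self_add
        · rw [if_pos (not_lt.1 h15)]
          exact le_add_self
      · rw [if_neg h11]
        exact zero_le
    have h16 := (h1.trans h10).trans (add_le_add_right h3 _)
    have h17 : (1 / 24 : ℝ≥0∞) = 1 / 48 + 1 / 48 := by
      rw [ENNReal.div_add_div_same, ENNReal.div_eq_div_iff] <;> norm_num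
    rw [h17] at h16
    rwa [ENNReal.add_le_add_iff_right (by simp)] at h16
  have h18 := h0.trans hN
  have h19 : (1 / 48 : ℝ≥0∞) * (ex (mu A D) (fun m => ex (mu A D) fun m' =>
        if 1 ≤ ZZ m m' ∧ (ZZ m m' : ℝ) < t / 48 * (k : ℝ) ^ D then 1 else 0)) ≤
      1 / 48 * ε := by
    refine h18.trans (le_of_eq ?_)
    rw [ENNReal.div_eq_inv_mul, one_div]
  rwa [ENNReal.mul_le_mul_iff_right (by simp) (by simp)] at h19

end Pool.Agent.SC
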