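import Pool.Agent.W_MP_6663ab_lc.Count

/-!
# Counting valuations of a finite set of nodes with few distinct values and many distinct edges
-/

namespace Pool.Agent.SC

open Finset

universe u v w

variable {A : Type u} {Q : Type v} [Fintype A] [Nonempty A] [Fintype Q] [LinearOrder Q]
variable {S : Type w} [Fintype S]

/-- `val` is compatible with the parent structure `par` and the transitions `δ` -/
def IsVal (par : S → Option (S × A)) (δ : Q → A → Q) (val : S → Q) : Prop :=
  ∀ ν μ a, par ν = some (μ, a) → val ν = δ (val μ) a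

open Classical in
/-- the set of distinct edges used by a valuation -/
noncomputable def edg (par : S → Option (S × A)) (val : S → Q) : Finset (Q × A) :=
  univ.filter fun e => ∃ ν μ, par ν = some (μ, e.2) ∧ val μ = e.1

open Classical in
/-- pairs (accessible structure, valuation) with (number of values) `+ t ≤` (number of edges)
`+ m` -/
noncomputable def Exc (q₀ : Q) (par : S → Option (S × A)) (t m : ℕ) :
    Finset ((Q → A → Q) × (S → Q)) :=
  univ.filter fun x => Acc q₀ x.1 ∧ IsVal par x.1 x.2 ∧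
    (univ.image x.2).card + t ≤ (edg par x.2).card + m

lemma mem_Exc {q₀ : Q} {par : S → Option (S × A)} {t m : ℕ} {x : (Q → A → Q) × (S → Q)} :
    x ∈ Exc q₀ par t m ↔ Acc q₀ x.1 ∧ IsVal par x.1 x.2 ∧
      (univ.image x.2).card + t ≤ (edg par x.2).card + m := by
  classical
  simp only [Exc, mem_filter, mem_univ, true_and]

/-- canonical representative of the class of `ν` under `val` -/
noncomputable def ker [Nonempty S] (val : S → Q) : S → S := fun ν => Function.invFun val (val ν)

omit [Fintype Q] [LinearOrder Q] [Fintype S] in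
lemma val_ker [Nonempty S] (val : S → Q) (ν : S) : val (ker val ν) = val ν :=
  Function.invFun_eq ⟨ν, rfl⟩

omit [Fintype Q] [LinearOrder Q] [Fintype S] in
lemma ker_ker [Nonempty S] (val : S → Q) (ν : S) : ker val (ker val ν) = ker val ν := by
  unfold ker
  rw [Function.invFun_eq (f := val) (b := val ν) ⟨ν, rfl⟩]

omit [Fintype Q] [LinearOrder Q] [Fintype S] in
lemma ker_eq_iff [Nonempty S] (val : S → Q) (ν μ : S) :
    ker val ν = ker val μ ↔ val ν = val μ := by
  constructor
  · intro h
    rw [← val_ker val ν, ← val_ker val μ, h]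
  · intro h
    unfold ker
    rw [h]

open Classical in
theorem card_Exc_fiber [Nonempty S] (q₀ : Q) (par : S → Option (S × A)) (t m : ℕ) (κ : S → S) :
    ((Exc q₀ par t m).filter fun x => ker x.2 = κ).card * Fintype.card Q ^ t ≤
      2 ^ Fintype.card S * (Fintype.card Q ^ m * (AccF A q₀).card) := by
  set n := Fintype.card Q with hn
  have hnpos : 0 < n := Fintype.card_pos_iff.2 ⟨q₀⟩
  set X := (Exc q₀ par t m).filter fun x => ker x.2 = κ with hX
  have hXm : ∀ x ∈ X, Acc q₀ x.1 ∧ IsVal par x.1 x.2 ∧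
      (univ.image x.2).card + t ≤ (edg par x.2).card + m ∧ ker x.2 = κ := by
    intro x hx
    rw [hX, mem_filter, mem_Exc] at hx
    exact ⟨hx.1.1, hx.1.2.1, hx.1.2.2, hx.2⟩
  rcases X.eq_empty_or_nonempty with hemp | ⟨x0, hx0⟩
  · rw [hemp]; simp
  have hκκ : ∀ ν, κ (κ ν) = κ ν := by
    intro ν
    have := (hXm x0 hx0).2.2.2
    rw [← this, ker_ker]
  -- the shape
  let Λ := {c : S // κ c = c}
  let E : Finset (Λ × A) := univ.filter fun e => ∃ ν μ, par ν = some (μ, e.2) ∧ κ μ = e.1.1
  let tt : Λ × A → Λ := fun e =>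
    if h : ∃ ν μ, par ν = some (μ, e.2) ∧ κ μ = e.1.1 then ⟨κ h.choose, hκκ _⟩ else e.1
  -- facts about members
  have hinj : ∀ x ∈ X, Function.Injective fun c : Λ => x.2 c.1 := by
    intro x hx c c' hcc
    have h1 := (hXm x hx).2.2.2
    have h2 : ker x.2 c.1 = ker x.2 c'.1 := (ker_eq_iff x.2 _ _).2 hcc
    rw [h1, c.2, c'.2] at h2
    exact Subtype.ext h2
  have hcv : ∀ x ∈ X, (univ.image x.2).card = Fintype.card Λ := by
    intro x hx
    have : univ.image x.2 = univ.image fun c : Λ => x.2 c.1 := by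
      ext q
      simp only [mem_image, mem_univ, true_and]
      constructor
      · rintro ⟨ν, rfl⟩
        refine ⟨⟨κ ν, hκκ ν⟩, ?_⟩
        have h1 := (hXm x hx).2.2.2
        show x.2 (κ ν) = x.2 ν
        rw [← h1, val_ker x.2]
      · rintro ⟨c, rfl⟩
        exact ⟨c.1, rfl⟩
    rw [this, card_image_of_injective _ (hinj x hx), card_univ]
  have hce : ∀ x ∈ X, (edg par x.2).card = E.card := by
    intro x hx
    have h1 := (hXm x hx).2.2.2
    have : edg par x.2 = E.image fun e => (x.2 e.1.1, e.2) := by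
      ext ⟨q, a⟩
      simp only [edg, mem_filter, mem_univ, true_and, mem_image, E, Prod.mk.injEq, Prod.exists]
      constructor
      · rintro ⟨ν, μ, hp, rfl⟩
        refine ⟨⟨κ μ, hκκ μ⟩, a, ⟨ν, μ, hp, rfl⟩, ?_, rfl⟩
        show x.2 (κ μ) = x.2 μ
        rw [← h1, val_ker x.2]
      · rintro ⟨c, b, ⟨ν, μ, hp, hκ⟩, h3, rfl⟩
        refine ⟨ν, μ, hp, ?_⟩
        rw [← h3, ← hκ, ← h1, val_ker x.2]
    rw [this, card_image_of_injective]
    intro e e' hee
    have h2 := Prod.ext_iff.1 hee
    exact Prod.ext (hinj x hx h2.1) h2.2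
  have hES : E.card ≤ Fintype.card S := by
    have hch : ∀ e : Λ × A, e ∈ E → ∃ ν μ, par ν = some (μ, e.2) ∧ κ μ = e.1.1 := by
      intro e he
      simpa [E] using he
    choose! f hf using hch
    rw [← card_univ (α := S)]
    apply card_le_card_of_injOn f (fun _ _ => mem_univ _)
    intro e he e' he' hee
    obtain ⟨μ, h1, h2⟩ := hf e he
    obtain ⟨μ', h1', h2'⟩ := hf e' he'
    rw [hee, h1'] at h1
    have h3 := Prod.ext_iff.1 (Option.some.inj h1)
    simp only at h3
    refine Prod.ext (Subtype.ext ?_) h3.2.symm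
    rw [← h2, ← h2', h3.1]
  -- injection into embeddings
  have hle : X.card ≤ (Emb q₀ E tt).card := by
    apply card_le_card_of_injOn fun x => (x.1, fun c : Λ => x.2 c.1)
    · intro x hx
      obtain ⟨hacc, hval, hex, hker⟩ := hXm x hx
      rw [mem_coe, mem_Emb]
      refine ⟨hacc, hinj x hx, ?_⟩
      intro e he
      have hex : ∃ ν μ, par ν = some (μ, e.2) ∧ κ μ = e.1.1 := by
        simpa [E] using he
      have htt : tt e = ⟨κ hex.choose, hκκ _⟩ := by
        simp only [tt]
        rw [dif_pos hex]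
      obtain ⟨μ, h1, h2⟩ := hex.choose_spec
      show x.1 (x.2 e.1.1) e.2 = x.2 (tt e).1
      rw [htt]
      show x.1 (x.2 e.1.1) e.2 = x.2 (κ hex.choose)
      have h4 : ∀ ν, x.2 (κ ν) = x.2 ν := fun ν => by rw [← hker, val_ker x.2]
      rw [h4, hval _ _ _ h1, ← h2, h4]
    · intro x hx y hy hxy
      have h1 := Prod.ext_iff.1 hxy
      refine Prod.ext h1.1 ?_
      funext ν
      have hkx := (hXm x hx).2.2.2
      have hky := (hXm y hy).2.2.2
      have h2 := congrFun h1.2 ⟨κ ν, hκκ ν⟩
      simp only at h2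
      have e1 : x.2 (κ ν) = x.2 ν := by rw [← hkx, val_ker x.2]
      have e2 : y.2 (κ ν) = y.2 ν := by rw [← hky, val_ker y.2]
      rw [← e1, ← e2, h2]
  have hmain := card_emb q₀ E tt
  rw [← hn] at hmain
  have hVE : Fintype.card Λ + t ≤ E.card + m := by
    rw [← hcv x0 hx0, ← hce x0 hx0]
    exact (hXm x0 hx0).2.2.1
  -- conclude
  have h3 : (X.card * n ^ t) * n ^ Fintype.card Λ ≤
      (2 ^ Fintype.card S * (n ^ m * (AccF A q₀).card)) * n ^ Fintype.card Λ := by
    calc (X.card * n ^ t) * n ^ Fintype.card Λ = X.card * n ^ (Fintype.card Λ + t) := by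
          rw [mul_assoc, ← pow_add, add_comm]
      _ ≤ (Emb q₀ E tt).card * n ^ (E.card + m) :=
          Nat.mul_le_mul hle (Nat.pow_le_pow_right hnpos hVE)
      _ = ((Emb q₀ E tt).card * n ^ E.card) * n ^ m := by rw [pow_add]; ring
      _ ≤ (2 ^ E.card * (n ^ Fintype.card Λ * (AccF A q₀).card)) * n ^ m :=
          Nat.mul_le_mul_right _ hmain
      _ ≤ (2 ^ Fintype.card S * (n ^ Fintype.card Λ * (AccF A q₀).card)) * n ^ m :=
          Nat.mul_le_mul_right _ (Nat.mul_le_mul_right _ (Nat.pow_le_pow_right (by norm_num) hES))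
      _ = (2 ^ Fintype.card S * (n ^ m * (AccF A q₀).card)) * n ^ Fintype.card Λ := by ring
  exact Nat.le_of_mul_le_mul_right h3 (Nat.pow_pos hnpos)

/-- **Lemma A2** -/
theorem card_Exc [Nonempty S] (q₀ : Q) (par : S → Option (S × A)) (t m : ℕ) :
    (Exc q₀ par t m).card * Fintype.card Q ^ t ≤
      (2 * Fintype.card S) ^ Fintype.card S * (Fintype.card Q ^ m * (AccF A q₀).card) := by
  classical
  have h1 : (Exc q₀ par t m).card =
      ∑ κ ∈ (univ : Finset (S → S)), ((Exc q₀ par t m).filter fun x => ker x.2 = κ).card :=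
    card_eq_sum_card_fiberwise fun x _ => mem_univ _
  rw [h1, sum_mul]
  calc ∑ κ ∈ (univ : Finset (S → S)), ((Exc q₀ par t m).filter fun x => ker x.2 = κ).card *
        Fintype.card Q ^ t
      ≤ ∑ κ ∈ (univ : Finset (S → S)), 2 ^ Fintype.card S *
          (Fintype.card Q ^ m * (AccF A q₀).card) :=
        sum_le_sum fun κ _ => card_Exc_fiber q₀ par t m κ
    _ = (2 * Fintype.card S) ^ Fintype.card S * (Fintype.card Q ^ m * (AccF A q₀).card) := by
        rw [sum_const, card_univ, smul_eq_mul, Fintype.card_fun, mul_pow]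
        ring

end Pool.Agent.SC
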