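import Pool.Agent.W_MP_6663ab_lc.Bridge

/-!
# Quadratic order of the average state complexity of the intersection
-/

namespace Pool.Agent.SC

open Finset

universe u

variable {A : Type u} [Fintype A]

open Fin.CommRing in
lemma MinF_nonempty [Nonempty A] (n : ℕ) : (MinF A (0 : Fin (n + 1))).Nonempty := by
  classical
  let F : Fin (n + 1) → Bool := fun q => decide (q = 0)
  let δ : Fin (n + 1) → A → Fin (n + 1) := fun q _ => q + 1
  have hrun : ∀ (q : Fin (n + 1)) (a : A) (i : ℕ),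
      run δ q (List.replicate i a) = q + (i : Fin (n + 1)) := by
    intro q a i
    induction i with
    | zero => simp
    | succ i ih =>
      rw [List.replicate_succ', run_concat, ih]
      simp only [δ]
      push_cast
      ring
  obtain ⟨a⟩ := (inferInstance : Nonempty A)
  refine ⟨(δ, F), mem_MinF.2 ⟨?_, ?_⟩⟩
  · intro q
    refine ⟨List.replicate q.1 a, ?_⟩
    show run δ 0 _ = q
    rw [hrun, Fin.cast_val_eq_self, zero_add]
  · intro p q h
    have h1 := h (List.replicate (-p : Fin (n + 1)).1 a)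
    change F (run δ p _) = F (run δ q _) at h1
    rw [hrun, hrun, Fin.cast_val_eq_self] at h1
    simp only [F, add_neg_cancel, decide_true] at h1
    have h2 : q + -p = 0 := of_decide_eq_true h1.symm
    have h3 : q = p := by
      rw [← sub_eq_add_neg, sub_eq_zero] at h2
      exact h2
    exact h3.symm

lemma scI_le {Q : Type*} [Fintype Q] [LinearOrder Q] (q₀ : Q) (M M' : (Q → A → Q) × (Q → Bool)) :
    scI q₀ M M' ≤ Fintype.card Q ^ 2 := by
  classical
  rw [scI]
  refine card_image_le.trans ?_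
  have := card_le_univ (reachI q₀ M.1 M'.1)
  rwa [Fintype.card_prod, ← pow_two] at this

lemma scI_pos {Q : Type*} [Fintype Q] [LinearOrder Q] (q₀ : Q) (M M' : (Q → A → Q) × (Q → Bool)) :
    1 ≤ scI q₀ M M' := by
  classical
  rw [scI, Nat.one_le_iff_ne_zero, ← Nat.pos_iff_ne_zero, card_pos, image_nonempty]
  exact ⟨(q₀, q₀), by
    rw [reachI, mem_filter]
    exact ⟨mem_univ _, [], rfl⟩⟩

theorem En_upper [Nonempty A] (n : ℕ) : En A (n + 1) ≤ ((n : ℝ) + 1) ^ 2 := by
  have hpos : (0 : ℝ) < (MinF A (0 : Fin (n + 1))).card := by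
    exact_mod_cast card_pos.2 (MinF_nonempty n)
  rw [En_eq, div_le_iff₀ (by positivity)]
  calc ∑ M ∈ MinF A (0 : Fin (n + 1)), ∑ M' ∈ MinF A (0 : Fin (n + 1)), (scI 0 M M' : ℝ)
      ≤ ∑ M ∈ MinF A (0 : Fin (n + 1)), ∑ M' ∈ MinF A (0 : Fin (n + 1)), ((n : ℝ) + 1) ^ 2 := by
        apply sum_le_sum
        intro M _
        apply sum_le_sum
        intro M' _
        have := scI_le (0 : Fin (n + 1)) M M'
        rw [Fintype.card_fin] at this
        exact_mod_cast this
    _ = _ := by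
        rw [sum_const, sum_const, nsmul_eq_mul, nsmul_eq_mul]
        ring

theorem En_one_le [Nonempty A] (n : ℕ) : 1 ≤ En A (n + 1) := by
  have hpos : (0 : ℝ) < (MinF A (0 : Fin (n + 1))).card := by
    exact_mod_cast card_pos.2 (MinF_nonempty n)
  rw [En_eq, le_div_iff₀ (by positivity)]
  calc (1 : ℝ) * ((MinF A (0 : Fin (n + 1))).card : ℝ) ^ 2
      = ∑ M ∈ MinF A (0 : Fin (n + 1)), ∑ M' ∈ MinF A (0 : Fin (n + 1)), (1 : ℝ) := by
        rw [sum_const, sum_const, nsmul_eq_mul, nsmul_eq_mul]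
        ring
    _ ≤ _ := by
        apply sum_le_sum
        intro M _
        apply sum_le_sum
        intro M' _
        exact_mod_cast scI_pos (0 : Fin (n + 1)) M M'

theorem En_quadratic (hA : 2 ≤ Fintype.card A) : ∃ c : ℝ, 0 < c ∧ ∀ n : ℕ, 1 ≤ n →
    c * (n : ℝ) ^ 2 ≤ En A n ∧ En A n ≤ (n : ℝ) ^ 2 := by
  have hne : Nonempty A := Fintype.card_pos_iff.1 (by omega)
  obtain ⟨c, hc, n0, h⟩ := quad_lower.{u, 0} A hA
  have hn0 : (0 : ℝ) < (n0 : ℝ) + 1 := by positivity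
  refine ⟨min c (1 / ((n0 : ℝ) + 1) ^ 2), lt_min hc (by positivity), ?_⟩
  intro n hn
  obtain ⟨m, rfl⟩ : ∃ m, n = m + 1 := ⟨n - 1, by omega⟩
  have hcast : ((m + 1 : ℕ) : ℝ) = (m : ℝ) + 1 := by push_cast; rfl
  refine ⟨?_, by rw [hcast]; exact En_upper m⟩
  by_cases hm : n0 ≤ m + 1
  · obtain ⟨h1, h2⟩ := h (Fin (m + 1)) 0 (by rw [Fintype.card_fin]; exact hm)
    rw [Fintype.card_fin] at h2
    have hpos : (0 : ℝ) < (MinF A (0 : Fin (m + 1))).card := by exact_mod_cast h1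
    rw [En_eq, le_div_iff₀ (by positivity)]
    calc min c (1 / ((n0 : ℝ) + 1) ^ 2) * ((m + 1 : ℕ) : ℝ) ^ 2 *
          ((MinF A (0 : Fin (m + 1))).card : ℝ) ^ 2
        ≤ c * ((m + 1 : ℕ) : ℝ) ^ 2 * ((MinF A (0 : Fin (m + 1))).card : ℝ) ^ 2 := by
          apply mul_le_mul_of_nonneg_right _ (by positivity)
          exact mul_le_mul_of_nonneg_right (min_le_left _ _) (by positivity)
      _ = c * ((((m + 1 : ℕ) : ℝ)) ^ 2 * ((MinF A (0 : Fin (m + 1))).card : ℝ) ^ 2) := by ring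
      _ ≤ _ := h2
  · have h1 : ((m + 1 : ℕ) : ℝ) ≤ (n0 : ℝ) + 1 := by
      have : m + 1 ≤ n0 + 1 := by omega
      exact_mod_cast this
    calc min c (1 / ((n0 : ℝ) + 1) ^ 2) * ((m + 1 : ℕ) : ℝ) ^ 2
        ≤ 1 / ((n0 : ℝ) + 1) ^ 2 * ((n0 : ℝ) + 1) ^ 2 := by
          apply mul_le_mul (min_le_right _ _) _ (by positivity) (by positivity)
          exact pow_le_pow_left₀ (by positivity) h1 2
      _ = 1 := by field_simp
      _ ≤ _ := En_one_le m

end Pool.Agent.SC
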