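import Pool.Agent.W_MP_6663ab_lc.Cong

/-!
# Counting accessible structures with a pair of states of given rank
-/

namespace Pool.Agent.SC

open Finset

universe u v w

variable {A : Type u} {Q : Type v} [Fintype A] [Fintype Q] [LinearOrder Q]

/-- rank of the principal congruence -/
noncomputable def rk (δ : Q → A → Q) (p q : Q) : ℕ := (sup δ p q).card - (ntc δ p q).card

lemma ncl_add_rk (δ : Q → A → Q) (p q : Q) : ncl δ p q + rk δ p q = Fintype.card Q := by
  have h1 := ncl_add δ p q
  have h2 := two_mul_ntc_le δ p q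
  unfold rk
  omega

lemma sup_le_two_rk (δ : Q → A → Q) (p q : Q) : (sup δ p q).card ≤ 2 * rk δ p q := by
  have h2 := two_mul_ntc_le δ p q
  unfold rk
  omega

lemma rk_pos {δ : Q → A → Q} {p q : Q} (hpq : p ≠ q) : 0 < rk δ p q := by
  have h2 := two_mul_ntc_le δ p q
  have h3 := ntc_pos (δ := δ) hpq
  unfold rk
  omega

/-- the exponent -/
def tex (r : ℕ) : ℕ := max 1 (r - 1)

lemma rank_ineq (δ : Q → A → Q) {p q : Q} (hpq : p ≠ q) (ht : ¬ Twin δ p q)
    (hk : 2 ≤ Fintype.card A) :
    (sup δ p q).card + (outS δ p q).card + tex (rk δ p q) ≤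
      (sup δ p q).card * Fintype.card A := by
  have h2 := two_mul_ntc_le δ p q
  have h3 := ntc_pos (δ := δ) hpq
  have h4 := card_outS δ hpq
  obtain ⟨k, hk'⟩ : ∃ k, Fintype.card A = k + 2 := ⟨Fintype.card A - 2, by omega⟩
  rw [hk'] at h4 ⊢
  obtain ⟨m, hm⟩ : ∃ m, (ntc δ p q).card = m := ⟨_, rfl⟩
  obtain ⟨r, hr⟩ : ∃ r, rk δ p q = r := ⟨_, rfl⟩
  have hs : (sup δ p q).card = r + m := by
    unfold rk at hr
    omega
  have hrm : 0 < r := hr ▸ rk_pos hpq
  rw [hm] at h4 h3
  rw [hr, hs]
  by_cases hr1 : r = 1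
  · have h5 : (sup δ p q).card = (ntc δ p q).card + 1 := by omega
    have h6 := card_outS_one δ hpq h5 ht
    rw [hk', hs] at h6
    have hm1 : m = 1 := by omega
    subst hr1 hm1
    simp only [tex]
    omega
  · have h7 : tex r = r - 1 := by
      unfold tex
      omega
    rw [h7]
    obtain ⟨j, rfl⟩ : ∃ j, r = j + 2 := ⟨r - 2, by omega⟩
    have e1 : (k + 2) * m = k * m + 2 * m := by ring
    have e2 : (j + 2 + m) * (k + 2) = j * k + 2 * j + 2 * k + 4 + k * m + 2 * m := by ring
    rw [e1] at h4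
    rw [e2]
    have h9 : j + 2 - 1 = j + 1 := by omega
    rw [h9]
    have := Nat.zero_le (j * k)
    omega

/-- the parent structure used for the rank count -/
def parR (s : ℕ) : (Fin s ⊕ Fin s × A) → Option ((Fin s ⊕ Fin s × A) × A) :=
  Sum.elim (fun _ => none) (fun e => some (Sum.inl e.1, e.2))

open Classical in
/-- triples (accessible structure, pair of distinct non-twin states) with given support size and
rank -/
noncomputable def TT (A : Type u) [Fintype A] (q₀ : Q) (s r : ℕ) :
    Finset ((Q → A → Q) × (Q × Q)) :=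
  univ.filter fun x => Acc q₀ x.1 ∧ x.2.1 ≠ x.2.2 ∧ ¬ Twin x.1 x.2.1 x.2.2 ∧
    (sup x.1 x.2.1 x.2.2).card = s ∧ rk x.1 x.2.1 x.2.2 = r

lemma mem_TT {q₀ : Q} {s r : ℕ} {x : (Q → A → Q) × (Q × Q)} :
    x ∈ TT A q₀ s r ↔ Acc q₀ x.1 ∧ x.2.1 ≠ x.2.2 ∧ ¬ Twin x.1 x.2.1 x.2.2 ∧
    (sup x.1 x.2.1 x.2.2).card = s ∧ rk x.1 x.2.1 x.2.2 = r := by
  classical
  simp [TT]

theorem card_TT [Nonempty A] (q₀ : Q) (s r : ℕ) (hk : 2 ≤ Fintype.card A) :
    (TT A q₀ s r).card * Fintype.card Q ^ tex r ≤
      s ^ 2 * ((2 * (s + s * Fintype.card A)) ^ (s + s * Fintype.card A) * (AccF A q₀).card) := by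
  classical
  rcases Nat.eq_zero_or_pos s with hs | hs
  · have : TT A q₀ s r = ∅ := by
      rw [eq_empty_iff_forall_notMem]
      intro x hx
      rw [mem_TT] at hx
      have h1 := (p_mem_sup (δ := x.1) hx.2.1).1
      have h2 := card_pos.2 ⟨_, h1⟩
      omega
    rw [this]; simp
  haveI : Nonempty (Fin s) := ⟨⟨0, hs⟩⟩
  have hsub : TT A q₀ s r ⊆ ((Exc q₀ (parR (A := A) s) (tex r) 0) ×ˢ
      (univ : Finset (Fin s × Fin s))).image
      (fun y => (y.1.1, (y.1.2 (Sum.inl y.2.1), y.1.2 (Sum.inl y.2.2)))) := by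
    rintro ⟨δ, p, q⟩ hx
    obtain ⟨hacc, hpq, htw, hs', hr⟩ := mem_TT.1 hx
    simp only at hacc hpq htw hs' hr
    set e := (sup δ p q).orderIsoOfFin hs' with he
    have hpS := p_mem_sup (δ := δ) hpq
    rw [mem_image]
    let val : (Fin s ⊕ Fin s × A) → Q :=
      Sum.elim (fun i => ((e i : sup δ p q) : Q)) (fun ia => δ ((e ia.1 : sup δ p q) : Q) ia.2)
    refine ⟨((δ, val), (e.symm ⟨p, hpS.1⟩, e.symm ⟨q, hpS.2⟩)), ?_, ?_⟩
    · rw [mem_product]
      refine ⟨?_, mem_univ _⟩
      rw [mem_Exc]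
      refine ⟨hacc, ?_, ?_⟩
      · intro ν μ a h
        rcases ν with i | ⟨i, b⟩
        · simp [parR] at h
        · simp only [parR, Sum.elim_inr, Option.some.injEq, Prod.mk.injEq] at h
          obtain ⟨rfl, rfl⟩ := h
          rfl
      · simp only
        have h1 : (univ.image val).card ≤ (sup δ p q).card + (outS δ p q).card := by
          refine le_trans (card_le_card ?_) (card_union_le _ _)
          intro z hz
          obtain ⟨ν, -, rfl⟩ := mem_image.1 hz
          rw [mem_union]
          rcases ν with i | ⟨i, b⟩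
          · left
            exact (e i).2
          · by_cases h2 : val (Sum.inr (i, b)) ∈ sup δ p q
            · exact Or.inl h2
            · right
              exact mem_outS.2 ⟨h2, _, (e i).2, b, rfl⟩
        have h2 : (sup δ p q).card * Fintype.card A ≤ (edg (parR (A := A) s) val).card := by
          rw [← card_univ (α := A), ← card_product]
          apply card_le_card
          rintro ⟨x, a⟩ hxa
          rw [mem_product] at hxa
          simp only [edg, mem_filter, mem_univ, true_and]
          refine ⟨Sum.inr (e.symm ⟨x, hxa.1⟩, a), Sum.inl (e.symm ⟨x, hxa.1⟩), rfl, ?_⟩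
          simp [val]
        have h3 := rank_ineq δ hpq htw hk
        rw [hr] at h3
        omega
    · simp [val]
  have h1 := (card_le_card hsub).trans card_image_le
  rw [card_product, card_univ, Fintype.card_prod, Fintype.card_fin] at h1
  have h2 := card_Exc q₀ (parR (A := A) s) (tex r) 0
  rw [Fintype.card_sum, Fintype.card_prod, Fintype.card_fin, pow_zero, one_mul] at h2
  calc (TT A q₀ s r).card * Fintype.card Q ^ tex r
      ≤ ((Exc q₀ (parR (A := A) s) (tex r) 0).card * (s * s)) * Fintype.card Q ^ tex r :=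
        Nat.mul_le_mul_right _ h1
    _ = s ^ 2 * ((Exc q₀ (parR (A := A) s) (tex r) 0).card * Fintype.card Q ^ tex r) := by ring
    _ ≤ _ := Nat.mul_le_mul_left _ h2

/-! ### twins -/

open Classical in
/-- ordered twin pairs -/
noncomputable def TW (A : Type u) [Fintype A] [Nonempty A] (q₀ : Q) :
    Finset ((Q → A → Q) × (Q × Q)) :=
  univ.filter fun x => Acc q₀ x.1 ∧ x.2.1 ≠ x.2.2 ∧ Twin x.1 x.2.1 x.2.2 ∧
    toLex (dst q₀ x.1 x.2.1, x.2.1) < toLex (dst q₀ x.1 x.2.2, x.2.2)

lemma mem_TW [Nonempty A] {q₀ : Q} {x : (Q → A → Q) × (Q × Q)} :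
    x ∈ TW A q₀ ↔ Acc q₀ x.1 ∧ x.2.1 ≠ x.2.2 ∧ Twin x.1 x.2.1 x.2.2 ∧
    toLex (dst q₀ x.1 x.2.1, x.2.1) < toLex (dst q₀ x.1 x.2.2, x.2.2) := by
  classical
  simp [TW]

theorem card_TW [Nonempty A] (q₀ : Q) (hk : 2 ≤ Fintype.card A) :
    (TW A q₀).card ≤ (AccF A q₀).card := by
  classical
  have hnpos : 0 < Fintype.card Q := Fintype.card_pos_iff.2 ⟨q₀⟩
  have h1 : ((TW A q₀) ×ˢ (univ : Finset (A → Q))).card ≤
      ((AccF A q₀) ×ˢ (univ : Finset (Q × Q))).card := by
    apply card_le_card_of_injOn fun y => (Function.update y.1.1 y.1.2.2 y.2, y.1.2)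
    · rintro ⟨⟨δ, p, q⟩, g⟩ hy
      rw [mem_coe, mem_product] at hy
      obtain ⟨hacc, hpq, htw, hlt⟩ := mem_TW.1 hy.1
      simp only at hacc hpq htw hlt
      rw [mem_coe, mem_product]
      refine ⟨?_, mem_univ _⟩
      rw [mem_AccF]
      refine acc_modify hacc ?_
      intro s hs
      have hne : (tre q₀ δ s).1 ≠ q := by
        intro h
        have h1 := tre_spec hacc hs
        rw [h, ← htw] at h1
        have h2 := tre_min hacc hs h1
        rw [h] at h2
        exact absurd hlt (not_lt.2 h2)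
      simp only
      rw [Function.update_of_ne hne]
    · rintro ⟨⟨δ, p, q⟩, g⟩ hy ⟨⟨δ', p', q'⟩, g'⟩ hy' h
      rw [mem_coe, mem_product] at hy hy'
      obtain ⟨hacc, hpq, htw, hlt⟩ := mem_TW.1 hy.1
      obtain ⟨hacc', hpq', htw', hlt'⟩ := mem_TW.1 hy'.1
      simp only [Prod.mk.injEq] at hacc hpq htw hlt hacc' hpq' htw' hlt' h
      obtain ⟨h1, rfl, rfl⟩ := h
      have hg : g = g' := by
        have := congrFun h1 q
        simpa using this
      subst hg
      have hδ : ∀ x, x ≠ q → δ x = δ' x := by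
        intro x hx
        have := congrFun h1 x
        rwa [Function.update_of_ne hx, Function.update_of_ne hx] at this
      have hδ' : δ = δ' := by
        funext x
        by_cases hx : x = q
        · subst hx
          funext a
          rw [← htw a, ← htw' a, hδ p hpq]
        · exact hδ x hx
      subst hδ'
      rfl
  rw [card_product, card_product, card_univ, card_univ, Fintype.card_fun, Fintype.card_prod] at h1
  have h2 : Fintype.card Q ^ 2 ≤ Fintype.card Q ^ Fintype.card A := Nat.pow_le_pow_right hnpos hk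
  have h3 : (TW A q₀).card * Fintype.card Q ^ 2 ≤ (AccF A q₀).card * Fintype.card Q ^ 2 := by
    calc _ ≤ (TW A q₀).card * Fintype.card Q ^ Fintype.card A := Nat.mul_le_mul_left _ h2
      _ ≤ (AccF A q₀).card * (Fintype.card Q * Fintype.card Q) := h1
      _ = _ := by ring
  exact Nat.le_of_mul_le_mul_right h3 (by positivity)

lemma card_eq_at {p q : Q} (hpq : p ≠ q) :
    2 * ((univ : Finset (Q → Bool)).filter fun F => F p = F q).card ≤ 2 ^ Fintype.card Q := by
  classical
  have h1 : ((univ : Finset (Q → Bool)).filter fun F => F p = F q).card ≤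
      ((univ : Finset (Q → Bool)).filter fun F => ¬ F p = F q).card := by
    apply card_le_card_of_injOn fun F => Function.update F p (!F p)
    · intro F hF
      rw [mem_coe, mem_filter] at hF ⊢
      refine ⟨mem_univ _, ?_⟩
      simp only
      rw [Function.update_self, Function.update_of_ne hpq.symm, hF.2]
      cases F q <;> simp
    · intro F hF G hG h
      simp only at h
      funext x
      by_cases hx : x = p
      · subst hx
        have := congrFun h x
        simpa using this
      · have := congrFun h x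
        rwa [Function.update_of_ne hx, Function.update_of_ne hx] at this
  have h2 := card_filter_add_card_filter_not (s := (univ : Finset (Q → Bool)))
    (fun F => F p = F q)
  rw [card_univ, Fintype.card_fun, Fintype.card_bool] at h2
  omega

end Pool.Agent.SC
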