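import Pool.Agent.W_MP_6663ab_lc.Count
import Pool.Agent.W_MP_6663ab_lc.SDefs

/-!
# A positive proportion of the surjection model is accessible

We explore the edges leaving the states already found. With `v` unexplored edges and `w` states
not yet found, the number of extensions hitting all the `w` states is `cov v w`, and the number of
those for which the exploration never gets stuck is at least `bal v w`. The potential `1 - k w / v`
(ballot theorem) controls the later part of the exploration, an exponential potential the first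
part.
-/

namespace Pool.Agent.SC

open Finset

namespace AccSur

/-- number of maps from a `v`-set to an `N`-set whose image contains a given `w`-set -/
noncomputable def cov (N : ℕ) : ℕ → ℕ → ℝ
  | 0, w => if w = 0 then 1 else 0
  | v + 1, w => ((N : ℝ) - w) * cov N v w + w * cov N v (w - 1)

/-- the same count for explorations which never get stuck -/
noncomputable def bal (N k : ℕ) : ℕ → ℕ → ℝ
  | 0, w => if w = 0 then 1 else 0
  | v + 1, w =>
    if v + 1 ≤ k * w then 0 else ((N : ℝ) - w) * bal N k v w + w * bal N k v (w - 1)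

lemma cov_nonneg (N : ℕ) (v : ℕ) : ∀ w, w ≤ N → 0 ≤ cov N v w := by
  induction v with
  | zero => intro w _; rw [cov]; split_ifs <;> norm_num
  | succ v ih =>
    intro w hw
    rw [cov]
    have h1 : (w : ℝ) ≤ N := by exact_mod_cast hw
    have h2 := ih w hw
    have h3 := ih (w - 1) (by omega)
    have h4 : 0 ≤ ((N : ℝ) - w) * cov N v w := mul_nonneg (by linarith) h2
    have h5 : 0 ≤ (w : ℝ) * cov N v (w - 1) := mul_nonneg (by positivity) h3
    linarith

/-- deleting the position hitting a given state -/
lemma cov_succ_le (N : ℕ) (v : ℕ) : ∀ w, w + 1 ≤ N → cov N (v + 1) (w + 1) ≤ (v + 1) * cov N v w := by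
  induction v with
  | zero =>
    intro w hw
    rw [cov, cov, cov]
    simp only [Nat.add_sub_cancel]
    rcases Nat.eq_zero_or_pos w with rfl | h
    · simp [cov]
    · have : w ≠ 0 := by omega
      simp [cov, this]
  | succ v ih =>
    intro w hw
    have hw' : (w : ℝ) + 1 ≤ N := by exact_mod_cast hw
    have e1 : cov N (v + 1 + 1) (w + 1) =
        ((N : ℝ) - ((w + 1 : ℕ) : ℝ)) * cov N (v + 1) (w + 1) +
          ((w + 1 : ℕ) : ℝ) * cov N (v + 1) w := by
      rw [cov]; simp
    have e2 : cov N (v + 1) w = ((N : ℝ) - w) * cov N v w + w * cov N v (w - 1) := by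
      rw [cov]
    have h1 := ih w hw
    have h0 : 0 ≤ cov N v w := cov_nonneg N v w (by omega)
    have h2 : (w : ℝ) * cov N (v + 1) w ≤ (v + 1) * w * cov N v (w - 1) := by
      rcases Nat.eq_zero_or_pos w with rfl | h
      · simp
      · obtain ⟨w', rfl⟩ : ∃ w', w = w' + 1 := ⟨w - 1, by omega⟩
        have h3 := ih w' (by omega)
        simp only [Nat.add_sub_cancel]
        have h4 : (0 : ℝ) ≤ ((w' + 1 : ℕ) : ℝ) := by positivity
        calc ((w' + 1 : ℕ) : ℝ) * cov N (v + 1) (w' + 1)
            ≤ ((w' + 1 : ℕ) : ℝ) * ((v + 1) * cov N v w') := mul_le_mul_of_nonneg_left h3 h4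
          _ = (v + 1) * ((w' + 1 : ℕ) : ℝ) * cov N v w' := by ring
    rw [e1]
    push_cast at *
    have h5 : ((N : ℝ) - (w + 1)) * cov N (v + 1) (w + 1) ≤
        ((N : ℝ) - (w + 1)) * ((v + 1) * cov N v w) :=
      mul_le_mul_of_nonneg_left h1 (by linarith)
    have h6 : ((v : ℝ) + 1 + 1) * cov N (v + 1) w =
        (v + 1) * (((N : ℝ) - w) * cov N v w + w * cov N v (w - 1)) + cov N (v + 1) w := by
      rw [← e2]; ring
    have h7 : (0 : ℝ) ≤ (v + 1) * cov N v w := by positivity
    linarith [h2, h5, h6, h7]

lemma cov_anti (N : ℕ) (v : ℕ) : ∀ w, w + 1 ≤ N → cov N v (w + 1) ≤ cov N v w := by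
  induction v with
  | zero =>
    intro w _
    rw [cov, cov]
    simp only [Nat.add_eq_zero_iff, one_ne_zero, and_false, if_false]
    split_ifs <;> norm_num
  | succ v ih =>
    intro w hw
    have hw' : (w : ℝ) + 1 ≤ N := by exact_mod_cast hw
    have e1 : cov N (v + 1) (w + 1) =
        ((N : ℝ) - ((w + 1 : ℕ) : ℝ)) * cov N v (w + 1) + ((w + 1 : ℕ) : ℝ) * cov N v w := by
      rw [cov]; simp
    have e2 : cov N (v + 1) w = ((N : ℝ) - w) * cov N v w + w * cov N v (w - 1) := by
      rw [cov]
    have h1 := ih w hw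
    have h2 : (w : ℝ) * cov N v w ≤ w * cov N v (w - 1) := by
      rcases Nat.eq_zero_or_pos w with rfl | h
      · simp
      · obtain ⟨w', rfl⟩ : ∃ w', w = w' + 1 := ⟨w - 1, by omega⟩
        have h3 := ih w' (by omega)
        simp only [Nat.add_sub_cancel]
        exact mul_le_mul_of_nonneg_left h3 (by positivity)
    rw [e1, e2]
    push_cast
    have h5 : ((N : ℝ) - (w + 1)) * cov N v (w + 1) ≤ ((N : ℝ) - (w + 1)) * cov N v w :=
      mul_le_mul_of_nonneg_left h1 (by linarith)
    linarith [h2, h5]

lemma mul_cov_le (N : ℕ) (v w : ℕ) (hw : w ≤ N) : (N : ℝ) * cov N v w ≤ cov N (v + 1) w := by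
  rw [cov]
  have h2 : (w : ℝ) * cov N v w ≤ w * cov N v (w - 1) := by
    rcases Nat.eq_zero_or_pos w with rfl | h
    · simp
    · obtain ⟨w', rfl⟩ : ∃ w', w = w' + 1 := ⟨w - 1, by omega⟩
      have h3 := cov_anti N v w' (by omega)
      simp only [Nat.add_sub_cancel]
      exact mul_le_mul_of_nonneg_left h3 (by positivity)
  linarith

/-- the ballot bound -/
lemma ballot (N k : ℕ) (hk : 1 ≤ k) (v : ℕ) : ∀ w, w ≤ N →
    (v : ℝ) * cov N v w ≤ v * bal N k v w + k * w * cov N v w := by
  induction v with
  | zero =>
    intro w hw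
    have := cov_nonneg N 0 w hw
    have h2 : (0 : ℝ) ≤ k * w * cov N 0 w := by positivity
    push_cast
    linarith
  | succ v ih =>
    intro w hw
    by_cases hv : v + 1 ≤ k * w
    · have h0 := cov_nonneg N (v + 1) w hw
      rw [bal, if_pos hv]
      have h1 : ((v + 1 : ℕ) : ℝ) ≤ k * w := by exact_mod_cast hv
      have h2 := mul_le_mul_of_nonneg_right h1 h0
      linarith
    · have eb : bal N k (v + 1) w = ((N : ℝ) - w) * bal N k v w + w * bal N k v (w - 1) := by
        rw [bal, if_neg hv]
      have ec : cov N (v + 1) w = ((N : ℝ) - w) * cov N v w + w * cov N v (w - 1) := by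
        rw [cov]
      have hwN : (w : ℝ) ≤ N := by exact_mod_cast hw
      rcases Nat.eq_zero_or_pos v with rfl | hvpos
      · have hw0 : w = 0 := by
          by_contra hne
          have : 1 * 1 ≤ k * w := Nat.mul_le_mul hk (by omega)
          omega
        subst hw0
        rw [eb, ec]
        simp [cov, bal]
      · have h1 := ih w hw
        have h2 := ih (w - 1) (by omega)
        have hvr : (0 : ℝ) < v := by exact_mod_cast hvpos
        -- multiplied versions
        have h1' : ((N : ℝ) - w) * ((v : ℝ) * cov N v w) ≤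
            ((N : ℝ) - w) * (v * bal N k v w + k * w * cov N v w) :=
          mul_le_mul_of_nonneg_left h1 (by linarith)
        have h3 : (w : ℝ) * ((v : ℝ) * cov N v (w - 1)) ≤
            w * (v * bal N k v (w - 1)) + k * (w - 1) * (w * cov N v (w - 1)) := by
          rcases Nat.eq_zero_or_pos w with rfl | h
          · simp
          · obtain ⟨w', rfl⟩ : ∃ w', w = w' + 1 := ⟨w - 1, by omega⟩
            simp only [Nat.add_sub_cancel] at h2 ⊢
            have h4 := mul_le_mul_of_nonneg_left h2
              (show (0 : ℝ) ≤ ((w' + 1 : ℕ) : ℝ) by positivity)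
            calc _ ≤ _ := h4
              _ = _ := by push_cast; ring
        have h5 : (w : ℝ) * cov N (v + 1) w ≤ (v + 1) * (w * cov N v (w - 1)) := by
          rcases Nat.eq_zero_or_pos w with rfl | h
          · simp
          · obtain ⟨w', rfl⟩ : ∃ w', w = w' + 1 := ⟨w - 1, by omega⟩
            simp only [Nat.add_sub_cancel]
            have h4 := mul_le_mul_of_nonneg_left (cov_succ_le N v w' hw)
              (show (0 : ℝ) ≤ ((w' + 1 : ℕ) : ℝ) by positivity)
            calc _ ≤ _ := h4
              _ = _ := by push_cast; ring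
        set P := ((N : ℝ) - w) * cov N v w with hP
        set Q := (w : ℝ) * cov N v (w - 1) with hQ
        set P' := ((N : ℝ) - w) * bal N k v w with hP'
        set Q' := (w : ℝ) * bal N k v (w - 1) with hQ'
        have a1 : (v : ℝ) * P ≤ v * P' + k * w * P := by
          rw [hP, hP']; linarith [h1']
        have a2 : (v : ℝ) * Q ≤ v * Q' + k * (w - 1) * Q := by
          rw [hQ, hQ']; linarith [h3]
        have a3 : (w : ℝ) * (P + Q) ≤ (v + 1) * Q := by rw [← ec]; exact h5
        rw [ec, eb]
        push_cast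
        -- `v * (goal)`
        have hkr : (0 : ℝ) ≤ k := by positivity
        have key : (v : ℝ) * ((v + 1) * (P + Q)) ≤
            v * ((v + 1) * (P' + Q') + k * w * (P + Q)) := by
          have b1 : ((v : ℝ) + 1) * (v * P) ≤ (v + 1) * (v * P' + k * w * P) :=
            mul_le_mul_of_nonneg_left a1 (by positivity)
          have b2 : ((v : ℝ) + 1) * (v * Q) ≤ (v + 1) * (v * Q' + k * (w - 1) * Q) :=
            mul_le_mul_of_nonneg_left a2 (by positivity)
          have b3 : (k : ℝ) * (w * (P + Q)) ≤ k * ((v + 1) * Q) :=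
            mul_le_mul_of_nonneg_left a3 hkr
          linarith [b1, b2, b3]
        exact le_of_mul_le_mul_left key hvr

/-- first phase: exponential potential -/
lemma phase (N k T : ℕ) (hk : 2 ≤ k) (hT3 : 3 ≤ T) (hTN : 30 * T ≤ N) (s : ℕ) :
    ∀ t r, t + s = T → r ≤ t →
      ((T : ℝ) / (4 * N)) * (1 - (16 : ℝ) ^ r * (2 / 3) ^ t / 2) * cov N (k * N - t) (N - 1 - t + r)
        ≤ bal N k (k * N - t) (N - 1 - t + r) := by
  have hNpos : 0 < N := by omega
  have hNr : (0 : ℝ) < N := by exact_mod_cast hNpos
  have hTr : (0 : ℝ) < T := by exact_mod_cast (show 0 < T by omega)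
  induction s with
  | zero =>
    intro t r ht hr
    have htT : t = T := by omega
    subst htT
    have hw : N - 1 - t + r ≤ N := by omega
    have hc := cov_nonneg N (k * N - t) (N - 1 - t + r) hw
    have hb := ballot N k (by omega) (k * N - t) (N - 1 - t + r) hw
    have hkN : 2 * N ≤ k * N := Nat.mul_le_mul_right N hk
    set v := k * N - t with hv
    set w := N - 1 - t + r with hwdef
    have hvr : (v : ℝ) = k * N - t := by
      rw [hv, Nat.cast_sub (by omega)]; push_cast; ring
    have hwr : (w : ℝ) = N - 1 - t + r := by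
      rw [hwdef]; push_cast [Nat.cast_sub (show t ≤ N - 1 by omega), Nat.cast_sub (show 1 ≤ N by omega)]
      ring
    have hvpos : (0 : ℝ) < v := by
      have : 0 < v := by omega
      exact_mod_cast this
    by_cases hr4 : 4 * r ≤ t
    · -- many states were found
      have h1 : (t : ℝ) / (4 * N) * (1 - (16 : ℝ) ^ r * (2 / 3) ^ t / 2) * cov N v w ≤
          (t : ℝ) / (4 * N) * cov N v w := by
        have h2 : (0 : ℝ) ≤ (16 : ℝ) ^ r * (2 / 3) ^ t / 2 := by positivity
        have h3 : (0 : ℝ) ≤ (t : ℝ) / (4 * N) * cov N v w := by positivity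
        have h23 := mul_nonneg h2 h3
        linarith only [h23]
      refine h1.trans ?_
      have h4 : ((v : ℝ) - k * w) * cov N v w ≤ v * bal N k v w := by linarith only [hb]
      have h5 : (v : ℝ) * (t / (4 * N)) ≤ v - k * w := by
        have h6 : (v : ℝ) ≤ k * N := by rw [hvr]; linarith only [Nat.cast_nonneg (α := ℝ) t]
        have h7 : (v : ℝ) * (t / (4 * N)) ≤ k * N * (t / (4 * N)) :=
          mul_le_mul_of_nonneg_right h6 (by positivity)
        have h8 : (k : ℝ) * N * (t / (4 * N)) = k * t / 4 := by
          field_simp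
        have h9 : (v : ℝ) - k * w = k * (t + 1 - r) - t := by
          rw [hvr, hwr]; ring
        have h10 : (4 : ℝ) * r ≤ t := by exact_mod_cast hr4
        have h11 : (2 : ℝ) ≤ k := by exact_mod_cast hk
        have q1 : 0 ≤ (k : ℝ) * (t - 4 * r) := mul_nonneg (by positivity) (sub_nonneg.2 h10)
        have q2 : 0 ≤ ((k : ℝ) - 2) * (t / 2 + 1) := mul_nonneg (sub_nonneg.2 h11) (by positivity)
        have h78 := h7.trans_eq h8
        rw [h9]
        linarith only [q1, q2, h78]
      have h12 : (v : ℝ) * (t / (4 * N) * cov N v w) ≤ v * bal N k v w := by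
        calc (v : ℝ) * (t / (4 * N) * cov N v w) = (v * (t / (4 * N))) * cov N v w := by ring
          _ ≤ (v - k * w) * cov N v w := mul_le_mul_of_nonneg_right h5 hc
          _ ≤ _ := h4
      exact le_of_mul_le_mul_left h12 hvpos
    · -- the potential is at least 2
      have h1 : (2 : ℝ) ≤ (16 : ℝ) ^ r * (2 / 3) ^ t := by
        have h2 : (2 : ℝ) ^ t ≤ (16 : ℝ) ^ r := by
          have : (16 : ℝ) ^ r = 2 ^ (4 * r) := by
            rw [pow_mul]; norm_num
          rw [this]
          exact pow_le_pow_right₀ (by norm_num) (by omega)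
        have h3 : (2 : ℝ) ≤ (4 / 3) ^ t := by
          calc (2 : ℝ) ≤ (4 / 3) ^ 3 := by norm_num
            _ ≤ (4 / 3) ^ t := pow_le_pow_right₀ (by norm_num) hT3
        calc (2 : ℝ) ≤ (4 / 3) ^ t := h3
          _ = 2 ^ t * (2 / 3) ^ t := by rw [← mul_pow]; norm_num
          _ ≤ _ := mul_le_mul_of_nonneg_right h2 (by positivity)
      have h4 : (t : ℝ) / (4 * N) * (1 - (16 : ℝ) ^ r * (2 / 3) ^ t / 2) * cov N v w ≤ 0 := by
        have h5 : (0 : ℝ) ≤ (t : ℝ) / (4 * N) * cov N v w := by positivity
        have h6 : 0 ≤ ((16 : ℝ) ^ r * (2 / 3) ^ t / 2 - 1) * ((t : ℝ) / (4 * N) * cov N v w) :=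
          mul_nonneg (by linarith only [h1]) h5
        linarith only [h6]
      refine h4.trans ?_
      -- `bal` is nonnegative
      have : ∀ v w, w ≤ N → 0 ≤ bal N k v w := by
        intro v
        induction v with
        | zero => intro w _; rw [bal]; split_ifs <;> norm_num
        | succ v ih =>
          intro w hw
          rw [bal]
          split_ifs
          · exact le_refl _
          · have h1 : (w : ℝ) ≤ N := by exact_mod_cast hw
            have h4 : 0 ≤ ((N : ℝ) - w) * bal N k v w := mul_nonneg (by linarith) (ih w hw)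
            have h5 : 0 ≤ (w : ℝ) * bal N k v (w - 1) :=
              mul_nonneg (by positivity) (ih (w - 1) (by omega))
            linarith
      exact this v w hw
  | succ s ih =>
    intro t r ht hr
    have hkN : 2 * N ≤ k * N := Nat.mul_le_mul_right N hk
    obtain ⟨v, hv⟩ : ∃ v, k * N - t = v + 1 := ⟨k * N - t - 1, by omega⟩
    have hv' : k * N - (t + 1) = v := by omega
    have ih1 := ih (t + 1) (r + 1) (by omega) (by omega)
    have ih2 := ih (t + 1) r (by omega) (by omega)
    rw [hv'] at ih1 ih2
    rw [hv]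
    set w := N - 1 - t + r with hwdef
    have e1 : N - 1 - (t + 1) + (r + 1) = w := by omega
    have e2 : N - 1 - (t + 1) + r = w - 1 := by omega
    rw [e1] at ih1
    rw [e2] at ih2
    have hw : w ≤ N := by omega
    have hc := cov_nonneg N (v + 1) w hw
    have hc1 := cov_nonneg N v w hw
    have hwr : (w : ℝ) ≤ N := by exact_mod_cast hw
    by_cases hviol : v + 1 ≤ k * w
    · rw [bal, if_pos hviol]
      have h2r : t + 2 ≤ 2 * r := by
        -- `k * N - t ≤ k * w` with `w = N - 1 - t + r`
        have h1 : k * N ≤ k * w + t := by omega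
        have h2 : N = w + (t + 1 - r) := by omega
        have h3 : k * N = k * w + k * (t + 1 - r) := by
          conv_lhs => rw [h2]
          ring
        have h4 : k * (t + 1 - r) ≤ t := by omega
        have h5 : 2 * (t + 1 - r) ≤ k * (t + 1 - r) := Nat.mul_le_mul_right _ hk
        omega
      have h1 : (2 : ℝ) ≤ (16 : ℝ) ^ r * (2 / 3) ^ t := by
        have h2 : (4 : ℝ) ^ (t + 2) ≤ (16 : ℝ) ^ r := by
          have : (16 : ℝ) ^ r = 4 ^ (2 * r) := by
            rw [pow_mul]; norm_num
          rw [this]
          exact pow_le_pow_right₀ (by norm_num) h2r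
        calc (2 : ℝ) ≤ 16 * 1 := by norm_num
          _ ≤ 16 * (8 / 3) ^ t := by
            apply mul_le_mul_of_nonneg_left _ (by norm_num)
            exact one_le_pow₀ (by norm_num)
          _ = 4 ^ (t + 2) * (2 / 3) ^ t := by
            rw [pow_add, mul_assoc, mul_comm ((4 : ℝ) ^ 2), ← mul_assoc, ← mul_pow]; norm_num
            ring
          _ ≤ _ := mul_le_mul_of_nonneg_right h2 (by positivity)
      have h5 : (0 : ℝ) ≤ (T : ℝ) / (4 * N) * cov N (v + 1) w := by positivity
      have h6 : 0 ≤ ((16 : ℝ) ^ r * (2 / 3) ^ t / 2 - 1) * ((T : ℝ) / (4 * N) * cov N (v + 1) w) :=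
        mul_nonneg (by linarith only [h1]) h5
      linarith only [h6]
    · rw [bal, if_neg hviol]
      have ec : cov N (v + 1) w = ((N : ℝ) - w) * cov N v w + w * cov N v (w - 1) := by
        rw [cov]
      have a1 := mul_le_mul_of_nonneg_left ih1 (show (0 : ℝ) ≤ (N : ℝ) - w from sub_nonneg.2 hwr)
      have a2 := mul_le_mul_of_nonneg_left ih2 (show (0 : ℝ) ≤ (w : ℝ) by positivity)
      have hN := mul_cov_le N v w hw
      -- `30 * P ≤ cov`
      have h30 : 30 * (((N : ℝ) - w) * cov N v w) ≤ cov N (v + 1) w := by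
        have h1 : (30 : ℝ) * ((N : ℝ) - w) ≤ N := by
          have : (w : ℝ) = N - 1 - t + r := by
            rw [hwdef]
            push_cast [Nat.cast_sub (show t ≤ N - 1 by omega), Nat.cast_sub (show 1 ≤ N by omega)]
            ring
          have h2 : (30 : ℝ) * T ≤ N := by exact_mod_cast hTN
          have h3 : (t : ℝ) + 1 ≤ T := by exact_mod_cast (show t + 1 ≤ T by omega)
          have h4 : (0 : ℝ) ≤ r := by positivity
          rw [this]
          linarith only [h2, h3, h4]
        calc 30 * (((N : ℝ) - w) * cov N v w) = (30 * ((N : ℝ) - w)) * cov N v w := by ring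
          _ ≤ N * cov N v w := mul_le_mul_of_nonneg_right h1 hc1
          _ ≤ _ := hN
      refine le_trans ?_ (add_le_add a1 a2)
      set c := (T : ℝ) / (4 * N) with hcdef
      have hcnn : 0 ≤ c := by positivity
      set x := (16 : ℝ) ^ r * (2 / 3) ^ t with hx
      have hxnn : 0 ≤ x := by positivity
      have e3 : (16 : ℝ) ^ (r + 1) * (2 / 3) ^ (t + 1) = x * (32 / 3) := by
        rw [hx, pow_succ, pow_succ]; ring
      have e4 : (16 : ℝ) ^ r * (2 / 3) ^ (t + 1) = x * (2 / 3) := by
        rw [hx, pow_succ]; ring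
      rw [e3, e4, ec]
      rw [ec] at h30
      set P := ((N : ℝ) - w) * cov N v w with hP
      set Q := (w : ℝ) * cov N v (w - 1) with hQ
      have h6 : (0 : ℝ) ≤ c * x * ((P + Q) - 30 * P) := by
        apply mul_nonneg (mul_nonneg hcnn hxnn); linarith only [h30]
      have e5 : ((N : ℝ) - w) * (c * (1 - x * (32 / 3) / 2) * cov N v w) =
          c * (1 - x * (32 / 3) / 2) * P := by rw [hP]; ring
      have e6 : (w : ℝ) * (c * (1 - x * (2 / 3) / 2) * cov N v (w - 1)) =
          c * (1 - x * (2 / 3) / 2) * Q := by rw [hQ]; ring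
      rw [e5, e6]
      clear_value c x P Q
      linarith only [h6]

theorem cov_le_bal (N k : ℕ) (hN : 1 ≤ N) (hk : 2 ≤ k) :
    cov N (k * N) (N - 1) ≤ 360 * bal N k (k * N) (N - 1) := by
  have hc := cov_nonneg N (k * N) (N - 1) (by omega)
  by_cases h : N < 90
  · have hb := ballot N k (by omega) (k * N) (N - 1) (by omega)
    have h1 : ((N - 1 : ℕ) : ℝ) = N - 1 := by push_cast [Nat.cast_sub hN]; ring
    rw [h1] at hb
    push_cast at hb
    have hk0 : (0 : ℝ) < k := by exact_mod_cast (show 0 < k by omega)
    have h2 : (k : ℝ) * cov N (k * N) (N - 1) ≤ k * (N * bal N k (k * N) (N - 1)) := by linarith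
    have h3 := le_of_mul_le_mul_left h2 hk0
    have h4 : 0 ≤ bal N k (k * N) (N - 1) := by
      have hN0 : (0 : ℝ) < N := by exact_mod_cast (show 0 < N by omega)
      by_contra hneg
      push Not at hneg
      have := mul_neg_of_pos_of_neg hN0 hneg
      linarith
    have h5 : (N : ℝ) ≤ 360 := by exact_mod_cast (show N ≤ 360 by omega)
    exact h3.trans (mul_le_mul_of_nonneg_right h5 h4)
  · push Not at h
    have hp := phase N k (N / 30) hk (by omega) (by omega) (N / 30) 0 0 (by omega) (le_refl _)
    simp only [pow_zero, mul_one, Nat.sub_zero, add_zero] at hp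
    have h1 : (1 : ℝ) / 180 ≤ ((N / 30 : ℕ) : ℝ) / (4 * N) := by
      have hN0 : (0 : ℝ) < N := by exact_mod_cast (show 0 < N by omega)
      rw [div_le_div_iff₀ (by norm_num) (by positivity)]
      have : 4 * N ≤ 180 * (N / 30) := by omega
      have h2 : (4 : ℝ) * N ≤ 180 * ((N / 30 : ℕ) : ℝ) := by exact_mod_cast this
      linarith
    have h2 : (1 : ℝ) / 180 * (1 - 1 / 2) * cov N (k * N) (N - 1) ≤
        ((N / 30 : ℕ) : ℝ) / (4 * N) * (1 - 1 / 2) * cov N (k * N) (N - 1) := by
      apply mul_le_mul_of_nonneg_right _ hc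
      apply mul_le_mul_of_nonneg_right h1 (by norm_num)
    linarith

/-! ### counting -/

section count

variable {A : Type*} {Q : Type*} [Fintype A] [Fintype Q]

open Classical in
/-- number of transition structures with property `P` -/
noncomputable def num (P : (Q → A → Q) → Prop) : ℕ := (univ.filter P).card

lemma num_congr {P P' : (Q → A → Q) → Prop} (h : ∀ δ, P δ ↔ P' δ) : num P = num P' := by
  have : P = P' := funext fun δ => propext (h δ)
  rw [this]

lemma num_pos {P : (Q → A → Q) → Prop} {δ : Q → A → Q} (h : P δ) : 0 < num P := by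
  classical
  exact card_pos.2 ⟨δ, mem_filter.2 ⟨mem_univ _, h⟩⟩

lemma num_eq_zero {P : (Q → A → Q) → Prop} (h : ∀ δ, ¬ P δ) : num P = 0 := by
  classical
  exact card_eq_zero.2 (filter_eq_empty_iff.2 fun δ _ => h δ)

lemma num_eq_one {P : (Q → A → Q) → Prop} {δ : Q → A → Q} (h : ∀ δ', P δ' ↔ δ' = δ) :
    num P = 1 := by
  classical
  apply card_eq_one.2 ⟨δ, ?_⟩
  ext δ'
  rw [mem_filter, mem_singleton, h δ']
  simp

lemma num_le_card {P : (Q → A → Q) → Prop} {S : Finset (Q → A → Q)} (h : ∀ δ, P δ → δ ∈ S) :
    num P ≤ S.card := by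
  classical
  exact card_le_card fun δ hδ => h δ (mem_filter.1 hδ).2

lemma card_le_num {P : (Q → A → Q) → Prop} {S : Finset (Q → A → Q)} (h : ∀ δ ∈ S, P δ) :
    S.card ≤ num P := by
  classical
  exact card_le_card fun δ hδ => mem_filter.2 ⟨mem_univ _, h δ hδ⟩

lemma num_split (g : (Q → A → Q) → Q) (P : (Q → A → Q) → Prop) :
    num P = ∑ r : Q, num fun δ => P δ ∧ g δ = r := by
  classical
  unfold num
  rw [card_eq_sum_card_fiberwise (f := g) (t := univ) (fun _ _ => mem_coe.2 (mem_univ _))]
  refine sum_congr rfl fun r _ => ?_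
  congr 1
  ext δ
  simp only [mem_filter, mem_univ, true_and]

open Classical in
lemma card_split (E : Finset (Q × A)) (f : Q × A → Q) (e : Q × A) (he : e ∉ E)
    (P : (Q → A → Q) → Prop) :
    (num fun δ : Q → A → Q => (∀ e' ∈ E, δ e'.1 e'.2 = f e') ∧ P δ) =
      ∑ r : Q, num fun δ : Q → A → Q =>
        (∀ e' ∈ insert e E, δ e'.1 e'.2 = Function.update f e r e') ∧ P δ := by
  rw [num_split (fun δ => δ e.1 e.2)]
  refine sum_congr rfl fun r _ => ?_
  apply num_congr
  intro δ
  simp only [mem_insert, forall_eq_or_imp, Function.update_self]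
  constructor
  · rintro ⟨⟨h1, h2⟩, h3⟩
    refine ⟨⟨h3, fun e' he' => ?_⟩, h2⟩
    rw [Function.update_of_ne (by rintro rfl; exact he he')]
    exact h1 e' he'
  · rintro ⟨⟨h3, h1⟩, h2⟩
    refine ⟨⟨fun e' he' => ?_, h2⟩, h3⟩
    have := h1 e' he'
    rwa [Function.update_of_ne (by rintro rfl; exact he he')] at this

open Classical in
/-- the number of extensions of a partial structure hitting a given set of states -/
lemma card_cov (v : ℕ) : ∀ (E : Finset (Q × A)) (f : Q × A → Q) (W : Finset Q),
    E.card + v = Fintype.card (Q × A) →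
    ((num fun δ : Q → A → Q => (∀ e' ∈ E, δ e'.1 e'.2 = f e') ∧
      ∀ p ∈ W, ∃ e', e' ∉ E ∧ δ e'.1 e'.2 = p : ℕ) : ℝ) =
      cov (Fintype.card Q) v W.card := by
  induction v with
  | zero =>
    intro E f W hE
    have hEu : E = univ := by
      rw [← card_eq_iff_eq_univ]; simpa using hE
    subst hEu
    rw [cov]
    by_cases hW : W = ∅
    · subst hW
      rw [card_empty, if_pos rfl, num_eq_one (δ := fun q a => f (q, a))]
      · simp
      · intro δ
        simp only [mem_univ, notMem_empty, false_imp_iff,
          implies_true, and_true, forall_true_left]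
        constructor
        · intro h
          funext q a
          exact h (q, a)
        · rintro rfl e'
          rfl
    · rw [if_neg (by simpa [card_eq_zero] using hW)]
      obtain ⟨p, hp⟩ := nonempty_iff_ne_empty.2 hW
      rw [num_eq_zero]
      · simp
      · rintro δ ⟨-, h⟩
        obtain ⟨e', he', -⟩ := h p hp
        exact he' (mem_univ _)
  | succ v ih =>
    intro E f W hE
    have hne : ∃ e, e ∉ E := by
      by_contra h
      push Not at h
      have : E = univ := by ext x; simp [h x]
      rw [this, card_univ] at hE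
      omega
    obtain ⟨e, he⟩ := hne
    rw [card_split E f e he]
    push_cast
    have hterm : ∀ r : Q, ((num fun δ : Q → A → Q =>
        (∀ e' ∈ insert e E, δ e'.1 e'.2 = Function.update f e r e') ∧
          ∀ p ∈ W, ∃ e', e' ∉ E ∧ δ e'.1 e'.2 = p : ℕ) : ℝ) =
        cov (Fintype.card Q) v (W.erase r).card := by
      intro r
      rw [← ih (insert e E) (Function.update f e r) (W.erase r)
        (by rw [card_insert_of_notMem he]; omega)]
      congr 1
      apply num_congr
      intro δ
      simp only [mem_insert, forall_eq_or_imp, Function.update_self]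
      constructor
      · rintro ⟨⟨h1, h2⟩, h3⟩
        refine ⟨⟨h1, h2⟩, fun p hp => ?_⟩
        obtain ⟨hpr, hpW⟩ := mem_erase.1 hp
        obtain ⟨e', he', h4⟩ := h3 p hpW
        refine ⟨e', ?_, h4⟩
        rintro (rfl | h5)
        · exact hpr (h4.symm.trans h1)
        · exact he' h5
      · rintro ⟨⟨h1, h2⟩, h3⟩
        refine ⟨⟨h1, h2⟩, fun p hp => ?_⟩
        by_cases hpr : p = r
        · exact ⟨e, he, by rw [h1, hpr]⟩
        · obtain ⟨e', he', h4⟩ := h3 p (mem_erase.2 ⟨hpr, hp⟩)
          exact ⟨e', fun h => he' (Or.inr h), h4⟩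
    rw [sum_congr rfl fun r _ => hterm r, cov]
    rw [← sum_filter_add_sum_filter_not univ (fun r => r ∈ W)]
    have h1 : ∑ r ∈ univ.filter (fun r => r ∈ W), cov (Fintype.card Q) v (W.erase r).card =
        (W.card : ℝ) * cov (Fintype.card Q) v (W.card - 1) := by
      rw [sum_congr rfl (g := fun _ => cov (Fintype.card Q) v (W.card - 1)), sum_const]
      · simp
      · intro r hr
        rw [card_erase_of_mem (by simpa using hr)]
    have h2 : ∑ r ∈ univ.filter (fun r => ¬ r ∈ W), cov (Fintype.card Q) v (W.erase r).card =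
        ((Fintype.card Q : ℝ) - W.card) * cov (Fintype.card Q) v W.card := by
      rw [sum_congr rfl (g := fun _ => cov (Fintype.card Q) v W.card), sum_const]
      · have : (univ.filter (fun r => ¬ r ∈ W)) = Wᶜ := by ext; simp
        rw [this, card_compl, nsmul_eq_mul, Nat.cast_sub (card_le_univ W)]
      · intro r hr
        rw [erase_eq_of_notMem (by simpa using hr)]
    rw [h1, h2]
    ring

open Classical in
/-- the exploration never gets stuck on at least `bal` many extensions -/
lemma bal_le_card (q₀ : Q) (v : ℕ) : ∀ (E : Finset (Q × A)) (f : Q × A → Q) (R : Finset Q),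
    E.card + v = Fintype.card (Q × A) →
    (∀ e ∈ E, e.1 ∈ R) →
    (∀ r ∈ R, ∀ δ : Q → A → Q, (∀ e ∈ E, δ e.1 e.2 = f e) → ∃ w, run δ q₀ w = r) →
    bal (Fintype.card Q) (Fintype.card A) v (Fintype.card Q - R.card) ≤
      ((num fun δ : Q → A → Q => (∀ e' ∈ E, δ e'.1 e'.2 = f e') ∧ Acc q₀ δ : ℕ) : ℝ) := by
  induction v with
  | zero =>
    intro E f R hE hR hreach
    rw [bal]
    split_ifs with h
    · have hRu : R = univ := by
        rw [← card_eq_iff_eq_univ]
        exact le_antisymm (card_le_univ R) (by omega)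
      have : 0 < (num fun δ : Q → A → Q => (∀ e' ∈ E, δ e'.1 e'.2 = f e') ∧ Acc q₀ δ) := by
        refine num_pos (δ := fun q a => f (q, a)) ⟨fun e' _ => rfl, fun q => ?_⟩
        exact hreach q (by rw [hRu]; exact mem_univ q) _ (fun e' _ => rfl)
      exact_mod_cast this
    · positivity
  | succ v ih =>
    intro E f R hE hR hreach
    rw [bal]
    split_ifs with h
    · positivity
    · -- there is an unexplored edge leaving `R`
      have hex : ∃ e, e ∉ E ∧ e.1 ∈ R := by
        by_contra hcon
        push Not at hcon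
        have hsub : Eᶜ ⊆ Rᶜ ×ˢ (univ : Finset A) := by
          intro e he
          rw [mem_product, mem_compl]
          exact ⟨hcon e (mem_compl.1 he), mem_univ _⟩
        have h1 := card_le_card hsub
        rw [card_product, card_compl, card_compl, card_univ, mul_comm] at h1
        omega
      obtain ⟨e, he, heR⟩ := hex
      rw [card_split E f e he]
      push_cast
      have hterm : ∀ r : Q, bal (Fintype.card Q) (Fintype.card A) v
          (Fintype.card Q - (insert r R).card) ≤ ((num fun δ : Q → A → Q =>
          (∀ e' ∈ insert e E, δ e'.1 e'.2 = Function.update f e r e') ∧ Acc q₀ δ : ℕ) : ℝ) := by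
        intro r
        refine ih (insert e E) (Function.update f e r) (insert r R)
          (by rw [card_insert_of_notMem he]; omega) ?_ ?_
        · intro e' he'
          rcases mem_insert.1 he' with rfl | h1
          · exact mem_insert_of_mem heR
          · exact mem_insert_of_mem (hR e' h1)
        · intro r' hr' δ hδ
          have hδ' : ∀ e' ∈ E, δ e'.1 e'.2 = f e' := by
            intro e' he'
            have h1 := hδ e' (mem_insert_of_mem he')
            rwa [Function.update_of_ne (by rintro rfl; exact he he')] at h1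
          rcases mem_insert.1 hr' with rfl | h1
          · obtain ⟨w, hw⟩ := hreach e.1 heR δ hδ'
            refine ⟨w ++ [e.2], ?_⟩
            rw [run_concat, hw]
            have h2 := hδ e (mem_insert_self e E)
            rwa [Function.update_self] at h2
          · exact hreach r' h1 δ hδ'
      refine le_trans (le_of_eq ?_) (sum_le_sum fun r _ => hterm r)
      rw [← sum_filter_add_sum_filter_not univ (fun r => r ∈ R)]
      have hRc : R.card ≤ Fintype.card Q := card_le_univ R
      have h1 : ∑ r ∈ univ.filter (fun r => r ∈ R), bal (Fintype.card Q) (Fintype.card A) v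
          (Fintype.card Q - (insert r R).card) =
          (R.card : ℝ) * bal (Fintype.card Q) (Fintype.card A) v (Fintype.card Q - R.card) := by
        rw [sum_congr rfl (g := fun _ => bal (Fintype.card Q) (Fintype.card A) v
          (Fintype.card Q - R.card)), sum_const]
        · simp
        · intro r hr
          rw [insert_eq_of_mem (by simpa using hr)]
      have h2 : ∑ r ∈ univ.filter (fun r => ¬ r ∈ R), bal (Fintype.card Q) (Fintype.card A) v
          (Fintype.card Q - (insert r R).card) =
          ((Fintype.card Q : ℝ) - R.card) *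
            bal (Fintype.card Q) (Fintype.card A) v (Fintype.card Q - R.card - 1) := by
        rw [sum_congr rfl (g := fun _ => bal (Fintype.card Q) (Fintype.card A) v
          (Fintype.card Q - R.card - 1)), sum_const]
        · have : (univ.filter (fun r => ¬ r ∈ R)) = Rᶜ := by ext; simp
          rw [this, card_compl, nsmul_eq_mul, Nat.cast_sub hRc]
        · intro r hr
          rw [card_insert_of_notMem (by simpa using hr), Nat.sub_sub]
      rw [h1, h2, Nat.cast_sub hRc]
      ring

end count

end AccSur

open AccSur in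
/-- **A positive proportion of the surjection model is accessible.** -/
theorem card_Sur_le_card_AccF {A Q : Type*} [Fintype A] [Fintype Q] [LinearOrder Q] [Nonempty A]
    (hA : 2 ≤ Fintype.card A) (q₀ : Q) :
    ((Sur A q₀).card : ℝ) ≤ 360 * ((AccF A q₀).card : ℝ) := by
  classical
  have hN : 1 ≤ Fintype.card Q := Fintype.card_pos_iff.2 ⟨q₀⟩
  have h1 : ((Sur A q₀).card : ℝ) ≤ cov (Fintype.card Q) (Fintype.card A * Fintype.card Q)
      (Fintype.card Q - 1) := by
    have h := card_cov (A := A) (Q := Q) (Fintype.card (Q × A)) ∅ (fun _ => q₀)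
      (univ.erase q₀) (by simp)
    rw [card_erase_of_mem (mem_univ _), card_univ, Fintype.card_prod, mul_comm] at h
    rw [← h]
    norm_cast
    apply card_le_num
    intro δ hδ
    rw [Sur, mem_filter] at hδ
    refine ⟨by simp, fun p hp => ?_⟩
    obtain ⟨s, a, hsa⟩ := hδ.2 p (mem_erase.1 hp).1
    exact ⟨(s, a), by simp, hsa⟩
  have h2 : bal (Fintype.card Q) (Fintype.card A) (Fintype.card A * Fintype.card Q)
      (Fintype.card Q - 1) ≤ ((AccF A q₀).card : ℝ) := by
    have h := bal_le_card (A := A) (Q := Q) q₀ (Fintype.card (Q × A)) ∅ (fun _ => q₀)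
      {q₀} (by simp) (by simp) (by
        intro r hr δ _
        rw [mem_singleton] at hr
        exact ⟨[], by simp [hr]⟩)
    rw [card_singleton, Fintype.card_prod, mul_comm (Fintype.card Q)] at h
    refine h.trans ?_
    norm_cast
    apply num_le_card
    intro δ hδ
    rw [mem_AccF]
    exact hδ.2
  have h3 := cov_le_bal (Fintype.card Q) (Fintype.card A) hN hA
  linarith

end Pool.Agent.SC
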