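import Mathlib
import Pool.Agent.W_MP_6663ab_lc.SDefs
import Pool.Agent.W_MP_6663ab_lc.SGw1

/-!
# The density `gS` is close to the truncated local density (first part)

API for the expectation `ES`, sums over words, the expansion of the square and the
combinatorial computation of the norm of the limiting density.
-/

namespace Pool.Agent.SC

open Finset Filter
open scoped ENNReal Topology

universe u

namespace Cl

/-! ### expectation over the surjection model -/

section ESapi

variable {A : Type u} [Fintype A]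

lemma sur_card_pos [Nonempty A] (n : ℕ) : 0 < ((Sur A (0 : Fin (n + 1))).card : ℝ) := by
  have h : (Sur A (0 : Fin (n + 1))).Nonempty := by
    refine ⟨fun s _ => s + 1, ?_⟩
    simp only [Sur, mem_filter, mem_univ, true_and]
    intro p _
    exact ⟨p - 1, Classical.arbitrary A, sub_add_cancel p 1⟩
  exact_mod_cast h.card_pos

lemma ES_const [Nonempty A] (n : ℕ) (c : ℝ) : ES A n (fun _ => c) = c := by
  unfold ES
  rw [sum_const, nsmul_eq_mul, mul_div_assoc, mul_comm, div_mul_cancel₀ _ (sur_card_pos n).ne']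

lemma ES_add (n : ℕ) (f g : (Fin (n + 1) → A → Fin (n + 1)) → ℝ) :
    ES A n (fun δ => f δ + g δ) = ES A n f + ES A n g := by
  unfold ES
  rw [sum_add_distrib, add_div]

lemma ES_sub (n : ℕ) (f g : (Fin (n + 1) → A → Fin (n + 1)) → ℝ) :
    ES A n (fun δ => f δ - g δ) = ES A n f - ES A n g := by
  unfold ES
  rw [sum_sub_distrib, sub_div]

lemma ES_mul_left (n : ℕ) (c : ℝ) (f : (Fin (n + 1) → A → Fin (n + 1)) → ℝ) :
    ES A n (fun δ => c * f δ) = c * ES A n f := by
  unfold ES
  rw [← mul_sum, mul_div_assoc]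

lemma ES_mul_right (n : ℕ) (c : ℝ) (f : (Fin (n + 1) → A → Fin (n + 1)) → ℝ) :
    ES A n (fun δ => f δ * c) = ES A n f * c := by
  unfold ES
  rw [← sum_mul, div_mul_eq_mul_div]

lemma ES_div (n : ℕ) (c : ℝ) (f : (Fin (n + 1) → A → Fin (n + 1)) → ℝ) :
    ES A n (fun δ => f δ / c) = ES A n f / c := by
  simp only [div_eq_mul_inv, ES_mul_right]

lemma ES_sum {ι : Type*} (n : ℕ) (s : Finset ι) (f : ι → (Fin (n + 1) → A → Fin (n + 1)) → ℝ) :
    ES A n (fun δ => ∑ i ∈ s, f i δ) = ∑ i ∈ s, ES A n (f i) := by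
  unfold ES
  rw [sum_comm, sum_div]

lemma ES_mono (n : ℕ) {f g : (Fin (n + 1) → A → Fin (n + 1)) → ℝ} (h : ∀ δ, f δ ≤ g δ) :
    ES A n f ≤ ES A n g := by
  unfold ES
  exact div_le_div_of_nonneg_right (sum_le_sum fun δ _ => h δ) (Nat.cast_nonneg _)

lemma ES_nonneg (n : ℕ) {f : (Fin (n + 1) → A → Fin (n + 1)) → ℝ} (h : ∀ δ, 0 ≤ f δ) :
    0 ≤ ES A n f := by
  unfold ES
  exact div_nonneg (sum_nonneg fun δ _ => h δ) (Nat.cast_nonneg _)

lemma ES_abs (n : ℕ) (f : (Fin (n + 1) → A → Fin (n + 1)) → ℝ) :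
    |ES A n f| ≤ ES A n (fun δ => |f δ|) := by
  unfold ES
  rw [abs_div, Nat.abs_cast]
  exact div_le_div_of_nonneg_right (abs_sum_le_sum_abs _ _) (Nat.cast_nonneg _)

lemma ES_ES_mul (n : ℕ) (f g : (Fin (n + 1) → A → Fin (n + 1)) → ℝ) :
    ES A n (fun δ => ES A n fun δ' => f δ * g δ') = ES A n f * ES A n g := by
  simp only [ES_mul_left, ES_mul_right]

end ESapi

/-! ### sums over words -/

section words

variable {A : Type u} [Fintype A]

lemma sum_append (a D : ℕ) (F : List A → ℝ) :
    ∑ v : Fin (a + D) → A, F (List.ofFn v) =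
      ∑ x : Fin a → A, ∑ y : Fin D → A, F (List.ofFn x ++ List.ofFn y) := by
  rw [← Fintype.sum_prod_type' (f := fun (x : Fin a → A) (y : Fin D → A) =>
    F (List.ofFn x ++ List.ofFn y))]
  refine (Fintype.sum_equiv (Fin.appendEquiv a D) _ _ ?_).symm
  rintro ⟨x, y⟩
  show F (List.ofFn x ++ List.ofFn y) = F (List.ofFn (Fin.append x y))
  rw [List.ofFn_fin_append]

lemma sum_reverse (D : ℕ) (F : List A → ℝ) :
    ∑ y : Fin D → A, F (List.ofFn y).reverse = ∑ y : Fin D → A, F (List.ofFn y) := by
  refine Fintype.sum_equiv (Equiv.arrowCongr Fin.revPerm (Equiv.refl A)) _ _ ?_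
  intro y
  congr 1
  apply List.ext_getElem
  · simp
  · intro i h1 h2
    simp only [List.getElem_reverse, List.length_ofFn, List.getElem_ofFn, Equiv.arrowCongr_apply,
      Equiv.coe_refl, Fin.revPerm_symm, Function.comp_apply, Fin.revPerm_apply, id_eq, Fin.rev]
    congr 2
    omega

lemma card_words (D : ℕ) : (∑ _ : Fin D → A, (1 : ℝ)) = (Fintype.card A : ℝ) ^ D := by
  simp

open Classical in
lemma sum_take (D m : ℕ) (hm : m ≤ D) (l : List A) (hl : l.length = m) :
    (∑ w : Fin D → A, if (List.ofFn w).take m = l then (1 : ℝ) else 0) =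
      (Fintype.card A : ℝ) ^ (D - m) := by
  obtain ⟨b, rfl⟩ := Nat.exists_eq_add_of_le hm
  rw [sum_append m b (fun w => if w.take m = l then (1 : ℝ) else 0)]
  have h1 : ∀ (x : Fin m → A) (y : Fin b → A),
      (if (List.ofFn x ++ List.ofFn y).take m = l then (1 : ℝ) else 0) =
        if x = (fun i => l[i.val]'(by rw [hl]; exact i.2)) then 1 else 0 := by
    intro x y
    have h2 : (List.ofFn x ++ List.ofFn y).take m = List.ofFn x := by
      rw [List.take_left' (by simp)]
    rw [h2]
    congr 1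
    apply propext
    constructor
    · intro h
      subst h
      funext i
      simp
    · intro h
      rw [h]
      apply List.ext_getElem
      · simp [hl]
      · intro i h1 h2
        simp
  simp only [h1]
  rw [sum_comm]
  simp

open Classical in
lemma sum_take_pair (D m : ℕ) (hm : m ≤ D) :
    (∑ u : Fin D → A, ∑ w : Fin D → A,
      if (List.ofFn u).take m = (List.ofFn w).take m then (1 : ℝ) else 0) =
      (Fintype.card A : ℝ) ^ D * (Fintype.card A : ℝ) ^ (D - m) := by
  have h1 : ∀ u : Fin D → A, (∑ w : Fin D → A,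
      if (List.ofFn u).take m = (List.ofFn w).take m then (1 : ℝ) else 0) =
      (Fintype.card A : ℝ) ^ (D - m) := by
    intro u
    rw [← sum_take D m hm ((List.ofFn u).take m) (by simp [hm])]
    refine sum_congr rfl fun w _ => ?_
    by_cases h : (List.ofFn u).take m = (List.ofFn w).take m
    · rw [if_pos h, if_pos h.symm]
    · rw [if_neg h, if_neg (fun h' => h h'.symm)]
  simp only [h1]
  simp

/-- number of levels `< D` on which the two words agree -/
noncomputable def lv {A : Type u} (D : ℕ) (u w : List A) : ℕ :=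
  open Classical in ((range D).filter fun i => u.take i = w.take i).card

lemma take_eq_of_le {A : Type u} {u w : List A} {i j : ℕ} (h : i ≤ j)
    (hj : u.take j = w.take j) : u.take i = w.take i := by
  have h1 : (u.take j).take i = (w.take j).take i := by rw [hj]
  rwa [List.take_take, List.take_take, min_eq_left h] at h1

open Classical in
lemma lv_sq {A : Type u} (D : ℕ) (u w : List A) :
    ((lv D u w : ℕ) : ℝ) ^ 2 = ∑ i ∈ range D, ∑ j ∈ range D,
      if u.take (max i j) = w.take (max i j) then (1 : ℝ) else 0 := by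
  have h1 : ((lv D u w : ℕ) : ℝ) = ∑ i ∈ range D, if u.take i = w.take i then (1 : ℝ) else 0 := by
    unfold lv
    rw [card_filter]
    push_cast
    rfl
  rw [h1, sq, sum_mul_sum]
  refine sum_congr rfl fun i _ => sum_congr rfl fun j _ => ?_
  by_cases hi : u.take i = w.take i
  · by_cases hj : u.take j = w.take j
    · have : u.take (max i j) = w.take (max i j) := by
        rcases max_choice i j with h | h <;> rw [h] <;> assumption
      rw [if_pos hi, if_pos hj, if_pos this, mul_one]
    · have : ¬ u.take (max i j) = w.take (max i j) := fun h =>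
        hj (take_eq_of_le (le_max_right i j) h)
      rw [if_neg hj, if_neg this, mul_zero]
  · have : ¬ u.take (max i j) = w.take (max i j) := fun h =>
      hi (take_eq_of_le (le_max_left i j) h)
    rw [if_neg hi, if_neg this, zero_mul]

lemma sum_max (x : ℝ) (D : ℕ) :
    ∑ i ∈ range D, ∑ j ∈ range D, x ^ (max i j) =
      (∑ j ∈ range D, (1 - x) * x ^ j * (1 + (j : ℝ)) ^ 2) + x ^ D * (D : ℝ) ^ 2 := by
  induction D with
  | zero => simp
  | succ D ih =>
    rw [sum_range_succ]
    simp only [sum_range_succ (fun j => x ^ max _ j)]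
    rw [sum_add_distrib, ih, sum_range_succ (fun j : ℕ => (1 - x) * x ^ j * (1 + (j : ℝ)) ^ 2)]
    have h1 : ∑ i ∈ range D, x ^ max i D = D * x ^ D := by
      rw [sum_congr rfl (fun i hi => by rw [max_eq_right (mem_range.1 hi).le])]
      simp
    have h2 : ∑ i ∈ range D, x ^ max D i = D * x ^ D := by
      rw [sum_congr rfl (fun i hi => by rw [max_eq_left (mem_range.1 hi).le])]
      simp
    rw [h1, h2, max_self]
    push_cast
    ring

/-- the norm of the limiting density is at least the asymptotic upper bound of the norm of `gS` -/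
lemma sum_lv_ge [Nonempty A] (D : ℕ) (ν : ℝ) (hν : 0 ≤ ν) :
    (∑ j ∈ range D, (1 - 1 / (Fintype.card A : ℝ)) / (Fintype.card A : ℝ) ^ j *
          (ν * (1 + j)) ^ 2) ≤
      (∑ u : Fin D → A, ∑ w : Fin D → A, (open Classical in (if u = w then (1 : ℝ) else 0) +
        ν * (lv D (List.ofFn u) (List.ofFn w) : ℕ)) ^ 2) / (Fintype.card A : ℝ) ^ (2 * D) := by
  classical
  have hk : (0 : ℝ) < Fintype.card A := by exact_mod_cast Fintype.card_pos
  set k : ℝ := (Fintype.card A : ℝ) with hkdef
  have h1 : (∑ u : Fin D → A, ∑ w : Fin D → A, (ν * (lv D (List.ofFn u) (List.ofFn w) : ℕ)) ^ 2) ≤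
      ∑ u : Fin D → A, ∑ w : Fin D → A, ((if u = w then (1 : ℝ) else 0) +
        ν * (lv D (List.ofFn u) (List.ofFn w) : ℕ)) ^ 2 := by
    refine sum_le_sum fun u _ => sum_le_sum fun w _ => ?_
    have h2 : 0 ≤ ν * (lv D (List.ofFn u) (List.ofFn w) : ℕ) := by positivity
    have h3 : (0 : ℝ) ≤ (if u = w then (1 : ℝ) else 0) := by split_ifs <;> norm_num
    apply pow_le_pow_left₀ h2
    linarith
  have h4 : (∑ u : Fin D → A, ∑ w : Fin D → A, (ν * (lv D (List.ofFn u) (List.ofFn w) : ℕ)) ^ 2) =
      ν ^ 2 * (k ^ (2 * D) * ∑ i ∈ range D, ∑ j ∈ range D, (1 / k) ^ (max i j)) := by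
    simp only [mul_pow, ← mul_sum]
    congr 1
    simp only [lv_sq]
    calc ∑ u : Fin D → A, ∑ w : Fin D → A, ∑ i ∈ range D, ∑ j ∈ range D,
          (if (List.ofFn u).take (max i j) = (List.ofFn w).take (max i j) then (1 : ℝ) else 0)
        = ∑ i ∈ range D, ∑ j ∈ range D, ∑ u : Fin D → A, ∑ w : Fin D → A,
          (if (List.ofFn u).take (max i j) = (List.ofFn w).take (max i j) then (1 : ℝ) else 0) := by
          rw [sum_congr rfl fun u _ => sum_comm, sum_comm]
          refine sum_congr rfl fun i _ => ?_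
          rw [sum_congr rfl fun u _ => sum_comm, sum_comm]
      _ = ∑ i ∈ range D, ∑ j ∈ range D, k ^ D * k ^ (D - max i j) := by
          refine sum_congr rfl fun i hi => sum_congr rfl fun j hj => ?_
          rw [sum_take_pair D (max i j) (max_le (mem_range.1 hi).le (mem_range.1 hj).le)]
      _ = _ := by
          rw [mul_sum]
          refine sum_congr rfl fun i hi => ?_
          rw [mul_sum]
          refine sum_congr rfl fun j hj => ?_
          have hm : max i j ≤ D := max_le (mem_range.1 hi).le (mem_range.1 hj).le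
          rw [one_div, inv_pow, ← div_eq_mul_inv, pow_sub₀ _ hk.ne' hm, two_mul, pow_add]
          rw [mul_div_assoc, div_eq_mul_inv]
  rw [le_div_iff₀ (by positivity)]
  refine le_trans ?_ h1
  rw [h4, sum_max]
  have h5 : (∑ j ∈ range D, (1 - 1 / k) / k ^ j * (ν * (1 + (j : ℝ))) ^ 2) =
      ν ^ 2 * ∑ j ∈ range D, (1 - 1 / k) * (1 / k) ^ j * (1 + (j : ℝ)) ^ 2 := by
    rw [mul_sum]
    refine sum_congr rfl fun j _ => ?_
    rw [one_div, inv_pow]
    ring
  rw [h5]
  have h6 : 0 ≤ ν ^ 2 * (k ^ (2 * D) * ((1 / k) ^ D * (D : ℝ) ^ 2)) := by positivity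
  nlinarith [h6]

end words

end Cl

end Pool.Agent.SC
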