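import Mathlib
import Pool.Agent.W_MP_6663ab_lc.SClose1

/-!
# The density `gS` is close to the truncated local density (second part)

The core argument, with the inputs (local law, upper bound for the norm, cross term) as
hypotheses.
-/

namespace Pool.Agent.SC

open Finset Filter
open scoped ENNReal Topology

universe u

namespace Cl

/-! ### truncated multiplicities -/

section trunc

open Classical in
/-- truncated multiplicity -/
noncomputable def tc {A : Type u} (K : ℕ) (m : Multiset (List A)) (w : List A) : ℝ :=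
  ((min (m.count w) K : ℕ) : ℝ)

lemma tc_nonneg {A : Type u} (K : ℕ) (m : Multiset (List A)) (w : List A) : 0 ≤ tc K m w :=
  Nat.cast_nonneg _

lemma tc_le {A : Type u} (K : ℕ) (m : Multiset (List A)) (w : List A) : tc K m w ≤ K := by
  unfold tc
  exact_mod_cast min_le_right _ _

lemma lev_length {A : Type u} [Fintype A] {Q : Type*} [Fintype Q] (δ : Q → A → Q) (D : ℕ) (p : Q)
    (w : List A) (hw : w ∈ lev δ D p) : w.length = D := by
  induction D generalizing p w with
  | zero =>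
    rw [lev, Multiset.mem_singleton] at hw
    subst hw
    rfl
  | succ D ih =>
    rw [lev, Multiset.mem_sum] at hw
    obtain ⟨e, -, he⟩ := hw
    split_ifs at he with h
    · obtain ⟨v, hv, rfl⟩ := Multiset.mem_map.1 he
      simp [ih _ v hv]
    · simp at he

open Classical in
lemma fK_eq {A : Type u} [Fintype A] (D K : ℕ) (m m' : Multiset (List A))
    (hm : ∀ w ∈ m, w.length = D) :
    fK A D K m m' = (∑ u : Fin D → A, tc K m (List.ofFn u) * tc K m' (List.ofFn u)) /
      (Fintype.card A : ℝ) ^ D := by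
  unfold fK
  congr 1
  rw [← sum_image (s := (univ : Finset (Fin D → A))) (g := fun u => List.ofFn u)
    (f := fun w => tc K m w * tc K m' w) (fun x _ y _ h => List.ofFn_injective h)]
  refine sum_subset ?_ ?_
  · intro w hw
    have h1 := hm w (Multiset.mem_toFinset.1 hw)
    refine mem_image.2 ⟨fun i => w[i.val]'(by rw [h1]; exact i.2), mem_univ _, ?_⟩
    apply List.ext_getElem
    · simp [h1]
    · intro i h2 h3
      simp
  · intro w _ hw
    have h1 : m.count w = 0 := Multiset.count_eq_zero.2 fun h => hw (Multiset.mem_toFinset.2 h)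
    simp [h1]

lemma sum_ind {Q V : Type*} [Fintype Q] [Fintype V] (P P' : V → Prop) (r r' : V → Q)
    (F : Q → Q → ℝ) [∀ p q, DecidablePred fun v => P v ∧ P' v ∧ r v = p ∧ r' v = q]
    [DecidablePred fun v => P v ∧ P' v] :
    ∑ p, ∑ q, ((univ.filter fun v => P v ∧ P' v ∧ r v = p ∧ r' v = q).card : ℝ) * F p q =
      ∑ v, if P v ∧ P' v then F (r v) (r' v) else 0 := by
  simp only [card_filter, Nat.cast_sum, sum_mul]
  rw [sum_congr rfl fun p _ => sum_comm, sum_comm]
  refine sum_congr rfl fun v _ => ?_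
  by_cases h : P v ∧ P' v
  · rw [if_pos h, sum_eq_single (r v), sum_eq_single (r' v)]
    · simp [h.1, h.2]
    · intro q _ hq
      rw [if_neg]
      · simp
      · rintro ⟨-, -, -, h4⟩
        exact hq h4.symm
    · simp
    · intro p _ hp
      refine sum_eq_zero fun q _ => ?_
      rw [if_neg]
      · simp
      · rintro ⟨-, -, h3, -⟩
        exact hp h3.symm
    · simp
  · rw [if_neg h]
    refine sum_eq_zero fun p _ => sum_eq_zero fun q _ => ?_
    rw [if_neg]
    · simp
    · rintro ⟨h1, h2, -, -⟩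
      exact h ⟨h1, h2⟩

variable {A : Type u} [Fintype A] {n : ℕ}

open Classical in
/-- the truncated multiplicity of `u` at the end of the word `v` -/
noncomputable def Tv (D K : ℕ) (δ : Fin (n + 1) → A → Fin (n + 1)) (v u : List A) : ℝ :=
  if SA δ 0 v then ((min ((lev δ D (run δ 0 v)).count u) K : ℕ) : ℝ) else 0

lemma Tv_nonneg (D K : ℕ) (δ : Fin (n + 1) → A → Fin (n + 1)) (v u : List A) :
    0 ≤ Tv D K δ v u := by
  unfold Tv
  split_ifs
  · exact Nat.cast_nonneg _
  · exact le_rfl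

open Classical in
lemma cross_pair [Nonempty A] (D K : ℕ) (δ δ' : Fin (n + 1) → A → Fin (n + 1)) :
    (∑ p, ∑ q, gS δ δ' p q * fK A D K (lev δ D p) (lev δ' D q)) / ((n : ℝ) + 1) ^ 2 =
      (∑ v : Fin (MM n) → A, ∑ u : Fin D → A, Tv D K δ (List.ofFn v) (List.ofFn u) *
        Tv D K δ' (List.ofFn v) (List.ofFn u)) /
          ((Fintype.card A : ℝ) ^ MM n * (Fintype.card A : ℝ) ^ D) := by
  have hk : (0 : ℝ) < Fintype.card A := by exact_mod_cast Fintype.card_pos
  have hn : (0 : ℝ) < (n : ℝ) + 1 := by positivity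
  have h1 : ∑ p, ∑ q, gS δ δ' p q * fK A D K (lev δ D p) (lev δ' D q) =
      ((n : ℝ) + 1) ^ 2 / (Fintype.card A : ℝ) ^ MM n *
        ∑ p, ∑ q, ((univ.filter fun v : Fin (MM n) → A => SA δ 0 (List.ofFn v) ∧
          SA δ' 0 (List.ofFn v) ∧ run δ 0 (List.ofFn v) = p ∧
            run δ' 0 (List.ofFn v) = q).card : ℝ) * fK A D K (lev δ D p) (lev δ' D q) := by
    rw [mul_sum]
    refine sum_congr rfl fun p _ => ?_
    rw [mul_sum]
    refine sum_congr rfl fun q _ => ?_
    rw [gS, mul_assoc]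
  rw [h1, sum_ind]
  have h2 : ∀ v : Fin (MM n) → A, (if SA δ 0 (List.ofFn v) ∧ SA δ' 0 (List.ofFn v) then
      fK A D K (lev δ D (run δ 0 (List.ofFn v))) (lev δ' D (run δ' 0 (List.ofFn v))) else 0) =
      (∑ u : Fin D → A, Tv D K δ (List.ofFn v) (List.ofFn u) *
        Tv D K δ' (List.ofFn v) (List.ofFn u)) / (Fintype.card A : ℝ) ^ D := by
    intro v
    by_cases ha : SA δ 0 (List.ofFn v)
    · by_cases hb : SA δ' 0 (List.ofFn v)
      · rw [if_pos ⟨ha, hb⟩, fK_eq D K _ _ (fun w hw => lev_length δ D _ w hw)]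
        simp only [Tv, if_pos ha, if_pos hb, tc]
      · rw [if_neg (fun h => hb h.2)]
        simp [Tv, hb]
    · rw [if_neg (fun h => ha h.1)]
      simp [Tv, ha]
  simp only [h2]
  rw [← sum_div]
  field_simp

/-- average of the product of two truncated multiplicities -/
noncomputable def av (D K : ℕ) (δ : Fin (n + 1) → A → Fin (n + 1)) (u w : List A) : ℝ :=
  (∑ p, tc K (lev δ D p) u * tc K (lev δ D p) w) / ((n : ℝ) + 1)

lemma sq_pair [Nonempty A] (D K : ℕ) (δ δ' : Fin (n + 1) → A → Fin (n + 1)) :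
    (∑ p, ∑ q, fK A D K (lev δ D p) (lev δ' D q) ^ 2) / ((n : ℝ) + 1) ^ 2 =
      (∑ u : Fin D → A, ∑ w : Fin D → A, av D K δ (List.ofFn u) (List.ofFn w) *
        av D K δ' (List.ofFn u) (List.ofFn w)) / (Fintype.card A : ℝ) ^ (2 * D) := by
  have hk : (0 : ℝ) < Fintype.card A := by exact_mod_cast Fintype.card_pos
  have hn : (0 : ℝ) < (n : ℝ) + 1 := by positivity
  have h1 : ∀ p q, fK A D K (lev δ D p) (lev δ' D q) ^ 2 =
      (∑ u : Fin D → A, ∑ w : Fin D → A,
        (tc K (lev δ D p) (List.ofFn u) * tc K (lev δ D p) (List.ofFn w)) *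
        (tc K (lev δ' D q) (List.ofFn u) * tc K (lev δ' D q) (List.ofFn w))) /
          (Fintype.card A : ℝ) ^ (2 * D) := by
    intro p q
    rw [fK_eq D K _ _ (fun w hw => lev_length δ D _ w hw), div_pow, ← pow_mul, mul_comm D 2, sq,
      sum_mul_sum]
    refine congrArg (fun t : ℝ => t / (Fintype.card A : ℝ) ^ (2 * D)) ?_
    refine sum_congr rfl fun u _ => sum_congr rfl fun w _ => ?_
    ring
  simp only [h1]
  simp only [← sum_div]
  rw [div_right_comm]
  refine congrArg (fun t : ℝ => t / (Fintype.card A : ℝ) ^ (2 * D)) ?_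
  rw [div_eq_iff (by positivity)]
  rw [sum_mul]
  calc ∑ p, ∑ q, ∑ u : Fin D → A, ∑ w : Fin D → A,
        (tc K (lev δ D p) (List.ofFn u) * tc K (lev δ D p) (List.ofFn w)) *
        (tc K (lev δ' D q) (List.ofFn u) * tc K (lev δ' D q) (List.ofFn w))
      = ∑ u : Fin D → A, ∑ w : Fin D → A, ∑ p, ∑ q,
        (tc K (lev δ D p) (List.ofFn u) * tc K (lev δ D p) (List.ofFn w)) *
        (tc K (lev δ' D q) (List.ofFn u) * tc K (lev δ' D q) (List.ofFn w)) := by
        rw [sum_congr rfl fun p _ => sum_comm, sum_comm]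
        refine sum_congr rfl fun u _ => ?_
        rw [sum_congr rfl fun p _ => sum_comm, sum_comm]
    _ = _ := by
        refine sum_congr rfl fun u _ => ?_
        rw [sum_mul]
        refine sum_congr rfl fun w _ => ?_
        unfold av
        rw [← sum_mul_sum]
        field_simp

end trunc

section lower

variable {A : Type u} [Fintype A]

omit [Fintype A] in
lemma ofFn_rev {D : ℕ} (y : Fin D → A) :
    List.ofFn (fun i => y (Fin.rev i)) = (List.ofFn y).reverse := by
  apply List.ext_getElem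
  · simp
  · intro i h1 h2
    simp only [List.getElem_ofFn, List.getElem_reverse, List.length_ofFn, Fin.rev]
    congr 2
    omega

lemma cross_lower [Nonempty A] (M D : ℕ) (hM : D ≤ M) (T R : List A → List A → ℝ) (B η : ℝ)
    (hη : 0 ≤ η) (hR0 : ∀ w u, 0 ≤ R w u) (hR1 : ∀ w u, R w u ≤ B) (hT0 : ∀ v u, 0 ≤ T v u)
    (h : ∀ (w u : Fin D → A) (v : List A), v.length = M → (List.ofFn w).reverse <:+ v →
      R (List.ofFn w) (List.ofFn u) - η ≤ T v (List.ofFn u)) :
    (∑ w : Fin D → A, ∑ u : Fin D → A, R (List.ofFn w) (List.ofFn u) ^ 2) /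
      (Fintype.card A : ℝ) ^ (2 * D) - 2 * η * B ≤
      (∑ v : Fin M → A, ∑ u : Fin D → A, T (List.ofFn v) (List.ofFn u) ^ 2) /
        ((Fintype.card A : ℝ) ^ M * (Fintype.card A : ℝ) ^ D) := by
  have hk : (0 : ℝ) < Fintype.card A := by exact_mod_cast Fintype.card_pos
  obtain ⟨a, rfl⟩ := Nat.exists_eq_add_of_le' hM
  set k : ℝ := (Fintype.card A : ℝ) with hkdef
  have key : ∀ (x : Fin a → A) (y u : Fin D → A),
      R (List.ofFn y).reverse (List.ofFn u) ^ 2 - 2 * η * B ≤
        T (List.ofFn x ++ List.ofFn y) (List.ofFn u) ^ 2 := by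
    intro x y u
    have h1 := h (fun i => y (Fin.rev i)) u (List.ofFn x ++ List.ofFn y) (by simp)
      (by rw [ofFn_rev, List.reverse_reverse]; exact List.suffix_append _ _)
    rw [ofFn_rev] at h1
    have h2 := hR0 (List.ofFn y).reverse (List.ofFn u)
    have h3 := hR1 (List.ofFn y).reverse (List.ofFn u)
    have h4 := hT0 (List.ofFn x ++ List.ofFn y) (List.ofFn u)
    set r := R (List.ofFn y).reverse (List.ofFn u)
    set t := T (List.ofFn x ++ List.ofFn y) (List.ofFn u)
    by_cases h5 : η ≤ r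
    · linarith only [mul_nonneg hη (sub_nonneg.2 h3),
        mul_nonneg (sub_nonneg.2 h1) (add_nonneg h4 (sub_nonneg.2 h5)), sq_nonneg η]
    · linarith only [mul_nonneg hη (sub_nonneg.2 h3), sq_nonneg t,
        mul_nonneg h2 (sub_nonneg.2 (not_le.1 h5).le), mul_nonneg hη h2]
  have h6 : ∑ v : Fin (a + D) → A, ∑ u : Fin D → A, T (List.ofFn v) (List.ofFn u) ^ 2 =
      ∑ x : Fin a → A, ∑ y : Fin D → A, ∑ u : Fin D → A,
        T (List.ofFn x ++ List.ofFn y) (List.ofFn u) ^ 2 :=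
    sum_append a D (fun v => ∑ u : Fin D → A, T v (List.ofFn u) ^ 2)
  have h7 : k ^ a * ((∑ w : Fin D → A, ∑ u : Fin D → A, R (List.ofFn w) (List.ofFn u) ^ 2) -
      k ^ (2 * D) * (2 * η * B)) ≤ ∑ x : Fin a → A, ∑ y : Fin D → A, ∑ u : Fin D → A,
        T (List.ofFn x ++ List.ofFn y) (List.ofFn u) ^ 2 := by
    calc k ^ a * ((∑ w : Fin D → A, ∑ u : Fin D → A, R (List.ofFn w) (List.ofFn u) ^ 2) -
          k ^ (2 * D) * (2 * η * B))
        = ∑ x : Fin a → A, ∑ y : Fin D → A, ∑ u : Fin D → A,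
          (R (List.ofFn y).reverse (List.ofFn u) ^ 2 - 2 * η * B) := by
          rw [← sum_reverse D (fun w => ∑ u : Fin D → A, R w (List.ofFn u) ^ 2)]
          simp only [sum_sub_distrib, sum_const, card_univ, nsmul_eq_mul, Fintype.card_pi,
            prod_const, Fintype.card_fin]
          push_cast
          rw [← hkdef]
          ring
      _ ≤ _ := sum_le_sum fun x _ => sum_le_sum fun y _ => sum_le_sum fun u _ => key x y u
  rw [h6]
  rw [le_div_iff₀ (by positivity)]
  refine le_trans (le_of_eq ?_) h7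
  have h8 : k ^ (2 * D) = k ^ D * k ^ D := by rw [two_mul, pow_add]
  rw [pow_add, h8]
  field_simp

end lower

/-! ### limits -/

section limits

variable (A : Type u) [Fintype A] [Nonempty A]

/-- truncated mixed second moment of the limiting tree -/
noncomputable def RR (D K : ℕ) (w u : List A) : ℝ :=
  open Classical in
  (ex (mu A D) fun m => ((min (m.count w) K * min (m.count u) K : ℕ) : ℝ≥0∞)).toReal

variable {A}

lemma mu_summable (D : ℕ) : Summable fun τ => (mu A D τ).toReal :=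
  ENNReal.summable_toReal (by rw [(mu A D).tsum_coe]; exact ENNReal.one_ne_top)

lemma mu_tsum (D : ℕ) : ∑' τ, (mu A D τ).toReal = 1 := by
  rw [← ENNReal.tsum_toReal_eq (fun τ => (mu A D).apply_ne_top τ), (mu A D).tsum_coe,
    ENNReal.toReal_one]

lemma ex_toReal (D : ℕ) (f : Multiset (List A) → ℕ) :
    (ex (mu A D) fun m => (f m : ℝ≥0∞)).toReal = ∑' τ, (mu A D τ).toReal * (f τ : ℝ) := by
  unfold ex
  rw [ENNReal.tsum_toReal_eq]
  · congr 1
    funext τ
    rw [ENNReal.toReal_mul, ENNReal.toReal_natCast]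
  · intro τ
    exact ENNReal.mul_ne_top ((mu A D).apply_ne_top τ) (ENNReal.natCast_ne_top _)

lemma RR_eq (D K : ℕ) (w u : List A) :
    RR A D K w u = ∑' τ, (mu A D τ).toReal * (tc K τ w * tc K τ u) := by
  unfold RR
  rw [ex_toReal]
  simp only [tc]
  push_cast
  rfl

lemma RR_nonneg (D K : ℕ) (w u : List A) : 0 ≤ RR A D K w u := ENNReal.toReal_nonneg

omit [Fintype A] [Nonempty A] in
lemma tc_mul_le (K : ℕ) (τ : Multiset (List A)) (w u : List A) :
    tc K τ w * tc K τ u ≤ (K : ℝ) ^ 2 := by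
  rw [sq]
  exact mul_le_mul (tc_le _ _ _) (tc_le _ _ _) (tc_nonneg _ _ _) (Nat.cast_nonneg _)

lemma RR_le (D K : ℕ) (w u : List A) : RR A D K w u ≤ (K : ℝ) ^ 2 := by
  rw [RR_eq]
  have h1 : HasSum (fun τ => (mu A D τ).toReal * (K : ℝ) ^ 2) (1 * (K : ℝ) ^ 2) := by
    refine HasSum.mul_right _ ?_
    have := (mu_summable (A := A) D).hasSum
    rwa [mu_tsum] at this
  rw [one_mul] at h1
  refine le_trans (le_abs_self _) ?_
  rw [← Real.norm_eq_abs]
  refine tsum_of_norm_bounded h1 fun τ => ?_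
  rw [Real.norm_eq_abs, abs_of_nonneg]
  · exact mul_le_mul_of_nonneg_left (tc_mul_le K τ w u) ENNReal.toReal_nonneg
  · exact mul_nonneg ENNReal.toReal_nonneg (mul_nonneg (tc_nonneg _ _ _) (tc_nonneg _ _ _))

lemma tsum_diff_le {ι : Type*} {f g h : ι → ℝ} {B : ℝ} (hf : Summable f) (hg : Summable g)
    (hh0 : ∀ i, 0 ≤ h i) (hh : ∀ i, h i ≤ B) :
    |(∑' i, f i * h i) - ∑' i, g i * h i| ≤ B * ∑' i, |f i - g i| := by
  have habs : ∀ i, |h i| ≤ B := fun i => by rw [abs_of_nonneg (hh0 i)]; exact hh i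
  have sf : Summable fun i => f i * h i := by
    refine Summable.of_norm_bounded (g := fun i => |f i| * B) (hf.abs.mul_right B) fun i => ?_
    rw [Real.norm_eq_abs, abs_mul]
    exact mul_le_mul_of_nonneg_left (habs i) (abs_nonneg _)
  have sg : Summable fun i => g i * h i := by
    refine Summable.of_norm_bounded (g := fun i => |g i| * B) (hg.abs.mul_right B) fun i => ?_
    rw [Real.norm_eq_abs, abs_mul]
    exact mul_le_mul_of_nonneg_left (habs i) (abs_nonneg _)
  rw [← sf.tsum_sub sg]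
  have h1 : HasSum (fun i => B * |f i - g i|) (B * ∑' i, |f i - g i|) :=
    ((hf.sub hg).abs.hasSum).mul_left B
  rw [← Real.norm_eq_abs]
  refine tsum_of_norm_bounded h1 fun i => ?_
  rw [Real.norm_eq_abs, ← sub_mul, abs_mul, mul_comm]
  exact mul_le_mul_of_nonneg_right (habs i) (abs_nonneg _)

omit [Nonempty A] in
open Classical in
lemma fr_support {n : ℕ} (δ : Fin (n + 1) → A → Fin (n + 1)) (D : ℕ) (τ : Multiset (List A))
    (hτ : τ ∉ univ.image (lev δ D)) : fr δ D τ = 0 := by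
  unfold fr
  have : (univ.filter fun p => lev δ D p = τ) = ∅ := by
    rw [filter_eq_empty_iff]
    intro p _ hp
    exact hτ (mem_image.2 ⟨p, mem_univ _, hp⟩)
  rw [this]
  simp

omit [Nonempty A] in
open Classical in
lemma fr_summable {n : ℕ} (δ : Fin (n + 1) → A → Fin (n + 1)) (D : ℕ) : Summable (fr δ D) :=
  summable_of_ne_finset_zero (s := univ.image (lev δ D)) fun τ hτ => fr_support δ D τ hτ

omit [Nonempty A] in
open Classical in
lemma av_eq {n : ℕ} (D K : ℕ) (δ : Fin (n + 1) → A → Fin (n + 1)) (u w : List A) :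
    av D K δ u w = ∑' τ, fr δ D τ * (tc K τ u * tc K τ w) := by
  rw [tsum_eq_sum (s := univ.image (lev δ D)) fun τ hτ => by rw [fr_support δ D τ hτ, zero_mul]]
  unfold av
  rw [← sum_fiberwise_of_maps_to (s := univ) (t := univ.image (lev δ D)) (g := lev δ D)
    (fun p hp => mem_image_of_mem _ hp), sum_div]
  refine sum_congr rfl fun τ _ => ?_
  rw [sum_congr rfl fun p hp => by rw [(mem_filter.1 hp).2]]
  rw [sum_const, nsmul_eq_mul]
  unfold fr
  ring

lemma av_sub_le {n : ℕ} (D K : ℕ) (δ : Fin (n + 1) → A → Fin (n + 1)) (u w : List A) :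
    |av D K δ u w - RR A D K u w| ≤ (K : ℝ) ^ 2 * ∑' τ, |fr δ D τ - (mu A D τ).toReal| := by
  rw [av_eq, RR_eq]
  exact tsum_diff_le (fr_summable δ D) (mu_summable D)
    (fun τ => mul_nonneg (tc_nonneg _ _ _) (tc_nonneg _ _ _)) (fun τ => tc_mul_le K τ u w)

lemma av_tendsto (D K : ℕ) (u w : List A)
    (hloc : Tendsto (fun n : ℕ => ES A n fun δ => ∑' τ, |fr δ D τ - (mu A D τ).toReal|)
      atTop (𝓝 0)) :
    Tendsto (fun n : ℕ => ES A n fun δ => av D K δ u w) atTop (𝓝 (RR A D K u w)) := by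
  rw [tendsto_iff_dist_tendsto_zero]
  refine squeeze_zero (fun n => dist_nonneg) (fun n => ?_)
    (by simpa using hloc.const_mul ((K : ℝ) ^ 2))
  rw [Real.dist_eq]
  calc |ES A n (fun δ => av D K δ u w) - RR A D K u w|
      = |ES A n (fun δ => av D K δ u w - RR A D K u w)| := by rw [ES_sub, ES_const]
    _ ≤ ES A n (fun δ => |av D K δ u w - RR A D K u w|) := ES_abs n _
    _ ≤ ES A n (fun δ => (K : ℝ) ^ 2 * ∑' τ, |fr δ D τ - (mu A D τ).toReal|) :=
        ES_mono n fun δ => av_sub_le D K δ u w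
    _ = _ := ES_mul_left n _ _

open Classical in
lemma RR_tendsto (hk : 2 ≤ Fintype.card A) (D : ℕ) (w u : List A) (hw : w.length = D)
    (hu : u.length = D) :
    Tendsto (fun K => RR A D K w u) atTop
      (𝓝 ((if w = u then 1 else 0) + nu (Fintype.card A) * (lv D w u : ℕ))) := by
  have hmom := ex_mu_count_mul A hk D w u hw hu
  have hν := (nu_spec hk).1.le
  have hfin : ex (mu A D) (fun m => (m.count w : ℝ≥0∞) * m.count u) ≠ ⊤ := by
    rw [hmom]
    refine ENNReal.add_ne_top.2 ⟨?_, ?_⟩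
    · split_ifs <;> simp
    · exact ENNReal.mul_ne_top ENNReal.ofReal_ne_top (ENNReal.natCast_ne_top _)
  have hval : (ex (mu A D) (fun m => (m.count w : ℝ≥0∞) * m.count u)).toReal =
      (if w = u then 1 else 0) + nu (Fintype.card A) * (lv D w u : ℕ) := by
    rw [hmom, ENNReal.toReal_add, ENNReal.toReal_mul, ENNReal.toReal_ofReal hν,
      ENNReal.toReal_natCast]
    · unfold lv
      split_ifs <;> simp
    · split_ifs <;> simp
    · exact ENNReal.mul_ne_top ENNReal.ofReal_ne_top (ENNReal.natCast_ne_top _)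
  have hcast : (fun m : Multiset (List A) => (m.count w : ℝ≥0∞) * m.count u) =
      fun m => ((m.count w * m.count u : ℕ) : ℝ≥0∞) := by
    funext m
    push_cast
    rfl
  rw [← hval, hcast, ex_toReal]
  have hsum : Summable fun τ => (mu A D τ).toReal * ((τ.count w * τ.count u : ℕ) : ℝ) := by
    have h1 : (fun τ => (mu A D τ).toReal * ((τ.count w * τ.count u : ℕ) : ℝ)) =
        fun τ => (mu A D τ * ((τ.count w : ℝ≥0∞) * τ.count u)).toReal := by
      funext τ
      rw [ENNReal.toReal_mul, ENNReal.toReal_mul, ENNReal.toReal_natCast, ENNReal.toReal_natCast]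
      push_cast
      rfl
    rw [h1]
    exact ENNReal.summable_toReal hfin
  simp only [RR_eq]
  refine tendsto_tsum_of_dominated_convergence hsum ?_ ?_
  · intro τ
    refine Tendsto.congr' (f₁ := fun _ => (mu A D τ).toReal * ((τ.count w * τ.count u : ℕ) : ℝ))
      ?_ tendsto_const_nhds
    filter_upwards [eventually_ge_atTop (max (τ.count w) (τ.count u))] with K hK
    simp only [tc]
    rw [min_eq_left ((le_max_left _ _).trans hK), min_eq_left ((le_max_right _ _).trans hK)]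
    push_cast
    rfl
  · refine Eventually.of_forall fun K τ => ?_
    rw [Real.norm_eq_abs, abs_of_nonneg
      (mul_nonneg ENNReal.toReal_nonneg (mul_nonneg (tc_nonneg _ _ _) (tc_nonneg _ _ _)))]
    refine mul_le_mul_of_nonneg_left ?_ ENNReal.toReal_nonneg
    simp only [tc]
    rw [← Nat.cast_mul]
    exact_mod_cast Nat.mul_le_mul (min_le_left _ _) (min_le_left _ _)

end limits

section main

variable (A : Type u) [Fintype A] [Nonempty A]

lemma MM_tendsto (D : ℕ) : ∀ᶠ n in atTop, D ≤ MM n := by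
  filter_upwards [eventually_ge_atTop (2 ^ D)] with n hn
  unfold MM
  have : D ≤ Nat.log 2 (n + 1) := Nat.le_log_of_pow_le (by norm_num) (by omega)
  omega

/-- the norm of the truncated limiting density -/
noncomputable def Cr (D K : ℕ) : ℝ :=
  (∑ w : Fin D → A, ∑ u : Fin D → A, RR A D K (List.ofFn w) (List.ofFn u) ^ 2) /
      (Fintype.card A : ℝ) ^ (2 * D)

lemma Cr_ge (hk : 2 ≤ Fintype.card A) (D : ℕ) (ε : ℝ) (hε : 0 < ε) :
    ∃ K₀ : ℕ, ∀ K ≥ K₀, (∑ j ∈ range D, (1 - 1 / (Fintype.card A : ℝ)) /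
      (Fintype.card A : ℝ) ^ j * (nu (Fintype.card A) * (1 + j)) ^ 2) - ε ≤ Cr A D K := by
  classical
  have hlim : Tendsto (fun K => Cr A D K) atTop
      (𝓝 ((∑ u : Fin D → A, ∑ w : Fin D → A, ((if u = w then (1 : ℝ) else 0) +
        nu (Fintype.card A) * (lv D (List.ofFn u) (List.ofFn w) : ℕ)) ^ 2) /
          (Fintype.card A : ℝ) ^ (2 * D))) := by
    unfold Cr
    refine Tendsto.div_const ?_ _
    refine tendsto_finsetSum _ fun w _ => tendsto_finsetSum _ fun u _ => ?_
    refine Tendsto.pow ?_ 2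
    have h1 := RR_tendsto hk D (List.ofFn w) (List.ofFn u) (by simp) (by simp)
    have h2 : (List.ofFn w = List.ofFn u) ↔ w = u := List.ofFn_inj
    simpa only [h2] using h1
  have hge := sum_lv_ge (A := A) D (nu (Fintype.card A)) (nu_spec hk).1.le
  have h3 := (hlim.eventually (lt_mem_nhds (sub_lt_self _ hε)))
  obtain ⟨K₀, hK₀⟩ := eventually_atTop.1 h3
  refine ⟨K₀, fun K hK => ?_⟩
  have h4 := hK₀ K hK
  linarith

lemma expand (n D K : ℕ) :
    ES A n (fun δ => ES A n fun δ' =>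
        (∑ p, ∑ q, (gS δ δ' p q - fK A D K (lev δ D p) (lev δ' D q)) ^ 2) / ((n : ℝ) + 1) ^ 2) =
      ES A n (fun δ => ES A n fun δ' => (∑ p, ∑ q, (gS δ δ' p q) ^ 2) / ((n : ℝ) + 1) ^ 2) -
      2 * ((∑ v : Fin (MM n) → A, ∑ u : Fin D → A,
        (ES A n fun δ => Tv D K δ (List.ofFn v) (List.ofFn u)) ^ 2) /
          ((Fintype.card A : ℝ) ^ MM n * (Fintype.card A : ℝ) ^ D)) +
      (∑ u : Fin D → A, ∑ w : Fin D → A,
        (ES A n fun δ => av D K δ (List.ofFn u) (List.ofFn w)) ^ 2) /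
          (Fintype.card A : ℝ) ^ (2 * D) := by
  have h1 : ∀ δ δ' : Fin (n + 1) → A → Fin (n + 1),
      (∑ p, ∑ q, (gS δ δ' p q - fK A D K (lev δ D p) (lev δ' D q)) ^ 2) / ((n : ℝ) + 1) ^ 2 =
      (∑ p, ∑ q, (gS δ δ' p q) ^ 2) / ((n : ℝ) + 1) ^ 2 -
      2 * ((∑ v : Fin (MM n) → A, ∑ u : Fin D → A, Tv D K δ (List.ofFn v) (List.ofFn u) *
        Tv D K δ' (List.ofFn v) (List.ofFn u)) /
          ((Fintype.card A : ℝ) ^ MM n * (Fintype.card A : ℝ) ^ D)) +
      (∑ u : Fin D → A, ∑ w : Fin D → A, av D K δ (List.ofFn u) (List.ofFn w) *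
        av D K δ' (List.ofFn u) (List.ofFn w)) / (Fintype.card A : ℝ) ^ (2 * D) := by
    intro δ δ'
    rw [← cross_pair, ← sq_pair, ← mul_div_assoc, ← sub_div, ← add_div]
    refine congrArg (fun t : ℝ => t / ((n : ℝ) + 1) ^ 2) ?_
    rw [mul_sum, ← sum_sub_distrib, ← sum_add_distrib]
    refine sum_congr rfl fun p _ => ?_
    rw [mul_sum, ← sum_sub_distrib, ← sum_add_distrib]
    refine sum_congr rfl fun q _ => ?_
    ring
  simp only [h1, ES_add, ES_sub, ES_mul_left, ES_div, ES_sum]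
  simp only [ES_mul_right, sq]

open Classical in
/-- the core argument, with its three inputs as hypotheses -/
theorem L2_close_of (hk : 2 ≤ Fintype.card A)
    (hloc : ∀ D : ℕ, Tendsto (fun n : ℕ => ES A n fun δ => ∑' τ, |fr δ D τ - (mu A D τ).toReal|)
      atTop (𝓝 0))
    (hup : ∀ ε : ℝ, 0 < ε → ∃ D₁ : ℕ, ∀ D ≥ D₁, ∀ᶠ n in atTop,
      ES A n (fun δ => ES A n fun δ' => (∑ p, ∑ q, (gS δ δ' p q) ^ 2) / ((n : ℝ) + 1) ^ 2) ≤
        (∑ j ∈ range D, (1 - 1 / (Fintype.card A : ℝ)) / (Fintype.card A : ℝ) ^ j *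
          (nu (Fintype.card A) * (1 + j)) ^ 2) + ε)
    (hcr : ∀ (D K : ℕ) (u w : List A), u.length = D → w.length = D → ∀ ε : ℝ, 0 < ε →
      ∀ᶠ n in atTop, ∀ v : List A, v.length = MM n → w.reverse <:+ v →
        (ex (mu A D) fun m => ((min (m.count w) K * min (m.count u) K : ℕ) : ℝ≥0∞)).toReal - ε ≤
          ES A n (fun δ => if SA δ 0 v then ((min ((lev δ D (run δ 0 v)).count u) K : ℕ) : ℝ)
            else 0))
    (ε : ℝ) (hε : 0 < ε) :
    ∃ D₀ : ℕ, ∀ D ≥ D₀, ∃ K₀ : ℕ, ∀ K ≥ K₀, ∀ᶠ n in atTop,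
      ES A n (fun δ => ES A n fun δ' =>
        (∑ p, ∑ q, (gS δ δ' p q - fK A D K (lev δ D p) (lev δ' D q)) ^ 2) / ((n : ℝ) + 1) ^ 2) ≤
          ε := by
  obtain ⟨D₁, hD₁⟩ := hup (ε / 4) (by linarith)
  refine ⟨D₁, fun D hD => ?_⟩
  obtain ⟨K₀, hK₀⟩ := Cr_ge A hk D (ε / 4) (by linarith)
  refine ⟨K₀, fun K hK => ?_⟩
  have hCr := hK₀ K hK
  set η : ℝ := ε / (16 * ((K : ℝ) ^ 2 + 1)) with hηdef
  have hη : 0 < η := by positivity
  have hη2 : 4 * η * (K : ℝ) ^ 2 ≤ ε / 4 := by
    rw [hηdef, show 4 * (ε / (16 * ((K : ℝ) ^ 2 + 1))) * (K : ℝ) ^ 2 =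
      (ε / 4) * ((K : ℝ) ^ 2 / ((K : ℝ) ^ 2 + 1)) by field_simp; ring]
    have : (K : ℝ) ^ 2 / ((K : ℝ) ^ 2 + 1) ≤ 1 := by
      rw [div_le_one (by positivity)]
      linarith
    exact mul_le_of_le_one_right (by linarith only [hε]) this
  -- the cross term
  have h1 : ∀ᶠ n in atTop, ∀ (w u : Fin D → A) (v : List A), v.length = MM n →
      (List.ofFn w).reverse <:+ v → RR A D K (List.ofFn w) (List.ofFn u) - η ≤
        ES A n (fun δ => Tv D K δ v (List.ofFn u)) := by
    rw [eventually_all]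
    intro w
    rw [eventually_all]
    intro u
    exact hcr D K (List.ofFn u) (List.ofFn w) (by simp) (by simp) η hη
  -- the norm of the local density
  have h2 : Tendsto (fun n : ℕ => (∑ u : Fin D → A, ∑ w : Fin D → A,
        (ES A n fun δ => av D K δ (List.ofFn u) (List.ofFn w)) ^ 2) /
          (Fintype.card A : ℝ) ^ (2 * D)) atTop (𝓝 (Cr A D K)) := by
    unfold Cr
    refine Tendsto.div_const ?_ _
    refine tendsto_finsetSum _ fun w _ => tendsto_finsetSum _ fun u _ => ?_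
    exact (av_tendsto D K (List.ofFn w) (List.ofFn u) (hloc D)).pow 2
  have h3 := h2.eventually (gt_mem_nhds (show Cr A D K < Cr A D K + ε / 4 by linarith))
  filter_upwards [h1, h3, hD₁ D hD, MM_tendsto D] with n hn1 hn2 hn3 hn4
  rw [expand]
  have h5 := cross_lower (A := A) (MM n) D hn4
    (fun v u => ES A n (fun δ => Tv D K δ v u)) (fun w u => RR A D K w u) ((K : ℝ) ^ 2) η hη.le
    (fun w u => RR_nonneg D K w u) (fun w u => RR_le D K w u)
    (fun v u => ES_nonneg n fun δ => Tv_nonneg D K δ v u) hn1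
  have h6 : Cr A D K - 2 * η * (K : ℝ) ^ 2 ≤ _ := h5
  linarith

end main

end Cl

end Pool.Agent.SC
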