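import Pool.Agent.W_MP_6663ab_lc.SDefs

/-!
# Collisions of two words (clean double switching)

For two different words of the same length the number of surjective structures in which both
words are self-avoiding and lead to the same state is bounded by the expected number of pairs of
edges with a common target.
-/

namespace Pool.Agent.SC

open Finset Filter
open scoped ENNReal Topology

universe u v

section swp
variable {A : Type u} {Q : Type v}

open Classical in
/-- exchange the targets of the edges `e` and `f` -/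
noncomputable def swp (δ : Q → A → Q) (e f : Q × A) : Q → A → Q :=
  fun q c => δ (Equiv.swap e f (q, c)).1 (Equiv.swap e f (q, c)).2

lemma swp_left (δ : Q → A → Q) (e f : Q × A) : swp δ e f e.1 e.2 = δ f.1 f.2 := by
  simp [swp]

lemma swp_right (δ : Q → A → Q) (e f : Q × A) : swp δ e f f.1 f.2 = δ e.1 e.2 := by
  simp [swp]

lemma swp_ne {δ : Q → A → Q} {e f : Q × A} {q : Q} {c : A} (h1 : (q, c) ≠ e) (h2 : (q, c) ≠ f) :
    swp δ e f q c = δ q c := by
  classical
  simp only [swp]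
  rw [Equiv.swap_apply_of_ne_of_ne h1 h2]

lemma swp_swp (δ : Q → A → Q) (e f : Q × A) : swp (swp δ e f) e f = δ := by
  funext q c
  simp [swp]

lemma isSur_swp {q₀ : Q} {δ : Q → A → Q} (h : IsSur q₀ δ) (e f : Q × A) :
    IsSur q₀ (swp δ e f) := by
  classical
  intro p hp
  obtain ⟨s, a, hs⟩ := h p hp
  refine ⟨(Equiv.swap e f (s, a)).1, (Equiv.swap e f (s, a)).2, ?_⟩
  simp [swp, hs]

/-- a run that does not use the exchanged edges is unchanged -/
lemma run_swp_swp {δ : Q → A → Q} {e f e' f' : Q × A} {q : Q} {x : List A}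
    (h : ∀ s c t, x = s ++ c :: t → (run δ q s, c) ≠ e ∧ (run δ q s, c) ≠ f ∧
      (run δ q s, c) ≠ e' ∧ (run δ q s, c) ≠ f') :
    run (swp (swp δ e f) e' f') q x = run δ q x := by
  apply run_congr
  intro s c t hs
  obtain ⟨h1, h2, h3, h4⟩ := h s c t hs
  rw [swp_ne h3 h4, swp_ne h1 h2]

end swp

section coll
variable {A : Type u} {Q : Type v} [Fintype A] [Fintype Q]

open Classical in
/-- structures in which the two given words merge at their last letter -/
noncomputable def SMrg (q₀ : Q) (x : List A) (a : A) (y : List A) (b : A) : Finset (Q → A → Q) :=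
  (Sur A q₀).filter fun δ => SA δ q₀ (x ++ [a]) ∧ SA δ q₀ (y ++ [b]) ∧
    run δ q₀ (x ++ [a]) = run δ q₀ (y ++ [b]) ∧ (run δ q₀ x, a) ≠ (run δ q₀ y, b)

lemma mem_SMrg {q₀ : Q} {x : List A} {a : A} {y : List A} {b : A} {δ : Q → A → Q} :
    δ ∈ SMrg q₀ x a y b ↔ IsSur q₀ δ ∧ SA δ q₀ (x ++ [a]) ∧ SA δ q₀ (y ++ [b]) ∧
      run δ q₀ (x ++ [a]) = run δ q₀ (y ++ [b]) ∧ (run δ q₀ x, a) ≠ (run δ q₀ y, b) := by
  classical
  simp [SMrg, Sur]

open Classical in
/-- the states not visited by the two runs -/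
noncomputable def Unv (q₀ : Q) (x y : List A) (δ : Q → A → Q) : Finset Q :=
  univ \ ((range (x.length + 1)).image (fun i => run δ q₀ (x.take i)) ∪
    (range (y.length + 1)).image (fun i => run δ q₀ (y.take i)))

open Classical in
lemma mem_Unv_left {q₀ : Q} {x y : List A} {δ : Q → A → Q} {t : Q} (h : t ∈ Unv q₀ x y δ)
    {s w : List A} (hs : x = s ++ w) : t ≠ run δ q₀ s := by
  rintro rfl
  rw [Unv, Finset.mem_sdiff] at h
  apply h.2
  rw [mem_union]
  left
  rw [mem_image]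
  refine ⟨s.length, ?_, ?_⟩
  · rw [mem_range, hs]; simp
  · rw [hs]; simp

open Classical in
lemma mem_Unv_right {q₀ : Q} {x y : List A} {δ : Q → A → Q} {t : Q} (h : t ∈ Unv q₀ x y δ)
    {s w : List A} (hs : y = s ++ w) : t ≠ run δ q₀ s := by
  rintro rfl
  rw [Unv, Finset.mem_sdiff] at h
  apply h.2
  rw [mem_union]
  right
  rw [mem_image]
  refine ⟨s.length, ?_, ?_⟩
  · rw [mem_range, hs]; simp
  · rw [hs]; simp

open Classical in
omit [Fintype A] in
lemma card_Unv (q₀ : Q) (x y : List A) (δ : Q → A → Q) :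
    Fintype.card Q ≤ (Unv q₀ x y δ).card + (x.length + 1 + (y.length + 1)) := by
  have h1 := card_le_card_sdiff_add_card (t := ((range (x.length + 1)).image
    (fun i => run δ q₀ (x.take i)) ∪
    (range (y.length + 1)).image (fun i => run δ q₀ (y.take i)))) (s := (univ : Finset Q))
  rw [card_univ] at h1
  refine h1.trans ?_
  rw [Unv]
  refine Nat.add_le_add_left ((card_union_le _ _).trans ?_) _
  exact add_le_add (card_image_le.trans (by simp)) (card_image_le.trans (by simp))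

/-- the double switching -/
lemma dsw_spec {q₀ : Q} {x : List A} {a : A} {y : List A} {b : A} {δ : Q → A → Q}
    (hδ : δ ∈ SMrg q₀ x a y b) {t₁ t₂ : Q} (h1 : t₁ ∈ Unv q₀ x y δ) (h2 : t₂ ∈ Unv q₀ x y δ)
    (h12 : t₁ ≠ t₂) {δ' : Q → A → Q}
    (hδ' : δ' = swp (swp δ (run δ q₀ x, a) (t₁, a)) (run δ q₀ y, b) (t₂, b)) :
    run δ' q₀ x = run δ q₀ x ∧ run δ' q₀ y = run δ q₀ y ∧ IsSur q₀ δ' ∧ δ' t₁ a = δ' t₂ b := by
  rw [mem_SMrg] at hδ
  obtain ⟨hS, hx, hy, hr, hne⟩ := hδ
  have hx1 : ∀ {s w : List A}, x = s ++ w → t₁ ≠ run δ q₀ s := fun h => mem_Unv_left h1 h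
  have hx2 : ∀ {s w : List A}, x = s ++ w → t₂ ≠ run δ q₀ s := fun h => mem_Unv_left h2 h
  have hy1 : ∀ {s w : List A}, y = s ++ w → t₁ ≠ run δ q₀ s := fun h => mem_Unv_right h1 h
  have hy2 : ∀ {s w : List A}, y = s ++ w → t₂ ≠ run δ q₀ s := fun h => mem_Unv_right h2 h
  have ey1 : t₁ ≠ run δ q₀ y := hy1 (w := []) (by simp)
  have rx : δ (run δ q₀ x) a = run δ q₀ (x ++ [a]) := (run_concat _ _ _ _).symm
  have ry : δ (run δ q₀ y) b = run δ q₀ (y ++ [b]) := (run_concat _ _ _ _).symm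
  subst hδ'
  refine ⟨?_, ?_, isSur_swp (isSur_swp hS _ _) _ _, ?_⟩
  · apply run_swp_swp
    intro s c t hs
    refine ⟨?_, ?_, ?_, ?_⟩
    · intro h
      have h3 := (Prod.ext_iff.1 h).1
      simp only at h3
      refine hx s (c :: t) [a] (by rw [hs]) (by simp) ?_
      rw [h3, hs]
    · intro h
      exact hx1 hs (Prod.ext_iff.1 h).1.symm
    · intro h
      obtain ⟨h3, h4⟩ := Prod.ext_iff.1 h
      simp only at h3 h4
      refine hx (s ++ [c]) (t ++ [a]) [] (by rw [hs]; simp) (by simp) ?_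
      have h5 : s ++ [c] ++ (t ++ [a]) = x ++ [a] := by rw [hs]; simp
      rw [h5, run_concat, h3, h4, ry, hr]
    · intro h
      exact hx2 hs (Prod.ext_iff.1 h).1.symm
  · apply run_swp_swp
    intro s c t hs
    refine ⟨?_, ?_, ?_, ?_⟩
    · intro h
      obtain ⟨h3, h4⟩ := Prod.ext_iff.1 h
      simp only at h3 h4
      refine hy (s ++ [c]) (t ++ [b]) [] (by rw [hs]; simp) (by simp) ?_
      have h5 : s ++ [c] ++ (t ++ [b]) = y ++ [b] := by rw [hs]; simp
      rw [h5, run_concat, h3, h4, rx, hr]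
    · intro h
      exact hy1 hs (Prod.ext_iff.1 h).1.symm
    · intro h
      have h3 := (Prod.ext_iff.1 h).1
      simp only at h3
      refine hy s (c :: t) [b] (by rw [hs]) (by simp) ?_
      rw [h3, hs]
    · intro h
      exact hy2 hs (Prod.ext_iff.1 h).1.symm
  · have e1 : swp (swp δ (run δ q₀ x, a) (t₁, a)) (run δ q₀ y, b) (t₂, b) t₁ a =
        δ (run δ q₀ x) a := by
      rw [swp_ne]
      · exact swp_right δ (run δ q₀ x, a) (t₁, a)
      · intro h; exact ey1 (Prod.ext_iff.1 h).1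
      · intro h; exact h12 (Prod.ext_iff.1 h).1
    have e2 : swp (swp δ (run δ q₀ x, a) (t₁, a)) (run δ q₀ y, b) (t₂, b) t₂ b =
        δ (run δ q₀ y) b := by
      rw [swp_right (swp δ (run δ q₀ x, a) (t₁, a)) (run δ q₀ y, b) (t₂, b)]
      exact swp_ne (fun h => hne h.symm) (fun h => ey1 (Prod.ext_iff.1 h).1.symm)
    rw [e1, e2, rx, ry, hr]

open Classical in
/-- number of merging structures times number of switchings -/
lemma card_SMrg (q₀ : Q) (x : List A) (a : A) (y : List A) (b : A) :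
    ∑ δ ∈ SMrg q₀ x a y b, (Unv q₀ x y δ).offDiag.card ≤
      ∑ δ ∈ Sur A q₀, (univ.filter fun z : Q × Q => (z.1, a) ≠ (z.2, b) ∧
        δ z.1 a = δ z.2 b).card := by
  rw [← card_sigma, ← card_sigma]
  apply card_le_card_of_injOn fun z =>
    (⟨swp (swp z.1 (run z.1 q₀ x, a) (z.2.1, a)) (run z.1 q₀ y, b) (z.2.2, b), z.2⟩ :
      (_ : Q → A → Q) × (Q × Q))
  · rintro ⟨δ, t₁, t₂⟩ h
    rw [mem_coe, mem_sigma, mem_offDiag] at h
    simp only at h
    obtain ⟨h1, h2, h3, h4⟩ := h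
    obtain ⟨-, -, h5, h6⟩ := dsw_spec h1 h2 h3 h4 rfl
    rw [mem_coe, mem_sigma]
    refine ⟨?_, ?_⟩
    · simp only [Sur, mem_filter, mem_univ, true_and]
      exact h5
    · simp only [mem_filter, mem_univ, true_and]
      exact ⟨fun h => h4 (Prod.ext_iff.1 h).1, h6⟩
  · rintro ⟨δ, t₁, t₂⟩ h ⟨δ', t₁', t₂'⟩ h' hh
    rw [mem_coe, mem_sigma, mem_offDiag] at h h'
    simp only at h h'
    obtain ⟨h1, h2, h3, h4⟩ := h
    obtain ⟨h1', h2', h3', h4'⟩ := h'
    have hh2 := Sigma.mk.inj_iff.1 hh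
    obtain ⟨hh3, hh4⟩ := hh2
    have hh5 := eq_of_heq hh4
    simp only [Prod.mk.injEq] at hh5
    obtain ⟨rfl, rfl⟩ := hh5
    simp only at hh3
    obtain ⟨h5, h6, -, -⟩ := dsw_spec h1 h2 h3 h4 rfl
    obtain ⟨h5', h6', -, -⟩ := dsw_spec h1' h2' h3' h4' rfl
    have e1 : run δ q₀ x = run δ' q₀ x := by rw [← h5, ← h5', hh3]
    have e2 : run δ q₀ y = run δ' q₀ y := by rw [← h6, ← h6', hh3]
    have e3 : δ = δ' := by
      rw [← swp_swp δ (run δ q₀ x, a) (t₁, a),
        ← swp_swp (swp δ (run δ q₀ x, a) (t₁, a)) (run δ q₀ y, b) (t₂, b), hh3, e1, e2,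
        swp_swp, swp_swp]
    rw [e3]

end coll

variable (A : Type u) [Fintype A] [Nonempty A]

omit [Nonempty A] in
lemma card_SMrg_mul (n : ℕ) (B : ℝ)
    (hB : ∀ a b : A, ∑ δ ∈ Sur A (0 : Fin (n + 1)), (xx δ a b : ℝ) ≤ B) (x : List A) (a : A)
    (y : List A) (b : A) (l : ℕ) (hx : x.length + 1 ≤ l) (hy : y.length + 1 ≤ l)
    (hn : 2 * l + 3 < n) :
    ((SMrg (0 : Fin (n + 1)) x a y b).card : ℝ) * ((n : ℝ) - 2 * l - 3) ^ 2 ≤ B := by
  classical
  have h1 := card_SMrg (0 : Fin (n + 1)) x a y b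
  have h2 : ∀ δ : Fin (n + 1) → A → Fin (n + 1), ((n : ℝ) - 2 * l - 3) ^ 2 ≤
      ((Unv 0 x y δ).offDiag.card : ℝ) := by
    intro δ
    have h3 := card_Unv (0 : Fin (n + 1)) x y δ
    rw [Fintype.card_fin] at h3
    have h4 : n - 2 * l ≤ (Unv 0 x y δ).card := by omega
    have h5 : (n - 2 * l - 3) * (n - 2 * l - 3) ≤ (Unv 0 x y δ).offDiag.card := by
      rw [offDiag_card]
      have h6 : (Unv 0 x y δ).card * (Unv 0 x y δ).card - (Unv 0 x y δ).card =
          (Unv 0 x y δ).card * ((Unv 0 x y δ).card - 1) := by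
        rw [Nat.mul_sub, mul_one]
      rw [h6]
      exact Nat.mul_le_mul (by omega) (by omega)
    have h7 : ((n : ℝ) - 2 * l - 3) = ((n - 2 * l - 3 : ℕ) : ℝ) := by
      rw [Nat.cast_sub (by omega), Nat.cast_sub (by omega)]
      push_cast
      ring
    rw [h7, sq]
    exact_mod_cast h5
  calc ((SMrg (0 : Fin (n + 1)) x a y b).card : ℝ) * ((n : ℝ) - 2 * l - 3) ^ 2
      = ∑ δ ∈ SMrg (0 : Fin (n + 1)) x a y b, ((n : ℝ) - 2 * l - 3) ^ 2 := by
        rw [sum_const, nsmul_eq_mul]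
    _ ≤ ∑ δ ∈ SMrg (0 : Fin (n + 1)) x a y b, ((Unv 0 x y δ).offDiag.card : ℝ) :=
        sum_le_sum fun δ _ => h2 δ
    _ ≤ ∑ δ ∈ Sur A (0 : Fin (n + 1)), (xx δ a b : ℝ) := by
        have h8 : ∑ δ ∈ SMrg (0 : Fin (n + 1)) x a y b, (Unv 0 x y δ).offDiag.card ≤
            ∑ δ ∈ Sur A (0 : Fin (n + 1)), xx δ a b := by
          refine h1.trans (le_of_eq (sum_congr rfl fun δ _ => ?_))
          rw [xx]
          congr 1
          apply filter_congr_decidable
        exact_mod_cast h8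
    _ ≤ B := hB a b

open Classical in
/-- **Collision bound**: the number of structures in which two given words are self-avoiding and
lead to the same state -/
theorem collision_le (n : ℕ) (B : ℝ)
    (hB : ∀ a b : A, ∑ δ ∈ Sur A (0 : Fin (n + 1)), (xx δ a b : ℝ) ≤ B)
    (v v' : List A) (hl : v.length = v'.length) (hne : v ≠ v') (j : ℕ)
    (hj : ∀ z, z <:+ v → z <:+ v' → z.length ≤ j) (hn : 2 * v.length + 3 < n) :
    (((Sur A (0 : Fin (n + 1))).filter fun δ => SA δ 0 v ∧ SA δ 0 v' ∧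
        run δ 0 v = run δ 0 v').card : ℝ) * ((n : ℝ) - 2 * v.length - 3) ^ 2 ≤ (j + 1) * B := by
  have hB0 : 0 ≤ B := by
    have a : A := Classical.arbitrary A
    refine le_trans ?_ (hB a a)
    exact sum_nonneg fun _ _ => Nat.cast_nonneg _
  let P : ℕ → Finset (Fin (n + 1) → A → Fin (n + 1)) := fun i =>
    (Sur A (0 : Fin (n + 1))).filter fun δ => ∃ x a y b z, v = x ++ a :: z ∧ v' = y ++ b :: z ∧
      z.length = i ∧ δ ∈ SMrg (0 : Fin (n + 1)) x a y b
  have hsub : ((Sur A (0 : Fin (n + 1))).filter fun δ => SA δ 0 v ∧ SA δ 0 v' ∧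
      run δ 0 v = run δ 0 v') ⊆ (range (j + 1)).biUnion P := by
    intro δ hδ
    rw [mem_filter] at hδ
    obtain ⟨hS, h1, h2, h3⟩ := hδ
    obtain ⟨x, a, y, b, z, hv, hv', h4, h5⟩ := exists_merge hl hne h3
    rw [mem_biUnion]
    refine ⟨z.length, ?_, ?_⟩
    · rw [mem_range]
      have h6 : z <:+ v := ⟨x ++ [a], by rw [hv]; simp⟩
      have h7 : z <:+ v' := ⟨y ++ [b], by rw [hv']; simp⟩
      have := hj z h6 h7
      omega
    · rw [mem_filter]
      refine ⟨hS, x, a, y, b, z, hv, hv', rfl, ?_⟩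
      rw [mem_SMrg]
      refine ⟨by simpa [Sur] using hS, ?_, ?_, h4, h5⟩
      · exact SA.left (v := z) (by rw [hv] at h1; simpa using h1)
      · exact SA.left (v := z) (by rw [hv'] at h2; simpa using h2)
  have hP : ∀ i, ((P i).card : ℝ) * ((n : ℝ) - 2 * v.length - 3) ^ 2 ≤ B := by
    intro i
    by_cases hi : ∃ x a y b z, v = x ++ a :: z ∧ v' = y ++ b :: z ∧ z.length = i
    · obtain ⟨x, a, y, b, z, hv, hv', hz⟩ := hi
      have hlv := congrArg List.length hv
      have hlv' := congrArg List.length hv'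
      simp only [List.length_append, List.length_cons] at hlv hlv'
      refine le_trans (mul_le_mul_of_nonneg_right ?_ (sq_nonneg _))
        (card_SMrg_mul A n B hB x a y b v.length (by omega) (by omega) hn)
      have hsub' : P i ⊆ SMrg (0 : Fin (n + 1)) x a y b := by
        intro δ hδ
        rw [mem_filter] at hδ
        obtain ⟨_, x', a', y', b', z', h1, h2, h3, h4⟩ := hδ
        have l1 := congrArg List.length h1
        have l2 := congrArg List.length h2
        simp only [List.length_append, List.length_cons] at l1 l2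
        rw [hv] at h1
        rw [hv'] at h2
        obtain ⟨e1, e2⟩ := List.append_inj h1 (by omega)
        obtain ⟨e3, e4⟩ := List.append_inj h2 (by omega)
        simp only [List.cons.injEq] at e2 e4
        rw [e1, e3, e2.1, e4.1]
        exact h4
      exact_mod_cast card_le_card hsub'
    · have : P i = ∅ := by
        apply filter_false_of_mem
        rintro δ _ ⟨x, a, y, b, z, h1, h2, h3, _⟩
        exact hi ⟨x, a, y, b, z, h1, h2, h3⟩
      rw [this]
      simpa using hB0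
  calc (((Sur A (0 : Fin (n + 1))).filter fun δ => SA δ 0 v ∧ SA δ 0 v' ∧
        run δ 0 v = run δ 0 v').card : ℝ) * ((n : ℝ) - 2 * v.length - 3) ^ 2
      ≤ (∑ i ∈ range (j + 1), ((P i).card : ℝ)) * ((n : ℝ) - 2 * v.length - 3) ^ 2 := by
        refine mul_le_mul_of_nonneg_right ?_ (sq_nonneg _)
        have h1 := (card_le_card hsub).trans card_biUnion_le
        exact_mod_cast h1
    _ = ∑ i ∈ range (j + 1), ((P i).card : ℝ) * ((n : ℝ) - 2 * v.length - 3) ^ 2 := by
        rw [sum_mul]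
    _ ≤ ∑ i ∈ range (j + 1), B := sum_le_sum fun i _ => hP i
    _ = (j + 1) * B := by rw [sum_const, card_range, nsmul_eq_mul]; push_cast; ring

end Pool.Agent.SC
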