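import Pool.Agent.W_MP_6663ab_lc.SDefs
import Pool.Agent.W_MP_6663ab_lc.Collide

/-!
# First coincidences in the surjection model

A node is a pair `(b, y)`: the walk with label word `y` from the root (`b = false`) or from a
second state `t` (`b = true`). For a prefix closed finite set `T` of nodes the pairs `(δ, t)` for
which two different nodes of `T` have the same state are few.
-/

namespace Pool.Agent.SC.Cross

open Finset

universe u v

section nodes

variable {A : Type u} {Q : Type v}

/-- state of a node -/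
def nst (q₀ : Q) (δ : Q → A → Q) (t : Q) (x : Bool × List A) : Q :=
  run δ (if x.1 then t else q₀) x.2

lemma nst_true (q₀ : Q) (δ : Q → A → Q) (t : Q) (y : List A) :
    nst q₀ δ t (true, y) = run δ t y := by simp [nst]

lemma nst_false (q₀ : Q) (δ : Q → A → Q) (t : Q) (y : List A) :
    nst q₀ δ t (false, y) = run δ q₀ y := by simp [nst]

lemma nst_concat (q₀ : Q) (δ : Q → A → Q) (t : Q) (b : Bool) (y : List A) (a : A) :
    nst q₀ δ t (b, y ++ [a]) = δ (nst q₀ δ t (b, y)) a := by
  simp only [nst, run_concat]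

/-- prefix closed sets of nodes -/
def PC (T : Finset (Bool × List A)) : Prop := ∀ b y a, (b, y ++ [a]) ∈ T → (b, y) ∈ T

lemma PC.append {T : Finset (Bool × List A)} (hT : PC T) {b : Bool} {y z : List A}
    (h : (b, y ++ z) ∈ T) : (b, y) ∈ T := by
  induction z using List.reverseRecOn with
  | nil => simpa using h
  | append_singleton z a ih =>
    apply ih
    rw [← List.append_assoc] at h
    exact hT b _ a h

lemma nst_congr {q₀ : Q} {T : Finset (Bool × List A)} (hT : PC T) {δ δ' : Q → A → Q} {t : Q}
    (h : ∀ b y a, (b, y ++ [a]) ∈ T → δ' (nst q₀ δ t (b, y)) a = δ (nst q₀ δ t (b, y)) a)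
    {x : Bool × List A} (hx : x ∈ T) : nst q₀ δ' t x = nst q₀ δ t x := by
  obtain ⟨b, y⟩ := x
  simp only [nst]
  apply run_congr
  intro s a t' hs
  have h1 : (b, s ++ [a]) ∈ T := by
    apply hT.append (z := t')
    rw [hs] at hx
    simpa using hx
  exact h b s a h1

open Classical in
/-- exchange the targets of the edges `(s, a)` and `(s', a)` -/
noncomputable def swp (δ : Q → A → Q) (a : A) (s s' : Q) : Q → A → Q :=
  fun q b => if b = a then δ (Equiv.swap s s' q) b else δ q b

open Classical in
lemma swp_swp (δ : Q → A → Q) (a : A) (s s' : Q) : swp (swp δ a s s') a s s' = δ := by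
  funext q b
  unfold swp
  by_cases h : b = a
  · simp [h]
  · simp [h]

open Classical in
lemma swp_ne {δ : Q → A → Q} {a : A} {s s' : Q} {q : Q} {b : A}
    (h : b = a → q ≠ s ∧ q ≠ s') : swp δ a s s' q b = δ q b := by
  unfold swp
  by_cases hb : b = a
  · rw [if_pos hb, Equiv.swap_apply_of_ne_of_ne (h hb).1 (h hb).2]
  · rw [if_neg hb]

lemma swp_left (δ : Q → A → Q) (a : A) (s s' : Q) : swp δ a s s' s a = δ s' a := by
  simp [swp]

lemma swp_right (δ : Q → A → Q) (a : A) (s s' : Q) : swp δ a s s' s' a = δ s a := by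
  simp [swp]

open Classical in
lemma isSur_swp {q₀ : Q} {δ : Q → A → Q} (h : IsSur q₀ δ) (a : A) (s s' : Q) :
    IsSur q₀ (swp δ a s s') := by
  intro p hp
  obtain ⟨s1, a1, h1⟩ := h p hp
  by_cases ha : a1 = a
  · refine ⟨Equiv.swap s s' s1, a1, ?_⟩
    simp [swp, ha, ← h1]
  · exact ⟨s1, a1, by simp [swp, ha, h1]⟩

end nodes

section count

variable {A : Type u} {Q : Type v} [Fintype A] [Fintype Q]

lemma mem_Sur {q₀ : Q} {δ : Q → A → Q} : δ ∈ Sur A q₀ ↔ IsSur q₀ δ := by
  classical
  simp [Sur]

lemma Sur_nonempty [Nonempty A] (q₀ : Q) : (Sur A q₀).Nonempty :=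
  ⟨fun q _ => q, mem_Sur.2 fun p _ => ⟨p, Classical.arbitrary A, rfl⟩⟩

open Classical in
/-- few pairs where the first coincidence is at a given node -/
lemma card_step (q₀ : Q) {T : Finset (Bool × List A)} (hT : PC T) {b : Bool} {y : List A} {a : A}
    (hy : (b, y) ∈ T) (hya : (b, y ++ [a]) ∉ T) (hcard : 2 * T.card ≤ Fintype.card Q)
    {i : Bool × List A} (hi : i ∈ T) :
    (((Sur A q₀) ×ˢ (univ : Finset Q)).filter fun x =>
      Set.InjOn (nst q₀ x.1 x.2) T ∧ nst q₀ x.1 x.2 (b, y ++ [a]) = nst q₀ x.1 x.2 i).card ≤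
      2 * (Sur A q₀).card := by
  set S := ((Sur A q₀) ×ˢ (univ : Finset Q)).filter fun x =>
      Set.InjOn (nst q₀ x.1 x.2) T ∧ nst q₀ x.1 x.2 (b, y ++ [a]) = nst q₀ x.1 x.2 i with hS
  have hn : 0 < Fintype.card Q := Fintype.card_pos_iff.2 ⟨q₀⟩
  have memS : ∀ x, x ∈ S ↔ IsSur q₀ x.1 ∧ Set.InjOn (nst q₀ x.1 x.2) T ∧
      nst q₀ x.1 x.2 (b, y ++ [a]) = nst q₀ x.1 x.2 i := by
    intro x
    rw [hS, mem_filter, mem_product, mem_Sur]
    simp
  -- an edge used by `T` is not the edge `(s, a)`
  have edge : ∀ δ : Q → A → Q, ∀ t : Q, Set.InjOn (nst q₀ δ t) T → ∀ b1 y1 a1,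
      (b1, y1 ++ [a1]) ∈ T → nst q₀ δ t (b1, y1) = nst q₀ δ t (b, y) → a1 ≠ a := by
    intro δ t hinj b1 y1 a1 h1 h2 h3
    have h4 := hinj (hT _ _ _ h1) hy h2
    rw [Prod.mk.injEq] at h4
    apply hya
    rw [← h4.1, ← h4.2, ← h3]
    exact h1
  by_cases hit : i = (true, [])
  · -- return to `t`: swap
    have key : S.card * (Fintype.card Q - T.card) ≤ (Sur A q₀).card * Fintype.card Q := by
      have e1 : S.card * (Fintype.card Q - T.card) ≤
          (S.sigma fun x => (univ : Finset Q) \ T.image (nst q₀ x.1 x.2)).card := by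
        rw [card_sigma, ← smul_eq_mul, ← sum_const]
        apply sum_le_sum
        intro x _
        rw [card_sdiff_of_subset (subset_univ _), card_univ]
        exact Nat.sub_le_sub_left card_image_le _
      refine e1.trans ?_
      rw [← card_univ (α := Q), ← card_product]
      apply card_le_card_of_injOn fun x => (swp x.1.1 a (nst q₀ x.1.1 x.1.2 (b, y)) x.2, x.2)
      · rintro ⟨⟨δ, t⟩, s'⟩ h
        rw [mem_coe, mem_sigma] at h
        rw [mem_coe, mem_product, mem_Sur]
        exact ⟨isSur_swp ((memS _).1 h.1).1 _ _ _, mem_univ _⟩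
      · have key2 : ∀ δ : Q → A → Q, ∀ t s' : Q, (δ, t) ∈ S → s' ∉ T.image (nst q₀ δ t) →
            t = swp δ a (nst q₀ δ t (b, y)) s' s' a ∧
            nst q₀ (swp δ a (nst q₀ δ t (b, y)) s') t (b, y) = nst q₀ δ t (b, y) := by
          intro δ t s' h hs'
          obtain ⟨h1, h2, h3⟩ := (memS _).1 h
          constructor
          · rw [swp_right, ← nst_concat q₀ δ]
            simp only at h3
            rw [h3, hit, nst_true]
            rfl
          · apply nst_congr hT _ hy
            intro b1 y1 a1 h4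
            apply swp_ne
            intro h5
            constructor
            · intro h6
              exact edge δ t h2 b1 y1 a1 h4 h6 h5
            · intro h6
              exact hs' (mem_image.2 ⟨_, hT _ _ _ h4, h6⟩)
        rintro ⟨⟨δ1, t1⟩, s1⟩ h1 ⟨⟨δ2, t2⟩, s2⟩ h2 h12
        rw [mem_coe, mem_sigma, mem_sdiff] at h1 h2
        obtain ⟨k1, k1'⟩ := key2 δ1 t1 s1 h1.1 h1.2.2
        obtain ⟨k2, k2'⟩ := key2 δ2 t2 s2 h2.1 h2.2.2
        simp only [Prod.mk.injEq] at h12
        obtain ⟨h3, h4⟩ := h12
        have ht : t1 = t2 := by rw [k1, k2, h3, h4]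
        subst ht
        have hs : nst q₀ δ1 t1 (b, y) = nst q₀ δ2 t1 (b, y) := by rw [← k1', ← k2', h3]
        have hδ : δ1 = δ2 := by
          rw [← swp_swp δ1 a (nst q₀ δ1 t1 (b, y)) s1, ← swp_swp δ2 a (nst q₀ δ2 t1 (b, y)) s2,
            h3, hs, h4]
        subst hδ
        subst h4
        rfl
    refine Nat.le_of_mul_le_mul_right ?_ hn
    calc S.card * Fintype.card Q ≤ S.card * (2 * (Fintype.card Q - T.card)) :=
          Nat.mul_le_mul_left _ (by omega)
      _ = 2 * (S.card * (Fintype.card Q - T.card)) := by ring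
      _ ≤ 2 * ((Sur A q₀).card * Fintype.card Q) := Nat.mul_le_mul_left _ key
      _ = _ := by ring
  · -- retarget
    have key : S.card * Fintype.card Q ≤ (Sur A q₀).card * Fintype.card Q := by
      rw [← card_univ (α := Q), ← card_product, ← card_product]
      have key2 : ∀ δ : Q → A → Q, ∀ t r : Q, (δ, t) ∈ S → ∀ x ∈ T,
          nst q₀ (upd δ (nst q₀ δ t (b, y)) a r) t x = nst q₀ δ t x := by
        intro δ t r h x hx
        obtain ⟨h1, h2, h3⟩ := (memS _).1 h
        apply nst_congr hT _ hx
        intro b1 y1 a1 h4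
        apply upd_ne
        intro h5
        exact edge δ t h2 b1 y1 a1 h4 h5
      apply card_le_card_of_injOn fun x =>
        (upd x.1.1 (nst q₀ x.1.1 x.1.2 (b, y)) a x.2, x.1.2)
      · rintro ⟨⟨δ, t⟩, r⟩ h
        rw [mem_coe, mem_product] at h
        obtain ⟨h1, h2, h3⟩ := (memS _).1 h.1
        simp only at h1 h2 h3
        rw [mem_coe, mem_product, mem_Sur]
        refine ⟨?_, mem_univ _⟩
        intro p hp
        obtain ⟨s1, a1, h4⟩ := h1 p hp
        by_cases he : s1 = nst q₀ δ t (b, y) ∧ a1 = a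
        · -- `p` is the state of `i`
          have hpi : p = nst q₀ δ t i := by
            rw [← h3, nst_concat, ← he.1, ← he.2, h4]
          obtain ⟨b', z⟩ := i
          rcases List.eq_nil_or_concat z with rfl | ⟨z', d, rfl⟩
          · exfalso
            cases b' with
            | true => exact hit rfl
            | false =>
              apply hp
              rw [hpi, nst_false]
              rfl
          · rw [List.concat_eq_append] at hi hpi
            refine ⟨nst q₀ δ t (b', z'), d, ?_⟩
            simp only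
            rw [upd_ne fun h5 => edge δ t h2 b' z' d hi h5, hpi, nst_concat]
        · refine ⟨s1, a1, ?_⟩
          simp only
          rw [upd_ne fun h5 h6 => he ⟨h5, h6⟩, h4]
      · rintro ⟨⟨δ1, t1⟩, r1⟩ h1 ⟨⟨δ2, t2⟩, r2⟩ h2 h12
        rw [mem_coe, mem_product] at h1 h2
        simp only [Prod.mk.injEq] at h12
        obtain ⟨h3, h4⟩ := h12
        subst h4
        have k1 := key2 δ1 t1 r1 h1.1
        have k2 := key2 δ2 t1 r2 h2.1
        have hs : nst q₀ δ1 t1 (b, y) = nst q₀ δ2 t1 (b, y) := by
          rw [← k1 _ hy, ← k2 _ hy, h3]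
        have hz : nst q₀ δ1 t1 i = nst q₀ δ2 t1 i := by rw [← k1 _ hi, ← k2 _ hi, h3]
        have hr : r1 = r2 := by
          calc r1 = upd δ1 (nst q₀ δ1 t1 (b, y)) a r1 (nst q₀ δ1 t1 (b, y)) a :=
                (upd_same _ _ _ _).symm
            _ = upd δ2 (nst q₀ δ2 t1 (b, y)) a r2 (nst q₀ δ2 t1 (b, y)) a := by rw [h3, hs]
            _ = r2 := upd_same _ _ _ _
        have hδ : δ1 = δ2 := by
          rw [← upd_upd δ1 (nst q₀ δ1 t1 (b, y)) a r1, ← upd_upd δ2 (nst q₀ δ2 t1 (b, y)) a r2,
            h3, ← nst_concat q₀ δ1, ← nst_concat q₀ δ2, ((memS _).1 h1.1).2.2, ((memS _).1 h2.1).2.2]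
          simp only
          rw [hz, hs]
        rw [hδ, hr]
    calc S.card ≤ (Sur A q₀).card := Nat.le_of_mul_le_mul_right key hn
      _ ≤ _ := by omega

open Classical in
/-- pairs `(δ, t)` with a coincidence in `T` are few -/
lemma card_bad (q₀ : Q) (T : Finset (Bool × List A)) (hT : PC T)
    (hcard : 2 * T.card ≤ Fintype.card Q) :
    (((Sur A q₀) ×ˢ (univ : Finset Q)).filter fun x =>
      ¬ Set.InjOn (nst q₀ x.1 x.2) T).card ≤ 2 * T.card ^ 2 * (Sur A q₀).card := by
  induction hm : T.card generalizing T with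
  | zero =>
    have : T = ∅ := card_eq_zero.1 hm
    subst this
    simp
  | succ m ih =>
    have hne : T.Nonempty := by
      rw [← card_pos, hm]
      omega
    obtain ⟨⟨b, y⟩, hx, hmax⟩ := exists_max_image T (fun x => x.2.length) hne
    rcases List.eq_nil_or_concat y with rfl | ⟨y', a, rfl⟩
    · -- all words are empty
      have h1 : ((Sur A q₀) ×ˢ (univ : Finset Q)).filter (fun x =>
          ¬ Set.InjOn (nst q₀ x.1 x.2) T) ⊆ (Sur A q₀) ×ˢ ({q₀} : Finset Q) := by
        rintro ⟨δ, t⟩ h
        rw [mem_filter, mem_product] at h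
        rw [mem_product, mem_singleton]
        refine ⟨h.1.1, ?_⟩
        by_contra hne
        simp only at hne
        apply h.2
        have h0 : ∀ x ∈ T, x.2 = [] := by
          intro x hx
          have := hmax x hx
          simpa using this
        rintro ⟨b1, y1⟩ h1 ⟨b2, y2⟩ h2 h12
        have e1 := h0 _ h1
        have e2 := h0 _ h2
        simp only at e1 e2
        subst e1
        subst e2
        cases b1 <;> cases b2
        · rfl
        · exfalso
          rw [nst_false, nst_true] at h12
          exact hne h12.symm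
        · exfalso
          rw [nst_false, nst_true] at h12
          exact hne h12
        · rfl
      calc _ ≤ ((Sur A q₀) ×ˢ ({q₀} : Finset Q)).card := card_le_card h1
        _ = (Sur A q₀).card := by rw [card_product, card_singleton, mul_one]
        _ ≤ _ := Nat.le_mul_of_pos_left _ (by positivity)
    · rw [List.concat_eq_append] at hx hmax
      set T' := T.erase (b, y' ++ [a]) with hT'
      have hcT' : T'.card = m := by
        rw [hT', card_erase_of_mem hx, hm]
        rfl
      have hPC' : PC T' := by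
        intro b1 y1 a1 h1
        rw [hT', mem_erase] at h1 ⊢
        refine ⟨?_, hT _ _ _ h1.2⟩
        intro h2
        rw [Prod.mk.injEq] at h2
        have h3 := hmax _ h1.2
        rw [h2.2] at h3
        simp at h3
      have hy' : (b, y') ∈ T' := by
        rw [hT', mem_erase]
        refine ⟨?_, hT _ _ _ hx⟩
        intro h2
        rw [Prod.mk.injEq] at h2
        have := congrArg List.length h2.2
        simp at this
      have hya : (b, y' ++ [a]) ∉ T' := by simp [hT']
      have ih' := ih T' hPC' (by omega) hcT'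
      have hsub : ((Sur A q₀) ×ˢ (univ : Finset Q)).filter (fun x =>
          ¬ Set.InjOn (nst q₀ x.1 x.2) T) ⊆
          (((Sur A q₀) ×ˢ (univ : Finset Q)).filter fun x => ¬ Set.InjOn (nst q₀ x.1 x.2) T') ∪
          T'.biUnion fun i => ((Sur A q₀) ×ˢ (univ : Finset Q)).filter fun x =>
            Set.InjOn (nst q₀ x.1 x.2) T' ∧
              nst q₀ x.1 x.2 (b, y' ++ [a]) = nst q₀ x.1 x.2 i := by
        intro x hx'
        rw [mem_filter] at hx'
        rw [mem_union, mem_filter, mem_biUnion]
        by_cases hinj : Set.InjOn (nst q₀ x.1 x.2) T'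
        · right
          by_contra hcon
          push Not at hcon
          apply hx'.2
          have hT2 : (T : Set (Bool × List A)) = insert (b, y' ++ [a]) (T' : Set _) := by
            rw [← coe_insert, hT', insert_erase hx]
          rw [hT2, Set.injOn_insert (by rw [mem_coe]; exact hya)]
          refine ⟨hinj, ?_⟩
          rintro ⟨i, hi, hi2⟩
          exact hcon i hi (mem_filter.2 ⟨hx'.1, hinj, hi2.symm⟩)
        · exact Or.inl ⟨hx'.1, hinj⟩
      calc _ ≤ _ := card_le_card hsub
        _ ≤ _ := card_union_le _ _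
        _ ≤ 2 * m ^ 2 * (Sur A q₀).card + ∑ i ∈ T', 2 * (Sur A q₀).card := by
            refine add_le_add ih' (card_biUnion_le.trans (sum_le_sum fun i hi => ?_))
            exact card_step q₀ hPC' hy' hya (by omega) hi
        _ = (2 * m ^ 2 + 2 * m) * (Sur A q₀).card := by
            rw [sum_const, hcT', smul_eq_mul]
            ring
        _ ≤ 2 * (m + 1) ^ 2 * (Sur A q₀).card := by
            apply Nat.mul_le_mul_right
            nlinarith

end count

end Pool.Agent.SC.Cross
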