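import Pool.Agent.W_MP_6663ab_lc.SCrossA

/-!
# The single swap
-/

namespace Pool.Agent.SC.Cross

open Finset

universe u v

section count

variable {A : Type u} {Q : Type v} [Fintype A] [Fintype Q]

open Classical in
/-- multiplicities in `lev` count walks -/
lemma count_lev (δ : Q → A → Q) (D : ℕ) (p : Q) (w : List A) (hw : w.length = D) :
    (lev δ D p).count w = (univ.filter fun s => run δ s w.reverse = p).card := by
  induction D generalizing p w with
  | zero =>
    have : w = [] := List.length_eq_zero_iff.1 hw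
    subst this
    have h1 : (univ.filter fun s : Q => run δ s ([] : List A).reverse = p) = {p} := by
      ext s
      rw [mem_filter, mem_singleton, List.reverse_nil, run_nil]
      simp
    rw [h1, card_singleton]
    simp [lev]
  | succ D ih =>
    obtain ⟨a, w', rfl⟩ : ∃ a w', w = a :: w' := by
      cases w with
      | nil => simp at hw
      | cons a w' => exact ⟨a, w', rfl⟩
    have hw' : w'.length = D := by simpa using hw
    have h1 : ∀ e : Q × A, (if δ e.1 e.2 = p then (lev δ D e.1).map (e.2 :: ·) else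
        (0 : Multiset (List A))).count (a :: w') =
        if e.2 = a then (if δ e.1 a = p then (univ.filter fun s => run δ s w'.reverse = e.1).card
          else 0) else 0 := by
      rintro ⟨s, b⟩
      simp only
      by_cases hb : b = a
      · subst hb
        rw [if_pos rfl]
        by_cases h2 : δ s b = p
        · rw [if_pos h2, if_pos h2, Multiset.count_map_eq_count' _ _ (List.cons_injective), ih s w' hw']
        · rw [if_neg h2, if_neg h2, Multiset.count_zero]
      · rw [if_neg hb]
        by_cases h2 : δ s b = p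
        · rw [if_pos h2, Multiset.count_eq_zero]
          intro h3
          rw [Multiset.mem_map] at h3
          obtain ⟨x, -, h3⟩ := h3
          rw [List.cons.injEq] at h3
          exact hb h3.1
        · rw [if_neg h2, Multiset.count_zero]
    rw [lev, Multiset.count_sum', sum_congr rfl fun e _ => h1 e, Fintype.sum_prod_type]
    have h2 : ∀ s : Q, ∑ b : A, (if b = a then (if δ s a = p then
        (univ.filter fun s' => run δ s' w'.reverse = s).card else 0) else 0) =
        ∑ s' : Q, if run δ s' w'.reverse = s ∧ δ s a = p then 1 else 0 := by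
      intro s
      rw [sum_ite_eq' univ a, if_pos (mem_univ _)]
      by_cases h3 : δ s a = p
      · rw [if_pos h3, card_filter]
        apply sum_congr rfl
        intro s' _
        by_cases h4 : run δ s' w'.reverse = s
        · rw [if_pos h4, if_pos ⟨h4, h3⟩]
        · rw [if_neg h4, if_neg fun h5 => h4 h5.1]
      · rw [if_neg h3]
        symm
        apply sum_eq_zero
        intro s' _
        rw [if_neg fun h5 => h3 h5.2]
    simp only
    rw [sum_congr rfl fun s _ => h2 s, sum_comm, card_filter]
    apply sum_congr rfl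
    intro s' _
    rw [List.reverse_cons, run_concat]
    by_cases h3 : δ (run δ s' w'.reverse) a = p
    · rw [if_pos h3, sum_eq_single (run δ s' w'.reverse)]
      · rw [if_pos ⟨rfl, h3⟩]
      · intro s _ hs
        rw [if_neg fun h5 => hs h5.1.symm]
      · intro h
        exact absurd (mem_univ _) h
    · rw [if_neg h3]
      apply sum_eq_zero
      intro s _
      rw [if_neg]
      rintro ⟨rfl, h5⟩
      exact h3 h5

open Classical in
/-- number of walks with label word `z` ending in `p` -/
noncomputable def nw (δ : Q → A → Q) (z : List A) (p : Q) : ℕ :=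
  (univ.filter fun s => run δ s z = p).card

open Classical in
lemma count_lev' (δ : Q → A → Q) (D : ℕ) (p : Q) (w : List A) (hw : w.length = D) :
    (lev δ D p).count w = nw δ w.reverse p := count_lev δ D p w hw

open Classical in
lemma sum_run (δ : Q → A → Q) (z : List A) (f : Q → ℕ) :
    ∑ t, f (run δ t z) = ∑ p, nw δ z p * f p := by
  rw [← sum_fiberwise_of_maps_to (s := univ) (t := univ)
    (g := fun t => run δ t z) (fun p _ => mem_univ _)]
  apply sum_congr rfl
  intro p _
  rw [sum_congr rfl (g := fun _ => f p), sum_const, smul_eq_mul, nw]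
  intro t ht
  rw [mem_filter] at ht
  rw [ht.2]

end count

section swap

variable {A : Type u} {Q : Type v}

/-- the requirements on the set of nodes for the swap -/
structure Nds (T : Finset (Bool × List A)) (v₁ : List A) (c : A) (l : ℕ) : Prop where
  pc : PC T
  root : (false, v₁) ∈ T
  rootc : ∀ x : List A, x.length ≤ l → (false, v₁ ++ c :: x) ∈ T
  tn : (true, ([] : List A)) ∈ T
  tc : ∀ x : List A, x.length ≤ l → (true, c :: x) ∈ T

variable {T : Finset (Bool × List A)} {v₁ : List A} {c : A} {l : ℕ}

lemma Nds.run_root (hT : Nds T v₁ c l) {q₀ : Q} {δ : Q → A → Q} {t : Q}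
    (hinj : Set.InjOn (nst q₀ δ t) T) {y z : List A} (hy : v₁ = y ++ z) :
    run (swp δ c (run δ q₀ v₁) t) q₀ y = run δ q₀ y := by
  apply run_congr
  intro s a t' hs
  apply swp_ne
  intro ha
  have h1 : (false, s) ∈ T := by
    apply hT.pc.append (z := a :: t' ++ z)
    have := hT.root
    rw [hy, hs] at this
    simpa using this
  constructor
  · intro h2
    have h3 := hinj h1 hT.root (by rw [nst_false, nst_false]; exact h2)
    rw [Prod.mk.injEq] at h3
    have := congrArg List.length h3.2
    rw [hy, hs] at this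
    simp at this
  · intro h2
    have h3 := hinj h1 hT.tn (by rw [nst_false, nst_true]; exact h2)
    rw [Prod.mk.injEq] at h3
    exact absurd h3.1 (by simp)

lemma Nds.run_t (hT : Nds T v₁ c l) {q₀ : Q} {δ : Q → A → Q} {t : Q}
    (hinj : Set.InjOn (nst q₀ δ t) T) {x : List A} (hx : x.length ≤ l) :
    run (swp δ c (run δ q₀ v₁) t) (run δ q₀ v₁) (c :: x) = run δ t (c :: x) := by
  rw [run_cons, swp_left, run_cons]
  apply run_congr
  intro s a t' hs
  apply swp_ne
  intro ha
  have h1 : (true, c :: s) ∈ T := by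
    apply hT.tc
    rw [hs] at hx
    simp at hx
    omega
  rw [← run_cons]
  constructor
  · intro h2
    have h3 := hinj h1 hT.root (by rw [nst_false, nst_true]; exact h2)
    rw [Prod.mk.injEq] at h3
    exact absurd h3.1 (by simp)
  · intro h2
    have h3 := hinj h1 hT.tn (by rw [nst_true, nst_true]; exact h2)
    rw [Prod.mk.injEq] at h3
    exact absurd h3.2 (by simp)

/-- after the swap the walk is self-avoiding -/
lemma Nds.SA_swp (hT : Nds T v₁ c l) {q₀ : Q} {δ : Q → A → Q} {t : Q}
    (hinj : Set.InjOn (nst q₀ δ t) T) {x₀ : List A} (hx : x₀.length ≤ l) :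
    SA (swp δ c (run δ q₀ v₁) t) q₀ (v₁ ++ c :: x₀) := by
  -- the state of a walk is the state of a node
  have key : ∀ y z : List A, v₁ ++ c :: x₀ = y ++ z → ∃ i ∈ T,
      run (swp δ c (run δ q₀ v₁) t) q₀ y = nst q₀ δ t i ∧
      ((i.1 = false ∧ i.2.length = y.length ∧ y.length ≤ v₁.length) ∨
        (i.1 = true ∧ i.2.length + v₁.length = y.length)) := by
    intro y z hyz
    rcases List.append_eq_append_iff.1 hyz with ⟨a', h1, h2⟩ | ⟨a', h1, h2⟩
    · -- `y = v₁ ++ a'`
      cases a' with
      | nil =>
        refine ⟨(false, v₁), hT.root, ?_, Or.inl ⟨rfl, by simp [h1], by simp [h1]⟩⟩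
        rw [List.append_nil] at h1
        rw [h1, nst_false]
        exact hT.run_root hinj (z := []) (by simp)
      | cons d x =>
        rw [List.cons_append, List.cons.injEq] at h2
        obtain ⟨rfl, h2⟩ := h2
        have hxl : x.length ≤ l := by
          have := congrArg List.length h2
          simp at this
          omega
        refine ⟨(true, c :: x), hT.tc x hxl, ?_, Or.inr ⟨rfl, by rw [h1]; simp; omega⟩⟩
        rw [h1, run_append, hT.run_root hinj (y := v₁) (z := []) (by simp), hT.run_t hinj hxl,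
          nst_true]
    · -- `v₁ = y ++ a'`
      refine ⟨(false, y), ?_, ?_, Or.inl ⟨rfl, rfl, by rw [h1]; simp⟩⟩
      · apply hT.pc.append (z := a')
        rw [← h1]
        exact hT.root
      · rw [hT.run_root hinj h1, nst_false]
  intro s t' w hs ht' heq
  obtain ⟨i, hi, e1, e2⟩ := key s (t' ++ w) (by rw [hs]; simp)
  obtain ⟨j, hj, f1, f2⟩ := key (s ++ t') w hs
  have hij : i = j := hinj hi hj (by rw [← e1, ← f1, heq])
  subst hij
  have hlt : 0 < t'.length := List.length_pos_iff.2 ht'
  rw [List.length_append] at f2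
  rcases e2 with ⟨e2, e3, e4⟩ | ⟨e2, e3⟩ <;> rcases f2 with ⟨f2, f3, f4⟩ | ⟨f2, f3⟩
  · omega
  · rw [e2] at f2; simp at f2
  · rw [e2] at f2; simp at f2
  · omega

variable [Fintype Q] [Fintype A]

open Classical in
/-- the swap does not decrease the number of walks -/
lemma Nds.card_le (hT : Nds T v₁ c l) {q₀ : Q} {δ : Q → A → Q} {t : Q}
    (hinj : Set.InjOn (nst q₀ δ t) T) {x₀ : List A} (hx₀ : x₀.length = l) {z : List A}
    (hz : z.length = l + 1) :
    (univ.filter fun s => run δ s z = run δ t (c :: x₀)).card ≤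
      (univ.filter fun s => run (swp δ c (run δ q₀ v₁) t) s z =
        run (swp δ c (run δ q₀ v₁) t) q₀ (v₁ ++ c :: x₀)).card := by
  have hend : run (swp δ c (run δ q₀ v₁) t) q₀ (v₁ ++ c :: x₀) = run δ t (c :: x₀) := by
    rw [run_append, hT.run_root hinj (y := v₁) (z := []) (by simp), hT.run_t hinj hx₀.le]
  rw [hend]
  -- walks which are not changed
  have hsame : ∀ s, run δ s z = run δ t (c :: x₀) → (s = t → z ≠ c :: x₀) →
      run (swp δ c (run δ q₀ v₁) t) s z = run δ t (c :: x₀) := by
    intro s hs hst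
    rw [← hs]
    apply run_congr
    intro y a t' hyz
    apply swp_ne
    rintro rfl
    have hlen := congrArg List.length hyz
    rw [hz] at hlen
    simp only [List.length_append, List.length_cons] at hlen
    constructor
    · intro h2
      rw [hyz, run_append, h2, ← run_append] at hs
      have h3 := hinj (hT.rootc t' (by omega)) (hT.tc x₀ hx₀.le)
        (by rw [nst_false, nst_true]; exact hs)
      rw [Prod.mk.injEq] at h3
      exact absurd h3.1 (by simp)
    · intro h2
      rw [hyz, run_append, h2] at hs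
      have h3 := hinj (hT.tc t' (by omega)) (hT.tc x₀ hx₀.le)
        (by rw [nst_true, nst_true]; exact hs)
      rw [Prod.mk.injEq, List.cons.injEq] at h3
      have h4 : t' = x₀ := h3.2.2
      subst h4
      have h5 : y = [] := List.length_eq_zero_iff.1 (by omega)
      subst h5
      exact hst h2 hyz
  by_cases hzc : z = c :: x₀
  · subst hzc
    apply card_le_card_of_injOn fun s => if s = t then run δ q₀ v₁ else s
    · intro s hs
      rw [mem_coe, mem_filter] at hs ⊢
      refine ⟨mem_univ _, ?_⟩
      simp only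
      by_cases hst : s = t
      · rw [if_pos hst]
        exact hT.run_t hinj hx₀.le
      · rw [if_neg hst]
        exact hsame s hs.2 fun h => absurd h hst
    · -- the state `run δ q₀ v₁` is not the start of such a walk
      have hno : ∀ s, run δ s (c :: x₀) = run δ t (c :: x₀) → s ≠ run δ q₀ v₁ := by
        rintro s hs rfl
        rw [← run_append] at hs
        have h3 := hinj (hT.rootc x₀ hx₀.le) (hT.tc x₀ hx₀.le)
          (by rw [nst_false, nst_true]; exact hs)
        rw [Prod.mk.injEq] at h3
        exact absurd h3.1 (by simp)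
      intro s hs s' hs' hss
      rw [mem_coe, mem_filter] at hs hs'
      by_cases h1 : s = t <;> by_cases h2 : s' = t
      · rw [h1, h2]
      · simp only [if_pos h1, if_neg h2] at hss
        exact absurd hss.symm (hno s' hs'.2)
      · simp only [if_neg h1, if_pos h2] at hss
        exact absurd hss (hno s hs.2)
      · simp only [if_neg h1, if_neg h2] at hss
        exact hss
  · apply card_le_card
    intro s hs
    rw [mem_filter] at hs ⊢
    exact ⟨mem_univ _, hsame s hs.2 fun _ => hzc⟩

open Classical in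
/-- comparison of the type of the end of the walk from the root with the type of the end of a
short walk from a uniform state -/
lemma Nds.sum_le (hT : Nds T v₁ c l) (q₀ : Q) (hcard : 2 * T.card ≤ Fintype.card Q)
    {x₀ : List A} (hx₀ : x₀.length = l) {z : List A} (hz : z.length = l + 1) (K : ℕ) :
    ∑ δ ∈ Sur A q₀, ∑ t : Q, min (nw δ z (run δ t (c :: x₀))) K ≤
      Fintype.card Q * (∑ δ ∈ Sur A q₀, if SA δ q₀ (v₁ ++ c :: x₀) then
        min (nw δ z (run δ q₀ (v₁ ++ c :: x₀))) K else 0) +
      K * (2 * T.card ^ 2 * (Sur A q₀).card) := by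
  set F : (Q → A → Q) → Q → ℕ := fun δ p => min (nw δ z p) K with hF
  set G : (Q → A → Q) → ℕ := fun δ => if SA δ q₀ (v₁ ++ c :: x₀) then
    F δ (run δ q₀ (v₁ ++ c :: x₀)) else 0 with hG
  set P := (Sur A q₀) ×ˢ (univ : Finset Q) with hP
  set good := P.filter fun x => Set.InjOn (nst q₀ x.1 x.2) T with hgood
  have h1 : ∑ δ ∈ Sur A q₀, ∑ t : Q, F δ (run δ t (c :: x₀)) =
      ∑ x ∈ good, F x.1 (run x.1 x.2 (c :: x₀)) +
        ∑ x ∈ P.filter (fun x => ¬ Set.InjOn (nst q₀ x.1 x.2) T),
          F x.1 (run x.1 x.2 (c :: x₀)) := by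
    rw [hgood, sum_filter_add_sum_filter_not, hP, sum_product]
  have h2 : ∑ x ∈ P.filter (fun x => ¬ Set.InjOn (nst q₀ x.1 x.2) T),
      F x.1 (run x.1 x.2 (c :: x₀)) ≤ K * (2 * T.card ^ 2 * (Sur A q₀).card) := by
    calc _ ≤ ∑ x ∈ P.filter (fun x => ¬ Set.InjOn (nst q₀ x.1 x.2) T), K :=
          sum_le_sum fun x _ => min_le_right _ _
      _ = K * (P.filter (fun x => ¬ Set.InjOn (nst q₀ x.1 x.2) T)).card := by
          rw [sum_const, smul_eq_mul, mul_comm]
      _ ≤ _ := Nat.mul_le_mul_left _ (card_bad q₀ T hT.pc hcard)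
  let Φ : (Q → A → Q) × Q → (Q → A → Q) × Q := fun x => (swp x.1 c (run x.1 q₀ v₁) x.2, x.2)
  have h3 : ∑ x ∈ good, F x.1 (run x.1 x.2 (c :: x₀)) ≤ ∑ x ∈ good, G (Φ x).1 := by
    apply sum_le_sum
    rintro ⟨δ, t⟩ hx
    rw [hgood, mem_filter] at hx
    simp only [hG, Φ]
    rw [if_pos (hT.SA_swp hx.2 hx₀.le)]
    exact min_le_min_right _ (hT.card_le hx.2 hx₀ hz)
  have h4 : ∑ x ∈ good, G (Φ x).1 ≤ ∑ x ∈ P, G x.1 := by
    have hinj : Set.InjOn Φ (good : Set ((Q → A → Q) × Q)) := by
      rintro ⟨δ1, t1⟩ hx1 ⟨δ2, t2⟩ hx2 h12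
      rw [mem_coe, hgood, mem_filter] at hx1 hx2
      simp only [Φ, Prod.mk.injEq] at h12
      obtain ⟨h5, h6⟩ := h12
      subst h6
      have k1 := hT.run_root hx1.2 (y := v₁) (z := []) (by simp)
      have k2 := hT.run_root hx2.2 (y := v₁) (z := []) (by simp)
      simp only at k1 k2
      have hs : run δ1 q₀ v₁ = run δ2 q₀ v₁ := by rw [← k1, ← k2, h5]
      rw [← swp_swp δ1 c (run δ1 q₀ v₁) t1, ← swp_swp δ2 c (run δ2 q₀ v₁) t1, h5, hs]
    rw [← sum_image (f := fun x : (Q → A → Q) × Q => G x.1) hinj]
    apply sum_le_sum_of_subset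
    intro x hx
    rw [mem_image] at hx
    obtain ⟨⟨δ, t⟩, hx, rfl⟩ := hx
    rw [hgood, mem_filter, hP, mem_product, mem_Sur] at hx
    rw [hP, mem_product, mem_Sur]
    exact ⟨isSur_swp hx.1.1 _ _ _, mem_univ _⟩
  have h5 : ∑ x ∈ P, G x.1 = Fintype.card Q * ∑ δ ∈ Sur A q₀, G δ := by
    rw [hP, sum_product, mul_sum]
    apply sum_congr rfl
    intro δ _
    simp only
    rw [sum_const, card_univ, smul_eq_mul]
  have h6 : ∑ δ ∈ Sur A q₀, ∑ t : Q, F δ (run δ t (c :: x₀)) ≤
      Fintype.card Q * (∑ δ ∈ Sur A q₀, G δ) + K * (2 * T.card ^ 2 * (Sur A q₀).card) := by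
    rw [h1]
    exact add_le_add (h3.trans (h4.trans h5.le)) h2
  exact h6

end swap

end Pool.Agent.SC.Cross
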