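import Pool.Agent.W_MP_6663ab_lc.SCrossB

/-!
# The cross term, given the local law
-/

namespace Pool.Agent.SC.Cross

open Finset Filter
open scoped ENNReal Topology

universe u v

section nodes

variable {A : Type u} [Fintype A]

open Classical in
/-- words of length at most `l` -/
noncomputable def shw (A : Type u) [Fintype A] (l : ℕ) : Finset (List A) :=
  (range (l + 1)).biUnion fun i => WW A i

lemma mem_shw {l : ℕ} {x : List A} : x ∈ shw A l ↔ x.length ≤ l := by
  classical
  rw [shw, mem_biUnion]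
  constructor
  · rintro ⟨i, hi, hx⟩
    rw [mem_range] at hi
    rw [mem_WW] at hx
    omega
  · intro h
    exact ⟨x.length, mem_range.2 (by omega), mem_WW.2 rfl⟩

open Classical in
/-- the set of nodes for the swap -/
noncomputable def NT (v₁ : List A) (c : A) (l : ℕ) : Finset (Bool × List A) :=
  (v₁.inits.toFinset.image (fun y => (false, y)) ∪
    (shw A l).image (fun x => (false, v₁ ++ c :: x))) ∪
  ({(true, [])} ∪ (shw A l).image (fun x => (true, c :: x)))

lemma mem_NT_false {v₁ : List A} {c : A} {l : ℕ} {y : List A} :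
    (false, y) ∈ NT v₁ c l ↔ y <+: v₁ ∨ ∃ x, x.length ≤ l ∧ v₁ ++ c :: x = y := by
  classical
  simp [NT, mem_shw]

lemma mem_NT_true {v₁ : List A} {c : A} {l : ℕ} {y : List A} :
    (true, y) ∈ NT v₁ c l ↔ y = [] ∨ ∃ x, x.length ≤ l ∧ c :: x = y := by
  classical
  simp [NT, mem_shw]

lemma card_NT (v₁ : List A) (c : A) (l : ℕ) :
    (NT v₁ c l).card ≤ v₁.length + (2 + 2 * (shw A l).card) := by
  classical
  rw [NT]
  refine (card_union_le _ _).trans ?_
  have h1 := card_union_le (v₁.inits.toFinset.image (fun y => (false, y)))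
    ((shw A l).image (fun x => (false, v₁ ++ c :: x)))
  have h2 := card_union_le ({(true, [])} : Finset (Bool × List A))
    ((shw A l).image (fun x => (true, c :: x)))
  have h3 : (v₁.inits.toFinset.image (fun y => (false, y))).card ≤ v₁.length + 1 := by
    refine card_image_le.trans ((List.toFinset_card_le _).trans ?_)
    simp
  have h4 : ((shw A l).image (fun x => (false, v₁ ++ c :: x))).card ≤ (shw A l).card :=
    card_image_le
  have h5 : ((shw A l).image (fun x => (true, c :: x))).card ≤ (shw A l).card :=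
    card_image_le
  rw [card_singleton] at h2
  omega

lemma nds_NT (v₁ : List A) (c : A) (l : ℕ) : Nds (NT v₁ c l) v₁ c l where
  pc := by
    intro b y a h
    cases b with
    | false =>
      rw [mem_NT_false] at h ⊢
      rcases h with h | ⟨x, hx, h⟩
      · exact Or.inl ((List.prefix_append y [a]).trans h)
      · rcases List.eq_nil_or_concat x with rfl | ⟨x', d, rfl⟩
        · left
          have h1 := (List.append_inj' h rfl).1
          rw [h1]
        · right
          rw [List.concat_eq_append] at h hx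
          refine ⟨x', by simp at hx; omega, ?_⟩
          rw [← List.cons_append, ← List.append_assoc] at h
          exact (List.append_inj' h rfl).1
    | true =>
      rw [mem_NT_true] at h ⊢
      rcases h with h | ⟨x, hx, h⟩
      · simp at h
      · rcases List.eq_nil_or_concat x with rfl | ⟨x', d, rfl⟩
        · left
          have h1 : [] ++ [c] = y ++ [a] := h
          exact ((List.append_inj' h1 rfl).1).symm
        · right
          rw [List.concat_eq_append] at h hx
          refine ⟨x', by simp at hx; omega, ?_⟩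
          rw [← List.cons_append] at h
          exact (List.append_inj' h rfl).1
  root := mem_NT_false.2 (Or.inl (List.prefix_refl _))
  rootc := fun x hx => mem_NT_false.2 (Or.inr ⟨x, hx, rfl⟩)
  tn := mem_NT_true.2 (Or.inl rfl)
  tc := fun x hx => mem_NT_true.2 (Or.inr ⟨x, hx, rfl⟩)

open Classical in
/-- nodes of a single word -/
noncomputable def N1 (v : List A) : Finset (Bool × List A) :=
  v.inits.toFinset.image fun y => (false, y)

lemma mem_N1 {v y : List A} {b : Bool} : (b, y) ∈ N1 v ↔ b = false ∧ y <+: v := by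
  classical
  simp only [N1, mem_image, List.mem_toFinset, List.mem_inits, Prod.mk.injEq]
  constructor
  · rintro ⟨z, h1, h2, rfl⟩
    exact ⟨h2.symm, h1⟩
  · rintro ⟨rfl, h⟩
    exact ⟨y, h, rfl, rfl⟩

lemma card_N1 (v : List A) : (N1 v).card ≤ v.length + 1 := by
  classical
  rw [N1]
  refine card_image_le.trans ((List.toFinset_card_le _).trans ?_)
  simp

lemma pc_N1 (v : List A) : PC (N1 v) := by
  intro b y a h
  rw [mem_N1] at h ⊢
  exact ⟨h.1, (List.prefix_append y [a]).trans h.2⟩

lemma SA_of_inj {Q : Type v} {q₀ : Q} {δ : Q → A → Q} {t : Q} {v : List A}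
    (h : Set.InjOn (nst q₀ δ t) (N1 v)) : SA δ q₀ v := by
  intro s t' w hs ht heq
  have h1 : (false, s) ∈ N1 v := mem_N1.2 ⟨rfl, ⟨t' ++ w, by rw [hs]; simp⟩⟩
  have h2 : (false, s ++ t') ∈ N1 v := mem_N1.2 ⟨rfl, ⟨w, by rw [hs]⟩⟩
  have h3 := h h1 h2 (by rw [nst_false, nst_false]; exact heq)
  rw [Prod.mk.injEq] at h3
  have h4 := congrArg List.length h3.2
  rw [List.length_append] at h4
  exact ht (List.length_eq_zero_iff.1 (by omega))

open Classical in
/-- few structures for which the walk of a given word is not self-avoiding -/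
lemma card_not_SA_Sur {Q : Type v} [Fintype Q] (q₀ : Q) (v : List A)
    (hcard : 2 * (v.length + 1) ≤ Fintype.card Q) :
    ((Sur A q₀).filter fun δ => ¬ SA δ q₀ v).card * Fintype.card Q ≤
      2 * (v.length + 1) ^ 2 * (Sur A q₀).card := by
  have h1 := card_bad q₀ (N1 v) (pc_N1 v) (by have := card_N1 v; omega)
  have h2 : ((Sur A q₀).filter fun δ => ¬ SA δ q₀ v) ×ˢ (univ : Finset Q) ⊆
      ((Sur A q₀) ×ˢ (univ : Finset Q)).filter fun x => ¬ Set.InjOn (nst q₀ x.1 x.2) (N1 v) := by
    rintro ⟨δ, t⟩ h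
    rw [mem_product, mem_filter] at h
    rw [mem_filter, mem_product]
    exact ⟨⟨h.1.1, h.2⟩, fun h3 => h.1.2 (SA_of_inj h3)⟩
  have h3 := card_le_card h2
  rw [card_product, card_univ] at h3
  refine h3.trans (h1.trans ?_)
  apply Nat.mul_le_mul_right
  apply Nat.mul_le_mul_left
  exact Nat.pow_le_pow_left (card_N1 v) 2

end nodes

section asymptotics

lemma tendsto_log : Tendsto (fun n : ℕ => Nat.log 2 (n + 1)) atTop atTop := by
  rw [tendsto_atTop]
  intro b
  filter_upwards [eventually_ge_atTop (2 ^ b)] with n hn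
  exact Nat.le_log_of_pow_le (by norm_num) (by omega)

lemma tendsto_MM (C : ℕ) :
    Tendsto (fun n : ℕ => ((MM n + C : ℕ) : ℝ) ^ 2 / ((n : ℝ) + 1)) atTop (𝓝 0) := by
  have h1 : Tendsto (fun n : ℕ => (n : ℝ) ^ 2 / (2 : ℝ) ^ n) atTop (𝓝 0) :=
    tendsto_pow_const_div_const_pow_of_one_lt 2 (by norm_num)
  have h2 : Tendsto (fun n : ℕ => 2 * ((3 + C : ℝ) ^ 2 * (((n + 1 : ℕ) : ℝ) ^ 2 / (2 : ℝ) ^ (n + 1))))
      atTop (𝓝 0) := by
    have := ((h1.comp (tendsto_add_atTop_nat 1)).const_mul ((3 + C : ℝ) ^ 2)).const_mul 2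
    simpa using this
  have h3 := h2.comp tendsto_log
  refine squeeze_zero (fun n => by positivity) (fun n => ?_) h3
  simp only [Function.comp]
  set L := Nat.log 2 (n + 1) with hL
  have h4 : (2 : ℝ) ^ L ≤ (n : ℝ) + 1 := by
    have : 2 ^ L ≤ n + 1 := Nat.pow_log_le_self 2 (by omega)
    exact_mod_cast this
  have h5 : ((MM n + C : ℕ) : ℝ) ≤ (3 + C) * ((L + 1 : ℕ) : ℝ) := by
    have : MM n + C ≤ (3 + C) * (L + 1) := by
      rw [MM, ← hL, add_mul]
      have : C * 1 ≤ C * (L + 1) := Nat.mul_le_mul_left _ (by omega)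
      omega
    exact_mod_cast this
  have h6 : (0 : ℝ) < 2 ^ L := by positivity
  calc ((MM n + C : ℕ) : ℝ) ^ 2 / ((n : ℝ) + 1) ≤ ((3 + C) * ((L + 1 : ℕ) : ℝ)) ^ 2 / 2 ^ L := by
        apply div_le_div₀ (by positivity) (pow_le_pow_left₀ (by positivity) h5 2) h6 h4
    _ = _ := by
        rw [pow_succ (2 : ℝ) L]
        field_simp

end asymptotics

section local_law

variable {A : Type u} [Fintype A] {n : ℕ}

open Classical in
lemma sum_lev (δ : Fin (n + 1) → A → Fin (n + 1)) (D : ℕ) (h : Multiset (List A) → ℝ) :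
    (∑ p, h (lev δ D p)) / ((n : ℝ) + 1) = ∑' τ, fr δ D τ * h τ := by
  have h1 : ∀ τ, τ ∉ univ.image (fun p => lev δ D p) → fr δ D τ * h τ = 0 := by
    intro τ hτ
    have : (univ.filter fun p => lev δ D p = τ) = ∅ := by
      rw [eq_empty_iff_forall_notMem]
      intro p hp
      rw [mem_filter] at hp
      exact hτ (mem_image.2 ⟨p, mem_univ _, hp.2⟩)
    rw [fr, this]
    simp
  rw [tsum_eq_sum h1]
  have h2 : ∑ p, h (lev δ D p) = ∑ τ ∈ univ.image (fun p => lev δ D p),
      ((univ.filter fun p => lev δ D p = τ).card : ℝ) * h τ := by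
    rw [← sum_fiberwise_of_maps_to (s := univ) (t := univ.image (fun p => lev δ D p))
      (g := fun p => lev δ D p) (fun p _ => mem_image_of_mem _ (mem_univ _))]
    apply sum_congr rfl
    intro τ _
    rw [sum_congr rfl (g := fun _ => h τ), sum_const, nsmul_eq_mul]
    intro p hp
    rw [mem_filter] at hp
    rw [hp.2]
  rw [h2, sum_div]
  apply sum_congr rfl
  intro τ _
  rw [fr]
  ring

lemma summable_fr (δ : Fin (n + 1) → A → Fin (n + 1)) (D : ℕ) : Summable (fr δ D) := by
  classical
  apply summable_of_ne_finset_zero (s := univ.image (fun p => lev δ D p))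
  intro τ hτ
  have : (univ.filter fun p => lev δ D p = τ) = ∅ := by
    rw [eq_empty_iff_forall_notMem]
    intro p hp
    rw [mem_filter] at hp
    exact hτ (mem_image.2 ⟨p, mem_univ _, hp.2⟩)
  rw [fr, this]
  simp

lemma summable_pmf {α : Type*} (p : PMF α) : Summable fun x => (p x).toReal :=
  ENNReal.summable_toReal p.tsum_coe_ne_top

lemma ex_nat_toReal {α : Type*} (p : PMF α) (h : α → ℕ) :
    (ex p fun x => (h x : ℝ≥0∞)).toReal = ∑' x, (p x).toReal * (h x : ℝ) := by
  rw [ex, ENNReal.tsum_toReal_eq]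
  · apply tsum_congr
    intro x
    rw [ENNReal.toReal_mul, ENNReal.toReal_natCast]
  · intro x
    exact ENNReal.mul_ne_top (p.apply_ne_top x) (ENNReal.natCast_ne_top _)

/-- average of a bounded function of the type of a state -/
lemma sum_lev_ge [Nonempty A] (δ : Fin (n + 1) → A → Fin (n + 1)) (D : ℕ)
    (h : Multiset (List A) → ℕ) (B : ℕ) (hB : ∀ τ, h τ ≤ B) :
    (ex (mu A D) fun m => (h m : ℝ≥0∞)).toReal - B * ∑' τ, |fr δ D τ - (mu A D τ).toReal| ≤
      (∑ p, (h (lev δ D p) : ℝ)) / ((n : ℝ) + 1) := by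
  rw [sum_lev δ D fun τ => (h τ : ℝ), ex_nat_toReal]
  have s1 := summable_fr δ D
  have s2 := summable_pmf (mu A D)
  have s3 : Summable fun τ => |fr δ D τ - (mu A D τ).toReal| := (s1.sub s2).abs
  have hB' : ∀ τ, (h τ : ℝ) ≤ B := fun τ => by exact_mod_cast hB τ
  have hfr : ∀ τ, 0 ≤ fr δ D τ := fun τ => by rw [fr]; positivity
  have s4 : Summable fun τ => fr δ D τ * (h τ : ℝ) :=
    Summable.of_nonneg_of_le (fun τ => mul_nonneg (hfr τ) (Nat.cast_nonneg _))
      (fun τ => mul_le_mul_of_nonneg_left (hB' τ) (hfr τ)) (s1.mul_right (B : ℝ))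
  have s5 : Summable fun τ => (mu A D τ).toReal * (h τ : ℝ) :=
    Summable.of_nonneg_of_le (fun τ => mul_nonneg ENNReal.toReal_nonneg (Nat.cast_nonneg _))
      (fun τ => mul_le_mul_of_nonneg_left (hB' τ) ENNReal.toReal_nonneg) (s2.mul_right (B : ℝ))
  rw [← tsum_mul_left, sub_le_iff_le_add, ← Summable.tsum_add s4 (s3.mul_left _)]
  apply Summable.tsum_le_tsum _ s5 (s4.add (s3.mul_left _))
  intro τ
  have h1 : (mu A D τ).toReal - fr δ D τ ≤ |fr δ D τ - (mu A D τ).toReal| := by
    rw [abs_sub_comm]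
    exact le_abs_self _
  have h2 : ((mu A D τ).toReal - fr δ D τ) * h τ ≤ |fr δ D τ - (mu A D τ).toReal| * B :=
    mul_le_mul h1 (hB' τ) (Nat.cast_nonneg _) (abs_nonneg _)
  linarith

end local_law

end Pool.Agent.SC.Cross
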