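import Pool.Agent.W_MP_6663ab_lc.SCrossC

/-!
# The cross term, given the local law: final step
-/

namespace Pool.Agent.SC.Cross

open Finset Filter
open scoped ENNReal Topology

universe u

variable (A : Type u) [Fintype A] [Nonempty A]

open Classical in
/-- the cross term for words of length at least one, with explicit error -/
lemma cross_succ {n : ℕ} (l K : ℕ) (u w : List A) (hu : u.length = l + 1)
    (hw : w.length = l + 1) (v : List A) (hv : v.length = MM n) (hwv : w.reverse <:+ v)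
    (hn : 2 * (MM n + (2 + 2 * (shw A l).card)) ≤ n + 1) :
    (ex (mu A (l + 1)) fun m => ((min (m.count w) K * min (m.count u) K : ℕ) : ℝ≥0∞)).toReal -
      ((K * K : ℕ) : ℝ) * ES A n (fun δ => ∑' τ, |fr δ (l + 1) τ - (mu A (l + 1) τ).toReal|) -
      2 * K * (((MM n + (2 + 2 * (shw A l).card) : ℕ) : ℝ) ^ 2 / ((n : ℝ) + 1)) ≤
        ES A n (fun δ => if SA δ 0 v then
          ((min ((lev δ (l + 1) (run δ 0 v)).count u) K : ℕ) : ℝ) else 0) := by
  -- decompose the word
  obtain ⟨c, x₀, hcx⟩ : ∃ c x₀, w.reverse = c :: x₀ := by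
    cases h : w.reverse with
    | nil =>
      have := congrArg List.length h
      rw [List.length_reverse, hw] at this
      simp at this
    | cons c x₀ => exact ⟨c, x₀, rfl⟩
  have hx₀ : x₀.length = l := by
    have := congrArg List.length hcx
    rw [List.length_reverse, hw] at this
    simpa using this.symm
  obtain ⟨v₁, rfl⟩ := hwv
  rw [hcx] at hv ⊢
  have hz : u.reverse.length = l + 1 := by rw [List.length_reverse, hu]
  have hT := nds_NT v₁ c l
  have hv₁ : v₁.length ≤ MM n := by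
    rw [← hv, List.length_append]
    omega
  have hcT : (NT v₁ c l).card ≤ MM n + (2 + 2 * (shw A l).card) :=
    (card_NT v₁ c l).trans (Nat.add_le_add_right hv₁ _)
  have hmain := hT.sum_le (0 : Fin (n + 1)) (by rw [Fintype.card_fin]; omega) hx₀ hz K
  rw [Fintype.card_fin] at hmain
  set S := Sur A (0 : Fin (n + 1)) with hS
  have hS0 : 0 < (S.card : ℝ) := by
    exact_mod_cast card_pos.2 (Sur_nonempty (0 : Fin (n + 1)))
  have hn0 : (0 : ℝ) < (n : ℝ) + 1 := by positivity
  set h : Multiset (List A) → ℕ := fun m => min (m.count w) K * min (m.count u) K with hh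
  set E := (ex (mu A (l + 1)) fun m => (h m : ℝ≥0∞)).toReal with hE
  set C := MM n + (2 + 2 * (shw A l).card) with hC
  -- for every structure
  have h1 : ∀ δ ∈ S, (E - ((K * K : ℕ) : ℝ) *
      ∑' τ, |fr δ (l + 1) τ - (mu A (l + 1) τ).toReal|) * ((n : ℝ) + 1) ≤
      ((∑ t : Fin (n + 1), min (nw δ u.reverse (run δ t (c :: x₀))) K : ℕ) : ℝ) := by
    intro δ _
    have h2 := sum_lev_ge δ (l + 1) h (K * K)
      (fun τ => Nat.mul_le_mul (min_le_right _ _) (min_le_right _ _))
    rw [← hE, le_div_iff₀ hn0] at h2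
    refine h2.trans ?_
    have h3 := sum_run δ (c :: x₀) (fun p => min (nw δ u.reverse p) K)
    rw [h3]
    push_cast
    apply sum_le_sum
    intro p _
    rw [hh]
    simp only
    rw [count_lev' δ (l + 1) p w hw, count_lev' δ (l + 1) p u hu, hcx]
    push_cast
    apply mul_le_mul_of_nonneg_right (min_le_left _ _)
    positivity
  have h2 : (((∑ δ ∈ S, ∑ t : Fin (n + 1), min (nw δ u.reverse (run δ t (c :: x₀))) K : ℕ)) :
      ℝ) ≤
      ((n : ℝ) + 1) * (∑ δ ∈ S, if SA δ 0 (v₁ ++ c :: x₀) then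
        ((min ((lev δ (l + 1) (run δ 0 (v₁ ++ c :: x₀))).count u) K : ℕ) : ℝ) else 0) +
      K * (2 * (C : ℝ) ^ 2 * S.card) := by
    have h3 := (Nat.cast_le (α := ℝ)).2 hmain
    refine h3.trans ?_
    rw [Nat.cast_add, Nat.cast_mul, Nat.cast_sum]
    have h4 : ((n + 1 : ℕ) : ℝ) = (n : ℝ) + 1 := by push_cast; rfl
    rw [h4]
    apply add_le_add
    · apply mul_le_mul_of_nonneg_left _ hn0.le
      apply le_of_eq
      apply sum_congr rfl
      intro δ _
      split_ifs with h5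
      · rw [count_lev' δ (l + 1) _ u hu]
      · simp
    · have h5 : K * (2 * (NT v₁ c l).card ^ 2 * S.card) ≤ K * (2 * C ^ 2 * S.card) := by
        apply Nat.mul_le_mul_left
        apply Nat.mul_le_mul_right
        apply Nat.mul_le_mul_left
        exact Nat.pow_le_pow_left hcT 2
      exact_mod_cast h5
  rw [Nat.cast_sum] at h2
  have h3 := (sum_le_sum h1).trans h2
  rw [← sum_mul, sum_sub_distrib, sum_const, nsmul_eq_mul, ← mul_sum] at h3
  simp only [ES]
  rw [← hS]
  set G := ∑ δ ∈ S, if SA δ 0 (v₁ ++ c :: x₀) then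
        ((min ((lev δ (l + 1) (run δ 0 (v₁ ++ c :: x₀))).count u) K : ℕ) : ℝ) else 0 with hG
  set d := ∑ δ ∈ S, ∑' τ, |fr δ (l + 1) τ - (mu A (l + 1) τ).toReal| with hd
  rw [le_div_iff₀ hS0]
  have h4 : (E - ((K * K : ℕ) : ℝ) * (d / S.card) - 2 * K * ((C : ℝ) ^ 2 / ((n : ℝ) + 1))) *
      S.card * ((n : ℝ) + 1) = (S.card * E - ((K * K : ℕ) : ℝ) * d) * ((n : ℝ) + 1) -
        K * (2 * (C : ℝ) ^ 2 * S.card) := by
    have ha : ∀ E' q d' k s N c : ℝ, 0 < s → 0 < N →
        (E' - q * (d' / s) - 2 * k * (c ^ 2 / N)) * s * N =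
          (s * E' - q * d') * N - k * (2 * c ^ 2 * s) := by
      intro E' q d' k s N c hs hN
      field_simp
    exact ha _ _ _ _ _ _ _ hS0 hn0
  have h5 : (E - ((K * K : ℕ) : ℝ) * (d / S.card) - 2 * K * ((C : ℝ) ^ 2 / ((n : ℝ) + 1))) *
      S.card * ((n : ℝ) + 1) ≤ G * ((n : ℝ) + 1) := by
    rw [h4]
    linarith only [h3]
  exact le_of_mul_le_mul_right h5 hn0

open Classical in
/-- the cross term for the empty word, with explicit error -/
lemma cross_zero {n : ℕ} (K : ℕ) (v : List A) (hv : v.length = MM n)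
    (hn : 2 * (MM n + 1) ≤ n + 1) :
    (ex (mu A 0) fun m => ((min (m.count []) K * min (m.count []) K : ℕ) : ℝ≥0∞)).toReal -
      2 * K * (((MM n + 1 : ℕ) : ℝ) ^ 2 / ((n : ℝ) + 1)) ≤
        ES A n (fun δ => if SA δ 0 v then
          ((min ((lev δ 0 (run δ 0 v)).count []) K : ℕ) : ℝ) else 0) := by
  have h0 : ex (mu A 0) (fun m => ((min (m.count []) K * min (m.count []) K : ℕ) : ℝ≥0∞)) =
      ((min 1 K * min 1 K : ℕ) : ℝ≥0∞) := by
    rw [ex, tsum_eq_single {[]}]
    · simp [mu]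
    · intro m hm
      simp [mu, hm]
  rw [h0]
  have hS0 : 0 < ((Sur A (0 : Fin (n + 1))).card : ℝ) := by
    exact_mod_cast card_pos.2 (Sur_nonempty (0 : Fin (n + 1)))
  have hn0 : (0 : ℝ) < (n : ℝ) + 1 := by positivity
  have h1 := card_not_SA_Sur (0 : Fin (n + 1)) v (by rw [hv, Fintype.card_fin]; exact hn)
  rw [Fintype.card_fin, hv] at h1
  have h2 : ∑ δ ∈ Sur A (0 : Fin (n + 1)), (if SA δ 0 v then
      ((min ((lev δ 0 (run δ 0 v)).count []) K : ℕ) : ℝ) else 0) =
      (((Sur A (0 : Fin (n + 1))).filter fun δ => SA δ 0 v).card : ℝ) * (min 1 K : ℕ) := by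
    rw [← sum_filter, ← nsmul_eq_mul, ← sum_const]
    apply sum_congr rfl
    intro δ _
    simp [lev]
  simp only [ES]
  rw [h2, le_div_iff₀ hS0]
  have h3 : (((Sur A (0 : Fin (n + 1))).filter fun δ => SA δ 0 v).card : ℝ) =
      ((Sur A (0 : Fin (n + 1))).card : ℝ) -
        ((Sur A (0 : Fin (n + 1))).filter fun δ => ¬ SA δ 0 v).card := by
    rw [eq_sub_iff_add_eq]
    exact_mod_cast card_filter_add_card_filter_not (s := Sur A (0 : Fin (n + 1)))
      (fun δ => SA δ 0 v)
  rw [h3]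
  have h4 : (((Sur A (0 : Fin (n + 1))).filter fun δ => ¬ SA δ 0 v).card : ℝ) * ((n : ℝ) + 1) ≤
      2 * ((MM n + 1 : ℕ) : ℝ) ^ 2 * (Sur A (0 : Fin (n + 1))).card := by
    exact_mod_cast h1
  have h5 : ((((min 1 K * min 1 K : ℕ) : ℝ≥0∞)).toReal : ℝ) = (min 1 K : ℕ) := by
    rw [ENNReal.toReal_natCast]
    rcases Nat.eq_zero_or_pos K with rfl | hK
    · simp
    · rw [min_eq_left (by omega : 1 ≤ K)]
  rw [h5]
  have h6 : ((min 1 K : ℕ) : ℝ) ≤ K := by exact_mod_cast min_le_right _ _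
  have h7 : (0 : ℝ) ≤ ((min 1 K : ℕ) : ℝ) := Nat.cast_nonneg _
  set N := ((Sur A (0 : Fin (n + 1))).card : ℝ) with hN
  set B := (((Sur A (0 : Fin (n + 1))).filter fun δ => ¬ SA δ 0 v).card : ℝ) with hB
  set m := ((min 1 K : ℕ) : ℝ) with hm
  set M := ((MM n + 1 : ℕ) : ℝ) with hM
  have h8 : B ≤ 2 * (M ^ 2 / ((n : ℝ) + 1)) * N := by
    rw [← mul_div_assoc, div_mul_eq_mul_div, le_div_iff₀ hn0]
    exact h4
  have h9 : B * m ≤ 2 * (M ^ 2 / ((n : ℝ) + 1)) * N * K :=
    mul_le_mul h8 h6 h7 (mul_nonneg (mul_nonneg zero_le_two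
      (div_nonneg (sq_nonneg _) hn0.le)) hS0.le)
  linarith only [h9]

open Classical in
/-- the cross term, given the local law -/
theorem g_cross_of_local_law (D K : ℕ) (u w : List A) (hu : u.length = D)
    (hw : w.length = D) (ε : ℝ) (hε : 0 < ε)
    (hloc : Tendsto (fun n : ℕ => ES A n fun δ => ∑' τ, |fr δ D τ - (mu A D τ).toReal|)
      atTop (𝓝 0)) :
    ∀ᶠ n in atTop, ∀ v : List A, v.length = MM n → w.reverse <:+ v →
      (ex (mu A D) fun m => ((min (m.count w) K * min (m.count u) K : ℕ) : ℝ≥0∞)).toReal - ε ≤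
        ES A n (fun δ => if SA δ 0 v then ((min ((lev δ D (run δ 0 v)).count u) K : ℕ) : ℝ)
          else 0) := by
  cases D with
  | zero =>
    have hu0 : u = [] := List.length_eq_zero_iff.1 hu
    have hw0 : w = [] := List.length_eq_zero_iff.1 hw
    subst hu0
    subst hw0
    have t1 := (tendsto_MM 1).const_mul (2 * (K : ℝ))
    rw [mul_zero] at t1
    filter_upwards [t1.eventually_lt_const hε,
      (tendsto_MM 1).eventually_lt_const (show (0 : ℝ) < 1 / 2 by norm_num)] with n h1 h2 v hv _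
    have hn : 2 * (MM n + 1) ≤ n + 1 := by
      have hn0 : (0 : ℝ) < (n : ℝ) + 1 := by positivity
      rw [div_lt_iff₀ hn0] at h2
      have h3 : ((MM n + 1 : ℕ) : ℝ) ≤ ((MM n + 1 : ℕ) : ℝ) ^ 2 := by
        have : MM n + 1 ≤ (MM n + 1) ^ 2 := Nat.le_self_pow (by norm_num) _
        exact_mod_cast this
      have h4 : 2 * ((MM n + 1 : ℕ) : ℝ) ≤ ((n + 1 : ℕ) : ℝ) := by
        push_cast at h2 h3 ⊢
        linarith
      exact_mod_cast h4
    have h3 := cross_zero A K v hv hn
    linarith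
  | succ l =>
    set C := 2 + 2 * (shw A l).card with hC
    have t1 := (tendsto_MM C).const_mul (2 * (K : ℝ))
    rw [mul_zero] at t1
    have t2 := hloc.const_mul (((K * K : ℕ) : ℝ))
    rw [mul_zero] at t2
    filter_upwards [t1.eventually_lt_const (half_pos hε), t2.eventually_lt_const (half_pos hε),
      (tendsto_MM C).eventually_lt_const (show (0 : ℝ) < 1 / 2 by norm_num)] with n h1 h2 h3 v hv hwv
    have hn : 2 * (MM n + C) ≤ n + 1 := by
      have hn0 : (0 : ℝ) < (n : ℝ) + 1 := by positivity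
      rw [div_lt_iff₀ hn0] at h3
      have h4 : ((MM n + C : ℕ) : ℝ) ≤ ((MM n + C : ℕ) : ℝ) ^ 2 := by
        have : MM n + C ≤ (MM n + C) ^ 2 := Nat.le_self_pow (by norm_num) _
        exact_mod_cast this
      have h5 : 2 * ((MM n + C : ℕ) : ℝ) ≤ ((n + 1 : ℕ) : ℝ) := by
        push_cast at h3 h4 ⊢
        linarith
      exact_mod_cast h5
    have h4 := cross_succ A l K u w hu hw v hv hwv hn
    rw [← hC] at h4
    linarith

end Pool.Agent.SC.Cross
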