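import Pool.Agent.W_MP_6663ab_lc.Bridge
import Pool.Agent.W_MP_6663ab_lc.SDefs

/-!
# Final glue

`En_limit_of`: the normalised average state complexity of the intersection converges to the
limiting constant, from the law of the number of reachable pairs in the surjection model and the
comparison of accessible structures with surjections.
-/

namespace Pool.Agent.SC

open Finset Filter
open scoped Topology

universe u v

namespace Gl

section image

/-- points which are not alone in their fibre -/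
lemma card_le_image_add {α : Type*} {β : Type*} [DecidableEq α] [DecidableEq β] (s : Finset α)
    (f : α → β) (B : Finset α) (hB : ∀ x ∈ s, ∀ y ∈ s, x ≠ y → f x = f y → x ∈ B) :
    s.card ≤ (s.image f).card + B.card := by
  have h1 : s ⊆ (s \ B) ∪ B := by
    intro x hx
    by_cases h : x ∈ B
    · exact mem_union_right _ h
    · exact mem_union_left _ (Finset.mem_sdiff.2 ⟨hx, h⟩)
  have h2 : ((s \ B).image f).card = (s \ B).card := by
    apply card_image_of_injOn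
    intro x hx y hy hxy
    by_contra hne
    obtain ⟨hx1, hx2⟩ := Finset.mem_sdiff.1 (mem_coe.1 hx)
    obtain ⟨hy1, hy2⟩ := Finset.mem_sdiff.1 (mem_coe.1 hy)
    exact hx2 (hB x hx1 y hy1 hne hxy)
  have h3 : ((s \ B).image f).card ≤ (s.image f).card :=
    card_le_card (image_subset_image sdiff_subset)
  have h4 := (card_le_card h1).trans (card_union_le _ _)
  omega

end image

section one

variable {A : Type u} {Q : Type v} [Fintype A] [Fintype Q] [LinearOrder Q]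

omit [Fintype A] [LinearOrder Q] in
lemma scI_le (q₀ : Q) (M M' : (Q → A → Q) × (Q → Bool)) :
    scI q₀ M M' ≤ (reachI q₀ M.1 M'.1).card := by
  classical
  exact card_image_le

omit [Fintype A] in
lemma le_scI (q₀ : Q) (M M' : (Q → A → Q) × (Q → Bool)) :
    (reachI q₀ M.1 M'.1).card ≤ scI q₀ M M' + ((T1 M M').card + (T1 M' M).card) := by
  classical
  set B : Finset (Q × Q) := (T1 M M').image (fun y => (y.1, y.2.1)) ∪
    (T1 M' M).image (fun y => (y.2.1, y.1)) with hBdef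
  have hB : B.card ≤ (T1 M M').card + (T1 M' M).card :=
    (card_union_le _ _).trans (Nat.add_le_add card_image_le card_image_le)
  refine (card_le_image_add (reachI q₀ M.1 M'.1) (lgI M M') B ?_).trans ?_
  · rintro ⟨p, q⟩ - ⟨p', q'⟩ - hne heq
    have heq' : ∀ w, (M.2 (run M.1 p w) && M'.2 (run M'.1 q w)) =
        (M.2 (run M.1 p' w) && M'.2 (run M'.1 q' w)) := fun w => congrFun heq w
    rw [hBdef, mem_union]
    by_cases hq : q = q'
    · right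
      have hp : p ≠ p' := by
        rintro rfl
        exact hne (by rw [hq])
      refine mem_image.2 ⟨(q, (p, p')), ?_, rfl⟩
      rw [T1, mem_filter, mem_product, mem_offDiag]
      refine ⟨⟨mem_univ _, mem_univ _, mem_univ _, hp⟩, ?_⟩
      rintro w ⟨h1, h2, h3⟩
      simp only at h1 h2 h3
      have := heq' w
      rw [← hq, h1, h2, h3] at this
      simp at this
    · left
      refine mem_image.2 ⟨(p, (q, q')), ?_, rfl⟩
      rw [T1, mem_filter, mem_product, mem_offDiag]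
      refine ⟨⟨mem_univ _, mem_univ _, mem_univ _, hq⟩, ?_⟩
      rintro w ⟨h1, h2, h3⟩
      simp only at h1 h2 h3
      have := heq' w
      rw [h1, h2, h3] at this
      simp at this
  · rw [scI]
    exact Nat.add_le_add_left hB _

lemma AccF_sub_Sur [Nonempty A] (q₀ : Q) : AccF A q₀ ⊆ Sur A q₀ := by
  classical
  intro δ hδ
  rw [mem_AccF] at hδ
  refine mem_filter.2 ⟨@mem_univ _ (_) _, ?_⟩
  intro p hp
  obtain ⟨w, hw⟩ := hδ p
  rcases List.eq_nil_or_concat w with h | ⟨w', a, h⟩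
  · subst h
    exact absurd hw.symm hp
  · subst h
    rw [List.concat_eq_append, run_concat] at hw
    exact ⟨_, _, hw⟩

omit [Fintype A] [LinearOrder Q] in
lemma card_reachI_le (q₀ : Q) (δ δ' : Q → A → Q) :
    (reachI q₀ δ δ').card ≤ Fintype.card Q ^ 2 := by
  have := card_le_univ (reachI q₀ δ δ')
  rwa [Fintype.card_prod, ← pow_two] at this

omit [Fintype A] in
/-- the deviation of the number of classes -/
lemma abs_dev (q₀ : Q) (M M' : (Q → A → Q) × (Q → Bool)) (c : ℝ) :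
    |(scI q₀ M M' : ℝ) / (Fintype.card Q : ℝ) ^ 2 - c| ≤
      |((reachI q₀ M.1 M'.1).card : ℝ) / (Fintype.card Q : ℝ) ^ 2 - c| +
        (((T1 M M').card : ℝ) + ((T1 M' M).card : ℝ)) / (Fintype.card Q : ℝ) ^ 2 := by
  have hn : 0 < (Fintype.card Q : ℝ) := by
    exact_mod_cast Fintype.card_pos_iff.2 ⟨q₀⟩
  have h1 : (scI q₀ M M' : ℝ) ≤ ((reachI q₀ M.1 M'.1).card : ℝ) := by
    exact_mod_cast scI_le q₀ M M'
  have h2 : ((reachI q₀ M.1 M'.1).card : ℝ) ≤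
      (scI q₀ M M' : ℝ) + (((T1 M M').card : ℝ) + ((T1 M' M).card : ℝ)) := by
    exact_mod_cast le_scI q₀ M M'
  set x : ℝ := (scI q₀ M M' : ℝ)
  set y : ℝ := ((reachI q₀ M.1 M'.1).card : ℝ)
  set t : ℝ := ((T1 M M').card : ℝ) + ((T1 M' M).card : ℝ)
  set N : ℝ := (Fintype.card Q : ℝ)
  have h3 : |x / N ^ 2 - y / N ^ 2| ≤ t / N ^ 2 := by
    rw [← sub_div, abs_div, abs_of_nonneg (by positivity : 0 ≤ N ^ 2)]
    apply div_le_div_of_nonneg_right _ (by positivity)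
    rw [abs_le]
    constructor <;> linarith
  calc |x / N ^ 2 - c| = |(x / N ^ 2 - y / N ^ 2) + (y / N ^ 2 - c)| := by ring_nf
    _ ≤ |x / N ^ 2 - y / N ^ 2| + |y / N ^ 2 - c| := abs_add_le _ _
    _ ≤ _ := by linarith

end one

section limit

variable (A : Type u) [Fintype A]

open Classical in
/-- the probability of a deviation of the number of reachable pairs in the surjection model -/
noncomputable def pr (n : ℕ) (c ε : ℝ) : ℝ :=
  ES A n fun δ => ES A n fun δ' =>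
    if ε < |((reachI (0 : Fin (n + 1)) δ δ').card : ℝ) / ((n : ℝ) + 1) ^ 2 - c| then 1 else 0

open Classical in
lemma sum_bad_le [Nonempty A] (n : ℕ) (c ε : ℝ) {c₀ : ℝ} (hc₀ : 0 < c₀)
    (hacc : c₀ * ((Sur A (0 : Fin (n + 1))).card : ℝ) ≤ ((AccF A (0 : Fin (n + 1))).card : ℝ)) :
    ∑ δ ∈ AccF A (0 : Fin (n + 1)), ∑ δ' ∈ AccF A (0 : Fin (n + 1)),
      (if ε < |((reachI (0 : Fin (n + 1)) δ δ').card : ℝ) / ((n : ℝ) + 1) ^ 2 - c|
        then (1 : ℝ) else 0) ≤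
      (((AccF A (0 : Fin (n + 1))).card : ℝ) / c₀) ^ 2 * pr A n c ε := by
  set S := Sur A (0 : Fin (n + 1)) with hS
  set a := ((AccF A (0 : Fin (n + 1))).card : ℝ) with ha
  set s : ℝ := (S.card : ℝ) with hs
  set I : (Fin (n + 1) → A → Fin (n + 1)) → (Fin (n + 1) → A → Fin (n + 1)) → ℝ := fun δ δ' =>
    if ε < |((reachI (0 : Fin (n + 1)) δ δ').card : ℝ) / ((n : ℝ) + 1) ^ 2 - c|
        then (1 : ℝ) else 0 with hI
  have hI0 : ∀ δ δ', 0 ≤ I δ δ' := by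
    intro δ δ'
    simp only [hI]
    split_ifs <;> norm_num
  have hapos : 0 < a := by
    rw [ha]; exact_mod_cast card_AccF_pos (A := A) (0 : Fin (n + 1))
  have hsub : AccF A (0 : Fin (n + 1)) ⊆ S := AccF_sub_Sur 0
  have hspos : 0 < s := by
    have : a ≤ s := by
      rw [ha, hs]; exact_mod_cast card_le_card hsub
    linarith
  have h1 : ∑ δ ∈ AccF A (0 : Fin (n + 1)), ∑ δ' ∈ AccF A (0 : Fin (n + 1)), I δ δ' ≤
      ∑ δ ∈ S, ∑ δ' ∈ S, I δ δ' := by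
    calc _ ≤ ∑ δ ∈ AccF A (0 : Fin (n + 1)), ∑ δ' ∈ S, I δ δ' :=
          sum_le_sum fun δ _ => sum_le_sum_of_subset_of_nonneg hsub fun _ _ _ => hI0 _ _
      _ ≤ _ := sum_le_sum_of_subset_of_nonneg hsub fun _ _ _ => sum_nonneg fun _ _ => hI0 _ _
  have h2 : pr A n c ε = (∑ δ ∈ S, ∑ δ' ∈ S, I δ δ') / s ^ 2 := by
    show (∑ δ ∈ S, (∑ δ' ∈ S, I δ δ') / s) / s = _
    rw [← sum_div, div_div, pow_two]
  refine h1.trans ?_
  rw [h2]
  have h3 : 0 ≤ ∑ δ ∈ S, ∑ δ' ∈ S, I δ δ' := sum_nonneg fun _ _ => sum_nonneg fun _ _ => hI0 _ _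
  have h4 : s ≤ a / c₀ := by
    rw [le_div_iff₀ hc₀]
    linarith
  have h5 : s ^ 2 ≤ (a / c₀) ^ 2 := pow_le_pow_left₀ hspos.le h4 2
  calc ∑ δ ∈ S, ∑ δ' ∈ S, I δ δ' = s ^ 2 * ((∑ δ ∈ S, ∑ δ' ∈ S, I δ δ') / s ^ 2) := by
        field_simp
    _ ≤ _ := mul_le_mul_of_nonneg_right h5 (div_nonneg h3 (sq_nonneg s))

/-- the basic estimate -/
lemma main_bound (hk : 2 ≤ Fintype.card A) {c : ℝ} (hc : 0 ≤ c) {c₀ : ℝ} (hc₀ : 0 < c₀) :
    ∃ C : ℝ, 0 ≤ C ∧ ∃ n0 : ℕ, ∀ n ≥ n0, ∀ ε : ℝ, 0 < ε →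
      c₀ * ((Sur A (0 : Fin (n + 1))).card : ℝ) ≤ ((AccF A (0 : Fin (n + 1))).card : ℝ) →
      |En A (n + 1) / ((n : ℝ) + 1) ^ 2 - c| ≤
        ε + 16 * (1 + c) / c₀ ^ 2 * pr A n c ε + C / ((n : ℝ) + 1) := by
  classical
  have hA : Nonempty A := Fintype.card_pos_iff.1 (by omega)
  obtain ⟨C, hC, hT⟩ := sum_tcount.{u, 0} A hk
  obtain ⟨n1, hn1⟩ := card_NR.{u, 0} (A := A) hk
  refine ⟨32 * C, by positivity, n1, ?_⟩
  intro n hn ε hε hacc
  set q₀ : Fin (n + 1) := 0 with hq₀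
  have hcard : Fintype.card (Fin (n + 1)) = n + 1 := Fintype.card_fin _
  set a := (AccF A q₀).card with ha
  set m := (MinF A q₀).card with hm
  have hNR := hn1 (Fin (n + 1)) q₀ (by rw [hcard]; omega)
  rw [← ha, hcard] at hNR
  have hMN := card_MinF_NR (A := A) q₀
  rw [card_AM, ← hm, ← ha, hcard] at hMN
  have hm4 : 2 ^ (n + 1) * a ≤ 4 * m := by omega
  have hapos : 0 < a := card_AccF_pos q₀
  have hmpos : 0 < m := by
    have : 0 < 2 ^ (n + 1) * a := Nat.mul_pos (Nat.pow_pos two_pos) hapos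
    omega
  have hN0 : (0 : ℝ) < (n : ℝ) + 1 := by positivity
  have hm0 : (0 : ℝ) < m := by exact_mod_cast hmpos
  have hm4' : (2 : ℝ) ^ (n + 1) * a ≤ 4 * m := by exact_mod_cast hm4
  have hm16 : (4 : ℝ) ^ (n + 1) * (a : ℝ) ^ 2 ≤ 16 * (m : ℝ) ^ 2 := by
    have h1 := pow_le_pow_left₀ (mul_nonneg (pow_nonneg zero_le_two _) (Nat.cast_nonneg _)) hm4' 2
    have h2 : ((2 : ℝ) ^ (n + 1)) ^ 2 = 4 ^ (n + 1) := by
      rw [← pow_mul, mul_comm, pow_mul]; norm_num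
    calc (4 : ℝ) ^ (n + 1) * (a : ℝ) ^ 2 = ((2 : ℝ) ^ (n + 1) * a) ^ 2 := by rw [mul_pow, h2]
      _ ≤ _ := h1
      _ = _ := by ring
  set P := MinF A q₀ ×ˢ MinF A q₀ with hP
  have hAMsum : ∀ f : (Fin (n + 1) → A → Fin (n + 1)) → ℝ,
      ∑ M ∈ AM A q₀, f M.1 = 2 ^ (n + 1) * ∑ δ ∈ AccF A q₀, f δ := by
    intro f
    rw [AM, sum_product]
    simp only [sum_const, card_univ, Fintype.card_fun, Fintype.card_bool, nsmul_eq_mul]
    rw [← mul_sum, hcard]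
    push_cast
    rfl
  have hcardP : (P.card : ℝ) = (m : ℝ) ^ 2 := by
    rw [hP, card_product, ← hm]
    push_cast
    ring
  -- the average
  have hEn : En A (n + 1) / ((n : ℝ) + 1) ^ 2 - c =
      (∑ x ∈ P, ((scI q₀ x.1 x.2 : ℝ) / ((n : ℝ) + 1) ^ 2 - c)) / (m : ℝ) ^ 2 := by
    have h0 := En_eq A n
    rw [← hq₀, ← hm] at h0
    rw [sum_sub_distrib, sum_const, nsmul_eq_mul, hcardP, ← sum_div, hP, sum_product, h0]
    clear_value m a
    field_simp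
  rw [hEn, abs_div, abs_of_nonneg (sq_nonneg (m : ℝ)), div_le_iff₀ (pow_pos hm0 2)]
  -- the indicator
  set I : (Fin (n + 1) → A → Fin (n + 1)) → (Fin (n + 1) → A → Fin (n + 1)) → ℝ := fun δ δ' =>
    if ε < |((reachI (0 : Fin (n + 1)) δ δ').card : ℝ) / ((n : ℝ) + 1) ^ 2 - c|
        then (1 : ℝ) else 0 with hI
  have hI0 : ∀ δ δ', 0 ≤ I δ δ' := by
    intro δ δ'
    simp only [hI]
    split_ifs <;> norm_num
  -- pointwise
  have hpt : ∀ x ∈ P, |(scI q₀ x.1 x.2 : ℝ) / ((n : ℝ) + 1) ^ 2 - c| ≤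
      ε + (1 + c) * I x.1.1 x.2.1 +
        (((T1 x.1 x.2).card : ℝ) + ((T1 x.2 x.1).card : ℝ)) / ((n : ℝ) + 1) ^ 2 := by
    intro x _
    have h1 := abs_dev q₀ x.1 x.2 c
    rw [hcard] at h1
    push_cast at h1
    have h2 : |((reachI q₀ x.1.1 x.2.1).card : ℝ) / ((n : ℝ) + 1) ^ 2 - c| ≤
        ε + (1 + c) * I x.1.1 x.2.1 := by
      by_cases h : ε < |((reachI q₀ x.1.1 x.2.1).card : ℝ) / ((n : ℝ) + 1) ^ 2 - c|
      · have h3 : I x.1.1 x.2.1 = 1 := if_pos h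
        rw [h3]
        have h4 : ((reachI q₀ x.1.1 x.2.1).card : ℝ) ≤ ((n : ℝ) + 1) ^ 2 := by
          have := card_reachI_le q₀ x.1.1 x.2.1
          rw [hcard] at this
          exact_mod_cast this
        have h5 : ((reachI q₀ x.1.1 x.2.1).card : ℝ) / ((n : ℝ) + 1) ^ 2 ≤ 1 := by
          rw [div_le_one (pow_pos hN0 2)]
          exact h4
        have h6 : 0 ≤ ((reachI q₀ x.1.1 x.2.1).card : ℝ) / ((n : ℝ) + 1) ^ 2 :=
          div_nonneg (Nat.cast_nonneg _) (sq_nonneg _)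
        rw [abs_le]
        constructor <;> linarith only [h5, h6, hc, hε]
      · have h3 : I x.1.1 x.2.1 = 0 := if_neg h
        rw [h3]
        push Not at h
        linarith only [h]
    linarith only [h1, h2]
  -- sums
  have hsumI : ∑ x ∈ P, I x.1.1 x.2.1 ≤ 16 * (m : ℝ) ^ 2 / c₀ ^ 2 * pr A n c ε := by
    have h1 : ∑ x ∈ P, I x.1.1 x.2.1 ≤ ∑ x ∈ AM A q₀ ×ˢ AM A q₀, I x.1.1 x.2.1 :=
      sum_le_sum_of_subset_of_nonneg (product_subset_product (MinF_sub q₀) (MinF_sub q₀))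
        fun _ _ _ => hI0 _ _
    have h2 : ∑ x ∈ AM A q₀ ×ˢ AM A q₀, I x.1.1 x.2.1 =
        4 ^ (n + 1) * ∑ δ ∈ AccF A q₀, ∑ δ' ∈ AccF A q₀, I δ δ' := by
      rw [sum_product]
      have h3 : ∀ M : (Fin (n + 1) → A → Fin (n + 1)) × (Fin (n + 1) → Bool),
          ∑ M' ∈ AM A q₀, I M.1 M'.1 = 2 ^ (n + 1) * ∑ δ' ∈ AccF A q₀, I M.1 δ' := fun M =>
        hAMsum fun δ' => I M.1 δ'
      simp only [h3]
      rw [← mul_sum, hAMsum fun δ => ∑ δ' ∈ AccF A q₀, I δ δ', ← mul_assoc, ← mul_pow]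
      norm_num
    have h3 := sum_bad_le A n c ε hc₀ hacc
    have hpr : 0 ≤ pr A n c ε := by
      unfold pr ES
      apply div_nonneg _ (Nat.cast_nonneg _)
      apply sum_nonneg
      intro δ _
      apply div_nonneg _ (Nat.cast_nonneg _)
      exact sum_nonneg fun δ' _ => hI0 δ δ'
    calc ∑ x ∈ P, I x.1.1 x.2.1 ≤ 4 ^ (n + 1) * ∑ δ ∈ AccF A q₀, ∑ δ' ∈ AccF A q₀, I δ δ' := by
          rw [← h2]; exact h1
      _ ≤ 4 ^ (n + 1) * (((a : ℝ) / c₀) ^ 2 * pr A n c ε) :=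
          mul_le_mul_of_nonneg_left h3 (pow_nonneg (by norm_num) _)
      _ = (4 ^ (n + 1) * (a : ℝ) ^ 2) / c₀ ^ 2 * pr A n c ε := by
          rw [div_pow]; ring
      _ ≤ _ := by
          apply mul_le_mul_of_nonneg_right _ hpr
          exact div_le_div_of_nonneg_right hm16 (sq_nonneg _)
  have hsumT : ∑ x ∈ P, (((T1 x.1 x.2).card : ℝ) + ((T1 x.2 x.1).card : ℝ)) ≤
      32 * C * ((n : ℝ) + 1) * (m : ℝ) ^ 2 := by
    have h1 : ∑ x ∈ P, (((T1 x.1 x.2).card : ℝ) + ((T1 x.2 x.1).card : ℝ)) ≤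
        ∑ x ∈ AM A q₀ ×ˢ AM A q₀, ((T1 x.1 x.2).card : ℝ) +
          ∑ x ∈ AM A q₀ ×ˢ AM A q₀, ((T1 x.2 x.1).card : ℝ) := by
      rw [← sum_add_distrib]
      exact sum_le_sum_of_subset_of_nonneg
            (product_subset_product (MinF_sub q₀) (MinF_sub q₀)) fun _ _ _ =>
              add_nonneg (Nat.cast_nonneg _) (Nat.cast_nonneg _)
    have h2 := sum_T1 (A := A) q₀
    have h3 := hT (Fin (n + 1)) q₀
    rw [← h2, hcard, ← ha] at h3
    push_cast at h3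
    have e1 : ∑ x ∈ AM A q₀ ×ˢ AM A q₀, ((T1 x.1 x.2).card : ℝ) =
        ∑ M ∈ AM A q₀, ∑ M' ∈ AM A q₀, ((T1 M M').card : ℝ) := sum_product _ _ _
    have e2 : ∑ x ∈ AM A q₀ ×ˢ AM A q₀, ((T1 x.2 x.1).card : ℝ) =
        ∑ M ∈ AM A q₀, ∑ M' ∈ AM A q₀, ((T1 M M').card : ℝ) := by
      rw [sum_product, sum_comm]
    rw [e1, e2] at h1
    calc _ ≤ _ := h1
      _ = 2 * ∑ M ∈ AM A q₀, ∑ M' ∈ AM A q₀, ((T1 M M').card : ℝ) := by ring
      _ ≤ 2 * (C * (4 ^ (n + 1) * (((n : ℝ) + 1) * (a : ℝ) ^ 2))) :=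
          mul_le_mul_of_nonneg_left h3 zero_le_two
      _ = 2 * C * ((n : ℝ) + 1) * (4 ^ (n + 1) * (a : ℝ) ^ 2) := by ring
      _ ≤ 2 * C * ((n : ℝ) + 1) * (16 * (m : ℝ) ^ 2) :=
          mul_le_mul_of_nonneg_left hm16 (mul_nonneg (mul_nonneg zero_le_two hC) hN0.le)
      _ = _ := by ring
  calc |∑ x ∈ P, ((scI q₀ x.1 x.2 : ℝ) / ((n : ℝ) + 1) ^ 2 - c)|
      ≤ ∑ x ∈ P, |(scI q₀ x.1 x.2 : ℝ) / ((n : ℝ) + 1) ^ 2 - c| := abs_sum_le_sum_abs _ _
    _ ≤ ∑ x ∈ P, (ε + (1 + c) * I x.1.1 x.2.1 +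
        (((T1 x.1 x.2).card : ℝ) + ((T1 x.2 x.1).card : ℝ)) / ((n : ℝ) + 1) ^ 2) :=
        sum_le_sum hpt
    _ = ε * (m : ℝ) ^ 2 + (1 + c) * ∑ x ∈ P, I x.1.1 x.2.1 +
        (∑ x ∈ P, (((T1 x.1 x.2).card : ℝ) + ((T1 x.2 x.1).card : ℝ))) / ((n : ℝ) + 1) ^ 2 := by
        rw [sum_add_distrib, sum_add_distrib, sum_const, nsmul_eq_mul, hcardP, ← mul_sum,
          ← sum_div, mul_comm ε]
    _ ≤ ε * (m : ℝ) ^ 2 + (1 + c) * (16 * (m : ℝ) ^ 2 / c₀ ^ 2 * pr A n c ε) +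
        (32 * C * ((n : ℝ) + 1) * (m : ℝ) ^ 2) / ((n : ℝ) + 1) ^ 2 := by
        apply add_le_add
        · apply add_le_add le_rfl
          exact mul_le_mul_of_nonneg_left hsumI (add_nonneg zero_le_one hc)
        · exact div_le_div_of_nonneg_right hsumT (sq_nonneg _)
    _ = _ := by
        clear_value P I m a
        field_simp

open Classical in
/-- **final glue** -/
theorem En_limit_of (hk : 2 ≤ Fintype.card A) {c : ℝ} (hc : 0 ≤ c)
    (hacc : ∃ c₀ : ℝ, 0 < c₀ ∧ ∃ n0 : ℕ, ∀ n ≥ n0,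
      c₀ * ((Sur A (0 : Fin (n + 1))).card : ℝ) ≤ ((AccF A (0 : Fin (n + 1))).card : ℝ))
    (hreach : ∀ ε : ℝ, 0 < ε → Tendsto (fun n : ℕ => ES A n fun δ => ES A n fun δ' =>
      if ε < |((univ.filter fun x : Fin (n + 1) × Fin (n + 1) =>
          ∃ w : List A, run δ 0 w = x.1 ∧ run δ' 0 w = x.2).card : ℝ) / ((n : ℝ) + 1) ^ 2 -
            c| then 1 else 0) atTop (𝓝 0)) :
    Tendsto (fun n : ℕ => En A n / (n : ℝ) ^ 2) atTop (𝓝 c) := by
  have hpr : ∀ ε : ℝ, 0 < ε → Tendsto (fun n : ℕ => pr A n c ε) atTop (𝓝 0) := by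
    intro ε hε
    refine (hreach ε hε).congr ?_
    intro n
    unfold pr
    congr 1
    funext δ
    congr 1
    funext δ'
    have h1 : (univ.filter fun x : Fin (n + 1) × Fin (n + 1) =>
          ∃ w : List A, run δ 0 w = x.1 ∧ run δ' 0 w = x.2) = reachI (0 : Fin (n + 1)) δ δ' := by
      ext ⟨p, q⟩
      rw [reachI, mem_filter, mem_filter]
      simp only [Prod.mk.injEq]
    rw [h1]
  obtain ⟨c₀, hc₀, n0, hacc⟩ := hacc
  obtain ⟨C, hC, n1, hmain⟩ := main_bound A hk hc hc₀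
  rw [← tendsto_add_atTop_iff_nat 1]
  rw [Metric.tendsto_atTop]
  intro η hη
  have hε : 0 < η / 4 := by positivity
  have h1 : ∀ᶠ n : ℕ in atTop, 16 * (1 + c) / c₀ ^ 2 * pr A n c (η / 4) < η / 4 := by
    have h2 : Tendsto (fun n : ℕ => 16 * (1 + c) / c₀ ^ 2 * pr A n c (η / 4)) atTop (𝓝 0) := by
      have := (hpr (η / 4) hε).const_mul (16 * (1 + c) / c₀ ^ 2)
      rwa [mul_zero] at this
    exact h2.eventually (gt_mem_nhds hε)
  have h2 : ∀ᶠ n : ℕ in atTop, C / ((n : ℝ) + 1) < η / 4 := by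
    have h3 : Tendsto (fun n : ℕ => C / ((n : ℝ) + 1)) atTop (𝓝 0) := by
      apply Tendsto.div_atTop tendsto_const_nhds
      exact tendsto_atTop_add_const_right _ _ tendsto_natCast_atTop_atTop
    exact h3.eventually (gt_mem_nhds hε)
  obtain ⟨n2, hn2⟩ := eventually_atTop.1 (h1.and h2)
  refine ⟨max n0 (max n1 n2), ?_⟩
  intro n hn
  have hn0 : n0 ≤ n := le_trans (le_max_left _ _) hn
  have hn1 : n1 ≤ n := le_trans (le_trans (le_max_left _ _) (le_max_right _ _)) hn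
  have hn2' : n2 ≤ n := le_trans (le_trans (le_max_right _ _) (le_max_right _ _)) hn
  have h3 := hmain n hn1 (η / 4) hε (hacc n hn0)
  obtain ⟨h4, h5⟩ := hn2 n hn2'
  rw [Real.dist_eq]
  push_cast
  linarith

end limit

end Gl

end Pool.Agent.SC
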