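import Pool.Agent.W_MP_6663ab_lc.SDefs

/-!
# Assembly of the reachability law

`reach_law_of`: the number of reachable pairs divided by `(n+1)^2` converges in probability to
`cInf`, from the local law, the small ball estimate, the monotonicity of `cD` and the `L^2`
estimate for the end point density of the random walk.
-/

namespace Pool.Agent.SC

open Finset Filter
open scoped ENNReal Topology

universe u

namespace RA

variable {A : Type u} [Fintype A]

section ES

variable {n : ℕ}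

lemma ES_add (f g : (Fin (n + 1) → A → Fin (n + 1)) → ℝ) :
    ES A n (fun δ => f δ + g δ) = ES A n f + ES A n g := by
  unfold ES; rw [sum_add_distrib, add_div]

lemma ES_mono {f g : (Fin (n + 1) → A → Fin (n + 1)) → ℝ} (h : ∀ δ, f δ ≤ g δ) :
    ES A n f ≤ ES A n g := by
  unfold ES
  exact div_le_div_of_nonneg_right (sum_le_sum fun δ _ => h δ) (Nat.cast_nonneg _)

lemma ES_nonneg {f : (Fin (n + 1) → A → Fin (n + 1)) → ℝ} (h : ∀ δ, 0 ≤ f δ) :
    0 ≤ ES A n f :=
  div_nonneg (sum_nonneg fun δ _ => h δ) (Nat.cast_nonneg _)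

lemma ES_const_le {c : ℝ} (hc : 0 ≤ c) : ES A n (fun _ => c) ≤ c := by
  unfold ES
  rw [sum_const, nsmul_eq_mul]
  by_cases h : ((Sur A (0 : Fin (n + 1))).card : ℝ) = 0
  · rw [h]; simpa
  · rw [mul_comm, mul_div_assoc, div_self h, mul_one]

lemma ES_mul (c : ℝ) (f : (Fin (n + 1) → A → Fin (n + 1)) → ℝ) :
    ES A n (fun δ => c * f δ) = c * ES A n f := by
  unfold ES; rw [← mul_sum, mul_div_assoc]

/-- double expectation -/
noncomputable def E2 (n : ℕ) (f : (Fin (n + 1) → A → Fin (n + 1)) →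
    (Fin (n + 1) → A → Fin (n + 1)) → ℝ) : ℝ :=
  ES A n fun δ => ES A n fun δ' => f δ δ'

lemma E2_mono {f g : (Fin (n + 1) → A → Fin (n + 1)) →
    (Fin (n + 1) → A → Fin (n + 1)) → ℝ} (h : ∀ δ δ', f δ δ' ≤ g δ δ') : E2 n f ≤ E2 n g :=
  ES_mono fun δ => ES_mono fun δ' => h δ δ'

lemma E2_nonneg {f : (Fin (n + 1) → A → Fin (n + 1)) →
    (Fin (n + 1) → A → Fin (n + 1)) → ℝ} (h : ∀ δ δ', 0 ≤ f δ δ') : 0 ≤ E2 n f :=
  ES_nonneg fun δ => ES_nonneg fun δ' => h δ δ'

lemma E2_add (f g : (Fin (n + 1) → A → Fin (n + 1)) →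
    (Fin (n + 1) → A → Fin (n + 1)) → ℝ) :
    E2 n (fun δ δ' => f δ δ' + g δ δ') = E2 n f + E2 n g := by
  unfold E2
  rw [← ES_add]
  congr 1
  funext δ
  rw [ES_add]

lemma E2_mul (c : ℝ) (f : (Fin (n + 1) → A → Fin (n + 1)) →
    (Fin (n + 1) → A → Fin (n + 1)) → ℝ) :
    E2 n (fun δ δ' => c * f δ δ') = c * E2 n f := by
  unfold E2
  rw [← ES_mul]
  congr 1
  funext δ
  rw [ES_mul]

lemma E2_const_le {c : ℝ} (hc : 0 ≤ c) :
    E2 (A := A) n (fun _ _ => c) ≤ c :=
  le_trans (ES_mono fun _ => ES_const_le hc) (ES_const_le hc)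

lemma E2_fst_le {f : (Fin (n + 1) → A → Fin (n + 1)) → ℝ} (h : ∀ δ, 0 ≤ f δ) :
    E2 n (fun δ _ => f δ) ≤ ES A n f :=
  ES_mono fun δ => ES_const_le (h δ)

lemma E2_snd_le {f : (Fin (n + 1) → A → Fin (n + 1)) → ℝ} (h : ∀ δ, 0 ≤ f δ) :
    E2 n (fun _ δ' => f δ') ≤ ES A n f :=
  ES_const_le (ES_nonneg h)

end ES

section emp

variable [Nonempty A] {n : ℕ}

variable (A) in
/-- real weights of the level `D` law -/
noncomputable def mr (D : ℕ) (τ : Multiset (List A)) : ℝ := (mu A D τ).toReal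

lemma mr_nonneg (D : ℕ) (τ : Multiset (List A)) : 0 ≤ mr A D τ := ENNReal.toReal_nonneg

lemma mr_hasSum (D : ℕ) : HasSum (mr A D) 1 := by
  have h1 : ∑' τ, mu A D τ = 1 := (mu A D).tsum_coe
  have h2 : Summable (mr A D) := ENNReal.summable_toReal (by rw [h1]; exact ENNReal.one_ne_top)
  have h3 : ∑' τ, mr A D τ = 1 := by
    unfold mr
    rw [← ENNReal.tsum_toReal_eq (fun τ => PMF.apply_ne_top _ _), h1, ENNReal.toReal_one]
  rw [← h3]
  exact h2.hasSum

lemma mr_summable (D : ℕ) : Summable (mr A D) := (mr_hasSum D).summable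

/-- distance of the empirical level `D` law and the limit law -/
noncomputable def LL (D : ℕ) (δ : Fin (n + 1) → A → Fin (n + 1)) : ℝ :=
  ∑' τ, |fr δ D τ - mr A D τ|

lemma LL_nonneg (D : ℕ) (δ : Fin (n + 1) → A → Fin (n + 1)) : 0 ≤ LL D δ :=
  tsum_nonneg fun _ => abs_nonneg _

open Classical in
lemma fr_zero (δ : Fin (n + 1) → A → Fin (n + 1)) (D : ℕ) {τ : Multiset (List A)}
    (h : τ ∉ univ.image (lev δ D)) : fr δ D τ = 0 := by
  unfold fr
  rw [filter_false_of_mem, card_empty, Nat.cast_zero, zero_div]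
  intro p _ hp
  exact h (mem_image.2 ⟨p, mem_univ _, hp⟩)

open Classical in
lemma fr_sum (δ : Fin (n + 1) → A → Fin (n + 1)) (D : ℕ) (g : Multiset (List A) → ℝ) :
    HasSum (fun τ => fr δ D τ * g τ) ((∑ p, g (lev δ D p)) / ((n : ℝ) + 1)) := by
  have h1 : (∑ p, g (lev δ D p)) / ((n : ℝ) + 1) =
      ∑ τ ∈ univ.image (lev δ D), fr δ D τ * g τ := by
    rw [Finset.sum_comp g (lev δ D), sum_div]
    apply sum_congr rfl
    intro τ _
    unfold fr
    rw [nsmul_eq_mul]
    ring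
  rw [h1]
  apply hasSum_sum_of_ne_finset_zero
  intro τ hτ
  rw [fr_zero δ D hτ, zero_mul]

lemma fr_summable (δ : Fin (n + 1) → A → Fin (n + 1)) (D : ℕ) : Summable (fr δ D) := by
  have := (fr_sum δ D fun _ => 1).summable
  simpa using this

lemma diff_summable (δ : Fin (n + 1) → A → Fin (n + 1)) (D : ℕ) :
    Summable fun τ => |fr δ D τ - mr A D τ| :=
  ((fr_summable δ D).sub (mr_summable D)).abs

lemma mul_summable (D : ℕ) {g : Multiset (List A) → ℝ} (hg : ∀ τ, |g τ| ≤ 1) :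
    Summable fun τ => mr A D τ * g τ := by
  apply Summable.of_norm_bounded (mr_summable (A := A) D)
  intro τ
  rw [Real.norm_eq_abs, abs_mul, abs_of_nonneg (mr_nonneg D τ)]
  exact mul_le_of_le_one_right (mr_nonneg D τ) (hg τ)

lemma mul_tsum_abs_le (D : ℕ) {g : Multiset (List A) → ℝ} (hg : ∀ τ, |g τ| ≤ 1) :
    |∑' τ, mr A D τ * g τ| ≤ 1 := by
  have h1 := mul_summable D hg
  calc |∑' τ, mr A D τ * g τ| ≤ ∑' τ, |mr A D τ * g τ| := by
        have := norm_tsum_le_tsum_norm h1.norm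
        simpa [Real.norm_eq_abs] using this
    _ ≤ ∑' τ, mr A D τ := by
        apply Summable.tsum_le_tsum _ h1.abs (mr_summable D)
        intro τ
        rw [abs_mul, abs_of_nonneg (mr_nonneg D τ)]
        exact mul_le_of_le_one_right (mr_nonneg D τ) (hg τ)
    _ = 1 := (mr_hasSum D).tsum_eq

lemma emp_bound (δ : Fin (n + 1) → A → Fin (n + 1)) (D : ℕ) {g : Multiset (List A) → ℝ}
    (hg : ∀ τ, |g τ| ≤ 1) :
    |(∑ p, g (lev δ D p)) / ((n : ℝ) + 1) - ∑' τ, mr A D τ * g τ| ≤ LL D δ := by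
  have h1 := fr_sum δ D g
  have h2 := mul_summable D hg
  rw [← h1.tsum_eq, ← h1.summable.tsum_sub h2]
  have h3 := h1.summable.sub h2
  calc |∑' τ, (fr δ D τ * g τ - mr A D τ * g τ)| ≤ ∑' τ, |fr δ D τ * g τ - mr A D τ * g τ| := by
        have := norm_tsum_le_tsum_norm h3.norm
        simpa [Real.norm_eq_abs] using this
    _ ≤ LL D δ := by
        apply Summable.tsum_le_tsum _ h3.abs (diff_summable δ D)
        intro τ
        rw [← sub_mul, abs_mul]
        exact mul_le_of_le_one_right (abs_nonneg _) (hg τ)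

/-- double expectation with respect to the limit law -/
noncomputable def EE (D : ℕ) (h : Multiset (List A) → Multiset (List A) → ℝ) : ℝ :=
  ∑' τ, mr A D τ * ∑' τ', mr A D τ' * h τ τ'

/-- average over all pairs of states -/
noncomputable def av (D : ℕ) (h : Multiset (List A) → Multiset (List A) → ℝ)
    (δ δ' : Fin (n + 1) → A → Fin (n + 1)) : ℝ :=
  (∑ p, ∑ q, h (lev δ D p) (lev δ' D q)) / ((n : ℝ) + 1) ^ 2

lemma emp_bound2 (δ δ' : Fin (n + 1) → A → Fin (n + 1)) (D : ℕ)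
    {h : Multiset (List A) → Multiset (List A) → ℝ} (hh : ∀ x y, |h x y| ≤ 1) :
    |av D h δ δ' - EE D h| ≤ LL D δ + LL D δ' := by
  have hn : (0 : ℝ) < (n : ℝ) + 1 := by positivity
  let H : Multiset (List A) → ℝ := fun τ => ∑' τ', mr A D τ' * h τ τ'
  have h1 : |(∑ p, H (lev δ D p)) / ((n : ℝ) + 1) - EE D h| ≤ LL D δ :=
    emp_bound δ D fun τ => mul_tsum_abs_le D fun τ' => hh τ τ'
  have h2 : |av D h δ δ' - (∑ p, H (lev δ D p)) / ((n : ℝ) + 1)| ≤ LL D δ' := by
    have h3 : av D h δ δ' - (∑ p, H (lev δ D p)) / ((n : ℝ) + 1) =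
        (∑ p, ((∑ q, h (lev δ D p) (lev δ' D q)) / ((n : ℝ) + 1) - H (lev δ D p))) /
          ((n : ℝ) + 1) := by
      unfold av
      rw [sum_sub_distrib, ← sum_div]
      field_simp
    rw [h3, abs_div, abs_of_pos hn, div_le_iff₀ hn]
    calc |∑ p, ((∑ q, h (lev δ D p) (lev δ' D q)) / ((n : ℝ) + 1) - H (lev δ D p))|
        ≤ ∑ p, |(∑ q, h (lev δ D p) (lev δ' D q)) / ((n : ℝ) + 1) - H (lev δ D p)| :=
          abs_sum_le_sum_abs _ _
      _ ≤ ∑ _p : Fin (n + 1), LL D δ' :=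
          sum_le_sum fun p _ => emp_bound δ' D fun τ => hh _ τ
      _ = LL D δ' * ((n : ℝ) + 1) := by
          rw [sum_const, card_univ, Fintype.card_fin, nsmul_eq_mul]
          push_cast
          ring
  calc |av D h δ δ' - EE D h| ≤ |av D h δ δ' - (∑ p, H (lev δ D p)) / ((n : ℝ) + 1)| +
        |(∑ p, H (lev δ D p)) / ((n : ℝ) + 1) - EE D h| := abs_sub_le _ _ _
    _ ≤ LL D δ + LL D δ' := by linarith

/-- convergence of averages over pairs of states -/
lemma av_tendsto (D : ℕ)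
    (hloc : Tendsto (fun n : ℕ => ES A n fun δ => ∑' τ, |fr δ D τ - (mu A D τ).toReal|) atTop
      (𝓝 0))
    {h : Multiset (List A) → Multiset (List A) → ℝ} (hh : ∀ x y, |h x y| ≤ 1) :
    Tendsto (fun n : ℕ => E2 (A := A) n fun δ δ' => |av D h δ δ' - EE D h|) atTop (𝓝 0) := by
  have h0 : Tendsto (fun n : ℕ => (ES A n fun δ => LL D δ) + ES A n fun δ => LL D δ) atTop
      (𝓝 0) := by
    have := hloc.add hloc
    rw [add_zero] at this
    exact this
  refine squeeze_zero (fun n => E2_nonneg fun δ δ' => abs_nonneg _) (fun n => ?_) h0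
  calc E2 (A := A) n (fun δ δ' => |av D h δ δ' - EE D h|)
      ≤ E2 n (fun δ δ' => LL D δ + LL D δ') := E2_mono fun δ δ' => emp_bound2 δ δ' D hh
    _ = E2 n (fun δ _ => LL D δ) + E2 n (fun _ δ' => LL D δ') := E2_add _ _
    _ ≤ _ := add_le_add (E2_fst_le fun δ => LL_nonneg D δ) (E2_snd_le fun δ => LL_nonneg D δ)

/-! ### relation with `ex` -/

lemma ex_toReal (D : ℕ) {f : Multiset (List A) → ℝ≥0∞} (hf : ∀ τ, f τ ≤ 1) :
    (ex (mu A D) f).toReal = ∑' τ, mr A D τ * (f τ).toReal := by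
  unfold ex
  rw [ENNReal.tsum_toReal_eq]
  · apply tsum_congr
    intro τ
    rw [ENNReal.toReal_mul]; rfl
  · intro τ
    exact ENNReal.mul_ne_top (PMF.apply_ne_top _ _)
      (ne_top_of_le_ne_top ENNReal.one_ne_top (hf τ))

lemma ex_const {α : Type*} (p : PMF α) (c : ℝ≥0∞) : ex p (fun _ => c) = c := by
  unfold ex
  rw [ENNReal.tsum_mul_right, p.tsum_coe, one_mul]

lemma ex_mono {α : Type*} (p : PMF α) {f g : α → ℝ≥0∞} (h : ∀ x, f x ≤ g x) :
    ex p f ≤ ex p g :=
  ENNReal.tsum_le_tsum fun x => mul_le_mul_right (h x) _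

lemma ex_add {α : Type*} (p : PMF α) (f g : α → ℝ≥0∞) :
    ex p (fun x => f x + g x) = ex p f + ex p g := by
  unfold ex
  rw [← ENNReal.tsum_add]
  apply tsum_congr
  intro x
  rw [mul_add]

lemma ex_le_one {α : Type*} (p : PMF α) {f : α → ℝ≥0∞} (h : ∀ x, f x ≤ 1) : ex p f ≤ 1 :=
  le_trans (ex_mono p h) (ex_const p 1).le

lemma ex2_toReal (D : ℕ) (P : Multiset (List A) → Multiset (List A) → Prop)
    [∀ m m', Decidable (P m m')] :
    (ex (mu A D) fun m => ex (mu A D) fun m' => if P m m' then 1 else 0).toReal =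
      EE D (fun m m' => if P m m' then 1 else 0) := by
  rw [ex_toReal]
  · unfold EE
    apply tsum_congr
    intro τ
    congr 1
    rw [ex_toReal]
    · apply tsum_congr
      intro τ'
      congr 1
      by_cases h : P τ τ' <;> simp [h]
    · intro τ'
      split_ifs <;> simp
  · intro τ
    apply ex_le_one
    intro τ'
    split_ifs <;> simp

open Classical in
/-- the tail of the number of vertices tends to zero -/
lemma tail_tendsto (D : ℕ) :
    Tendsto (fun K : ℕ => ex (mu A D) fun m => if K < Multiset.card m then 1 else 0) atTop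
      (𝓝 0) := by
  have h1 : ∀ K : ℕ, (ex (mu A D) fun m => if K < Multiset.card m then (1 : ℝ≥0∞) else 0) =
      ENNReal.ofReal (∑' τ, mr A D τ * (if K < Multiset.card τ then (1 : ℝ) else 0)) := by
    intro K
    have h2 : (ex (mu A D) fun m => if K < Multiset.card m then (1 : ℝ≥0∞) else 0) ≤ 1 := by
      apply ex_le_one
      intro τ
      split_ifs <;> simp
    rw [← ENNReal.ofReal_toReal (ne_top_of_le_ne_top ENNReal.one_ne_top h2), ex_toReal]
    · congr 2
      funext τ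
      congr 1
      split_ifs <;> simp
    · intro τ
      split_ifs <;> simp
  simp only [h1]
  rw [← ENNReal.ofReal_zero]
  apply ENNReal.tendsto_ofReal
  have h3 : (0 : ℝ) = ∑' τ : Multiset (List A), (0 : ℝ) := by simp
  have h4 : Tendsto (fun K : ℕ => ∑' τ, mr A D τ * (if K < Multiset.card τ then (1 : ℝ) else 0))
      atTop (𝓝 (∑' τ : Multiset (List A), (0 : ℝ))) := by
   apply tendsto_tsum_of_dominated_convergence (mr_summable (A := A) D)
   · intro τ
     apply tendsto_const_nhds.congr'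
     filter_upwards [eventually_ge_atTop (Multiset.card τ)] with K hK
     rw [if_neg (by omega), mul_zero]
   · filter_upwards with K τ
     rw [Real.norm_eq_abs, abs_mul, abs_of_nonneg (mr_nonneg D τ)]
     apply mul_le_of_le_one_right (mr_nonneg D τ)
     split_ifs <;> simp
  rw [← h3] at h4
  exact h4

end emp

section combi

variable {Q : Type*} [Fintype Q]

open Classical in
lemma rev_mem_lev (δ : Q → A → Q) (s : Q) (w : List A) :
    w.reverse ∈ lev δ w.length (run δ s w) := by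
  induction w using List.reverseRecOn with
  | nil => simp [lev]
  | append_singleton w a ih =>
    rw [run_concat, List.length_append, List.length_singleton, List.reverse_append]
    simp only [List.reverse_cons, List.reverse_nil, List.nil_append, List.singleton_append]
    rw [lev, Multiset.mem_sum]
    refine ⟨(run δ s w, a), mem_univ _, ?_⟩
    rw [if_pos rfl]
    exact Multiset.mem_map_of_mem _ ih

open Classical in
lemma ZZ_pos {m m' : Multiset (List A)} {x : List A} (h : x ∈ m) (h' : x ∈ m') :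
    1 ≤ ZZ m m' := by
  unfold ZZ
  calc 1 ≤ m'.count x := Multiset.one_le_count_iff_mem.2 h'
    _ ≤ (m.map fun w => m'.count w).sum :=
        Multiset.le_sum_of_mem (Multiset.mem_map_of_mem (fun w => m'.count w) h)

lemma fK_eq (D K : ℕ) {m m' : Multiset (List A)} (h : Multiset.card m ≤ K)
    (h' : Multiset.card m' ≤ K) :
    fK A D K m m' = (ZZ m m' : ℝ) / (Fintype.card A : ℝ) ^ D := by
  classical
  unfold fK ZZ
  rw [Finset.sum_multiset_map_count]
  push_cast
  congr 1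
  apply sum_congr rfl
  intro w _
  rw [min_eq_left (by exact_mod_cast (Multiset.count_le_card w m).trans h),
    min_eq_left (by exact_mod_cast (Multiset.count_le_card w m').trans h')]
  simp

end combi

section main

variable [Nonempty A] {n : ℕ}

open Classical in
/-- fraction of reachable pairs -/
noncomputable def RR (δ δ' : Fin (n + 1) → A → Fin (n + 1)) : ℝ :=
  ((univ.filter fun x : Fin (n + 1) × Fin (n + 1) =>
    ∃ w : List A, run δ 0 w = x.1 ∧ run δ' 0 w = x.2).card : ℝ) / ((n : ℝ) + 1) ^ 2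

open Classical in
/-- indicator of a common label word -/
noncomputable def h1 (m m' : Multiset (List A)) : ℝ := if 1 ≤ ZZ m m' then 1 else 0

open Classical in
/-- indicator of a common label word together with a small density -/
noncomputable def h2 (D K : ℕ) (δ₀ : ℝ) (m m' : Multiset (List A)) : ℝ :=
  if 1 ≤ ZZ m m' ∧ fK A D K m m' < δ₀ then 1 else 0

lemma h1_abs (m m' : Multiset (List A)) : |h1 m m'| ≤ 1 := by
  unfold h1; split_ifs <;> simp

lemma h2_abs (D K : ℕ) (δ₀ : ℝ) (m m' : Multiset (List A)) : |h2 D K δ₀ m m'| ≤ 1 := by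
  unfold h2; split_ifs <;> simp

lemma h2_nonneg (D K : ℕ) (δ₀ : ℝ) (m m' : Multiset (List A)) : 0 ≤ h2 D K δ₀ m m' := by
  unfold h2; split_ifs <;> simp

variable (A) in
open Classical in
/-- words of length less than `D` -/
noncomputable def shortW (D : ℕ) : Finset (List A) :=
  (range D).biUnion fun i => (univ : Finset (Fin i → A)).image fun f => List.ofFn f

lemma mem_shortW {D : ℕ} {w : List A} (h : w.length < D) : w ∈ shortW A D := by
  classical
  unfold shortW
  rw [mem_biUnion]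
  refine ⟨w.length, mem_range.2 h, ?_⟩
  rw [mem_image]
  exact ⟨w.get, mem_univ _, List.ofFn_get w⟩

open Classical in
lemma RR_eq (δ δ' : Fin (n + 1) → A → Fin (n + 1)) :
    RR δ δ' = (∑ p, ∑ q, if ∃ w : List A, run δ 0 w = p ∧ run δ' 0 w = q then (1 : ℝ) else 0) /
      ((n : ℝ) + 1) ^ 2 := by
  unfold RR
  congr 1
  rw [← Fintype.sum_prod_type' (f := fun p q =>
    if ∃ w : List A, run δ 0 w = p ∧ run δ' 0 w = q then (1 : ℝ) else 0)]
  rw [Finset.sum_boole]

open Classical in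
lemma RR_le (D : ℕ) (δ δ' : Fin (n + 1) → A → Fin (n + 1)) :
    RR δ δ' ≤ ((shortW A D).card : ℝ) / ((n : ℝ) + 1) ^ 2 + av D h1 δ δ' := by
  have hn : (0 : ℝ) < ((n : ℝ) + 1) ^ 2 := by positivity
  have e1 : av D h1 δ δ' = ((univ.filter fun x : Fin (n + 1) × Fin (n + 1) =>
      1 ≤ ZZ (lev δ D x.1) (lev δ' D x.2)).card : ℝ) / ((n : ℝ) + 1) ^ 2 := by
    unfold av h1
    congr 1
    rw [← Fintype.sum_prod_type' (f := fun p q =>
      if 1 ≤ ZZ (lev δ D p) (lev δ' D q) then (1 : ℝ) else 0), Finset.sum_boole]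
  rw [e1, ← add_div]
  unfold RR
  apply div_le_div_of_nonneg_right _ hn.le
  have e2 : (univ.filter fun x : Fin (n + 1) × Fin (n + 1) =>
      ∃ w : List A, run δ 0 w = x.1 ∧ run δ' 0 w = x.2) ⊆
      ((shortW A D).image fun w => (run δ 0 w, run δ' 0 w)) ∪
      (univ.filter fun x : Fin (n + 1) × Fin (n + 1) =>
        1 ≤ ZZ (lev δ D x.1) (lev δ' D x.2)) := by
    rintro ⟨p, q⟩ hx
    rw [mem_filter] at hx
    obtain ⟨-, w, hp, hq⟩ := hx
    simp only at hp hq
    rw [mem_union]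
    rcases lt_or_ge w.length D with h | h
    · left
      rw [mem_image]
      exact ⟨w, mem_shortW h, by rw [hp, hq]⟩
    · right
      rw [mem_filter]
      refine ⟨mem_univ _, ?_⟩
      simp only
      have hw : w = w.take (w.length - D) ++ w.drop (w.length - D) :=
        (List.take_append_drop _ _).symm
      have hl : (w.drop (w.length - D)).length = D := by
        rw [List.length_drop]; omega
      have h3 := rev_mem_lev δ (run δ 0 (w.take (w.length - D))) (w.drop (w.length - D))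
      have h4 := rev_mem_lev δ' (run δ' 0 (w.take (w.length - D))) (w.drop (w.length - D))
      rw [hl, ← run_append, ← hw, hp] at h3
      rw [hl, ← run_append, ← hw, hq] at h4
      exact ZZ_pos h3 h4
  have e3 := (card_le_card e2).trans (card_union_le _ _)
  have e4 : ((shortW A D).image fun w => (run δ (0 : Fin (n + 1)) w,
      run δ' (0 : Fin (n + 1)) w)).card ≤ (shortW A D).card := card_image_le
  exact_mod_cast e3.trans (Nat.add_le_add_right e4 _)

lemma gS_zero (δ δ' : Fin (n + 1) → A → Fin (n + 1)) (p q : Fin (n + 1))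
    (h : ¬ ∃ w : List A, run δ 0 w = p ∧ run δ' 0 w = q) : gS δ δ' p q = 0 := by
  classical
  unfold gS
  rw [filter_false_of_mem]
  · simp
  · rintro v _ ⟨-, -, h3, h4⟩
    exact h ⟨_, h3, h4⟩

/-- normalised squared distance of the two densities -/
noncomputable def TT (D K : ℕ) (δ δ' : Fin (n + 1) → A → Fin (n + 1)) : ℝ :=
  (∑ p, ∑ q, (gS δ δ' p q - fK A D K (lev δ D p) (lev δ' D q)) ^ 2) / ((n : ℝ) + 1) ^ 2

lemma TT_nonneg (D K : ℕ) (δ δ' : Fin (n + 1) → A → Fin (n + 1)) : 0 ≤ TT D K δ δ' :=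
  div_nonneg (sum_nonneg fun _ _ => sum_nonneg fun _ _ => sq_nonneg _) (by positivity)

lemma le_RR (D K : ℕ) {δ₀ : ℝ} (hδ : 0 < δ₀) (δ δ' : Fin (n + 1) → A → Fin (n + 1)) :
    av D h1 δ δ' - av D (h2 D K δ₀) δ δ' - (δ₀ ^ 2)⁻¹ * TT D K δ δ' ≤ RR δ δ' := by
  classical
  have hn : (0 : ℝ) < ((n : ℝ) + 1) ^ 2 := by positivity
  rw [RR_eq]
  unfold av TT
  rw [← sub_div, ← mul_div_assoc, ← sub_div]
  apply div_le_div_of_nonneg_right _ hn.le
  rw [mul_sum, ← sum_sub_distrib, ← sum_sub_distrib]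
  apply sum_le_sum
  intro p _
  rw [mul_sum, ← sum_sub_distrib, ← sum_sub_distrib]
  apply sum_le_sum
  intro q _
  have hpos : 0 < δ₀ ^ 2 := by positivity
  have h2n := h2_nonneg D K δ₀ (lev δ D p) (lev δ' D q)
  by_cases hr : ∃ w : List A, run δ 0 w = p ∧ run δ' 0 w = q
  · rw [if_pos hr]
    have h3 : 0 ≤ (δ₀ ^ 2)⁻¹ * (gS δ δ' p q - fK A D K (lev δ D p) (lev δ' D q)) ^ 2 := by
      positivity
    have h4 := (abs_le.1 (h1_abs (lev δ D p) (lev δ' D q))).2
    linarith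
  · rw [if_neg hr, gS_zero δ δ' p q hr]
    by_cases hz : 1 ≤ ZZ (lev δ D p) (lev δ' D q)
    · have e1 : h1 (lev δ D p) (lev δ' D q) = 1 := by unfold h1; rw [if_pos hz]
      rw [e1]
      by_cases hf : fK A D K (lev δ D p) (lev δ' D q) < δ₀
      · have e2 : h2 D K δ₀ (lev δ D p) (lev δ' D q) = 1 := by
          unfold h2; rw [if_pos ⟨hz, hf⟩]
        rw [e2]
        have h3 : 0 ≤ (δ₀ ^ 2)⁻¹ * (0 - fK A D K (lev δ D p) (lev δ' D q)) ^ 2 := by
          positivity
        linarith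
      · rw [not_lt] at hf
        have h5 : δ₀ ^ 2 ≤ (0 - fK A D K (lev δ D p) (lev δ' D q)) ^ 2 := by
          rw [zero_sub, neg_sq]
          exact pow_le_pow_left₀ hδ.le hf 2
        have h6 : 1 ≤ (δ₀ ^ 2)⁻¹ * (0 - fK A D K (lev δ D p) (lev δ' D q)) ^ 2 := by
          rw [← inv_mul_cancel₀ hpos.ne']
          exact mul_le_mul_of_nonneg_left h5 (by positivity)
        linarith
    · have e1 : h1 (lev δ D p) (lev δ' D q) = 0 := by unfold h1; rw [if_neg hz]
      rw [e1]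
      have h3 : 0 ≤ (δ₀ ^ 2)⁻¹ * (0 - fK A D K (lev δ D p) (lev δ' D q)) ^ 2 := by
        positivity
      linarith

open Classical in
lemma ex_h2_le (D K : ℕ) (δ₀ : ℝ) :
    (ex (mu A D) fun m => ex (mu A D) fun m' =>
      if 1 ≤ ZZ m m' ∧ fK A D K m m' < δ₀ then (1 : ℝ≥0∞) else 0) ≤
    (ex (mu A D) fun m => ex (mu A D) fun m' =>
      if 1 ≤ ZZ m m' ∧ (ZZ m m' : ℝ) < δ₀ * (Fintype.card A : ℝ) ^ D then (1 : ℝ≥0∞) else 0) +
    (ex (mu A D) fun m => if K < Multiset.card m then 1 else 0) +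
    (ex (mu A D) fun m => if K < Multiset.card m then 1 else 0) := by
  have hk : (0 : ℝ) < (Fintype.card A : ℝ) ^ D := by
    have : 0 < Fintype.card A := Fintype.card_pos
    positivity
  have e1 : ∀ m m' : Multiset (List A),
      (if 1 ≤ ZZ m m' ∧ fK A D K m m' < δ₀ then (1 : ℝ≥0∞) else 0) ≤
      (if 1 ≤ ZZ m m' ∧ (ZZ m m' : ℝ) < δ₀ * (Fintype.card A : ℝ) ^ D then (1 : ℝ≥0∞) else 0) +
      (if K < Multiset.card m then 1 else 0) + (if K < Multiset.card m' then 1 else 0) := by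
    intro m m'
    by_cases hm : K < Multiset.card m
    · rw [if_pos hm]
      have : (if 1 ≤ ZZ m m' ∧ fK A D K m m' < δ₀ then (1 : ℝ≥0∞) else 0) ≤ 1 := by
        split_ifs <;> simp
      exact this.trans (le_add_right le_add_self)
    · by_cases hm' : K < Multiset.card m'
      · rw [if_pos hm']
        have : (if 1 ≤ ZZ m m' ∧ fK A D K m m' < δ₀ then (1 : ℝ≥0∞) else 0) ≤ 1 := by
          split_ifs <;> simp
        exact this.trans le_add_self
      · have e0 : fK A D K m m' < δ₀ ↔ (ZZ m m' : ℝ) < δ₀ * (Fintype.card A : ℝ) ^ D := by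
          rw [fK_eq D K (not_lt.1 hm) (not_lt.1 hm'), div_lt_iff₀ hk]
        simp only [e0]
        rw [add_assoc]
        exact le_self_add
  calc _ ≤ (ex (mu A D) fun m => ex (mu A D) fun m' =>
      (if 1 ≤ ZZ m m' ∧ (ZZ m m' : ℝ) < δ₀ * (Fintype.card A : ℝ) ^ D then (1 : ℝ≥0∞) else 0) +
      (if K < Multiset.card m then 1 else 0) + (if K < Multiset.card m' then 1 else 0)) :=
        ex_mono _ fun m => ex_mono _ fun m' => e1 m m'
    _ = _ := by
        simp only [ex_add, ex_const]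

lemma E2_ind_le {f : (Fin (n + 1) → A → Fin (n + 1)) → (Fin (n + 1) → A → Fin (n + 1)) → ℝ}
    {g : (Fin (n + 1) → A → Fin (n + 1)) → (Fin (n + 1) → A → Fin (n + 1)) → ℝ}
    (h : ∀ δ δ', f δ δ' ≤ g δ δ') : E2 n f ≤ E2 n g := E2_mono h

end main

end RA

open RA

variable (A : Type u) [Fintype A] [Nonempty A]

open Classical in
/-- the fraction of reachable pairs converges in probability to `cInf` -/
theorem reach_law_of (hanti : Antitone (cD A))
    (hsb : ∀ ε : ℝ≥0∞, ε ≠ 0 → ∃ δ : ℝ, 0 < δ ∧ ∃ D₀ : ℕ, ∀ D ≥ D₀,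
      ex (mu A D) (fun m => ex (mu A D) fun m' =>
        if 1 ≤ ZZ m m' ∧ (ZZ m m' : ℝ) < δ * (Fintype.card A : ℝ) ^ D then 1 else 0) ≤ ε)
    (hloc : ∀ D : ℕ,
      Tendsto (fun n : ℕ => ES A n fun δ => ∑' τ, |fr δ D τ - (mu A D τ).toReal|) atTop (𝓝 0))
    (hL2 : ∀ ε : ℝ, 0 < ε → ∃ D₀ : ℕ, ∀ D ≥ D₀, ∃ K₀ : ℕ, ∀ K ≥ K₀, ∀ᶠ n in atTop,
      ES A n (fun δ => ES A n fun δ' =>
        (∑ p, ∑ q, (gS δ δ' p q - fK A D K (lev δ D p) (lev δ' D q)) ^ 2) /
          ((n : ℝ) + 1) ^ 2) ≤ ε)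
    (ε : ℝ) (hε : 0 < ε) :
    Tendsto (fun n : ℕ => ES A n fun δ => ES A n fun δ' =>
      if ε < |((univ.filter fun x : Fin (n + 1) × Fin (n + 1) =>
          ∃ w : List A, run δ 0 w = x.1 ∧ run δ' 0 w = x.2).card : ℝ) / ((n : ℝ) + 1) ^ 2 -
            (cInf A).toReal| then 1 else 0) atTop (𝓝 0) := by
  -- facts on the constants
  have hcle : ∀ D, cD A D ≤ 1 := by
    intro D
    unfold cD
    apply ex_le_one
    intro m
    apply ex_le_one
    intro m'
    split_ifs <;> simp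
  have hcfin : ∀ D, cD A D ≠ ⊤ := fun D => ne_top_of_le_ne_top ENNReal.one_ne_top (hcle D)
  have hEE : ∀ D, EE D (h1 (A := A)) = (cD A D).toReal := by
    intro D
    unfold cD
    rw [ex2_toReal D fun m m' => 1 ≤ ZZ m m']
    rfl
  have hcInf : ∀ D, (cInf A).toReal ≤ (cD A D).toReal := fun D =>
    ENNReal.toReal_mono (hcfin D) (iInf_le _ D)
  have hclim : Tendsto (fun D => (cD A D).toReal) atTop (𝓝 (cInf A).toReal) := by
    have h3 : Tendsto (cD A) atTop (𝓝 (cInf A)) := tendsto_atTop_iInf hanti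
    exact (ENNReal.tendsto_toReal (ne_top_of_le_ne_top (hcfin 0) (iInf_le _ 0))).comp h3
  set c := (cInf A).toReal with hc
  -- main estimate
  rw [tendsto_order]
  refine ⟨fun a ha => ?_, fun η hη => ?_⟩
  · filter_upwards with n
    refine lt_of_lt_of_le ha (ES_nonneg fun δ => ES_nonneg fun δ' => ?_)
    split_ifs <;> simp
  -- parameters
  set ε₁ : ℝ := ε * η / 10 with hε₁
  have hε₁pos : 0 < ε₁ := by positivity
  obtain ⟨D₁, hD₁⟩ : ∃ D₁, (cD A D₁).toReal < c + ε / 3 :=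
    (hclim.eventually (gt_mem_nhds (by linarith : c < c + ε / 3))).exists
  obtain ⟨δ₀, hδ₀, D₂, hD₂⟩ := hsb (ENNReal.ofReal ε₁) (by simpa using hε₁pos)
  obtain ⟨D₃, hD₃⟩ := hL2 (δ₀ ^ 2 * ε₁) (by positivity)
  set D := max D₂ D₃ with hD
  have hD₂' := hD₂ D (le_max_left _ _)
  obtain ⟨K₀, hK₀⟩ := hD₃ D (le_max_right _ _)
  have htail := tail_tendsto (A := A) D
  obtain ⟨K, hK, hKt⟩ : ∃ K ≥ K₀,
      (ex (mu A D) fun m => if K < Multiset.card m then 1 else 0) < ENNReal.ofReal ε₁ := by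
    have h3 := htail.eventually (gt_mem_nhds (by simpa using hε₁pos : 0 < ENNReal.ofReal ε₁))
    obtain ⟨K, h4, h5⟩ := (h3.and (eventually_ge_atTop K₀)).exists
    exact ⟨K, h5, h4⟩
  have hT := hK₀ K hK
  have hEE2 : EE D (h2 (A := A) D K δ₀) ≤ 3 * ε₁ := by
    have h3 := ex_h2_le (A := A) D K δ₀
    have h4 : (ex (mu A D) fun m => ex (mu A D) fun m' =>
      if 1 ≤ ZZ m m' ∧ fK A D K m m' < δ₀ then (1 : ℝ≥0∞) else 0) ≤ ENNReal.ofReal (3 * ε₁) := by
      calc _ ≤ _ := h3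
        _ ≤ ENNReal.ofReal ε₁ + ENNReal.ofReal ε₁ + ENNReal.ofReal ε₁ := by
            gcongr
        _ = ENNReal.ofReal (3 * ε₁) := by
            rw [← ENNReal.ofReal_add hε₁pos.le hε₁pos.le,
              ← ENNReal.ofReal_add (by positivity) hε₁pos.le]
            congr 1
            ring
    have h5 := ENNReal.toReal_mono ENNReal.ofReal_ne_top h4
    rw [ENNReal.toReal_ofReal (by positivity),
      ex2_toReal D fun m m' => 1 ≤ ZZ m m' ∧ fK A D K m m' < δ₀] at h5
    exact h5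
  -- limits
  have l1 := av_tendsto D₁ (hloc D₁) (h := h1) (fun x y => h1_abs x y)
  have l2 := av_tendsto D (hloc D) (h := h1) (fun x y => h1_abs x y)
  have l3 := av_tendsto D (hloc D) (h := h2 D K δ₀) (fun x y => h2_abs D K δ₀ x y)
  have lC : Tendsto (fun n : ℕ => ((shortW A D₁).card : ℝ) / ((n : ℝ) + 1) ^ 2) atTop (𝓝 0) := by
    apply Tendsto.const_div_atTop
    apply (tendsto_pow_atTop (two_ne_zero)).comp
    exact tendsto_atTop_add_const_right _ _ tendsto_natCast_atTop_atTop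
  filter_upwards [l1.eventually (gt_mem_nhds (by positivity : 0 < ε * η / 30)),
    l2.eventually (gt_mem_nhds (by positivity : 0 < ε₁)),
    l3.eventually (gt_mem_nhds (by positivity : 0 < ε₁)),
    lC.eventually (gt_mem_nhds (by positivity : 0 < ε / 3)), hT] with n k1 k2 k3 k4 k5
  -- pointwise bound
  have key : ∀ δ δ' : Fin (n + 1) → A → Fin (n + 1),
      (if ε < |RR δ δ' - c| then (1 : ℝ) else 0) ≤
        3 / ε * |av D₁ h1 δ δ' - EE (A := A) D₁ h1| + (1 / ε) * ((|av D h1 δ δ' - EE (A := A) D h1| +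
          |av D (h2 D K δ₀) δ δ' - EE (A := A) D (h2 D K δ₀)|) + (3 * ε₁ + (δ₀ ^ 2)⁻¹ * TT D K δ δ')) := by
    intro δ δ'
    have n1 := abs_nonneg (av D₁ h1 δ δ' - EE (A := A) D₁ h1)
    have n2 := abs_nonneg (av D h1 δ δ' - EE (A := A) D h1)
    have n3 := abs_nonneg (av D (h2 D K δ₀) δ δ' - EE (A := A) D (h2 D K δ₀))
    have n4 := TT_nonneg D K δ δ'
    have n5 : 0 ≤ (δ₀ ^ 2)⁻¹ * TT D K δ δ' := mul_nonneg (inv_nonneg.2 (sq_nonneg _)) n4
    have t1 : 0 ≤ 3 / ε * |av D₁ h1 δ δ' - EE (A := A) D₁ h1| :=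
      mul_nonneg (div_nonneg (by norm_num) hε.le) n1
    have t2 : 0 ≤ (1 / ε) * ((|av D h1 δ δ' - EE (A := A) D h1| +
          |av D (h2 D K δ₀) δ δ' - EE (A := A) D (h2 D K δ₀)|) +
            (3 * ε₁ + (δ₀ ^ 2)⁻¹ * TT D K δ δ')) :=
      mul_nonneg (one_div_nonneg.2 hε.le) (add_nonneg (add_nonneg n2 n3)
        (add_nonneg (mul_nonneg (by norm_num) hε₁pos.le) n5))
    split_ifs with h
    · rcases lt_abs.1 h with h | h
      · -- many reachable pairs
        have h3 := RR_le D₁ δ δ'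
        have h4 := le_abs_self (av D₁ h1 δ δ' - EE (A := A) D₁ h1)
        rw [hEE] at h4 n1 t1 ⊢
        have h5 : ε / 3 ≤ |av D₁ h1 δ δ' - (cD A D₁).toReal| := by
          linarith only [h, h3, h4, k4, hD₁]
        have h6 : 1 ≤ 3 / ε * |av D₁ h1 δ δ' - (cD A D₁).toReal| := by
          calc (1 : ℝ) = 3 / ε * (ε / 3) := by field_simp
            _ ≤ _ := mul_le_mul_of_nonneg_left h5 (div_nonneg (by norm_num) hε.le)
        linarith only [h6, t2]
      · -- few reachable pairs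
        have h3 := le_RR D K hδ₀ δ δ'
        have h4 := neg_abs_le (av D h1 δ δ' - EE (A := A) D h1)
        have h5 := le_abs_self (av D (h2 D K δ₀) δ δ' - EE (A := A) D (h2 D K δ₀))
        have h6 : c ≤ EE D (h1 (A := A)) := by rw [hEE]; exact hcInf D
        have h7 : ε ≤ ((|av D h1 δ δ' - EE (A := A) D h1| +
          |av D (h2 D K δ₀) δ δ' - EE (A := A) D (h2 D K δ₀)|) +
            (3 * ε₁ + (δ₀ ^ 2)⁻¹ * TT D K δ δ')) := by
          linarith only [h, h3, h4, h5, h6, hEE2]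
        have h8 : 1 ≤ (1 / ε) * ((|av D h1 δ δ' - EE (A := A) D h1| +
          |av D (h2 D K δ₀) δ δ' - EE (A := A) D (h2 D K δ₀)|) +
            (3 * ε₁ + (δ₀ ^ 2)⁻¹ * TT D K δ δ')) := by
          calc (1 : ℝ) = 1 / ε * ε := by field_simp
            _ ≤ _ := mul_le_mul_of_nonneg_left h7 (one_div_nonneg.2 hε.le)
        linarith only [h8, t1]
    · linarith only [t1, t2]
  have hTT : E2 (A := A) n (fun δ δ' => (δ₀ ^ 2)⁻¹ * TT D K δ δ') ≤ ε₁ := by
    rw [E2_mul]
    have k5' : E2 (A := A) n (fun δ δ' => TT D K δ δ') ≤ δ₀ ^ 2 * ε₁ := k5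
    calc (δ₀ ^ 2)⁻¹ * E2 (A := A) n (fun δ δ' => TT D K δ δ') ≤ (δ₀ ^ 2)⁻¹ * (δ₀ ^ 2 * ε₁) :=
          mul_le_mul_of_nonneg_left k5' (by positivity)
      _ = ε₁ := by field_simp
  have hfin : E2 (A := A) n (fun δ δ' => if ε < |RR δ δ' - c| then (1 : ℝ) else 0) ≤
      3 / ε * (ε * η / 30) + (1 / ε) * ((ε₁ + ε₁) + (3 * ε₁ + ε₁)) := by
    calc _ ≤ E2 (A := A) n (fun δ δ' => 3 / ε * |av D₁ h1 δ δ' - EE (A := A) D₁ h1| +
          (1 / ε) * ((|av D h1 δ δ' - EE (A := A) D h1| +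
          |av D (h2 D K δ₀) δ δ' - EE (A := A) D (h2 D K δ₀)|) +
            (3 * ε₁ + (δ₀ ^ 2)⁻¹ * TT D K δ δ'))) := E2_mono key
      _ = 3 / ε * E2 (A := A) n (fun δ δ' => |av D₁ h1 δ δ' - EE (A := A) D₁ h1|) +
          (1 / ε) * ((E2 (A := A) n (fun δ δ' => |av D h1 δ δ' - EE (A := A) D h1|) +
          E2 (A := A) n (fun δ δ' => |av D (h2 D K δ₀) δ δ' - EE (A := A) D (h2 D K δ₀)|)) +
            (E2 (A := A) n (fun _ _ => 3 * ε₁) +
              E2 (A := A) n (fun δ δ' => (δ₀ ^ 2)⁻¹ * TT D K δ δ'))) := by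
          rw [E2_add, E2_mul, E2_mul, E2_add, E2_add, E2_add]
      _ ≤ _ := by
          have h9 : E2 (A := A) n (fun _ _ => 3 * ε₁) ≤ 3 * ε₁ := E2_const_le (by positivity)
          gcongr
  have hfin2 : 3 / ε * (ε * η / 30) + (1 / ε) * ((ε₁ + ε₁) + (3 * ε₁ + ε₁)) < η := by
    have : 3 / ε * (ε * η / 30) + (1 / ε) * ((ε₁ + ε₁) + (3 * ε₁ + ε₁)) = 7 / 10 * η := by
      rw [hε₁]
      field_simp
      ring
    rw [this]
    linarith only [hη]
  exact lt_of_le_of_lt hfin hfin2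

end Pool.Agent.SC
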