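import Mathlib

/-!
# The recursion for the constant
-/

namespace Pool.Agent.SC

/-- Poisson weights: the probability that a Poisson variable with mean `x` equals `i`. -/
noncomputable def poi (x i : ℕ) : ℝ := Real.exp (-(x : ℝ)) * (x : ℝ) ^ i / (i.factorial : ℝ)

/-- The functions `t_D : ℕ × ℕ → ℝ` with `t_0 (x, y) = (1 - (1 - ν) ^ x) (1 - (1 - ν) ^ y)` and
`t_{D+1} (x, y) = 1 - (1 - E t_D (X, Y)) ^ k`, where `X` and `Y` are independent Poisson variables
with means `x` and `y`. -/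
noncomputable def tRec (k : ℕ) (ν : ℝ) : ℕ → ℕ → ℕ → ℝ
  | 0, x, y => (1 - (1 - ν) ^ x) * (1 - (1 - ν) ^ y)
  | D + 1, x, y => 1 - (1 - ∑' i : ℕ, ∑' j : ℕ, poi x i * poi y j * tRec k ν D i j) ^ k

end Pool.Agent.SC
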