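import Pool.Agent.W_MP_6663ab_lc.SGw1
import Pool.Agent.W_MP_6663ab_lc.ScConst

/-!
# The constant through a recursion

`cD_toReal`: `ν ^ 2 * cD A D = tRec k ν D 1 1`.
-/

namespace Pool.Agent.SC

open Finset
open scoped ENNReal

universe u

namespace Rc

/-! ### Poisson weights -/

lemma poi_nonneg (x i : ℕ) : 0 ≤ poi x i := by unfold poi; positivity

lemma poi_mul_pow_hasSum (x : ℕ) (g : ℝ) :
    HasSum (fun i => poi x i * g ^ i) (Real.exp (-(x * (1 - g)))) := by
  have h1 : HasSum (fun i : ℕ => (x * g) ^ i / (i.factorial : ℝ)) (Real.exp (x * g)) := by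
    rw [Real.exp_eq_exp_ℝ]
    exact NormedSpace.expSeries_div_hasSum_exp (x * g)
  have h2 := h1.mul_left (Real.exp (-(x : ℝ)))
  rw [← Real.exp_add] at h2
  have e1 : -(x : ℝ) + x * g = -(x * (1 - g)) := by ring
  rw [e1] at h2
  have e2 : (fun i : ℕ => Real.exp (-(x : ℝ)) * ((x * g) ^ i / (i.factorial : ℝ))) =
      fun i => poi x i * g ^ i := by
    funext i
    unfold poi
    rw [mul_pow]
    ring
  rw [e2] at h2
  exact h2

lemma poi_hasSum (x : ℕ) : HasSum (poi x) 1 := by
  have h := poi_mul_pow_hasSum x 1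
  simpa using h

/-- Poisson law -/
noncomputable def poiP (x : ℕ) : PMF ℕ :=
  ⟨fun i => ENNReal.ofReal (poi x i), by
    have h1 := poi_hasSum x
    rw [show (1 : ℝ≥0∞) = ENNReal.ofReal 1 by simp, ← h1.tsum_eq,
      ENNReal.ofReal_tsum_of_nonneg (poi_nonneg x) h1.summable]
    exact ENNReal.summable.hasSum⟩

lemma poiP_apply (x i : ℕ) : poiP x i = ENNReal.ofReal (poi x i) := rfl

lemma ex_poiP_pow (x : ℕ) {g : ℝ≥0∞} (hg : g ≤ 1) :
    (ex (poiP x) fun i => g ^ i) = ENNReal.ofReal (Real.exp (-(x * (1 - g.toReal)))) := by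
  have hgt : g ≠ ⊤ := ne_top_of_le_ne_top ENNReal.one_ne_top hg
  unfold ex
  have h1 : ∀ i : ℕ, poiP x i * g ^ i = ENNReal.ofReal (poi x i * g.toReal ^ i) := by
    intro i
    rw [poiP_apply, ENNReal.ofReal_mul (poi_nonneg x i), ENNReal.ofReal_pow ENNReal.toReal_nonneg,
      ENNReal.ofReal_toReal hgt]
  simp only [h1]
  have h2 := poi_mul_pow_hasSum x g.toReal
  rw [← h2.tsum_eq, ENNReal.ofReal_tsum_of_nonneg _ h2.summable]
  intro i
  exact mul_nonneg (poi_nonneg x i) (by positivity)

/-! ### product laws -/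

/-- `n` independent samples -/
noncomputable def vec {α : Type*} (ρ : PMF α) : (n : ℕ) → PMF (Fin n → α)
  | 0 => PMF.pure Fin.elim0
  | n + 1 => ρ.bind fun x => (vec ρ n).map (Fin.cons x)

lemma ex_vec {α : Type*} (ρ : PMF α) (n : ℕ) (F : Fin n → α → ℝ≥0∞) :
    (ex (vec ρ n) fun f => ∏ i, F i (f i)) = ∏ i, ex ρ (F i) := by
  induction n with
  | zero => rw [vec, ex_pure]; simp
  | succ n ih =>
    rw [vec, ex_bind]
    simp only [ex_map, Fin.prod_univ_succ, Fin.cons_zero, Fin.cons_succ]
    simp only [ex_mul_left, ex_mul_right, ih]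

/-- independent samples indexed by a finite type -/
noncomputable def fam {α : Type*} (A : Type*) [Fintype A] (ρ : PMF α) : PMF (A → α) :=
  (vec ρ (Fintype.card A)).map fun f a => f (Fintype.equivFin A a)

lemma ex_fam {α A : Type*} [Fintype A] (ρ : PMF α) (F : A → α → ℝ≥0∞) :
    (ex (fam A ρ) fun f => ∏ a, F a (f a)) = ∏ a, ex ρ (F a) := by
  rw [fam, ex_map]
  have h1 : ∀ f : Fin (Fintype.card A) → α, ∏ a, F a (f (Fintype.equivFin A a)) =
      ∏ i, F ((Fintype.equivFin A).symm i) (f i) := by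
    intro f
    rw [← Equiv.prod_comp (Fintype.equivFin A)]
    simp
  simp only [h1]
  rw [ex_vec ρ _ fun i => F ((Fintype.equivFin A).symm i)]
  exact Equiv.prod_comp (Fintype.equivFin A).symm fun a => ex ρ (F a)

/-! ### disjointness -/

section disj

variable {A : Type u}

open Classical in
/-- indicator of disjointness -/
noncomputable def dj (m m' : Multiset (List A)) : ℝ≥0∞ := if ∀ w ∈ m, w ∉ m' then 1 else 0

lemma dj_iff {m₁ m₂ m₁' m₂' : Multiset (List A)}
    (h : (∀ w ∈ m₁, w ∉ m₁') ↔ ∀ w ∈ m₂, w ∉ m₂') : dj m₁ m₁' = dj m₂ m₂' := by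
  unfold dj
  by_cases h1 : ∀ w ∈ m₁, w ∉ m₁'
  · rw [if_pos h1, if_pos (h.1 h1)]
  · rw [if_neg h1, if_neg (mt h.2 h1)]

lemma dj_congr {m₁ m₂ m₁' m₂' : Multiset (List A)} (h : ∀ w, w ∈ m₁ ↔ w ∈ m₂)
    (h' : ∀ w, w ∈ m₁' ↔ w ∈ m₂') : dj m₁ m₁' = dj m₂ m₂' := by
  apply dj_iff
  simp only [h, h']

lemma dj_comm (m m' : Multiset (List A)) : dj m m' = dj m' m := by
  have : (∀ w ∈ m, w ∉ m') ↔ ∀ w ∈ m', w ∉ m :=
    ⟨fun h w hw hw' => h w hw' hw, fun h w hw hw' => h w hw' hw⟩
  exact dj_iff this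

lemma dj_le_one (m m' : Multiset (List A)) : dj m m' ≤ 1 := by
  unfold dj; split_ifs <;> simp

lemma dj_zero_left (m' : Multiset (List A)) : dj 0 m' = 1 := by simp [dj]

lemma dj_add_left (m₁ m₂ m' : Multiset (List A)) : dj (m₁ + m₂) m' = dj m₁ m' * dj m₂ m' := by
  by_cases h1 : ∀ w ∈ m₁, w ∉ m'
  · by_cases h2 : ∀ w ∈ m₂, w ∉ m'
    · have h3 : ∀ w ∈ m₁ + m₂, w ∉ m' := by
        intro w hw
        rcases Multiset.mem_add.1 hw with h | h
        · exact h1 w h
        · exact h2 w h
      simp only [dj, if_pos h1, if_pos h2, if_pos h3, mul_one]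
    · have h3 : ¬ ∀ w ∈ m₁ + m₂, w ∉ m' := fun h =>
        h2 fun w hw => h w (Multiset.mem_add.2 (Or.inr hw))
      simp only [dj, if_neg h2, if_neg h3, mul_zero]
  · have h3 : ¬ ∀ w ∈ m₁ + m₂, w ∉ m' := fun h =>
      h1 fun w hw => h w (Multiset.mem_add.2 (Or.inl hw))
    simp only [dj, if_neg h1, if_neg h3, zero_mul]

lemma dj_list_sum (l : List (Multiset (List A))) (m' : Multiset (List A)) :
    dj l.sum m' = (l.map fun m => dj m m').prod := by
  induction l with
  | nil => simp [dj_zero_left]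
  | cons m l ih => simp [dj_add_left, ih]

lemma dj_finset_sum {ι : Type*} (s : Finset ι) (f : ι → Multiset (List A))
    (m' : Multiset (List A)) : dj (∑ i ∈ s, f i) m' = ∏ i ∈ s, dj (f i) m' := by
  classical
  induction s using Finset.induction_on with
  | empty => simp [dj_zero_left]
  | insert i s hi ih => rw [sum_insert hi, prod_insert hi, dj_add_left, ih]

open Classical in
/-- the words following the first letter `a` -/
noncomputable def der (a : A) (m : Multiset (List A)) : Multiset (List A) :=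
  m.filterMap fun w => match w with
    | [] => none
    | b :: v => if b = a then some v else none

lemma mem_der {a : A} {m : Multiset (List A)} {v : List A} : v ∈ der a m ↔ a :: v ∈ m := by
  classical
  unfold der
  rw [Multiset.mem_filterMap]
  constructor
  · rintro ⟨w, hw, h⟩
    cases w with
    | nil => simp at h
    | cons b w' =>
      by_cases hb : b = a
      · subst hb
        simp at h
        rw [← h]; exact hw
      · simp [hb] at h
  · intro h
    exact ⟨a :: v, h, by simp⟩

lemma dj_cons_left (a : A) (m m' : Multiset (List A)) :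
    dj (m.map (a :: ·)) m' = dj m (der a m') := by
  have : (∀ w ∈ m.map (a :: ·), w ∉ m') ↔ ∀ w ∈ m, w ∉ der a m' := by
    constructor
    · intro h w hw hw'
      exact h (a :: w) (Multiset.mem_map_of_mem _ hw) (mem_der.1 hw')
    · intro h w hw
      obtain ⟨v, hv, rfl⟩ := Multiset.mem_map.1 hw
      exact fun h' => h v hv (mem_der.2 h')
  exact dj_iff this

variable [Fintype A]

/-- put a family of multisets below the letters -/
noncomputable def asm (f : A → Multiset (List A)) : Multiset (List A) :=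
  ∑ a, (f a).map (a :: ·)

lemma dj_asm (f : A → Multiset (List A)) (m' : Multiset (List A)) :
    dj (asm f) m' = ∏ a, dj (f a) (der a m') := by
  rw [asm, dj_finset_sum]
  exact prod_congr rfl fun a _ => dj_cons_left a _ _

lemma mem_der_asm (f : A → Multiset (List A)) (a : A) (w : List A) :
    w ∈ der a (asm f) ↔ w ∈ f a := by
  rw [mem_der, asm, Multiset.mem_sum]
  constructor
  · rintro ⟨b, -, hb⟩
    obtain ⟨v, hv, h⟩ := Multiset.mem_map.1 hb
    obtain ⟨rfl, rfl⟩ := List.cons.inj h
    exact hv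
  · intro h
    exact ⟨a, mem_univ a, Multiset.mem_map_of_mem _ h⟩

end disj

/-! ### thinned trees -/

section main

variable (A : Type u) [Fintype A] [Nonempty A]

lemma nu_nonneg (k : ℕ) : 0 ≤ nu k := by
  by_cases hk : 2 ≤ k
  · exact (nu_spec hk).1.le
  · simp [nu, hk]

lemma nu_le_one (k : ℕ) : nu k ≤ 1 := by
  by_cases hk : 2 ≤ k
  · exact (nu_spec hk).2.1.le
  · simp [nu, hk]

/-- a coin with success probability `nu k` -/
noncomputable def coin (k : ℕ) : PMF Bool :=
  PMF.ofFintype (fun b => if b then ENNReal.ofReal (nu k) else ENNReal.ofReal (1 - nu k)) (by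
    have h1 := nu_nonneg k
    have h2 := nu_le_one k
    rw [Fintype.sum_bool]
    simp only [if_true, Bool.false_eq_true, if_false]
    rw [← ENNReal.ofReal_add h1 (by linarith)]
    simp)

lemma ex_coin (k : ℕ) (f : Bool → ℝ≥0∞) :
    ex (coin k) f = ENNReal.ofReal (nu k) * f true + ENNReal.ofReal (1 - nu k) * f false := by
  unfold ex coin
  rw [tsum_fintype, Fintype.sum_bool]
  simp [PMF.ofFintype_apply]

/-- the law `mu`, replaced by the empty multiset with probability `1 - nu k` -/
noncomputable def kap (D : ℕ) : PMF (Multiset (List A)) :=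
  (coin (Fintype.card A)).bind fun b => if b then mu A D else PMF.pure 0

lemma ex_kap (D : ℕ) (f : Multiset (List A) → ℝ≥0∞) :
    ex (kap A D) f = ENNReal.ofReal (nu (Fintype.card A)) * ex (mu A D) f +
      ENNReal.ofReal (1 - nu (Fintype.card A)) * f 0 := by
  rw [kap, ex_bind, ex_coin]
  simp [ex_pure]

/-- law of the sum of `x` independent samples of `kap` -/
noncomputable def SS (D x : ℕ) : PMF (Multiset (List A)) := (iid (kap A D) x).map List.sum

/-- probability that a sample of `kap` is disjoint from a given multiset -/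
noncomputable def gg (D : ℕ) (m' : Multiset (List A)) : ℝ≥0∞ := ex (kap A D) fun m => dj m m'

lemma gg_le_one (D : ℕ) (m' : Multiset (List A)) : gg A D m' ≤ 1 := by
  unfold gg
  calc _ ≤ ex (kap A D) fun _ => 1 := ex_mono _ fun m => dj_le_one m m'
    _ = 1 := ex_one _

lemma gg_congr (D : ℕ) {m m' : Multiset (List A)} (h : ∀ w, w ∈ m ↔ w ∈ m') :
    gg A D m = gg A D m' := by
  unfold gg
  congr 1
  funext m₁
  exact dj_congr (fun _ => Iff.rfl) h

lemma ex_SS_dj (D x : ℕ) (m' : Multiset (List A)) :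
    (ex (SS A D x) fun m => dj m m') = gg A D m' ^ x := by
  rw [SS, ex_map]
  simp only [dj_list_sum]
  rw [ex_iid_prod, gg]

/-- law of the sum of a Poisson number of samples of `kap` -/
noncomputable def RR (D y : ℕ) : PMF (Multiset (List A)) := (poiP y).bind fun j => SS A D j

lemma ex_RR_dj (D y : ℕ) (m' : Multiset (List A)) :
    (ex (RR A D y) fun m => dj m m') =
      ENNReal.ofReal (Real.exp (-(y * (1 - (gg A D m').toReal)))) := by
  rw [RR, ex_bind]
  simp only [ex_SS_dj]
  exact ex_poiP_pow y (gg_le_one A D m')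

lemma comb_eq {A : Type u} (l : List (A × Multiset (List A))) (m' : Multiset (List A)) :
    dj (comb l) m' = (l.map fun x => dj x.2 (der x.1 m')).prod := by
  rw [comb, dj_list_sum, List.map_map]
  congr 1
  apply List.map_congr_left
  intro x _
  exact dj_cons_left x.1 x.2 m'

lemma offW_mul_pow_hasSum {k : ℕ} (hk : 2 ≤ k) (u : ℝ) :
    HasSum (fun j : ℕ => offW k j * u ^ j)
      ((1 - nu k) / nu k * (Real.exp (k * nu k * u) - 1)) := by
  obtain ⟨h1, h2, h3⟩ := nu_spec hk
  have h4 : HasSum (fun j : ℕ => (k * nu k * u) ^ j / (j.factorial : ℝ))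
      (Real.exp (k * nu k * u)) := by
    rw [Real.exp_eq_exp_ℝ]
    exact NormedSpace.expSeries_div_hasSum_exp (k * nu k * u)
  have h5 : HasSum (fun j : ℕ => (1 - nu k) / nu k * ((k * nu k * u) ^ j / (j.factorial : ℝ)))
      ((1 - nu k) / nu k * Real.exp (k * nu k * u)) := h4.mul_left _
  have h6 := h5.update 0 0
  have h7 : Function.update (fun j : ℕ => (1 - nu k) / nu k *
      ((k * nu k * u) ^ j / (j.factorial : ℝ))) 0 0 = fun j => offW k j * u ^ j := by
    funext j
    by_cases hj : j = 0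
    · subst hj; simp [offW]
    · rw [Function.update_of_ne hj]
      simp only [offW, hj, if_false]
      rw [mul_pow]
      ring
  rw [h7] at h6
  have h8 : (0 : ℝ) - (1 - nu k) / nu k * ((k * nu k * u) ^ 0 / ((Nat.factorial 0 : ℕ) : ℝ)) +
      (1 - nu k) / nu k * Real.exp (k * nu k * u) =
        (1 - nu k) / nu k * (Real.exp (k * nu k * u) - 1) := by
    simp only [pow_zero, Nat.factorial_zero, Nat.cast_one]
    ring
  rw [h8] at h6
  exact h6

lemma ex_off_pow {k : ℕ} (hk : 2 ≤ k) {u : ℝ} (hu : 0 ≤ u) :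
    (ex (off k) fun j => ENNReal.ofReal u ^ j) =
      ENNReal.ofReal ((1 - nu k) / nu k * (Real.exp (k * nu k * u) - 1)) := by
  unfold ex
  have h1 : ∀ j : ℕ, off k j * ENNReal.ofReal u ^ j = ENNReal.ofReal (offW k j * u ^ j) := by
    intro j
    rw [off_apply hk, ENNReal.ofReal_mul (offW_nonneg hk j), ENNReal.ofReal_pow hu]
  simp only [h1]
  have h2 := offW_mul_pow_hasSum hk u
  rw [← h2.tsum_eq, ENNReal.ofReal_tsum_of_nonneg _ h2.summable]
  intro j
  exact mul_nonneg (offW_nonneg hk j) (by positivity)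

/-- probability that a sample of `mu` is disjoint from a given multiset -/
noncomputable def rr (D : ℕ) (m' : Multiset (List A)) : ℝ :=
  (ex (mu A D) fun m => dj m m').toReal

lemma ex_mu_dj_le (D : ℕ) (m' : Multiset (List A)) : (ex (mu A D) fun m => dj m m') ≤ 1 := by
  calc _ ≤ ex (mu A D) fun _ => 1 := ex_mono _ fun m => dj_le_one m m'
    _ = 1 := ex_one _

lemma ofReal_rr (D : ℕ) (m' : Multiset (List A)) :
    ENNReal.ofReal (rr A D m') = ex (mu A D) fun m => dj m m' :=
  ENNReal.ofReal_toReal (ne_top_of_le_ne_top ENNReal.one_ne_top (ex_mu_dj_le A D m'))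

lemma rr_nonneg (D : ℕ) (m' : Multiset (List A)) : 0 ≤ rr A D m' := ENNReal.toReal_nonneg

lemma gg_eq (D : ℕ) (m' : Multiset (List A)) :
    gg A D m' = ENNReal.ofReal (nu (Fintype.card A) * rr A D m' + (1 - nu (Fintype.card A))) := by
  have h1 := nu_nonneg (Fintype.card A)
  have h2 := nu_le_one (Fintype.card A)
  have h3 := rr_nonneg A D m'
  rw [gg, ex_kap, dj_zero_left, mul_one, ← ofReal_rr, ← ENNReal.ofReal_mul h1,
    ← ENNReal.ofReal_add (by positivity) (by linarith)]

lemma gg_toReal (D : ℕ) (m' : Multiset (List A)) :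
    (gg A D m').toReal = nu (Fintype.card A) * rr A D m' + (1 - nu (Fintype.card A)) := by
  have h1 := nu_nonneg (Fintype.card A)
  have h2 := nu_le_one (Fintype.card A)
  have h3 := rr_nonneg A D m'
  have h4 : 0 ≤ nu (Fintype.card A) * rr A D m' := by positivity
  rw [gg_eq, ENNReal.toReal_ofReal (by linarith)]

lemma ex_mark_dj (D : ℕ) (m' : Multiset (List A)) :
    (ex (mark (mu A D)) fun x => dj x.2 (der x.1 m')) =
      ENNReal.ofReal ((∑ a, rr A D (der a m')) / Fintype.card A) := by
  have hk : (0 : ℝ) < Fintype.card A := by exact_mod_cast Fintype.card_pos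
  rw [ex_mark, ENNReal.ofReal_div_of_pos hk, ENNReal.ofReal_natCast, div_eq_mul_inv, mul_comm,
    ENNReal.ofReal_sum_of_nonneg fun a _ => rr_nonneg A D _]
  congr 1
  refine sum_congr rfl fun a _ => ?_
  rw [ofReal_rr]

lemma gg_succ (hk : 2 ≤ Fintype.card A) (D : ℕ) (m' : Multiset (List A)) :
    gg A (D + 1) m' =
      ∏ a, ENNReal.ofReal (Real.exp (-(1 - (gg A D (der a m')).toReal))) := by
  obtain ⟨h1, h2, h3⟩ := nu_spec hk
  set k := Fintype.card A with hkdef
  set ν := nu k with hν
  have hk0 : (0 : ℝ) < k := by exact_mod_cast (show 0 < k by omega)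
  set u : ℝ := (∑ a, rr A D (der a m')) / k with hu
  have hu0 : 0 ≤ u := by
    apply div_nonneg _ hk0.le
    exact sum_nonneg fun a _ => rr_nonneg A D _
  have e1 : (ex (mu A (D + 1)) fun m => dj m m') =
      ENNReal.ofReal ((1 - ν) / ν * (Real.exp (k * ν * u) - 1)) := by
    rw [ex_mu_succ]
    simp only [comb_eq]
    rw [← ex_off_pow hk hu0]
    congr 1
    funext j
    rw [ex_iid_prod (mark (mu A D)) (fun x => dj x.2 (der x.1 m')), ex_mark_dj]
  have h4 : 1 ≤ Real.exp (k * ν * u) := by
    rw [← Real.exp_zero]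
    exact Real.exp_le_exp.2 (by positivity)
  have h5 : 0 ≤ (1 - ν) / ν * (Real.exp (k * ν * u) - 1) := by
    apply mul_nonneg (div_nonneg (by linarith) h1.le) (by linarith)
  rw [gg, ex_kap, dj_zero_left, mul_one, e1, ← ENNReal.ofReal_mul h1.le,
    ← ENNReal.ofReal_add (by positivity) (by linarith)]
  rw [← ENNReal.ofReal_prod_of_nonneg fun a _ => (Real.exp_pos _).le, ← Real.exp_sum]
  congr 1
  have e2 : ∑ a, -(1 - (gg A D (der a m')).toReal) = -(k * ν) + k * ν * u := by
    simp only [gg_toReal]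
    rw [← hkdef, ← hν]
    have e3 : ∀ a : A, -(1 - (ν * rr A D (der a m') + (1 - ν))) =
        ν * rr A D (der a m') - ν := fun a => by ring
    simp only [e3]
    rw [sum_sub_distrib, ← mul_sum, sum_const, card_univ, ← hkdef, nsmul_eq_mul]
    have e4 : ∑ a, rr A D (der a m') = k * u := by
      rw [hu]; field_simp
    rw [e4]
    ring
  rw [e2, Real.exp_add, ← h3]
  field_simp
  ring

/-- the Poisson transform of the disjointness probability -/
noncomputable def hh (D x : ℕ) (m' : Multiset (List A)) : ℝ≥0∞ :=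
  ex (poiP x) fun i => gg A D m' ^ i

lemma hh_eq (D x : ℕ) (m' : Multiset (List A)) :
    hh A D x m' = ENNReal.ofReal (Real.exp (-(x * (1 - (gg A D m').toReal)))) :=
  ex_poiP_pow x (gg_le_one A D m')

lemma gg_succ_pow (hk : 2 ≤ Fintype.card A) (D x : ℕ) (m' : Multiset (List A)) :
    gg A (D + 1) m' ^ x = ∏ a, hh A D x (der a m') := by
  rw [gg_succ A hk, ← prod_pow]
  refine prod_congr rfl fun a _ => ?_
  rw [hh_eq, ← ENNReal.ofReal_pow (Real.exp_pos _).le, ← Real.exp_nat_mul]
  congr 2
  ring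

/-- probability that two independent sums are disjoint -/
noncomputable def QQ (D x y : ℕ) : ℝ≥0∞ :=
  ex (SS A D x) fun m => ex (SS A D y) fun m' => dj m m'

lemma QQ_eq (D x y : ℕ) : QQ A D x y = ex (SS A D x) fun m => gg A D m ^ y := by
  unfold QQ
  congr 1
  funext m
  rw [← ex_SS_dj]
  congr 1
  funext m'
  exact dj_comm m m'

lemma QQ_comm (D x y : ℕ) : QQ A D x y = QQ A D y x := by
  unfold QQ
  rw [ex_comm]
  congr 1
  funext m
  congr 1
  funext m'
  exact dj_comm m' m

theorem QQ_succ (hk : 2 ≤ Fintype.card A) (D x y : ℕ) :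
    QQ A (D + 1) x y =
      (ex (poiP x) fun i => ex (poiP y) fun j => QQ A D i j) ^ Fintype.card A := by
  -- the product law
  have e1 : ∀ m, gg A (D + 1) m ^ y =
      ex (fam A (RR A D y)) fun f => dj m (asm f) := by
    intro m
    rw [gg_succ_pow A hk]
    have h1 : ∀ f : A → Multiset (List A), dj m (asm f) = ∏ a, dj (f a) (der a m) := by
      intro f
      rw [dj_comm, dj_asm]
    simp only [h1]
    rw [ex_fam (RR A D y) fun a m' => dj m' (der a m)]
    refine prod_congr rfl fun a _ => ?_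
    rw [ex_RR_dj, hh_eq]
  have e2 : ∀ f : A → Multiset (List A),
      (ex (SS A (D + 1) x) fun m => dj m (asm f)) = ∏ a, hh A D x (f a) := by
    intro f
    rw [ex_SS_dj, gg_succ_pow A hk]
    refine prod_congr rfl fun a _ => ?_
    unfold hh
    rw [gg_congr A D (mem_der_asm f a)]
  rw [QQ_eq]
  simp only [e1]
  rw [ex_comm]
  simp only [e2]
  rw [ex_fam (RR A D y) fun _ m => hh A D x m, prod_const, card_univ]
  congr 1
  rw [RR, ex_bind]
  unfold hh
  rw [ex_comm]
  congr 1
  funext j
  rw [ex_comm]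
  congr 1
  funext i
  rw [← QQ_eq]
  exact QQ_comm A D j i

lemma QQ_le_one (D x y : ℕ) : QQ A D x y ≤ 1 := by
  unfold QQ
  calc _ ≤ ex (SS A D x) fun _ => ex (SS A D y) fun _ => 1 :=
        ex_mono _ fun m => ex_mono _ fun m' => dj_le_one m m'
    _ = 1 := by simp only [ex_one]

lemma QQ_zero (x y : ℕ) :
    (QQ A 0 x y).toReal = 1 - tRec (Fintype.card A) (nu (Fintype.card A)) 0 x y := by
  have h1 := nu_nonneg (Fintype.card A)
  have h2 := nu_le_one (Fintype.card A)
  set ν := nu (Fintype.card A) with hν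
  have h3 : ∀ m : Multiset (List A), ex (mu A 0) (fun m₁ => dj m₁ m) = dj {[]} m := by
    intro m
    rw [ex_mu_zero]
  have hone : ∀ m : Multiset (List A), dj {[]} m = 1 ∨ dj {[]} m = 0 := by
    intro m
    unfold dj
    split_ifs
    · exact Or.inl rfl
    · exact Or.inr rfl
  have hgg : ∀ m : Multiset (List A), gg A 0 m = ENNReal.ofReal ν * dj {[]} m +
      ENNReal.ofReal (1 - ν) := by
    intro m
    rw [gg, ex_kap, h3, dj_zero_left, mul_one]
  have hself : dj ({[]} : Multiset (List A)) {[]} = 0 := by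
    unfold dj
    rw [if_neg]
    intro h
    exact h [] (by simp) (by simp)
  have hpow : (1 - ν) ^ y ≤ 1 := pow_le_one₀ (by linarith) (by linarith)
  have hpow0 : 0 ≤ (1 - ν) ^ y := by
    have : 0 ≤ 1 - ν := by linarith
    positivity
  have hpx0 : 0 ≤ (1 - ν) ^ x := by
    have : 0 ≤ 1 - ν := by linarith
    positivity
  have hggy : ∀ m : Multiset (List A), gg A 0 m ^ y = ENNReal.ofReal ((1 - ν) ^ y) +
      ENNReal.ofReal (1 - (1 - ν) ^ y) * dj m {[]} := by
    intro m
    rw [hgg, dj_comm m]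
    rcases hone m with h | h
    · rw [h, mul_one, mul_one, ← ENNReal.ofReal_add h1 (by linarith),
        ← ENNReal.ofReal_add hpow0 (by linarith)]
      simp
    · rw [h, mul_zero, mul_zero, zero_add, add_zero, ENNReal.ofReal_pow (by linarith)]
  rw [QQ_eq]
  simp only [hggy]
  rw [ex_add, ex_const, ex_mul_left, ex_SS_dj, hgg, hself, mul_zero, zero_add,
    ← ENNReal.ofReal_pow (by linarith), ← ENNReal.ofReal_mul (by linarith),
    ← ENNReal.ofReal_add hpow0 (mul_nonneg (by linarith) hpx0),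
    ENNReal.toReal_ofReal (add_nonneg hpow0 (mul_nonneg (by linarith) hpx0)), tRec]
  ring

lemma summable_double (x y : ℕ) {q : ℕ → ℕ → ℝ} (h0 : ∀ i j, 0 ≤ q i j) (h1 : ∀ i j, q i j ≤ 1) :
    (∀ i, Summable fun j => poi x i * poi y j * q i j) ∧
      (Summable fun i => ∑' j, poi x i * poi y j * q i j) := by
  have hy := (poi_hasSum y)
  have hx := (poi_hasSum x)
  have hle : ∀ i j, poi x i * poi y j * q i j ≤ poi x i * poi y j := fun i j =>
    mul_le_of_le_one_right (mul_nonneg (poi_nonneg x i) (poi_nonneg y j)) (h1 i j)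
  have hnn : ∀ i j, 0 ≤ poi x i * poi y j * q i j := fun i j =>
    mul_nonneg (mul_nonneg (poi_nonneg x i) (poi_nonneg y j)) (h0 i j)
  have hs : ∀ i, Summable fun j => poi x i * poi y j * q i j := fun i =>
    Summable.of_nonneg_of_le (hnn i) (hle i) (hy.summable.mul_left _)
  refine ⟨hs, Summable.of_nonneg_of_le (fun i => tsum_nonneg (hnn i)) (fun i => ?_) hx.summable⟩
  calc ∑' j, poi x i * poi y j * q i j ≤ ∑' j, poi x i * poi y j :=
        (hs i).tsum_le_tsum (hle i) (hy.summable.mul_left _)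
    _ = poi x i := by rw [tsum_mul_left, hy.tsum_eq, mul_one]

lemma ex_ex_poiP (x y : ℕ) {Q : ℕ → ℕ → ℝ≥0∞} (h1 : ∀ i j, Q i j ≤ 1) :
    (ex (poiP x) fun i => ex (poiP y) fun j => Q i j).toReal =
      ∑' i, ∑' j, poi x i * poi y j * (Q i j).toReal := by
  have hfin : ∀ i j, Q i j ≠ ⊤ := fun i j => ne_top_of_le_ne_top ENNReal.one_ne_top (h1 i j)
  obtain ⟨hs1, hs2⟩ := summable_double x y (q := fun i j => (Q i j).toReal)
    (fun i j => ENNReal.toReal_nonneg) (fun i j => by
      have := ENNReal.toReal_mono ENNReal.one_ne_top (h1 i j)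
      simpa using this)
  have hnn : ∀ i j, 0 ≤ poi x i * poi y j * (Q i j).toReal := fun i j =>
    mul_nonneg (mul_nonneg (poi_nonneg x i) (poi_nonneg y j)) ENNReal.toReal_nonneg
  have e1 : (ex (poiP x) fun i => ex (poiP y) fun j => Q i j) =
      ENNReal.ofReal (∑' i, ∑' j, poi x i * poi y j * (Q i j).toReal) := by
    rw [ENNReal.ofReal_tsum_of_nonneg (fun i => tsum_nonneg (hnn i)) hs2]
    unfold ex
    congr 1
    funext i
    rw [ENNReal.ofReal_tsum_of_nonneg (hnn i) (hs1 i), ← ENNReal.tsum_mul_left]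
    congr 1
    funext j
    rw [poiP_apply, poiP_apply, ENNReal.ofReal_mul (mul_nonneg (poi_nonneg x i) (poi_nonneg y j)),
      ENNReal.ofReal_mul (poi_nonneg x i), ENNReal.ofReal_toReal (hfin i j), mul_assoc]
  rw [e1, ENNReal.toReal_ofReal (tsum_nonneg fun i => tsum_nonneg (hnn i))]

theorem QQ_toReal (hk : 2 ≤ Fintype.card A) (D : ℕ) : ∀ x y : ℕ,
    (QQ A D x y).toReal = 1 - tRec (Fintype.card A) (nu (Fintype.card A)) D x y := by
  induction D with
  | zero => exact QQ_zero A
  | succ D ih =>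
    intro x y
    have h0 : ∀ i j, 0 ≤ (QQ A D i j).toReal := fun i j => ENNReal.toReal_nonneg
    have h1 : ∀ i j, (QQ A D i j).toReal ≤ 1 := fun i j => by
      have := ENNReal.toReal_mono ENNReal.one_ne_top (QQ_le_one A D i j)
      simpa using this
    rw [QQ_succ A hk, ENNReal.toReal_pow, ex_ex_poiP x y (QQ_le_one A D), tRec]
    rw [sub_sub_cancel]
    congr 1
    -- `E Q = 1 - E t`
    have ht : ∀ i j, tRec (Fintype.card A) (nu (Fintype.card A)) D i j =
        1 - (QQ A D i j).toReal := fun i j => by rw [ih i j]; ring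
    simp only [ht]
    obtain ⟨hs1, hs2⟩ := summable_double x y h0 h1
    have hx := poi_hasSum x
    have hy := poi_hasSum y
    have e1 : ∀ i, ∑' j, poi x i * poi y j * (1 - (QQ A D i j).toReal) =
        poi x i - ∑' j, poi x i * poi y j * (QQ A D i j).toReal := by
      intro i
      have e2 : ∀ j, poi x i * poi y j * (1 - (QQ A D i j).toReal) =
          poi x i * poi y j - poi x i * poi y j * (QQ A D i j).toReal := fun j => by ring
      simp only [e2]
      rw [(hy.summable.mul_left _).tsum_sub (hs1 i), tsum_mul_left, hy.tsum_eq, mul_one]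
    simp only [e1]
    rw [hx.summable.tsum_sub hs2, hx.tsum_eq]
    ring

open Classical in
lemma cD_add (D : ℕ) :
    cD A D + (ex (mu A D) fun m => ex (mu A D) fun m' => dj m m') = 1 := by
  rw [cD, ← ex_add]
  have h : ∀ m m' : Multiset (List A), (if 1 ≤ ZZ m m' then (1 : ℝ≥0∞) else 0) + dj m m' = 1 := by
    intro m m'
    by_cases hd : ∀ w ∈ m, w ∉ m'
    · have hz : ¬ 1 ≤ ZZ m m' := by
        have : ZZ m m' = 0 := by
          unfold ZZ
          rw [Multiset.sum_eq_zero_iff]
          intro x hx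
          obtain ⟨w, hw, rfl⟩ := Multiset.mem_map.1 hx
          exact Multiset.count_eq_zero.2 (hd w hw)
        omega
      rw [if_neg hz, dj, if_pos hd, zero_add]
    · have hz : 1 ≤ ZZ m m' := by
        push Not at hd
        obtain ⟨w, hw, hw'⟩ := hd
        have h1 : 1 ≤ m'.count w := Multiset.one_le_count_iff_mem.2 hw'
        refine h1.trans ?_
        unfold ZZ
        exact Multiset.single_le_sum (by intro x _; exact Nat.zero_le x) _
          (Multiset.mem_map_of_mem _ hw)
      rw [if_pos hz, dj, if_neg hd, add_zero]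
  have h2 : ∀ m, ((ex (mu A D) fun m' => if 1 ≤ ZZ m m' then (1 : ℝ≥0∞) else 0) +
      ex (mu A D) fun m' => dj m m') = 1 := by
    intro m
    rw [← ex_add]
    simp only [h, ex_one]
  simp only [h2, ex_one]

lemma ex_SS_one (D : ℕ) (f : Multiset (List A) → ℝ≥0∞) : ex (SS A D 1) f = ex (kap A D) f := by
  rw [SS, ex_map, ex_iid_succ]
  congr 1
  funext m
  rw [ex_iid_zero]
  simp

end main

end Rc

open Rc in
/-- the probability that two independent trees have a common word of length `D` -/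
theorem cD_toReal (A : Type u) [Fintype A] [Nonempty A] (hk : 2 ≤ Fintype.card A) (D : ℕ) :
    nu (Fintype.card A) ^ 2 * (cD A D).toReal =
      tRec (Fintype.card A) (nu (Fintype.card A)) D 1 1 := by
  obtain ⟨h1, h2, -⟩ := nu_spec hk
  set ν := nu (Fintype.card A) with hν
  have hQ := QQ_toReal A hk D 1 1
  rw [← hν] at hQ
  set E := ex (mu A D) fun m => ex (mu A D) fun m' => dj m m' with hE
  have hadd : cD A D + E = 1 := cD_add A D
  have hEle : E ≤ 1 := by rw [← hadd]; exact le_add_self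
  have hcle : cD A D ≤ 1 := by rw [← hadd]; exact le_self_add
  have hEt : E ≠ ⊤ := ne_top_of_le_ne_top ENNReal.one_ne_top hEle
  have hct : cD A D ≠ ⊤ := ne_top_of_le_ne_top ENNReal.one_ne_top hcle
  have hreal : (cD A D).toReal + E.toReal = 1 := by
    rw [← ENNReal.toReal_add hct hEt, hadd]; simp
  have e1 : QQ A D 1 1 = ENNReal.ofReal (ν * (ν * E.toReal + (1 - ν)) + (1 - ν)) := by
    unfold QQ
    rw [ex_SS_one]
    simp only [ex_SS_one]
    have h3 : ∀ m, ex (kap A D) (fun m' => dj m m') =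
        ENNReal.ofReal ν * ex (mu A D) (fun m' => dj m m') + ENNReal.ofReal (1 - ν) := by
      intro m
      rw [ex_kap, dj_comm m 0, dj_zero_left, mul_one]
    simp only [h3]
    rw [ex_kap, ex_add, ex_const, ex_mul_left]
    have h4 : ex (mu A D) (fun m' => dj 0 m') = 1 := by
      simp only [dj_zero_left, ex_one]
    rw [h4, ← hE, mul_one, ← hν, ← ENNReal.ofReal_add h1.le (by linarith)]
    have hEn : 0 ≤ E.toReal := ENNReal.toReal_nonneg
    rw [show E = ENNReal.ofReal E.toReal from (ENNReal.ofReal_toReal hEt).symm]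
    rw [ENNReal.toReal_ofReal hEn, ← ENNReal.ofReal_mul h1.le,
      ← ENNReal.ofReal_add (by positivity) (by linarith), ← ENNReal.ofReal_mul h1.le,
      add_sub_cancel, ENNReal.ofReal_one, mul_one,
      ← ENNReal.ofReal_add (mul_nonneg h1.le (add_nonneg (by positivity) (by linarith)))
        (by linarith)]
  have hEn : 0 ≤ E.toReal := ENNReal.toReal_nonneg
  rw [e1, ENNReal.toReal_ofReal (by
    have : 0 ≤ ν * (ν * E.toReal + (1 - ν)) :=
      mul_nonneg h1.le (add_nonneg (by positivity) (by linarith))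
    linarith)] at hQ
  have hc : (cD A D).toReal = 1 - E.toReal := by linarith
  rw [hc]
  linarith

end Pool.Agent.SC
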