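import Mathlib
import Pool.Agent.W_MP_6663ab_lc.SDefs

/-!
# Upper bound for the L² norm of the density of the end point (task SC7)

`g_upper_of` is `g_upper` with the two black boxes (`xx_limit`, `collision_le`) as hypotheses.
-/

namespace Pool.Agent.SC

open Finset Filter
open scoped ENNReal Topology

universe u

section fiber

/-- sum of the squares of the sizes of the fibres -/
lemma sum_sq_fiber {V P : Type*} [Fintype V] [Fintype P] (G : V → Prop) (f : V → P)
    [∀ p, DecidablePred fun v => G v ∧ f v = p] [∀ v v', Decidable (G v ∧ G v' ∧ f v = f v')] :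
    ∑ p, ((univ.filter fun v => G v ∧ f v = p).card : ℝ) ^ 2 =
      ∑ v, ∑ v', if G v ∧ G v' ∧ f v = f v' then (1 : ℝ) else 0 := by
  have h1 : ∀ p, ((univ.filter fun v => G v ∧ f v = p).card : ℝ) =
      ∑ v, if G v ∧ f v = p then (1 : ℝ) else 0 := by
    intro p
    rw [Finset.card_filter]
    push_cast
    rfl
  simp_rw [h1, sq, Finset.sum_mul_sum]
  rw [Finset.sum_comm]
  refine sum_congr rfl fun v _ => ?_
  rw [Finset.sum_comm]
  refine sum_congr rfl fun v' _ => ?_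
  rw [Finset.sum_eq_single (f v)]
  · by_cases h1 : G v
    · by_cases h2 : G v'
      · by_cases h3 : f v = f v'
        · simp [h1, h2, h3]
        · have h3' : ¬ f v' = f v := fun h => h3 h.symm
          simp [h1, h2, h3, h3']
      · simp [h1, h2]
    · simp [h1]
  · intro p _ hp
    have : ¬ (G v ∧ f v = p) := fun h => hp h.2.symm
    simp [this]
  · intro h
    exact absurd (mem_univ _) h

end fiber

section count

/-- number of words which differ from a given word at place `i` and agree with it beyond `i` -/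
lemma card_last_diff {A : Type u} [Fintype A] [DecidableEq A] {m : ℕ} (v : Fin m → A)
    (i : Fin m) :
    (univ.filter fun v' : Fin m → A => v' i ≠ v i ∧ ∀ i', i < i' → v' i' = v i').card =
      Fintype.card A ^ (i : ℕ) * (Fintype.card A - 1) := by
  have h1 : (univ.filter fun v' : Fin m → A => v' i ≠ v i ∧ ∀ i', i < i' → v' i' = v i') =
      Fintype.piFinset (fun i' : Fin m => if i' < i then (univ : Finset A) else
        if i' = i then {v i}ᶜ else {v i'}) := by
    ext v'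
    simp only [mem_filter, mem_univ, true_and, Fintype.mem_piFinset]
    constructor
    · rintro ⟨h1, h2⟩ i'
      split_ifs with h3 h4
      · exact mem_univ _
      · rw [mem_compl, mem_singleton, h4]
        exact h1
      · rw [mem_singleton]
        exact h2 i' (lt_of_le_of_ne (not_lt.1 h3) (Ne.symm h4))
    · intro h
      constructor
      · have := h i
        rw [if_neg (lt_irrefl i), if_pos rfl, mem_compl, mem_singleton] at this
        exact this
      · intro i' hi'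
        have := h i'
        rw [if_neg (not_lt.2 hi'.le), if_neg hi'.ne', mem_singleton] at this
        exact this
  rw [h1, Fintype.card_piFinset]
  have h2 : ∀ i' : Fin m, (if i' < i then (univ : Finset A) else
        if i' = i then {v i}ᶜ else {v i'}).card =
      (if i' < i then Fintype.card A else 1) * (if i' = i then Fintype.card A - 1 else 1) := by
    intro i'
    by_cases h3 : i' < i
    · rw [if_pos h3, if_pos h3, if_neg h3.ne, mul_one, card_univ]
    · rw [if_neg h3, if_neg h3, one_mul]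
      by_cases h4 : i' = i
      · rw [if_pos h4, if_pos h4, card_compl, card_singleton]
      · rw [if_neg h4, if_neg h4, card_singleton]
  simp_rw [h2]
  rw [prod_mul_distrib, Finset.prod_ite_eq' univ i, if_pos (mem_univ _)]
  congr 1
  rw [Finset.prod_ite, prod_const_one, mul_one, prod_const]
  congr 1
  have h3 : (univ.filter fun x : Fin m => x < i) = Finset.Iio i := by
    ext x
    simp only [mem_filter, mem_univ, true_and, mem_Iio]
  rw [h3, Fin.card_Iio]

lemma exists_last_diff {A : Type u} {m : ℕ} {v v' : Fin m → A} (h : v' ≠ v) :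
    ∃ i : Fin m, v' i ≠ v i ∧ ∀ i', i < i' → v' i' = v i' := by
  classical
  have h1 : (univ.filter fun i : Fin m => v' i ≠ v i).Nonempty := by
    obtain ⟨i, hi⟩ := Function.ne_iff.1 h
    exact ⟨i, mem_filter.2 ⟨mem_univ _, hi⟩⟩
  refine ⟨(univ.filter fun i : Fin m => v' i ≠ v i).max' h1, ?_, ?_⟩
  · exact (mem_filter.1 (Finset.max'_mem _ h1)).2
  · intro i' hi'
    by_contra hcon
    have := Finset.le_max' (univ.filter fun i : Fin m => v' i ≠ v i) i'
      (mem_filter.2 ⟨mem_univ _, hcon⟩)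
    exact absurd hi' (not_lt.2 this)

/-- a common suffix does not reach the place of the last difference -/
lemma suffix_length_le {A : Type u} {m : ℕ} {v v' : Fin m → A} {i : Fin m} (hi : v' i ≠ v i)
    {z : List A} (h1 : z <:+ List.ofFn v) (h2 : z <:+ List.ofFn v') :
    z.length ≤ m - 1 - i := by
  by_contra hcon
  push Not at hcon
  have hi' := i.2
  obtain ⟨x, hx⟩ := h1
  obtain ⟨y, hy⟩ := h2
  have hlx : x.length + z.length = m := by
    have := congrArg List.length hx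
    simpa using this
  have hly : y.length + z.length = m := by
    have := congrArg List.length hy
    simpa using this
  have e1 : (x ++ z)[(i : ℕ)]? = some (v i) := by
    rw [hx, List.getElem?_ofFn]
    simp
  have e2 : (y ++ z)[(i : ℕ)]? = some (v' i) := by
    rw [hy, List.getElem?_ofFn]
    simp
  rw [List.getElem?_append_right (by omega)] at e1 e2
  rw [show x.length = y.length by omega] at e1
  rw [e1] at e2
  exact hi (Option.some.inj e2).symm

end count

section ES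

variable {A : Type u} [Fintype A] {n : ℕ}

lemma ES_mul_left (c : ℝ) (f : (Fin (n + 1) → A → Fin (n + 1)) → ℝ) :
    ES A n (fun δ => c * f δ) = c * ES A n f := by
  unfold ES
  rw [← Finset.mul_sum, mul_div_assoc]

lemma ES_mul_right (c : ℝ) (f : (Fin (n + 1) → A → Fin (n + 1)) → ℝ) :
    ES A n (fun δ => f δ * c) = ES A n f * c := by
  unfold ES
  rw [← Finset.sum_mul, div_mul_eq_mul_div]

lemma ES_sum {ι : Type*} (s : Finset ι) (f : ι → (Fin (n + 1) → A → Fin (n + 1)) → ℝ) :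
    ES A n (fun δ => ∑ i ∈ s, f i δ) = ∑ i ∈ s, ES A n (f i) := by
  unfold ES
  rw [Finset.sum_comm, Finset.sum_div]

lemma ES_nonneg {f : (Fin (n + 1) → A → Fin (n + 1)) → ℝ} (h : ∀ δ, 0 ≤ f δ) : 0 ≤ ES A n f :=
  div_nonneg (Finset.sum_nonneg fun δ _ => h δ) (Nat.cast_nonneg _)

lemma ES_le_one {f : (Fin (n + 1) → A → Fin (n + 1)) → ℝ} (h : ∀ δ, f δ ≤ 1) :
    ES A n f ≤ 1 := by
  unfold ES
  rcases Nat.eq_zero_or_pos (Sur A (0 : Fin (n + 1))).card with h0 | h0
  · rw [h0]; simp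
  · rw [div_le_one (by exact_mod_cast h0)]
    calc ∑ δ ∈ Sur A (0 : Fin (n + 1)), f δ ≤ ∑ δ ∈ Sur A (0 : Fin (n + 1)), (1 : ℝ) :=
          Finset.sum_le_sum fun δ _ => h δ
      _ = ((Sur A (0 : Fin (n + 1))).card : ℝ) := by simp

open Classical in
/-- probability that both words are self-avoiding and lead to the same state -/
noncomputable def PP (A : Type u) [Fintype A] (n : ℕ) (v v' : List A) : ℝ :=
  ES A n fun δ => if SA δ 0 v ∧ SA δ 0 v' ∧ run δ 0 v = run δ 0 v' then (1 : ℝ) else 0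

lemma PP_nonneg (v v' : List A) : 0 ≤ PP A n v v' := by
  refine ES_nonneg fun δ => ?_
  split_ifs <;> norm_num

lemma PP_le_one (v v' : List A) : PP A n v v' ≤ 1 := by
  refine ES_le_one fun δ => ?_
  split_ifs <;> norm_num

open Classical in
lemma sum_gS_sq (δ δ' : Fin (n + 1) → A → Fin (n + 1)) :
    ∑ p, ∑ q, (gS δ δ' p q) ^ 2 =
      (((n : ℝ) + 1) ^ 2 / (Fintype.card A : ℝ) ^ MM n) ^ 2 *
        ∑ v : Fin (MM n) → A, ∑ v' : Fin (MM n) → A,
          (if SA δ 0 (List.ofFn v) ∧ SA δ 0 (List.ofFn v') ∧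
              run δ 0 (List.ofFn v) = run δ 0 (List.ofFn v') then (1 : ℝ) else 0) *
          (if SA δ' 0 (List.ofFn v) ∧ SA δ' 0 (List.ofFn v') ∧
              run δ' 0 (List.ofFn v) = run δ' 0 (List.ofFn v') then (1 : ℝ) else 0) := by
  rw [← Fintype.sum_prod_type']
  have h1 := sum_sq_fiber (V := Fin (MM n) → A) (P := Fin (n + 1) × Fin (n + 1))
    (fun v => SA δ 0 (List.ofFn v) ∧ SA δ' 0 (List.ofFn v))
    (fun v => (run δ 0 (List.ofFn v), run δ' 0 (List.ofFn v)))
  have h2 : ∀ x : Fin (n + 1) × Fin (n + 1), (gS δ δ' x.1 x.2) ^ 2 =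
      (((n : ℝ) + 1) ^ 2 / (Fintype.card A : ℝ) ^ MM n) ^ 2 *
      ((univ.filter fun v : Fin (MM n) → A =>
        (SA δ 0 (List.ofFn v) ∧ SA δ' 0 (List.ofFn v)) ∧
        (run δ 0 (List.ofFn v), run δ' 0 (List.ofFn v)) = x).card : ℝ) ^ 2 := by
    intro x
    rw [gS, mul_pow]
    refine congrArg (fun t : Finset (Fin (MM n) → A) =>
      (((n : ℝ) + 1) ^ 2 / (Fintype.card A : ℝ) ^ MM n) ^ 2 * (t.card : ℝ) ^ 2) ?_
    ext v
    simp only [mem_filter, mem_univ, true_and, Prod.ext_iff]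
    tauto
  rw [Finset.sum_congr rfl fun x _ => h2 x, ← Finset.mul_sum, h1]
  refine congrArg (_ * ·) ?_
  refine sum_congr rfl fun v _ => sum_congr rfl fun v' _ => ?_
  have h3 : ((SA δ 0 (List.ofFn v) ∧ SA δ' 0 (List.ofFn v)) ∧
      (SA δ 0 (List.ofFn v') ∧ SA δ' 0 (List.ofFn v')) ∧
      (run δ 0 (List.ofFn v), run δ' 0 (List.ofFn v)) =
        (run δ 0 (List.ofFn v'), run δ' 0 (List.ofFn v'))) ↔
      (SA δ 0 (List.ofFn v) ∧ SA δ 0 (List.ofFn v') ∧
        run δ 0 (List.ofFn v) = run δ 0 (List.ofFn v')) ∧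
      (SA δ' 0 (List.ofFn v) ∧ SA δ' 0 (List.ofFn v') ∧
        run δ' 0 (List.ofFn v) = run δ' 0 (List.ofFn v')) := by
    simp only [Prod.mk.injEq]
    tauto
  rw [if_congr h3 rfl rfl]
  by_cases ha : SA δ 0 (List.ofFn v) ∧ SA δ 0 (List.ofFn v') ∧
      run δ 0 (List.ofFn v) = run δ 0 (List.ofFn v')
  · by_cases hb : SA δ' 0 (List.ofFn v) ∧ SA δ' 0 (List.ofFn v') ∧
        run δ' 0 (List.ofFn v) = run δ' 0 (List.ofFn v')
    · rw [if_pos ⟨ha, hb⟩, if_pos ha, if_pos hb, mul_one]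
    · rw [if_neg fun h => hb h.2, if_neg hb, mul_zero]
  · rw [if_neg fun h => ha h.1, if_neg ha, zero_mul]

open Classical in
lemma ES_ES_gS :
    ES A n (fun δ => ES A n fun δ' => (∑ p, ∑ q, (gS δ δ' p q) ^ 2) / ((n : ℝ) + 1) ^ 2) =
      ((n : ℝ) + 1) ^ 2 / ((Fintype.card A : ℝ) ^ MM n) ^ 2 *
        ∑ v : Fin (MM n) → A, ∑ v' : Fin (MM n) → A,
          PP A n (List.ofFn v) (List.ofFn v') ^ 2 := by
  have h1 : ∀ δ δ' : Fin (n + 1) → A → Fin (n + 1),
      (∑ p, ∑ q, (gS δ δ' p q) ^ 2) / ((n : ℝ) + 1) ^ 2 =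
      ((n : ℝ) + 1) ^ 2 / ((Fintype.card A : ℝ) ^ MM n) ^ 2 *
        ∑ v : Fin (MM n) → A, ∑ v' : Fin (MM n) → A,
          (if SA δ 0 (List.ofFn v) ∧ SA δ 0 (List.ofFn v') ∧
              run δ 0 (List.ofFn v) = run δ 0 (List.ofFn v') then (1 : ℝ) else 0) *
          (if SA δ' 0 (List.ofFn v) ∧ SA δ' 0 (List.ofFn v') ∧
              run δ' 0 (List.ofFn v) = run δ' 0 (List.ofFn v') then (1 : ℝ) else 0) := by
    intro δ δ'
    rw [sum_gS_sq, mul_comm, mul_div_assoc, mul_comm]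
    refine congrArg (· * _) ?_
    have h2 : ((n : ℝ) + 1) ≠ 0 := by positivity
    rw [div_pow]
    field_simp
  simp_rw [h1]
  simp_rw [ES_mul_left, ES_sum, ES_mul_left, ES_mul_right]
  refine congrArg (fun t : ℝ => ((n : ℝ) + 1) ^ 2 / ((Fintype.card A : ℝ) ^ MM n) ^ 2 * t) ?_
  refine sum_congr rfl fun v _ => sum_congr rfl fun v' _ => ?_
  rw [sq]
  rfl

end ES

section bound

variable {A : Type u} [Fintype A] [Nonempty A] {n : ℕ}

/-- the constant `(1 - 1/k) k^{-j} (1+j)²` -/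
noncomputable def tt (k : ℕ) (j : ℕ) : ℝ := (1 - 1 / (k : ℝ)) / (k : ℝ) ^ j * (1 + j) ^ 2

/-- sum over the pairs of words -/
lemma sum_PP_le (hk : 2 ≤ Fintype.card A) (c : ℝ)
    (hP : ∀ v v' : List A, v.length = v'.length → v.length = MM n → v ≠ v' → ∀ j : ℕ,
      (∀ z, z <:+ v → z <:+ v' → z.length ≤ j) →
      ((n : ℝ) + 1) * PP A n v v' ≤ (j + 1) * c) :
    ((n : ℝ) + 1) ^ 2 / ((Fintype.card A : ℝ) ^ MM n) ^ 2 *
        ∑ v : Fin (MM n) → A, ∑ v' : Fin (MM n) → A,
          PP A n (List.ofFn v) (List.ofFn v') ^ 2 ≤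
      ((n : ℝ) + 1) ^ 2 / ((Fintype.card A : ℝ) ^ MM n) +
        c ^ 2 * ∑ j ∈ range (MM n), tt (Fintype.card A) j := by
  classical
  set k : ℕ := Fintype.card A with hkdef
  set m : ℕ := MM n with hm
  have hk0 : (0 : ℝ) < k := by exact_mod_cast (by omega : 0 < k)
  -- for a fixed word
  have key : ∀ v : Fin m → A, ((n : ℝ) + 1) ^ 2 *
      ∑ v' : Fin m → A, PP A n (List.ofFn v) (List.ofFn v') ^ 2 ≤
      ((n : ℝ) + 1) ^ 2 + c ^ 2 * (k : ℝ) ^ m * ∑ j ∈ range m, tt k j := by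
    intro v
    have h1 : ∑ v' : Fin m → A, PP A n (List.ofFn v) (List.ofFn v') ^ 2 ≤
        1 + ∑ i : Fin m, ∑ v' ∈ univ.filter fun v' : Fin m → A =>
          v' i ≠ v i ∧ ∀ i', i < i' → v' i' = v i',
          PP A n (List.ofFn v) (List.ofFn v') ^ 2 := by
      rw [← Finset.add_sum_erase _ _ (mem_univ v)]
      apply add_le_add
      · have h2 := PP_le_one (A := A) (n := n) (List.ofFn v) (List.ofFn v)
        have h3 := PP_nonneg (A := A) (n := n) (List.ofFn v) (List.ofFn v)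
        exact pow_le_one₀ h3 h2
      · have h4 : ∀ v' ∈ (univ.erase v : Finset (Fin m → A)),
            PP A n (List.ofFn v) (List.ofFn v') ^ 2 ≤
            ∑ i : Fin m, if v' i ≠ v i ∧ ∀ i', i < i' → v' i' = v i' then
              PP A n (List.ofFn v) (List.ofFn v') ^ 2 else 0 := by
          intro v' hv'
          obtain ⟨i, hi⟩ := exists_last_diff (Finset.ne_of_mem_erase hv')
          have h5 := Finset.single_le_sum (f := fun i : Fin m =>
            if v' i ≠ v i ∧ ∀ i', i < i' → v' i' = v i' then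
              PP A n (List.ofFn v) (List.ofFn v') ^ 2 else 0) (s := univ)
            (fun i _ => by
              show 0 ≤ ite _ _ _
              split_ifs
              · exact sq_nonneg _
              · exact le_rfl) (mem_univ i)
          simp only [if_pos hi] at h5
          exact h5
        refine (Finset.sum_le_sum h4).trans ?_
        refine (Finset.sum_le_sum_of_subset_of_nonneg (Finset.erase_subset _ _)
          fun v' _ _ => Finset.sum_nonneg fun i _ => ?_).trans ?_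
        · split_ifs
          · exact sq_nonneg _
          · exact le_rfl
        · rw [Finset.sum_comm]
          simp_rw [Finset.sum_filter]
          exact le_rfl
    have h2 : ∀ i : Fin m, ((n : ℝ) + 1) ^ 2 * ∑ v' ∈ univ.filter fun v' : Fin m → A =>
          v' i ≠ v i ∧ ∀ i', i < i' → v' i' = v i',
          PP A n (List.ofFn v) (List.ofFn v') ^ 2 ≤
        c ^ 2 * (k : ℝ) ^ m * tt k (m - 1 - i) := by
      intro i
      rw [Finset.mul_sum]
      have h3 : ∀ v' ∈ (univ.filter fun v' : Fin m → A =>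
          v' i ≠ v i ∧ ∀ i', i < i' → v' i' = v i'),
          ((n : ℝ) + 1) ^ 2 * PP A n (List.ofFn v) (List.ofFn v') ^ 2 ≤
            ((((m - 1 - i : ℕ) : ℝ) + 1) * c) ^ 2 := by
        intro v' hv'
        obtain ⟨h4, h5⟩ := (mem_filter.1 hv').2
        have h6 := hP (List.ofFn v) (List.ofFn v') (by simp) (by simp [hm])
          (fun h => h4 (by rw [List.ofFn_injective h])) (m - 1 - i)
          (fun z hz hz' => suffix_length_le h4 hz hz')
        rw [← mul_pow]
        have h7 := PP_nonneg (A := A) (n := n) (List.ofFn v) (List.ofFn v')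
        exact pow_le_pow_left₀ (by positivity) h6 2
      refine (Finset.sum_le_sum h3).trans ?_
      rw [Finset.sum_const, card_last_diff, nsmul_eq_mul, ← hkdef, tt]
      have hi := i.2
      have h8 : m = (i : ℕ) + (m - 1 - i) + 1 := by omega
      have h9 : (k : ℝ) ^ m = (k : ℝ) ^ (i : ℕ) * (k : ℝ) ^ (m - 1 - (i : ℕ)) * k := by
        conv_lhs => rw [h8]
        rw [pow_succ, pow_add]
      rw [h9]
      push_cast [Nat.cast_sub (by omega : 1 ≤ k)]
      apply le_of_eq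
      field_simp
      ring
    have h3 : ∑ i : Fin m, tt k (m - 1 - i) = ∑ j ∈ range m, tt k j := by
      rw [← Finset.sum_range_reflect, Finset.sum_range]
    calc ((n : ℝ) + 1) ^ 2 * ∑ v' : Fin m → A, PP A n (List.ofFn v) (List.ofFn v') ^ 2
        ≤ ((n : ℝ) + 1) ^ 2 * (1 + ∑ i : Fin m, ∑ v' ∈ univ.filter fun v' : Fin m → A =>
          v' i ≠ v i ∧ ∀ i', i < i' → v' i' = v i',
          PP A n (List.ofFn v) (List.ofFn v') ^ 2) :=
          mul_le_mul_of_nonneg_left h1 (by positivity)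
      _ = ((n : ℝ) + 1) ^ 2 + ∑ i : Fin m, ((n : ℝ) + 1) ^ 2 *
          ∑ v' ∈ univ.filter fun v' : Fin m → A =>
          v' i ≠ v i ∧ ∀ i', i < i' → v' i' = v i',
          PP A n (List.ofFn v) (List.ofFn v') ^ 2 := by
          rw [mul_add, mul_one, Finset.mul_sum]
      _ ≤ ((n : ℝ) + 1) ^ 2 + ∑ i : Fin m, c ^ 2 * (k : ℝ) ^ m * tt k (m - 1 - i) :=
          add_le_add le_rfl (Finset.sum_le_sum fun i _ => h2 i)
      _ = _ := by rw [← Finset.mul_sum, h3]
  have h4 : ((n : ℝ) + 1) ^ 2 * ∑ v : Fin m → A, ∑ v' : Fin m → A,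
      PP A n (List.ofFn v) (List.ofFn v') ^ 2 ≤
      (k : ℝ) ^ m * (((n : ℝ) + 1) ^ 2 + c ^ 2 * (k : ℝ) ^ m * ∑ j ∈ range m, tt k j) := by
    rw [Finset.mul_sum]
    refine (Finset.sum_le_sum fun v _ => key v).trans ?_
    rw [Finset.sum_const, card_univ, Fintype.card_fun, Fintype.card_fin, nsmul_eq_mul, ← hkdef]
    push_cast
    exact le_rfl
  have h5 : (0 : ℝ) < (k : ℝ) ^ m := by positivity
  calc ((n : ℝ) + 1) ^ 2 / ((k : ℝ) ^ m) ^ 2 *
        ∑ v : Fin m → A, ∑ v' : Fin m → A, PP A n (List.ofFn v) (List.ofFn v') ^ 2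
      = (((n : ℝ) + 1) ^ 2 * ∑ v : Fin m → A, ∑ v' : Fin m → A,
          PP A n (List.ofFn v) (List.ofFn v') ^ 2) / ((k : ℝ) ^ m) ^ 2 := by ring
    _ ≤ ((k : ℝ) ^ m * (((n : ℝ) + 1) ^ 2 + c ^ 2 * (k : ℝ) ^ m * ∑ j ∈ range m, tt k j)) /
          ((k : ℝ) ^ m) ^ 2 := by gcongr
    _ = _ := by field_simp

end bound

section analysis

lemma tt_nonneg {k : ℕ} (hk : 2 ≤ k) (j : ℕ) : 0 ≤ tt k j := by
  have h1 : (2 : ℝ) ≤ k := by exact_mod_cast hk
  have h2 : 1 / (k : ℝ) ≤ 1 := by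
    rw [div_le_one (by linarith)]
    linarith
  unfold tt
  have h3 : 0 ≤ 1 - 1 / (k : ℝ) := by linarith
  positivity

lemma tt_summable {k : ℕ} (hk : 2 ≤ k) : Summable (tt k) := by
  have h1 : (2 : ℝ) ≤ k := by exact_mod_cast hk
  have h0 : (0 : ℝ) < k := by linarith
  have h2 : ‖(1 / (k : ℝ))‖ < 1 := by
    rw [Real.norm_of_nonneg (by positivity), div_lt_one h0]
    linarith
  have s0 := summable_pow_mul_geometric_of_norm_lt_one 0 h2
  have s1 := summable_pow_mul_geometric_of_norm_lt_one 1 h2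
  have s2 := summable_pow_mul_geometric_of_norm_lt_one 2 h2
  have s3 := ((s0.add (s1.mul_left 2)).add s2).mul_left (1 - 1 / (k : ℝ))
  refine s3.congr fun j => ?_
  unfold tt
  rw [one_div_pow]
  ring

lemma MM_div_tendsto : Tendsto (fun n : ℕ => (MM n : ℝ) / ((n : ℝ) + 1)) atTop (𝓝 0) := by
  have h1 : Tendsto (fun n : ℕ => Real.log ((n : ℝ) + 1) / ((n : ℝ) + 1)) atTop (𝓝 0) := by
    have h2 : Tendsto (fun x : ℝ => Real.log x / x) atTop (𝓝 0) := by
      have := Real.isLittleO_log_id_atTop.tendsto_div_nhds_zero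
      simpa using this
    exact h2.comp (tendsto_atTop_add_const_right _ 1 tendsto_natCast_atTop_atTop)
  have h3 : Tendsto (fun n : ℕ => 1 / ((n : ℝ) + 1)) atTop (𝓝 0) :=
    tendsto_one_div_add_atTop_nhds_zero_nat
  have h4 : Tendsto (fun n : ℕ => 3 / Real.log 2 * (Real.log ((n : ℝ) + 1) / ((n : ℝ) + 1)) +
      3 * (1 / ((n : ℝ) + 1))) atTop (𝓝 0) := by
    have := (h1.const_mul (3 / Real.log 2)).add (h3.const_mul 3)
    simpa using this
  refine squeeze_zero (fun n => by positivity) (fun n => ?_) h4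
  have h5 : ((Nat.log 2 (n + 1) : ℕ) : ℝ) ≤ Real.log ((n : ℝ) + 1) / Real.log 2 := by
    have := Real.natLog_le_logb (n + 1) 2
    rw [Real.logb] at this
    exact_mod_cast this
  have h6 : (0 : ℝ) < (n : ℝ) + 1 := by positivity
  have h7 : (MM n : ℝ) ≤ 3 * (Real.log ((n : ℝ) + 1) / Real.log 2 + 1) := by
    unfold MM
    push_cast
    linarith
  calc (MM n : ℝ) / ((n : ℝ) + 1) ≤
      (3 * (Real.log ((n : ℝ) + 1) / Real.log 2 + 1)) / ((n : ℝ) + 1) := by gcongr
    _ = _ := by ring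

lemma ratio_tendsto : Tendsto (fun n : ℕ => ((n : ℝ) - 2 * MM n - 3) / ((n : ℝ) + 1)) atTop
    (𝓝 1) := by
  have h3 : Tendsto (fun n : ℕ => 1 / ((n : ℝ) + 1)) atTop (𝓝 0) :=
    tendsto_one_div_add_atTop_nhds_zero_nat
  have h4 : Tendsto (fun n : ℕ => 1 - 2 * ((MM n : ℝ) / ((n : ℝ) + 1)) -
      4 * (1 / ((n : ℝ) + 1))) atTop (𝓝 1) := by
    have := ((MM_div_tendsto.const_mul 2).const_sub 1).sub (h3.const_mul 4)
    simpa using this
  refine h4.congr fun n => ?_
  have h6 : ((n : ℝ) + 1) ≠ 0 := by positivity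
  field_simp
  ring

lemma pow_MM_ge {k : ℕ} (hk : 2 ≤ k) (n : ℕ) : ((n : ℝ) + 1) ^ 3 ≤ (k : ℝ) ^ MM n := by
  have h1 : n + 1 < 2 ^ (Nat.log 2 (n + 1) + 1) := Nat.lt_pow_succ_log_self (by norm_num) _
  have h2 : (n + 1) ^ 3 ≤ k ^ MM n := by
    unfold MM
    rw [mul_comm, pow_mul]
    calc (n + 1) ^ 3 ≤ (2 ^ (Nat.log 2 (n + 1) + 1)) ^ 3 := Nat.pow_le_pow_left h1.le 3
      _ ≤ (k ^ (Nat.log 2 (n + 1) + 1)) ^ 3 :=
        Nat.pow_le_pow_left (Nat.pow_le_pow_left hk _) 3
  exact_mod_cast h2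

end analysis

variable (A : Type u) [Fintype A] [Nonempty A]

open Classical in
/-- `g_upper` from its two black boxes -/
theorem g_upper_of (hk : 2 ≤ Fintype.card A)
    (xx_limit : ∀ a b : A, Tendsto (fun n : ℕ => ES A n fun δ => (xx δ a b : ℝ) / (n + 1)) atTop
      (𝓝 (nu (Fintype.card A))))
    (collision_le : ∀ (n : ℕ) (B : ℝ)
      (_ : ∀ a b : A, ∑ δ ∈ Sur A (0 : Fin (n + 1)), (xx δ a b : ℝ) ≤ B)
      (v v' : List A) (_ : v.length = v'.length) (_ : v ≠ v') (j : ℕ)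
      (_ : ∀ z, z <:+ v → z <:+ v' → z.length ≤ j) (_ : 2 * v.length + 3 < n),
      (((Sur A (0 : Fin (n + 1))).filter fun δ => SA δ 0 v ∧ SA δ 0 v' ∧
          run δ 0 v = run δ 0 v').card : ℝ) * ((n : ℝ) - 2 * v.length - 3) ^ 2 ≤
        (j + 1) * B)
    (ε : ℝ) (hε : 0 < ε) :
    ∃ D₁ : ℕ, ∀ D ≥ D₁, ∀ᶠ n in atTop,
      ES A n (fun δ => ES A n fun δ' => (∑ p, ∑ q, (gS δ δ' p q) ^ 2) / ((n : ℝ) + 1) ^ 2) ≤
        (∑ j ∈ range D, (1 - 1 / (Fintype.card A : ℝ)) / (Fintype.card A : ℝ) ^ j *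
          (nu (Fintype.card A) * (1 + j)) ^ 2) + ε := by
  set k := Fintype.card A with hkdef
  obtain ⟨hν0, hν1, -⟩ := nu_spec hk
  set ν := nu k with hν
  set S : ℝ := ∑' j, tt k j with hS
  have hsum := tt_summable hk
  -- choice of `η`
  obtain ⟨η, hη, hη2⟩ : ∃ η : ℝ, 0 < η ∧ ((ν + η) * (1 + η)) ^ 2 * S ≤ ν ^ 2 * S + ε / 3 := by
    have h1 : Continuous fun x : ℝ => ((ν + x) * (1 + x)) ^ 2 * S := by fun_prop
    have h3 : ((ν + 0) * (1 + 0)) ^ 2 * S < ν ^ 2 * S + ε / 3 := by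
      have : ((ν + 0) * (1 + 0)) ^ 2 * S = ν ^ 2 * S := by ring
      rw [this]
      linarith
    have h2 := (h1.tendsto 0).eventually_lt_const h3
    obtain ⟨δ, hδ, hδ2⟩ := Metric.eventually_nhds_iff.1 h2
    refine ⟨δ / 2, by linarith, (hδ2 (y := δ / 2) ?_).le⟩
    rw [Real.dist_eq, sub_zero, abs_of_pos (by linarith)]
    linarith
  -- choice of `D₁`
  obtain ⟨D₁, hD₁⟩ : ∃ D₁ : ℕ, ∀ D ≥ D₁, S - ε / 3 ≤ ∑ j ∈ range D, tt k j := by
    have h1 := hsum.hasSum.tendsto_sum_nat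
    have h2 := h1.eventually_const_lt (show S - ε / 3 < ∑' j, tt k j by rw [← hS]; linarith)
    obtain ⟨D₁, h3⟩ := eventually_atTop.1 h2
    exact ⟨D₁, fun D hD => (h3 D hD).le⟩
  refine ⟨D₁, fun D hD => ?_⟩
  have e1 : ∀ᶠ n : ℕ in atTop, ∀ a b : A, ES A n (fun δ => (xx δ a b : ℝ) / (n + 1)) ≤ ν + η := by
    rw [eventually_all]
    intro a
    rw [eventually_all]
    intro b
    filter_upwards [(xx_limit a b).eventually_lt_const (show ν < ν + η by linarith)] with n hn
    exact hn.le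
  have e2 : ∀ᶠ n : ℕ in atTop, 1 / (1 + η) < (((n : ℝ) - 2 * MM n - 3) / ((n : ℝ) + 1)) ^ 2 := by
    have h1 := ratio_tendsto.pow 2
    rw [one_pow] at h1
    refine h1.eventually_const_lt ?_
    rw [div_lt_one (by linarith)]
    linarith
  have e3 : ∀ᶠ n : ℕ in atTop, 0 < ((n : ℝ) - 2 * MM n - 3) / ((n : ℝ) + 1) :=
    ratio_tendsto.eventually_const_lt one_pos
  have e4 : ∀ᶠ n : ℕ in atTop, 1 / ((n : ℝ) + 1) < ε / 3 :=
    tendsto_one_div_add_atTop_nhds_zero_nat.eventually_lt_const (by linarith)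
  filter_upwards [e1, e2, e3, e4] with n h1 h2 h3 h4
  have hN : (0 : ℝ) < (n : ℝ) + 1 := by positivity
  rw [ES_ES_gS]
  have hlt : 2 * MM n + 3 < n := by
    have h5 : 0 < (n : ℝ) - 2 * MM n - 3 := by
      rcases div_pos_iff.1 h3 with h | h
      · exact h.1
      · linarith [h.2]
    have : (2 * MM n + 3 : ℝ) < n := by linarith
    exact_mod_cast this
  have hP := sum_PP_le (A := A) (n := n) hk ((ν + η) * (1 + η)) (by
    intro v v' hl hm hne j hj
    have h5 := collision_le n ((ν + η) * (((n : ℝ) + 1) *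
      ((Sur A (0 : Fin (n + 1))).card : ℝ))) (by
        intro a b
        have h6 := h1 a b
        unfold ES at h6
        rw [← Finset.sum_div, div_div] at h6
        rcases Nat.eq_zero_or_pos (Sur A (0 : Fin (n + 1))).card with h0 | h0
        · rw [Finset.card_eq_zero] at h0
          rw [h0]
          simp
        · rw [div_le_iff₀ (by positivity)] at h6
          exact h6) v v' hl hne j hj (by rw [hm]; exact hlt)
    rw [hm] at h5
    have h7 : PP A n v v' = (((Sur A (0 : Fin (n + 1))).filter fun δ => SA δ 0 v ∧ SA δ 0 v' ∧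
          run δ 0 v = run δ 0 v').card : ℝ) / ((Sur A (0 : Fin (n + 1))).card : ℝ) := by
      unfold PP ES
      rw [Finset.card_filter]
      push_cast
      rfl
    have h8 : PP A n v v' * ((n : ℝ) - 2 * MM n - 3) ^ 2 ≤
        (j + 1) * (ν + η) * ((n : ℝ) + 1) := by
      rcases Nat.eq_zero_or_pos (Sur A (0 : Fin (n + 1))).card with h0 | h0
      · rw [h7, h0]
        simp only [Nat.cast_zero, div_zero, zero_mul]
        positivity
      · have h0' : (0 : ℝ) < ((Sur A (0 : Fin (n + 1))).card : ℝ) := by exact_mod_cast h0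
        rw [h7, div_mul_eq_mul_div, div_le_iff₀ h0']
        calc _ ≤ _ := h5
          _ = _ := by ring
    have h9 : ((n : ℝ) + 1) ^ 2 ≤ (1 + η) * ((n : ℝ) - 2 * MM n - 3) ^ 2 := by
      rw [div_pow, div_lt_div_iff₀ (by linarith) (by positivity)] at h2
      linarith
    have h10 := PP_nonneg (A := A) (n := n) v v'
    have h11 : PP A n v v' * ((n : ℝ) + 1) ^ 2 ≤
        (1 + η) * ((j + 1) * (ν + η) * ((n : ℝ) + 1)) := by
      calc PP A n v v' * ((n : ℝ) + 1) ^ 2 ≤
          PP A n v v' * ((1 + η) * ((n : ℝ) - 2 * MM n - 3) ^ 2) :=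
            mul_le_mul_of_nonneg_left h9 h10
        _ = (1 + η) * (PP A n v v' * ((n : ℝ) - 2 * MM n - 3) ^ 2) := by ring
        _ ≤ _ := mul_le_mul_of_nonneg_left h8 (by linarith)
    have h12 : (((n : ℝ) + 1) * PP A n v v') * ((n : ℝ) + 1) ≤
        ((j + 1) * ((ν + η) * (1 + η))) * ((n : ℝ) + 1) := by
      calc _ = PP A n v v' * ((n : ℝ) + 1) ^ 2 := by ring
        _ ≤ _ := h11
        _ = _ := by ring
    exact le_of_mul_le_mul_right h12 hN)
  refine hP.trans ?_
  have h5 : ((n : ℝ) + 1) ^ 2 / ((k : ℝ) ^ MM n) ≤ 1 / ((n : ℝ) + 1) := by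
    have h6 := pow_MM_ge hk n
    have h7 : (0 : ℝ) < ((n : ℝ) + 1) ^ 3 := by positivity
    calc ((n : ℝ) + 1) ^ 2 / ((k : ℝ) ^ MM n) ≤ ((n : ℝ) + 1) ^ 2 / ((n : ℝ) + 1) ^ 3 := by
          gcongr
      _ = _ := by field_simp
  have h6 : ∑ j ∈ range (MM n), tt k j ≤ S :=
    hsum.sum_le_tsum _ fun j _ => tt_nonneg hk j
  have h7 : ∑ j ∈ range D, (1 - 1 / (k : ℝ)) / (k : ℝ) ^ j * (ν * (1 + j)) ^ 2 =
      ν ^ 2 * ∑ j ∈ range D, tt k j := by
    rw [Finset.mul_sum]
    refine Finset.sum_congr rfl fun j _ => ?_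
    unfold tt
    ring
  rw [h7]
  have h8 : ((ν + η) * (1 + η)) ^ 2 * ∑ j ∈ range (MM n), tt k j ≤
      ((ν + η) * (1 + η)) ^ 2 * S := mul_le_mul_of_nonneg_left h6 (sq_nonneg _)
  have h9 : ν ^ 2 * (S - ε / 3) ≤ ν ^ 2 * ∑ j ∈ range D, tt k j :=
    mul_le_mul_of_nonneg_left (hD₁ D hD) (sq_nonneg _)
  have h10 : ν ^ 2 ≤ 1 := pow_le_one₀ hν0.le hν1.le
  have h11 : ν ^ 2 * (ε / 3) ≤ ε / 3 :=
    mul_le_of_le_one_left (div_nonneg hε.le (by norm_num)) h10
  have h12 : ν ^ 2 * (S - ε / 3) = ν ^ 2 * S - ν ^ 2 * (ε / 3) := by ring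
  linarith

end Pool.Agent.SC
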