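import Mathlib
import Pool.Agent.W_MP_6663ab_lc.SDefs
import Pool.Agent.W_MP_6663ab_lc.SGw1

/-!
# The limit of the number of pairs of edges with the same target
-/

set_option autoImplicit false

namespace Pool.Agent.SC

open Finset Filter
open scoped ENNReal Topology

universe u

namespace XX

section basic

variable {A : Type u} [Fintype A]

lemma sur_nonempty [Nonempty A] (n : ℕ) : (Sur A (0 : Fin (n + 1))).Nonempty := by
  classical
  refine ⟨fun s _ => s, ?_⟩
  have h : IsSur (0 : Fin (n + 1)) (fun (s : Fin (n + 1)) (_ : A) => s) :=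
    fun p _ => ⟨p, Classical.arbitrary A, rfl⟩
  simpa [Sur] using h

lemma card_pos' [Nonempty A] (n : ℕ) : (0 : ℝ) < ((Sur A (0 : Fin (n + 1))).card : ℝ) := by
  exact_mod_cast (sur_nonempty n).card_pos

lemma ES_mono {n : ℕ} {f g : (Fin (n + 1) → A → Fin (n + 1)) → ℝ}
    (h : ∀ δ ∈ Sur A (0 : Fin (n + 1)), f δ ≤ g δ) : ES A n f ≤ ES A n g := by
  unfold ES
  exact div_le_div_of_nonneg_right (sum_le_sum h) (by positivity)

lemma ES_add {n : ℕ} (f g : (Fin (n + 1) → A → Fin (n + 1)) → ℝ) :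
    ES A n (fun δ => f δ + g δ) = ES A n f + ES A n g := by
  unfold ES
  rw [sum_add_distrib, add_div]

lemma ES_mul_left {n : ℕ} (c : ℝ) (f : (Fin (n + 1) → A → Fin (n + 1)) → ℝ) :
    ES A n (fun δ => c * f δ) = c * ES A n f := by
  unfold ES
  rw [← mul_sum, mul_div_assoc]

lemma ES_const [Nonempty A] {n : ℕ} (c : ℝ) :
    ES A n (fun _ => c) = c := by
  unfold ES
  rw [sum_const, nsmul_eq_mul, mul_div_assoc, mul_comm, div_mul_cancel₀]
  exact (card_pos' n).ne'

omit [Fintype A] in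
/-- changing the target of an edge which shares its target with another edge keeps the
structure in the surjection model -/
lemma isSur_upd {Q : Type*} {q₀ : Q} {δ : Q → A → Q} (h : IsSur q₀ δ) {p s c : Q} {a b : A}
    (hne : s = p → b ≠ a) (ht : δ s b = δ p a) : IsSur q₀ (upd δ p a c) := by
  intro x hx
  obtain ⟨t, d, htd⟩ := h x hx
  by_cases h' : t = p ∧ d = a
  · obtain ⟨rfl, rfl⟩ := h'
    exact ⟨s, b, by rw [upd_ne hne, ht, htd]⟩
  · refine ⟨t, d, ?_⟩
    rw [upd_ne (fun h1 h2 => h' ⟨h1, h2⟩), htd]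

end basic

section triple

variable {A : Type u} [Fintype A] {n : ℕ}

open Classical in
/-- ordered triples of different edges with the same target -/
noncomputable def E3 (δ : Fin (n + 1) → A → Fin (n + 1)) : Finset (Fin 3 → Fin (n + 1) × A) :=
  univ.filter fun f => Function.Injective f ∧ ∀ i, δ (f i).1 (f i).2 = δ (f 0).1 (f 0).2

lemma third (A : Type u) [Fintype A] (n : ℕ) :
    (∑ δ ∈ Sur A (0 : Fin (n + 1)), (E3 δ).card) * (n + 1) ^ 2 ≤
      (Sur A (0 : Fin (n + 1))).card * (Fintype.card A * (n + 1)) ^ 3 := by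
  classical
  let P : Finset ((Fin (n + 1) → A → Fin (n + 1)) × (Fin 3 → Fin (n + 1) × A) ×
      (Fin (n + 1) × Fin (n + 1))) :=
    (Sur A (0 : Fin (n + 1)) ×ˢ (univ ×ˢ univ)).filter fun x => x.2.1 ∈ E3 x.1
  have hP : P.card = (∑ δ ∈ Sur A (0 : Fin (n + 1)), (E3 δ).card) * (n + 1) ^ 2 := by
    rw [card_filter, sum_product, sum_mul]
    refine sum_congr rfl fun δ _ => ?_
    rw [sum_product]
    have h1 : ∀ f : Fin 3 → Fin (n + 1) × A,
        (∑ _r : Fin (n + 1) × Fin (n + 1), if f ∈ E3 δ then 1 else 0) =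
          (if f ∈ E3 δ then 1 else 0) * (n + 1) ^ 2 := by
      intro f
      rw [sum_const, card_univ, Fintype.card_prod, Fintype.card_fin, smul_eq_mul]
      ring
    refine (sum_congr rfl fun f _ => h1 f).trans ?_
    rw [← sum_mul, ← card_filter]
    have : (univ.filter fun f => f ∈ E3 δ) = E3 δ := by
      ext f
      simp only [mem_filter, mem_univ, true_and]
    rw [this]
  let Φ : ((Fin (n + 1) → A → Fin (n + 1)) × (Fin 3 → Fin (n + 1) × A) ×
      (Fin (n + 1) × Fin (n + 1))) → ((Fin (n + 1) → A → Fin (n + 1)) ×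
        (Fin 3 → Fin (n + 1) × A)) := fun x =>
    (upd (upd x.1 (x.2.1 1).1 (x.2.1 1).2 x.2.2.1) (x.2.1 2).1 (x.2.1 2).2 x.2.2.2, x.2.1)
  have hmaps : ∀ x ∈ P, Φ x ∈ Sur A (0 : Fin (n + 1)) ×ˢ
      (univ : Finset (Fin 3 → Fin (n + 1) × A)) := by
    rintro ⟨δ, f, r⟩ hx
    simp only [P, mem_filter, mem_product, mem_univ, and_true] at hx
    obtain ⟨hδ, hf⟩ := hx
    simp only [E3, mem_filter, mem_univ, true_and] at hf
    obtain ⟨hinj, htar⟩ := hf
    simp only [Φ, mem_product, mem_univ, and_true]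
    simp only [Sur, mem_filter, mem_univ, true_and] at hδ ⊢
    have h01 : (f 0).1 = (f 1).1 → (f 0).2 ≠ (f 1).2 := by
      intro h1 h2
      have := hinj (Prod.ext h1 h2)
      exact absurd this (by decide)
    have h21 : (f 2).1 = (f 1).1 → (f 2).2 ≠ (f 1).2 := by
      intro h1 h2
      have := hinj (Prod.ext h1 h2)
      exact absurd this (by decide)
    have h02 : (f 0).1 = (f 2).1 → (f 0).2 ≠ (f 2).2 := by
      intro h1 h2
      have := hinj (Prod.ext h1 h2)
      exact absurd this (by decide)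
    refine isSur_upd (isSur_upd hδ h01 (htar 1).symm) h02 ?_
    rw [upd_ne h01, upd_ne h21, htar 2]
  have hinjP : Set.InjOn Φ P := by
    rintro ⟨δ, f, r⟩ hx ⟨δ', f', r'⟩ hx' hE
    simp only [P, coe_filter, mem_product, mem_univ, and_true, Set.mem_ofPred_eq] at hx hx'
    obtain ⟨hδ, hf⟩ := hx
    obtain ⟨hδ', hf'⟩ := hx'
    simp only [E3, mem_filter, mem_univ, true_and] at hf hf'
    obtain ⟨hinj, htar⟩ := hf
    obtain ⟨hinj', htar'⟩ := hf'
    simp only [Φ, Prod.mk.injEq] at hE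
    obtain ⟨hE, rfl⟩ := hE
    have h12 : (f 1).1 = (f 2).1 → (f 1).2 ≠ (f 2).2 := by
      intro h1 h2
      have := hinj (Prod.ext h1 h2)
      exact absurd this (by decide)
    have h01 : (f 0).1 = (f 1).1 → (f 0).2 ≠ (f 1).2 := by
      intro h1 h2
      have := hinj (Prod.ext h1 h2)
      exact absurd this (by decide)
    have h02 : (f 0).1 = (f 2).1 → (f 0).2 ≠ (f 2).2 := by
      intro h1 h2
      have := hinj (Prod.ext h1 h2)
      exact absurd this (by decide)
    have hr2 : r.2 = r'.2 := by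
      have := congrFun (congrFun hE (f 2).1) (f 2).2
      rwa [upd_same, upd_same] at this
    have hr1 : r.1 = r'.1 := by
      have := congrFun (congrFun hE (f 1).1) (f 1).2
      rwa [upd_ne h12, upd_ne h12, upd_same, upd_same] at this
    have h0 : δ (f 0).1 (f 0).2 = δ' (f 0).1 (f 0).2 := by
      have := congrFun (congrFun hE (f 0).1) (f 0).2
      rwa [upd_ne h02, upd_ne h02, upd_ne h01, upd_ne h01] at this
    have hδδ : δ = δ' := by
      funext s a
      by_cases c1 : s = (f 1).1 ∧ a = (f 1).2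
      · obtain ⟨rfl, rfl⟩ := c1
        rw [htar 1, htar' 1, h0]
      · by_cases c2 : s = (f 2).1 ∧ a = (f 2).2
        · obtain ⟨rfl, rfl⟩ := c2
          rw [htar 2, htar' 2, h0]
        · have c1' : s = (f 1).1 → a ≠ (f 1).2 := fun h1 h2 => c1 ⟨h1, h2⟩
          have c2' : s = (f 2).1 → a ≠ (f 2).2 := fun h1 h2 => c2 ⟨h1, h2⟩
          have := congrFun (congrFun hE s) a
          rwa [upd_ne c2', upd_ne c2', upd_ne c1', upd_ne c1'] at this
    rw [hδδ, Prod.ext hr1 hr2]
  have hcard := card_le_card_of_injOn Φ hmaps hinjP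
  rw [hP, card_product] at hcard
  have h3 : (univ : Finset (Fin 3 → Fin (n + 1) × A)).card = (Fintype.card A * (n + 1)) ^ 3 := by
    rw [card_univ, Fintype.card_fun, Fintype.card_prod, Fintype.card_fin, Fintype.card_fin,
      mul_comm]
  rwa [h3] at hcard

lemma ES_E3 (A : Type u) [Fintype A] [Nonempty A] (n : ℕ) :
    ES A n (fun δ => ((E3 δ).card : ℝ) / (n + 1)) ≤ (Fintype.card A : ℝ) ^ 3 := by
  have h := third A n
  have h' : (∑ δ ∈ Sur A (0 : Fin (n + 1)), ((E3 δ).card : ℝ)) * ((n : ℝ) + 1) ^ 2 ≤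
      ((Sur A (0 : Fin (n + 1))).card : ℝ) * ((Fintype.card A : ℝ) * ((n : ℝ) + 1)) ^ 3 := by
    exact_mod_cast h
  unfold ES
  rw [← sum_div, div_div, div_le_iff₀ (by have := card_pos' (A := A) n; positivity)]
  have hn : (0 : ℝ) < (n : ℝ) + 1 := by positivity
  have h2 : (∑ δ ∈ Sur A (0 : Fin (n + 1)), ((E3 δ).card : ℝ)) * ((n : ℝ) + 1) ^ 2 ≤
      ((Fintype.card A : ℝ) ^ 3 * (((n : ℝ) + 1) * ((Sur A (0 : Fin (n + 1))).card : ℝ))) *
        ((n : ℝ) + 1) ^ 2 := by
    calc _ ≤ _ := h'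
      _ = _ := by ring
  exact le_of_mul_le_mul_right h2 (by positivity)

end triple

section level

variable {A : Type u} [Fintype A] {n : ℕ}

open Classical in
/-- edges with target `p` -/
noncomputable def Ein (δ : Fin (n + 1) → A → Fin (n + 1)) (p : Fin (n + 1)) :
    Finset (Fin (n + 1) × A) :=
  univ.filter fun e => δ e.1 e.2 = p

lemma lev_one (δ : Fin (n + 1) → A → Fin (n + 1)) (p : Fin (n + 1)) :
    lev δ 1 p = (Ein δ p).val.map fun e => [e.2] := by
  classical
  have h1 : lev δ 1 p = ∑ e ∈ Ein δ p, ({[e.2]} : Multiset (List A)) := by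
    rw [lev, Ein, sum_filter]
    refine sum_congr rfl fun e _ => ?_
    simp only [lev]
    split_ifs <;> simp
  rw [h1, Finset.sum]
  have h2 : (Multiset.map (fun e : Fin (n + 1) × A => ({[e.2]} : Multiset (List A)))
      (Ein δ p).val) = Multiset.map (fun x : List A => ({x} : Multiset (List A)))
        (Multiset.map (fun e : Fin (n + 1) × A => [e.2]) (Ein δ p).val) := by
    rw [Multiset.map_map]
    rfl
  rw [h2, Multiset.sum_map_singleton]

lemma card_lev_one (δ : Fin (n + 1) → A → Fin (n + 1)) (p : Fin (n + 1)) :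
    (lev δ 1 p).card = (Ein δ p).card := by
  rw [lev_one, Multiset.card_map]; rfl

open Classical in
lemma count_lev_one (δ : Fin (n + 1) → A → Fin (n + 1)) (p : Fin (n + 1)) (a : A) :
    (lev δ 1 p).count [a] = (univ.filter fun s : Fin (n + 1) => δ s a = p).card := by
  rw [lev_one, Multiset.count_map]
  have h1 : (Multiset.filter (fun e : Fin (n + 1) × A => [a] = [e.2]) (Ein δ p).val).card =
      ((Ein δ p).filter fun e => [a] = [e.2]).card := rfl
  rw [h1]
  symm
  refine card_bij (fun s _ => (s, a)) ?_ ?_ ?_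
  · intro s hs
    simp only [mem_filter, mem_univ, true_and] at hs
    simp [Ein, hs]
  · intro s _ t _ h
    exact (Prod.mk.inj h).1
  · rintro ⟨s, b⟩ h
    simp only [Ein, mem_filter, mem_univ, true_and, List.cons.injEq, and_true] at h
    refine ⟨s, ?_, ?_⟩
    · simp only [mem_filter, mem_univ, true_and]
      rw [h.2]; exact h.1
    · rw [h.2]

open Classical in
/-- number of ordered pairs of different edges with letters `a`, `b` in a level 1 multiset -/
noncomputable def hF (a b : A) (m : Multiset (List A)) : ℕ :=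
  m.count [a] * m.count [b] - if a = b then m.count [a] else 0

lemma xx_eq (δ : Fin (n + 1) → A → Fin (n + 1)) (a b : A) :
    xx δ a b = ∑ p, hF a b (lev δ 1 p) := by
  classical
  have h1 : xx δ a b = ∑ p, ((univ.filter fun x : Fin (n + 1) × Fin (n + 1) =>
      (x.1, a) ≠ (x.2, b) ∧ δ x.1 a = δ x.2 b).filter fun x => δ x.1 a = p).card := by
    rw [xx]
    exact card_eq_sum_card_fiberwise (fun x _ => mem_univ _)
  rw [h1]
  refine sum_congr rfl fun p _ => ?_
  rw [hF, count_lev_one, count_lev_one]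
  by_cases hab : a = b
  · subst hab
    rw [if_pos rfl, ← offDiag_card]
    congr 1
    ext ⟨s, t⟩
    simp only [mem_filter, mem_univ, true_and, mem_offDiag, ne_eq, Prod.mk.injEq, and_true]
    constructor
    · rintro ⟨⟨h1, h2⟩, h3⟩
      exact ⟨h3, h2 ▸ h3, h1⟩
    · rintro ⟨h1, h2, h3⟩
      exact ⟨⟨h3, h1.trans h2.symm⟩, h1⟩
  · rw [if_neg hab, Nat.sub_zero, ← card_product]
    congr 1
    ext ⟨s, t⟩
    simp only [mem_filter, mem_univ, true_and, mem_product, ne_eq, Prod.mk.injEq]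
    constructor
    · rintro ⟨⟨_, h2⟩, h3⟩
      exact ⟨h3, h2 ▸ h3⟩
    · rintro ⟨h1, h2⟩
      exact ⟨⟨fun h => hab h.2, h1.trans h2.symm⟩, h1⟩

lemma sum_desc (δ : Fin (n + 1) → A → Fin (n + 1)) :
    ∑ p, (lev δ 1 p).card.descFactorial 3 ≤ (E3 δ).card := by
  classical
  have h1 : ∑ p, (lev δ 1 p).card.descFactorial 3 =
      Fintype.card (Σ p : Fin (n + 1), (Fin 3 ↪ (Ein δ p : Finset (Fin (n + 1) × A)))) := by
    rw [Fintype.card_sigma]
    refine sum_congr rfl fun p _ => ?_
    rw [Fintype.card_embedding_eq, Fintype.card_fin, card_lev_one, Fintype.card_coe]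
  rw [h1, ← Fintype.card_coe (E3 δ)]
  refine Fintype.card_le_of_injective (fun x => ⟨fun i => (x.2 i).1, ?_⟩) ?_
  · simp only [E3, mem_filter, mem_univ, true_and]
    refine ⟨fun i j h => x.2.injective (Subtype.ext h), fun i => ?_⟩
    have h2 : ∀ i, δ (x.2 i).1.1 (x.2 i).1.2 = x.1 := by
      intro i
      exact (Finset.mem_filter.1 (x.2 i).2).2
    rw [h2, h2]
  · rintro ⟨p, g⟩ ⟨p', g'⟩ h
    simp only [Subtype.mk.injEq] at h
    have hp : p = p' := by
      have h2 : δ (g 0).1.1 (g 0).1.2 = p := by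
        exact (Finset.mem_filter.1 (g 0).2).2
      have h3 : δ (g' 0).1.1 (g' 0).1.2 = p' := by
        exact (Finset.mem_filter.1 (g' 0).2).2
      have h4 : (g 0).1 = (g' 0).1 := congrFun h 0
      rw [← h2, ← h3, h4]
    subst hp
    congr 1
    ext i : 2
    exact congrFun h i

end level

section cut

variable {A : Type u}

open Classical in
lemma cnt_add_le {a b : A} (hab : a ≠ b) (m : Multiset (List A)) :
    m.count [a] + m.count [b] ≤ m.card := by
  induction m using Multiset.induction_on with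
  | empty => simp
  | cons x m ih =>
    rw [Multiset.count_cons, Multiset.count_cons, Multiset.card_cons]
    split_ifs with h1 h2 h2
    · exfalso
      rw [← h1] at h2
      exact hab (by simpa using h2.symm)
    all_goals omega

lemma hF_le (a b : A) (m : Multiset (List A)) : hF a b m ≤ m.card * (m.card - 1) := by
  classical
  unfold hF
  by_cases hab : a = b
  · subst hab
    rw [if_pos rfl]
    have h := Multiset.count_le_card [a] m
    rw [← Nat.mul_sub_one]
    exact Nat.mul_le_mul h (by omega)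
  · rw [if_neg hab, Nat.sub_zero]
    have h := cnt_add_le hab m
    rcases Nat.eq_zero_or_pos (m.count [a]) with h0 | h0
    · rw [h0]; simp
    · rw [Nat.mul_comm]
      rcases Nat.eq_zero_or_pos (m.count [b]) with h1 | h1
      · rw [h1]; simp
      · exact Nat.mul_le_mul (by omega) (by omega)

open Classical in
/-- truncation -/
noncomputable def hK (a b : A) (K : ℕ) (m : Multiset (List A)) : ℝ :=
  if m.card ≤ K then (hF a b m : ℝ) else 0

lemma hK_nonneg (a b : A) (K : ℕ) (m : Multiset (List A)) : 0 ≤ hK a b K m := by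
  unfold hK
  split_ifs
  · positivity
  · exact le_rfl

lemma hK_le_hF (a b : A) (K : ℕ) (m : Multiset (List A)) : hK a b K m ≤ hF a b m := by
  unfold hK
  split_ifs
  · exact le_rfl
  · positivity

lemma hK_le (a b : A) (K : ℕ) (m : Multiset (List A)) : hK a b K m ≤ (K : ℝ) ^ 2 := by
  unfold hK
  split_ifs with h
  · have h1 : hF a b m ≤ K * K := (hF_le a b m).trans (Nat.mul_le_mul h (by omega))
    rw [sq]
    exact_mod_cast h1
  · positivity

lemma hF_le_hK (a b : A) {K : ℕ} (hK2 : 2 ≤ K) (m : Multiset (List A)) :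
    (hF a b m : ℝ) ≤ hK a b K m + (m.card.descFactorial 3 : ℝ) / ((K : ℝ) - 1) := by
  have hK1 : (0 : ℝ) < (K : ℝ) - 1 := by
    have : (2 : ℝ) ≤ K := by exact_mod_cast hK2
    linarith
  unfold hK
  split_ifs with h
  · have : 0 ≤ (m.card.descFactorial 3 : ℝ) / ((K : ℝ) - 1) := by positivity
    linarith
  · rw [zero_add, le_div_iff₀ hK1]
    have h1 := hF_le a b m
    have h2 : m.card.descFactorial 3 = m.card * (m.card - 1) * (m.card - 2) := by
      simp only [Nat.descFactorial_succ, Nat.descFactorial_zero, Nat.sub_zero]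
      ring
    have h3 : hF a b m * (K - 1) ≤ m.card.descFactorial 3 := by
      rw [h2]
      exact Nat.mul_le_mul h1 (by omega)
    have h4 : ((K - 1 : ℕ) : ℝ) = (K : ℝ) - 1 := by
      rw [Nat.cast_sub (by omega)]; simp
    rw [← h4]
    exact_mod_cast h3

end cut

section empirical

variable {A : Type u} [Fintype A] {n : ℕ}

/-- empirical average of a function of the level `D` multiset -/
noncomputable def emp (δ : Fin (n + 1) → A → Fin (n + 1)) (D : ℕ)
    (F : Multiset (List A) → ℝ) : ℝ := (∑ p, F (lev δ D p)) / ((n : ℝ) + 1)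

lemma fr_eq_zero (δ : Fin (n + 1) → A → Fin (n + 1)) (D : ℕ) (τ : Multiset (List A))
    (h : ∀ p, lev δ D p ≠ τ) : fr δ D τ = 0 := by
  classical
  unfold fr
  have : (univ.filter fun p => lev δ D p = τ) = ∅ := by
    rw [filter_eq_empty_iff]
    intro p _ hp
    exact h p hp
  rw [this]
  simp

lemma emp_eq (δ : Fin (n + 1) → A → Fin (n + 1)) (D : ℕ) (F : Multiset (List A) → ℝ) :
    emp δ D F = ∑' τ, fr δ D τ * F τ := by
  classical
  rw [tsum_eq_sum (s := (univ : Finset (Fin (n + 1))).image (lev δ D))]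
  · rw [emp, sum_comp F (lev δ D), sum_div]
    refine sum_congr rfl fun τ _ => ?_
    rw [fr, nsmul_eq_mul]
    ring_nf
  · intro τ hτ
    rw [fr_eq_zero δ D τ (fun p hp => hτ (mem_image.2 ⟨p, mem_univ _, hp⟩)), zero_mul]

lemma fr_summable (δ : Fin (n + 1) → A → Fin (n + 1)) (D : ℕ) (F : Multiset (List A) → ℝ) :
    Summable fun τ => fr δ D τ * F τ := by
  classical
  refine summable_of_ne_finset_zero (s := (univ : Finset (Fin (n + 1))).image (lev δ D)) ?_
  intro τ hτ
  rw [fr_eq_zero δ D τ (fun p hp => hτ (mem_image.2 ⟨p, mem_univ _, hp⟩)), zero_mul]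

lemma mu_summable (A : Type u) [Fintype A] [Nonempty A] (D : ℕ) :
    Summable fun τ => (mu A D τ).toReal :=
  ENNReal.summable_toReal (by rw [(mu A D).tsum_coe]; exact ENNReal.one_ne_top)

lemma emp_sub_le [Nonempty A] (δ : Fin (n + 1) → A → Fin (n + 1)) (D : ℕ)
    (F : Multiset (List A) → ℝ) {C : ℝ} (hF0 : ∀ τ, |F τ| ≤ C) :
    |emp δ D F - ∑' τ, (mu A D τ).toReal * F τ| ≤
      C * ∑' τ, |fr δ D τ - (mu A D τ).toReal| := by
  have hfr : Summable fun τ => fr δ D τ := by
    simpa using fr_summable δ D (fun _ => 1)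
  have hmu := mu_summable A D
  have hd : Summable fun τ => |fr δ D τ - (mu A D τ).toReal| := (hfr.sub hmu).abs
  have hmuF : Summable fun τ => (mu A D τ).toReal * F τ := by
    refine Summable.of_norm_bounded (hmu.mul_right C) fun τ => ?_
    rw [Real.norm_eq_abs, abs_mul, abs_of_nonneg ENNReal.toReal_nonneg]
    exact mul_le_mul_of_nonneg_left (hF0 τ) ENNReal.toReal_nonneg
  rw [emp_eq, ← (fr_summable δ D F).tsum_sub hmuF, ← tsum_mul_left]
  have hb : ∀ τ, |fr δ D τ * F τ - (mu A D τ).toReal * F τ| ≤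
      C * |fr δ D τ - (mu A D τ).toReal| := by
    intro τ
    rw [← sub_mul, abs_mul, mul_comm]
    exact mul_le_mul_of_nonneg_right (hF0 τ) (abs_nonneg _)
  have hs : Summable fun τ => |fr δ D τ * F τ - (mu A D τ).toReal * F τ| :=
    ((fr_summable δ D F).sub hmuF).abs
  calc |∑' τ, (fr δ D τ * F τ - (mu A D τ).toReal * F τ)|
      ≤ ∑' τ, |fr δ D τ * F τ - (mu A D τ).toReal * F τ| := by
        have := norm_tsum_le_tsum_norm (f := fun τ => fr δ D τ * F τ - (mu A D τ).toReal * F τ)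
          (by simpa only [Real.norm_eq_abs] using hs)
        simpa only [Real.norm_eq_abs] using this
    _ ≤ ∑' τ, C * |fr δ D τ - (mu A D τ).toReal| := hs.tsum_le_tsum hb (hd.mul_left C)

end empirical

section limit

variable (A : Type u) [Fintype A] [Nonempty A]

lemma ex_hF (hk : 2 ≤ Fintype.card A) (a b : A) :
    ex (mu A 1) (fun m => (hF a b m : ℝ≥0∞)) = ENNReal.ofReal (nu (Fintype.card A)) := by
  classical
  have h := ex_mu_count_mul A hk 1 [a] [b] rfl rfl
  have h2 : ((range 1).filter fun i => [a].take i = [b].take i).card = 1 := by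
    rw [range_one, filter_singleton, if_pos (by simp), card_singleton]
  rw [h2, Nat.cast_one, mul_one] at h
  by_cases hab : a = b
  · subst hab
    rw [if_pos rfl] at h
    have h3 := ex_mu_count A hk 1 [a] rfl
    have h4 : ex (mu A 1) (fun m => (m.count [a] : ℝ≥0∞) * m.count [a]) =
        ex (mu A 1) (fun m => (hF a a m : ℝ≥0∞)) + ex (mu A 1) (fun m => (m.count [a] : ℝ≥0∞)) := by
      unfold ex
      rw [← ENNReal.tsum_add]
      refine tsum_congr fun m => ?_
      rw [← mul_add]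
      congr 1
      have : m.count [a] * m.count [a] = hF a a m + m.count [a] := by
        unfold hF
        rw [if_pos rfl, Nat.sub_add_cancel]
        exact Nat.le_mul_self _
      have h5 : ((m.count [a] * m.count [a] : ℕ) : ℝ≥0∞) = ((hF a a m + m.count [a] : ℕ) : ℝ≥0∞) :=
        congrArg _ this
      simpa only [Nat.cast_mul, Nat.cast_add] using h5
    rw [h4, h3, add_comm] at h
    exact (ENNReal.add_right_inj ENNReal.one_ne_top).1 h
  · rw [if_neg (by simpa using hab), zero_add] at h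
    rw [← h]
    unfold ex
    refine tsum_congr fun m => ?_
    have : hF a b m = m.count [a] * m.count [b] := by
      unfold hF
      rw [if_neg hab, Nat.sub_zero]
    have h5 : ((hF a b m : ℕ) : ℝ≥0∞) = ((m.count [a] * m.count [b] : ℕ) : ℝ≥0∞) :=
      congrArg _ this
    rw [Nat.cast_mul] at h5
    show mu A 1 m * (hF a b m : ℝ≥0∞) = _
    rw [h5]

lemma hF_summable (hk : 2 ≤ Fintype.card A) (a b : A) :
    Summable fun τ => (mu A 1 τ).toReal * (hF a b τ : ℝ) := by
  have h := ex_hF A hk a b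
  unfold ex at h
  have h2 := ENNReal.summable_toReal (f := fun τ => mu A 1 τ * (hF a b τ : ℝ≥0∞))
    (by rw [h]; exact ENNReal.ofReal_ne_top)
  simpa using h2

lemma hF_tsum (hk : 2 ≤ Fintype.card A) (a b : A) :
    ∑' τ, (mu A 1 τ).toReal * (hF a b τ : ℝ) = nu (Fintype.card A) := by
  have h := ex_hF A hk a b
  unfold ex at h
  have hne : ∀ τ, mu A 1 τ * (hF a b τ : ℝ≥0∞) ≠ ∞ := by
    intro τ
    exact ENNReal.mul_ne_top ((mu A 1).apply_ne_top τ) (ENNReal.natCast_ne_top _)
  have h2 := ENNReal.tsum_toReal_eq hne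
  rw [h, ENNReal.toReal_ofReal (nu_spec hk).1.le] at h2
  rw [h2]
  refine tsum_congr fun τ => ?_
  rw [ENNReal.toReal_mul, ENNReal.toReal_natCast]

lemma cK_tendsto (hk : 2 ≤ Fintype.card A) (a b : A) :
    Tendsto (fun K : ℕ => ∑' τ, (mu A 1 τ).toReal * hK a b K τ) atTop
      (𝓝 (nu (Fintype.card A))) := by
  rw [← hF_tsum A hk a b]
  refine tendsto_tsum_of_dominated_convergence (hF_summable A hk a b) ?_ ?_
  · intro τ
    refine tendsto_const_nhds.congr' ?_
    filter_upwards [eventually_ge_atTop τ.card] with K hK'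
    rw [hK, if_pos hK']
  · refine Eventually.of_forall fun K τ => ?_
    rw [Real.norm_eq_abs, abs_mul, abs_of_nonneg ENNReal.toReal_nonneg,
      abs_of_nonneg (hK_nonneg a b K τ)]
    exact mul_le_mul_of_nonneg_left (hK_le_hF a b K τ) ENNReal.toReal_nonneg

variable {A}

omit [Nonempty A] in
lemma emp_le_xx {n : ℕ} (a b : A) (K : ℕ) (δ : Fin (n + 1) → A → Fin (n + 1)) :
    emp δ 1 (hK a b K) ≤ (xx δ a b : ℝ) / (n + 1) := by
  rw [emp, xx_eq, Nat.cast_sum]
  exact div_le_div_of_nonneg_right (sum_le_sum fun p _ => hK_le_hF a b K _) (by positivity)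

omit [Nonempty A] in
lemma xx_le_emp {n : ℕ} (a b : A) {K : ℕ} (hK2 : 2 ≤ K) (δ : Fin (n + 1) → A → Fin (n + 1)) :
    (xx δ a b : ℝ) / (n + 1) ≤
      emp δ 1 (hK a b K) + ((K : ℝ) - 1)⁻¹ * (((E3 δ).card : ℝ) / (n + 1)) := by
  have hK1 : (0 : ℝ) < (K : ℝ) - 1 := by
    have : (2 : ℝ) ≤ K := by exact_mod_cast hK2
    linarith
  have h1 : (xx δ a b : ℝ) ≤ (∑ p, hK a b K (lev δ 1 p)) +
      ((K : ℝ) - 1)⁻¹ * ((E3 δ).card : ℝ) := by
    rw [xx_eq, Nat.cast_sum]
    calc ∑ p, (hF a b (lev δ 1 p) : ℝ)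
        ≤ ∑ p, (hK a b K (lev δ 1 p) +
            ((lev δ 1 p).card.descFactorial 3 : ℝ) / ((K : ℝ) - 1)) :=
          sum_le_sum fun p _ => hF_le_hK a b hK2 _
      _ = (∑ p, hK a b K (lev δ 1 p)) +
            ((K : ℝ) - 1)⁻¹ * ((∑ p, (lev δ 1 p).card.descFactorial 3 : ℕ) : ℝ) := by
          rw [sum_add_distrib, Nat.cast_sum, mul_sum]
          congr 1
          refine sum_congr rfl fun p _ => ?_
          rw [div_eq_inv_mul]
      _ ≤ _ := by
          have := sum_desc δ
          have h2 : ((∑ p, (lev δ 1 p).card.descFactorial 3 : ℕ) : ℝ) ≤ ((E3 δ).card : ℝ) := by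
            exact_mod_cast this
          have h3 := mul_le_mul_of_nonneg_left h2 (inv_nonneg.2 hK1.le)
          linarith
  rw [emp, mul_div_assoc', ← add_div]
  exact div_le_div_of_nonneg_right h1 (by positivity)

end limit

end XX

variable (A : Type u) [Fintype A] [Nonempty A]

/-- the expected number of ordered pairs of different edges with letters `a`, `b` and the same
target, divided by the number of states, tends to `nu` -/
theorem xx_limit_of_local (hk : 2 ≤ Fintype.card A)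
    (h2 : Tendsto (fun n : ℕ => ES A n fun δ => ∑' τ, |fr δ 1 τ - (mu A 1 τ).toReal|) atTop (𝓝 0))
    (a b : A) :
    Tendsto (fun n : ℕ => ES A n fun δ => (xx δ a b : ℝ) / (n + 1)) atTop
      (𝓝 (nu (Fintype.card A))) := by
  rw [Metric.tendsto_atTop]
  intro ε hε
  -- choice of the truncation
  have h1 := (Metric.tendsto_atTop.1 (XX.cK_tendsto A hk a b)) (ε / 3) (by linarith)
  obtain ⟨K₁, hK₁⟩ := h1
  obtain ⟨K₂, hK₂⟩ := exists_nat_gt (3 * (Fintype.card A : ℝ) ^ 3 / ε)
  let K : ℕ := max (max K₁ (K₂ + 1)) 2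
  have hKK₁ : K₁ ≤ K := (le_max_left _ _).trans (le_max_left _ _)
  have hKK₂ : K₂ + 1 ≤ K := (le_max_right _ _).trans (le_max_left _ _)
  have hK2 : 2 ≤ K := le_max_right _ _
  have hc := hK₁ K hKK₁
  rw [Real.dist_eq] at hc
  have hKr : (K₂ : ℝ) + 1 ≤ K := by exact_mod_cast hKK₂
  have hK2r : (2 : ℝ) ≤ K := by exact_mod_cast hK2
  have hKpos : (0 : ℝ) < (K : ℝ) - 1 := by linarith
  have hsmall : ((K : ℝ) - 1)⁻¹ * (Fintype.card A : ℝ) ^ 3 < ε / 3 := by
    rw [inv_mul_lt_iff₀ hKpos]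
    rw [div_lt_iff₀ hε] at hK₂
    have hK₃ := mul_le_mul_of_nonneg_right
      (show (K₂ : ℝ) ≤ (K : ℝ) - 1 by linarith only [hKr]) hε.le
    linarith only [hK₃, hK₂]
  -- the local law
  have h3 : Tendsto (fun n : ℕ => (K : ℝ) ^ 2 *
      ES A n fun δ => ∑' τ, |fr δ 1 τ - (mu A 1 τ).toReal|) atTop (𝓝 0) := by
    simpa using h2.const_mul ((K : ℝ) ^ 2)
  obtain ⟨N, hN⟩ := (Metric.tendsto_atTop.1 h3) (ε / 3) (by linarith)
  refine ⟨N, fun n hn => ?_⟩
  have h4 := hN n hn
  rw [Real.dist_eq, sub_zero] at h4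
  have h5 := (le_abs_self _).trans_lt h4
  set c : ℝ := ∑' τ, (mu A 1 τ).toReal * XX.hK a b K τ with hcdef
  have hb : ∀ τ : Multiset (List A), |XX.hK a b K τ| ≤ (K : ℝ) ^ 2 := fun τ => by
    rw [abs_of_nonneg (XX.hK_nonneg a b K τ)]
    exact XX.hK_le a b K τ
  -- upper bound
  have hup : ES A n (fun δ => (xx δ a b : ℝ) / (n + 1)) ≤
      c + (K : ℝ) ^ 2 * ES A n (fun δ => ∑' τ, |fr δ 1 τ - (mu A 1 τ).toReal|) +
        ((K : ℝ) - 1)⁻¹ * (Fintype.card A : ℝ) ^ 3 := by
    calc ES A n (fun δ => (xx δ a b : ℝ) / (n + 1))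
        ≤ ES A n (fun δ => (c + (K : ℝ) ^ 2 * ∑' τ, |fr δ 1 τ - (mu A 1 τ).toReal|) +
            ((K : ℝ) - 1)⁻¹ * (((XX.E3 δ).card : ℝ) / (n + 1))) := by
          refine XX.ES_mono fun δ _ => ?_
          have e1 := XX.xx_le_emp a b hK2 δ
          have e2 := (le_abs_self _).trans (XX.emp_sub_le δ 1 (XX.hK a b K) hb)
          linarith only [e1, e2]
      _ = c + (K : ℝ) ^ 2 * ES A n (fun δ => ∑' τ, |fr δ 1 τ - (mu A 1 τ).toReal|) +
            ((K : ℝ) - 1)⁻¹ * ES A n (fun δ => ((XX.E3 δ).card : ℝ) / (n + 1)) := by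
          rw [XX.ES_add, XX.ES_add, XX.ES_const, XX.ES_mul_left, XX.ES_mul_left]
      _ ≤ _ := by
          have := mul_le_mul_of_nonneg_left (XX.ES_E3 A n) (inv_nonneg.2 hKpos.le)
          linarith only [this]
  -- lower bound
  have hlo : c - (K : ℝ) ^ 2 * ES A n (fun δ => ∑' τ, |fr δ 1 τ - (mu A 1 τ).toReal|) ≤
      ES A n (fun δ => (xx δ a b : ℝ) / (n + 1)) := by
    calc c - (K : ℝ) ^ 2 * ES A n (fun δ => ∑' τ, |fr δ 1 τ - (mu A 1 τ).toReal|)
        = ES A n (fun δ => c + (-(K : ℝ) ^ 2) * ∑' τ, |fr δ 1 τ - (mu A 1 τ).toReal|) := by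
          rw [XX.ES_add, XX.ES_const, XX.ES_mul_left]
          ring
      _ ≤ _ := by
          refine XX.ES_mono fun δ _ => ?_
          have e1 := XX.emp_le_xx a b K δ
          have e2 := (neg_abs_le _).trans' (neg_le_neg (XX.emp_sub_le δ 1 (XX.hK a b K) hb))
          linarith only [e1, e2]
  rw [Real.dist_eq, abs_lt]
  rw [abs_lt] at hc
  constructor <;> linarith only [hc.1, hc.2, h5, hup, hlo, hsmall]

end Pool.Agent.SC
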