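import Pool.Agent.W_MP_6663ab_lc.SLocal
import Pool.Agent.W_MP_6663ab_lc.SXXAux
import Pool.Agent.W_MP_6663ab_lc.SUpperAux
import Pool.Agent.W_MP_6663ab_lc.SColl
import Pool.Agent.W_MP_6663ab_lc.SCrossD
import Pool.Agent.W_MP_6663ab_lc.SClose2
import Pool.Agent.W_MP_6663ab_lc.SReachAux
import Pool.Agent.W_MP_6663ab_lc.SGlueAux
import Pool.Agent.W_MP_6663ab_lc.GWBall
import Pool.Agent.W_MP_6663ab_lc.SAcc
import Pool.Agent.W_MP_6663ab_lc.SRec

/-!
# The limit of the normalised average state complexity of the intersection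

All the pieces are put together.
-/

namespace Pool.Agent.SC

open Finset Filter
open scoped Topology ENNReal

universe u

theorem En_limit (A : Type u) [Fintype A] [Nonempty A] (hk : 2 ≤ Fintype.card A) :
    Tendsto (fun n : ℕ => En A n / (n : ℝ) ^ 2) atTop (𝓝 (cInf A).toReal) := by
  have hloc := fun D : ℕ => local_law A hk D
  have hxx := fun a b : A => xx_limit_of_local A hk (hloc 1) a b
  have hup := fun (ε : ℝ) (hε : 0 < ε) => g_upper_of A hk hxx (collision_le A) ε hε
  have hcr := fun (D K : ℕ) (u w : List A) (hu : u.length = D) (hw : w.length = D)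
    (ε : ℝ) (hε : 0 < ε) => Cross.g_cross_of_local_law A D K u w hu hw ε hε (hloc D)
  have hL2 := fun (ε : ℝ) (hε : 0 < ε) => Cl.L2_close_of A hk hloc hup hcr ε hε
  have hreach := fun (ε : ℝ) (hε : 0 < ε) =>
    reach_law_of A (cD_antitone A hk) (small_ball A hk) hloc hL2 ε hε
  refine Gl.En_limit_of A hk ENNReal.toReal_nonneg ?_ hreach
  refine ⟨1 / 360, by norm_num, 0, fun n _ => ?_⟩
  have := card_Sur_le_card_AccF (A := A) hk (0 : Fin (n + 1))
  linarith

theorem cInf_toReal_pos (A : Type u) [Fintype A] [Nonempty A] (hk : 2 ≤ Fintype.card A) :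
    0 < (cInf A).toReal := by
  exact ENNReal.toReal_pos (cInf_pos A hk).ne' (ne_top_of_lt (cInf_lt_one A hk))

theorem cInf_toReal_lt_one (A : Type u) [Fintype A] [Nonempty A] (hk : 2 ≤ Fintype.card A) :
    (cInf A).toReal < 1 := by
  have := (ENNReal.toReal_lt_toReal (ne_top_of_lt (cInf_lt_one A hk)) ENNReal.one_ne_top).2
    (cInf_lt_one A hk)
  simpa using this

/-- uniqueness of the positive root -/
theorem root_unique {k x y : ℝ} (hk : 0 < k) (hx : 0 < x) (hxy : x < y)
    (h1 : 1 - x = Real.exp (-(k * x))) (h2 : 1 - y = Real.exp (-(k * y))) : False := by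
  have hy : 0 < y := hx.trans hxy
  have ha : 0 < x / y := div_pos hx hy
  have hb : 0 < 1 - x / y := by
    rw [sub_pos, div_lt_one hy]; exact hxy
  have hne : -(k * y) ≠ 0 := by
    have : 0 < k * y := mul_pos hk hy
    linarith
  have h := strictConvexOn_exp.2 (Set.mem_univ (-(k * y))) (Set.mem_univ 0) hne ha hb (by ring)
  simp only [smul_eq_mul, mul_zero, add_zero, Real.exp_zero, mul_one] at h
  have e1 : x / y * -(k * y) = -(k * x) := by field_simp
  rw [e1, ← h1, ← h2] at h
  have e2 : x / y * (1 - y) + (1 - x / y) = 1 - x := by field_simp; ring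
  linarith

theorem nu_unique {k : ℕ} (hk : 2 ≤ k) {x : ℝ} (hx : 0 < x)
    (h : 1 - x = Real.exp (-(k * x))) : x = nu k := by
  obtain ⟨h1, -, h3⟩ := nu_spec hk
  have hk0 : (0 : ℝ) < k := by exact_mod_cast (show 0 < k by omega)
  rcases lt_trichotomy x (nu k) with hlt | heq | hgt
  · exact (root_unique hk0 hx hlt h h3).elim
  · exact heq
  · exact (root_unique hk0 h1 hgt h3 h).elim

theorem cD_ne_top (A : Type u) [Fintype A] [Nonempty A] (D : ℕ) : cD A D ≠ ⊤ := by
  have h := Rc.cD_add A D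
  have hle : cD A D ≤ 1 := by rw [← h]; exact le_self_add
  exact ne_top_of_le_ne_top ENNReal.one_ne_top hle

theorem tRec_div (A : Type u) [Fintype A] [Nonempty A] (hk : 2 ≤ Fintype.card A) (D : ℕ) :
    tRec (Fintype.card A) (nu (Fintype.card A)) D 1 1 / nu (Fintype.card A) ^ 2 =
      (cD A D).toReal := by
  obtain ⟨h1, -, -⟩ := nu_spec hk
  rw [← cD_toReal A hk, mul_div_cancel_left₀]
  positivity

theorem tRec_antitone (A : Type u) [Fintype A] [Nonempty A] (hk : 2 ≤ Fintype.card A) :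
    Antitone fun D => tRec (Fintype.card A) (nu (Fintype.card A)) D 1 1 /
      nu (Fintype.card A) ^ 2 := by
  intro D D' h
  simp only [tRec_div A hk]
  exact ENNReal.toReal_mono (cD_ne_top A D) (cD_antitone A hk h)

theorem tRec_tendsto (A : Type u) [Fintype A] [Nonempty A] (hk : 2 ≤ Fintype.card A) :
    Tendsto (fun D => tRec (Fintype.card A) (nu (Fintype.card A)) D 1 1 /
      nu (Fintype.card A) ^ 2) atTop (𝓝 (cInf A).toReal) := by
  simp only [tRec_div A hk]
  have h3 : Tendsto (cD A) atTop (𝓝 (cInf A)) := tendsto_atTop_iInf (cD_antitone A hk)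
  exact (ENNReal.tendsto_toReal
    (ne_top_of_le_ne_top (cD_ne_top A 0) (iInf_le _ 0))).comp h3

/-- **The asymptotic behaviour of the average state complexity of the intersection.** -/
theorem sharp_asymptotics (A : Type u) [Fintype A] (hA : 2 ≤ Fintype.card A) :
    ∃ ν c : ℝ,
      (0 < ν ∧ 1 - ν = Real.exp (-(Fintype.card A * ν)) ∧
        ∀ x : ℝ, 0 < x → 1 - x = Real.exp (-(Fintype.card A * x)) → x = ν) ∧
      Antitone (fun D : ℕ => tRec (Fintype.card A) ν D 1 1 / ν ^ 2) ∧
      Tendsto (fun D : ℕ => tRec (Fintype.card A) ν D 1 1 / ν ^ 2) atTop (𝓝 c) ∧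
      0 < c ∧ c < 1 ∧
      Tendsto (fun n : ℕ => En A n / (n : ℝ) ^ 2) atTop (𝓝 c) := by
  have hne : Nonempty A := Fintype.card_pos_iff.1 (by omega)
  obtain ⟨h1, -, h3⟩ := nu_spec hA
  exact ⟨nu (Fintype.card A), (cInf A).toReal, ⟨h1, h3, fun x hx h => nu_unique hA hx h⟩,
    tRec_antitone A hA, tRec_tendsto A hA, cInf_toReal_pos A hA, cInf_toReal_lt_one A hA,
    En_limit A hA⟩

end Pool.Agent.SC
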