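import Pool.Agent.W_MP_6663ab_lc.SDefs

/-!
# The `L²` switching relation in the surjection model
-/

namespace Pool.Agent.SC.Sw

open Finset
open scoped Topology

universe u v

section generic

variable {A : Type u} {Q : Type v} [Fintype A] [Fintype Q]

lemma mem_Sur {q₀ : Q} {δ : Q → A → Q} : δ ∈ Sur A q₀ ↔ IsSur q₀ δ := by
  classical
  simp [Sur]

/-- states reached from `x` by words of length `< D` -/
noncomputable def fw (δ : Q → A → Q) : ℕ → Q → Finset Q := by
  classical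
  exact fun D x => univ.filter fun t => ∃ w : List A, w.length < D ∧ run δ x w = t

omit [Fintype A] in
lemma mem_fw {δ : Q → A → Q} {D : ℕ} {x t : Q} :
    t ∈ fw δ D x ↔ ∃ w : List A, w.length < D ∧ run δ x w = t := by
  classical
  simp [fw]

/-- bound for the number of words of length `< D` -/
def Wc (k : ℕ) : ℕ → ℕ
  | 0 => 0
  | D + 1 => 1 + k * Wc k D

lemma card_fw (δ : Q → A → Q) (D : ℕ) (x : Q) : (fw δ D x).card ≤ Wc (Fintype.card A) D := by
  classical
  induction D generalizing x with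
  | zero => simp [fw, Wc]
  | succ D ih =>
    have h : fw δ (D + 1) x ⊆ insert x ((univ : Finset A).biUnion fun b => fw δ D (δ x b)) := by
      intro t ht
      obtain ⟨w, hw, hr⟩ := mem_fw.1 ht
      cases w with
      | nil => rw [mem_insert]; left; exact hr.symm
      | cons b w =>
        rw [mem_insert]; right
        rw [mem_biUnion]
        refine ⟨b, mem_univ _, mem_fw.2 ⟨w, ?_, ?_⟩⟩
        · simpa using hw
        · simpa using hr
    calc (fw δ (D + 1) x).card ≤ _ := card_le_card h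
      _ ≤ _ + 1 := card_insert_le _ _
      _ ≤ ∑ b : A, (fw δ D (δ x b)).card + 1 := by
          gcongr
          exact card_biUnion_le
      _ ≤ ∑ _b : A, Wc (Fintype.card A) D + 1 := by
          gcongr with b _
          exact ih _
      _ = Wc (Fintype.card A) (D + 1) := by
          simp [Wc]; ring

/-- states on cycles of length at most `D` -/
noncomputable def cyc (δ : Q → A → Q) (D : ℕ) : Finset Q := by
  classical
  exact univ.filter fun t => ∃ w : List A, w ≠ [] ∧ w.length ≤ D ∧ run δ t w = t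

omit [Fintype A] in
lemma mem_cyc {δ : Q → A → Q} {D : ℕ} {t : Q} :
    t ∈ cyc δ D ↔ ∃ w : List A, w ≠ [] ∧ w.length ≤ D ∧ run δ t w = t := by
  classical
  simp [cyc]

/-- a walk in the modified automaton starting at the new target can be replaced by a walk in
the original automaton -/
lemma exists_run_of_upd (δ : Q → A → Q) (s : Q) (a : A) (r : Q) (w : List A) :
    ∃ w' : List A, w'.length ≤ w.length ∧ run δ r w' = run (upd δ s a r) r w := by
  classical
  induction h : w.length using Nat.strong_induction_on generalizing w with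
  | _ m ih =>
    by_cases hu : ∃ x y, w = x ++ a :: y ∧ run (upd δ s a r) r x = s
    · obtain ⟨x, y, hw, hx⟩ := hu
      have hlen : y.length < m := by
        rw [← h, hw]; simp; omega
      obtain ⟨w', hw', hr⟩ := ih y.length hlen y rfl
      refine ⟨w', by omega, ?_⟩
      rw [hr, hw, run_append, run_cons, hx, upd_same]
    · refine ⟨w, by omega, ?_⟩
      symm
      apply run_congr
      intro x b y hw
      apply upd_ne
      intro h1 h2
      apply hu
      refine ⟨x, y, by rw [hw, h2], ?_⟩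
      -- the run on x agrees
      have : ∀ x' y', x = x' ++ y' → run (upd δ s a r) r x' = run δ r x' := by
        intro x'
        induction x' using List.reverseRecOn with
        | nil => intro _ _; rfl
        | append_singleton x' c ihx =>
          intro y' hx
          have h3 := ihx (c :: y') (by rw [hx]; simp)
          rw [run_concat, run_concat, h3]
          apply upd_ne
          intro h4 h5
          apply hu
          refine ⟨x', y' ++ b :: y, ?_, by rw [h3, h4]⟩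
          rw [hw, hx, h5]
          simp
      rw [this x [] (by simp), h1]

lemma mem_fw_of_upd {δ : Q → A → Q} {s : Q} {a : A} {r t : Q} {D : ℕ}
    (h : t ∈ fw (upd δ s a r) D r) : t ∈ fw δ D r := by
  obtain ⟨w, hw, hr⟩ := mem_fw.1 h
  obtain ⟨w', hw', hr'⟩ := exists_run_of_upd δ s a r w
  exact mem_fw.2 ⟨w', by omega, by rw [hr', hr]⟩

/-- locality of `lev` -/
lemma lev_upd_aux (δ : Q → A → Q) (s : Q) (a : A) (r : Q) (D : ℕ) (t : Q)
    (h1 : t ∉ fw δ D (δ s a)) (h2 : t ∉ fw (upd δ s a r) D r) :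
    lev (upd δ s a r) D t = lev δ D t := by
  classical
  induction D generalizing t with
  | zero => rfl
  | succ D ih =>
    have ht1 : t ≠ δ s a := by
      rintro rfl
      exact h1 (mem_fw.2 ⟨[], by simp, rfl⟩)
    have ht2 : t ≠ r := by
      rintro rfl
      exact h2 (mem_fw.2 ⟨[], by simp, rfl⟩)
    rw [lev, lev]
    apply sum_congr rfl
    intro e _
    by_cases he : e.1 = s ∧ e.2 = a
    · have h3 : ¬ (upd δ s a r e.1 e.2 = t) := by
        rw [he.1, he.2, upd_same]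
        exact fun h => ht2 h.symm
      have h4 : ¬ (δ e.1 e.2 = t) := by
        rw [he.1, he.2]
        exact fun h => ht1 h.symm
      rw [if_neg h3, if_neg h4]
    · have h5 : upd δ s a r e.1 e.2 = δ e.1 e.2 := upd_ne fun h6 h7 => he ⟨h6, h7⟩
      rw [h5]
      split_ifs with h6
      · congr 1
        apply ih
        · intro h7
          obtain ⟨w, hw, hr⟩ := mem_fw.1 h7
          exact h1 (mem_fw.2 ⟨w ++ [e.2], by simp; omega, by rw [run_concat, hr, h6]⟩)
        · intro h7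
          obtain ⟨w, hw, hr⟩ := mem_fw.1 h7
          exact h2 (mem_fw.2 ⟨w ++ [e.2], by simp; omega, by rw [run_concat, hr, h5, h6]⟩)
      · rfl

lemma lev_upd {δ : Q → A → Q} {s : Q} {a : A} {r : Q} {D : ℕ} {t : Q}
    (h1 : t ∉ fw δ D (δ s a)) (h2 : t ∉ fw δ D r) :
    lev (upd δ s a r) D t = lev δ D t :=
  lev_upd_aux δ s a r D t h1 fun h => h2 (mem_fw_of_upd h)

/-- exchange the targets of the edges `(s, c)` and `(t, c)` -/
noncomputable def swp (δ : Q → A → Q) (s t : Q) (c : A) : Q → A → Q := by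
  classical
  exact fun q b => if b = c then δ (Equiv.swap s t q) c else δ q b

omit [Fintype A] [Fintype Q] in
lemma swp_ne {δ : Q → A → Q} {s t : Q} {c : A} {q : Q} {b : A} (h : b = c → q ≠ s ∧ q ≠ t) :
    swp δ s t c q b = δ q b := by
  classical
  by_cases hb : b = c
  · subst hb
    simp [swp, Equiv.swap_apply_of_ne_of_ne (h rfl).1 (h rfl).2]
  · simp [swp, hb]

omit [Fintype A] [Fintype Q] in
lemma swp_right (δ : Q → A → Q) (s t : Q) (c : A) : swp δ s t c t c = δ s c := by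
  classical
  simp [swp]

omit [Fintype A] [Fintype Q] in
lemma swp_left (δ : Q → A → Q) (s t : Q) (c : A) : swp δ s t c s c = δ t c := by
  classical
  simp [swp]

omit [Fintype A] [Fintype Q] in
lemma swp_swp (δ : Q → A → Q) (s t : Q) (c : A) : swp (swp δ s t c) s t c = δ := by
  classical
  funext q b
  by_cases hb : b = c
  · subst hb
    simp [swp]
  · simp [swp, hb]

lemma swp_mem_Sur {q₀ : Q} {δ : Q → A → Q} (h : δ ∈ Sur A q₀) (s t : Q) (c : A) :
    swp δ s t c ∈ Sur A q₀ := by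
  classical
  rw [mem_Sur] at h ⊢
  intro p hp
  obtain ⟨q, b, hq⟩ := h p hp
  by_cases hb : b = c
  · subst hb
    exact ⟨Equiv.swap s t q, b, by simp [swp, hq]⟩
  · exact ⟨q, b, by simp [swp, hb, hq]⟩

/-- words of length `m` -/
noncomputable def wl (A : Type u) [Fintype A] (m : ℕ) : Finset (List A) := by
  classical
  exact (univ : Finset (Fin m → A)).map ⟨List.ofFn, List.ofFn_injective⟩

omit [Fintype Q] in
lemma mem_wl {m : ℕ} {w : List A} : w ∈ wl A m ↔ w.length = m := by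
  classical
  constructor
  · intro h
    simp only [wl, mem_map, mem_univ, true_and, Function.Embedding.coeFn_mk] at h
    obtain ⟨f, rfl⟩ := h
    simp
  · rintro rfl
    simp only [wl, mem_map, mem_univ, true_and, Function.Embedding.coeFn_mk]
    exact ⟨w.get, List.ofFn_get w⟩

omit [Fintype Q] in
lemma card_wl (m : ℕ) : (wl A m).card = Fintype.card A ^ m := by
  classical
  simp [wl]

/-- simple cycles with a prescribed label word -/
noncomputable def cycE (q₀ : Q) (w : List A) (c : A) : Finset ((Q → A → Q) × Q) := by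
  classical
  exact ((Sur A q₀) ×ˢ (univ : Finset Q)).filter fun x =>
    SA x.1 x.2 w ∧ run x.1 x.2 (w ++ [c]) = x.2

lemma mem_cycE {q₀ : Q} {w : List A} {c : A} {x : (Q → A → Q) × Q} :
    x ∈ cycE q₀ w c ↔ x.1 ∈ Sur A q₀ ∧ SA x.1 x.2 w ∧ run x.1 x.2 (w ++ [c]) = x.2 := by
  classical
  simp [cycE]

/-- states visited on the way -/
noncomputable def vis (δ : Q → A → Q) (q : Q) (w : List A) : Finset Q := by
  classical
  exact (range (w.length + 1)).image fun i => run δ q (w.take i)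

omit [Fintype A] [Fintype Q] in
lemma card_vis (δ : Q → A → Q) (q : Q) (w : List A) : (vis δ q w).card ≤ w.length + 1 := by
  classical
  exact card_image_le.trans (by simp)

omit [Fintype A] [Fintype Q] in
lemma run_mem_vis (δ : Q → A → Q) (q : Q) (x y : List A) : run δ q x ∈ vis δ q (x ++ y) := by
  classical
  rw [vis, mem_image]
  exact ⟨x.length, by simp, by simp⟩

lemma card_cycE (q₀ : Q) (w : List A) (c : A) :
    (cycE q₀ w c).card * (Fintype.card Q - (w.length + 1)) ≤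
      (Sur A q₀).card * Fintype.card Q := by
  classical
  have h1 : (cycE q₀ w c).card * (Fintype.card Q - (w.length + 1)) ≤
      ((cycE q₀ w c).sigma fun x => univ \ vis x.1 x.2 w).card := by
    rw [card_sigma, ← smul_eq_mul, ← sum_const]
    apply sum_le_sum
    intro x _
    rw [card_sdiff_of_subset (subset_univ _), card_univ]
    have := card_vis x.1 x.2 w
    omega
  refine h1.trans ?_
  rw [← card_univ (α := Q), ← card_product]
  have key : ∀ x : (Q → A → Q) × Q, ∀ t3 : Q, x ∈ cycE q₀ w c → t3 ∉ vis x.1 x.2 w →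
      run (swp x.1 (run x.1 x.2 w) t3 c) x.2 w = run x.1 x.2 w := by
    intro x t3 hx ht
    have hx' := mem_cycE.1 hx
    apply run_congr
    intro y b z hw
    apply swp_ne
    intro _
    constructor
    · have h2 := hx'.2.1 y (b :: z) [] (by simp [hw]) (by simp)
      rw [hw]
      exact h2
    · intro h3
      apply ht
      rw [← h3, hw]
      exact run_mem_vis _ _ _ _
  apply card_le_card_of_injOn fun y : (Σ _ : (Q → A → Q) × Q, Q) =>
    (swp y.1.1 (run y.1.1 y.1.2 w) y.2 c, y.2)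
  · rintro ⟨x, t3⟩ h
    rw [mem_coe, mem_sigma] at h
    simp only [coe_product, Set.mem_prod, mem_coe, mem_univ, and_true]
    exact swp_mem_Sur (mem_cycE.1 h.1).1 _ _ _
  · rintro ⟨x, t3⟩ h ⟨x', t3'⟩ h' heq
    rw [mem_coe, mem_sigma, Finset.mem_sdiff] at h h'
    simp only [Prod.mk.injEq] at heq
    obtain ⟨h2, h3⟩ := heq
    subst h3
    have k1 := key x t3 h.1 h.2.2
    have k2 := key x' t3 h'.1 h'.2.2
    have e1 : x.2 = swp x.1 (run x.1 x.2 w) t3 c t3 c := by
      have h5 := (mem_cycE.1 h.1).2.2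
      rw [run_concat] at h5
      rw [swp_right, h5]
    have e2 : x'.2 = swp x'.1 (run x'.1 x'.2 w) t3 c t3 c := by
      have h5 := (mem_cycE.1 h'.1).2.2
      rw [run_concat] at h5
      rw [swp_right, h5]
    have e3 : x.2 = x'.2 := by rw [e1, e2, h2]
    have e4 : run x.1 x.2 w = run x'.1 x'.2 w := by
      rw [← k1, ← k2, h2, e3]
    have e5 : x.1 = x'.1 := by
      rw [← swp_swp x.1 (run x.1 x.2 w) t3 c, h2, e4, swp_swp]
    have e6 : x = x' := Prod.ext e5 e3
    subst e6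
    rfl

lemma exists_cycE {q₀ : Q} {δ : Q → A → Q} (hδ : δ ∈ Sur A q₀) {D : ℕ} {t : Q}
    (h : t ∈ cyc δ D) : ∃ w : List A, w.length < D ∧ ∃ c, (δ, t) ∈ cycE q₀ w c := by
  classical
  have hex : ∃ m, ∃ w : List A, w ≠ [] ∧ w.length = m ∧ run δ t w = t := by
    obtain ⟨w, h1, h2, h3⟩ := mem_cyc.1 h
    exact ⟨w.length, w, h1, rfl, h3⟩
  obtain ⟨w, h1, h2, h3⟩ := Nat.find_spec hex
  have hmin : ∀ w' : List A, w' ≠ [] → run δ t w' = t → w.length ≤ w'.length := by
    intro w' h4 h5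
    rw [h2]
    exact Nat.find_min' hex ⟨w', h4, rfl, h5⟩
  obtain ⟨w', c, rfl⟩ : ∃ w' c, w = w' ++ [c] :=
    ⟨_, _, (List.dropLast_append_getLast h1).symm⟩
  obtain ⟨w0, h4, h5, h6⟩ := mem_cyc.1 h
  have h7 := hmin w0 h4 h6
  refine ⟨w', ?_, c, mem_cycE.2 ⟨hδ, ?_, h3⟩⟩
  · simp at h7; omega
  · intro x y z hw hy heq
    have h10 : run δ t (x ++ z ++ [c]) = t := by
      rw [List.append_assoc, run_append]
      change run δ t x = run δ t (x ++ y) at heq
      rw [heq, ← run_append, ← List.append_assoc, ← hw]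
      exact h3
    have h8 := hmin (x ++ z ++ [c]) (by simp) h10
    rw [hw] at h8
    have h9 : 0 < y.length := List.length_pos_iff.2 hy
    simp only [List.length_append, List.length_cons, List.length_nil] at h8
    omega

lemma sum_cyc (A : Type u) [Fintype A] (D : ℕ) : ∃ C : ℕ, ∀ (Q : Type v) [Fintype Q] (q₀ : Q),
    ∑ δ ∈ Sur A q₀, (cyc δ D).card ≤ C * (Sur A q₀).card := by
  classical
  refine ⟨2 * D + 2 * ∑ m ∈ range D, Fintype.card A ^ (m + 1), fun Q _ q₀ => ?_⟩
  by_cases hN : Fintype.card Q < 2 * D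
  · calc ∑ δ ∈ Sur A q₀, (cyc δ D).card ≤ ∑ δ ∈ Sur A q₀, 2 * D := by
          apply sum_le_sum
          intro δ _
          exact (card_le_univ _).trans hN.le
      _ = 2 * D * (Sur A q₀).card := by rw [sum_const, smul_eq_mul, mul_comm]
      _ ≤ _ := by gcongr; omega
  · push Not at hN
    have hE : ∀ w : List A, w.length < D → ∀ c, (cycE q₀ w c).card ≤ 2 * (Sur A q₀).card := by
      intro w hw c
      have h1 := card_cycE q₀ w c
      rcases Nat.eq_zero_or_pos (Fintype.card Q) with h0 | h0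
      · omega
      · have h2 : Fintype.card Q ≤ 2 * (Fintype.card Q - (w.length + 1)) := by omega
        have h3 : (cycE q₀ w c).card * Fintype.card Q ≤
            2 * (Sur A q₀).card * Fintype.card Q := by
          calc (cycE q₀ w c).card * Fintype.card Q
              ≤ (cycE q₀ w c).card * (2 * (Fintype.card Q - (w.length + 1))) := by gcongr
            _ = 2 * ((cycE q₀ w c).card * (Fintype.card Q - (w.length + 1))) := by ring
            _ ≤ 2 * ((Sur A q₀).card * Fintype.card Q) := by gcongr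
            _ = _ := by ring
        exact Nat.le_of_mul_le_mul_right h3 h0
    have hsub : (Sur A q₀).sigma (fun δ => cyc δ D) ⊆
        ((range D).biUnion fun m => (wl A m ×ˢ (univ : Finset A)).biUnion fun y =>
          (cycE q₀ y.1 y.2).map ⟨fun x => (⟨x.1, x.2⟩ : Σ _ : Q → A → Q, Q), by
            rintro ⟨a, b⟩ ⟨a', b'⟩ h
            simp only [Sigma.mk.injEq, heq_eq_eq] at h
            exact Prod.ext h.1 h.2⟩) := by
      rintro ⟨δ, t⟩ h
      rw [mem_sigma] at h
      obtain ⟨w, hw, c, hc⟩ := exists_cycE h.1 h.2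
      rw [mem_biUnion]
      refine ⟨w.length, mem_range.2 hw, ?_⟩
      rw [mem_biUnion]
      refine ⟨(w, c), ?_, ?_⟩
      · simp [mem_wl]
      · rw [Finset.mem_map]
        exact ⟨(δ, t), hc, rfl⟩
    have h1 : ∑ δ ∈ Sur A q₀, (cyc δ D).card = ((Sur A q₀).sigma (fun δ => cyc δ D)).card := by
      rw [card_sigma]
    rw [h1]
    calc ((Sur A q₀).sigma (fun δ => cyc δ D)).card ≤ _ := card_le_card hsub
      _ ≤ ∑ m ∈ range D, _ := card_biUnion_le
      _ ≤ ∑ m ∈ range D, ∑ y ∈ wl A m ×ˢ (univ : Finset A), (cycE q₀ y.1 y.2).card := by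
          apply sum_le_sum
          intro m _
          refine card_biUnion_le.trans ?_
          apply sum_le_sum
          intro y _
          rw [card_map]
      _ ≤ ∑ m ∈ range D, ∑ y ∈ wl A m ×ˢ (univ : Finset A), 2 * (Sur A q₀).card := by
          apply sum_le_sum
          intro m hm
          apply sum_le_sum
          intro y hy
          apply hE
          rw [mem_product, mem_wl] at hy
          rw [hy.1]
          exact mem_range.1 hm
      _ = (2 * ∑ m ∈ range D, Fintype.card A ^ (m + 1)) * (Sur A q₀).card := by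
          simp only [sum_const, card_product, card_wl, smul_eq_mul, card_univ]
          rw [mul_sum, sum_mul]
          apply sum_congr rfl
          intro m _
          ring
      _ ≤ _ := by gcongr; omega

/-! ### enumerations of the in-edges -/

/-- generic version of `Yn` as a set -/
noncomputable def YQ (δ : Q → A → Q) (D : ℕ) {j : ℕ} (ℓ : Fin j → A × Multiset (List A)) :
    Finset (Q × (Fin j → Q × A)) := by
  classical
  exact univ.filter fun x => Function.Injective x.2 ∧ (∀ y, δ y.1 y.2 = x.1 ↔ ∃ i, x.2 i = y) ∧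
      ∀ i, ((x.2 i).2, lev δ D (x.2 i).1) = ℓ i

lemma mem_YQ {δ : Q → A → Q} {D j : ℕ} {ℓ : Fin j → A × Multiset (List A)}
    {x : Q × (Fin j → Q × A)} :
    x ∈ YQ δ D ℓ ↔ Function.Injective x.2 ∧ (∀ y, δ y.1 y.2 = x.1 ↔ ∃ i, x.2 i = y) ∧
      ∀ i, ((x.2 i).2, lev δ D (x.2 i).1) = ℓ i := by
  classical
  simp [YQ]

open Classical in
lemma card_YQ_filter (δ : Q → A → Q) (D : ℕ) {j : ℕ} (ℓ : Fin j → A × Multiset (List A))
    (P : Finset Q) : ((YQ δ D ℓ).filter fun x => x.1 ∈ P).card ≤ P.card * j ^ j := by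
  have h1 : ((YQ δ D ℓ).filter fun x => x.1 ∈ P) ⊆
      P.biUnion fun p => (Fintype.piFinset fun _ : Fin j =>
        if h : ∃ e : Fin j → Q × A, (p, e) ∈ YQ δ D ℓ then univ.image h.choose else ∅).image
          fun e => (p, e) := by
    rintro ⟨p, e⟩ hx
    rw [mem_filter] at hx
    rw [mem_biUnion]
    refine ⟨p, hx.2, ?_⟩
    rw [mem_image]
    refine ⟨e, ?_, rfl⟩
    rw [Fintype.mem_piFinset]
    intro i
    have h : ∃ e : Fin j → Q × A, (p, e) ∈ YQ δ D ℓ := ⟨e, hx.1⟩
    rw [dif_pos h, mem_image]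
    have h2 := (mem_YQ.1 h.choose_spec).2.1 (e i)
    have h3 := (mem_YQ.1 hx.1).2.1 (e i)
    obtain ⟨i', hi'⟩ := h2.1 (h3.2 ⟨i, rfl⟩)
    exact ⟨i', mem_univ _, hi'⟩
  refine (card_le_card h1).trans (card_biUnion_le.trans ?_)
  rw [← smul_eq_mul, ← sum_const]
  apply sum_le_sum
  intro p _
  refine card_image_le.trans ?_
  rw [Fintype.card_piFinset_const]
  apply Nat.pow_le_pow_left
  split_ifs with h
  · exact card_image_le.trans (by simp)
  · simp

lemma card_YQ (δ : Q → A → Q) (D : ℕ) {j : ℕ} (ℓ : Fin j → A × Multiset (List A)) :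
    (YQ δ D ℓ).card ≤ Fintype.card Q * j ^ j := by
  classical
  have h := card_YQ_filter δ D ℓ univ
  rwa [filter_true_of_mem (by simp), card_univ] at h

section moves

variable (q₀ : Q) (D : ℕ) {j : ℕ} (ℓ : Fin j → A × Multiset (List A))
  (x : A × Multiset (List A))

/-- adding moves -/
noncomputable def PP (δ : Q → A → Q) : Finset ((Q × (Fin j → Q × A)) × Q) := by
  classical
  exact (YQ δ D ℓ ×ˢ univ).filter fun z => δ z.2 x.1 ≠ z.1.1 ∧ lev δ D z.2 = x.2 ∧
    upd δ z.2 x.1 z.1.1 ∈ Sur A q₀ ∧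
    (∀ i, lev (upd δ z.2 x.1 z.1.1) D (z.1.2 i).1 = lev δ D (z.1.2 i).1) ∧
    lev (upd δ z.2 x.1 z.1.1) D z.2 = lev δ D z.2

/-- removing moves -/
noncomputable def RR (δ : Q → A → Q) : Finset ((Q × (Fin (j + 1) → Q × A)) × Q) := by
  classical
  exact (YQ δ D (Fin.snoc ℓ x : Fin (j + 1) → A × Multiset (List A)) ×ˢ univ).filter fun z =>
    z.2 ≠ z.1.1 ∧ upd δ (z.1.2 (Fin.last j)).1 x.1 z.2 ∈ Sur A q₀ ∧
    ∀ i, lev (upd δ (z.1.2 (Fin.last j)).1 x.1 z.2) D (z.1.2 i).1 = lev δ D (z.1.2 i).1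

variable {q₀ D ℓ x}

lemma mem_PP {δ : Q → A → Q} {z : (Q × (Fin j → Q × A)) × Q} : z ∈ PP q₀ D ℓ x δ ↔
    z.1 ∈ YQ δ D ℓ ∧ δ z.2 x.1 ≠ z.1.1 ∧ lev δ D z.2 = x.2 ∧
    upd δ z.2 x.1 z.1.1 ∈ Sur A q₀ ∧
    (∀ i, lev (upd δ z.2 x.1 z.1.1) D (z.1.2 i).1 = lev δ D (z.1.2 i).1) ∧
    lev (upd δ z.2 x.1 z.1.1) D z.2 = lev δ D z.2 := by
  classical
  simp [PP]

lemma mem_RR {δ : Q → A → Q} {z : (Q × (Fin (j + 1) → Q × A)) × Q} : z ∈ RR q₀ D ℓ x δ ↔
    z.1 ∈ YQ δ D (Fin.snoc ℓ x : Fin (j + 1) → A × Multiset (List A)) ∧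
    z.2 ≠ z.1.1 ∧ upd δ (z.1.2 (Fin.last j)).1 x.1 z.2 ∈ Sur A q₀ ∧
    ∀ i, lev (upd δ (z.1.2 (Fin.last j)).1 x.1 z.2) D (z.1.2 i).1 = lev δ D (z.1.2 i).1 := by
  classical
  simp [RR]

lemma upd_back {δ : Q → A → Q} {s : Q} {a : A} {p : Q} (h : δ s a = p) (y : Q) :
    upd (upd δ s a y) s a p = δ := by
  rw [← h]
  exact upd_upd δ s a y

lemma PP_to_RR {δ : Q → A → Q} (hδ : δ ∈ Sur A q₀) {p : Q} {e : Fin j → Q × A} {s : Q}
    (h : ((p, e), s) ∈ PP q₀ D ℓ x δ) :
    ((p, (Fin.snoc e (s, x.1) : Fin (j + 1) → Q × A)), δ s x.1) ∈ RR q₀ D ℓ x (upd δ s x.1 p) := by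
  obtain ⟨h1, h2, h3, h4, h5, h6⟩ := mem_PP.1 h
  obtain ⟨h7, h8, h9⟩ := mem_YQ.1 h1
  simp only at h2 h3 h4 h5 h6 h7 h8 h9
  have hs : ∀ i, e i ≠ (s, x.1) := by
    intro i hi
    apply h2
    have := (h8 (e i)).2 ⟨i, rfl⟩
    rw [hi] at this
    exact this
  rw [mem_RR]
  simp only [Fin.snoc_last]
  refine ⟨mem_YQ.2 ⟨?_, ?_, ?_⟩, h2, ?_, ?_⟩
  · simp only
    intro i i' hii
    induction i using Fin.lastCases with
    | last =>
      induction i' using Fin.lastCases with
      | last => rfl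
      | cast i' =>
        simp only [Fin.snoc_last, Fin.snoc_castSucc] at hii
        exact absurd hii.symm (hs i')
    | cast i =>
      induction i' using Fin.lastCases with
      | last =>
        simp only [Fin.snoc_last, Fin.snoc_castSucc] at hii
        exact absurd hii (hs i)
      | cast i' =>
        simp only [Fin.snoc_castSucc] at hii
        rw [h7 hii]
  · intro y
    simp only
    by_cases hy : y = (s, x.1)
    · subst hy
      simp only [upd_same, true_iff]
      exact ⟨Fin.last j, by simp⟩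
    · have h10 : upd δ s x.1 p y.1 y.2 = δ y.1 y.2 := by
        apply upd_ne
        intro h11 h12
        exact hy (Prod.ext h11 h12)
      rw [h10, h8 y]
      constructor
      · rintro ⟨i, hi⟩
        exact ⟨i.castSucc, by simp [hi]⟩
      · rintro ⟨i, hi⟩
        induction i using Fin.lastCases with
        | last =>
          simp only [Fin.snoc_last] at hi
          exact absurd hi.symm hy
        | cast i =>
          simp only [Fin.snoc_castSucc] at hi
          exact ⟨i, hi⟩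
  · intro i
    simp only
    induction i using Fin.lastCases with
    | last => simp only [Fin.snoc_last]; rw [h6, h3]
    | cast i => simp only [Fin.snoc_castSucc]; rw [h5 i, h9 i]
  · rw [upd_upd]; exact hδ
  · intro i
    rw [upd_upd]
    induction i using Fin.lastCases with
    | last => simp only [Fin.snoc_last]; exact h6.symm
    | cast i => simp only [Fin.snoc_castSucc]; exact (h5 i).symm

lemma RR_to_PP {δ : Q → A → Q} (hδ : δ ∈ Sur A q₀) {p : Q} {e : Fin (j + 1) → Q × A} {y : Q}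
    (h : ((p, e), y) ∈ RR q₀ D ℓ x δ) :
    e (Fin.last j) = ((e (Fin.last j)).1, x.1) ∧ δ (e (Fin.last j)).1 x.1 = p ∧
    ((p, (Fin.init e : Fin j → Q × A)), (e (Fin.last j)).1) ∈
      PP q₀ D ℓ x (upd δ (e (Fin.last j)).1 x.1 y) := by
  obtain ⟨h1, h2, h3, h4⟩ := mem_RR.1 h
  obtain ⟨h7, h8, h9⟩ := mem_YQ.1 h1
  simp only at h2 h3 h4 h7 h8 h9
  have hl := h9 (Fin.last j)
  rw [Fin.snoc_last] at hl
  have hl1 : (e (Fin.last j)).2 = x.1 := congrArg Prod.fst hl
  have hl2 : lev δ D (e (Fin.last j)).1 = x.2 := congrArg Prod.snd hl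
  have hl3 : e (Fin.last j) = ((e (Fin.last j)).1, x.1) := Prod.ext rfl hl1
  have hl4 : δ (e (Fin.last j)).1 x.1 = p := by
    have := (h8 (e (Fin.last j))).2 ⟨_, rfl⟩
    rwa [hl1] at this
  refine ⟨hl3, hl4, ?_⟩
  set s := (e (Fin.last j)).1 with hs
  rw [mem_PP]
  refine ⟨mem_YQ.2 ⟨?_, ?_, ?_⟩, ?_, ?_, ?_, ?_, ?_⟩
  · simp only
    intro i i' hii
    have := h7 (show e i.castSucc = e i'.castSucc from hii)
    exact Fin.castSucc_injective _ this
  · intro z
    simp only
    by_cases hz : z = (s, x.1)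
    · subst hz
      simp only [upd_same]
      constructor
      · intro h10; exact absurd h10 h2
      · rintro ⟨i, hi⟩
        exfalso
        have h11 : e i.castSucc = e (Fin.last j) := by rw [hl3]; exact hi
        have h12 := h7 h11
        exact absurd h12 (Fin.castSucc_lt_last i).ne
    · have h10 : upd δ s x.1 y z.1 z.2 = δ z.1 z.2 := by
        apply upd_ne
        intro h11 h12
        exact hz (Prod.ext h11 h12)
      rw [h10, h8 z]
      constructor
      · rintro ⟨i, hi⟩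
        induction i using Fin.lastCases with
        | last =>
          rw [hl3] at hi
          exact absurd hi.symm hz
        | cast i => exact ⟨i, hi⟩
      · rintro ⟨i, hi⟩
        exact ⟨i.castSucc, hi⟩
  · intro i
    have h10 := h9 i.castSucc
    rw [Fin.snoc_castSucc] at h10
    change ((e i.castSucc).2, lev (upd δ s x.1 y) D (e i.castSucc).1) = ℓ i
    rw [h4 i.castSucc, h10]
  · simp only [upd_same]
    exact h2
  · simp only
    rw [h4 (Fin.last j)]
    exact hl2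
  · simp only
    rw [upd_back hl4]
    exact hδ
  · intro i
    simp only
    rw [upd_back hl4]
    exact (h4 i.castSucc).symm
  · simp only
    rw [upd_back hl4]
    exact (h4 (Fin.last j)).symm

/-- the switching identity -/
lemma sum_PP_eq (F : (Q → A → Q) → ℝ) :
    ∑ δ ∈ Sur A q₀, ((PP q₀ D ℓ x δ).card : ℝ) * F δ =
      ∑ δ ∈ Sur A q₀, ∑ z ∈ RR q₀ D ℓ x δ, F (upd δ (z.1.2 (Fin.last j)).1 x.1 z.2) := by
  classical
  have h1 : ∑ δ ∈ Sur A q₀, ((PP q₀ D ℓ x δ).card : ℝ) * F δ =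
      ∑ y ∈ (Sur A q₀).sigma fun δ => PP q₀ D ℓ x δ, F y.1 := by
    rw [sum_sigma]
    apply sum_congr rfl
    intro δ _
    simp
  have h2 : ∑ δ ∈ Sur A q₀, ∑ z ∈ RR q₀ D ℓ x δ, F (upd δ (z.1.2 (Fin.last j)).1 x.1 z.2) =
      ∑ y ∈ (Sur A q₀).sigma fun δ => RR q₀ D ℓ x δ,
        F (upd y.1 (y.2.1.2 (Fin.last j)).1 x.1 y.2.2) := by
    rw [sum_sigma]
  rw [h1, h2]
  refine sum_bij' (fun y _ => ⟨upd y.1 y.2.2 x.1 y.2.1.1,
      ((y.2.1.1, (Fin.snoc y.2.1.2 (y.2.2, x.1) : Fin (j + 1) → Q × A)), y.1 y.2.2 x.1)⟩)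
    (fun y _ => ⟨upd y.1 (y.2.1.2 (Fin.last j)).1 x.1 y.2.2,
      ((y.2.1.1, (Fin.init y.2.1.2 : Fin j → Q × A)), (y.2.1.2 (Fin.last j)).1)⟩)
    ?_ ?_ ?_ ?_ ?_
  · rintro ⟨δ, ⟨⟨p, e⟩, s⟩⟩ hy
    rw [mem_sigma] at hy ⊢
    exact ⟨(mem_PP.1 hy.2).2.2.2.1, PP_to_RR hy.1 hy.2⟩
  · rintro ⟨δ, ⟨⟨p, e⟩, y⟩⟩ hy
    rw [mem_sigma] at hy ⊢
    exact ⟨(mem_RR.1 hy.2).2.2.1, (RR_to_PP hy.1 hy.2).2.2⟩
  · rintro ⟨δ, ⟨⟨p, e⟩, s⟩⟩ hy
    simp only [Fin.snoc_last, Fin.init_snoc, upd_upd]
  · rintro ⟨δ, ⟨⟨p, e⟩, y⟩⟩ hy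
    rw [mem_sigma] at hy
    obtain ⟨h3, h4, _⟩ := RR_to_PP hy.1 hy.2
    simp only
    simp only at h3 h4
    have h5 : (Fin.snoc (Fin.init e) ((e (Fin.last j)).1, x.1) : Fin (j + 1) → Q × A) = e := by
      rw [← h3]
      exact Fin.snoc_init_self e
    rw [h5, upd_back h4, upd_same]
  · rintro ⟨δ, ⟨⟨p, e⟩, s⟩⟩ hy
    simp only [Fin.snoc_last, upd_upd]

end moves

section errors

open Classical in
/-- number of states with a given level `D` multiset -/
noncomputable def nt (δ : Q → A → Q) (D : ℕ) (τ : Multiset (List A)) : ℕ :=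
  (univ.filter fun p => lev δ D p = τ).card

/-- the edge `(s, a)` is the only in-edge of its target -/
def uniq (δ : Q → A → Q) (s : Q) (a : A) : Prop := ∀ e : Q × A, δ e.1 e.2 = δ s a → e = (s, a)

open Classical in
/-- states whose `a`-edge can be removed -/
noncomputable def Rm (δ : Q → A → Q) (D : ℕ) (x : A × Multiset (List A)) : Finset Q :=
  univ.filter fun s => lev δ D s = x.2 ∧ ¬ uniq δ s x.1

open Classical in
lemma card_Rm (δ : Q → A → Q) (D : ℕ) (x : A × Multiset (List A)) :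
    (Rm δ D x).card + (YQ δ D ![x]).card = nt δ D x.2 := by
  have h1 : (YQ δ D ![x]).card = (univ.filter fun s => lev δ D s = x.2 ∧ uniq δ s x.1).card := by
    symm
    apply card_bij (fun s _ => (δ s x.1, (![(s, x.1)] : Fin 1 → Q × A)))
    · intro s hs
      rw [mem_filter] at hs
      rw [mem_YQ]
      refine ⟨Function.injective_of_subsingleton _, ?_, ?_⟩
      · intro y
        simp only
        constructor
        · intro hy
          exact ⟨0, (hs.2.2 y hy).symm⟩
        · rintro ⟨i, hi⟩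
          fin_cases i
          simp at hi
          rw [← hi]
      · intro i
        fin_cases i
        simp [hs.2.1]
    · intro s _ s' _ h
      simp only [Prod.mk.injEq] at h
      have := congrFun h.2 0
      simp at this
      exact this
    · rintro ⟨p, e⟩ hy
      obtain ⟨h2, h3, h4⟩ := mem_YQ.1 hy
      simp only at h2 h3 h4
      have h5 := h4 0
      simp only [Matrix.cons_val_fin_one] at h5
      have h6 : (e 0).2 = x.1 := congrArg Prod.fst h5
      have h7 : lev δ D (e 0).1 = x.2 := congrArg Prod.snd h5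
      have h8 : δ (e 0).1 x.1 = p := by
        have := (h3 (e 0)).2 ⟨0, rfl⟩
        rwa [h6] at this
      refine ⟨(e 0).1, ?_, ?_⟩
      · rw [mem_filter]
        refine ⟨mem_univ _, h7, ?_⟩
        intro y hy2
        rw [h8] at hy2
        obtain ⟨i, hi⟩ := (h3 y).1 hy2
        fin_cases i
        rw [← hi]
        exact Prod.ext rfl h6
      · rw [h8]
        congr 1
        funext i
        fin_cases i
        exact Prod.ext rfl h6.symm
  rw [h1, Rm, nt, ← card_union_of_disjoint]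
  · congr 1
    ext s
    simp only [mem_union, mem_filter, mem_univ, true_and]
    tauto
  · rw [Finset.disjoint_left]
    intro s hs hs'
    rw [mem_filter] at hs hs'
    exact hs.2.2 hs'.2.2

variable {q₀ : Q} {D : ℕ} {j : ℕ} {ℓ : Fin j → A × Multiset (List A)}
  {x : A × Multiset (List A)}

open Classical in
lemma card_PP_le {δ : Q → A → Q} :
    (PP q₀ D ℓ x δ).card ≤ (YQ δ D ℓ).card * ((Rm δ D x).card + 1) := by
  -- at most one state has an `a`-edge which is the only in-edge of the root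
  have h1 : PP q₀ D ℓ x δ ⊆ YQ δ D ℓ ×ˢ
      (Rm δ D x ∪ univ.filter fun s => uniq δ s x.1 ∧ δ s x.1 = q₀) := by
    rintro ⟨y, s⟩ hz
    obtain ⟨h2, h3, h4, h5, h6, h7⟩ := mem_PP.1 hz
    rw [mem_product]
    refine ⟨h2, ?_⟩
    rw [mem_union, Rm, mem_filter, mem_filter]
    by_cases hu : uniq δ s x.1
    · right
      refine ⟨mem_univ _, hu, ?_⟩
      by_contra hne
      obtain ⟨s', a', hs'⟩ := mem_Sur.1 h5 (δ s x.1) hne
      simp only at h3 hs'
      by_cases he : s' = s ∧ a' = x.1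
      · rw [he.1, he.2, upd_same] at hs'
        exact h3 hs'.symm
      · rw [upd_ne (fun h8 h9 => he ⟨h8, h9⟩)] at hs'
        have := hu (s', a') hs'
        simp only [Prod.mk.injEq] at this
        exact he this
    · left
      exact ⟨mem_univ _, h4, hu⟩
  have h2 : (univ.filter fun s => uniq δ s x.1 ∧ δ s x.1 = q₀).card ≤ 1 := by
    rw [card_le_one]
    intro s hs s' hs'
    rw [mem_filter] at hs hs'
    have := hs.2.1 (s', x.1) (by rw [hs.2.2, hs'.2.2])
    exact (congrArg Prod.fst this).symm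
  refine (card_le_card h1).trans ?_
  rw [card_product]
  gcongr
  exact (card_union_le _ _).trans (by gcongr)

lemma upd_mem_Sur_of_not_uniq {δ : Q → A → Q} (hδ : δ ∈ Sur A q₀) {s : Q} {a : A}
    (hu : ¬ uniq δ s a) (r : Q) : upd δ s a r ∈ Sur A q₀ := by
  rw [mem_Sur] at hδ ⊢
  intro p hp
  obtain ⟨s', a', h⟩ := hδ p hp
  by_cases he : s' = s ∧ a' = a
  · unfold uniq at hu
    push Not at hu
    obtain ⟨e, he1, he2⟩ := hu
    refine ⟨e.1, e.2, ?_⟩
    rw [upd_ne, he1, ← he.1, ← he.2, h]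
    intro h1 h2
    exact he2 (Prod.ext h1 h2)
  · exact ⟨s', a', by rw [upd_ne (fun h8 h9 => he ⟨h8, h9⟩), h]⟩

/-- a source of an in-edge of `p` in the forward set of `z` -/
lemma fw_succ_of_source {δ : Q → A → Q} {z p : Q} {e : Q × A} (he : δ e.1 e.2 = p)
    (h : e.1 ∈ fw δ D z) : p ∈ fw δ (D + 1) z := by
  obtain ⟨w, hw, hr⟩ := mem_fw.1 h
  exact mem_fw.2 ⟨w ++ [e.2], by simp; omega, by rw [run_concat, hr, he]⟩

lemma cyc_of_source {δ : Q → A → Q} {p : Q} {e : Q × A} (he : δ e.1 e.2 = p)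
    (h : e.1 ∈ fw δ D p) : p ∈ cyc δ D := by
  obtain ⟨w, hw, hr⟩ := mem_fw.1 h
  exact mem_cyc.2 ⟨w ++ [e.2], by simp, by simp; omega, by rw [run_concat, hr, he]⟩

open Classical in
lemma card_mul_Rm_le {δ : Q → A → Q} (hδ : δ ∈ Sur A q₀) :
    (YQ δ D ℓ).card * (Rm δ D x).card ≤ (PP q₀ D ℓ x δ).card +
      Fintype.card Q * (Wc (Fintype.card A) (D + 1) * j ^ j) +
      (cyc δ D).card * j ^ j * Fintype.card Q +
      Fintype.card Q * j ^ j * (cyc δ D).card +
      Fintype.card Q * j ^ j * Wc (Fintype.card A) D := by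
  let B2 : Finset ((Q × (Fin j → Q × A)) × Q) := (univ : Finset Q).biUnion fun s =>
    ((YQ δ D ℓ).filter fun y => y.1 ∈ fw δ (D + 1) (δ s x.1)) ×ˢ {s}
  let B3 : Finset ((Q × (Fin j → Q × A)) × Q) :=
    ((YQ δ D ℓ).filter fun y => y.1 ∈ cyc δ D) ×ˢ univ
  let B4 : Finset ((Q × (Fin j → Q × A)) × Q) := (YQ δ D ℓ) ×ˢ cyc δ D
  let B5 : Finset ((Q × (Fin j → Q × A)) × Q) := (YQ δ D ℓ).biUnion fun y =>
    {y} ×ˢ fw δ D y.1
  have hsub : YQ δ D ℓ ×ˢ Rm δ D x ⊆ PP q₀ D ℓ x δ ∪ B2 ∪ B3 ∪ B4 ∪ B5 := by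
    rintro ⟨⟨p, e⟩, s⟩ hz
    rw [mem_product] at hz
    obtain ⟨h1, h2⟩ := hz
    simp only at h1 h2
    have h2' := h2
    rw [Rm, mem_filter] at h2'
    obtain ⟨_, h3, h4⟩ := h2'
    have hy := mem_YQ.1 h1
    simp only at hy
    by_cases c2 : p ∈ fw δ (D + 1) (δ s x.1)
    · simp only [mem_union]
      left; left; left; right
      rw [mem_biUnion]
      exact ⟨s, mem_univ _, by simp [h1, c2]⟩
    by_cases c3 : p ∈ cyc δ D
    · simp only [mem_union]
      left; left; right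
      simp [B3, h1, c3]
    by_cases c4 : s ∈ cyc δ D
    · simp only [mem_union]
      left; right
      simp [B4, h1, c4]
    by_cases c5 : s ∈ fw δ D p
    · simp only [mem_union]
      right
      rw [mem_biUnion]
      exact ⟨(p, e), h1, by simp [c5]⟩
    simp only [mem_union]
    left; left; left; left
    rw [mem_PP]
    refine ⟨h1, ?_, h3, upd_mem_Sur_of_not_uniq hδ h4 _, ?_, ?_⟩
    · simp only
      intro h5
      apply c2
      rw [← h5]
      exact mem_fw.2 ⟨[], by simp, rfl⟩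
    · intro i
      have h6 : δ (e i).1 (e i).2 = p := (hy.2.1 (e i)).2 ⟨i, rfl⟩
      apply lev_upd
      · intro h7
        exact c2 (fw_succ_of_source h6 h7)
      · intro h7
        exact c3 (cyc_of_source h6 h7)
    · apply lev_upd
      · intro h7
        obtain ⟨w, hw, hr⟩ := mem_fw.1 h7
        apply c4
        exact mem_cyc.2 ⟨x.1 :: w, by simp, by simp; omega, by rw [run_cons]; exact hr⟩
      · exact c5
  have e2 : B2.card ≤ Fintype.card Q * (Wc (Fintype.card A) (D + 1) * j ^ j) := by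
    refine card_biUnion_le.trans ?_
    rw [← card_univ, ← smul_eq_mul (card univ), ← sum_const]
    apply sum_le_sum
    intro s _
    rw [card_product, card_singleton, mul_one]
    exact (card_YQ_filter δ D ℓ _).trans (Nat.mul_le_mul_right _ (card_fw _ _ _))
  have e3 : B3.card ≤ (cyc δ D).card * j ^ j * Fintype.card Q := by
    rw [card_product, card_univ]
    exact Nat.mul_le_mul_right _ (card_YQ_filter δ D ℓ _)
  have e4 : B4.card ≤ Fintype.card Q * j ^ j * (cyc δ D).card := by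
    rw [card_product]
    exact Nat.mul_le_mul_right _ (card_YQ δ D ℓ)
  have e5 : B5.card ≤ Fintype.card Q * j ^ j * Wc (Fintype.card A) D := by
    refine card_biUnion_le.trans ?_
    calc ∑ y ∈ YQ δ D ℓ, (({y} : Finset _) ×ˢ fw δ D y.1).card
        ≤ ∑ y ∈ YQ δ D ℓ, Wc (Fintype.card A) D := by
          apply sum_le_sum
          intro y _
          rw [card_product, card_singleton, one_mul]
          exact card_fw _ _ _
      _ = (YQ δ D ℓ).card * Wc (Fintype.card A) D := by rw [sum_const, smul_eq_mul]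
      _ ≤ _ := Nat.mul_le_mul_right _ (card_YQ δ D ℓ)
  rw [← card_product]
  refine (card_le_card hsub).trans ?_
  have f1 := card_union_le (PP q₀ D ℓ x δ ∪ B2 ∪ B3 ∪ B4) B5
  have f2 := card_union_le (PP q₀ D ℓ x δ ∪ B2 ∪ B3) B4
  have f3 := card_union_le (PP q₀ D ℓ x δ ∪ B2) B3
  have f4 := card_union_le (PP q₀ D ℓ x δ) B2
  omega

open Classical in
lemma card_RR_le {δ : Q → A → Q} : (RR q₀ D ℓ x δ).card ≤
    (YQ δ D (Fin.snoc ℓ x : Fin (j + 1) → A × Multiset (List A))).card * Fintype.card Q := by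
  rw [← card_univ, ← card_product]
  apply card_le_card
  intro z hz
  rw [mem_product]
  exact ⟨(mem_RR.1 hz).1, mem_univ _⟩

open Classical in
lemma card_mul_le_RR {δ : Q → A → Q} (hδ : δ ∈ Sur A q₀) (hj : 0 < j) :
    (YQ δ D (Fin.snoc ℓ x : Fin (j + 1) → A × Multiset (List A))).card * Fintype.card Q ≤
      (RR q₀ D ℓ x δ).card + (cyc δ D).card * (j + 1) ^ (j + 1) * Fintype.card Q +
      Fintype.card Q * (Wc (Fintype.card A) (D + 1) * (j + 1) ^ (j + 1)) := by
  set ℓ' := (Fin.snoc ℓ x : Fin (j + 1) → A × Multiset (List A)) with hℓ'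
  let B2 : Finset ((Q × (Fin (j + 1) → Q × A)) × Q) :=
    ((YQ δ D ℓ').filter fun y => y.1 ∈ cyc δ D) ×ˢ univ
  let B3 : Finset ((Q × (Fin (j + 1) → Q × A)) × Q) := (univ : Finset Q).biUnion fun y =>
    ((YQ δ D ℓ').filter fun z => z.1 ∈ fw δ (D + 1) y) ×ˢ {y}
  have hsub : YQ δ D ℓ' ×ˢ univ ⊆ RR q₀ D ℓ x δ ∪ B2 ∪ B3 := by
    rintro ⟨⟨p, e⟩, y⟩ hz
    rw [mem_product] at hz
    obtain ⟨h1, _⟩ := hz
    simp only at h1
    obtain ⟨h7, h8, h9⟩ := mem_YQ.1 h1
    simp only at h7 h8 h9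
    have hl := h9 (Fin.last j)
    rw [hℓ', Fin.snoc_last] at hl
    have hl1 : (e (Fin.last j)).2 = x.1 := congrArg Prod.fst hl
    have hl3 : e (Fin.last j) = ((e (Fin.last j)).1, x.1) := Prod.ext rfl hl1
    have hl4 : δ (e (Fin.last j)).1 x.1 = p := by
      have := (h8 (e (Fin.last j))).2 ⟨_, rfl⟩
      rwa [hl1] at this
    by_cases c2 : p ∈ cyc δ D
    · simp only [mem_union]
      left; right
      simp [B2, h1, c2]
    by_cases c3 : p ∈ fw δ (D + 1) y
    · simp only [mem_union]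
      right
      rw [mem_biUnion]
      exact ⟨y, mem_univ _, by simp [h1, c3]⟩
    simp only [mem_union]
    left; left
    rw [mem_RR]
    refine ⟨h1, ?_, ?_, ?_⟩
    · simp only
      intro h5
      apply c3
      rw [h5]
      exact mem_fw.2 ⟨[], by simp, rfl⟩
    · apply upd_mem_Sur_of_not_uniq hδ
      intro hu
      have h10 : δ (e ⟨0, by omega⟩).1 (e ⟨0, by omega⟩).2 = p := (h8 _).2 ⟨_, rfl⟩
      have h11 := hu (e ⟨0, by omega⟩) (by rw [h10, hl4])
      simp only at h11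
      rw [← hl3] at h11
      have h12 := h7 h11
      have h13 := congrArg Fin.val h12
      simp at h13
      omega
    · intro i
      have h6 : δ (e i).1 (e i).2 = p := (h8 (e i)).2 ⟨i, rfl⟩
      apply lev_upd
      · simp only
        rw [hl4]
        intro h7
        exact c2 (cyc_of_source h6 h7)
      · intro h7
        exact c3 (fw_succ_of_source h6 h7)
  have e2 : B2.card ≤ (cyc δ D).card * (j + 1) ^ (j + 1) * Fintype.card Q := by
    rw [card_product, card_univ]
    exact Nat.mul_le_mul_right _ (card_YQ_filter δ D ℓ' _)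
  have e3 : B3.card ≤ Fintype.card Q * (Wc (Fintype.card A) (D + 1) * (j + 1) ^ (j + 1)) := by
    refine card_biUnion_le.trans ?_
    rw [← card_univ, ← smul_eq_mul (card univ), ← sum_const]
    apply sum_le_sum
    intro s _
    rw [card_product, card_singleton, mul_one]
    exact (card_YQ_filter δ D ℓ' _).trans (Nat.mul_le_mul_right _ (card_fw _ _ _))
  rw [← card_univ (α := Q), ← card_product, card_univ]
  refine (card_le_card hsub).trans ?_
  have f3 := card_union_le (RR q₀ D ℓ x δ ∪ B2) B3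
  have f4 := card_union_le (RR q₀ D ℓ x δ) B2
  omega

open Classical in
lemma card_YQ_upd (δ : Q → A → Q) (D : ℕ) {j : ℕ} (ℓ : Fin j → A × Multiset (List A)) (s : Q)
    (a : A) (r : Q) : (YQ (upd δ s a r) D ℓ).card ≤
      (YQ δ D ℓ).card + (2 + 2 * Wc (Fintype.card A) D * Fintype.card A) * j ^ j := by
  set δ' := upd δ s a r with hδ'
  let P : Finset Q := {δ s a, r} ∪ ((fw δ D (δ s a) ∪ fw δ D r) ×ˢ (univ : Finset A)).image
    fun y => δ' y.1 y.2
  have hsub : YQ δ' D ℓ ⊆ YQ δ D ℓ ∪ (YQ δ' D ℓ).filter fun y => y.1 ∈ P := by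
    rintro ⟨p, e⟩ hy
    by_cases hP : p ∈ P
    · rw [mem_union, mem_filter]
      right
      exact ⟨hy, hP⟩
    · rw [mem_union]
      left
      simp only [P, mem_union, mem_insert, mem_singleton, mem_image, mem_product, mem_univ,
        and_true, not_or, not_exists, not_and] at hP
      obtain ⟨⟨h1, h2⟩, h3⟩ := hP
      obtain ⟨h4, h5, h6⟩ := mem_YQ.1 hy
      simp only at h4 h5 h6
      refine mem_YQ.2 ⟨h4, ?_, ?_⟩
      · intro y
        simp only
        rw [← h5 y]
        by_cases hy' : y.1 = s ∧ y.2 = a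
        · rw [hδ', hy'.1, hy'.2, upd_same]
          constructor
          · intro h7; exact absurd h7.symm h1
          · intro h7; exact absurd h7.symm h2
        · rw [hδ', upd_ne (fun h8 h9 => hy' ⟨h8, h9⟩)]
      · intro i
        simp only
        have h7 := (h5 (e i)).2 ⟨i, rfl⟩
        rw [← h6 i]
        have h8 : lev δ' D (e i).1 = lev δ D (e i).1 := by
          apply lev_upd
          · intro h9
            exact h3 (e i) (Or.inl h9) h7
          · intro h9
            exact h3 (e i) (Or.inr h9) h7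
        rw [h8]
  have hP : P.card ≤ 2 + 2 * Wc (Fintype.card A) D * Fintype.card A := by
    refine (card_union_le _ _).trans ?_
    have g1 : ({δ s a, r} : Finset Q).card ≤ 2 := card_le_two
    have g2 : (((fw δ D (δ s a) ∪ fw δ D r) ×ˢ (univ : Finset A)).image
        fun y => δ' y.1 y.2).card ≤ 2 * Wc (Fintype.card A) D * Fintype.card A := by
      refine card_image_le.trans ?_
      rw [card_product, card_univ]
      apply Nat.mul_le_mul_right
      refine (card_union_le _ _).trans ?_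
      have g3 := card_fw δ D (δ s a)
      have g4 := card_fw δ D r
      omega
    omega
  refine (card_le_card hsub).trans ((card_union_le _ _).trans ?_)
  gcongr
  exact (card_YQ_filter δ' D ℓ P).trans (Nat.mul_le_mul_right _ hP)

open Classical in
lemma nt_upd (δ : Q → A → Q) (D : ℕ) (τ : Multiset (List A)) (s : Q) (a : A) (r : Q) :
    nt (upd δ s a r) D τ ≤ nt δ D τ + 2 * Wc (Fintype.card A) D := by
  have hsub : (univ.filter fun p => lev (upd δ s a r) D p = τ) ⊆
      (univ.filter fun p => lev δ D p = τ) ∪ (fw δ D (δ s a) ∪ fw δ D r) := by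
    intro p hp
    rw [mem_filter] at hp
    rw [mem_union, mem_union, mem_filter]
    by_cases h1 : p ∈ fw δ D (δ s a)
    · right; left; exact h1
    by_cases h2 : p ∈ fw δ D r
    · right; right; exact h2
    left
    rw [lev_upd h1 h2] at hp
    exact hp
  unfold nt
  refine (card_le_card hsub).trans ((card_union_le _ _).trans ?_)
  gcongr
  refine (card_union_le _ _).trans ?_
  have g3 := card_fw δ D (δ s a)
  have g4 := card_fw δ D r
  omega

end errors

section main

variable (D : ℕ) {j : ℕ} (ℓ : Fin j → A × Multiset (List A)) (x : A × Multiset (List A))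

open Classical in
/-- the quantity whose second moment is small -/
noncomputable def hh (δ : Q → A → Q) : ℝ :=
  ((YQ δ D ℓ).card : ℝ) * ((Rm δ D x).card : ℝ) - (Fintype.card Q : ℝ) *
    ((YQ δ D (Fin.snoc ℓ x : Fin (j + 1) → A × Multiset (List A))).card : ℝ)

/-- constant in the Lipschitz bound for `YQ` -/
def LY (k D j : ℕ) : ℝ := (2 + 2 * Wc k D * k) * j ^ j

lemma LY_nonneg (k D j : ℕ) : 0 ≤ LY k D j := by
  unfold LY; positivity

lemma abs_YQ_upd (δ : Q → A → Q) (s : Q) (a : A) (r : Q) :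
    |((YQ (upd δ s a r) D ℓ).card : ℝ) - ((YQ δ D ℓ).card : ℝ)| ≤ LY (Fintype.card A) D j := by
  classical
  have h1 := card_YQ_upd δ D ℓ s a r
  have h2 := card_YQ_upd (upd δ s a r) D ℓ s a (δ s a)
  rw [upd_upd] at h2
  have h1' : ((YQ (upd δ s a r) D ℓ).card : ℝ) ≤ (YQ δ D ℓ).card + LY (Fintype.card A) D j := by
    unfold LY; exact_mod_cast h1
  have h2' : ((YQ δ D ℓ).card : ℝ) ≤ (YQ (upd δ s a r) D ℓ).card + LY (Fintype.card A) D j := by
    unfold LY; exact_mod_cast h2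
  rw [abs_le]
  constructor <;> linarith

lemma abs_nt_upd (δ : Q → A → Q) (τ : Multiset (List A)) (s : Q) (a : A) (r : Q) :
    |((nt (upd δ s a r) D τ : ℕ) : ℝ) - (nt δ D τ : ℕ)| ≤ 2 * Wc (Fintype.card A) D := by
  classical
  have h1 := nt_upd δ D τ s a r
  have h2 := nt_upd (upd δ s a r) D τ s a (δ s a)
  rw [upd_upd] at h2
  have h1' : ((nt (upd δ s a r) D τ : ℕ) : ℝ) ≤ (nt δ D τ : ℕ) + 2 * Wc (Fintype.card A) D := by
    exact_mod_cast h1
  have h2' : ((nt δ D τ : ℕ) : ℝ) ≤ (nt (upd δ s a r) D τ : ℕ) + 2 * Wc (Fintype.card A) D := by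
    exact_mod_cast h2
  rw [abs_le]
  constructor <;> linarith

lemma Rm_eq (δ : Q → A → Q) : ((Rm δ D x).card : ℝ) = (nt δ D x.2 : ℕ) - (YQ δ D ![x]).card := by
  have := card_Rm δ D x
  have h : ((Rm δ D x).card : ℝ) + (YQ δ D ![x]).card = (nt δ D x.2 : ℕ) := by exact_mod_cast this
  linarith

lemma abs_Rm_upd (δ : Q → A → Q) (s : Q) (a : A) (r : Q) :
    |((Rm (upd δ s a r) D x).card : ℝ) - ((Rm δ D x).card : ℝ)| ≤
      2 * Wc (Fintype.card A) D + LY (Fintype.card A) D 1 := by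
  rw [Rm_eq, Rm_eq]
  have h1 := abs_nt_upd D δ x.2 s a r
  have h2 := abs_YQ_upd D (![x] : Fin 1 → A × Multiset (List A)) δ s a r
  rw [abs_le] at h1 h2 ⊢
  constructor <;> linarith [h1.1, h1.2, h2.1, h2.2]

/-- Lipschitz constant for `hh` -/
noncomputable def LH (k D j : ℕ) : ℝ :=
  LY k D j + j ^ j * (2 * Wc k D + LY k D 1) + LY k D (j + 1)

lemma abs_hh_upd (δ : Q → A → Q) (s : Q) (a : A) (r : Q) :
    |hh D ℓ x (upd δ s a r) - hh D ℓ x δ| ≤ Fintype.card Q * LH (Fintype.card A) D j := by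
  classical
  set N : ℝ := (Fintype.card Q : ℝ) with hN
  have hN0 : 0 ≤ N := by positivity
  set δ' := upd δ s a r
  have h1 := abs_YQ_upd D ℓ δ s a r
  have h2 := abs_YQ_upd D (Fin.snoc ℓ x : Fin (j + 1) → A × Multiset (List A)) δ s a r
  have h3 := abs_Rm_upd D x δ s a r
  have h4 : ((Rm δ' D x).card : ℝ) ≤ N := by
    rw [hN]; exact_mod_cast card_le_univ _
  have h5 : ((YQ δ D ℓ).card : ℝ) ≤ N * j ^ j := by
    rw [hN]; exact_mod_cast card_YQ δ D ℓ
  have e : hh D ℓ x δ' - hh D ℓ x δ =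
      (((YQ δ' D ℓ).card : ℝ) - ((YQ δ D ℓ).card : ℝ)) * ((Rm δ' D x).card : ℝ) +
      ((YQ δ D ℓ).card : ℝ) * (((Rm δ' D x).card : ℝ) - ((Rm δ D x).card : ℝ)) -
      N * (((YQ δ' D (Fin.snoc ℓ x : Fin (j + 1) → A × Multiset (List A))).card : ℝ) -
        ((YQ δ D (Fin.snoc ℓ x : Fin (j + 1) → A × Multiset (List A))).card : ℝ)) := by
    unfold hh; ring
  rw [e]
  have g1 : |(((YQ δ' D ℓ).card : ℝ) - ((YQ δ D ℓ).card : ℝ)) * ((Rm δ' D x).card : ℝ)| ≤
      LY (Fintype.card A) D j * N := by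
    rw [abs_mul, abs_of_nonneg (by positivity : (0 : ℝ) ≤ ((Rm δ' D x).card : ℝ))]
    exact mul_le_mul h1 h4 (by positivity) (LY_nonneg _ _ _)
  have g2 : |((YQ δ D ℓ).card : ℝ) * (((Rm δ' D x).card : ℝ) - ((Rm δ D x).card : ℝ))| ≤
      N * j ^ j * (2 * Wc (Fintype.card A) D + LY (Fintype.card A) D 1) := by
    rw [abs_mul, abs_of_nonneg (by positivity : (0 : ℝ) ≤ ((YQ δ D ℓ).card : ℝ))]
    exact mul_le_mul h5 h3 (abs_nonneg _) (by positivity)
  have g3 : |N * (((YQ δ' D (Fin.snoc ℓ x : Fin (j + 1) → A × Multiset (List A))).card : ℝ) -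
        ((YQ δ D (Fin.snoc ℓ x : Fin (j + 1) → A × Multiset (List A))).card : ℝ))| ≤
      N * LY (Fintype.card A) D (j + 1) := by
    rw [abs_mul, abs_of_nonneg hN0]
    exact mul_le_mul_of_nonneg_left h2 hN0
  have g4 := abs_sub (((((YQ δ' D ℓ).card : ℝ) - ((YQ δ D ℓ).card : ℝ)) * ((Rm δ' D x).card : ℝ) +
      ((YQ δ D ℓ).card : ℝ) * (((Rm δ' D x).card : ℝ) - ((Rm δ D x).card : ℝ))))
      (N * (((YQ δ' D (Fin.snoc ℓ x : Fin (j + 1) → A × Multiset (List A))).card : ℝ) -
        ((YQ δ D (Fin.snoc ℓ x : Fin (j + 1) → A × Multiset (List A))).card : ℝ)))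
  have g5 := abs_add_le ((((YQ δ' D ℓ).card : ℝ) - ((YQ δ D ℓ).card : ℝ)) *
      ((Rm δ' D x).card : ℝ))
      (((YQ δ D ℓ).card : ℝ) * (((Rm δ' D x).card : ℝ) - ((Rm δ D x).card : ℝ)))
  have g6 : N * LH (Fintype.card A) D j = LY (Fintype.card A) D j * N +
      N * j ^ j * (2 * Wc (Fintype.card A) D + LY (Fintype.card A) D 1) +
      N * LY (Fintype.card A) D (j + 1) := by
    unfold LH; ring
  rw [g6]
  linarith

lemma abs_hh (δ : Q → A → Q) : |hh D ℓ x δ| ≤
    (Fintype.card Q : ℝ) ^ 2 * (j ^ j + (j + 1 : ℕ) ^ (j + 1)) := by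
  classical
  set N : ℝ := (Fintype.card Q : ℝ) with hN
  have hN0 : 0 ≤ N := by positivity
  have h4 : ((Rm δ D x).card : ℝ) ≤ N := by
    rw [hN]; exact_mod_cast card_le_univ _
  have h5 : ((YQ δ D ℓ).card : ℝ) ≤ N * j ^ j := by
    rw [hN]; exact_mod_cast card_YQ δ D ℓ
  have h6 : ((YQ δ D (Fin.snoc ℓ x : Fin (j + 1) → A × Multiset (List A))).card : ℝ) ≤
      N * (j + 1 : ℕ) ^ (j + 1) := by
    rw [hN]
    exact_mod_cast card_YQ δ D (Fin.snoc ℓ x : Fin (j + 1) → A × Multiset (List A))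
  have h7 : ((YQ δ D ℓ).card : ℝ) * ((Rm δ D x).card : ℝ) ≤ N * j ^ j * N :=
    mul_le_mul h5 h4 (by positivity) (by positivity)
  have h8 : N * ((YQ δ D (Fin.snoc ℓ x : Fin (j + 1) → A × Multiset (List A))).card : ℝ) ≤
      N * (N * (j + 1 : ℕ) ^ (j + 1)) := mul_le_mul_of_nonneg_left h6 hN0
  have h9 : 0 ≤ ((YQ δ D ℓ).card : ℝ) * ((Rm δ D x).card : ℝ) := by positivity
  have h10 : 0 ≤ N * ((YQ δ D (Fin.snoc ℓ x : Fin (j + 1) → A × Multiset (List A))).card : ℝ) := by
    positivity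
  have h11 : 0 ≤ N * j ^ j * N := by positivity
  have h12 : 0 ≤ N * (N * (j + 1 : ℕ) ^ (j + 1)) := by positivity
  rw [abs_le]
  unfold hh
  rw [← hN]
  have he : N ^ 2 * ((j : ℝ) ^ j + ((j + 1 : ℕ) : ℝ) ^ (j + 1)) =
      N * (j : ℝ) ^ j * N + N * (N * ((j + 1 : ℕ) : ℝ) ^ (j + 1)) := by ring
  rw [he]
  constructor
  · linarith
  · linarith

/-- second moment of the switching discrepancy -/
theorem sum_hh_sq (A : Type u) [Fintype A] (D : ℕ) {j : ℕ} (hj : 0 < j)
    (ℓ : Fin j → A × Multiset (List A)) (x : A × Multiset (List A)) :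
    ∃ C : ℝ, 0 ≤ C ∧ ∀ (Q : Type v) [Fintype Q] (q₀ : Q),
      ∑ δ ∈ Sur A q₀, (hh D ℓ x δ) ^ 2 ≤ C * (Sur A q₀).card * (Fintype.card Q : ℝ) ^ 3 := by
  classical
  obtain ⟨C5, hC5⟩ := sum_cyc.{u, v} A D
  set k := Fintype.card A with hk
  set J : ℝ := (j : ℝ) ^ j with hJ
  set J1 : ℝ := ((j + 1 : ℕ) : ℝ) ^ (j + 1) with hJ1
  set L : ℝ := LH k D j with hL
  set E1 : ℝ := J * (3 + Wc k (D + 1) + Wc k D) with hE1
  set E2 : ℝ := J1 * (1 + Wc k (D + 1)) with hE2
  have hJ0 : 0 ≤ J := by positivity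
  have hJ10 : 0 ≤ J1 := by positivity
  have hL0 : 0 ≤ L := by
    rw [hL]; unfold LH
    have := LY_nonneg k D j
    have := LY_nonneg k D 1
    have := LY_nonneg k D (j + 1)
    positivity
  have hE10 : 0 ≤ E1 := by positivity
  have hE20 : 0 ≤ E2 := by positivity
  refine ⟨J1 * L + (J + J1) * (E1 + E2) * (1 + C5), by positivity, ?_⟩
  intro Q _ q₀
  set N : ℝ := (Fintype.card Q : ℝ) with hN
  have hN0 : 0 ≤ N := by positivity
  -- decomposition of the errors
  have key : ∀ δ ∈ Sur A q₀, (hh D ℓ x δ) ^ 2 ≤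
      hh D ℓ x δ * ((PP q₀ D ℓ x δ).card : ℝ) - hh D ℓ x δ * ((RR q₀ D ℓ x δ).card : ℝ) +
        N ^ 2 * (J + J1) * (N * (E1 + E2) * (1 + ((cyc δ D).card : ℝ))) := by
    intro δ hδ
    have a1 := card_PP_le (q₀ := q₀) (D := D) (ℓ := ℓ) (x := x) (δ := δ)
    have a2 := card_mul_Rm_le (D := D) (ℓ := ℓ) (x := x) hδ
    have a3 := card_RR_le (q₀ := q₀) (D := D) (ℓ := ℓ) (x := x) (δ := δ)
    have a4 := card_mul_le_RR (D := D) (ℓ := ℓ) (x := x) hδ hj
    have a5 := card_YQ δ D ℓ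
    have b1 : ((PP q₀ D ℓ x δ).card : ℝ) ≤ (YQ δ D ℓ).card * ((Rm δ D x).card + 1) := by
      exact_mod_cast a1
    have b2 : ((YQ δ D ℓ).card : ℝ) * (Rm δ D x).card ≤ (PP q₀ D ℓ x δ).card +
        N * (Wc k (D + 1) * J) + (cyc δ D).card * J * N + N * J * (cyc δ D).card +
        N * J * Wc k D := by
      rw [hN, hJ]; exact_mod_cast a2
    have b3 : ((RR q₀ D ℓ x δ).card : ℝ) ≤
        (YQ δ D (Fin.snoc ℓ x : Fin (j + 1) → A × Multiset (List A))).card * N := by
      rw [hN]; exact_mod_cast a3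
    have b4 : ((YQ δ D (Fin.snoc ℓ x : Fin (j + 1) → A × Multiset (List A))).card : ℝ) * N ≤
        (RR q₀ D ℓ x δ).card + (cyc δ D).card * J1 * N + N * (Wc k (D + 1) * J1) := by
      rw [hN, hJ1]; exact_mod_cast a4
    have b5 : ((YQ δ D ℓ).card : ℝ) ≤ N * J := by
      rw [hN, hJ]; exact_mod_cast a5
    have b6 := abs_hh D ℓ x δ
    set h := hh D ℓ x δ with hh'
    set c : ℝ := ((cyc δ D).card : ℝ) with hc
    have hc0 : 0 ≤ c := by positivity
    have b7 : h = ((YQ δ D ℓ).card : ℝ) * ((Rm δ D x).card : ℝ) - N *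
        ((YQ δ D (Fin.snoc ℓ x : Fin (j + 1) → A × Multiset (List A))).card : ℝ) := rfl
    set e1 : ℝ := ((YQ δ D ℓ).card : ℝ) * ((Rm δ D x).card : ℝ) - (PP q₀ D ℓ x δ).card with he1
    set e2 : ℝ := N * ((YQ δ D (Fin.snoc ℓ x : Fin (j + 1) → A × Multiset (List A))).card : ℝ) -
      (RR q₀ D ℓ x δ).card with he2
    have c1 : |e1| ≤ N * E1 * (1 + c) := by
      rw [abs_le]
      have w1 : (0 : ℝ) ≤ Wc k (D + 1) := by positivity
      have w2 : (0 : ℝ) ≤ Wc k D := by positivity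
      have t1 : N * J ≤ N * E1 * (1 + c) := by
        have : J ≤ E1 := by rw [hE1]; exact le_mul_of_one_le_right hJ0 (by linarith)
        have h3 : N * J ≤ N * E1 := mul_le_mul_of_nonneg_left this hN0
        exact h3.trans (le_mul_of_one_le_right (mul_nonneg hN0 hE10) (by linarith))
      have t2 : N * (Wc k (D + 1) * J) + c * J * N + N * J * c + N * J * Wc k D ≤
          N * E1 * (1 + c) := by
        have : N * E1 * (1 + c) - (N * (Wc k (D + 1) * J) + c * J * N + N * J * c +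
            N * J * Wc k D) = N * J * (3 + c + (Wc k (D + 1) + Wc k D) * c) := by
          rw [hE1]; ring
        have h4 : 0 ≤ N * J * (3 + c + (Wc k (D + 1) + Wc k D) * c) := by positivity
        linarith
      constructor
      · rw [he1]; linarith
      · rw [he1]; linarith
    have c2 : |e2| ≤ N * E2 * (1 + c) := by
      rw [abs_le]
      have w1 : (0 : ℝ) ≤ Wc k (D + 1) := by positivity
      have t2 : c * J1 * N + N * (Wc k (D + 1) * J1) ≤ N * E2 * (1 + c) := by
        have : N * E2 * (1 + c) - (c * J1 * N + N * (Wc k (D + 1) * J1)) =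
            N * J1 * (1 + Wc k (D + 1) * c) := by
          rw [hE2]; ring
        have h4 : 0 ≤ N * J1 * (1 + Wc k (D + 1) * c) := by positivity
        linarith
      have t3 : 0 ≤ N * E2 * (1 + c) := by positivity
      constructor
      · rw [he2]; linarith
      · rw [he2]; linarith
    have c3 : h = ((PP q₀ D ℓ x δ).card : ℝ) - (RR q₀ D ℓ x δ).card + (e1 - e2) := by
      rw [b7, he1, he2]; ring
    have c4 : h * (e1 - e2) ≤ N ^ 2 * (J + J1) * (N * (E1 + E2) * (1 + c)) := by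
      calc h * (e1 - e2) ≤ |h * (e1 - e2)| := le_abs_self _
        _ = |h| * |e1 - e2| := abs_mul _ _
        _ ≤ (N ^ 2 * (J + J1)) * (N * (E1 + E2) * (1 + c)) := by
            apply mul_le_mul b6 _ (abs_nonneg _) (by positivity)
            have h20 := abs_sub e1 e2
            have h21 : N * (E1 + E2) * (1 + c) = N * E1 * (1 + c) + N * E2 * (1 + c) := by ring
            rw [h21]
            linarith
    calc h ^ 2 = h * h := by ring
      _ = h * (((PP q₀ D ℓ x δ).card : ℝ) - (RR q₀ D ℓ x δ).card + (e1 - e2)) := by rw [← c3]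
      _ = h * ((PP q₀ D ℓ x δ).card : ℝ) - h * ((RR q₀ D ℓ x δ).card : ℝ) + h * (e1 - e2) := by
          ring
      _ ≤ _ := by linarith
  -- the switching identity
  have hsw : ∑ δ ∈ Sur A q₀, ((PP q₀ D ℓ x δ).card : ℝ) * hh D ℓ x δ ≤
      ∑ δ ∈ Sur A q₀, (hh D ℓ x δ * ((RR q₀ D ℓ x δ).card : ℝ) + N ^ 3 * (J1 * L)) := by
    rw [sum_PP_eq]
    apply sum_le_sum
    intro δ _
    have h1 : ∑ z ∈ RR q₀ D ℓ x δ, hh D ℓ x (upd δ (z.1.2 (Fin.last j)).1 x.1 z.2) ≤
        ∑ z ∈ RR q₀ D ℓ x δ, (hh D ℓ x δ + N * L) := by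
      apply sum_le_sum
      intro z _
      have := (abs_le.1 (abs_hh_upd D ℓ x δ (z.1.2 (Fin.last j)).1 x.1 z.2)).2
      linarith
    refine h1.trans ?_
    rw [sum_const, nsmul_eq_mul]
    have a3 := card_RR_le (q₀ := q₀) (D := D) (ℓ := ℓ) (x := x) (δ := δ)
    have a4 := card_YQ δ D (Fin.snoc ℓ x : Fin (j + 1) → A × Multiset (List A))
    have b3 : ((RR q₀ D ℓ x δ).card : ℝ) ≤
        (YQ δ D (Fin.snoc ℓ x : Fin (j + 1) → A × Multiset (List A))).card * N := by
      rw [hN]; exact_mod_cast a3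
    have b4 : ((YQ δ D (Fin.snoc ℓ x : Fin (j + 1) → A × Multiset (List A))).card : ℝ) ≤
        N * J1 := by
      rw [hN, hJ1]; exact_mod_cast a4
    have b5 : ((RR q₀ D ℓ x δ).card : ℝ) ≤ N * J1 * N :=
      b3.trans (mul_le_mul_of_nonneg_right b4 hN0)
    have b6 : ((RR q₀ D ℓ x δ).card : ℝ) * (N * L) ≤ N * J1 * N * (N * L) :=
      mul_le_mul_of_nonneg_right b5 (by positivity)
    have e1 : ((RR q₀ D ℓ x δ).card : ℝ) * (hh D ℓ x δ + N * L) =
        hh D ℓ x δ * ((RR q₀ D ℓ x δ).card : ℝ) + ((RR q₀ D ℓ x δ).card : ℝ) * (N * L) := by ring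
    have e2 : N ^ 3 * (J1 * L) = N * J1 * N * (N * L) := by ring
    rw [e1, e2]
    linarith
  have hcy : ∑ δ ∈ Sur A q₀, ((cyc δ D).card : ℝ) ≤ C5 * (Sur A q₀).card := by
    have := hC5 Q q₀
    exact_mod_cast this
  calc ∑ δ ∈ Sur A q₀, (hh D ℓ x δ) ^ 2
      ≤ ∑ δ ∈ Sur A q₀, (hh D ℓ x δ * ((PP q₀ D ℓ x δ).card : ℝ) -
          hh D ℓ x δ * ((RR q₀ D ℓ x δ).card : ℝ) +
        N ^ 2 * (J + J1) * (N * (E1 + E2) * (1 + ((cyc δ D).card : ℝ)))) := sum_le_sum key
    _ = ∑ δ ∈ Sur A q₀, ((PP q₀ D ℓ x δ).card : ℝ) * hh D ℓ x δ -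
          ∑ δ ∈ Sur A q₀, hh D ℓ x δ * ((RR q₀ D ℓ x δ).card : ℝ) +
          N ^ 3 * ((J + J1) * (E1 + E2)) * ((Sur A q₀).card +
            ∑ δ ∈ Sur A q₀, ((cyc δ D).card : ℝ)) := by
        rw [sum_add_distrib, sum_sub_distrib]
        congr 1
        · congr 1
          apply sum_congr rfl
          intro δ _
          ring
        · have : ∀ δ ∈ Sur A q₀, N ^ 2 * (J + J1) * (N * (E1 + E2) * (1 + ((cyc δ D).card : ℝ))) =
              N ^ 3 * ((J + J1) * (E1 + E2)) * (1 + ((cyc δ D).card : ℝ)) := by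
            intro δ _; ring
          rw [sum_congr rfl this, ← mul_sum, sum_add_distrib]
          simp
    _ ≤ (Sur A q₀).card * (N ^ 3 * (J1 * L)) +
          N ^ 3 * ((J + J1) * (E1 + E2)) * ((Sur A q₀).card + C5 * (Sur A q₀).card) := by
        rw [sum_add_distrib, sum_const, nsmul_eq_mul] at hsw
        have h3 : N ^ 3 * ((J + J1) * (E1 + E2)) * ((Sur A q₀).card +
            ∑ δ ∈ Sur A q₀, ((cyc δ D).card : ℝ)) ≤
            N ^ 3 * ((J + J1) * (E1 + E2)) * ((Sur A q₀).card + C5 * (Sur A q₀).card) := by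
          apply mul_le_mul_of_nonneg_left _ (by positivity)
          linarith
        linarith
    _ = _ := by ring

end main

end generic

section limit

variable (A : Type u) [Fintype A] [Nonempty A]

lemma Sur_nonempty {Q : Type v} [Fintype Q] (q₀ : Q) : (Sur A q₀).Nonempty := by
  classical
  exact ⟨fun q _ => q, mem_Sur.2 fun p _ => ⟨p, Classical.arbitrary A, rfl⟩⟩

lemma Yn_eq {n : ℕ} (δ : Fin (n + 1) → A → Fin (n + 1)) (D : ℕ) {j : ℕ}
    (ℓ : Fin j → A × Multiset (List A)) : Yn δ D ℓ = (YQ δ D ℓ).card := by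
  classical
  unfold Yn
  congr 1
  ext y
  rw [mem_filter, mem_YQ]
  simp

theorem switch_relation (hk : 2 ≤ Fintype.card A) (D : ℕ) {j : ℕ} (hj : 0 < j)
    (ℓ : Fin j → A × Multiset (List A)) (x : A × Multiset (List A)) :
    Filter.Tendsto (fun n : ℕ => ES A n fun δ =>
      |(Yn δ D (Fin.snoc ℓ x : Fin (j + 1) → A × Multiset (List A)) : ℝ) / (n + 1) -
        (Yn δ D ℓ : ℝ) / (n + 1) * (fr δ D x.2 - (Yn δ D ![x] : ℝ) / (n + 1))|)
      Filter.atTop (𝓝 0) := by
  classical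
  obtain ⟨C, hC0, hC⟩ := sum_hh_sq.{u, 0} A D hj ℓ x
  have hbound : ∀ n : ℕ, ES A n (fun δ =>
      |(Yn δ D (Fin.snoc ℓ x : Fin (j + 1) → A × Multiset (List A)) : ℝ) / (n + 1) -
        (Yn δ D ℓ : ℝ) / (n + 1) * (fr δ D x.2 - (Yn δ D ![x] : ℝ) / (n + 1))|) ≤
      (C + 1) / 2 * (1 / Real.sqrt ((n : ℝ) + 1)) := by
    intro n
    set N : ℝ := (n : ℝ) + 1 with hN
    have hN0 : 0 < N := by positivity
    set lam : ℝ := Real.sqrt N with hlam
    have hlam0 : 0 < lam := Real.sqrt_pos.2 hN0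
    have hlam2 : lam * lam = N := Real.mul_self_sqrt hN0.le
    have hS : 0 < ((Sur A (0 : Fin (n + 1))).card : ℝ) := by
      exact_mod_cast card_pos.2 (Sur_nonempty A _)
    have hcard : ((Fintype.card (Fin (n + 1)) : ℕ) : ℝ) = N := by simp [hN]
    have h1 : ∀ δ : Fin (n + 1) → A → Fin (n + 1),
        |(Yn δ D (Fin.snoc ℓ x : Fin (j + 1) → A × Multiset (List A)) : ℝ) / (n + 1) -
        (Yn δ D ℓ : ℝ) / (n + 1) * (fr δ D x.2 - (Yn δ D ![x] : ℝ) / (n + 1))| =
        |hh D ℓ x δ| / N ^ 2 := by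
      intro δ
      have e1 : fr δ D x.2 = (nt δ D x.2 : ℕ) / N := by
        rw [hN]
        unfold fr nt
        congr
      rw [Yn_eq, Yn_eq, Yn_eq, e1, ← hN]
      have e2 : ((YQ δ D (Fin.snoc ℓ x : Fin (j + 1) → A × Multiset (List A))).card : ℝ) / N -
          ((YQ δ D ℓ).card : ℝ) / N * ((nt δ D x.2 : ℕ) / N - ((YQ δ D ![x]).card : ℝ) / N) =
          -(hh D ℓ x δ) / N ^ 2 := by
        unfold hh
        rw [hcard, Rm_eq]
        field_simp
        ring
      rw [e2, abs_div, abs_neg, abs_of_pos (by positivity : 0 < N ^ 2)]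
    have h2 : ∀ δ : Fin (n + 1) → A → Fin (n + 1), |hh D ℓ x δ| / N ^ 2 ≤
        (hh D ℓ x δ) ^ 2 * (lam / (2 * N ^ 4)) + 1 / (2 * lam) := by
      intro δ
      have h3 : 0 ≤ (|hh D ℓ x δ| / N ^ 2 * lam - 1) ^ 2 := sq_nonneg _
      have h4 : |hh D ℓ x δ| ^ 2 = (hh D ℓ x δ) ^ 2 := sq_abs _
      have h5 : (hh D ℓ x δ) ^ 2 * (lam / (2 * N ^ 4)) + 1 / (2 * lam) - |hh D ℓ x δ| / N ^ 2 =
          (|hh D ℓ x δ| / N ^ 2 * lam - 1) ^ 2 / (2 * lam) := by
        rw [← h4]
        field_simp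
        ring
      have h6 : 0 ≤ (|hh D ℓ x δ| / N ^ 2 * lam - 1) ^ 2 / (2 * lam) := by positivity
      linarith
    unfold ES
    rw [div_le_iff₀ hS]
    calc ∑ δ ∈ Sur A (0 : Fin (n + 1)),
          |(Yn δ D (Fin.snoc ℓ x : Fin (j + 1) → A × Multiset (List A)) : ℝ) / (n + 1) -
          (Yn δ D ℓ : ℝ) / (n + 1) * (fr δ D x.2 - (Yn δ D ![x] : ℝ) / (n + 1))|
        ≤ ∑ δ ∈ Sur A (0 : Fin (n + 1)), ((hh D ℓ x δ) ^ 2 * (lam / (2 * N ^ 4)) +
            1 / (2 * lam)) := by
          apply sum_le_sum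
          intro δ _
          rw [h1]
          exact h2 δ
      _ = (∑ δ ∈ Sur A (0 : Fin (n + 1)), (hh D ℓ x δ) ^ 2) * (lam / (2 * N ^ 4)) +
            (Sur A (0 : Fin (n + 1))).card * (1 / (2 * lam)) := by
          rw [sum_add_distrib, sum_mul, sum_const, nsmul_eq_mul]
      _ ≤ (C * (Sur A (0 : Fin (n + 1))).card * N ^ 3) * (lam / (2 * N ^ 4)) +
            (Sur A (0 : Fin (n + 1))).card * (1 / (2 * lam)) := by
          have h3 := hC (Fin (n + 1)) 0
          rw [hcard] at h3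
          gcongr
      _ = (C + 1) / 2 * (1 / lam) * (Sur A (0 : Fin (n + 1))).card := by
          have h7 : lam / (2 * N ^ 4) = 1 / (2 * N ^ 3 * lam) := by
            rw [div_eq_div_iff (by positivity) (by positivity)]
            calc lam * (2 * N ^ 3 * lam) = 2 * N ^ 3 * (lam * lam) := by ring
              _ = 1 * (2 * N ^ 4) := by rw [hlam2]; ring
          rw [h7]
          field_simp
  have hlim : Filter.Tendsto (fun n : ℕ => (C + 1) / 2 * (1 / Real.sqrt ((n : ℝ) + 1)))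
      Filter.atTop (𝓝 0) := by
    have h1 : Filter.Tendsto (fun n : ℕ => Real.sqrt ((n : ℝ) + 1)) Filter.atTop
        Filter.atTop := by
      apply Real.tendsto_sqrt_atTop.comp
      exact Filter.tendsto_atTop_add_const_right _ _ tendsto_natCast_atTop_atTop
    have h2 : Filter.Tendsto (fun n : ℕ => 1 / Real.sqrt ((n : ℝ) + 1)) Filter.atTop (𝓝 0) := by
      refine h1.inv_tendsto_atTop.congr fun n => ?_
      simp
    simpa using h2.const_mul ((C + 1) / 2)
  refine squeeze_zero ?_ hbound hlim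
  intro n
  unfold ES
  apply div_nonneg _ (by positivity)
  apply sum_nonneg
  intro δ _
  exact abs_nonneg _

end limit

end Pool.Agent.SC.Sw

namespace Pool.Agent.SC

open scoped Topology

universe u

theorem switch_relation (A : Type u) [Fintype A] [Nonempty A] (hk : 2 ≤ Fintype.card A) (D : ℕ)
    {j : ℕ} (hj : 0 < j) (ℓ : Fin j → A × Multiset (List A)) (x : A × Multiset (List A)) :
    Filter.Tendsto (fun n : ℕ => ES A n fun δ =>
      |(Yn δ D (Fin.snoc ℓ x : Fin (j + 1) → A × Multiset (List A)) : ℝ) / (n + 1) -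
        (Yn δ D ℓ : ℝ) / (n + 1) * (fr δ D x.2 - (Yn δ D ![x] : ℝ) / (n + 1))|)
      Filter.atTop (𝓝 0) :=
  Sw.switch_relation A hk D hj ℓ x

end Pool.Agent.SC
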