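import Mathlib
import Pool.Agent.W_MP_6663ab_lc.SDefs
import Pool.Agent.W_MP_6663ab_lc.SSwitch

/-!
# The local law from the switching relation
-/

namespace Pool.Agent.SC

open Finset Filter
open scoped ENNReal Topology

set_option linter.unusedSectionVars false

universe u

namespace LocalLaw

section ESapi

variable (A : Type u) [Fintype A] [Nonempty A]

theorem Sur_nonempty (n : ℕ) : (Sur A (0 : Fin (n + 1))).Nonempty := by
  classical
  refine ⟨fun p _ => p, ?_⟩
  simp only [Sur, mem_filter, mem_univ, true_and]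
  intro p _
  exact ⟨p, Classical.arbitrary A, rfl⟩

theorem Sur_card_pos (n : ℕ) : (0 : ℝ) < ((Sur A (0 : Fin (n + 1))).card : ℝ) := by
  exact_mod_cast (Sur_nonempty A n).card_pos

variable {A}

theorem ES_mono {n : ℕ} {f g : (Fin (n + 1) → A → Fin (n + 1)) → ℝ}
    (h : ∀ δ ∈ Sur A (0 : Fin (n + 1)), f δ ≤ g δ) : ES A n f ≤ ES A n g := by
  unfold ES
  gcongr with δ hδ
  exact h δ hδ

theorem ES_congr {n : ℕ} {f g : (Fin (n + 1) → A → Fin (n + 1)) → ℝ}
    (h : ∀ δ ∈ Sur A (0 : Fin (n + 1)), f δ = g δ) : ES A n f = ES A n g := by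
  unfold ES
  rw [Finset.sum_congr rfl h]

theorem ES_const (n : ℕ) (c : ℝ) : ES A n (fun _ => c) = c := by
  unfold ES
  rw [Finset.sum_const, nsmul_eq_mul, mul_div_assoc, mul_comm, div_mul_cancel₀]
  exact (Sur_card_pos A n).ne'

theorem ES_add {n : ℕ} (f g : (Fin (n + 1) → A → Fin (n + 1)) → ℝ) :
    ES A n (fun δ => f δ + g δ) = ES A n f + ES A n g := by
  unfold ES
  rw [Finset.sum_add_distrib, add_div]

theorem ES_sub {n : ℕ} (f g : (Fin (n + 1) → A → Fin (n + 1)) → ℝ) :
    ES A n (fun δ => f δ - g δ) = ES A n f - ES A n g := by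
  unfold ES
  rw [Finset.sum_sub_distrib, sub_div]

theorem ES_const_mul {n : ℕ} (c : ℝ) (f : (Fin (n + 1) → A → Fin (n + 1)) → ℝ) :
    ES A n (fun δ => c * f δ) = c * ES A n f := by
  unfold ES
  rw [← Finset.mul_sum, mul_div_assoc]

theorem ES_sum {n : ℕ} {ι : Type*} (s : Finset ι) (f : ι → (Fin (n + 1) → A → Fin (n + 1)) → ℝ) :
    ES A n (fun δ => ∑ i ∈ s, f i δ) = ∑ i ∈ s, ES A n (f i) := by
  unfold ES
  rw [Finset.sum_comm, Finset.sum_div]

theorem ES_nonneg {n : ℕ} {f : (Fin (n + 1) → A → Fin (n + 1)) → ℝ}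
    (h : ∀ δ ∈ Sur A (0 : Fin (n + 1)), 0 ≤ f δ) : 0 ≤ ES A n f := by
  unfold ES
  exact div_nonneg (Finset.sum_nonneg h) (Nat.cast_nonneg _)

variable (A)

/-- convergence of the difference to zero in mean -/
def Sim (f g : ∀ n : ℕ, (Fin (n + 1) → A → Fin (n + 1)) → ℝ) : Prop :=
  Tendsto (fun n : ℕ => ES A n fun δ => |f n δ - g n δ|) atTop (𝓝 0)

variable {A}

/-- domination principle -/
theorem tendsto_of_le {F : ℕ → ℝ} (h0 : ∀ n, 0 ≤ F n)
    (h : ∀ ε > 0, ∀ᶠ n in atTop, F n ≤ ε) : Tendsto F atTop (𝓝 0) := by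
  rw [Metric.tendsto_atTop]
  intro ε hε
  obtain ⟨N, hN⟩ := eventually_atTop.1 (h (ε / 2) (by linarith))
  refine ⟨N, fun n hn => ?_⟩
  rw [Real.dist_eq, sub_zero, abs_of_nonneg (h0 n)]
  linarith [hN n hn]

theorem tendsto_ES_of_le {F G : ∀ n : ℕ, (Fin (n + 1) → A → Fin (n + 1)) → ℝ}
    (h0 : ∀ n, ∀ δ ∈ Sur A (0 : Fin (n + 1)), 0 ≤ F n δ)
    (hle : ∀ n, ∀ δ ∈ Sur A (0 : Fin (n + 1)), F n δ ≤ G n δ)
    (hG : Tendsto (fun n : ℕ => ES A n (G n)) atTop (𝓝 0)) :
    Tendsto (fun n : ℕ => ES A n (F n)) atTop (𝓝 0) :=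
  squeeze_zero (fun n => ES_nonneg (h0 n)) (fun n => ES_mono (hle n)) hG

theorem Sim.of_eq {f g : ∀ n : ℕ, (Fin (n + 1) → A → Fin (n + 1)) → ℝ}
    (h : ∀ n, ∀ δ ∈ Sur A (0 : Fin (n + 1)), f n δ = g n δ) : Sim A f g := by
  unfold Sim
  have : ∀ n, ES A n (fun δ => |f n δ - g n δ|) = 0 := by
    intro n
    rw [ES_congr (g := fun _ => (0 : ℝ)) (fun δ hδ => by rw [h n δ hδ, sub_self, abs_zero]),
      ES_const]
  simp only [this]
  exact tendsto_const_nhds

theorem Sim.refl (f : ∀ n : ℕ, (Fin (n + 1) → A → Fin (n + 1)) → ℝ) : Sim A f f :=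
  Sim.of_eq fun _ _ _ => rfl

theorem Sim.symm {f g : ∀ n : ℕ, (Fin (n + 1) → A → Fin (n + 1)) → ℝ} (h : Sim A f g) :
    Sim A g f := by
  unfold Sim at *
  refine h.congr fun n => ?_
  exact ES_congr fun δ _ => abs_sub_comm _ _

theorem Sim.trans {f g k : ∀ n : ℕ, (Fin (n + 1) → A → Fin (n + 1)) → ℝ} (h1 : Sim A f g)
    (h2 : Sim A g k) : Sim A f k := by
  unfold Sim at *
  refine tendsto_ES_of_le (G := fun n δ => |f n δ - g n δ| + |g n δ - k n δ|)
    (fun n δ _ => abs_nonneg _) (fun n δ _ => abs_sub_le _ _ _) ?_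
  have := h1.add h2
  rw [add_zero] at this
  exact this.congr fun n => (ES_add _ _).symm

theorem Sim.add {f g f' g' : ∀ n : ℕ, (Fin (n + 1) → A → Fin (n + 1)) → ℝ} (h1 : Sim A f g)
    (h2 : Sim A f' g') : Sim A (fun n δ => f n δ + f' n δ) (fun n δ => g n δ + g' n δ) := by
  unfold Sim at *
  refine tendsto_ES_of_le (G := fun n δ => |f n δ - g n δ| + |f' n δ - g' n δ|)
    (fun n δ _ => abs_nonneg _) (fun n δ _ => ?_) ?_
  · have : f n δ + f' n δ - (g n δ + g' n δ) = (f n δ - g n δ) + (f' n δ - g' n δ) := by ring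
    rw [this]
    exact abs_add_le _ _
  · have := h1.add h2
    rw [add_zero] at this
    exact this.congr fun n => (ES_add _ _).symm

theorem Sim.sub {f g f' g' : ∀ n : ℕ, (Fin (n + 1) → A → Fin (n + 1)) → ℝ} (h1 : Sim A f g)
    (h2 : Sim A f' g') : Sim A (fun n δ => f n δ - f' n δ) (fun n δ => g n δ - g' n δ) := by
  unfold Sim at *
  refine tendsto_ES_of_le (G := fun n δ => |f n δ - g n δ| + |f' n δ - g' n δ|)
    (fun n δ _ => abs_nonneg _) (fun n δ _ => ?_) ?_
  · have : f n δ - f' n δ - (g n δ - g' n δ) = (f n δ - g n δ) - (f' n δ - g' n δ) := by ring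
    rw [this]
    exact abs_sub _ _
  · have := h1.add h2
    rw [add_zero] at this
    exact this.congr fun n => (ES_add _ _).symm

/-- products of bounded quantities -/
theorem Sim.mul {f g f' g' : ∀ n : ℕ, (Fin (n + 1) → A → Fin (n + 1)) → ℝ} (h1 : Sim A f g)
    (h2 : Sim A f' g') (C : ℝ) (hf' : ∀ n, ∀ δ ∈ Sur A (0 : Fin (n + 1)), |f' n δ| ≤ C)
    (hg : ∀ n, ∀ δ ∈ Sur A (0 : Fin (n + 1)), |g n δ| ≤ C) :
    Sim A (fun n δ => f n δ * f' n δ) (fun n δ => g n δ * g' n δ) := by
  unfold Sim at *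
  refine tendsto_ES_of_le (G := fun n δ => C * |f n δ - g n δ| + C * |f' n δ - g' n δ|)
    (fun n δ _ => abs_nonneg _) (fun n δ hδ => ?_) ?_
  · have e : f n δ * f' n δ - g n δ * g' n δ =
        (f n δ - g n δ) * f' n δ + g n δ * (f' n δ - g' n δ) := by ring
    rw [e]
    refine (abs_add_le _ _).trans ?_
    rw [abs_mul, abs_mul]
    have a1 : |f n δ - g n δ| * |f' n δ| ≤ |f n δ - g n δ| * C :=
      mul_le_mul_of_nonneg_left (hf' n δ hδ) (abs_nonneg _)
    have a2 : |g n δ| * |f' n δ - g' n δ| ≤ C * |f' n δ - g' n δ| :=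
      mul_le_mul_of_nonneg_right (hg n δ hδ) (abs_nonneg _)
    linarith
  · have := (h1.const_mul C).add (h2.const_mul C)
    rw [mul_zero, add_zero] at this
    refine this.congr fun n => ?_
    rw [ES_add, ES_const_mul, ES_const_mul]

theorem Sim.const_mul {f g : ∀ n : ℕ, (Fin (n + 1) → A → Fin (n + 1)) → ℝ} (h : Sim A f g)
    (c : ℝ) : Sim A (fun n δ => c * f n δ) (fun n δ => c * g n δ) := by
  unfold Sim at *
  have := h.const_mul |c|
  rw [mul_zero] at this
  refine this.congr fun n => ?_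
  rw [← ES_const_mul]
  refine ES_congr fun δ _ => ?_
  rw [← mul_sub, abs_mul]

theorem Sim.sum {ι : Type*} (s : Finset ι) {f g : ι → ∀ n : ℕ, (Fin (n + 1) → A → Fin (n + 1)) → ℝ}
    (h : ∀ i ∈ s, Sim A (f i) (g i)) :
    Sim A (fun n δ => ∑ i ∈ s, f i n δ) (fun n δ => ∑ i ∈ s, g i n δ) := by
  classical
  induction s using Finset.induction_on with
  | empty => simpa using Sim.refl (A := A) (fun _ _ => (0 : ℝ))
  | insert a s ha ih =>
    simp only [Finset.sum_insert ha]
    exact (h a (Finset.mem_insert_self _ _)).add (ih fun i hi => h i (Finset.mem_insert_of_mem hi))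

/-- Scheffe's lemma in mean -/
theorem scheffe {L : Type*} (P : L → ℝ) (hP0 : ∀ l, 0 ≤ P l) (hP : HasSum P 1)
    (W : ∀ n : ℕ, (Fin (n + 1) → A → Fin (n + 1)) → L → ℝ)
    (hW0 : ∀ n δ l, 0 ≤ W n δ l) (hW : ∀ n δ, HasSum (W n δ) 1)
    (hlim : ∀ l, Sim A (fun n δ => W n δ l) (fun _ _ => P l)) :
    Tendsto (fun n : ℕ => ES A n fun δ => ∑' l, |W n δ l - P l|) atTop (𝓝 0) := by
  classical
  refine tendsto_of_le (fun n => ES_nonneg fun δ _ => tsum_nonneg fun l => abs_nonneg _) ?_
  intro ε hε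
  have hF : ∃ F : Finset L, 1 - ε / 4 < ∑ l ∈ F, P l := by
    have := (hP.eventually (lt_mem_nhds (show 1 - ε / 4 < (1 : ℝ) by linarith)))
    exact this.exists
  obtain ⟨F, hF⟩ := hF
  have key : ∀ n δ, ∑' l, |W n δ l - P l| ≤
      2 * (∑ l ∈ F, |W n δ l - P l|) + 2 * (1 - ∑ l ∈ F, P l) := by
    intro n δ
    have h1 : ∀ l, |W n δ l - P l| ≤ (W n δ l - P l) +
        2 * ((if l ∈ F then |W n δ l - P l| else 0) + (P l - if l ∈ F then P l else 0)) := by
      intro l
      have hw := hW0 n δ l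
      have hp := hP0 l
      split_ifs with hl
      · rcases abs_cases (W n δ l - P l) with ⟨h, h'⟩ | ⟨h, h'⟩ <;> rw [h] <;> linarith
      · rcases abs_cases (W n δ l - P l) with ⟨h, h'⟩ | ⟨h, h'⟩ <;> rw [h] <;> linarith
    have h2 : HasSum (fun l => (W n δ l - P l) +
        2 * ((if l ∈ F then |W n δ l - P l| else 0) + (P l - if l ∈ F then P l else 0)))
        ((1 - 1) + 2 * ((∑ l ∈ F, |W n δ l - P l|) + (1 - ∑ l ∈ F, P l))) := by
      refine ((hW n δ).sub hP).add (HasSum.mul_left 2 (HasSum.add ?_ (hP.sub ?_)))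
      · have h9 : HasSum (fun l => if l ∈ F then |W n δ l - P l| else 0)
            (∑ l ∈ F, if l ∈ F then |W n δ l - P l| else 0) :=
          hasSum_sum_of_ne_finset_zero (fun l hl => by simp [hl])
        rw [Finset.sum_congr rfl fun l hl => if_pos hl] at h9
        exact h9
      · have h9 : HasSum (fun l => if l ∈ F then P l else 0) (∑ l ∈ F, if l ∈ F then P l else 0) :=
          hasSum_sum_of_ne_finset_zero (fun l hl => by simp [hl])
        rw [Finset.sum_congr rfl fun l hl => if_pos hl] at h9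
        exact h9
    have h3 : Summable fun l => |W n δ l - P l| :=
      Summable.of_nonneg_of_le (fun _ => abs_nonneg _) h1 h2.summable
    have h4 := h3.hasSum.tsum_eq ▸ (hasSum_le h1 h3.hasSum h2)
    linarith
  have hlim2 : Tendsto (fun n : ℕ => 2 * (∑ l ∈ F, ES A n fun δ => |W n δ l - P l|)) atTop
      (𝓝 (2 * ∑ l ∈ F, (0 : ℝ))) :=
    (tendsto_finsetSum F fun l _ => hlim l).const_mul 2
  rw [Finset.sum_const_zero, mul_zero] at hlim2
  have hev := hlim2.eventually (gt_mem_nhds (show (0 : ℝ) < ε / 2 by linarith))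
  filter_upwards [hev] with n hn
  have h5 : ES A n (fun δ => ∑' l, |W n δ l - P l|) ≤
      ES A n (fun δ => 2 * (∑ l ∈ F, |W n δ l - P l|) + 2 * (1 - ∑ l ∈ F, P l)) :=
    ES_mono fun δ _ => key n δ
  rw [ES_add, ES_const_mul, ES_sum, ES_const] at h5
  linarith

end ESapi

section Enum

variable {A : Type u} [Fintype A] {n : ℕ}

open Classical in
/-- the set of in-edges -/
noncomputable def inE (δ : Fin (n + 1) → A → Fin (n + 1)) (p : Fin (n + 1)) :
    Finset (Fin (n + 1) × A) :=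
  univ.filter fun y => δ y.1 y.2 = p

open Classical in
/-- enumerations of the set of in-edges -/
noncomputable def Enu (δ : Fin (n + 1) → A → Fin (n + 1)) (p : Fin (n + 1)) (j : ℕ) :
    Finset (Fin j → Fin (n + 1) × A) :=
  univ.filter fun e => Function.Injective e ∧ ∀ y, δ y.1 y.2 = p ↔ ∃ i, e i = y

/-- letter and level type of the source of an edge -/
noncomputable def typ (δ : Fin (n + 1) → A → Fin (n + 1)) (D : ℕ) (y : Fin (n + 1) × A) :
    A × Multiset (List A) := (y.2, lev δ D y.1)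

theorem mem_inE {δ : Fin (n + 1) → A → Fin (n + 1)} {p : Fin (n + 1)} {y : Fin (n + 1) × A} :
    y ∈ inE δ p ↔ δ y.1 y.2 = p := by
  classical
  simp [inE]

theorem mem_Enu {δ : Fin (n + 1) → A → Fin (n + 1)} {p : Fin (n + 1)} {j : ℕ}
    {e : Fin j → Fin (n + 1) × A} :
    e ∈ Enu δ p j ↔ Function.Injective e ∧ ∀ y, δ y.1 y.2 = p ↔ ∃ i, e i = y := by
  classical
  simp [Enu]

theorem image_of_mem_Enu [DecidableEq A] {δ : Fin (n + 1) → A → Fin (n + 1)} {p : Fin (n + 1)}
    {j : ℕ} {e : Fin j → Fin (n + 1) × A} (he : e ∈ Enu δ p j) : univ.image e = inE δ p := by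
  classical
  ext y
  rw [mem_inE, (mem_Enu.1 he).2 y]
  simp

theorem card_of_mem_Enu {δ : Fin (n + 1) → A → Fin (n + 1)} {p : Fin (n + 1)}
    {j : ℕ} {e : Fin j → Fin (n + 1) × A} (he : e ∈ Enu δ p j) : (inE δ p).card = j := by
  classical
  rw [← image_of_mem_Enu he, Finset.card_image_of_injective _ (mem_Enu.1 he).1]
  simp

theorem card_Enu_self (δ : Fin (n + 1) → A → Fin (n + 1)) (p : Fin (n + 1)) :
    (Enu δ p (inE δ p).card).card = (inE δ p).card.factorial := by
  classical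
  have e1 : {e // e ∈ Enu δ p (inE δ p).card} ≃ (Fin (inE δ p).card ≃ ↥(inE δ p)) := by
    refine
      { toFun := fun e => Equiv.ofBijective
          (fun i => (⟨e.1 i, mem_inE.2 (((mem_Enu.1 e.2).2 (e.1 i)).2 ⟨i, rfl⟩)⟩ : ↥(inE δ p))) ?_
        invFun := fun f => ⟨fun i => (f i).1, ?_⟩
        left_inv := ?_
        right_inv := ?_ }
    · constructor
      · intro i i' h
        exact (mem_Enu.1 e.2).1 (congrArg Subtype.val h)
      · rintro ⟨y, hy⟩
        obtain ⟨i, hi⟩ := ((mem_Enu.1 e.2).2 y).1 (mem_inE.1 hy)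
        exact ⟨i, Subtype.ext hi⟩
    · refine mem_Enu.2 ⟨fun i i' h => f.injective (Subtype.ext h), fun y => ?_⟩
      rw [← mem_inE]
      constructor
      · intro hy
        exact ⟨f.symm ⟨y, hy⟩, by rw [Equiv.apply_symm_apply]⟩
      · rintro ⟨i, rfl⟩
        exact (f i).2
    · intro e
      rfl
    · intro f
      exact Equiv.ext fun i => Subtype.ext rfl
  have h1 := Fintype.card_congr e1
  rw [Fintype.card_coe] at h1
  rw [h1, Fintype.card_equiv (Finset.equivFin (inE δ p)).symm, Fintype.card_fin]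

open Classical in
theorem Yn_eq (δ : Fin (n + 1) → A → Fin (n + 1)) (D : ℕ) {j : ℕ}
    (ℓ : Fin j → A × Multiset (List A)) :
    Yn δ D ℓ = ∑ p, ∑ e ∈ Enu δ p j, if (fun i => typ δ D (e i)) = ℓ then 1 else 0 := by
  classical
  unfold Yn
  rw [Finset.card_filter, Fintype.sum_prod_type]
  refine Finset.sum_congr rfl fun p _ => ?_
  rw [Enu, Finset.sum_filter]
  refine Finset.sum_congr rfl fun e _ => ?_
  by_cases h1 : Function.Injective e ∧ ∀ y : Fin (n + 1) × A, δ y.1 y.2 = p ↔ ∃ i, e i = y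
  · rw [if_pos h1]
    by_cases h2 : (fun i => typ δ D (e i)) = ℓ
    · rw [if_pos h2, if_pos]
      exact ⟨h1.1, h1.2, fun i => congrFun h2 i⟩
    · rw [if_neg h2, if_neg]
      rintro ⟨_, _, h3⟩
      exact h2 (funext h3)
  · rw [if_neg h1, if_neg]
    rintro ⟨h2, h3, _⟩
    exact h1 ⟨h2, h3⟩

/-- integration against the empirical law of the enumerated in-neighbourhood -/
theorem hasSum_Yn (δ : Fin (n + 1) → A → Fin (n + 1)) (D : ℕ)
    (g : (Σ j, (Fin j → A × Multiset (List A))) → ℝ) :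
    HasSum (fun s : Σ j, (Fin j → A × Multiset (List A)) =>
        g s * ((Yn δ D s.2 : ℝ) / ((n + 1) * s.1.factorial)))
      (∑ p, ∑ e ∈ Enu δ p (inE δ p).card,
        g ⟨(inE δ p).card, fun i => typ δ D (e i)⟩ / ((n + 1) * (inE δ p).card.factorial)) := by
  classical
  have h1 : HasSum (fun s : Σ j, (Fin j → A × Multiset (List A)) =>
      ∑ p, ∑ e ∈ Enu δ p (inE δ p).card,
        if s = ⟨(inE δ p).card, fun i => typ δ D (e i)⟩ then
          g ⟨(inE δ p).card, fun i => typ δ D (e i)⟩ / ((n + 1) * (inE δ p).card.factorial)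
        else 0)
      (∑ p, ∑ e ∈ Enu δ p (inE δ p).card,
        g ⟨(inE δ p).card, fun i => typ δ D (e i)⟩ / ((n + 1) * (inE δ p).card.factorial)) := by
    refine hasSum_sum fun p _ => hasSum_sum fun e _ => ?_
    exact hasSum_ite_eq _ _
  convert h1 using 1
  funext s
  obtain ⟨j, ℓ⟩ := s
  simp only
  rw [Yn_eq]
  push_cast
  rw [Finset.sum_div, Finset.mul_sum]
  refine Finset.sum_congr rfl fun p _ => ?_
  by_cases hj : (inE δ p).card = j
  · subst hj
    rw [Finset.sum_div, Finset.mul_sum]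
    refine Finset.sum_congr rfl fun e _ => ?_
    by_cases h2 : (fun i => typ δ D (e i)) = ℓ
    · subst h2
      simp only [if_true]
      ring
    · rw [if_neg h2, if_neg]
      · simp
      · intro h3
        apply h2
        have := (Sigma.mk.inj_iff.1 h3).2
        exact (eq_of_heq this).symm
  · have h2 : Enu δ p j = ∅ := by
      rw [Finset.eq_empty_iff_forall_notMem]
      intro e he
      exact hj (card_of_mem_Enu he)
    rw [h2, Finset.sum_empty, zero_div, mul_zero, Finset.sum_eq_zero]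
    intro e _
    rw [if_neg]
    intro h3
    exact hj (Sigma.mk.inj_iff.1 h3).1.symm

/-- the empirical law is a probability -/
theorem hasSum_Yn_one (δ : Fin (n + 1) → A → Fin (n + 1)) (D : ℕ) :
    HasSum (fun s : Σ j, (Fin j → A × Multiset (List A)) =>
        (Yn δ D s.2 : ℝ) / ((n + 1) * s.1.factorial)) 1 := by
  have h := hasSum_Yn δ D (fun _ => 1)
  simp only [one_mul] at h
  convert h using 1
  have h1 : ∀ p ∈ (univ : Finset (Fin (n + 1))), ∑ e ∈ Enu δ p (inE δ p).card,
      (1 : ℝ) / ((n + 1) * (inE δ p).card.factorial) = 1 / (n + 1) := by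
    intro p _
    rw [Finset.sum_const, card_Enu_self, nsmul_eq_mul]
    have : ((inE δ p).card.factorial : ℝ) ≠ 0 := by exact_mod_cast Nat.factorial_ne_zero _
    have : (n : ℝ) + 1 ≠ 0 := by positivity
    field_simp
  rw [Finset.sum_congr rfl h1, Finset.sum_const, Finset.card_univ, Fintype.card_fin, nsmul_eq_mul]
  have : (n : ℝ) + 1 ≠ 0 := by positivity
  push_cast
  field_simp

theorem comb_enu {δ : Fin (n + 1) → A → Fin (n + 1)} {p : Fin (n + 1)} {D j : ℕ}
    {e : Fin j → Fin (n + 1) × A} (he : e ∈ Enu δ p j) :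
    comb (List.ofFn fun i => typ δ D (e i)) = lev δ (D + 1) p := by
  classical
  have h1 : lev δ (D + 1) p = ∑ y ∈ inE δ p, (lev δ D y.1).map (y.2 :: ·) := by
    rw [lev, inE, Finset.sum_filter]
    refine Finset.sum_congr rfl fun y _ => ?_
    by_cases hy : δ y.1 y.2 = p
    · rw [if_pos hy, if_pos hy]
    · rw [if_neg hy, if_neg hy]
  rw [h1, ← image_of_mem_Enu he, Finset.sum_image (fun i _ i' _ h => (mem_Enu.1 he).1 h)]
  rw [comb, List.map_ofFn, List.sum_ofFn]
  rfl

/-- the empirical law of the levels is the image of the empirical law of neighbourhoods -/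
theorem hasSum_fr (δ : Fin (n + 1) → A → Fin (n + 1)) (D : ℕ) (τ : Multiset (List A)) :
    HasSum (fun s : (fun s : Σ j, (Fin j → A × Multiset (List A)) =>
        comb (List.ofFn s.2)) ⁻¹' {τ} => (Yn δ D s.1.2 : ℝ) / ((n + 1) * s.1.1.factorial))
      (fr δ (D + 1) τ) := by
  classical
  have h := hasSum_Yn δ D (fun s => if comb (List.ofFn s.2) = τ then 1 else 0)
  have h2 : (∑ p, ∑ e ∈ Enu δ p (inE δ p).card,
      (if comb (List.ofFn fun i => typ δ D (e i)) = τ then (1 : ℝ) else 0) /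
        ((n + 1) * (inE δ p).card.factorial)) = fr δ (D + 1) τ := by
    have h1 : ∀ p ∈ (univ : Finset (Fin (n + 1))), ∑ e ∈ Enu δ p (inE δ p).card,
        (if comb (List.ofFn fun i => typ δ D (e i)) = τ then (1 : ℝ) else 0) /
          ((n + 1) * (inE δ p).card.factorial) = (if lev δ (D + 1) p = τ then 1 else 0) / (n + 1) := by
      intro p _
      have h3 : ∀ e ∈ Enu δ p (inE δ p).card,
          (if comb (List.ofFn fun i => typ δ D (e i)) = τ then (1 : ℝ) else 0) /
          ((n + 1) * (inE δ p).card.factorial) = (if lev δ (D + 1) p = τ then 1 else 0) /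
          ((n + 1) * (inE δ p).card.factorial) := by
        intro e he
        rw [comb_enu he]
      rw [Finset.sum_congr rfl h3, Finset.sum_const, card_Enu_self, nsmul_eq_mul]
      have : ((inE δ p).card.factorial : ℝ) ≠ 0 := by exact_mod_cast Nat.factorial_ne_zero _
      have : (n : ℝ) + 1 ≠ 0 := by positivity
      field_simp
    rw [Finset.sum_congr rfl h1, ← Finset.sum_div, fr, Finset.card_filter]
    push_cast
    rfl
  rw [h2] at h
  change HasSum ((fun s : Σ j, (Fin j → A × Multiset (List A)) =>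
    (Yn δ D s.2 : ℝ) / ((n + 1) * s.1.factorial)) ∘ Subtype.val) _
  rw [hasSum_subtype_iff_indicator]
  convert h using 1
  funext s
  by_cases hs : comb (List.ofFn s.2) = τ
  · rw [Set.indicator_of_mem, if_pos hs, one_mul]
    exact hs
  · rw [Set.indicator_of_notMem, if_neg hs, zero_mul]
    exact hs

open Classical in
theorem sum_Yn0 (δ : Fin (n + 1) → A → Fin (n + 1)) (j : ℕ) :
    ∑ v : Fin j → A, Yn δ 0 (fun i => (v i, ({[]} : Multiset (List A)))) =
      j.factorial * (univ.filter fun p => (inE δ p).card = j).card := by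
  simp_rw [Yn_eq]
  rw [Finset.sum_comm]
  have h1 : ∀ p ∈ (univ : Finset (Fin (n + 1))),
      ∑ v : Fin j → A, ∑ e ∈ Enu δ p j,
        (if (fun i => typ δ 0 (e i)) = (fun i => (v i, ({[]} : Multiset (List A)))) then 1 else 0) =
      if (inE δ p).card = j then j.factorial else 0 := by
    intro p _
    rw [Finset.sum_comm]
    have h2 : ∀ e ∈ Enu δ p j, ∑ v : Fin j → A,
        (if (fun i => typ δ 0 (e i)) = (fun i => (v i, ({[]} : Multiset (List A)))) then 1 else 0)
        = 1 := by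
      intro e _
      have h3 : ∀ v : Fin j → A, ((fun i => typ δ 0 (e i)) = fun i => (v i, ({[]} : Multiset (List A))))
          ↔ (fun i => (e i).2) = v := by
        intro v
        constructor
        · intro h
          funext i
          exact congrArg Prod.fst (congrFun h i)
        · rintro rfl
          funext i
          rfl
      simp only [h3]
      rw [Finset.sum_ite_eq, if_pos (Finset.mem_univ _)]
    rw [Finset.sum_congr rfl h2, Finset.sum_const, smul_eq_mul, mul_one]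
    split_ifs with hj
    · subst hj
      exact card_Enu_self δ p
    · rw [Finset.card_eq_zero, Finset.eq_empty_iff_forall_notMem]
      intro e he
      exact hj (card_of_mem_Enu he)
  rw [Finset.sum_congr rfl h1, ← Finset.sum_filter, Finset.sum_const, smul_eq_mul, mul_comm]

theorem sum_card_inE (δ : Fin (n + 1) → A → Fin (n + 1)) :
    ∑ p, (inE δ p).card = (n + 1) * Fintype.card A := by
  classical
  have h := Finset.card_eq_sum_card_fiberwise (s := (univ : Finset (Fin (n + 1) × A)))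
    (t := (univ : Finset (Fin (n + 1)))) (f := fun y => δ y.1 y.2) (fun _ _ => Finset.mem_univ _)
  rw [Finset.card_univ, Fintype.card_prod, Fintype.card_fin] at h
  rw [h]
  refine Finset.sum_congr rfl fun p _ => ?_
  congr 1

open Classical in
theorem card_large (δ : Fin (n + 1) → A → Fin (n + 1)) (K : ℕ) :
    K * (univ.filter fun p => K < (inE δ p).card).card ≤ (n + 1) * Fintype.card A := by
  rw [← sum_card_inE δ, mul_comm, ← smul_eq_mul, ← Finset.sum_const]
  refine (Finset.sum_le_sum (g := fun p => (inE δ p).card) fun p hp => ?_).trans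
    (Finset.sum_le_sum_of_subset (Finset.subset_univ _))
  exact (Finset.mem_filter.1 hp).2.le

open Classical in
theorem card_zero {δ : Fin (n + 1) → A → Fin (n + 1)} (hδ : δ ∈ Sur A (0 : Fin (n + 1))) :
    (univ.filter fun p => (inE δ p).card = 0).card ≤ 1 := by
  rw [Finset.card_le_one]
  have h : ∀ p ∈ univ.filter (fun p => (inE δ p).card = 0), p = 0 := by
    intro p hp
    by_contra hne
    simp only [Sur, mem_filter, mem_univ, true_and] at hδ
    obtain ⟨s, a, hs⟩ := hδ p hne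
    have h1 := (Finset.mem_filter.1 hp).2
    rw [Finset.card_eq_zero] at h1
    have : (s, a) ∈ inE δ p := mem_inE.2 hs
    rw [h1] at this
    exact absurd this (Finset.notMem_empty _)
  intro p hp q hq
  rw [h p hp, h q hq]

open Classical in
theorem card_split (δ : Fin (n + 1) → A → Fin (n + 1)) (K : ℕ) :
    (univ.filter fun p => (inE δ p).card = 0).card +
      ∑ j ∈ Icc 1 K, (univ.filter fun p => (inE δ p).card = j).card +
      (univ.filter fun p => K < (inE δ p).card).card = n + 1 := by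
  simp only [Finset.card_filter]
  rw [Finset.sum_comm, ← Finset.sum_add_distrib, ← Finset.sum_add_distrib]
  have h : ∀ p ∈ (univ : Finset (Fin (n + 1))),
      ((if (inE δ p).card = 0 then 1 else 0) + ∑ j ∈ Icc 1 K, (if (inE δ p).card = j then 1 else 0) +
        if K < (inE δ p).card then 1 else 0) = 1 := by
    intro p _
    rw [Finset.sum_ite_eq]
    by_cases h0 : (inE δ p).card = 0
    · have h1 : ¬ (inE δ p).card ∈ Icc 1 K := by
        rw [Finset.mem_Icc]; omega
      have h2 : ¬ K < (inE δ p).card := by omega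
      rw [if_pos h0, if_neg h1, if_neg h2, add_zero, add_zero]
    · by_cases h1 : K < (inE δ p).card
      · have h2 : ¬ (inE δ p).card ∈ Icc 1 K := by
          rw [Finset.mem_Icc]; omega
        rw [if_neg h0, if_neg h2, if_pos h1, zero_add, zero_add]
      · have h2 : (inE δ p).card ∈ Icc 1 K := by
          rw [Finset.mem_Icc]; omega
        rw [if_neg h0, if_pos h2, if_neg h1]
  rw [Finset.sum_congr rfl h, Finset.sum_const, Finset.card_univ, Fintype.card_fin]
  simp

/-- truncated total mass of the in-degree law -/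
theorem truncated_mass {δ : Fin (n + 1) → A → Fin (n + 1)} (hδ : δ ∈ Sur A (0 : Fin (n + 1)))
    {K : ℕ} (hK : 0 < K) :
    |(∑ j ∈ Icc 1 K, ∑ v : Fin j → A,
        (Yn δ 0 (fun i => (v i, ({[]} : Multiset (List A)))) : ℝ) / (n + 1) / j.factorial) - 1| ≤
      1 / ((n : ℝ) + 1) + Fintype.card A / K := by
  classical
  have hn : (0 : ℝ) < (n : ℝ) + 1 := by positivity
  have h1 : (∑ j ∈ Icc 1 K, ∑ v : Fin j → A,
      (Yn δ 0 (fun i => (v i, ({[]} : Multiset (List A)))) : ℝ) / (n + 1) / j.factorial) =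
      ((∑ j ∈ Icc 1 K, (univ.filter fun p => (inE δ p).card = j).card : ℕ) : ℝ) / (n + 1) := by
    push_cast
    rw [Finset.sum_div]
    refine Finset.sum_congr rfl fun j _ => ?_
    rw [← Finset.sum_div, ← Finset.sum_div]
    have h2 := sum_Yn0 δ j
    have h3 : (∑ v : Fin j → A, (Yn δ 0 (fun i => (v i, ({[]} : Multiset (List A)))) : ℝ)) =
        j.factorial * ((univ.filter fun p => (inE δ p).card = j).card : ℝ) := by
      exact_mod_cast h2
    rw [h3]
    have : (j.factorial : ℝ) ≠ 0 := by exact_mod_cast Nat.factorial_ne_zero _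
    field_simp
  rw [h1]
  have h4 := card_split δ K
  have h5 := card_zero hδ
  have h6 := card_large δ K
  set c0 := (univ.filter fun p => (inE δ p).card = 0).card
  set cl := (univ.filter fun p => K < (inE δ p).card).card
  set cm := ∑ j ∈ Icc 1 K, (univ.filter fun p => (inE δ p).card = j).card
  have h4' : (c0 : ℝ) + cm + cl = n + 1 := by exact_mod_cast h4
  have h5' : (c0 : ℝ) ≤ 1 := by exact_mod_cast h5
  have h6' : (K : ℝ) * cl ≤ (n + 1) * Fintype.card A := by exact_mod_cast h6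
  have hc0 : (0 : ℝ) ≤ c0 := Nat.cast_nonneg _
  have hcl : (0 : ℝ) ≤ cl := Nat.cast_nonneg _
  have hKpos : (0 : ℝ) < K := by exact_mod_cast hK
  have h7 : (cm : ℝ) / (n + 1) - 1 = -((c0 + cl) / (n + 1)) := by
    field_simp
    linarith
  rw [h7, abs_neg, abs_of_nonneg (by positivity), add_div]
  refine add_le_add (by gcongr) ?_
  rw [div_le_div_iff₀ hn hKpos]
  linarith

/-- states which are the source of the only edge into their target -/
noncomputable def UU (δ : Fin (n + 1) → A → Fin (n + 1)) (a : A) : Finset (Fin (n + 1)) := by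
  classical
  exact univ.filter fun q => ∀ y : Fin (n + 1) × A, δ y.1 y.2 = δ q a → y = (q, a)

theorem mem_UU {δ : Fin (n + 1) → A → Fin (n + 1)} {a : A} {q : Fin (n + 1)} :
    q ∈ UU δ a ↔ ∀ y : Fin (n + 1) × A, δ y.1 y.2 = δ q a → y = (q, a) := by
  classical
  simp [UU]

open Classical in
theorem Yn_one (δ : Fin (n + 1) → A → Fin (n + 1)) (D : ℕ) (a : A) (τ : Multiset (List A)) :
    Yn δ D ![(a, τ)] = ((UU δ a).filter fun q => lev δ D q = τ).card := by
  unfold Yn
  refine Finset.card_nbij' (fun x => (x.2 0).1) (fun q => (δ q a, fun _ => (q, a))) ?_ ?_ ?_ ?_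
  · rintro ⟨p, e⟩ hx
    simp only [coe_filter, mem_univ, true_and, Set.mem_ofPred_eq] at hx
    obtain ⟨h1, h2, h3⟩ := hx
    have h4 := h3 0
    simp only [Matrix.cons_val_fin_one] at h4
    have h5 : (e 0).2 = a := congrArg Prod.fst h4
    have h6 : lev δ D (e 0).1 = τ := congrArg Prod.snd h4
    simp only [coe_filter, Set.mem_ofPred_eq]
    refine ⟨mem_UU.2 fun y hy => ?_, h6⟩
    have h7 : δ (e 0).1 (e 0).2 = p := (h2 (e 0)).2 ⟨0, rfl⟩
    rw [h5] at h7
    rw [h7] at hy
    obtain ⟨i, hi⟩ := (h2 y).1 hy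
    have : i = 0 := Subsingleton.elim _ _
    rw [← hi, this, ← h5]
  · intro q hq
    simp only [coe_filter, Set.mem_ofPred_eq] at hq
    simp only [coe_filter, mem_univ, true_and, Set.mem_ofPred_eq]
    refine ⟨fun i i' _ => Subsingleton.elim _ _, fun y => ⟨fun hy => ⟨0, ?_⟩, ?_⟩, fun i => ?_⟩
    · exact (mem_UU.1 hq.1 y hy).symm
    · rintro ⟨_, rfl⟩
      rfl
    · have : i = 0 := Subsingleton.elim _ _
      subst this
      simp [hq.2]
  · rintro ⟨p, e⟩ hx
    simp only [coe_filter, mem_univ, true_and, Set.mem_ofPred_eq] at hx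
    obtain ⟨h1, h2, h3⟩ := hx
    have h4 := h3 0
    simp only [Matrix.cons_val_fin_one] at h4
    have h5 : (e 0).2 = a := congrArg Prod.fst h4
    have h7 : δ (e 0).1 (e 0).2 = p := (h2 (e 0)).2 ⟨0, rfl⟩
    simp only
    refine Prod.ext ?_ ?_
    · simp only
      rw [← h5]
      exact h7
    · simp only
      funext i
      have : i = 0 := Subsingleton.elim _ _
      rw [this, ← h5]
  · intro q hq
    rfl

/-- fraction of states which are the source of the only edge, with label `a`, into their target -/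
noncomputable def tt (δ : Fin (n + 1) → A → Fin (n + 1)) (a : A) : ℝ :=
  ((UU δ a).card : ℝ) / (n + 1)

/-- the same with a prescribed level multiset -/
noncomputable def yy (δ : Fin (n + 1) → A → Fin (n + 1)) (D : ℕ) (a : A) (τ : Multiset (List A)) :
    ℝ := (Yn δ D ![(a, τ)] : ℝ) / (n + 1)

theorem hasSum_indicator_count {α : Type*} (s : Finset (Fin (n + 1))) (f : Fin (n + 1) → α)
    [DecidableEq α] : HasSum (fun τ => ((s.filter fun q => f q = τ).card : ℝ) / (n + 1))
      ((s.card : ℝ) / (n + 1)) := by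
  classical
  have h1 : HasSum (fun τ => ∑ q ∈ s, if τ = f q then (1 : ℝ) / (n + 1) else 0)
      (∑ q ∈ s, (1 : ℝ) / (n + 1)) := hasSum_sum fun q _ => hasSum_ite_eq _ _
  convert h1 using 1
  · funext τ
    rw [← Finset.sum_filter, Finset.sum_const, nsmul_eq_mul]
    simp only [eq_comm (a := τ)]
    ring
  · rw [Finset.sum_const, nsmul_eq_mul]
    ring

theorem hasSum_yy (δ : Fin (n + 1) → A → Fin (n + 1)) (D : ℕ) (a : A) :
    HasSum (yy δ D a) (tt δ a) := by
  classical
  have h := hasSum_indicator_count (UU δ a) (lev δ D)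
  unfold tt
  convert h using 1
  funext τ
  rw [yy, Yn_one]

theorem hasSum_fr_one (δ : Fin (n + 1) → A → Fin (n + 1)) (D : ℕ) : HasSum (fr δ D) 1 := by
  classical
  have h := hasSum_indicator_count (univ : Finset (Fin (n + 1))) (lev δ D)
  have hn : (n : ℝ) + 1 ≠ 0 := by positivity
  rw [Finset.card_univ, Fintype.card_fin] at h
  push_cast at h
  rw [div_self hn] at h
  convert h using 1
  funext τ
  rw [fr]

theorem yy_le_fr (δ : Fin (n + 1) → A → Fin (n + 1)) (D : ℕ) (a : A) (τ : Multiset (List A)) :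
    yy δ D a τ ≤ fr δ D τ := by
  classical
  rw [yy, Yn_one, fr]
  gcongr
  exact Finset.subset_univ _

theorem yy_nonneg (δ : Fin (n + 1) → A → Fin (n + 1)) (D : ℕ) (a : A) (τ : Multiset (List A)) :
    0 ≤ yy δ D a τ := by unfold yy; positivity

theorem fr_nonneg (δ : Fin (n + 1) → A → Fin (n + 1)) (D : ℕ) (τ : Multiset (List A)) :
    0 ≤ fr δ D τ := by unfold fr; positivity

theorem fr_le_one (δ : Fin (n + 1) → A → Fin (n + 1)) (D : ℕ) (τ : Multiset (List A)) :
    fr δ D τ ≤ 1 := by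
  have h := le_hasSum (hasSum_fr_one δ D) τ fun _ _ => fr_nonneg _ _ _
  exact h

theorem tt_nonneg (δ : Fin (n + 1) → A → Fin (n + 1)) (a : A) : 0 ≤ tt δ a := by
  unfold tt; positivity

theorem tt_le_one (δ : Fin (n + 1) → A → Fin (n + 1)) (a : A) : tt δ a ≤ 1 := by
  have h := hasSum_le (fun τ => yy_le_fr δ 0 a τ) (hasSum_yy δ 0 a) (hasSum_fr_one δ 0)
  exact h

theorem lev_zero (δ : Fin (n + 1) → A → Fin (n + 1)) (p : Fin (n + 1)) : lev δ 0 p = {[]} := by
  rw [lev]

theorem yy_zero (δ : Fin (n + 1) → A → Fin (n + 1)) (a : A) : yy δ 0 a {[]} = tt δ a := by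
  classical
  rw [yy, Yn_one, tt, Finset.filter_true_of_mem]
  intro q _
  exact lev_zero δ q

theorem fr_zero (δ : Fin (n + 1) → A → Fin (n + 1)) : fr δ 0 ({[]} : Multiset (List A)) = 1 := by
  classical
  rw [fr, Finset.filter_true_of_mem fun p _ => lev_zero δ p, Finset.card_univ, Fintype.card_fin]
  have hn : (n : ℝ) + 1 ≠ 0 := by positivity
  push_cast
  exact div_self hn

theorem Yn_comp (δ : Fin (n + 1) → A → Fin (n + 1)) (D : ℕ) {j : ℕ}
    (ℓ : Fin j → A × Multiset (List A)) (σ : Equiv.Perm (Fin j)) :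
    Yn δ D (ℓ ∘ σ) = Yn δ D ℓ := by
  classical
  unfold Yn
  refine Finset.card_nbij' (fun x => (x.1, x.2 ∘ σ.symm)) (fun x => (x.1, x.2 ∘ σ)) ?_ ?_ ?_ ?_
  · rintro ⟨p, e⟩ hx
    simp only [coe_filter, mem_univ, true_and, Set.mem_ofPred_eq] at hx ⊢
    obtain ⟨h1, h2, h3⟩ := hx
    refine ⟨h1.comp σ.symm.injective, fun y => (h2 y).trans ⟨?_, ?_⟩, fun i => ?_⟩
    · rintro ⟨i, hi⟩
      exact ⟨σ i, by simp [hi]⟩
    · rintro ⟨i, hi⟩
      exact ⟨σ.symm i, hi⟩
    · have := h3 (σ.symm i)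
      simpa using this
  · rintro ⟨p, e⟩ hx
    simp only [coe_filter, mem_univ, true_and, Set.mem_ofPred_eq] at hx ⊢
    obtain ⟨h1, h2, h3⟩ := hx
    refine ⟨h1.comp σ.injective, fun y => (h2 y).trans ⟨?_, ?_⟩, fun i => ?_⟩
    · rintro ⟨i, hi⟩
      exact ⟨σ.symm i, by simp [hi]⟩
    · rintro ⟨i, hi⟩
      exact ⟨σ i, hi⟩
    · exact h3 (σ i)
  · rintro ⟨p, e⟩ _
    simp only [Prod.mk.injEq, true_and]
    funext i
    simp
  · rintro ⟨p, e⟩ _
    simp only [Prod.mk.injEq, true_and]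
    funext i
    simp

theorem Yn_snoc_comm (δ : Fin (n + 1) → A → Fin (n + 1)) (D : ℕ) (x y : A × Multiset (List A)) :
    Yn δ D (Fin.snoc (α := fun _ => A × Multiset (List A)) ![x] y : Fin (1 + 1) → A × Multiset (List A)) =
      Yn δ D (Fin.snoc (α := fun _ => A × Multiset (List A)) ![y] x :
        Fin (1 + 1) → A × Multiset (List A)) := by
  rw [← Yn_comp δ D (Fin.snoc (α := fun _ => A × Multiset (List A)) ![y] x :
        Fin (1 + 1) → A × Multiset (List A)) (Equiv.swap 0 1)]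
  congr 1
  funext i
  fin_cases i
  · rfl
  · rfl

end Enum

section Analytic

/-- coefficients of `(exp (k x) - 1) / x` -/
noncomputable def cc (k j : ℕ) : ℝ := (k : ℝ) ^ (j + 1) / (j + 1).factorial

theorem cc_nonneg (k j : ℕ) : 0 ≤ cc k j := by unfold cc; positivity

theorem summable_cc (k : ℕ) : Summable (cc k) := by
  have h := NormedSpace.expSeries_div_summable (𝔸 := ℝ) (k : ℝ)
  exact (summable_nat_add_iff (f := fun j : ℕ => (k : ℝ) ^ j / (j.factorial : ℝ)) 1).2 h

/-- `(exp (k x) - 1) / x` -/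
noncomputable def HH (k : ℕ) (x : ℝ) : ℝ := ∑' j, cc k j * x ^ j

theorem summable_HH (k : ℕ) {x : ℝ} (h0 : 0 ≤ x) (h1 : x ≤ 1) :
    Summable fun j => cc k j * x ^ j := by
  refine Summable.of_nonneg_of_le (fun j => mul_nonneg (cc_nonneg k j) (pow_nonneg h0 j))
    (fun j => ?_) (summable_cc k)
  exact mul_le_of_le_one_right (cc_nonneg k j) (pow_le_one₀ h0 h1)

theorem continuousOn_HH (k : ℕ) : ContinuousOn (HH k) (Set.Icc 0 1) := by
  refine continuousOn_tsum (u := cc k) (fun j => by fun_prop) (summable_cc k) ?_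
  intro j x hx
  rw [Real.norm_of_nonneg (mul_nonneg (cc_nonneg k j) (pow_nonneg hx.1 j))]
  exact mul_le_of_le_one_right (cc_nonneg k j) (pow_le_one₀ hx.1 hx.2)

theorem HH_zero (k : ℕ) : HH k 0 = k := by
  unfold HH
  rw [tsum_eq_single 0]
  · simp [cc]
  · intro j hj
    simp [hj]

theorem mul_HH (k : ℕ) (x : ℝ) : x * HH k x = Real.exp (k * x) - 1 := by
  unfold HH
  rw [← tsum_mul_left]
  have h2 : HasSum (fun j : ℕ => (k * x) ^ j / (j.factorial : ℝ)) (Real.exp (k * x)) := by
    rw [Real.exp_eq_exp_ℝ]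
    exact NormedSpace.expSeries_div_hasSum_exp ((k : ℝ) * x)
  have h3 := (hasSum_nat_add_iff' 1).2 h2
  simp only [Finset.range_one, Finset.sum_singleton, pow_zero, Nat.factorial_zero, Nat.cast_one,
    div_one] at h3
  rw [← h3.tsum_eq]
  congr 1
  funext j
  unfold cc
  rw [mul_pow]
  ring

/-- limit of the truncated generating functions -/
noncomputable def GG (k : ℕ) (x : ℝ) : ℝ := (1 - x) * HH k x

theorem GG_eq_one {k : ℕ} (hk : 2 ≤ k) {x : ℝ} (h0 : 0 ≤ x) (h1 : x ≤ 1) (h : GG k x = 1) :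
    x = nu k := by
  obtain ⟨n0, n1, n2⟩ := nu_spec hk
  have hk' : (2 : ℝ) ≤ k := by exact_mod_cast hk
  rcases h0.eq_or_lt with h0 | h0
  · exfalso
    rw [← h0, GG, HH_zero] at h
    linarith
  have h2 := mul_HH k x
  have h3 : (1 - x) * Real.exp (k * x) = 1 := by
    have : x * GG k x = x * 1 := by rw [h]
    unfold GG at this
    have e : x * ((1 - x) * HH k x) = (1 - x) * (x * HH k x) := by ring
    rw [e, h2] at this
    linarith
  have h4 : 1 - x = Real.exp (-(k * x)) := by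
    rw [Real.exp_neg]
    exact eq_inv_of_mul_eq_one_left h3
  -- strict convexity of the exponential function
  have key : ∀ y z : ℝ, 0 < y → y < z → 1 - y = Real.exp (-(k * y)) →
      1 - z = Real.exp (-(k * z)) → False := by
    intro y z hy hyz h5 h6
    have hz : 0 < z := hy.trans hyz
    have hkz : -((k : ℝ) * z) ≠ 0 := by
      have : 0 < (k : ℝ) * z := by positivity
      linarith
    have hl1 : 0 < y / z := by positivity
    have hl2 : 0 < 1 - y / z := by
      rw [sub_pos, div_lt_one hz]; exact hyz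
    have h7 := strictConvexOn_exp.2 (Set.mem_univ (-((k : ℝ) * z))) (Set.mem_univ (0 : ℝ)) hkz
      hl1 hl2 (by ring)
    simp only [smul_eq_mul, mul_zero, add_zero, Real.exp_zero, mul_one] at h7
    have h8 : y / z * -((k : ℝ) * z) = -(k * y) := by
      field_simp
    rw [h8, ← h5, ← h6] at h7
    have h9 : y / z * (1 - z) + (1 - y / z) = 1 - y := by
      field_simp
      ring
    rw [h9] at h7
    exact lt_irrefl _ h7
  rcases lt_trichotomy x (nu k) with h5 | h5 | h5
  · exact absurd (key x (nu k) h0 h5 h4 n2) id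
  · exact h5
  · exact absurd (key (nu k) x n0 h5 n2 h4) id

theorem continuousOn_GG (k : ℕ) : ContinuousOn (GG k) (Set.Icc 0 1) := by
  unfold GG
  exact (by fun_prop : ContinuousOn (fun x : ℝ => 1 - x) (Set.Icc 0 1)).mul (continuousOn_HH k)

/-- quantitative form of `GG_eq_one` -/
theorem exists_modulus {k : ℕ} (hk : 2 ≤ k) {ε : ℝ} (hε : 0 < ε) :
    ∃ C : ℝ, 0 < C ∧ ∀ x ∈ Set.Icc (0 : ℝ) 1, |x - nu k| ≤ ε + C * |GG k x - 1| := by
  obtain ⟨n0, n1, n2⟩ := nu_spec hk
  set S : Set ℝ := Set.Icc 0 1 ∩ {x | ε ≤ |x - nu k|} with hS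
  have hSc : IsCompact S := isCompact_Icc.inter_right (isClosed_le continuous_const (by fun_prop))
  have hbd : ∀ x ∈ Set.Icc (0 : ℝ) 1, |x - nu k| ≤ 1 := by
    intro x hx
    rw [abs_le]
    constructor <;> linarith [hx.1, hx.2]
  rcases S.eq_empty_or_nonempty with hE | hN
  · refine ⟨1, one_pos, fun x hx => ?_⟩
    have : ¬ ε ≤ |x - nu k| := by
      intro h
      have : x ∈ S := ⟨hx, h⟩
      rw [hE] at this
      exact this
    have := abs_nonneg (GG k x - 1)
    linarith
  · have hcont : ContinuousOn (fun x => |GG k x - 1|) S :=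
      (((continuousOn_GG k).mono Set.inter_subset_left).sub continuousOn_const).abs
    obtain ⟨x0, hx0, hmin⟩ := hSc.exists_isMinOn hN hcont
    have hpos : 0 < |GG k x0 - 1| := by
      rw [abs_pos]
      intro h
      have h1 := GG_eq_one hk hx0.1.1 hx0.1.2 (by linarith)
      have h2 := hx0.2
      simp only [Set.mem_ofPred_eq] at h2
      rw [h1, sub_self, abs_zero] at h2
      linarith
    refine ⟨1 / |GG k x0 - 1|, by positivity, fun x hx => ?_⟩
    by_cases h : ε ≤ |x - nu k|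
    · have h1 := hmin (show x ∈ S from ⟨hx, h⟩)
      simp only [Set.mem_ofPred_eq] at h1
      have h2 : 1 ≤ 1 / |GG k x0 - 1| * |GG k x - 1| := by
        rw [one_div, inv_mul_eq_div, le_div_iff₀ hpos, one_mul]
        exact h1
      linarith [hbd x hx]
    · have : 0 ≤ 1 / |GG k x0 - 1| * |GG k x - 1| := by positivity
      linarith

/-- truncation error -/
theorem GG_truncate (k K : ℕ) {x : ℝ} (h0 : 0 ≤ x) (h1 : x ≤ 1) :
    |GG k x - ∑ j ∈ range K, cc k j * x ^ j * (1 - x)| ≤ ∑' j, cc k (j + K) := by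
  have h2 := (summable_HH k h0 h1).sum_add_tsum_nat_add K
  have h3 : GG k x - ∑ j ∈ range K, cc k j * x ^ j * (1 - x) =
      (1 - x) * ∑' j, cc k (j + K) * x ^ (j + K) := by
    unfold GG HH
    rw [← h2, ← Finset.sum_mul]
    ring
  have h4 : 0 ≤ ∑' j, cc k (j + K) * x ^ (j + K) :=
    tsum_nonneg fun j => mul_nonneg (cc_nonneg _ _) (pow_nonneg h0 _)
  have h5 : ∑' j, cc k (j + K) * x ^ (j + K) ≤ ∑' j, cc k (j + K) := by
    refine Summable.tsum_le_tsum (fun j => mul_le_of_le_one_right (cc_nonneg _ _) (pow_le_one₀ h0 h1))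
      ((summable_nat_add_iff (f := fun j => cc k j * x ^ j) K).2 (summable_HH k h0 h1))
      ((summable_nat_add_iff (f := cc k) K).2 (summable_cc k))
  rw [h3, abs_of_nonneg (mul_nonneg (by linarith) h4)]
  nlinarith

end Analytic

section Main

variable (A : Type u) [Fintype A] [Nonempty A]

/-- the switching relation (as a hypothesis) -/
def SwitchRel : Prop :=
  ∀ (D : ℕ) {j : ℕ} (_ : 0 < j) (ℓ : Fin j → A × Multiset (List A)) (x : A × Multiset (List A)),
    Tendsto (fun n : ℕ => ES A n fun δ =>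
      |(Yn δ D (Fin.snoc ℓ x : Fin (j + 1) → A × Multiset (List A)) : ℝ) / (n + 1) -
        (Yn δ D ℓ : ℝ) / (n + 1) * (fr δ D x.2 - (Yn δ D ![x] : ℝ) / (n + 1))|) atTop (𝓝 0)

/-- the local law at level `D` -/
def LawAt (D : ℕ) : Prop :=
  Tendsto (fun n : ℕ => ES A n fun δ => ∑' τ, |fr δ D τ - (mu A D τ).toReal|) atTop (𝓝 0)

/-- real valued limit law -/
noncomputable def mm (D : ℕ) (τ : Multiset (List A)) : ℝ := (mu A D τ).toReal

theorem hasSum_pmf_toReal {α : Type*} (p : PMF α) : HasSum (fun a => (p a).toReal) 1 := by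
  have h1 : ∑' a, p a ≠ ∞ := by rw [p.tsum_coe]; exact ENNReal.one_ne_top
  have h2 := ENNReal.hasSum_toReal h1
  rw [← ENNReal.tsum_toReal_eq (fun a => p.apply_ne_top a), p.tsum_coe, ENNReal.toReal_one] at h2
  exact h2

theorem hasSum_mm (D : ℕ) : HasSum (mm A D) 1 := hasSum_pmf_toReal _

theorem mm_nonneg (D : ℕ) (τ : Multiset (List A)) : 0 ≤ mm A D τ := ENNReal.toReal_nonneg

theorem mm_le_one (D : ℕ) (τ : Multiset (List A)) : mm A D τ ≤ 1 :=
  le_hasSum (hasSum_mm A D) τ fun _ _ => mm_nonneg _ _ _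

variable {A}

theorem yy_le_one {n : ℕ} (δ : Fin (n + 1) → A → Fin (n + 1)) (D : ℕ) (a : A)
    (τ : Multiset (List A)) : yy δ D a τ ≤ 1 := (yy_le_fr δ D a τ).trans (fr_le_one δ D τ)

theorem abs_yy_le {n : ℕ} (δ : Fin (n + 1) → A → Fin (n + 1)) (D : ℕ) (a : A)
    (τ : Multiset (List A)) : |yy δ D a τ| ≤ 1 := by
  rw [abs_of_nonneg (yy_nonneg _ _ _ _)]; exact yy_le_one _ _ _ _

theorem abs_fr_le {n : ℕ} (δ : Fin (n + 1) → A → Fin (n + 1)) (D : ℕ)
    (τ : Multiset (List A)) : |fr δ D τ| ≤ 1 := by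
  rw [abs_of_nonneg (fr_nonneg _ _ _)]; exact fr_le_one _ _ _

theorem abs_mm_le (D : ℕ) (τ : Multiset (List A)) : |mm A D τ| ≤ 1 := by
  rw [abs_of_nonneg (mm_nonneg _ _ _)]; exact mm_le_one _ _ _

theorem abs_tt_le {n : ℕ} (δ : Fin (n + 1) → A → Fin (n + 1)) (a : A) : |tt δ a| ≤ 1 := by
  rw [abs_of_nonneg (tt_nonneg _ _)]; exact tt_le_one _ _

/-- symmetric form of the switching relation for two in-edges -/
theorem rel2 (hsw : SwitchRel A) (D : ℕ) (a b : A) (τ τ' : Multiset (List A)) :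
    Sim A (fun n δ => yy δ D b τ' * fr δ D τ) (fun n δ => yy δ D a τ * fr δ D τ') := by
  have h1 : Sim A (fun n δ => (Yn δ D (Fin.snoc (α := fun _ => A × Multiset (List A))
      ![(b, τ')] (a, τ) : Fin (1 + 1) → A × Multiset (List A)) : ℝ) / (n + 1))
      (fun n δ => yy δ D b τ' * (fr δ D τ - yy δ D a τ)) := hsw D one_pos ![(b, τ')] (a, τ)
  have h2 : Sim A (fun n δ => (Yn δ D (Fin.snoc (α := fun _ => A × Multiset (List A))
      ![(a, τ)] (b, τ') : Fin (1 + 1) → A × Multiset (List A)) : ℝ) / (n + 1))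
      (fun n δ => yy δ D a τ * (fr δ D τ' - yy δ D b τ')) := hsw D one_pos ![(a, τ)] (b, τ')
  have h3 := h1.symm.trans ((Sim.of_eq fun n δ _ => by rw [Yn_snoc_comm]).trans h2)
  have h4 := h3.add (Sim.refl (A := A) (fun n δ => yy δ D a τ * yy δ D b τ'))
  refine ((Sim.of_eq fun n δ _ => ?_).trans h4).trans (Sim.of_eq fun n δ _ => ?_)
  · ring
  · ring

theorem LawAt.fr_sim {D : ℕ} (hL : LawAt A D) (τ : Multiset (List A)) :
    Sim A (fun n δ => fr δ D τ) (fun _ _ => mm A D τ) := by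
  unfold Sim
  refine tendsto_ES_of_le (fun n δ _ => abs_nonneg _) (fun n δ _ => ?_) hL
  have hs : Summable fun τ => |fr δ D τ - (mu A D τ).toReal| :=
    ((hasSum_fr_one δ D).summable.sub (hasSum_mm A D).summable).abs
  exact hs.le_tsum τ fun _ _ => abs_nonneg _

theorem yy_sim (hsw : SwitchRel A) {D : ℕ} (hL : LawAt A D) (a : A) (τ : Multiset (List A)) :
    Sim A (fun n δ => yy δ D a τ) (fun n δ => tt δ a * mm A D τ) := by
  classical
  have h1 : ∀ τ', Sim A (fun n δ => yy δ D a τ' * mm A D τ) (fun n δ => yy δ D a τ * mm A D τ') := by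
    intro τ'
    have e1 : Sim A (fun n δ => yy δ D a τ' * fr δ D τ) (fun n δ => yy δ D a τ' * mm A D τ) :=
      (Sim.refl _).mul (hL.fr_sim τ) 1 (fun n δ _ => abs_fr_le _ _ _) (fun n δ _ => abs_yy_le _ _ _ _)
    have e2 : Sim A (fun n δ => yy δ D a τ * fr δ D τ') (fun n δ => yy δ D a τ * mm A D τ') :=
      (Sim.refl _).mul (hL.fr_sim τ') 1 (fun n δ _ => abs_fr_le _ _ _) (fun n δ _ => abs_yy_le _ _ _ _)
    exact e1.symm.trans ((rel2 hsw D a a τ τ').trans e2)
  unfold Sim
  refine tendsto_of_le (fun n => ES_nonneg fun δ _ => abs_nonneg _) ?_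
  intro ε hε
  obtain ⟨F, hF⟩ : ∃ F : Finset (Multiset (List A)), 1 - ε / 4 < ∑ τ' ∈ F, mm A D τ' :=
    ((hasSum_mm A D).eventually (lt_mem_nhds (show 1 - ε / 4 < (1 : ℝ) by linarith))).exists
  have key : ∀ n (δ : Fin (n + 1) → A → Fin (n + 1)), |yy δ D a τ - tt δ a * mm A D τ| ≤
      (∑ τ' ∈ F, |yy δ D a τ' * mm A D τ - yy δ D a τ * mm A D τ'|) +
      (∑ τ' ∈ F, |fr δ D τ' - mm A D τ'|) + 2 * (1 - ∑ τ' ∈ F, mm A D τ') := by
    intro n δ
    have b1 : ∑ τ' ∈ F, (fr δ D τ' - yy δ D a τ') ≤ 1 - tt δ a :=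
      sum_le_hasSum F (fun τ' _ => sub_nonneg.2 (yy_le_fr _ _ _ _))
        ((hasSum_fr_one δ D).sub (hasSum_yy δ D a))
    have b2 : ∑ τ' ∈ F, yy δ D a τ' ≤ tt δ a :=
      sum_le_hasSum F (fun τ' _ => yy_nonneg _ _ _ _) (hasSum_yy δ D a)
    have b3 : ∑ τ' ∈ F, mm A D τ' ≤ 1 :=
      sum_le_hasSum F (fun τ' _ => mm_nonneg _ _ _) (hasSum_mm A D)
    have b4 : ∑ τ' ∈ F, (mm A D τ' - fr δ D τ') ≤ ∑ τ' ∈ F, |fr δ D τ' - mm A D τ'| := by
      refine Finset.sum_le_sum fun τ' _ => ?_
      rw [abs_sub_comm]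
      exact le_abs_self _
    rw [Finset.sum_sub_distrib] at b1 b4
    have e : yy δ D a τ - tt δ a * mm A D τ =
        -(∑ τ' ∈ F, (yy δ D a τ' * mm A D τ - yy δ D a τ * mm A D τ')) -
          ((tt δ a - ∑ τ' ∈ F, yy δ D a τ') * mm A D τ) +
          yy δ D a τ * (1 - ∑ τ' ∈ F, mm A D τ') := by
      rw [Finset.sum_sub_distrib, ← Finset.sum_mul, ← Finset.mul_sum]
      ring
    rw [e]
    have c1 : |∑ τ' ∈ F, (yy δ D a τ' * mm A D τ - yy δ D a τ * mm A D τ')| ≤
        ∑ τ' ∈ F, |yy δ D a τ' * mm A D τ - yy δ D a τ * mm A D τ'| :=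
      Finset.abs_sum_le_sum_abs _ _
    have c2 : 0 ≤ (tt δ a - ∑ τ' ∈ F, yy δ D a τ') * mm A D τ :=
      mul_nonneg (by linarith) (mm_nonneg _ _ _)
    have c3 : (tt δ a - ∑ τ' ∈ F, yy δ D a τ') * mm A D τ ≤ tt δ a - ∑ τ' ∈ F, yy δ D a τ' :=
      mul_le_of_le_one_right (by linarith) (mm_le_one _ _ _)
    have c4 : 0 ≤ yy δ D a τ * (1 - ∑ τ' ∈ F, mm A D τ') :=
      mul_nonneg (yy_nonneg _ _ _ _) (by linarith)
    have c5 : yy δ D a τ * (1 - ∑ τ' ∈ F, mm A D τ') ≤ 1 - ∑ τ' ∈ F, mm A D τ' :=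
      mul_le_of_le_one_left (by linarith) (yy_le_one _ _ _ _)
    have c6 := neg_abs_le (∑ τ' ∈ F, (yy δ D a τ' * mm A D τ - yy δ D a τ * mm A D τ'))
    have c7 := le_abs_self (∑ τ' ∈ F, (yy δ D a τ' * mm A D τ - yy δ D a τ * mm A D τ'))
    rw [abs_le]
    constructor <;> linarith
  have hlim : Tendsto (fun n : ℕ =>
      (∑ τ' ∈ F, ES A n fun δ => |yy δ D a τ' * mm A D τ - yy δ D a τ * mm A D τ'|) +
      (∑ τ' ∈ F, ES A n fun δ => |fr δ D τ' - mm A D τ'|)) atTop
      (𝓝 ((∑ τ' ∈ F, (0 : ℝ)) + ∑ τ' ∈ F, (0 : ℝ))) :=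
    (tendsto_finsetSum F fun τ' _ => h1 τ').add (tendsto_finsetSum F fun τ' _ => hL.fr_sim τ')
  rw [Finset.sum_const_zero, add_zero] at hlim
  filter_upwards [hlim.eventually (gt_mem_nhds (show (0 : ℝ) < ε / 2 by linarith))] with n hn
  have h5 := ES_mono (A := A) (n := n) (fun δ _ => key n δ)
  rw [ES_add, ES_add, ES_sum, ES_sum, ES_const] at h5
  linarith

theorem tt_sim (hsw : SwitchRel A) (a b : A) :
    Sim A (fun n δ => tt δ b) (fun n δ => tt δ a) := by
  refine ((Sim.of_eq fun n δ _ => ?_).trans (rel2 hsw 0 a b {[]} {[]})).trans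
    (Sim.of_eq fun n δ _ => ?_)
  · rw [yy_zero, fr_zero, mul_one]
  · rw [yy_zero, fr_zero, mul_one]

theorem word_sim (hsw : SwitchRel A) (a : A) (j : ℕ) : ∀ v : Fin (j + 1) → A,
    Sim A (fun n δ => (Yn δ 0 (fun i => (v i, ({[]} : Multiset (List A)))) : ℝ) / (n + 1))
      (fun n δ => tt δ a * (1 - tt δ a) ^ j) := by
  induction j with
  | zero =>
    intro v
    have e : (fun i => (v i, ({[]} : Multiset (List A)))) = ![(v 0, {[]})] := by
      funext i
      have : i = 0 := Subsingleton.elim (α := Fin 1) i 0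
      subst this
      rfl
    rw [e]
    refine (Sim.of_eq fun n δ _ => ?_).trans ((tt_sim hsw a (v 0)).trans (Sim.of_eq fun n δ _ => ?_))
    · exact yy_zero δ (v 0)
    · simp
  | succ j ih =>
    intro v
    have e : (fun i => (v i, ({[]} : Multiset (List A)))) =
        (Fin.snoc (α := fun _ => A × Multiset (List A)) (fun i : Fin (j + 1) =>
          (v i.castSucc, ({[]} : Multiset (List A)))) (v (Fin.last (j + 1)), {[]}) :
          Fin (j + 1 + 1) → A × Multiset (List A)) := by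
      rw [← Fin.snoc_init_self (fun i => (v i, ({[]} : Multiset (List A))))]
      rfl
    rw [e]
    have h1 : Sim A (fun n δ => (Yn δ 0 (Fin.snoc (α := fun _ => A × Multiset (List A))
          (fun i : Fin (j + 1) => (v i.castSucc, ({[]} : Multiset (List A))))
          (v (Fin.last (j + 1)), {[]}) : Fin (j + 1 + 1) → A × Multiset (List A)) : ℝ) / (n + 1))
        (fun n δ => (Yn δ 0 (fun i : Fin (j + 1) => (v i.castSucc, ({[]} : Multiset (List A)))) : ℝ)
          / (n + 1) * (fr δ 0 {[]} - yy δ 0 (v (Fin.last (j + 1))) {[]})) :=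
      hsw 0 (Nat.succ_pos j) _ _
    refine h1.trans ?_
    have h2 := ih (fun i => v i.castSucc)
    have h3 : Sim A (fun n δ => fr δ 0 {[]} - yy δ 0 (v (Fin.last (j + 1))) {[]})
        (fun n δ => 1 - tt δ a) := by
      refine (Sim.of_eq fun n δ _ => ?_).trans ((Sim.refl (fun _ _ => (1 : ℝ))).sub
        (tt_sim hsw a (v (Fin.last (j + 1)))))
      rw [fr_zero, yy_zero]
    refine (h2.mul h3 1 (fun n δ _ => ?_) (fun n δ _ => ?_)).trans (Sim.of_eq fun n δ _ => ?_)
    · rw [fr_zero, yy_zero, abs_le]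
      constructor <;> linarith [tt_nonneg δ (v (Fin.last (j + 1))), tt_le_one δ (v (Fin.last (j + 1)))]
    · have t0 := tt_nonneg δ a
      have t1 := tt_le_one δ a
      rw [abs_of_nonneg (mul_nonneg t0 (pow_nonneg (by linarith) _))]
      exact mul_le_one₀ t1 (pow_nonneg (by linarith) _) (pow_le_one₀ (by linarith) (by linarith))
    · rw [pow_succ]
      ring

theorem mass_sim (hsw : SwitchRel A) (a : A) (K : ℕ) :
    Sim A (fun n δ => ∑ j ∈ Icc 1 K, ∑ v : Fin j → A,
        (Yn δ 0 (fun i => (v i, ({[]} : Multiset (List A)))) : ℝ) / (n + 1) / j.factorial)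
      (fun n δ => ∑ j ∈ range K, cc (Fintype.card A) j * (1 - tt δ a) ^ j * (1 - (1 - tt δ a))) := by
  have h1 : ∀ n (δ : Fin (n + 1) → A → Fin (n + 1)), (∑ j ∈ Icc 1 K, ∑ v : Fin j → A,
        (Yn δ 0 (fun i => (v i, ({[]} : Multiset (List A)))) : ℝ) / (n + 1) / j.factorial) =
      ∑ j ∈ range K, ∑ v : Fin (j + 1) → A, (((j + 1).factorial : ℝ))⁻¹ *
        ((Yn δ 0 (fun i => (v i, ({[]} : Multiset (List A)))) : ℝ) / (n + 1)) := by
    intro n δ
    have e1 : Icc 1 K = Ico (0 + 1) (K + 1) := by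
      ext x; rw [Finset.mem_Icc, Finset.mem_Ico]; omega
    rw [e1, ← Finset.sum_Ico_add' _ 0 K 1, ← Finset.range_eq_Ico]
    refine Finset.sum_congr rfl fun j _ => Finset.sum_congr rfl fun v _ => ?_
    rw [div_eq_inv_mul]
  have h2 : ∀ j : ℕ, Sim A (fun n δ => ∑ v : Fin (j + 1) → A, (((j + 1).factorial : ℝ))⁻¹ *
        ((Yn δ 0 (fun i => (v i, ({[]} : Multiset (List A)))) : ℝ) / (n + 1)))
      (fun n δ => cc (Fintype.card A) j * (1 - tt δ a) ^ j * (1 - (1 - tt δ a))) := by
    intro j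
    have h3 := Sim.sum (A := A) (univ : Finset (Fin (j + 1) → A))
      (f := fun v n δ => (((j + 1).factorial : ℝ))⁻¹ *
        ((Yn δ 0 (fun i => (v i, ({[]} : Multiset (List A)))) : ℝ) / (n + 1)))
      (g := fun _ n δ => (((j + 1).factorial : ℝ))⁻¹ * (tt δ a * (1 - tt δ a) ^ j))
      (fun v _ => (word_sim hsw a j v).const_mul _)
    refine h3.trans (Sim.of_eq fun n δ _ => ?_)
    rw [Finset.sum_const, Finset.card_univ, Fintype.card_fun, Fintype.card_fin, nsmul_eq_mul, cc]
    push_cast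
    rw [div_eq_mul_inv]
    ring
  have h4 := Sim.sum (A := A) (range K)
    (f := fun j n δ => ∑ v : Fin (j + 1) → A, (((j + 1).factorial : ℝ))⁻¹ *
        ((Yn δ 0 (fun i => (v i, ({[]} : Multiset (List A)))) : ℝ) / (n + 1)))
    (g := fun j n δ => cc (Fintype.card A) j * (1 - tt δ a) ^ j * (1 - (1 - tt δ a)))
    (fun j _ => h2 j)
  exact (Sim.of_eq fun n δ _ => h1 n δ).trans h4

theorem tt_lim (hk : 2 ≤ Fintype.card A) (hsw : SwitchRel A) (a : A) :
    Sim A (fun n δ => tt δ a) (fun _ _ => 1 - nu (Fintype.card A)) := by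
  set k := Fintype.card A with hkdef
  -- the generating function is close to one
  have hG : Tendsto (fun n : ℕ => ES A n fun δ => |GG k (1 - tt δ a) - 1|) atTop (𝓝 0) := by
    refine tendsto_of_le (fun n => ES_nonneg fun δ _ => abs_nonneg _) ?_
    intro ε hε
    have hr : Tendsto (fun K : ℕ => (∑' j, cc k (j + K)) + (k : ℝ) / K) atTop (𝓝 (0 + 0)) :=
      (tendsto_sum_nat_add (cc k)).add (tendsto_const_div_atTop_nhds_zero_nat _)
    rw [add_zero] at hr
    obtain ⟨K, hK0, hK⟩ := ((eventually_gt_atTop 0).and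
      (hr.eventually (gt_mem_nhds (show (0 : ℝ) < ε / 3 by linarith)))).exists
    have h1 := mass_sim hsw a K
    have h2 : Tendsto (fun n : ℕ => 1 / ((n : ℝ) + 1)) atTop (𝓝 0) :=
      tendsto_one_div_add_atTop_nhds_zero_nat
    filter_upwards [h1.eventually (gt_mem_nhds (show (0 : ℝ) < ε / 3 by linarith)),
      h2.eventually (gt_mem_nhds (show (0 : ℝ) < ε / 3 by linarith))] with n hn1 hn2
    have h3 : ∀ δ ∈ Sur A (0 : Fin (n + 1)), |GG k (1 - tt δ a) - 1| ≤
        |(∑ j ∈ Icc 1 K, ∑ v : Fin j → A,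
          (Yn δ 0 (fun i => (v i, ({[]} : Multiset (List A)))) : ℝ) / (n + 1) / j.factorial) -
          ∑ j ∈ range K, cc k j * (1 - tt δ a) ^ j * (1 - (1 - tt δ a))| +
        ((∑' j, cc k (j + K)) + (1 / ((n : ℝ) + 1) + k / K)) := by
      intro δ hδ
      have e1 := GG_truncate k K (x := 1 - tt δ a) (by linarith [tt_le_one δ a])
        (by linarith [tt_nonneg δ a])
      have e2 := truncated_mass hδ hK0
      rw [← hkdef] at e2
      set R := ∑ j ∈ Icc 1 K, ∑ v : Fin j → A,
          (Yn δ 0 (fun i => (v i, ({[]} : Multiset (List A)))) : ℝ) / (n + 1) / j.factorial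
      set S := ∑ j ∈ range K, cc k j * (1 - tt δ a) ^ j * (1 - (1 - tt δ a))
      have e3 : GG k (1 - tt δ a) - 1 = (GG k (1 - tt δ a) - S) + (S - R) + (R - 1) := by ring
      rw [e3]
      refine (abs_add_le _ _).trans ?_
      have e4 := abs_add_le (GG k (1 - tt δ a) - S) (S - R)
      rw [abs_sub_comm S R] at e4
      linarith
    have h4 := ES_mono (A := A) (n := n) h3
    rw [ES_add, ES_const] at h4
    linarith
  -- hence `tt` is close to `1 - nu`
  unfold Sim
  refine tendsto_of_le (fun n => ES_nonneg fun δ _ => abs_nonneg _) ?_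
  intro ε hε
  obtain ⟨C, hC, hC'⟩ := exists_modulus hk (show (0 : ℝ) < ε / 2 by linarith)
  have h1 := hG.const_mul C
  rw [mul_zero] at h1
  filter_upwards [h1.eventually (gt_mem_nhds (show (0 : ℝ) < ε / 2 by linarith))] with n hn
  have h2 : ∀ δ ∈ Sur A (0 : Fin (n + 1)), |tt δ a - (1 - nu k)| ≤
      ε / 2 + C * |GG k (1 - tt δ a) - 1| := by
    intro δ _
    have e1 := hC' (1 - tt δ a) ⟨by linarith [tt_le_one δ a], by linarith [tt_nonneg δ a]⟩
    have e2 : |tt δ a - (1 - nu k)| = |1 - tt δ a - nu k| := by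
      rw [← abs_neg]; congr 1; ring
    rw [e2]
    exact e1
  have h3 := ES_mono (A := A) (n := n) h2
  rw [ES_add, ES_const, ES_const_mul] at h3
  linarith

theorem yy_lim (hk : 2 ≤ Fintype.card A) (hsw : SwitchRel A) {D : ℕ} (hL : LawAt A D) (a : A)
    (τ : Multiset (List A)) :
    Sim A (fun n δ => yy δ D a τ) (fun _ _ => (1 - nu (Fintype.card A)) * mm A D τ) := by
  refine (yy_sim hsw hL a τ).trans ?_
  refine (tt_lim hk hsw a).mul (Sim.refl _) 1 (fun n δ _ => abs_mm_le _ _) (fun n δ _ => ?_)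
  obtain ⟨h0, h1, _⟩ := nu_spec hk
  rw [abs_le]
  constructor <;> linarith

theorem Yn_lim (hk : 2 ≤ Fintype.card A) (hsw : SwitchRel A) {D : ℕ} (hL : LawAt A D) (j : ℕ) :
    ∀ ℓ : Fin (j + 1) → A × Multiset (List A),
    Sim A (fun n δ => (Yn δ D ℓ : ℝ) / (n + 1))
      (fun _ _ => (1 - nu (Fintype.card A)) * nu (Fintype.card A) ^ j *
        ∏ i, mm A D (ℓ i).2) := by
  obtain ⟨h0, h1, _⟩ := nu_spec hk
  induction j with
  | zero =>
    intro ℓ
    have e : ℓ = ![((ℓ 0).1, (ℓ 0).2)] := by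
      funext i
      have : i = 0 := Subsingleton.elim (α := Fin 1) i 0
      subst this
      rfl
    rw [e]
    refine (yy_lim hk hsw hL (ℓ 0).1 (ℓ 0).2).trans (Sim.of_eq fun n δ _ => ?_)
    simp
  | succ j ih =>
    intro ℓ
    have e : ℓ = (Fin.snoc (α := fun _ => A × Multiset (List A)) (fun i : Fin (j + 1) =>
        ℓ i.castSucc) (ℓ (Fin.last (j + 1))) : Fin (j + 1 + 1) → A × Multiset (List A)) :=
      (Fin.snoc_init_self ℓ).symm
    have h2 : Sim A (fun n δ => (Yn δ D (Fin.snoc (α := fun _ => A × Multiset (List A))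
          (fun i : Fin (j + 1) => ℓ i.castSucc) (ℓ (Fin.last (j + 1))) :
          Fin (j + 1 + 1) → A × Multiset (List A)) : ℝ) / (n + 1))
        (fun n δ => (Yn δ D (fun i : Fin (j + 1) => ℓ i.castSucc) : ℝ)
          / (n + 1) * (fr δ D (ℓ (Fin.last (j + 1))).2 -
            yy δ D (ℓ (Fin.last (j + 1))).1 (ℓ (Fin.last (j + 1))).2)) :=
      hsw D (Nat.succ_pos j) _ _
    rw [← e] at h2
    refine h2.trans ?_
    have h3 := ih (fun i => ℓ i.castSucc)
    have h4 : Sim A (fun n δ => fr δ D (ℓ (Fin.last (j + 1))).2 -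
            yy δ D (ℓ (Fin.last (j + 1))).1 (ℓ (Fin.last (j + 1))).2)
        (fun n δ => mm A D (ℓ (Fin.last (j + 1))).2 -
          (1 - nu (Fintype.card A)) * mm A D (ℓ (Fin.last (j + 1))).2) :=
      (hL.fr_sim _).sub (yy_lim hk hsw hL _ _)
    refine (h3.mul h4 1 (fun n δ _ => ?_) (fun n δ _ => ?_)).trans (Sim.of_eq fun n δ _ => ?_)
    · rw [abs_le]
      have a1 := yy_le_fr δ D (ℓ (Fin.last (j + 1))).1 (ℓ (Fin.last (j + 1))).2
      have a2 := fr_le_one δ D (ℓ (Fin.last (j + 1))).2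
      have a3 := yy_nonneg δ D (ℓ (Fin.last (j + 1))).1 (ℓ (Fin.last (j + 1))).2
      constructor <;> linarith
    · have b1 : 0 ≤ ∏ i : Fin (j + 1), mm A D (ℓ i.castSucc).2 :=
        Finset.prod_nonneg fun i _ => mm_nonneg _ _ _
      have b2 : ∏ i : Fin (j + 1), mm A D (ℓ i.castSucc).2 ≤ 1 :=
        Finset.prod_le_one (fun i _ => mm_nonneg _ _ _) (fun i _ => mm_le_one _ _ _)
      have b3 : 0 ≤ 1 - nu (Fintype.card A) := by linarith
      have b4 : (1 - nu (Fintype.card A)) * nu (Fintype.card A) ^ j ≤ 1 :=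
        mul_le_one₀ (by linarith) (pow_nonneg h0.le _) (pow_le_one₀ h0.le h1.le)
      rw [abs_of_nonneg (by positivity)]
      exact mul_le_one₀ b4 b1 b2
    · rw [Fin.prod_univ_castSucc (fun i : Fin (j + 1 + 1) => mm A D (ℓ i).2), pow_succ]
      ring

theorem iid_ofFn {α : Type*} (p : PMF α) : ∀ (j i : ℕ) (ℓ : Fin i → α),
    iid p j (List.ofFn ℓ) = if j = i then ∏ x, p (ℓ x) else 0 := by
  classical
  intro j
  induction j with
  | zero =>
    intro i ℓ
    rw [iid, PMF.pure_apply]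
    rcases Nat.eq_zero_or_pos i with hi | hi
    · subst hi
      simp
    · rw [if_neg, if_neg (by omega)]
      intro h
      have := congrArg List.length h
      rw [List.length_ofFn, List.length_nil] at this
      omega
  | succ j ih =>
    intro i ℓ
    rw [iid, PMF.bind_apply]
    rcases i with _ | i
    · rw [if_neg (by omega), ENNReal.tsum_eq_zero]
      intro x
      rw [PMF.map_apply, ENNReal.tsum_eq_zero.2, mul_zero]
      intro l
      rw [if_neg]
      intro h
      have := congrArg List.length h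
      rw [List.length_ofFn, List.length_cons] at this
      omega
    · rw [tsum_eq_single (ℓ 0)]
      · rw [PMF.map_apply, List.ofFn_succ, tsum_eq_single (List.ofFn fun x => ℓ x.succ), if_pos rfl,
          ih i (fun x => ℓ x.succ)]
        · by_cases h : j = i
          · rw [if_pos h, if_pos (by omega), Fin.prod_univ_succ]
          · rw [if_neg h, if_neg (by omega), mul_zero]
        · intro l hl
          rw [if_neg]
          intro h
          exact hl (List.cons_injective h).symm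
      · intro x hx
        rw [PMF.map_apply, ENNReal.tsum_eq_zero.2, mul_zero]
        intro l
        rw [if_neg]
        intro h
        rw [List.ofFn_succ, List.cons.injEq] at h
        exact hx h.1.symm

theorem mark_apply (μ : PMF (Multiset (List A))) (a : A) (τ : Multiset (List A)) :
    mark μ (a, τ) = (Fintype.card A : ℝ≥0∞)⁻¹ * μ τ := by
  classical
  rw [mark, PMF.bind_apply, tsum_eq_single a]
  · rw [PMF.uniformOfFintype_apply, PMF.map_apply, tsum_eq_single τ, if_pos rfl]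
    intro m hm
    rw [if_neg]
    intro h
    exact hm (congrArg Prod.snd h).symm
  · intro b hb
    rw [PMF.map_apply, ENNReal.tsum_eq_zero.2, mul_zero]
    intro m
    rw [if_neg]
    intro h
    exact hb (congrArg Prod.fst h).symm

variable (A)

/-- law of the list of labelled subtrees at the root -/
noncomputable def lawL (D : ℕ) : PMF (List (A × Multiset (List A))) :=
  (off (Fintype.card A)).bind fun j => iid (mark (mu A D)) j

theorem mu_succ (D : ℕ) : mu A (D + 1) = (lawL A D).map comb := rfl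

variable {A}

theorem lawL_ofFn (hk : 2 ≤ Fintype.card A) (D : ℕ) {j : ℕ} (ℓ : Fin j → A × Multiset (List A)) :
    (lawL A D (List.ofFn ℓ)).toReal = offW (Fintype.card A) j *
      ∏ i, ((Fintype.card A : ℝ)⁻¹ * mm A D (ℓ i).2) := by
  rw [lawL, PMF.bind_apply, tsum_eq_single j]
  · rw [iid_ofFn, if_pos rfl, ENNReal.toReal_mul, off_apply hk,
      ENNReal.toReal_ofReal (offW_nonneg hk j), ENNReal.toReal_prod]
    congr 1
    refine Finset.prod_congr rfl fun i _ => ?_
    rw [show ℓ i = ((ℓ i).1, (ℓ i).2) from rfl, mark_apply, ENNReal.toReal_mul, ENNReal.toReal_inv]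
    simp [mm]
  · intro i hi
    rw [iid_ofFn, if_neg hi, mul_zero]

/-- the limiting law on enumerated neighbourhoods -/
noncomputable def PP (A : Type u) [Fintype A] [Nonempty A] (D : ℕ)
    (s : Σ j, (Fin j → A × Multiset (List A))) : ℝ := (lawL A D (List.ofFn s.2)).toReal

theorem hasSum_PP (D : ℕ) : HasSum (PP A D) 1 := by
  have h := hasSum_pmf_toReal (lawL A D)
  have e : PP A D = (fun l => (lawL A D l).toReal) ∘
      (List.equivSigmaTuple (α := A × Multiset (List A))).symm := by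
    funext s
    rfl
  rw [e, Equiv.hasSum_iff]
  exact h

theorem hasSum_PP_fiber (D : ℕ) (τ : Multiset (List A)) :
    HasSum (fun s : (fun s : Σ j, (Fin j → A × Multiset (List A)) =>
        comb (List.ofFn s.2)) ⁻¹' {τ} => PP A D s.1) (mm A (D + 1) τ) := by
  classical
  have h1 : mm A (D + 1) τ = ∑' l, (if τ = comb l then lawL A D l else 0).toReal := by
    rw [mm, mu_succ, PMF.map_apply, ENNReal.tsum_toReal_eq]
    · refine tsum_congr fun l => ?_
      congr
    · intro l
      split_ifs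
      · exact PMF.apply_ne_top _ _
      · exact ENNReal.zero_ne_top
  have h2 : Summable fun l => (if τ = comb l then lawL A D l else 0).toReal := by
    refine Summable.of_nonneg_of_le (fun l => ENNReal.toReal_nonneg) (fun l => ?_)
      (hasSum_pmf_toReal (lawL A D)).summable
    split_ifs
    · exact le_rfl
    · simp
  have h3 : HasSum (fun l => (if τ = comb l then lawL A D l else 0).toReal) (mm A (D + 1) τ) := by
    rw [h1]
    exact h2.hasSum
  have h4 := (Equiv.hasSum_iff (List.equivSigmaTuple (α := A × Multiset (List A))).symm).2 h3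
  change HasSum (PP A D ∘ Subtype.val) _
  rw [hasSum_subtype_iff_indicator]
  convert h4 using 1
  funext s
  by_cases hs : comb (List.ofFn s.2) = τ
  · rw [Set.indicator_of_mem]
    · change _ = (if τ = comb (List.ofFn s.2) then lawL A D (List.ofFn s.2) else 0).toReal
      rw [if_pos hs.symm]
      rfl
    · exact hs
  · rw [Set.indicator_of_notMem]
    · change _ = (if τ = comb (List.ofFn s.2) then lawL A D (List.ofFn s.2) else 0).toReal
      rw [if_neg (fun h => hs h.symm)]
      simp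
    · exact hs

theorem PP_lim (hk : 2 ≤ Fintype.card A) (hsw : SwitchRel A) {D : ℕ} (hL : LawAt A D)
    (s : Σ j, (Fin j → A × Multiset (List A))) :
    Sim A (fun n δ => (Yn δ D s.2 : ℝ) / ((n + 1) * s.1.factorial)) (fun _ _ => PP A D s) := by
  classical
  obtain ⟨j, ℓ⟩ := s
  rcases j with _ | j
  · have hz : PP A D ⟨0, ℓ⟩ = 0 := by
      unfold PP
      rw [lawL_ofFn hk]
      simp [offW]
    unfold Sim
    have h2 : Tendsto (fun n : ℕ => 1 / ((n : ℝ) + 1)) atTop (𝓝 0) :=
      tendsto_one_div_add_atTop_nhds_zero_nat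
    refine squeeze_zero (fun n => ES_nonneg fun δ _ => abs_nonneg _) (fun n => ?_) h2
    rw [← ES_const (A := A) n (1 / ((n : ℝ) + 1))]
    refine ES_mono fun δ hδ => ?_
    rw [hz, sub_zero, abs_of_nonneg (by positivity)]
    simp only [Nat.factorial_zero, Nat.cast_one, mul_one]
    have h3 : Yn δ D ℓ ≤ 1 := by
      rw [Yn_eq]
      refine le_trans ?_ (card_zero hδ)
      rw [Finset.card_filter]
      refine Finset.sum_le_sum fun p _ => ?_
      split_ifs with hp
      · refine (Finset.sum_le_sum (g := fun _ => 1) fun e _ => ?_).trans ?_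
        · split_ifs <;> omega
        · rw [Finset.sum_const, smul_eq_mul, mul_one]
          refine (Finset.card_le_univ _).trans ?_
          simp
      · refine (Finset.sum_nonpos fun e he => ?_)
        exact absurd (card_of_mem_Enu he) hp
    gcongr
    exact_mod_cast h3
  · have h1 := (Yn_lim hk hsw hL j ℓ).const_mul ((((j + 1).factorial : ℝ))⁻¹)
    refine ((Sim.of_eq fun n δ _ => ?_).trans h1).trans (Sim.of_eq fun n δ _ => ?_)
    · simp only
      rw [mul_comm ((n : ℝ) + 1), div_mul_eq_div_div, div_right_comm, div_eq_inv_mul]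
    · unfold PP
      rw [lawL_ofFn hk]
      obtain ⟨n0, n1, _⟩ := nu_spec hk
      have hk0 : (Fintype.card A : ℝ) ≠ 0 := by
        have : (2 : ℝ) ≤ Fintype.card A := by exact_mod_cast hk
        linarith
      rw [Finset.prod_mul_distrib, Finset.prod_const, Finset.card_univ, Fintype.card_fin, offW,
        if_neg (Nat.succ_ne_zero j)]
      have hf : ((j + 1).factorial : ℝ) ≠ 0 := by exact_mod_cast Nat.factorial_ne_zero _
      rw [mul_pow, inv_pow]
      have hn0 : nu (Fintype.card A) ≠ 0 := n0.ne'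
      field_simp
      ring

theorem fiber_bound {n : ℕ} (δ : Fin (n + 1) → A → Fin (n + 1)) (D : ℕ) :
    ∑' τ, |fr δ (D + 1) τ - (mu A (D + 1) τ).toReal| ≤
      ∑' s : Σ j, (Fin j → A × Multiset (List A)),
        |(Yn δ D s.2 : ℝ) / ((n + 1) * s.1.factorial) - PP A D s| := by
  have hs : Summable fun s : Σ j, (Fin j → A × Multiset (List A)) =>
      |(Yn δ D s.2 : ℝ) / ((n + 1) * s.1.factorial) - PP A D s| :=
    ((hasSum_Yn_one δ D).summable.sub (hasSum_PP D).summable).abs
  have h1 := hs.hasSum.tsum_fiberwise (fun s : Σ j, (Fin j → A × Multiset (List A)) =>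
        comb (List.ofFn s.2))
  rw [← h1.tsum_eq]
  refine Summable.tsum_le_tsum (fun τ => ?_)
    ((hasSum_fr_one δ (D + 1)).summable.sub (hasSum_mm A (D + 1)).summable).abs h1.summable
  have h2 := (hasSum_fr δ D τ).sub (hasSum_PP_fiber D τ)
  have h3 : Summable fun s : (fun s : Σ j, (Fin j → A × Multiset (List A)) =>
        comb (List.ofFn s.2)) ⁻¹' {τ} =>
      |(Yn δ D s.1.2 : ℝ) / ((n + 1) * s.1.1.factorial) - PP A D s.1| := h2.summable.abs
  have h4 := h2.tsum_eq
  change |fr δ (D + 1) τ - mm A (D + 1) τ| ≤ _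
  rw [← h4]
  have h5 := norm_tsum_le_tsum_norm (f := fun s : (fun s : Σ j, (Fin j → A × Multiset (List A)) =>
        comb (List.ofFn s.2)) ⁻¹' {τ} =>
      (Yn δ D s.1.2 : ℝ) / ((n + 1) * s.1.1.factorial) - PP A D s.1) h3
  exact h5

theorem law_succ (hk : 2 ≤ Fintype.card A) (hsw : SwitchRel A) {D : ℕ} (hL : LawAt A D) :
    LawAt A (D + 1) := by
  have h := scheffe (A := A) (PP A D) (fun s => ENNReal.toReal_nonneg) (hasSum_PP D)
    (fun n δ s => (Yn δ D s.2 : ℝ) / ((n + 1) * s.1.factorial)) (fun n δ s => by positivity)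
    (fun n δ => hasSum_Yn_one δ D) (fun s => PP_lim hk hsw hL s)
  unfold LawAt
  exact tendsto_ES_of_le (fun n δ _ => tsum_nonneg fun _ => abs_nonneg _)
    (fun n δ _ => fiber_bound δ D) h

theorem law_zero : LawAt A 0 := by
  classical
  unfold LawAt
  have h : ∀ n : ℕ, (ES A n fun δ => ∑' τ, |fr δ 0 τ - (mu A 0 τ).toReal|) = 0 := by
    intro n
    rw [ES_congr (g := fun _ => (0 : ℝ)), ES_const]
    intro δ _
    have h1 : ∀ τ, |fr δ 0 τ - (mu A 0 τ).toReal| = 0 := by
      intro τ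
      rw [mu, PMF.pure_apply]
      by_cases hτ : τ = {[]}
      · subst hτ
        rw [fr_zero, if_pos rfl, ENNReal.toReal_one, sub_self, abs_zero]
      · rw [if_neg hτ, ENNReal.toReal_zero, sub_zero, abs_eq_zero, fr, Finset.filter_false_of_mem]
        · simp
        · intro p _
          rw [lev_zero]
          exact fun h => hτ h.symm
    simp only [h1, tsum_zero]
  simp only [h]
  exact tendsto_const_nhds

theorem local_law_of_switch (hk : 2 ≤ Fintype.card A) (hsw : SwitchRel A) (D : ℕ) : LawAt A D := by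
  induction D with
  | zero => exact law_zero
  | succ D ih => exact law_succ hk hsw ih

end Main

end LocalLaw

/-- the local law -/
theorem local_law (A : Type u) [Fintype A] [Nonempty A] (hk : 2 ≤ Fintype.card A) (D : ℕ) :
    Tendsto (fun n : ℕ => ES A n fun δ => ∑' τ, |fr δ D τ - (mu A D τ).toReal|) atTop (𝓝 0) :=
  LocalLaw.local_law_of_switch hk (fun D _ hj ℓ x => switch_relation A hk D hj ℓ x) D

end Pool.Agent.SC
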