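import Pool.Agent.W_MP_6663ab_lc.ExploreCount

/-!
# Random final states separate the second coordinates
-/

namespace Pool.Agent.SC

open Finset

universe u v w

/-- forbidden pattern `(1,1,0)` -/
abbrev OkPat : Type := {t : Fin 3 → Bool // ¬ (t 0 = true ∧ t 1 = true ∧ t 2 = false)}

lemma card_OkPat : Fintype.card OkPat = 7 := by decide

open Classical in
/-- avoiding a pattern on disjoint triples -/
theorem card_avoid {X : Type u} {I : Type v} [Fintype X] [DecidableEq X] [Fintype I]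
    (τ : I × Fin 3 → X)
    (hτ : Function.Injective τ) :
    ((univ : Finset (X → Bool)).filter fun G => ∀ i, ¬ (G (τ (i, 0)) = true ∧
      G (τ (i, 1)) = true ∧ G (τ (i, 2)) = false)).card * 8 ^ Fintype.card I ≤
      7 ^ Fintype.card I * 2 ^ Fintype.card X := by
  set R := ((univ : Finset (X → Bool)).filter fun G => ∀ i, ¬ (G (τ (i, 0)) = true ∧
      G (τ (i, 1)) = true ∧ G (τ (i, 2)) = false)) with hR
  have hmem : ∀ G ∈ R, ∀ i, ¬ (G (τ (i, 0)) = true ∧ G (τ (i, 1)) = true ∧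
      G (τ (i, 2)) = false) := by
    intro G hG
    rw [hR, mem_filter] at hG
    exact hG.2
  have h1 : Fintype.card (↥R × (I × Fin 3 → Bool)) ≤ Fintype.card ((I → OkPat) × (X → Bool)) := by
    apply Fintype.card_le_of_injective fun y =>
      ((fun i => (⟨fun j => y.1.1 (τ (i, j)), hmem y.1.1 y.1.2 i⟩ : OkPat)),
        Function.extend τ y.2 y.1.1)
    rintro ⟨⟨G1, hG1⟩, h1⟩ ⟨⟨G2, hG2⟩, h2⟩ h
    simp only [Prod.mk.injEq] at h
    obtain ⟨ha, hb⟩ := h
    have hh : h1 = h2 := by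
      funext z
      rw [← hτ.extend_apply h1 G1 z, hb, hτ.extend_apply]
    have hG : G1 = G2 := by
      funext x
      by_cases hx : ∃ z, τ z = x
      · obtain ⟨⟨i, j⟩, rfl⟩ := hx
        have := congrFun ha i
        rw [Subtype.mk.injEq] at this
        exact congrFun this j
      · have := congrFun hb x
        rwa [Function.extend_apply' _ _ _ hx, Function.extend_apply' _ _ _ hx] at this
    subst hh hG
    rfl
  rw [Fintype.card_prod, Fintype.card_prod, Fintype.card_coe, Fintype.card_fun, Fintype.card_fun,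
    Fintype.card_fun, Fintype.card_prod, card_OkPat, Fintype.card_bool, Fintype.card_fin] at h1
  have h2 : (8 : ℕ) ^ Fintype.card I = 2 ^ (Fintype.card I * 3) := by
    rw [mul_comm, pow_mul]; norm_num
  rw [h2]
  exact h1

variable {A : Type u} {Q : Type v} [Fintype A] [Nonempty A] [Fintype Q] [LinearOrder Q]

/-- no word witnesses `p·w ∈ F, q·w ∈ F', q'·w ∉ F'` -/
def NoWit (δ : Q → A → Q) (F : Q → Bool) (δ' : Q → A → Q) (F' : Q → Bool) (p q q' : Q) : Prop :=
  ∀ w : List A, ¬ (F (run δ p w) = true ∧ F' (run δ' q w) = true ∧ F' (run δ' q' w) = false)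

/-- two excess nodes in total, up to depth `D` -/
def Bad (δ : Q → A → Q) (δ' : Q → A → Q) (ρ₁ : Fin 1 → Q) (ρ₂ : Fin 2 → Q) (D : ℕ) : Prop :=
  ExD δ ρ₁ 2 D ∨ ExD δ' ρ₂ 2 D ∨ (ExD δ ρ₁ 1 D ∧ ExD δ' ρ₂ 1 D)

omit [Nonempty A] [Fintype Q] [LinearOrder Q] in
lemma exn_ne_nil {m : ℕ} {δ : Q → A → Q} {ρ : Fin m → Q} {ν : Fin m × List A}
    (h : Exn δ ρ ν) : ν.2 ≠ [] := by
  obtain ⟨s, a, h1, -, -⟩ := h
  rw [h1]; simp

omit [Nonempty A] [Fintype Q] [LinearOrder Q] in
lemma exD_one {m : ℕ} {δ : Q → A → Q} {ρ : Fin m → Q} {ν : Fin m × List A} {D : ℕ}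
    (h : Exn δ ρ ν) (hD : ν.2.length ≤ D) : ExD δ ρ 1 D :=
  ⟨fun _ => ν, fun _ _ _ => Subsingleton.elim _ _, fun _ => ⟨hD, h⟩⟩

omit [Nonempty A] [Fintype Q] [LinearOrder Q] in
lemma exD_two {m : ℕ} {δ : Q → A → Q} {ρ : Fin m → Q} {ν μ : Fin m × List A} {D : ℕ}
    (h : Exn δ ρ ν) (hD : ν.2.length ≤ D) (h' : Exn δ ρ μ) (hD' : μ.2.length ≤ D)
    (hne : ν ≠ μ) : ExD δ ρ 2 D := by
  refine ⟨![ν, μ], ?_, ?_⟩
  · intro i j hij
    fin_cases i <;> fin_cases j <;> simp_all
  · intro j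
    fin_cases j
    · exact ⟨hD, h⟩
    · exact ⟨hD', h'⟩

omit [Nonempty A] [Fintype Q] [LinearOrder Q] in
/-- with at most one excess node in total, all words starting with a suitable letter are good -/
lemma exists_letter (hk : 2 ≤ Fintype.card A) {δ δ' : Q → A → Q} {ρ₁ : Fin 1 → Q} {ρ₂ : Fin 2 → Q}
    (h2 : Function.Injective ρ₂) {D : ℕ} (hb : ¬ Bad δ δ' ρ₁ ρ₂ D) :
    ∃ b : A, ∀ w : List A, (b :: w).length ≤ D →
      (∀ i, Prim δ ρ₁ (i, b :: w)) ∧ (∀ i, Prim δ' ρ₂ (i, b :: w)) := by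
  have h1 : Function.Injective ρ₁ := fun _ _ _ => Subsingleton.elim _ _
  simp only [Bad, not_or, not_and] at hb
  obtain ⟨hb1, hb2, hb3⟩ := hb
  -- a word with no excess prefix is good
  have hgood : ∀ (m : ℕ) (δ : Q → A → Q) (ρ : Fin m → Q), Function.Injective ρ →
      ∀ w : List A, w.length ≤ D → ∀ i, ¬ Prim δ ρ (i, w) →
      ∃ s t, w = s ++ t ∧ s ≠ [] ∧ Exn δ ρ (i, s) ∧ s.length ≤ D := by
    intro m δ ρ hρ w hw i hn
    obtain ⟨s, t, h3, h4⟩ := exists_exn hρ hn
    refine ⟨s, t, h3, exn_ne_nil h4, h4, ?_⟩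
    have := congrArg List.length h3
    simp at this
    omega
  have hother : ∀ a : A, ∃ b : A, b ≠ a := fun a =>
    Fintype.exists_ne_of_one_lt_card (by omega) a
  by_cases c1 : ExD δ ρ₁ 1 D
  · obtain ⟨e, -, he⟩ := c1
    obtain ⟨hl, hex⟩ := he 0
    obtain ⟨a, w0, hw0⟩ := List.exists_cons_of_ne_nil (exn_ne_nil hex)
    obtain ⟨b, hba⟩ := hother a
    refine ⟨b, fun w hw => ⟨?_, ?_⟩⟩
    · intro i
      by_contra hn
      obtain ⟨s, t, h3, h4, h5, h6⟩ := hgood 1 δ ρ₁ h1 _ hw i hn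
      apply hb1
      refine exD_two hex hl h5 h6 ?_
      intro h7
      obtain ⟨c, s', rfl⟩ := List.exists_cons_of_ne_nil h4
      rw [h7] at hw0
      simp only [List.cons.injEq] at hw0
      simp only [List.cons_append, List.cons.injEq] at h3
      exact hba (h3.1.trans hw0.1)
    · intro i
      by_contra hn
      obtain ⟨s, t, h3, h4, h5, h6⟩ := hgood 2 δ' ρ₂ h2 _ hw i hn
      exact hb3 ⟨e, fun _ _ _ => Subsingleton.elim _ _, he⟩ (exD_one h5 h6)
  · by_cases c2 : ExD δ' ρ₂ 1 D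
    · obtain ⟨e, -, he⟩ := c2
      obtain ⟨hl, hex⟩ := he 0
      obtain ⟨a, w0, hw0⟩ := List.exists_cons_of_ne_nil (exn_ne_nil hex)
      obtain ⟨b, hba⟩ := hother a
      refine ⟨b, fun w hw => ⟨?_, ?_⟩⟩
      · intro i
        by_contra hn
        obtain ⟨s, t, h3, h4, h5, h6⟩ := hgood 1 δ ρ₁ h1 _ hw i hn
        exact c1 (exD_one h5 h6)
      · intro i
        by_contra hn
        obtain ⟨s, t, h3, h4, h5, h6⟩ := hgood 2 δ' ρ₂ h2 _ hw i hn
        apply hb2
        refine exD_two hex hl h5 h6 ?_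
        intro h7
        obtain ⟨c, s', rfl⟩ := List.exists_cons_of_ne_nil h4
        rw [h7] at hw0
        simp only [List.cons.injEq] at hw0
        simp only [List.cons_append, List.cons.injEq] at h3
        exact hba (h3.1.trans hw0.1)
    · obtain ⟨a⟩ : Nonempty A := Fintype.card_pos_iff.1 (by omega)
      refine ⟨a, fun w hw => ⟨?_, ?_⟩⟩
      · intro i
        by_contra hn
        obtain ⟨s, t, h3, h4, h5, h6⟩ := hgood 1 δ ρ₁ h1 _ hw i hn
        exact c1 (exD_one h5 h6)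
      · intro i
        by_contra hn
        obtain ⟨s, t, h3, h4, h5, h6⟩ := hgood 2 δ' ρ₂ h2 _ hw i hn
        exact c2 (exD_one h5 h6)

open Classical in
/-- number of pairs of final state sets without witness -/
noncomputable def tcount (δ δ' : Q → A → Q) (p q q' : Q) : ℕ :=
  ((univ : Finset ((Q → Bool) × (Q → Bool))).filter fun G => NoWit δ G.1 δ' G.2 p q q').card

omit [Nonempty A] in
/-- the bound for fixed transition structures with at most one excess node -/
theorem tcount_le (hk : 2 ≤ Fintype.card A) {δ δ' : Q → A → Q} {p q q' : Q} (hq : q ≠ q') {d : ℕ}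
    (hb : ¬ Bad δ δ' ![p] ![q, q'] (d + 1)) :
    tcount δ δ' p q q' * 8 ^ (Fintype.card A ^ d) ≤
      7 ^ (Fintype.card A ^ d) * 4 ^ Fintype.card Q := by
  classical
  have h2 : Function.Injective (![q, q'] : Fin 2 → Q) := by
    intro i j hij
    fin_cases i <;> fin_cases j <;> simp_all
  obtain ⟨b, hgood⟩ := exists_letter hk h2 hb
  have hprim := fun f : Fin d → A => hgood (List.ofFn f) (by simp)
  -- disjoint triples
  let τ : (Fin d → A) × Fin 3 → Q ⊕ Q := fun z =>
    ![Sum.inl (run δ p (b :: List.ofFn z.1)), Sum.inr (run δ' q (b :: List.ofFn z.1)),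
      Sum.inr (run δ' q' (b :: List.ofFn z.1))] z.2
  have hofFn : Function.Injective (fun f : Fin d → A => b :: List.ofFn f) := by
    intro f g h
    simp only [List.cons.injEq, true_and] at h
    exact List.ofFn_injective h
  have hα : ∀ f g : Fin d → A, run δ p (b :: List.ofFn f) = run δ p (b :: List.ofFn g) → f = g := by
    intro f g h
    have := prim_inj ((hprim f).1 0) ((hprim g).1 0) h
    exact hofFn (Prod.ext_iff.1 this).2
  have hβ : ∀ (i j : Fin 2) (f g : Fin d → A), run δ' ((![q, q'] : Fin 2 → Q) i) (b :: List.ofFn f) =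
      run δ' ((![q, q'] : Fin 2 → Q) j) (b :: List.ofFn g) → i = j ∧ f = g := by
    intro i j f g h
    have := prim_inj ((hprim f).2 i) ((hprim g).2 j) h
    exact ⟨(Prod.ext_iff.1 this).1, hofFn (Prod.ext_iff.1 this).2⟩
  have hτ : Function.Injective τ := by
    rintro ⟨f, i⟩ ⟨g, j⟩ h
    have hb01 := hβ 0 1
    have hb10 := hβ 1 0
    have hb00 := hβ 0 0
    have hb11 := hβ 1 1
    simp only [Matrix.cons_val_zero, Matrix.cons_val_one] at hb01 hb10 hb00 hb11
    fin_cases i <;> fin_cases j <;>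
      simp only [τ, Fin.zero_eta, Fin.mk_one, Fin.reduceFinMk, Matrix.cons_val_zero,
        Matrix.cons_val_one, Matrix.cons_val, Sum.inl.injEq, Sum.inr.injEq, reduceCtorEq] at h
    · rw [hα f g h]
    · rw [(hb00 f g h).2]
    · exact absurd (hb01 f g h).1 (by decide)
    · exact absurd (hb10 f g h).1 (by decide)
    · rw [(hb11 f g h).2]
  have hmain := card_avoid τ hτ
  rw [Fintype.card_fun, Fintype.card_fin, Fintype.card_sum, ← two_mul, pow_mul,
    show (2 : ℕ) ^ 2 = 4 by norm_num] at hmain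
  refine le_trans (Nat.mul_le_mul_right _ ?_) hmain
  unfold tcount
  apply card_le_card_of_injOn fun G : (Q → Bool) × (Q → Bool) => Sum.elim G.1 G.2
  · rintro ⟨F, F'⟩ h
    rw [mem_coe, mem_filter] at h
    rw [mem_coe, mem_filter]
    refine ⟨mem_univ _, fun f hc => ?_⟩
    have := h.2 (b :: List.ofFn f)
    simp only [τ, Matrix.cons_val_zero, Matrix.cons_val_one, Matrix.cons_val, Sum.elim_inl,
      Sum.elim_inr] at hc
    exact this hc
  · rintro ⟨F, F'⟩ _ ⟨G, G'⟩ _ h
    simp only at h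
    refine Prod.ext ?_ ?_
    · funext x; exact congrFun h (Sum.inl x)
    · funext x; exact congrFun h (Sum.inr x)

end Pool.Agent.SC
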